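import Pool.Agent.W_e21d3a_h93.Mixing
import Pool.Agent.W_e21c_h6.Defs

set_option autoImplicit false

/-!
# Bridge from `mixing` to the form (Mix) of `W_e21c_h6/Defs.lean`
-/

namespace Pool.Agent.W_e21d3a_h93

theorem comps_eq_E21 (n l : ℕ) : E21.comps n l = comps n l := by
  induction n generalizing l with
  | zero => rfl
  | succ n ih =>
    rw [comps_succ]
    unfold E21.comps
    simp only [ih]

theorem cc_eq_G (b : List ℕ) : E21.G b = cc b := by
  induction b with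
  | nil => rfl
  | cons a l ih => simp only [E21.G, cc, ih]

theorem nu_eq_phi (m n l Y : ℕ) : E21.nu m n l Y = phi m n l (Y : ℤ) := by
  unfold E21.nu phi
  rw [comps_eq_E21]
  congr 2
  refine congrArg Finset.card (Finset.filter_congr ?_)
  intro b _
  rw [cc_eq_G, Nat.modEq_iff_dvd]
  push_cast
  rfl

/-- (Mix) -/
theorem Mix : ∃ Cm : ℝ, 1 ≤ Cm ∧ ∀ m n : ℕ, 1 ≤ m → m ≤ n → ∀ LL : Finset ℕ,
    ∑ l ∈ LL, ∑ Y ∈ Finset.range (3 ^ n), |E21.nu n n l Y - E21.nu m n l Y / 3 ^ (n - m)|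
      ≤ Cm / m := by
  obtain ⟨C, hC, h⟩ := mixing 1
  refine ⟨max C 1, le_max_right _ _, fun m n hm hmn LL => ?_⟩
  have hsub : LL ⊆ Finset.range (LL.sup id + 1) := by
    intro l hl
    rw [Finset.mem_range]
    exact Nat.lt_succ_of_le (Finset.le_sup (f := id) hl)
  have h1 : ∑ l ∈ LL, ∑ Y ∈ Finset.range (3 ^ n), |E21.nu n n l Y - E21.nu m n l Y / 3 ^ (n - m)|
      ≤ ∑ l ∈ Finset.range (LL.sup id + 1), ∑ Y ∈ Finset.range (3 ^ n),
        |E21.nu n n l Y - E21.nu m n l Y / 3 ^ (n - m)| :=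
    Finset.sum_le_sum_of_subset_of_nonneg hsub
      (fun l _ _ => Finset.sum_nonneg fun Y _ => abs_nonneg _)
  refine h1.trans ?_
  have h2 := h m n (LL.sup id) hm hmn
  simp only [nu_eq_phi]
  refine h2.trans ?_
  rw [pow_one]
  have : (0 : ℝ) < m := by exact_mod_cast hm
  exact div_le_div_of_nonneg_right (le_max_left _ _) this.le

end Pool.Agent.W_e21d3a_h93
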