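import Pool.Agent.W_e21d3a_h93.Defs
import Pool.Agent.PolyTime.Lists

set_option autoImplicit false

/-!
# [NC3] PT1: the test `∃ k ≤ 8 log₂ n, col^k n ∈ T` (`T` finite) is computable in polynomial time

Use the library `Pool/Agent/PolyTime` (classes `ToD`, predicates `PF`, `PB`, `Poly ea eb f`, closure lemmas
`PF.foldl`, `PF.iter`, `PF.listCases`, `PF.ite`, ..., transducers `Poly.transduce` for the change of encoding).

Plan. Numbers are lists of bits, least significant bit first (`Computability.encodeNat n`, followed by some zeros).
One Collatz step on such a list: `false :: l ↦ l`; if the first bit is `true`: `3n+1` by one pass with a carry in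
`{0,1,2}` (start with carry 1; the bit `b` and the carry `c` give the output bit `(3b+c) % 2` and the new carry
`(3b+c)/2`; at the end append the two bits of the carry). The length grows by at most 2 per step. Iterate
`8 * (length - 1) + 1` times with a flag which records whether the value was ever in `T`
(`Nat.log 2 n + 1` is the length for `n > 0`).
-/

namespace Pool.Agent.W_e21d3a_h93

open Pool.Agent.PolyTime

namespace PT1

/-- the value of a list of bits, least significant bit first -/
def val : List Bool → ℕ
  | [] => 0
  | b :: l => b.toNat + 2 * val l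

/-- new carry -/
def nc (c : ℕ) (b : Bool) : ℕ :=
  if b then (if decide (c = 0) then 1 else 2) else (if decide (c = 2) then 1 else 0)

/-- output bit -/
def ob (c : ℕ) (b : Bool) : Bool :=
  if b then !decide (c = 1) else decide (c = 1)

/-- one pass -/
def pass (l : List Bool) : ℕ × List Bool :=
  l.foldl (fun s b => (nc s.1 b, ob s.1 b :: s.2)) (1, [])

/-- `3 n + 1` -/
def tri (l : List Bool) : List Bool :=
  (pass l).2.reverse ++ [decide ((pass l).1 = 1), decide ((pass l).1 = 2)]

/-- one Collatz step -/
def stp (l : List Bool) : List Bool := if l.headD false then tri l else l.tail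

/-- one step with the flag -/
def stf (T : Finset ℕ) (s : Bool × List Bool) : Bool × List Bool :=
  (s.1 || decide (val s.2 ∈ T), stp s.2)

/-- the test -/
def test (T : Finset ℕ) (l : List Bool) : Bool := ((stf T)^[8 * (l.length - 1) + 1] (false, l)).1

theorem val_append (l m : List Bool) : val (l ++ m) = val l + 2 ^ l.length * val m := by
  induction l with
  | nil => simp [val]
  | cons b l ih =>
    rw [List.cons_append, val, ih, val, List.length_cons, pow_succ]
    ring

theorem carry (c : ℕ) (hc : c ≤ 2) (b : Bool) :
    (ob c b).toNat + 2 * nc c b = 3 * b.toNat + c ∧ nc c b ≤ 2 := by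
  have : c = 0 ∨ c = 1 ∨ c = 2 := by omega
  rcases this with rfl | rfl | rfl <;> cases b <;> simp [ob, nc]

theorem val_pass (l : List Bool) : ∀ (c : ℕ) (acc : List Bool), c ≤ 2 →
    val ((l.foldl (fun s b => (nc s.1 b, ob s.1 b :: s.2)) (c, acc)).2.reverse ++
      [decide ((l.foldl (fun s b => (nc s.1 b, ob s.1 b :: s.2)) (c, acc)).1 = 1),
        decide ((l.foldl (fun s b => (nc s.1 b, ob s.1 b :: s.2)) (c, acc)).1 = 2)]) =
      val acc.reverse + 2 ^ acc.length * (3 * val l + c) := by
  induction l with
  | nil =>
    intro c acc hc
    rw [List.foldl_nil, val_append, List.length_reverse]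
    have : c = 0 ∨ c = 1 ∨ c = 2 := by omega
    rcases this with rfl | rfl | rfl <;> simp [val]
  | cons b l ih =>
    intro c acc hc
    obtain ⟨h1, h2⟩ := carry c hc b
    rw [List.foldl_cons]
    simp only
    rw [ih _ _ h2, List.reverse_cons, val_append, List.length_cons, List.length_reverse]
    simp only [val]
    rw [pow_succ]
    have h3 : 3 * (b.toNat + 2 * val l) + c = (ob c b).toNat + 2 * (3 * val l + nc c b) := by
      omega
    rw [h3]
    ring

theorem val_tri (l : List Bool) : val (tri l) = 3 * val l + 1 := by
  have h := val_pass l 1 [] (by norm_num)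
  rw [tri, pass, h]
  simp [val]

theorem val_stp (l : List Bool) : val (stp l) = col (val l) := by
  rcases l with _ | ⟨b, l⟩
  · simp [stp, val, col]
  · cases b
    · have h : val (false :: l) = 2 * val l := by simp [val]
      rw [h, col, if_pos (by omega)]
      simp [stp]
    · have h : val (true :: l) = 2 * val l + 1 := by simp [val]; ring
      rw [stp, List.headD_cons, if_pos rfl, val_tri, h, col, if_neg (by omega)]

theorem val_eq_zero (l : List Bool) : val l = 0 ↔ l.all (fun b => !b) = true := by
  induction l with
  | nil => simp [val]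
  | cons b l ih =>
    rw [List.all_cons, Bool.and_eq_true, ← ih, val]
    cases b <;> simp

theorem val_iter (l : List Bool) (i : ℕ) : val (stp^[i] l) = col^[i] (val l) := by
  induction i with
  | zero => rfl
  | succ i ih => rw [Function.iterate_succ_apply', Function.iterate_succ_apply', val_stp, ih]

theorem stf_iter (T : Finset ℕ) (l : List Bool) (i : ℕ) :
    ((stf T)^[i] (false, l)).2 = stp^[i] l ∧
      (((stf T)^[i] (false, l)).1 = true ↔ ∃ k < i, col^[k] (val l) ∈ T) := by
  induction i with
  | zero => simp
  | succ i ih =>
    obtain ⟨h1, h2⟩ := ih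
    rw [Function.iterate_succ_apply', Function.iterate_succ_apply', stf]
    refine ⟨by rw [h1], ?_⟩
    rw [Bool.or_eq_true, h2, h1, decide_eq_true_iff, val_iter]
    constructor
    · rintro (⟨k, hk, h⟩ | h)
      · exact ⟨k, by omega, h⟩
      · exact ⟨i, by omega, h⟩
    · rintro ⟨k, hk, h⟩
      rcases Nat.lt_succ_iff_lt_or_eq.1 hk with hk | rfl
      · exact Or.inl ⟨k, hk, h⟩
      · exact Or.inr h

theorem test_iff (T : Finset ℕ) (l : List Bool) :
    test T l = true ↔ ∃ k ≤ 8 * (l.length - 1), col^[k] (val l) ∈ T := by
  rw [test, (stf_iter T l _).2]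
  constructor
  · rintro ⟨k, hk, h⟩; exact ⟨k, by omega, h⟩
  · rintro ⟨k, hk, h⟩; exact ⟨k, by omega, h⟩

/-! ### the encoding of natural numbers -/

theorem encPos (p : PosNum) : val (Computability.encodePosNum p) = (p : ℕ) ∧
    (Computability.encodePosNum p).length = Nat.log 2 (p : ℕ) + 1 := by
  induction p with
  | one => simp [Computability.encodePosNum, val]
  | bit1 p ih =>
    have hp : 0 < (p : ℕ) := p.cast_pos
    rw [Computability.encodePosNum, val, List.length_cons, ih.1, ih.2, PosNum.cast_bit1,
      Nat.log_of_one_lt_of_le (by norm_num) (by omega : 2 ≤ (p : ℕ) + p + 1)]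
    constructor
    · simp; ring
    · rw [show ((p : ℕ) + p + 1) / 2 = p by omega]
  | bit0 p ih =>
    have hp : 0 < (p : ℕ) := p.cast_pos
    rw [Computability.encodePosNum, val, List.length_cons, ih.1, ih.2, PosNum.cast_bit0,
      Nat.log_of_one_lt_of_le (by norm_num) (by omega : 2 ≤ (p : ℕ) + p)]
    constructor
    · simp; ring
    · rw [show ((p : ℕ) + p) / 2 = p by omega]

theorem encNat (n : ℕ) : val (Computability.encodeNat n) = n ∧
    (Computability.encodeNat n).length - 1 = Nat.log 2 n := by
  rw [Computability.encodeNat]
  have hn : ((n : Num) : ℕ) = n := Num.to_of_nat n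
  generalize (n : Num) = m at hn
  subst hn
  cases m with
  | zero => simp [Computability.encodeNum, val]
  | pos p =>
    have h := encPos p
    rw [Computability.encodeNum, h.1, h.2, Num.cast_pos]
    simp

/-! ### polynomial time -/

theorem pf_head : PF (fun l : List Bool => l.headD false) := by
  refine PF.listCases (g := fun l : List Bool => l) (h1 := fun _ => false)
    (h2 := fun x => x.2.1) PF.id' (PF.const false) PF.id'.snd.fst ?_ ?_
  · intro c h; rw [h]; rfl
  · intro c a l h; rw [h]; rfl

theorem len_stp (l : List Bool) : (stp l).length ≤ l.length + 2 := by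
  have h : ∀ (l : List Bool) (s : ℕ × List Bool),
      (l.foldl (fun s b => (nc s.1 b, ob s.1 b :: s.2)) s).2.length = s.2.length + l.length := by
    intro l
    induction l with
    | nil => intro s; simp
    | cons b l ih => intro s; rw [List.foldl_cons, ih]; simp; ring
  rw [stp]
  split_ifs
  · rw [tri, List.length_append, List.length_reverse, pass, h]
    simp
  · rw [List.length_tail]; omega

theorem len_iter (l : List Bool) (i : ℕ) : (stp^[i] l).length ≤ l.length + 2 * i := by
  induction i with
  | zero => simp
  | succ i ih =>
    rw [Function.iterate_succ_apply']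
    have := len_stp (stp^[i] l)
    omega

theorem sz_bits (l : List Bool) : sz l ≤ 4 * l.length + 1 := by
  induction l with
  | nil => simp
  | cons b l ih =>
    have := sz_bool b
    rw [sz_cons, List.length_cons]
    omega

theorem pf_nc {γ : Type} [ToD γ] {c : γ → ℕ} {b : γ → Bool} (hc : PF c) (hb : PF b) :
    PF (fun x => nc (c x) (b x)) :=
  hb.ite ((hc.natEq (PF.const 0)).ite (PF.const 1) (PF.const 2))
    ((hc.natEq (PF.const 2)).ite (PF.const 1) (PF.const 0))

theorem pf_ob {γ : Type} [ToD γ] {c : γ → ℕ} {b : γ → Bool} (hc : PF c) (hb : PF b) :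
    PF (fun x => ob (c x) (b x)) :=
  hb.ite (hc.natEq (PF.const 1)).not (hc.natEq (PF.const 1))

theorem pf_pass : PF pass := by
  refine PF.foldl' (γ := List Bool) (f := fun _ (s : ℕ × List Bool) (b : Bool) =>
    (nc s.1 b, ob s.1 b :: s.2)) (b := fun _ => (1, [])) (l := fun l => l) ?_
    (PF.const _) PF.id' (4 * Polynomial.X + 7) ?_
  · exact (pf_nc PF.id'.fst.snd.fst PF.id'.snd).pair
      ((pf_ob PF.id'.fst.snd.fst PF.id'.snd).cons PF.id'.fst.snd.snd)
  · intro c l' hl'
    have h : ∀ (l : List Bool) (s : ℕ × List Bool), s.1 ≤ 2 →
        (l.foldl (fun s b => (nc s.1 b, ob s.1 b :: s.2)) s).2.length = s.2.length + l.length ∧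
        (l.foldl (fun s b => (nc s.1 b, ob s.1 b :: s.2)) s).1 ≤ 2 := by
      intro l
      induction l with
      | nil => intro s hs; simpa using hs
      | cons b l ih =>
        intro s hs
        have := ih (nc s.1 b, ob s.1 b :: s.2) (carry s.1 hs b).2
        rw [List.foldl_cons]
        refine ⟨?_, this.2⟩
        rw [this.1]
        simp; ring
    obtain ⟨h1, h2⟩ := h l' (1, []) (by norm_num)
    set s := l'.foldl (fun s b => (nc s.1 b, ob s.1 b :: s.2)) ((1 : ℕ), ([] : List Bool))
      with hs
    have h3 := sz_bits s.2
    have h4 : sz s = sz s.1 + sz s.2 + 1 := sz_pair s.1 s.2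
    have h5 : sz s.1 = 2 * s.1 + 1 := sz_nat s.1
    have h6 := length_le_sz l'
    have h7 := sz_prefix hl'
    simp only [List.length_nil, Nat.zero_add] at h1
    simp only [Polynomial.eval_add, Polynomial.eval_mul, Polynomial.eval_ofNat,
      Polynomial.eval_X]
    omega

theorem pf_tri : PF tri := by
  have h1 : PF (fun l => (pass l).1) := pf_pass.fst
  exact pf_pass.snd.reverse.append
    ((h1.natEq (PF.const 1)).cons ((h1.natEq (PF.const 2)).cons (PF.const [])))

theorem pf_stp : PF stp := pf_head.ite pf_tri PF.id'.tail

theorem pf_val_eq (t : ℕ) : PF (fun l : List Bool => decide (val l = t)) := by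
  induction t using Nat.strong_induction_on with
  | _ t ih =>
    rcases Nat.eq_zero_or_pos t with h0 | h0
    · subst h0
      have h : PF (fun l : List Bool => l.all (fun b => !b)) :=
        PF.all (g := fun _ b => !b) PF.id'.snd.not PF.id'
      refine h.cast (fun l => ?_)
      congr 1
      rw [Bool.eq_iff_iff, decide_eq_true_iff]
      exact val_eq_zero l
    · have h1 := ih (t / 2) (by omega)
      have h : PF (fun l : List Bool =>
          (l.headD false == decide (t % 2 = 1)) && decide (val l.tail = t / 2)) :=
        (pf_head.boolEq (PF.const _)).and (h1.comp PF.id'.tail)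
      refine h.cast (fun l => ?_)
      congr 1
      rw [Bool.eq_iff_iff, decide_eq_true_iff, Bool.and_eq_true, beq_iff_eq, decide_eq_true_iff]
      rcases l with _ | ⟨b, l⟩
      · simp only [val, List.headD_nil, List.tail_nil]
        constructor
        · intro h; omega
        · rintro ⟨h2, h3⟩
          have h4 : t % 2 ≠ 1 := by
            intro h4
            rw [decide_eq_true h4] at h2
            cases h2
          omega
      · simp only [val, List.headD_cons, List.tail_cons]
        cases b
        · simp only [Bool.toNat_false]
          constructor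
          · intro h
            refine ⟨(decide_eq_false (by omega)).symm, by omega⟩
          · rintro ⟨h2, h3⟩
            have h4 : t % 2 ≠ 1 := by
              intro h4
              rw [decide_eq_true h4] at h2
              cases h2
            omega
        · simp only [Bool.toNat_true]
          constructor
          · intro h
            refine ⟨(decide_eq_true (by omega)).symm, by omega⟩
          · rintro ⟨h2, h3⟩
            have h4 : t % 2 = 1 := of_decide_eq_true h2.symm
            omega

theorem pf_mem (T : Finset ℕ) : PF (fun l : List Bool => decide (val l ∈ T)) := by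
  induction T using Finset.induction_on with
  | empty =>
    refine (PF.const false).cast (fun l => ?_)
    simp
  | insert a T _ ih =>
    refine ((pf_val_eq a).or ih).cast (fun l => ?_)
    congr 1
    rw [← Bool.decide_or]
    apply decide_eq_decide.2
    exact Finset.mem_insert

theorem pf_stf (T : Finset ℕ) : PF (stf T) :=
  (PF.id'.fst.or ((pf_mem T).comp PF.id'.snd)).pair (pf_stp.comp PF.id'.snd)

theorem pf_test (T : Finset ℕ) : PF (test T) := by
  have h := PF.iter (γ := List Bool) (f := fun _ s => stf T s) (b := fun l => (false, l))
    (n := fun l => 8 * (l.length - 1) + 1) ((pf_stf T).comp PF.id'.snd)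
    ((PF.const false).pair PF.id') ((PF.const 8).mul PF.id'.length.pred).succ
    (68 * Polynomial.X + 13) ?_
  · exact h.fst
  · intro c i hi
    change sz ((stf T)^[i] (false, c)) ≤ _
    have h1 : sz ((stf T)^[i] (false, c)) =
        sz ((stf T)^[i] (false, c)).1 + sz ((stf T)^[i] (false, c)).2 + 1 :=
      sz_pair _ _
    rw [(stf_iter T c i).1] at h1
    have h2 := sz_bool ((stf T)^[i] (false, c)).1
    have h3 := sz_bits (stp^[i] c)
    have h4 := len_iter c i
    have h5 := length_le_sz c
    have h6 := sz_pos c
    simp only [Polynomial.eval_add, Polynomial.eval_mul, Polynomial.eval_ofNat,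
      Polynomial.eval_X]
    omega

end PT1

theorem poly_col_mem (T : Finset ℕ) : Nonempty (Turing.TM2ComputableInPolyTime Computability.encodeNat
    Computability.encodeBool (fun n : ℕ => decide (∃ k ≤ 8 * Nat.log 2 n, col^[k] n ∈ T))) := by
  have hA : Poly Computability.encodeNat en (fun n : ℕ => Computability.encodeNat n) :=
    (Poly.toTree D.ofBool).restrict Computability.encodeNat (fun _ => rfl) (fun _ => rfl)
  have hB : Poly en Computability.encodeBool (PT1.test T) := (PT1.pf_test T).toPB
  have hC := Poly.comp hA hB
  have he : (fun n : ℕ => decide (∃ k ≤ 8 * Nat.log 2 n, col^[k] n ∈ T)) =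
      fun n => PT1.test T (Computability.encodeNat n) := by
    funext n
    rw [Bool.eq_iff_iff, decide_eq_true_iff, PT1.test_iff, (PT1.encNat n).1, (PT1.encNat n).2]
  rw [he]
  exact hC

theorem poly_col : Nonempty (Turing.TM2ComputableInPolyTime Computability.encodeNat
    Computability.encodeBool (fun n : ℕ => decide (∃ k ≤ 8 * Nat.log 2 n, col^[k] n = 1))) := by
  have h := poly_col_mem {1}
  simpa using h

end Pool.Agent.W_e21d3a_h93
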