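import Pool.Agent.W_e21c_h6.Z2
import Pool.Agent.W_e21d3a_h93.PT1

set_option autoImplicit false

/-!
# Errorless polynomial time algorithms for invariant sets
-/

namespace Pool.Agent.W_e21d3a_h93

theorem E21_col_eq : E21.col = col := rfl

/-- the number of steps `(3 / log (4/3) + 1/10) log n` is at most `8 log₂ n` -/
theorem KK_le_eight {n : ℕ} (hn : 4096 ≤ n) : E21.KK (1 / 10) * Real.log n ≤ 8 * Nat.log 2 n := by
  have hl2 := Real.log_two_gt_d9
  have hl2' := Real.log_two_lt_d9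
  have hLa : (0.28766 : ℝ) ≤ E21.La := by
    rw [E21.La_eq]
    have := Real.log_three_lt_d9
    linarith
  have hKK : E21.KK (1 / 10) ≤ 10.53 := by
    unfold E21.KK
    have : 3 / E21.La ≤ 3 / 0.28766 := div_le_div_of_nonneg_left (by norm_num) (by norm_num) hLa
    have h2 : (3 : ℝ) / 0.28766 ≤ 10.43 := by norm_num
    linarith
  have hn0 : n ≠ 0 := by omega
  have h12 : 12 ≤ Nat.log 2 n := by
    have h1 : Nat.log 2 4096 ≤ Nat.log 2 n := Nat.log_mono_right hn
    have h2 : Nat.log 2 4096 = 12 := by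
      rw [show (4096 : ℕ) = 2 ^ 12 by norm_num]
      exact Nat.log_pow (by norm_num) 12
    omega
  have h1 : (n : ℝ) < 2 ^ (Nat.log 2 n + 1) := by
    exact_mod_cast Nat.lt_pow_succ_log_self (by norm_num) n
  have hlog : Real.log n ≤ (Nat.log 2 n + 1) * Real.log 2 := by
    have h2 := Real.log_le_log (by exact_mod_cast (by omega : 0 < n)) h1.le
    rw [Real.log_pow] at h2
    exact_mod_cast h2
  have hlog0 : 0 ≤ Real.log n := Real.log_natCast_nonneg n
  have h12' : (12 : ℝ) ≤ Nat.log 2 n := by exact_mod_cast h12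
  have h3 : Real.log n ≤ (Nat.log 2 n + 1) * 0.6931471808 :=
    hlog.trans (mul_le_mul_of_nonneg_left hl2'.le (by positivity))
  calc E21.KK (1 / 10) * Real.log n ≤ 10.53 * Real.log n := mul_le_mul_of_nonneg_right hKK hlog0
    _ ≤ 10.53 * ((Nat.log 2 n + 1) * 0.6931471808) := by linarith
    _ ≤ 8 * Nat.log 2 n := by linarith

theorem card_Icc_filter (X : ℕ) (P : ℕ → Prop) [DecidablePred P] :
    Nat.card {n : ℕ // 1 ≤ n ∧ n ≤ X ∧ P n} = ((Finset.Icc 1 X).filter P).card := by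
  apply Nat.subtype_card
  intro x
  rw [Finset.mem_filter, Finset.mem_Icc, and_assoc]

theorem card_mono {X : ℕ} {P Q : ℕ → Prop} (h : ∀ n, 1 ≤ n → P n → Q n) :
    Nat.card {n : ℕ // 1 ≤ n ∧ n ≤ X ∧ P n} ≤ Nat.card {n : ℕ // 1 ≤ n ∧ n ≤ X ∧ Q n} := by
  classical
  rw [card_Icc_filter, card_Icc_filter]
  refine Finset.card_le_card fun n hn => ?_
  rw [Finset.mem_filter, Finset.mem_Icc] at hn ⊢
  exact ⟨hn.1, h n hn.1.1 hn.2⟩

theorem card_le_add {X M : ℕ} {P Q : ℕ → Prop} (h : ∀ n, M ≤ n → P n → Q n) :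
    Nat.card {n : ℕ // 1 ≤ n ∧ n ≤ X ∧ P n} ≤ Nat.card {n : ℕ // 1 ≤ n ∧ n ≤ X ∧ Q n} + M := by
  classical
  rw [card_Icc_filter, card_Icc_filter]
  have hsub : (Finset.Icc 1 X).filter P ⊆ (Finset.Icc 1 X).filter Q ∪ Finset.range M := by
    intro n hn
    rw [Finset.mem_filter] at hn
    rw [Finset.mem_union, Finset.mem_filter, Finset.mem_range]
    by_cases hn1 : n < M
    · exact Or.inr hn1
    · exact Or.inl ⟨hn.1, h n (by omega) hn.2⟩
  have := (Finset.card_le_card hsub).trans (Finset.card_union_le _ _)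
  rwa [Finset.card_range] at this

/-- the natural density of the numbers which do not reach `[0, N0]` in `8 log₂ n` steps is small -/
theorem reach8 {Cm : ℝ} (hmix : E21.Mix Cm) (eps : ℝ) (heps : 0 < eps) :
    ∃ N0 X0 : ℕ, ∀ X : ℕ, X0 ≤ X →
      (Nat.card {n : ℕ // 1 ≤ n ∧ n ≤ X ∧ ¬ ∃ k ≤ 8 * Nat.log 2 n, col^[k] n ≤ N0} : ℝ) ≤ eps * X := by
  classical
  obtain ⟨N0, X0, hN0, h⟩ := E21.theorem_one hmix (1 / 10) (eps / 2) (by norm_num) (by positivity)
  refine ⟨N0, max X0 ⌈2 * 4096 / eps⌉₊, fun X hX => ?_⟩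
  have hXa : X0 ≤ X := le_trans (le_max_left _ _) hX
  have hXb : 2 * 4096 / eps ≤ X := Nat.ceil_le.1 (le_trans (le_max_right _ _) hX)
  have h1 := h X hXa
  set P : ℕ → Prop := fun n => ¬ ∃ k ≤ 8 * Nat.log 2 n, col^[k] n ≤ N0 with hP
  set Q : ℕ → Prop := fun n => ¬ ∃ k : ℕ, (k : ℝ) ≤ E21.KK (1 / 10) * Real.log n ∧ E21.col^[k] n ≤ N0 with hQ
  have e1 : Nat.card {n : ℕ // 1 ≤ n ∧ n ≤ X ∧ P n} = ((Finset.Icc 1 X).filter P).card := by
    apply Nat.subtype_card
    intro x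
    rw [Finset.mem_filter, Finset.mem_Icc, and_assoc]
  have e2 : Nat.card {n : ℕ // 1 ≤ n ∧ n ≤ X ∧ Q n} = ((Finset.Icc 1 X).filter Q).card := by
    apply Nat.subtype_card
    intro x
    rw [Finset.mem_filter, Finset.mem_Icc, and_assoc]
  rw [e2] at h1
  rw [e1]
  have hsub : (Finset.Icc 1 X).filter P ⊆ (Finset.Icc 1 X).filter Q ∪ Finset.range 4096 := by
    intro n hn
    rw [Finset.mem_filter] at hn
    rw [Finset.mem_union, Finset.mem_filter, Finset.mem_range]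
    by_cases hn1 : n < 4096
    · exact Or.inr hn1
    · refine Or.inl ⟨hn.1, ?_⟩
      rintro ⟨k, hk, hk2⟩
      refine hn.2 ⟨k, ?_, hk2⟩
      have := KK_le_eight (n := n) (by omega)
      exact_mod_cast hk.trans this
  have h2 : (((Finset.Icc 1 X).filter P).card : ℝ) ≤ ((Finset.Icc 1 X).filter Q).card + 4096 := by
    have := (Finset.card_le_card hsub).trans (Finset.card_union_le _ _)
    rw [Finset.card_range] at this
    exact_mod_cast this
  have h3 : (4096 : ℝ) ≤ eps / 2 * X := by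
    rw [div_le_iff₀ heps] at hXb
    linarith
  linarith

theorem inv_iterate {S : Set ℕ} (hS : ∀ n, 0 < n → (n ∈ S ↔ col n ∈ S)) {n : ℕ} (hn : 0 < n) (k : ℕ) :
    0 < col^[k] n ∧ (n ∈ S ↔ col^[k] n ∈ S) := by
  induction k with
  | zero => exact ⟨hn, Iff.rfl⟩
  | succ k ih =>
    rw [Function.iterate_succ_apply']
    refine ⟨?_, ih.2.trans (hS _ ih.1)⟩
    have := ih.1
    set m := col^[k] n with hm
    unfold col
    split <;> omega

/-- Errorless algorithms: for every invariant set `S` and every `eps` there are two tests `Y`, `N` in polynomial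
time, `Y n = true` only for `n ∈ S`, `N n = true` only for `n ∉ S`, and the numbers without an answer have upper
density at most `eps`. -/
theorem errorless {Cm : ℝ} (hmix : E21.Mix Cm) (S : Set ℕ) (hS : ∀ n, 0 < n → (n ∈ S ↔ col n ∈ S))
    (eps : ℝ) (heps : 0 < eps) :
    ∃ Y N : ℕ → Bool,
      Nonempty (Turing.TM2ComputableInPolyTime Computability.encodeNat Computability.encodeBool Y) ∧
      Nonempty (Turing.TM2ComputableInPolyTime Computability.encodeNat Computability.encodeBool N) ∧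
      (∀ n, 0 < n → Y n = true → n ∈ S) ∧ (∀ n, 0 < n → N n = true → n ∉ S) ∧
      ∃ X0 : ℕ, ∀ X : ℕ, X0 ≤ X →
        (Nat.card {n : ℕ // 1 ≤ n ∧ n ≤ X ∧ Y n = false ∧ N n = false} : ℝ) ≤ eps * X := by
  classical
  obtain ⟨N0, X0, h⟩ := reach8 hmix eps heps
  set T1 : Finset ℕ := (Finset.Icc 1 N0).filter (fun m => m ∈ S) with hT1
  set T2 : Finset ℕ := (Finset.Icc 1 N0).filter (fun m => m ∉ S) with hT2
  refine ⟨_, _, poly_col_mem T1, poly_col_mem T2, ?_, ?_, X0, fun X hX => ?_⟩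
  · intro n hn h1
    rw [decide_eq_true_eq] at h1
    obtain ⟨k, _, hk⟩ := h1
    rw [hT1, Finset.mem_filter] at hk
    exact (inv_iterate hS hn k).2.2 hk.2
  · intro n hn h1
    rw [decide_eq_true_eq] at h1
    obtain ⟨k, _, hk⟩ := h1
    rw [hT2, Finset.mem_filter] at hk
    exact fun h2 => hk.2 ((inv_iterate hS hn k).2.1 h2)
  · refine le_trans ?_ (h X hX)
    refine Nat.cast_le.2 (card_mono fun n hn1 hn => ?_)
    rw [decide_eq_false_iff_not, decide_eq_false_iff_not] at hn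
    rintro ⟨k, hk, hk2⟩
    have hpos := (inv_iterate hS (by omega : 0 < n) k).1
    by_cases h1 : col^[k] n ∈ S
    · exact hn.1 ⟨k, hk, Finset.mem_filter.2 ⟨Finset.mem_Icc.2 ⟨hpos, hk2⟩, h1⟩⟩
    · exact hn.2 ⟨k, hk, Finset.mem_filter.2 ⟨Finset.mem_Icc.2 ⟨hpos, hk2⟩, h1⟩⟩

end Pool.Agent.W_e21d3a_h93
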