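import Pool.Agent.W_e21d3a_h93.PT1

set_option autoImplicit false

/-!
# [NC3] PT3: bounded evaluation of a code along the trajectory, in polynomial time

Plan. In the library `Pool/Agent/PolyTime` natural numbers are unary (`sz_nat : sz n = 2 n + 1`). Show by induction
on the code `c` that `x : ℕ × ℕ ↦ evaln x.1 c x.2` (as an option, or coded as a natural number) is in `PF`:
`zero, succ, left, right` need `Nat.pair`, `Nat.unpair` on unary numbers, `pair`, `comp` are compositions, `prec` and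
`rfind'` are iterations of length at most `k` (all inputs are `≤ k`, otherwise `evaln k c n = none`; the outputs are
bounded by the polynomial bound of the `PF` predicate for the smaller codes). The number `col^k n` is a list of bits
in `PT1`; `evaln s c m = none` unless `m < s`, so first turn the list of bits into a unary number `≤ s` (or fail),
`s = Nat.log 2 n = length - 1`. Then the same iteration with a flag as in `PT1.pf_test`.
-/

namespace Pool.Agent.W_e21d3a_h93

open Pool.Agent.PolyTime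

namespace PT3

open Nat.Partrec (Code)

/-- an option as a natural number -/
def oc : Option ℕ → ℕ
  | Option.none => 0
  | Option.some v => v + 1

/-- evaluation of a code as a function on natural numbers -/
def ev (c : Code) (x : ℕ × ℕ) : ℕ := oc (Code.evaln x.1 c x.2)

theorem oc_pos (o : Option ℕ) : 0 < oc o ↔ o.isSome = true := by
  cases o <;> simp [oc]

theorem ev_bound (c : Code) (F m : ℕ) (h : F ≤ m) : ev c (F, m) = 0 := by
  rw [ev]
  cases h' : Code.evaln F c m with
  | none => simp [oc]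
  | some v =>
    exfalso
    have := Code.evaln_bound (k := F) (c := c) (n := m) (x := v) h'
    omega

theorem pf_pair {γ : Type} [ToD γ] {f g : γ → ℕ} (hf : PF f) (hg : PF g) :
    PF (fun c => Nat.pair (f c) (g c)) := by
  have h := (hf.lt hg).ite ((hg.mul hg).add hf) (((hf.mul hf).add hf).add hg)
  refine h.cast (fun c => ?_)
  congr 1
  rw [Nat.pair]
  by_cases h : f c < g c
  · simp [h]
  · simp [h]

theorem sq_iter (n i : ℕ) :
    (fun s : ℕ => if decide ((s + 1) * (s + 1) ≤ n) then s + 1 else s)^[i] 0 = min i (Nat.sqrt n) := by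
  induction i with
  | zero => simp
  | succ i ih =>
    rw [Function.iterate_succ_apply', ih]
    rcases Nat.lt_or_ge i (Nat.sqrt n) with h | h
    · rw [min_eq_left h.le, min_eq_left h]
      have : (i + 1) * (i + 1) ≤ n := Nat.le_sqrt.1 h
      simp [this]
    · rw [min_eq_right h, min_eq_right (by omega)]
      have : ¬ (Nat.sqrt n + 1) * (Nat.sqrt n + 1) ≤ n := by
        intro h2
        have := Nat.le_sqrt.2 h2
        omega
      simp [this]

theorem pf_sqrt {γ : Type} [ToD γ] {f : γ → ℕ} (hf : PF f) : PF (fun c => Nat.sqrt (f c)) := by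
  have h : PF (fun n : ℕ => Nat.sqrt n) := by
    have h := PF.iter (γ := ℕ) (β := ℕ)
      (f := fun n s => if decide ((s + 1) * (s + 1) ≤ n) then s + 1 else s) (b := fun _ => 0)
      (n := fun n => n)
      (((PF.id'.snd.succ.mul PF.id'.snd.succ).le PF.id'.fst).ite PF.id'.snd.succ PF.id'.snd)
      (PF.const 0) PF.id' Polynomial.X ?_
    · refine h.cast (fun n => ?_)
      congr 1
      rw [sq_iter, min_eq_right (Nat.sqrt_le_self n)]
    · intro n i hi
      rw [sq_iter, sz_nat, Polynomial.eval_X, sz_nat]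
      have := min_le_left i (Nat.sqrt n)
      omega
  exact h.comp hf

theorem pf_unpair1 {γ : Type} [ToD γ] {f : γ → ℕ} (hf : PF f) : PF (fun c => (f c).unpair.1) := by
  have hs := pf_sqrt hf
  have h := ((hf.sub (hs.mul hs)).lt hs).ite (hf.sub (hs.mul hs)) hs
  refine h.cast (fun c => ?_)
  congr 1
  rw [Nat.unpair]
  by_cases h : f c - Nat.sqrt (f c) * Nat.sqrt (f c) < Nat.sqrt (f c)
  · simp [h]
  · simp [h]

theorem pf_unpair2 {γ : Type} [ToD γ] {f : γ → ℕ} (hf : PF f) : PF (fun c => (f c).unpair.2) := by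
  have hs := pf_sqrt hf
  have h := ((hf.sub (hs.mul hs)).lt hs).ite hs ((hf.sub (hs.mul hs)).sub hs)
  refine h.cast (fun c => ?_)
  congr 1
  rw [Nat.unpair]
  by_cases h : f c - Nat.sqrt (f c) * Nat.sqrt (f c) < Nat.sqrt (f c)
  · simp [h]
  · simp [h]

/-- uniform bound of the values -/
theorem ev_le {c : Code} (h : PF (ev c)) :
    ∃ Q : Polynomial ℕ, ∀ F m K, F ≤ K → ev c (F, m) ≤ Q.eval K := by
  obtain ⟨P, hP⟩ := h.bound
  refine ⟨P.comp (4 * Polynomial.X + 3), fun F m K hF => ?_⟩
  rcases Nat.lt_or_ge m F with hm | hm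
  · have h1 := hP (F, m)
    rw [sz_nat, sz_pair, sz_nat, sz_nat] at h1
    have h2 : P.eval (2 * F + 1 + (2 * m + 1) + 1) ≤ P.eval (4 * K + 3) := eval_mono _ (by omega)
    rw [Polynomial.eval_comp]
    simp only [Polynomial.eval_add, Polynomial.eval_mul, Polynomial.eval_ofNat,
      Polynomial.eval_X]
    omega
  · rw [ev_bound c F m hm]
    exact Nat.zero_le _

theorem evp (cf cg : Code) (k n : ℕ) (h' : n ≤ k) : Code.evaln (k + 1) (Code.pair cf cg) n =
    (Code.evaln (k + 1) cf n).bind fun a => (Code.evaln (k + 1) cg n).bind fun b =>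
      Option.some (Nat.pair a b) := by
  simp only [Code.evaln, h', guard, if_true, Option.bind_eq_bind]
  show ((Option.some ()).bind _ : Option ℕ) = _
  rw [Option.bind_some]
  rcases hf : Code.evaln (k + 1) cf n with _ | a
  · simp [Seq.seq]
  · rcases hg : Code.evaln (k + 1) cg n with _ | b
    · simp [Seq.seq]
    · simp [Seq.seq]

theorem evc (cf cg : Code) (k n : ℕ) (h' : n ≤ k) : Code.evaln (k + 1) (Code.comp cf cg) n =
    (Code.evaln (k + 1) cg n).bind fun a => Code.evaln (k + 1) cf a := by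
  simp only [Code.evaln, h', guard, if_true, Option.bind_eq_bind]
  rfl

theorem evpr (cf cg : Code) (k a y : ℕ) (h' : Nat.pair a (y + 1) ≤ k) :
    Code.evaln (k + 1) (Code.prec cf cg) (Nat.pair a (y + 1)) =
    (Code.evaln k (Code.prec cf cg) (Nat.pair a y)).bind fun i =>
      Code.evaln (k + 1) cg (Nat.pair a (Nat.pair y i)) := by
  rw [Code.evaln]
  simp only [h', guard, if_true, Option.bind_eq_bind, Nat.unpaired, Nat.unpair_pair]
  rfl

theorem evrf (cf : Code) (k a m : ℕ) (h' : Nat.pair a m ≤ k) :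
    Code.evaln (k + 1) (Code.rfind' cf) (Nat.pair a m) =
    (Code.evaln (k + 1) cf (Nat.pair a m)).bind fun x => if x = 0 then Option.some m else
      Code.evaln k (Code.rfind' cf) (Nat.pair a (m + 1)) := by
  rw [Code.evaln]
  simp only [h', guard, if_true, Option.bind_eq_bind, Nat.unpaired, Nat.unpair_pair]
  rfl

/-! ### the simple cases -/

theorem ev_zero (x : ℕ × ℕ) : ev Code.zero x = if decide (x.2 < x.1) then 1 else 0 := by
  obtain ⟨K, n⟩ := x
  by_cases h : n < K
  · obtain ⟨k, rfl⟩ : ∃ k, K = k + 1 := ⟨K - 1, by omega⟩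
    have h' : n ≤ k := by omega
    simp [ev, Code.evaln, h, h', oc]
  · simp [ev_bound _ _ _ (not_lt.1 h), h]

theorem ev_succ (x : ℕ × ℕ) : ev Code.succ x = if decide (x.2 < x.1) then x.2 + 1 + 1 else 0 := by
  obtain ⟨K, n⟩ := x
  by_cases h : n < K
  · obtain ⟨k, rfl⟩ : ∃ k, K = k + 1 := ⟨K - 1, by omega⟩
    have h' : n ≤ k := by omega
    simp [ev, Code.evaln, h, h', oc]
  · simp [ev_bound _ _ _ (not_lt.1 h), h]

theorem ev_left (x : ℕ × ℕ) : ev Code.left x =
    if decide (x.2 < x.1) then x.2.unpair.1 + 1 else 0 := by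
  obtain ⟨K, n⟩ := x
  by_cases h : n < K
  · obtain ⟨k, rfl⟩ : ∃ k, K = k + 1 := ⟨K - 1, by omega⟩
    have h' : n ≤ k := by omega
    simp [ev, Code.evaln, h, h', oc]
  · simp [ev_bound _ _ _ (not_lt.1 h), h]

theorem ev_right (x : ℕ × ℕ) : ev Code.right x =
    if decide (x.2 < x.1) then x.2.unpair.2 + 1 else 0 := by
  obtain ⟨K, n⟩ := x
  by_cases h : n < K
  · obtain ⟨k, rfl⟩ : ∃ k, K = k + 1 := ⟨K - 1, by omega⟩
    have h' : n ≤ k := by omega
    simp [ev, Code.evaln, h, h', oc]
  · simp [ev_bound _ _ _ (not_lt.1 h), h]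

theorem ev_pair (cf cg : Code) (x : ℕ × ℕ) : ev (Code.pair cf cg) x =
    if decide (x.2 < x.1) then
      (if decide (0 < ev cf x) && decide (0 < ev cg x) then
        Nat.pair (ev cf x - 1) (ev cg x - 1) + 1 else 0) else 0 := by
  obtain ⟨K, n⟩ := x
  by_cases h : n < K
  · obtain ⟨k, rfl⟩ : ∃ k, K = k + 1 := ⟨K - 1, by omega⟩
    have h' : n ≤ k := by omega
    have e1 : ev cf (k + 1, n) = oc (Code.evaln (k + 1) cf n) := rfl
    have e2 : ev cg (k + 1, n) = oc (Code.evaln (k + 1) cg n) := rfl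
    have e3 : ev (Code.pair cf cg) (k + 1, n) = oc (Code.evaln (k + 1) (Code.pair cf cg) n) := rfl
    rw [e3, e1, e2, evp _ _ _ _ h']
    cases Code.evaln (k + 1) cf n <;> cases Code.evaln (k + 1) cg n <;>
      simp [oc, h]
  · simp [ev_bound _ _ _ (not_lt.1 h), h]

theorem ev_comp (cf cg : Code) (x : ℕ × ℕ) : ev (Code.comp cf cg) x =
    if decide (x.2 < x.1) then
      (if decide (0 < ev cg x) then ev cf (x.1, ev cg x - 1) else 0) else 0 := by
  obtain ⟨K, n⟩ := x
  by_cases h : n < K
  · obtain ⟨k, rfl⟩ : ∃ k, K = k + 1 := ⟨K - 1, by omega⟩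
    have h' : n ≤ k := by omega
    have e2 : ev cg (k + 1, n) = oc (Code.evaln (k + 1) cg n) := rfl
    have e3 : ev (Code.comp cf cg) (k + 1, n) = oc (Code.evaln (k + 1) (Code.comp cf cg) n) := rfl
    rw [e3, e2, evc _ _ _ _ h']
    cases Code.evaln (k + 1) cg n <;> simp [oc, h, ev]
  · simp [ev_bound _ _ _ (not_lt.1 h), h]

/-! ### primitive recursion -/

theorem ev_prec_zero (cf cg : Code) (F a : ℕ) : ev (Code.prec cf cg) (F, Nat.pair a 0) =
    if decide (Nat.pair a 0 < F) then ev cf (F, a) else 0 := by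
  by_cases h : Nat.pair a 0 < F
  · obtain ⟨k, rfl⟩ : ∃ k, F = k + 1 := ⟨F - 1, by omega⟩
    have h' : Nat.pair a 0 ≤ k := by omega
    simp [ev, Code.evaln, h, h']
  · simp [ev_bound _ _ _ (not_lt.1 h), h]

theorem ev_prec_succ (cf cg : Code) (F a y : ℕ) :
    ev (Code.prec cf cg) (F + 1, Nat.pair a (y + 1)) =
    if decide (Nat.pair a (y + 1) < F + 1) && decide (0 < ev (Code.prec cf cg) (F, Nat.pair a y)) then
      ev cg (F + 1, Nat.pair a (Nat.pair y (ev (Code.prec cf cg) (F, Nat.pair a y) - 1))) else 0 := by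
  by_cases h : Nat.pair a (y + 1) < F + 1
  · have h' : Nat.pair a (y + 1) ≤ F := by omega
    have e2 : ev (Code.prec cf cg) (F, Nat.pair a y) =
      oc (Code.evaln F (Code.prec cf cg) (Nat.pair a y)) := rfl
    have e3 : ev (Code.prec cf cg) (F + 1, Nat.pair a (y + 1)) =
      oc (Code.evaln (F + 1) (Code.prec cf cg) (Nat.pair a (y + 1))) := rfl
    rw [e3, e2, evpr _ _ _ _ _ h']
    cases Code.evaln F (Code.prec cf cg) (Nat.pair a y) <;>
      simp [h, oc, ev]
  · simp [ev_bound _ _ _ (not_lt.1 h), h]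

/-- the iteration for primitive recursion, `c = (K, n)` -/
def pstep (cg : Code) (c : ℕ × ℕ) (s : ℕ × ℕ) : ℕ × ℕ :=
  (s.1 + 1, if decide (Nat.pair c.2.unpair.1 (s.1 + 1) < c.1 - (c.2.unpair.2 - (s.1 + 1))) &&
    decide (0 < s.2) then
    ev cg (c.1 - (c.2.unpair.2 - (s.1 + 1)), Nat.pair c.2.unpair.1 (Nat.pair s.1 (s.2 - 1))) else 0)

def pstart (cf : Code) (c : ℕ × ℕ) : ℕ × ℕ :=
  (0, if decide (Nat.pair c.2.unpair.1 0 < c.1 - c.2.unpair.2) then
    ev cf (c.1 - c.2.unpair.2, c.2.unpair.1) else 0)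

theorem piter (cf cg : Code) (K n : ℕ) (h : n < K) (i : ℕ) (hi : i ≤ n.unpair.2) :
    (pstep cg (K, n))^[i] (pstart cf (K, n)) =
      (i, ev (Code.prec cf cg) (K - (n.unpair.2 - i), Nat.pair n.unpair.1 i)) := by
  induction i with
  | zero =>
    rw [Function.iterate_zero_apply, ev_prec_zero, pstart]
    simp
  | succ i ih =>
    rw [Function.iterate_succ_apply', ih (by omega), pstep]
    have hle : n.unpair.2 ≤ n := Nat.unpair_right_le n
    have e : K - (n.unpair.2 - (i + 1)) = K - (n.unpair.2 - i) + 1 := by omega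
    simp only
    rw [e, ev_prec_succ]

theorem ev_prec (cf cg : Code) (x : ℕ × ℕ) : ev (Code.prec cf cg) x =
    if decide (x.2 < x.1) then ((pstep cg x)^[x.2.unpair.2] (pstart cf x)).2 else 0 := by
  obtain ⟨K, n⟩ := x
  by_cases h : n < K
  · rw [if_pos (by simpa using h)]
    simp only
    rw [piter cf cg K n h _ le_rfl]
    simp [Nat.pair_unpair]
  · simp [ev_bound _ _ _ (not_lt.1 h), h]

theorem pf_pstep {cg : Code} (hg : PF (ev cg)) :
    PF (fun x : (ℕ × ℕ) × (ℕ × ℕ) => pstep cg x.1 x.2) := by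
  have hK : PF (fun x : (ℕ × ℕ) × (ℕ × ℕ) => x.1.1) := PF.id'.fst.fst
  have hn : PF (fun x : (ℕ × ℕ) × (ℕ × ℕ) => x.1.2) := PF.id'.fst.snd
  have hj : PF (fun x : (ℕ × ℕ) × (ℕ × ℕ) => x.2.1) := PF.id'.snd.fst
  have hv : PF (fun x : (ℕ × ℕ) × (ℕ × ℕ) => x.2.2) := PF.id'.snd.snd
  have hF := hK.sub ((pf_unpair2 hn).sub hj.succ)
  have hA := ((pf_pair (pf_unpair1 hn) hj.succ).lt hF).and hv.isPos
  exact hj.succ.pair (hA.ite (hg.comp (hF.pair (pf_pair (pf_unpair1 hn) (pf_pair hj hv.pred))))
    (PF.const 0))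

theorem pf_pstart {cf : Code} (hf : PF (ev cf)) : PF (pstart cf) := by
  have hK : PF (fun x : ℕ × ℕ => x.1) := PF.id'.fst
  have hn : PF (fun x : ℕ × ℕ => x.2) := PF.id'.snd
  have hF := hK.sub (pf_unpair2 hn)
  exact (PF.const 0).pair (((pf_pair (pf_unpair1 hn) (PF.const 0)).lt hF).ite
    (hf.comp (hF.pair (pf_unpair1 hn))) (PF.const 0))

theorem pf_prec {cf cg : Code} (hf : PF (ev cf)) (hg : PF (ev cg)) :
    PF (ev (Code.prec cf cg)) := by
  obtain ⟨Qf, hQf⟩ := ev_le hf
  obtain ⟨Qg, hQg⟩ := ev_le hg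
  have hn : PF (fun x : ℕ × ℕ => x.2) := PF.id'.snd
  have h := PF.iter (γ := ℕ × ℕ) (β := ℕ × ℕ) (f := pstep cg) (b := pstart cf)
    (n := fun x => x.2.unpair.2) (pf_pstep hg) (pf_pstart hf) (pf_unpair2 hn)
    (2 * Polynomial.X + 2 * Qf + 2 * Qg + 3) ?_
  · have h2 := (hn.lt PF.id'.fst).ite h.snd (PF.const 0)
    exact h2.cast (fun x => by rw [ev_prec])
  · rintro ⟨K, n⟩ i hi
    have key : ∀ i, ((pstep cg (K, n))^[i] (pstart cf (K, n))).1 = i ∧
        ((pstep cg (K, n))^[i] (pstart cf (K, n))).2 ≤ Qf.eval K + Qg.eval K := by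
      intro i
      induction i with
      | zero =>
        rw [Function.iterate_zero_apply, pstart]
        refine ⟨rfl, ?_⟩
        simp only
        split_ifs
        · exact (hQf _ _ K (Nat.sub_le _ _)).trans (Nat.le_add_right _ _)
        · exact Nat.zero_le _
      | succ i ih =>
        rw [Function.iterate_succ_apply']
        refine ⟨by rw [pstep, ih.1], ?_⟩
        rw [pstep]
        simp only
        split_ifs
        · exact (hQg _ _ K (Nat.sub_le _ _)).trans (Nat.le_add_left _ _)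
        · exact Nat.zero_le _
    obtain ⟨h1, h2⟩ := key i
    have h3 : n.unpair.2 ≤ n := Nat.unpair_right_le n
    rw [← Prod.mk.eta (p := (pstep cg (K, n))^[i] (pstart cf (K, n))), sz_pair, sz_pair, sz_nat,
      sz_nat, sz_nat, sz_nat]
    have h4 : Qf.eval K ≤ Qf.eval (2 * K + 1 + (2 * n + 1) + 1) := eval_mono _ (by omega)
    have h5 : Qg.eval K ≤ Qg.eval (2 * K + 1 + (2 * n + 1) + 1) := eval_mono _ (by omega)
    simp only [Polynomial.eval_add, Polynomial.eval_mul, Polynomial.eval_ofNat,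
      Polynomial.eval_X]
    simp only at hi
    omega

/-! ### unbounded search -/

theorem ev_rfind_succ (cf : Code) (F a m : ℕ) :
    ev (Code.rfind' cf) (F + 1, Nat.pair a m) =
    if decide (Nat.pair a m < F + 1) && decide (0 < ev cf (F + 1, Nat.pair a m)) then
      (if decide (ev cf (F + 1, Nat.pair a m) = 1) then m + 1 else
        ev (Code.rfind' cf) (F, Nat.pair a (m + 1))) else 0 := by
  by_cases h : Nat.pair a m < F + 1
  · have h' : Nat.pair a m ≤ F := by omega
    have e2 : ev cf (F + 1, Nat.pair a m) =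
      oc (Code.evaln (F + 1) cf (Nat.pair a m)) := rfl
    have e3 : ev (Code.rfind' cf) (F + 1, Nat.pair a m) =
      oc (Code.evaln (F + 1) (Code.rfind' cf) (Nat.pair a m)) := rfl
    rw [e3, e2, evrf _ _ _ _ h']
    cases Code.evaln (F + 1) cf (Nat.pair a m) with
    | none => simp [oc]
    | some v =>
      rcases Nat.eq_zero_or_pos v with hv | hv
      · simp [h, oc, hv]
      · have hv' : v ≠ 0 := by omega
        simp [h, oc, hv', ev]
  · simp [ev_bound _ _ _ (not_lt.1 h), h]

/-- the iteration for unbounded search: fuel, argument, result (`0` = running, `r + 1` = finished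
with the coded result `r`) -/
def rstep (cf : Code) (c : ℕ × ℕ) (s : ℕ × ℕ × ℕ) : ℕ × ℕ × ℕ :=
  if decide (0 < s.2.2) then s else
  if decide (0 < s.1) && (decide (Nat.pair c.2.unpair.1 s.2.1 < s.1) &&
      decide (0 < ev cf (s.1, Nat.pair c.2.unpair.1 s.2.1))) then
    (if decide (ev cf (s.1, Nat.pair c.2.unpair.1 s.2.1) = 1) then (s.1, s.2.1, s.2.1 + 1 + 1) else
      (s.1 - 1, s.2.1 + 1, 0)) else (s.1, s.2.1, 1)

/-- the value of a state -/
def rval (cf : Code) (c : ℕ × ℕ) (s : ℕ × ℕ × ℕ) : ℕ :=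
  if 0 < s.2.2 then s.2.2 - 1 else ev (Code.rfind' cf) (s.1, Nat.pair c.2.unpair.1 s.2.1)

theorem rval_step (cf : Code) (c : ℕ × ℕ) (s : ℕ × ℕ × ℕ) :
    rval cf c (rstep cf c s) = rval cf c s := by
  obtain ⟨F, m, r⟩ := s
  rw [rstep]
  simp only
  by_cases h : 0 < r
  · simp [h]
  · have hr : r = 0 := by omega
    subst hr
    simp only [lt_irrefl, decide_false, Bool.false_eq_true, if_false]
    rcases Nat.eq_zero_or_pos F with hF | hF
    · subst hF
      simp [rval, ev_bound _ 0 _ (Nat.zero_le _)]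
    · obtain ⟨k, rfl⟩ : ∃ k, F = k + 1 := ⟨F - 1, by omega⟩
      have e : rval cf c (k + 1, m, 0) =
        if decide (Nat.pair c.2.unpair.1 m < k + 1) && decide (0 < ev cf (k + 1, Nat.pair c.2.unpair.1 m)) then
          (if decide (ev cf (k + 1, Nat.pair c.2.unpair.1 m) = 1) then m + 1 else
          ev (Code.rfind' cf) (k, Nat.pair c.2.unpair.1 (m + 1))) else 0 := by
        rw [← ev_rfind_succ]
        simp [rval]
      rw [e]
      simp only [hF, decide_true, Bool.true_and]
      by_cases h1 : (decide (Nat.pair c.2.unpair.1 m < k + 1) &&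
        decide (0 < ev cf (k + 1, Nat.pair c.2.unpair.1 m))) = true
      · rw [if_pos h1, if_pos h1]
        by_cases h2 : decide (ev cf (k + 1, Nat.pair c.2.unpair.1 m) = 1) = true
        · rw [if_pos h2, if_pos h2]
          simp [rval]
        · rw [if_neg h2, if_neg h2]
          simp [rval]
      · rw [if_neg h1, if_neg h1]
        simp [rval]

theorem riter_val (cf : Code) (c : ℕ × ℕ) (s : ℕ × ℕ × ℕ) (i : ℕ) :
    rval cf c ((rstep cf c)^[i] s) = rval cf c s := by
  induction i with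
  | zero => rfl
  | succ i ih => rw [Function.iterate_succ_apply', rval_step, ih]

theorem rstep_fst_le (cf : Code) (c : ℕ × ℕ) (s : ℕ × ℕ × ℕ) :
    (rstep cf c s).1 ≤ s.1 ∧ (rstep cf c s).2.1 ≤ s.2.1 + 1 ∧
      ((rstep cf c s).2.2 ≤ s.2.2 ∨ (rstep cf c s).2.2 ≤ s.2.1 + 2) ∧
      (0 < (rstep cf c s).2.2 ∨ ((rstep cf c s).1 + 1 = s.1 ∧ s.2.2 = 0)) := by
  rw [rstep]
  by_cases h : 0 < s.2.2
  · simp [h]
  · simp only [h, decide_false, Bool.false_eq_true, if_false]
    split_ifs with h1 h2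
    · simp
    · rw [Bool.and_eq_true, decide_eq_true_iff] at h1
      have := h1.1
      refine ⟨by simp only; omega, le_rfl, Or.inl (Nat.zero_le _), Or.inr ⟨?_, by omega⟩⟩
      simp only
      omega
    · simp

theorem riter_done (cf : Code) (c : ℕ × ℕ) (K m : ℕ) (i : ℕ) :
    0 < ((rstep cf c)^[i] (K, m, 0)).2.2 ∨ ((rstep cf c)^[i] (K, m, 0)).1 + i = K := by
  induction i with
  | zero => right; simp
  | succ i ih =>
    rw [Function.iterate_succ_apply']
    rcases (rstep_fst_le cf c ((rstep cf c)^[i] (K, m, 0))).2.2.2 with h | ⟨h, h'⟩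
    · exact Or.inl h
    · rcases ih with ih | ih
      · omega
      · right; omega

theorem riter_le (cf : Code) (c : ℕ × ℕ) (K m : ℕ) (i : ℕ) :
    ((rstep cf c)^[i] (K, m, 0)).1 ≤ K ∧ ((rstep cf c)^[i] (K, m, 0)).2.1 ≤ m + i ∧
      ((rstep cf c)^[i] (K, m, 0)).2.2 ≤ m + i + 1 := by
  induction i with
  | zero => simp
  | succ i ih =>
    rw [Function.iterate_succ_apply']
    obtain ⟨h1, h2, h3, _⟩ := rstep_fst_le cf c ((rstep cf c)^[i] (K, m, 0))
    refine ⟨by omega, by omega, ?_⟩
    rcases h3 with h3 | h3 <;> omega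

theorem ev_rfind (cf : Code) (x : ℕ × ℕ) : ev (Code.rfind' cf) x =
    ((rstep cf x)^[x.1 + 1] (x.1, x.2.unpair.2, 0)).2.2 - 1 := by
  obtain ⟨K, n⟩ := x
  have h1 := riter_val cf (K, n) (K, n.unpair.2, 0) (K + 1)
  have h2 := riter_done cf (K, n) K n.unpair.2 (K + 1)
  have h3 : 0 < ((rstep cf (K, n))^[K + 1] (K, n.unpair.2, 0)).2.2 := by
    rcases h2 with h2 | h2
    · exact h2
    · omega
  rw [rval, if_pos h3] at h1
  simp only
  rw [h1, rval]
  simp [Nat.pair_unpair]

theorem pf_rstep {cf : Code} (hf : PF (ev cf)) :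
    PF (fun x : (ℕ × ℕ) × (ℕ × ℕ × ℕ) => rstep cf x.1 x.2) := by
  have hn : PF (fun x : (ℕ × ℕ) × (ℕ × ℕ × ℕ) => x.1.2) := PF.id'.fst.snd
  have hs : PF (fun x : (ℕ × ℕ) × (ℕ × ℕ × ℕ) => x.2) := PF.id'.snd
  have hF : PF (fun x : (ℕ × ℕ) × (ℕ × ℕ × ℕ) => x.2.1) := PF.id'.snd.fst
  have hm : PF (fun x : (ℕ × ℕ) × (ℕ × ℕ × ℕ) => x.2.2.1) := PF.id'.snd.snd.fst
  have hr : PF (fun x : (ℕ × ℕ) × (ℕ × ℕ × ℕ) => x.2.2.2) := PF.id'.snd.snd.snd
  have hp := pf_pair (pf_unpair1 hn) hm
  have he := hf.comp (hF.pair hp)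
  have hA := hF.isPos.and ((hp.lt hF).and he.isPos)
  exact hr.isPos.ite hs (hA.ite ((he.natEq (PF.const 1)).ite (hF.pair (hm.pair hm.succ.succ))
    (hF.pred.pair (hm.succ.pair (PF.const 0)))) (hF.pair (hm.pair (PF.const 1))))

theorem pf_rfind {cf : Code} (hf : PF (ev cf)) : PF (ev (Code.rfind' cf)) := by
  have hn : PF (fun x : ℕ × ℕ => x.2) := PF.id'.snd
  have h := PF.iter (γ := ℕ × ℕ) (β := ℕ × ℕ × ℕ) (f := rstep cf)
    (b := fun x => (x.1, x.2.unpair.2, 0))
    (n := fun x => x.1 + 1) (pf_rstep hf) (PF.id'.fst.pair ((pf_unpair2 hn).pair (PF.const 0)))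
    PF.id'.fst.succ (8 * Polynomial.X + 30) ?_
  · exact h.snd.snd.pred.cast (fun x => by rw [ev_rfind])
  · rintro ⟨K, n⟩ i hi
    obtain ⟨h1, h2, h3⟩ := riter_le cf (K, n) K n.unpair.2 i
    have h4 : n.unpair.2 ≤ n := Nat.unpair_right_le n
    change sz ((rstep cf (K, n))^[i] (K, n.unpair.2, 0)) ≤ _
    generalize hs : (rstep cf (K, n))^[i] (K, n.unpair.2, 0) = s at h1 h2 h3
    obtain ⟨F, m, r⟩ := s
    rw [sz_pair, sz_pair, sz_nat, sz_nat, sz_nat, sz_pair, sz_nat, sz_nat]
    simp only [Polynomial.eval_add, Polynomial.eval_mul, Polynomial.eval_ofNat,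
      Polynomial.eval_X]
    simp only at h1 h2 h3 hi
    omega

/-- the evaluation of a fixed code is in polynomial time in the unary fuel and argument -/
theorem pf_ev (c : Code) : PF (ev c) := by
  have hK : PF (fun x : ℕ × ℕ => x.1) := PF.id'.fst
  have hn : PF (fun x : ℕ × ℕ => x.2) := PF.id'.snd
  have hlt := hn.lt hK
  induction c with
  | zero => exact (hlt.ite (PF.const 1) (PF.const 0)).cast (fun x => by rw [ev_zero])
  | succ => exact (hlt.ite hn.succ.succ (PF.const 0)).cast (fun x => by rw [ev_succ])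
  | left => exact (hlt.ite (pf_unpair1 hn).succ (PF.const 0)).cast (fun x => by rw [ev_left])
  | right => exact (hlt.ite (pf_unpair2 hn).succ (PF.const 0)).cast (fun x => by rw [ev_right])
  | pair cf cg hf hg =>
    exact (hlt.ite ((hf.isPos.and hg.isPos).ite (pf_pair hf.pred hg.pred).succ (PF.const 0))
      (PF.const 0)).cast (fun x => by rw [ev_pair])
  | comp cf cg hf hg =>
    exact (hlt.ite (hg.isPos.ite (hf.comp (hK.pair hg.pred)) (PF.const 0))
      (PF.const 0)).cast (fun x => by rw [ev_comp])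
  | prec cf cg hf hg => exact pf_prec hf hg
  | rfind' cf hf => exact pf_rfind hf

/-! ### lists of bits -/

/-- the value of a list of bits, cut at `s` -/
def un (s : ℕ) (l : List Bool) : ℕ :=
  l.reverse.foldl (fun v b => if decide ((if b then 1 else 0) + (v + v) < s) then
    (if b then 1 else 0) + (v + v) else s) 0

theorem un_eq (s : ℕ) (l : List Bool) : un s l = min (PT1.val l) s := by
  rw [un, List.foldl_reverse]
  induction l with
  | nil => simp [PT1.val]
  | cons b l ih =>
    rw [List.foldr_cons, ih, PT1.val]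
    cases b
    · simp only [Bool.false_eq_true, if_false, Bool.toNat_false]
      split_ifs with h
      · rw [decide_eq_true_iff] at h; omega
      · rw [decide_eq_true_iff] at h; omega
    · simp only [if_true, Bool.toNat_true]
      split_ifs with h
      · rw [decide_eq_true_iff] at h; omega
      · rw [decide_eq_true_iff] at h; omega

theorem pf_un : PF (fun x : ℕ × List Bool => un x.1 x.2) := by
  have hb : PF (fun x : ((ℕ × List Bool) × ℕ) × Bool => (if x.2 then 1 else 0 : ℕ)) :=
    PF.id'.snd.ite (PF.const 1) (PF.const 0)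
  have hv : PF (fun x : ((ℕ × List Bool) × ℕ) × Bool => x.1.2) := PF.id'.fst.snd
  have hs : PF (fun x : ((ℕ × List Bool) × ℕ) × Bool => x.1.1.1) := PF.id'.fst.fst.fst
  have hw := hb.add (hv.add hv)
  refine PF.foldl' (γ := ℕ × List Bool) (f := fun c v b =>
    if decide ((if b then 1 else 0) + (v + v) < c.1) then
    (if b then 1 else 0) + (v + v) else c.1) (b := fun _ => 0) (l := fun c => c.2.reverse)
    ((hw.lt hs).ite hw hs) (PF.const 0) PF.id'.snd.reverse (2 * Polynomial.X + 1) ?_
  rintro ⟨s, l⟩ l' hl'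
  have key : ∀ l' : List Bool, l'.foldl (fun v b =>
    if decide ((if b then 1 else 0) + (v + v) < s) then
    (if b then 1 else 0) + (v + v) else s) 0 ≤ s := by
    intro l'
    induction l' using List.reverseRecOn with
    | nil => simp
    | append_singleton l b ih =>
      rw [List.foldl_append, List.foldl_cons, List.foldl_nil]
      cases b
      · simp only [Bool.false_eq_true, if_false]
        split_ifs with h1
        · rw [decide_eq_true_iff] at h1; omega
        · exact le_rfl
      · simp only [if_true]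
        split_ifs with h1
        · rw [decide_eq_true_iff] at h1; omega
        · exact le_rfl
  have h1 := key l'
  rw [sz_nat, sz_pair, sz_nat]
  simp only [Polynomial.eval_add, Polynomial.eval_mul, Polynomial.eval_ofNat,
    Polynomial.eval_X, Polynomial.eval_one]
  omega

/-- one step with the flag -/
def stg (c : Code) (s : ℕ) (x : Bool × List Bool) : Bool × List Bool :=
  (x.1 || decide (0 < ev c (s, un s x.2)), PT1.stp x.2)

/-- the test -/
def testg (c : Code) (l : List Bool) : Bool :=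
  ((stg c (l.length - 1))^[8 * (l.length - 1) + 1] (false, l)).1

theorem ev_un (c : Code) (s : ℕ) (l : List Bool) :
    0 < ev c (s, un s l) ↔ (Code.evaln s c (PT1.val l)).isSome = true := by
  rw [un_eq]
  rcases Nat.lt_or_ge (PT1.val l) s with h | h
  · rw [min_eq_left h.le, ev, oc_pos]
  · rw [min_eq_right h, ev_bound c s s le_rfl]
    have h2 := ev_bound c s (PT1.val l) h
    rw [ev] at h2
    rw [← oc_pos]
    simp only at h2
    omega

theorem stg_iter (c : Code) (s : ℕ) (l : List Bool) (i : ℕ) :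
    ((stg c s)^[i] (false, l)).2 = PT1.stp^[i] l ∧
      (((stg c s)^[i] (false, l)).1 = true ↔
        ∃ k < i, (Code.evaln s c (col^[k] (PT1.val l))).isSome = true) := by
  induction i with
  | zero => simp
  | succ i ih =>
    obtain ⟨h1, h2⟩ := ih
    rw [Function.iterate_succ_apply', Function.iterate_succ_apply', stg]
    refine ⟨by rw [h1], ?_⟩
    rw [Bool.or_eq_true, h2, h1, decide_eq_true_iff, ev_un, PT1.val_iter]
    constructor
    · rintro (⟨k, hk, h⟩ | h)
      · exact ⟨k, by omega, h⟩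
      · exact ⟨i, by omega, h⟩
    · rintro ⟨k, hk, h⟩
      rcases Nat.lt_succ_iff_lt_or_eq.1 hk with hk | rfl
      · exact Or.inl ⟨k, hk, h⟩
      · exact Or.inr h

theorem testg_iff (c : Code) (l : List Bool) :
    testg c l = true ↔ ∃ k ≤ 8 * (l.length - 1),
      (Code.evaln (l.length - 1) c (col^[k] (PT1.val l))).isSome = true := by
  rw [testg, (stg_iter c _ l _).2]
  constructor
  · rintro ⟨k, hk, h⟩; exact ⟨k, by omega, h⟩
  · rintro ⟨k, hk, h⟩; exact ⟨k, by omega, h⟩

theorem pf_testg (c : Code) : PF (testg c) := by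
  have hs : PF (fun x : List Bool × (Bool × List Bool) => x.1.length - 1) :=
    PF.id'.fst.length.pred
  have hf : PF (fun x : List Bool × (Bool × List Bool) => stg c (x.1.length - 1) x.2) :=
    (PF.id'.snd.fst.or ((pf_ev c).comp (hs.pair (pf_un.comp (hs.pair PF.id'.snd.snd)))).isPos).pair
      (PT1.pf_stp.comp PF.id'.snd.snd)
  have h := PF.iter (γ := List Bool) (f := fun l s => stg c (l.length - 1) s)
    (b := fun l => (false, l))
    (n := fun l => 8 * (l.length - 1) + 1) hf
    ((PF.const false).pair PF.id') ((PF.const 8).mul PF.id'.length.pred).succ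
    (68 * Polynomial.X + 13) ?_
  · exact h.fst
  · intro l i hi
    change sz ((stg c (l.length - 1))^[i] (false, l)) ≤ _
    have h1 : sz ((stg c (l.length - 1))^[i] (false, l)) =
        sz ((stg c (l.length - 1))^[i] (false, l)).1 +
          sz ((stg c (l.length - 1))^[i] (false, l)).2 + 1 :=
      sz_pair _ _
    rw [(stg_iter c (l.length - 1) l i).1] at h1
    have h2 := sz_bool ((stg c (l.length - 1))^[i] (false, l)).1
    have h3 := PT1.sz_bits (PT1.stp^[i] l)
    have h4 := PT1.len_iter l i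
    have h5 := length_le_sz l
    have h6 := sz_pos l
    simp only [Polynomial.eval_add, Polynomial.eval_mul, Polynomial.eval_ofNat,
      Polynomial.eval_X]
    omega

end PT3

theorem poly_evaln (c : Nat.Partrec.Code) :
    Nonempty (Turing.TM2ComputableInPolyTime Computability.encodeNat Computability.encodeBool
      (fun n : ℕ => decide (∃ k ≤ 8 * Nat.log 2 n,
        (Nat.Partrec.Code.evaln (Nat.log 2 n) c (col^[k] n)).isSome = true))) := by
  have hA : Poly Computability.encodeNat en (fun n : ℕ => Computability.encodeNat n) :=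
    (Poly.toTree D.ofBool).restrict Computability.encodeNat (fun _ => rfl) (fun _ => rfl)
  have hB : Poly en Computability.encodeBool (PT3.testg c) := (PT3.pf_testg c).toPB
  have hC := Poly.comp hA hB
  have he : (fun n : ℕ => decide (∃ k ≤ 8 * Nat.log 2 n,
        (Nat.Partrec.Code.evaln (Nat.log 2 n) c (col^[k] n)).isSome = true)) =
      fun n => PT3.testg c (Computability.encodeNat n) := by
    funext n
    rw [Bool.eq_iff_iff, decide_eq_true_iff, PT3.testg_iff, (PT1.encNat n).1, (PT1.encNat n).2]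
  rw [he]
  exact hC

end Pool.Agent.W_e21d3a_h93
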