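import Pool.Agent.W_e21d3a_h93.CE1
import Pool.Agent.W_e21d3a_h93.G1
import Pool.Agent.W_e21d3a_h93.PT3

set_option autoImplicit false

/-!
# [NC3] CE2: computably enumerable invariant sets are, up to a set of density zero, in polynomial time
-/

namespace Pool.Agent.W_e21d3a_h93

open Nat.Partrec.Code in
theorem ce_poly {Cm : ℝ} (hmix : E21.Mix Cm) (S : Set ℕ)
    (hS : ∀ n, 0 < n → (n ∈ S ↔ col n ∈ S)) (hre : REPred (fun n => n ∈ S)) :
    ∃ g : ℕ → Bool,
      Nonempty (Turing.TM2ComputableInPolyTime Computability.encodeNat Computability.encodeBool g) ∧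
      (∀ n, g n = true → n ∈ S) ∧
      ∀ eps : ℝ, 0 < eps → ∃ X0 : ℕ, ∀ X : ℕ, X0 ≤ X →
        (Nat.card {n : ℕ // 1 ≤ n ∧ n ≤ X ∧ n ∈ S ∧ g n = false} : ℝ) ≤ eps * X := by
  obtain ⟨c, hc⟩ := exists_code.1 hre
  have hc' : ∀ a, a ∈ S ↔ (eval c a).Dom := by
    intro a
    have h1 : a ∈ S ↔ (eval c (Encodable.encode a)).Dom := by
      rw [hc]
      simp [Part.dom_iff_mem]
    simpa using h1
  refine ⟨_, poly_evaln c, ?_, ?_⟩
  · intro n h
    rw [decide_eq_true_eq] at h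
    obtain ⟨k, _, hk⟩ := h
    rw [Option.isSome_iff_exists] at hk
    obtain ⟨x, hx⟩ := hk
    have hn : 0 < n := by
      rcases Nat.eq_zero_or_pos n with h0 | h0
      · subst h0
        exfalso
        rw [Nat.log_zero_right] at hx
        have := evaln_bound hx
        omega
      · exact h0
    rw [(inv_iterate hS hn k).2, hc', Part.dom_iff_mem]
    exact ⟨x, evaln_sound hx⟩
  · intro eps heps
    obtain ⟨N0, X0, h⟩ := reach8 hmix (eps / 2) (by positivity)
    obtain ⟨s0, hs0⟩ := CE1_stage (S := S) (R := fun a s => (evaln s c a).isSome = true)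
      (fun a s t hst h => by
        rw [Option.isSome_iff_exists] at h ⊢
        obtain ⟨x, hx⟩ := h
        exact ⟨x, evaln_mono hst hx⟩)
      (fun a => by
        rw [hc' a, Part.dom_iff_mem]
        constructor
        · rintro ⟨x, hx⟩
          obtain ⟨k, hk⟩ := evaln_complete.1 hx
          exact ⟨k, Option.isSome_iff_exists.2 ⟨x, hk⟩⟩
        · rintro ⟨s, hs⟩
          rw [Option.isSome_iff_exists] at hs
          obtain ⟨x, hx⟩ := hs
          exact ⟨x, evaln_sound hx⟩) N0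
    refine ⟨max X0 ⌈2 * ((2 ^ s0 : ℕ) : ℝ) / eps⌉₊, fun X hX => ?_⟩
    have hXa : X0 ≤ X := le_trans (le_max_left _ _) hX
    have hXb : 2 * ((2 ^ s0 : ℕ) : ℝ) / eps ≤ X := Nat.ceil_le.1 (le_trans (le_max_right _ _) hX)
    have h3 := h X hXa
    have h4 : ((2 ^ s0 : ℕ) : ℝ) ≤ eps / 2 * X := by
      rw [div_le_iff₀ heps] at hXb
      linarith
    have h5 := card_le_add (X := X) (M := 2 ^ s0)
      (P := fun n => n ∈ S ∧ decide (∃ k ≤ 8 * Nat.log 2 n,
        (evaln (Nat.log 2 n) c (col^[k] n)).isSome = true) = false)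
      (Q := fun n => ¬ ∃ k ≤ 8 * Nat.log 2 n, col^[k] n ≤ N0) (by
      intro n hn hP
      rintro ⟨k, hk, hk2⟩
      have hnpos : 0 < n := lt_of_lt_of_le (by positivity) hn
      have hM := (inv_iterate hS hnpos k).2.1 hP.1
      have hlog : s0 ≤ Nat.log 2 n := Nat.le_log_of_pow_le (by norm_num) hn
      have h6 := hs0 _ hk2 hM
      rw [Option.isSome_iff_exists] at h6
      obtain ⟨x, hx⟩ := h6
      have h7 := hP.2
      rw [decide_eq_false_iff_not] at h7
      exact h7 ⟨k, hk, Option.isSome_iff_exists.2 ⟨x, evaln_mono hlog hx⟩⟩)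
    have h6 : (Nat.card {n : ℕ // 1 ≤ n ∧ n ≤ X ∧ n ∈ S ∧ decide (∃ k ≤ 8 * Nat.log 2 n,
        (evaln (Nat.log 2 n) c (col^[k] n)).isSome = true) = false} : ℝ) ≤
        (Nat.card {n : ℕ // 1 ≤ n ∧ n ≤ X ∧ ¬ ∃ k ≤ 8 * Nat.log 2 n, col^[k] n ≤ N0} : ℝ) + ((2 ^ s0 : ℕ) : ℝ) := by
      exact_mod_cast h5
    linarith

end Pool.Agent.W_e21d3a_h93
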