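import Pool.Agent.W_e21d3a_h93.G1

set_option autoImplicit false

/-!
# Countable additivity of the natural density on the invariant sets (helper6)
-/

namespace Pool.Agent.W_e21d3a_h93

open Filter Finset

open Classical in
private theorem G2_mono (X : ℕ) {P Q : Set ℕ} (h : ∀ n, 1 ≤ n → n ∈ P → n ∈ Q) :
    (((Finset.Icc 1 X).filter (fun n => n ∈ P)).card : ℝ) ≤ ((Finset.Icc 1 X).filter (fun n => n ∈ Q)).card := by
  refine Nat.cast_le.2 (Finset.card_le_card fun n hn => ?_)
  rw [Finset.mem_filter, Finset.mem_Icc] at hn ⊢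
  exact ⟨hn.1, h n hn.1.1 hn.2⟩

open Classical in
/-- **Countable additivity.** If the `S i` are invariant and pairwise disjoint, with natural densities `s i`, and their union has
the natural density `t`, then `t = ∑ s i`. -/
theorem density_iUnion {Cm : ℝ} (hmix : E21.Mix Cm) (S : ℕ → Set ℕ)
    (hS : ∀ i n, 0 < n → (n ∈ S i ↔ col n ∈ S i))
    (hd : ∀ i j, i ≠ j → ∀ n, 0 < n → n ∈ S i → n ∉ S j) (s : ℕ → ℝ)
    (hs : ∀ i, Tendsto (fun X : ℕ => (((Finset.Icc 1 X).filter (fun n => n ∈ S i)).card : ℝ) / X) atTop (nhds (s i)))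
    (t : ℝ) (ht : Tendsto (fun X : ℕ => (((Finset.Icc 1 X).filter (fun n => n ∈ ⋃ i, S i)).card : ℝ) / X) atTop
      (nhds t)) : HasSum s t := by
  -- the finite unions
  have hfin : ∀ (F : Finset ℕ) (X : ℕ), ((((Finset.Icc 1 X).filter (fun n => ∃ i ∈ F, n ∈ S i)).card : ℕ) : ℝ) =
      ∑ i ∈ F, (((Finset.Icc 1 X).filter (fun n => n ∈ S i)).card : ℝ) := by
    intro F X
    have h1 : (Finset.Icc 1 X).filter (fun n => ∃ i ∈ F, n ∈ S i) =
        F.biUnion fun i => (Finset.Icc 1 X).filter (fun n => n ∈ S i) := by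
      ext n
      simp only [Finset.mem_filter, Finset.mem_biUnion]
      tauto
    rw [h1, Finset.card_biUnion]
    · push_cast
      rfl
    · intro i _ j _ hij
      simp only [Function.onFun]
      rw [Finset.disjoint_left]
      intro n hn hn'
      rw [Finset.mem_filter, Finset.mem_Icc] at hn hn'
      exact hd i j hij n hn.1.1 hn.2 hn'.2
  have hsum : ∀ F : Finset ℕ, Tendsto
      (fun X : ℕ => ((((Finset.Icc 1 X).filter (fun n => ∃ i ∈ F, n ∈ S i)).card : ℕ) : ℝ) / X) atTop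
      (nhds (∑ i ∈ F, s i)) := by
    intro F
    have h1 : (fun X : ℕ => ((((Finset.Icc 1 X).filter (fun n => ∃ i ∈ F, n ∈ S i)).card : ℕ) : ℝ) / X) =
        fun X : ℕ => ∑ i ∈ F, (((Finset.Icc 1 X).filter (fun n => n ∈ S i)).card : ℝ) / X := by
      funext X
      rw [hfin F X, Finset.sum_div]
    rw [h1]
    exact tendsto_finsetSum F fun i _ => hs i
  have hs0 : ∀ i, 0 ≤ s i := fun i => ge_of_tendsto' (hs i) fun X => by positivity
  have hle : ∀ F : Finset ℕ, ∑ i ∈ F, s i ≤ t := by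
    intro F
    refine le_of_tendsto_of_tendsto' (hsum F) ht fun X => ?_
    refine div_le_div_of_nonneg_right ?_ (Nat.cast_nonneg X)
    refine Nat.cast_le.2 (Finset.card_le_card fun n hn => ?_)
    rw [Finset.mem_filter] at hn ⊢
    obtain ⟨i, _, hi⟩ := hn.2
    exact ⟨hn.1, Set.mem_iUnion.2 ⟨i, hi⟩⟩
  have hsm : Summable s := summable_of_sum_le hs0 hle
  have h1 : ∑' i, s i ≤ t := hsm.tsum_le_of_sum_le hle
  have h2 : t ≤ ∑' i, s i := by
    refine le_of_forall_pos_le_add fun eps heps => ?_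
    obtain ⟨N0, X0, hN⟩ := reach8 hmix eps heps
    set F : Finset ℕ := (Finset.Icc 1 N0).image (fun M => if h : ∃ i, M ∈ S i then h.choose else 0) with hF
    have hmem : ∀ i M, 1 ≤ M → M ≤ N0 → M ∈ S i → i ∈ F := by
      intro i M h1 h2 h3
      rw [hF, Finset.mem_image]
      refine ⟨M, Finset.mem_Icc.2 ⟨h1, h2⟩, ?_⟩
      have h4 : ∃ i, M ∈ S i := ⟨i, h3⟩
      rw [dif_pos h4]
      by_contra h5
      exact hd _ _ h5 M h1 h4.choose_spec h3
    have h3 : t ≤ ∑ i ∈ F, s i + eps := by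
      have h4 : Tendsto (fun X : ℕ => ((((Finset.Icc 1 X).filter (fun n => ∃ i ∈ F, n ∈ S i)).card : ℕ) : ℝ) / X + eps)
          atTop (nhds (∑ i ∈ F, s i + eps)) := (hsum F).add_const eps
      refine le_of_tendsto_of_tendsto ht h4 ?_
      filter_upwards [eventually_ge_atTop X0, eventually_ge_atTop 1] with X hX hX1
      have hXp : (0 : ℝ) < X := by exact_mod_cast hX1
      have h5 := hN X hX
      rw [card_Icc_filter] at h5
      have h6 : (Finset.Icc 1 X).filter (fun n => n ∈ ⋃ i, S i) ⊆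
          (Finset.Icc 1 X).filter (fun n => ∃ i ∈ F, n ∈ S i) ∪
          (Finset.Icc 1 X).filter (fun n => ¬ ∃ k ≤ 8 * Nat.log 2 n, col^[k] n ≤ N0) := by
        intro n hn
        rw [Finset.mem_filter] at hn
        rw [Finset.mem_union, Finset.mem_filter, Finset.mem_filter]
        obtain ⟨i, hi⟩ := Set.mem_iUnion.1 hn.2
        by_cases h7 : ∃ k ≤ 8 * Nat.log 2 n, col^[k] n ≤ N0
        · left
          obtain ⟨k, _, hk⟩ := h7
          have hn1 : 0 < n := (Finset.mem_Icc.1 hn.1).1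
          obtain ⟨h8, h9⟩ := inv_iterate (hS i) hn1 k
          exact ⟨hn.1, i, hmem i _ h8 hk (h9.1 hi), hi⟩
        · right
          exact ⟨hn.1, h7⟩
      have h7 : (((Finset.Icc 1 X).filter (fun n => n ∈ ⋃ i, S i)).card : ℝ) ≤
          (((Finset.Icc 1 X).filter (fun n => ∃ i ∈ F, n ∈ S i)).card : ℝ) + eps * X := by
        have h8 := (Finset.card_le_card h6).trans (Finset.card_union_le _ _)
        have h9 : (((Finset.Icc 1 X).filter (fun n => n ∈ ⋃ i, S i)).card : ℝ) ≤
          (((Finset.Icc 1 X).filter (fun n => ∃ i ∈ F, n ∈ S i)).card : ℝ) +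
          (((Finset.Icc 1 X).filter (fun n => ¬ ∃ k ≤ 8 * Nat.log 2 n, col^[k] n ≤ N0)).card : ℝ) := by
          exact_mod_cast h8
        refine h9.trans (add_le_add le_rfl ?_)
        convert h5 using 3
      rw [div_add' _ _ _ hXp.ne']
      exact div_le_div_of_nonneg_right h7 hXp.le
    exact h3.trans (add_le_add (hsm.sum_le_tsum F fun i _ => hs0 i) le_rfl)
  rw [← le_antisymm h1 h2]
  exact hsm.hasSum

end Pool.Agent.W_e21d3a_h93
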