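import Mathlib

set_option autoImplicit false

/-!
# Definitions for the natural density version of Tao's theorem (MP_e21d3a_lc)

Paper proof: rows 497-502 of the table `proofs` (titles [NC S..]).
-/

namespace Pool.Agent.W_e21d3a_h93

/-- the Collatz map -/
def col (m : ℕ) : ℕ := if m % 2 = 0 then m / 2 else 3 * m + 1

/-- 2-adic valuation of `3N+1` -/
def vv (N : ℕ) : ℕ := padicValNat 2 (3 * N + 1)

/-- the Syracuse map (on odd numbers) -/
def syr (N : ℕ) : ℕ := (3 * N + 1) / 2 ^ vv N

/-- the first `n` valuations of `N`, the LAST one first -/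
def vals : ℕ → ℕ → List ℕ
  | 0, _ => []
  | n + 1, N => vv (syr^[n] N) :: vals n N

/-- the offset `c(α)`: `2^{|α|} M = 3^n N + c(α)` -/
def cc : List ℕ → ℕ
  | [] => 0
  | _ :: l => 2 ^ l.sum + 3 * cc l

/-- `X(α) = c(α) / 2^{|α|}` as a real number -/
noncomputable def XX : List ℕ → ℝ
  | [] => 0
  | a :: l => (1 + 3 * XX l) / 2 ^ a

/-- lists of length `n`, sum `t`, all entries `≥ 1` -/
def comps : ℕ → ℕ → Finset (List ℕ)
  | 0, t => if t = 0 then {[]} else ∅
  | n + 1, t => (Finset.Icc 1 t).biUnion fun a => (comps n (t - a)).image (List.cons a)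

/-- the probability that `n` geometric variables have sum `t` -/
noncomputable def pw (n t : ℕ) : ℝ := ((comps n t).card : ℝ) / 2 ^ t

open Classical in
/-- the probability of `P` for `n` geometric variables with sum at most `τ` -/
noncomputable def Pr (n τ : ℕ) (P : List ℕ → Prop) : ℝ :=
  ∑ t ∈ Finset.range (τ + 1), (((comps n t).filter P).card : ℝ) / 2 ^ t

/-- odd numbers in `(y, 2y]` -/
def OO (y : ℕ) : Finset ℕ := (Finset.Ioc y (2 * y)).filter (fun N => N % 2 = 1)

/-- `s_k(N)`: the sum of the first `k` valuations of `N` -/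
def ss (k N : ℕ) : ℕ := (vals k N).sum

/-- first passage below `x` at time `n` -/
def Passes (x N n : ℕ) : Prop := (∀ i < n, x < syr^[i] N) ∧ syr^[n] N ≤ x

/-- the odd numbers which pass below `x` and land in `E` at the first passage -/
def PP (x : ℕ) (E : Set ℕ) : Set ℕ := {N | N % 2 = 1 ∧ ∃ n, Passes x N n ∧ syr^[n] N ∈ E}

/-- `log x` -/
noncomputable def lx (x : ℕ) : ℝ := Real.log x

/-- `T = ⌈(log x)^{3/5}⌉` -/
noncomputable def TT (x : ℕ) : ℕ := ⌈(lx x) ^ ((3 : ℝ) / 5)⌉₊

/-- `m = ⌊(log x)/40⌋` -/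
noncomputable def mm (x : ℕ) : ℕ := ⌊lx x / 40⌋₊

/-- `n₁ = ⌊(log x)/5⌋` -/
noncomputable def n1 (x : ℕ) : ℕ := ⌊lx x / 5⌋₊

/-- `Λ = log (4/3)` -/
noncomputable def Lam : ℝ := Real.log (4 / 3)

/-- `θ = log₂ 3` -/
noncomputable def th : ℝ := Real.logb 2 3

noncomputable def xm (x : ℕ) : ℝ := x * Real.exp (mm x * Lam - 4 * TT x)
noncomputable def xp (x : ℕ) : ℝ := x * Real.exp (mm x * Lam + 2 * TT x)

/-- typical numbers: `|s_k(N) - 2k| ≤ T` for all `k ≤ n₁` -/
def TypG (n T N : ℕ) : Prop := ∀ k ≤ n, ss k N ≤ 2 * k + T ∧ 2 * k ≤ ss k N + T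

noncomputable def Typ (x N : ℕ) : Prop := TypG (n1 x) (TT x) N

/-- the window condition -/
def WW (x y : ℕ) : Prop := 41 / 40 * lx x ≤ lx y ∧ lx y ≤ 21 / 20 * lx x

/-- condition on a list: all the sums of its first `j` entries are `2j` up to `2T` -/
def PreOK (T : ℕ) (l : List ℕ) : Prop :=
  ∀ j ≤ l.length, (l.take j).sum ≤ 2 * j + 2 * T ∧ 2 * j ≤ (l.take j).sum + 2 * T

open Classical in
/-- logarithmic density of `G` in the window `(y,2y]`, normalised on odd numbers -/
noncomputable def LL (y : ℕ) (G : Set ℕ) : ℝ :=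
  2 / Real.log 2 * ∑ N ∈ (OO y).filter (fun N => N ∈ G), 1 / (N : ℝ)

open Classical in
/-- natural density of `G` in the window `(y,2y]`, normalised on odd numbers -/
noncomputable def nu (y : ℕ) (G : Set ℕ) : ℝ :=
  2 / (y : ℝ) * ((OO y).filter (fun N => N ∈ G)).card

open Classical in
/-- `φ^{(m)}_{n,t}(Y)`: probability of `|α| = t` and `X_n(α) = Y mod 3^m` -/
noncomputable def phi (m n t : ℕ) (Y : ℤ) : ℝ :=
  (((comps n t).filter (fun l => (3 : ℤ) ^ m ∣ 2 ^ t * Y - (cc l : ℤ))).card : ℝ) / 2 ^ t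

/-! ### basic API -/

theorem comps_zero (t : ℕ) : comps 0 t = if t = 0 then {[]} else ∅ := rfl

theorem comps_succ (n t : ℕ) : comps (n + 1) t =
    (Finset.Icc 1 t).biUnion fun a => (comps n (t - a)).image (List.cons a) := rfl

theorem mem_comps {n t : ℕ} {l : List ℕ} :
    l ∈ comps n t ↔ l.length = n ∧ l.sum = t ∧ ∀ a ∈ l, 1 ≤ a := by
  induction n generalizing t l with
  | zero =>
    rw [comps_zero]
    by_cases ht : t = 0
    · subst ht
      simp only [if_true, Finset.mem_singleton]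
      constructor
      · rintro rfl; simp
      · rintro ⟨h, _, _⟩; exact List.length_eq_zero_iff.mp h
    · simp only [if_neg ht, Finset.notMem_empty, false_iff]
      rintro ⟨h, h2, _⟩
      rw [List.length_eq_zero_iff.mp h] at h2
      exact ht (by simpa using h2.symm)
  | succ n ih =>
    rw [comps_succ]
    simp only [Finset.mem_biUnion, Finset.mem_Icc, Finset.mem_image]
    constructor
    · rintro ⟨a, ⟨ha1, hat⟩, l', hl', rfl⟩
      obtain ⟨h1, h2, h3⟩ := ih.mp hl'
      refine ⟨by simp [h1], by simp only [List.sum_cons, h2]; omega, ?_⟩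
      intro b hb
      rcases List.mem_cons.mp hb with rfl | hb
      · exact ha1
      · exact h3 b hb
    · rintro ⟨h1, h2, h3⟩
      cases l with
      | nil => simp at h1
      | cons a l' =>
        simp only [List.length_cons, Nat.add_right_cancel_iff] at h1
        simp only [List.sum_cons] at h2
        refine ⟨a, ⟨h3 a (by simp), by omega⟩, l', ih.mpr ⟨h1, by omega, ?_⟩, rfl⟩
        intro b hb; exact h3 b (by simp [hb])

theorem sum_comps_succ {M : Type*} [AddCommMonoid M] (n t : ℕ) (F : List ℕ → M) :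
    ∑ l ∈ comps (n + 1) t, F l =
      ∑ a ∈ Finset.Icc 1 t, ∑ l ∈ comps n (t - a), F (a :: l) := by
  rw [comps_succ, Finset.sum_biUnion]
  · refine Finset.sum_congr rfl fun a _ => ?_
    rw [Finset.sum_image]
    intro x _ y _ h
    exact (List.cons.inj h).2
  · intro a _ b _ hab
    rw [Function.onFun, Finset.disjoint_left]
    intro l hl hl'
    obtain ⟨l1, _, rfl⟩ := Finset.mem_image.mp hl
    obtain ⟨l2, _, h⟩ := Finset.mem_image.mp hl'
    exact hab (List.cons.inj h).1.symm

theorem sum_comps_zero {M : Type*} [AddCommMonoid M] (t : ℕ) (F : List ℕ → M) :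
    ∑ l ∈ comps 0 t, F l = if t = 0 then F [] else 0 := by
  rw [comps_zero]
  split_ifs <;> simp

theorem Lam_pos : 0 < Lam := Real.log_pos (by norm_num)

end Pool.Agent.W_e21d3a_h93
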