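import Pool.Agent.W_e21c_h6.Z2
import Pool.Agent.W_e21d3a_h93.Defs

set_option autoImplicit false

/-!
# [NC3] CE1: computably enumerable invariant sets are coarsely computable
-/

namespace Pool.Agent.W_e21d3a_h93

open Nat.Partrec.Code in
/-- primitive recursive stages of a computably enumerable set -/
theorem CE1_normal {p : ℕ → Prop} (hp : REPred p) :
    ∃ R : ℕ → ℕ → Prop, PrimrecRel R ∧ (∀ a s t, s ≤ t → R a s → R a t) ∧
      ∀ a, p a ↔ ∃ s, R a s := by
  obtain ⟨c, hc⟩ := exists_code.1 hp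
  have hc' : ∀ a, p a ↔ (eval c (Encodable.encode a)).Dom := by
    intro a
    rw [hc]
    simp [Part.dom_iff_mem]
  refine ⟨fun a s => (evaln s c (Encodable.encode a)).isSome, ?_, ?_, ?_⟩
  · have h : Primrec (fun q : ℕ × ℕ => (evaln q.2 c (Encodable.encode q.1)).isSome) :=
      Primrec.option_isSome.comp (primrec_evaln.comp
        ((Primrec.pair Primrec.snd (Primrec.const c)).pair
          (Primrec.encode.comp Primrec.fst)))
    exact (primrecPred_iff_primrec_decide (p := fun q : ℕ × ℕ =>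
      ((evaln q.2 c (Encodable.encode q.1)).isSome : Prop))).2 (h.of_eq fun q => by simp)
  · intro a s t hst h
    rw [Option.isSome_iff_exists] at h ⊢
    obtain ⟨x, hx⟩ := h
    exact ⟨x, evaln_mono hst hx⟩
  · intro a
    rw [hc' a, Part.dom_iff_mem]
    constructor
    · rintro ⟨x, hx⟩
      obtain ⟨k, hk⟩ := evaln_complete.1 hx
      exact ⟨k, Option.isSome_iff_exists.2 ⟨x, hk⟩⟩
    · rintro ⟨s, hs⟩
      rw [Option.isSome_iff_exists] at hs
      obtain ⟨x, hx⟩ := hs
      exact ⟨x, evaln_sound hx⟩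

/-- a computable approximation in stages of a computably enumerable set of natural numbers
(`Nat.Partrec.Code.evaln`) -/
theorem exists_stages (p : ℕ → Prop) (h : REPred p) :
    ∃ g : ℕ → ℕ → Bool, Computable₂ g ∧ (∀ n, p n ↔ ∃ s, g n s = true) ∧
      ∀ n s s', s ≤ s' → g n s = true → g n s' = true := by
  classical
  obtain ⟨R, hR, hmono, hp⟩ := CE1_normal h
  have h1 : Primrec₂ (fun (a : ℕ) (s : ℕ) => decide (R a s)) := hR.decide
  refine ⟨fun a s => decide (R a s), h1.to_comp, fun n => ?_, fun n s s' hs h => ?_⟩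
  · rw [hp n]
    simp
  · simp only [decide_eq_true_eq] at h ⊢
    exact hmono n s s' hs h

theorem CE1_col_eq : E21.col = col := rfl

theorem CE1_col_primrec : Primrec col := by
  refine Primrec.ite (c := fun m : ℕ => m % 2 = 0)
    (Primrec.eq.comp (Primrec.nat_mod.comp Primrec.id (Primrec.const 2)) (Primrec.const 0)) ?_ ?_
  · exact Primrec.nat_div.comp Primrec.id (Primrec.const 2)
  · exact Primrec.nat_add.comp (Primrec.nat_mul.comp (Primrec.const 3) Primrec.id)
      (Primrec.const 1)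

theorem CE1_col_pos {n : ℕ} (h : 0 < n) : 0 < col n := by
  unfold col
  split_ifs <;> omega

theorem CE1_iter {S : Set ℕ} (hS : ∀ n, 0 < n → (n ∈ S ↔ col n ∈ S)) (k : ℕ) :
    ∀ n, 0 < n → (n ∈ S ↔ col^[k] n ∈ S) := by
  induction k with
  | zero => intro n _; rfl
  | succ k ih =>
    intro n hn
    rw [Function.iterate_succ_apply, hS n hn]
    exact ih (col n) (CE1_col_pos hn)

/-- a stage which is good for all the members up to `N0` -/
theorem CE1_stage {S : Set ℕ} {R : ℕ → ℕ → Prop} (hmono : ∀ a s t, s ≤ t → R a s → R a t)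
    (hp : ∀ a, a ∈ S ↔ ∃ s, R a s) (N0 : ℕ) : ∃ s0, ∀ M ≤ N0, M ∈ S → R M s0 := by
  induction N0 with
  | zero =>
    by_cases h : 0 ∈ S
    · obtain ⟨s, hs⟩ := (hp 0).1 h
      refine ⟨s, fun M hM _ => ?_⟩
      obtain rfl : M = 0 := by omega
      exact hs
    · refine ⟨0, fun M hM hMS => ?_⟩
      obtain rfl : M = 0 := by omega
      exact absurd hMS h
  | succ N ih =>
    obtain ⟨s0, hs0⟩ := ih
    by_cases h : N + 1 ∈ S
    · obtain ⟨s, hs⟩ := (hp (N + 1)).1 h
      refine ⟨max s0 s, fun M hM hMS => ?_⟩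
      rcases Nat.lt_or_ge N M with h1 | h1
      · obtain rfl : M = N + 1 := by omega
        exact hmono _ _ _ (le_max_right _ _) hs
      · exact hmono _ _ _ (le_max_left _ _) (hs0 M h1 hMS)
    · refine ⟨s0, fun M hM hMS => ?_⟩
      rcases Nat.lt_or_ge N M with h1 | h1
      · obtain rfl : M = N + 1 := by omega
        exact absurd hMS h
      · exact hs0 M h1 hMS

theorem CE1_KK : E21.KK 1 ≤ 13 := by
  unfold E21.KK
  have h1 : (1 : ℝ) / 4 ≤ E21.La := by
    have h := Real.log_le_sub_one_of_pos (show (0 : ℝ) < 3 / 4 by norm_num)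
    have h2 : Real.log (3 / 4) = - Real.log (4 / 3) := by
      rw [← Real.log_inv]; norm_num
    unfold E21.La
    linarith
  have h3 : 3 / E21.La ≤ 12 := by
    rw [div_le_iff₀ E21.La_pos]
    linarith
  linarith

/-- Every c.e. set `S` with `n ∈ S ↔ col n ∈ S` has a computable subset `C` such that `S \ C` has natural
density `0`. `C = {n ≥ 1 : ∃ k ≤ 8 log₂ n, g (col^k n) (log₂ n)}` with the stages `g` of `S`.
`C ⊆ S` by invariance. Given `eps` take `N0` from `theorem_one` with `del` so small that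
`KK del * log n ≤ 8 * Nat.log 2 n` for large `n` (`3 log 2 / log (4/3) = 7.2284`); a good `n ∈ S` reaches some
`M ≤ N0`, `M ∈ S` (`M ≥ 1`), and `g M s₀ = true` for a stage `s₀` common to the finitely many `M ∈ S`,
`M ≤ N0`; so `n ∈ C` as soon as `log₂ n ≥ s₀`. -/
theorem ce_coarse {Cm : ℝ} (hmix : E21.Mix Cm) (S : Set ℕ)
    (hS : ∀ n, 0 < n → (n ∈ S ↔ col n ∈ S)) (hre : REPred (fun n => n ∈ S)) :
    ∃ C : Set ℕ, ComputablePred (fun n => n ∈ C) ∧ C ⊆ S ∧
      ∀ eps : ℝ, 0 < eps → ∃ X0 : ℕ, ∀ X : ℕ, X0 ≤ X →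
        (Nat.card {n : ℕ // 1 ≤ n ∧ n ≤ X ∧ n ∈ S ∧ n ∉ C} : ℝ) ≤ eps * X := by
  classical
  obtain ⟨R, hR, hmono, hp⟩ := CE1_normal hre
  have hR2 : PrimrecRel (fun (k n : ℕ) => R (col^[k] n) n) := by
    refine hR.comp (f := fun q : ℕ × ℕ => col^[q.1] q.2) (g := fun q : ℕ × ℕ => q.2) ?_
      Primrec.snd
    exact Primrec.nat_iterate (f := fun q : ℕ × ℕ => q.1) (g := fun q : ℕ × ℕ => q.2)
      (h := fun (_ : ℕ × ℕ) (m : ℕ) => col m) Primrec.fst Primrec.snd
      (CE1_col_primrec.comp Primrec.snd)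
  have hR3 : PrimrecPred (fun n : ℕ => ∃ k < 13 * n + 1, R (col^[k] n) n) :=
    (hR2.exists_lt).comp (f := fun n : ℕ => 13 * n + 1) (g := fun n : ℕ => n)
      (Primrec.succ.comp (Primrec.nat_mul.comp (Primrec.const 13) Primrec.id)) Primrec.id
  refine ⟨{n | ∃ k < 13 * n + 1, R (col^[k] n) n}, hR3.computablePred, ?_, ?_⟩
  · rintro n ⟨k, hk, hRk⟩
    have h1 : col^[k] n ∈ S := (hp _).2 ⟨n, hRk⟩
    rcases Nat.eq_zero_or_pos n with rfl | hn
    · obtain rfl : k = 0 := by omega
      exact h1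
    · exact (CE1_iter hS k n hn).2 h1
  · intro eps heps
    obtain ⟨N0, X0, -, hX⟩ := E21.theorem_one hmix 1 (eps / 2) one_pos (by positivity)
    obtain ⟨s0, hs0⟩ := CE1_stage hmono hp N0
    refine ⟨max X0 ⌈2 * s0 / eps⌉₊, fun X hXX => ?_⟩
    have hX1 := hX X (le_trans (le_max_left _ _) hXX)
    have hX2 : 2 * (s0 : ℝ) / eps ≤ X := Nat.ceil_le.1 (le_trans (le_max_right _ _) hXX)
    rw [div_le_iff₀ heps] at hX2
    set bad : ℕ → Prop := fun n =>
      ¬ ∃ k : ℕ, (k : ℝ) ≤ E21.KK 1 * Real.log n ∧ E21.col^[k] n ≤ N0 with hbad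
    set B : Finset ℕ := (Finset.Icc 1 X).filter bad with hB
    have hcard : Nat.card {n : ℕ // 1 ≤ n ∧ n ≤ X ∧
        ¬ ∃ k : ℕ, (k : ℝ) ≤ E21.KK 1 * Real.log n ∧ E21.col^[k] n ≤ N0} = B.card := by
      apply Nat.subtype_card
      intro x
      rw [hB, Finset.mem_filter, Finset.mem_Icc, and_assoc]
    rw [hcard] at hX1
    set D : Finset ℕ := (Finset.Icc 1 X).filter
      (fun n => n ∈ S ∧ ¬ ∃ k < 13 * n + 1, R (col^[k] n) n) with hD
    have hcard2 : Nat.card {n : ℕ // 1 ≤ n ∧ n ≤ X ∧ n ∈ S ∧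
        n ∉ {n | ∃ k < 13 * n + 1, R (col^[k] n) n}} = D.card := by
      apply Nat.subtype_card
      intro x
      rw [hD, Finset.mem_filter, Finset.mem_Icc, and_assoc]
      rfl
    rw [hcard2]
    have hsub : D ⊆ B ∪ Finset.range s0 := by
      intro n hn
      rw [hD, Finset.mem_filter, Finset.mem_Icc] at hn
      obtain ⟨⟨hn1, hn2⟩, hnS, hnC⟩ := hn
      rw [Finset.mem_union, Finset.mem_range, hB, Finset.mem_filter, Finset.mem_Icc]
      by_contra hcon
      push Not at hcon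
      obtain ⟨hc1, hc2⟩ := hcon
      have hgood : ∃ k : ℕ, (k : ℝ) ≤ E21.KK 1 * Real.log n ∧ E21.col^[k] n ≤ N0 := by
        by_contra h
        exact hc1 ⟨hn1, hn2⟩ h
      obtain ⟨k, hk1, hk2⟩ := hgood
      rw [CE1_col_eq] at hk2
      apply hnC
      refine ⟨k, ?_, ?_⟩
      · have hnr : (1 : ℝ) ≤ n := by exact_mod_cast hn1
        have hlog : Real.log n ≤ n := by
          have := Real.log_le_sub_one_of_pos (show (0 : ℝ) < n by linarith)
          linarith
        have h1 : (k : ℝ) ≤ 13 * n := by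
          calc (k : ℝ) ≤ E21.KK 1 * Real.log n := hk1
            _ ≤ 13 * Real.log n :=
              mul_le_mul_of_nonneg_right CE1_KK (Real.log_nonneg hnr)
            _ ≤ 13 * n := by linarith
        have h2 : k ≤ 13 * n := by exact_mod_cast h1
        omega
      · exact hmono _ _ _ hc2 (hs0 _ hk2 ((CE1_iter hS k n hn1).1 hnS))
    have h3 : (D.card : ℝ) ≤ B.card + s0 := by
      have h4 : D.card ≤ B.card + s0 := by
        calc D.card ≤ (B ∪ Finset.range s0).card := Finset.card_le_card hsub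
          _ ≤ B.card + (Finset.range s0).card := Finset.card_union_le _ _
          _ = B.card + s0 := by rw [Finset.card_range]
      exact_mod_cast h4
    linarith

end Pool.Agent.W_e21d3a_h93
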