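import Pool.Agent.W_e21d3a_h93.GDefs

set_option autoImplicit false

/-!
# [NC3] G3b: the sums `wsum` are computable
-/

namespace Pool.Agent.W_e21d3a_h93

theorem g3b_bodd (n : ℕ) : n.bodd = decide (n % 2 = 1) := by
  rw [Nat.mod_two_of_bodd]
  cases n.bodd <;> simp

theorem g3b_rec (g : ℕ → Bool) (y : ℕ) : ∀ k : ℕ,
    (∑ i ∈ Finset.range k, if (y + 1 + i) % 2 = 1 ∧ g (y + 1 + i) = true
      then y * y / (y + 1 + i) else 0) =
      Nat.rec (motive := fun _ => ℕ) 0 (fun i s =>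
        s + bif (y + 1 + i).bodd && g (y + 1 + i) then y * y / (y + 1 + i) else 0) k := by
  intro k
  induction k with
  | zero => rfl
  | succ k ih =>
    rw [Finset.sum_range_succ, ih]
    congr 1
    rw [g3b_bodd]
    by_cases h1 : (y + 1 + k) % 2 = 1 <;> cases h2 : g (y + 1 + k) <;> simp [h1]

/-- `Computable.nat_rec` on the number of terms -/
theorem wsum_computable (g : ℕ → ℕ → Bool) (hg : Computable₂ g) :
    Computable₂ (fun t y : ℕ => wsum (fun n => g n t) y) := by
  have hy : Computable (fun x : (ℕ × ℕ) × (ℕ × ℕ) => x.1.2) := Computable.snd.comp Computable.fst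
  have ht : Computable (fun x : (ℕ × ℕ) × (ℕ × ℕ) => x.1.1) := Computable.fst.comp Computable.fst
  have hi : Computable (fun x : (ℕ × ℕ) × (ℕ × ℕ) => x.2.1) := Computable.fst.comp Computable.snd
  have hs : Computable (fun x : (ℕ × ℕ) × (ℕ × ℕ) => x.2.2) := Computable.snd.comp Computable.snd
  have hadd : Computable₂ (fun a b : ℕ => a + b) := Primrec.nat_add.to_comp
  have hmul : Computable₂ (fun a b : ℕ => a * b) := Primrec.nat_mul.to_comp
  have hdiv : Computable₂ (fun a b : ℕ => a / b) := Primrec.nat_div.to_comp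
  have hand : Computable₂ (fun a b : Bool => a && b) := Primrec.and.to_comp
  have hbodd : Computable Nat.bodd := Primrec.nat_bodd.to_comp
  have hN : Computable (fun x : (ℕ × ℕ) × (ℕ × ℕ) => x.1.2 + 1 + x.2.1) :=
    hadd.comp (hadd.comp hy (Computable.const 1)) hi
  have hg' : Computable (fun x : (ℕ × ℕ) × (ℕ × ℕ) => g (x.1.2 + 1 + x.2.1) x.1.1) :=
    hg.comp hN ht
  have hterm : Computable₂ (fun (p : ℕ × ℕ) (q : ℕ × ℕ) =>
      q.2 + bif (p.2 + 1 + q.1).bodd && g (p.2 + 1 + q.1) p.1 then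
        p.2 * p.2 / (p.2 + 1 + q.1) else 0) := by
    have h1 : Computable (fun x : (ℕ × ℕ) × (ℕ × ℕ) =>
        bif (x.1.2 + 1 + x.2.1).bodd && g (x.1.2 + 1 + x.2.1) x.1.1 then
          x.1.2 * x.1.2 / (x.1.2 + 1 + x.2.1) else 0) :=
      Computable.cond (hand.comp (hbodd.comp hN) hg') (hdiv.comp (hmul.comp hy hy) hN)
        (Computable.const 0)
    exact hadd.comp hs h1
  have h := Computable.nat_rec (f := fun p : ℕ × ℕ => p.2) (g := fun _ : ℕ × ℕ => 0)
    Computable.snd (Computable.const 0) hterm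
  refine Computable.of_eq h ?_
  rintro ⟨t, y⟩
  exact (g3b_rec (fun n => g n t) y y).symm

theorem wsum_mono (g h : ℕ → Bool) (hgh : ∀ n, g n = true → h n = true) (y : ℕ) :
    wsum g y ≤ wsum h y := by
  refine Finset.sum_le_sum fun i _ => ?_
  by_cases h1 : (y + 1 + i) % 2 = 1 ∧ g (y + 1 + i) = true
  · rw [if_pos h1, if_pos ⟨h1.1, hgh _ h1.2⟩]
  · rw [if_neg h1]
    exact Nat.zero_le _

/-- there is a stage which is good for the whole window -/
theorem wsum_stage (g : ℕ → ℕ → Bool) (h : ℕ → Bool) (hgh : ∀ n, h n = true ↔ ∃ s, g n s = true)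
    (hmono : ∀ n s s', s ≤ s' → g n s = true → g n s' = true) (y : ℕ) :
    ∃ t, wsum (fun n => g n t) y = wsum h y := by
  have key : ∀ k : ℕ, ∃ t, ∀ i < k, ∀ s, t ≤ s → (g (y + 1 + i) s = true ↔ h (y + 1 + i) = true) := by
    intro k
    induction k with
    | zero => exact ⟨0, fun i hi => absurd hi (Nat.not_lt_zero i)⟩
    | succ k ih =>
      obtain ⟨t, ht⟩ := ih
      by_cases hk : h (y + 1 + k) = true
      · obtain ⟨s0, hs0⟩ := (hgh _).1 hk
        refine ⟨max t s0, fun i hi s hs => ?_⟩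
        rcases Nat.lt_succ_iff_lt_or_eq.1 hi with h1 | rfl
        · exact ht i h1 s (le_trans (le_max_left _ _) hs)
        · exact ⟨fun _ => hk, fun _ => hmono _ _ _ (le_trans (le_max_right _ _) hs) hs0⟩
      · refine ⟨t, fun i hi s hs => ?_⟩
        rcases Nat.lt_succ_iff_lt_or_eq.1 hi with h1 | rfl
        · exact ht i h1 s hs
        · exact ⟨fun h2 => (hgh _).2 ⟨s, h2⟩, fun h2 => absurd h2 hk⟩
  obtain ⟨t, ht⟩ := key y
  refine ⟨t, Finset.sum_congr rfl fun i hi => ?_⟩
  have h1 := ht i (Finset.mem_range.1 hi) t le_rfl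
  simp only [h1]

end Pool.Agent.W_e21d3a_h93
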