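import Pool.Agent.W_e21d3a_h93.G3a
import Pool.Agent.W_e21d3a_h93.G3b
import Pool.Agent.W_e21d3a_h93.CE1

set_option autoImplicit false

/-!
# [NC3] G3c: the density of an invariant set as a computable or left-c.e. real number

Let `y(n) = 2 ^ (K (n+1)^5)` with a natural number `K` so large that `y(n) ≥ y1` and
`C (K log 2)^(-1/5) ≤ 1/4`: by `wsum_rate` then `|a / b - s| ≤ 1 / (4 (n+1))` for
`a = wsum g (y n)`, `b = wsum (fun _ => true) (y n)`.

`density_computable`: `p n = 4 (n+1) a / b` (rounded down), `q n = (p n + 2) / 4`: then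
`|p n - 4 (n+1) s| ≤ 2`, `|4 q n - p n| ≤ 2`.
`density_left_ce`: index `k = Nat.pair m t`; `a = wsum (stage t) (y m)`, `b` as before; `a / b - 1/(4(m+1)) ≤ s`
and the supremum over `t` of `a / b` is `≥ s - 1/(4(m+1))` (`wsum_stage`). Put
`q k = (k+1) a / b - ((k+1) / (m+1) + 1)` (natural subtraction, divisions rounded down), so `q k / (k+1) ≤ s`
(`0 ≤ s` if the subtraction gives 0), and for given `m` the index `k` can be taken as large as we like
(larger `t`), which gives `q k / (k+1) ≥ s - 1/(4(m+1)) - 1/(m+1) - 2/(k+1)`.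
-/

namespace Pool.Agent.W_e21d3a_h93

/-- the window used for the precision `1 / (4 (n+1))` -/
def G3c_y (K n : ℕ) : ℕ := 2 ^ (K * (n + 1) ^ 5)

theorem G3c_two_pow : Primrec (fun n : ℕ => 2 ^ n) := by
  have h : Primrec (fun n : ℕ => n.rec (motive := fun _ => ℕ) 1 (fun _ r => 2 * r)) :=
    Primrec.nat_rec₁ 1 ((Primrec.nat_mul.comp (Primrec.const 2) Primrec.snd).to₂)
  refine h.of_eq fun n => ?_
  induction n with
  | zero => rfl
  | succ n ih =>
    rw [pow_succ, mul_comm, ← ih]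

theorem G3c_y_primrec (K : ℕ) : Primrec (G3c_y K) := by
  have h1 : Primrec (fun n : ℕ => K * (n + 1) ^ 5) := by
    have hs : Primrec (fun n : ℕ => n + 1) := Primrec.succ
    have h2 := Primrec.nat_mul.comp (Primrec.const K) (Primrec.nat_mul.comp hs
      (Primrec.nat_mul.comp hs (Primrec.nat_mul.comp hs (Primrec.nat_mul.comp hs hs))))
    refine h2.of_eq fun n => ?_
    ring
  exact G3c_two_pow.comp h1

/-- the sums with the precision `1 / (4 (n+1))` -/
theorem G3c_prec {C : ℝ} (hC : 0 < C) (y1 : ℕ) :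
    ∃ K : ℕ, ∀ n : ℕ, y1 ≤ G3c_y K n ∧
      C * (lx (G3c_y K n)) ^ (-(1 : ℝ) / 5) ≤ 1 / (4 * (n + 1)) := by
  have h2 : 0 < Real.log 2 := Real.log_pos (by norm_num)
  obtain ⟨K0, hK0⟩ := exists_nat_ge ((4 * C) ^ 5 / Real.log 2)
  refine ⟨max (K0 + 1) y1, fun n => ⟨?_, ?_⟩⟩
  · have h1 : y1 ≤ max (K0 + 1) y1 := le_max_right _ _
    have h3 : max (K0 + 1) y1 ≤ max (K0 + 1) y1 * (n + 1) ^ 5 :=
      Nat.le_mul_of_pos_right _ (by positivity)
    exact h1.trans (h3.trans (Nat.lt_two_pow_self).le)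
  · set K := max (K0 + 1) y1 with hK
    have hK1 : (K0 : ℝ) + 1 ≤ K := by
      have : K0 + 1 ≤ K := le_max_left _ _
      exact_mod_cast this
    have hKpos : (0 : ℝ) < K := by
      have : (0 : ℝ) ≤ K0 := by positivity
      linarith
    have hlog : lx (G3c_y K n) = (K * Real.log 2) * ((n : ℝ) + 1) ^ 5 := by
      unfold lx G3c_y
      push_cast
      rw [Real.log_pow]
      push_cast
      ring
    have hA : (0 : ℝ) < K * Real.log 2 := by positivity
    have hn : (0 : ℝ) < (n : ℝ) + 1 := by positivity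
    have hKC : (4 * C) ^ 5 ≤ K * Real.log 2 := by
      have : (4 * C) ^ 5 / Real.log 2 ≤ K := by linarith
      rwa [div_le_iff₀ h2] at this
    have e1 : (((n : ℝ) + 1) ^ 5) ^ (-(1 : ℝ) / 5) = ((n : ℝ) + 1)⁻¹ := by
      rw [← Real.rpow_natCast, ← Real.rpow_mul hn.le]
      norm_num
      exact Real.rpow_neg_one _
    have e2 : (K * Real.log 2) ^ (-(1 : ℝ) / 5) ≤ (4 * C)⁻¹ := by
      have h4C : (0 : ℝ) < 4 * C := by positivity
      calc (K * Real.log 2) ^ (-(1 : ℝ) / 5) ≤ ((4 * C) ^ 5) ^ (-(1 : ℝ) / 5) :=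
            Real.rpow_le_rpow_of_nonpos (by positivity) hKC (by norm_num)
        _ = (4 * C)⁻¹ := by
            rw [← Real.rpow_natCast, ← Real.rpow_mul h4C.le]
            norm_num
            rw [Real.rpow_neg_one, mul_inv]
            ring
    rw [hlog, Real.mul_rpow hA.le (by positivity), e1]
    calc C * ((K * Real.log 2) ^ (-(1 : ℝ) / 5) * ((n : ℝ) + 1)⁻¹)
        ≤ C * ((4 * C)⁻¹ * ((n : ℝ) + 1)⁻¹) := by gcongr
      _ = 1 / (4 * (n + 1)) := by field_simp

theorem G3c_unique {S : Set ℕ} {s s' : ℝ} (h : HasDens S s) (h' : HasDens S s') : s = s' :=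
  tendsto_nhds_unique h h'

/-- the floor of a product with a quotient -/
theorem G3c_floor (c a b : ℕ) : ((c * a / b : ℕ) : ℝ) ≤ c * ((a : ℝ) / b) ∧
    c * ((a : ℝ) / b) - 1 ≤ ((c * a / b : ℕ) : ℝ) := by
  have e : c * ((a : ℝ) / b) = ((c * a : ℕ) : ℝ) / (b : ℝ) := by push_cast; ring
  rw [e]
  refine ⟨Nat.cast_div_le, ?_⟩
  have h := Nat.lt_floor_add_one (((c * a : ℕ) : ℝ) / (b : ℝ))
  rw [Nat.floor_div_eq_div] at h
  linarith

/-- if the invariant set `S` is computable, its natural density is a computable real number -/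
theorem density_computable (S : Set ℕ) (hS : ∀ n, 0 < n → (n ∈ S ↔ col n ∈ S))
    (hc : ComputablePred (fun n => n ∈ S)) (s : ℝ) (hs : HasDens S s) :
    ∃ q : ℕ → ℕ, Computable q ∧ ∀ n : ℕ, |s * (n + 1) - q n| ≤ 1 := by
  obtain ⟨g, hg, hp⟩ := ComputablePred.computable_iff.1 hc
  have hgS : ∀ n, 0 < n → (g n = true ↔ n ∈ S) := fun n _ => by
    have := congrFun hp n
    simp only [eq_iff_iff] at this
    exact this.symm
  obtain ⟨s', C, y1, hs', hC, hrate⟩ := wsum_rate S hS g hgS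
  obtain rfl := G3c_unique hs hs'
  obtain ⟨K, hK⟩ := G3c_prec hC y1
  refine ⟨fun n => (4 * (n + 1) * wsum g (G3c_y K n) / wsum (fun _ => true) (G3c_y K n) + 2) / 4,
    ?_, ?_⟩
  · have hy : Computable (G3c_y K) := (G3c_y_primrec K).to_comp
    have ha : Computable (fun n => wsum g (G3c_y K n)) :=
      (wsum_computable (fun n _ => g n) (hg.comp Computable.fst).to₂).comp
        (Computable.const 0) hy
    have hb : Computable (fun n => wsum (fun _ => true) (G3c_y K n)) :=
      (wsum_computable (fun _ _ => true) (Computable.const true).to₂).comp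
        (Computable.const 0) hy
    have hn : Computable (fun n : ℕ => 4 * (n + 1)) :=
      (Primrec.nat_mul.comp (Primrec.const 4) Primrec.succ).to_comp
    have h1 : Computable (fun n => 4 * (n + 1) * wsum g (G3c_y K n)) :=
      Primrec.nat_mul.to_comp.comp hn ha
    have h2 := Primrec.nat_div.to_comp.comp h1 hb
    have h3 := Primrec.nat_add.to_comp.comp h2 (Computable.const 2)
    exact Primrec.nat_div.to_comp.comp h3 (Computable.const 4)
  · intro n
    obtain ⟨hy, hr⟩ := hK n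
    have h1 := (hrate _ hy).trans hr
    set a := wsum g (G3c_y K n)
    set b := wsum (fun _ => true) (G3c_y K n)
    set p : ℕ := 4 * (n + 1) * a / b with hpdef
    obtain ⟨f1, f2⟩ := G3c_floor (4 * (n + 1)) a b
    rw [← hpdef] at f1 f2
    push_cast at f1 f2
    have hn : (0 : ℝ) < 4 * ((n : ℝ) + 1) := by positivity
    rw [abs_le] at h1
    obtain ⟨u1, u2⟩ := h1
    have v1 : -1 ≤ 4 * ((n : ℝ) + 1) * ((a : ℝ) / b - s) := by
      have := mul_le_mul_of_nonneg_left u1 hn.le
      have e : 4 * ((n : ℝ) + 1) * -(1 / (4 * (n + 1))) = -1 := by field_simp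
      linarith
    have v2 : 4 * ((n : ℝ) + 1) * ((a : ℝ) / b - s) ≤ 1 := by
      have := mul_le_mul_of_nonneg_left u2 hn.le
      have e : 4 * ((n : ℝ) + 1) * (1 / (4 * (n + 1))) = 1 := by field_simp
      linarith
    have w1 : 4 * ((p + 2) / 4) ≤ p + 2 := Nat.mul_div_le _ _
    have w2 : p + 2 ≤ 4 * ((p + 2) / 4) + 3 := by omega
    have w1' : 4 * (((p + 2) / 4 : ℕ) : ℝ) ≤ p + 2 := by exact_mod_cast w1
    have w2' : (p : ℝ) + 2 ≤ 4 * (((p + 2) / 4 : ℕ) : ℝ) + 3 := by exact_mod_cast w2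
    rw [abs_le]
    constructor <;> nlinarith

/-- if the invariant set `S` is c.e., its natural density is the supremum of a computable sequence of
rational numbers -/
theorem density_left_ce (S : Set ℕ) (hS : ∀ n, 0 < n → (n ∈ S ↔ col n ∈ S))
    (hc : REPred (fun n => n ∈ S)) (s : ℝ) (hs : HasDens S s) :
    ∃ q : ℕ → ℕ, Computable q ∧ IsLUB (Set.range fun k : ℕ => (q k : ℝ) / (k + 1)) s := by
  classical
  obtain ⟨g, hg, hpg, hmono⟩ := exists_stages _ hc
  set h : ℕ → Bool := fun n => decide (n ∈ S) with hh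
  obtain ⟨s', C, y1, hs', hC, hrate⟩ := wsum_rate S hS h (fun n _ => by simp [hh])
  obtain rfl := G3c_unique hs hs'
  obtain ⟨K, hK⟩ := G3c_prec hC y1
  have hs0 : 0 ≤ s := ge_of_tendsto' hs fun X => by positivity
  set a : ℕ → ℕ → ℕ := fun m t => wsum (fun n => g n t) (G3c_y K m) with ha
  set b : ℕ → ℕ := fun m => wsum (fun _ => true) (G3c_y K m) with hb
  set A : ℕ → ℕ := fun m => wsum h (G3c_y K m) with hA
  have hgh : ∀ n t, g n t = true → h n = true := fun n t ht => by
    simp only [hh, decide_eq_true_eq]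
    exact (hpg n).2 ⟨t, ht⟩
  have haA : ∀ m t, a m t ≤ A m := fun m t => wsum_mono _ _ (fun n => hgh n t) _
  have hat : ∀ m t t', t ≤ t' → a m t ≤ a m t' := fun m t t' htt =>
    wsum_mono _ _ (fun n => hmono n t t' htt) _
  have hex : ∀ m, ∃ t, a m t = A m := fun m => by
    refine wsum_stage g h (fun n => ?_) hmono _
    simp only [hh, decide_eq_true_eq]
    exact hpg n
  have hrm : ∀ m, |(A m : ℝ) / b m - s| ≤ 1 / (4 * (m + 1)) := fun m =>
    (hrate _ (hK m).1).trans (hK m).2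
  refine ⟨fun k => (k + 1) * a k.unpair.1 k.unpair.2 / b k.unpair.1 -
    ((k + 1) / (k.unpair.1 + 1) + 1), ?_, ?_, ?_⟩
  · have hy : Computable (G3c_y K) := (G3c_y_primrec K).to_comp
    have hu1 : Computable (fun k : ℕ => k.unpair.1) := Computable.fst.comp Computable.unpair
    have hu2 : Computable (fun k : ℕ => k.unpair.2) := Computable.snd.comp Computable.unpair
    have h1 : Computable (fun k : ℕ => a k.unpair.1 k.unpair.2) :=
      (wsum_computable g hg).comp hu2 (hy.comp hu1)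
    have h2 : Computable (fun k : ℕ => b k.unpair.1) :=
      (wsum_computable (fun _ _ => true) (Computable.const true).to₂).comp
        (Computable.const 0) (hy.comp hu1)
    have h3 : Computable (fun k : ℕ => k + 1) := Computable.succ
    have h4 := Primrec.nat_div.to_comp.comp (Primrec.nat_mul.to_comp.comp h3 h1) h2
    have h5 := Primrec.nat_div.to_comp.comp h3 (Computable.succ.comp hu1)
    exact Primrec.nat_sub.to_comp.comp h4 (Computable.succ.comp h5)
  · rintro _ ⟨k, rfl⟩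
    dsimp only
    set m := k.unpair.1
    set t := k.unpair.2
    have hk : (0 : ℝ) < (k : ℝ) + 1 := by positivity
    rw [div_le_iff₀ hk]
    rcases Nat.le_total ((k + 1) * a m t / b m) ((k + 1) / (m + 1) + 1) with hle | hle
    · rw [Nat.sub_eq_zero_of_le hle]
      simp only [Nat.cast_zero]
      positivity
    · rw [Nat.cast_sub hle]
      obtain ⟨f1, _⟩ := G3c_floor (k + 1) (a m t) (b m)
      have f3 : ((k : ℝ) + 1) / (m + 1) ≤ (((k + 1) / (m + 1) + 1 : ℕ) : ℝ) := by
        have h := Nat.lt_floor_add_one (((k + 1 : ℕ) : ℝ) / ((m + 1 : ℕ) : ℝ))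
        rw [Nat.floor_div_eq_div] at h
        push_cast at h ⊢
        exact h.le
      have f4 : (a m t : ℝ) / b m ≤ (A m : ℝ) / b m := by
        have : (a m t : ℝ) ≤ A m := by exact_mod_cast haA m t
        gcongr
      have f5 := (abs_le.1 (hrm m)).2
      have hm : (0 : ℝ) < (m : ℝ) + 1 := by positivity
      have f6 : 1 / (4 * ((m : ℝ) + 1)) ≤ 1 / (m + 1) := by
        apply one_div_le_one_div_of_le hm
        linarith
      push_cast at f1
      have f7 : ((k : ℝ) + 1) * ((a m t : ℝ) / b m) ≤ ((k : ℝ) + 1) * (s + 1 / (m + 1)) := by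
        gcongr
        linarith
      have f8 : ((k : ℝ) + 1) * (s + 1 / (m + 1)) = s * (k + 1) + (k + 1) / (m + 1) := by ring
      linarith
  · intro u hu
    refine le_of_forall_pos_le_add fun ε hε => ?_
    obtain ⟨m, hm⟩ := exists_nat_gt (4 / ε)
    obtain ⟨t0, ht0⟩ := hex m
    set t := max t0 m with ht
    set k := Nat.pair m t with hk
    have hkt : t ≤ k := Nat.right_le_pair m t
    have hkm : m ≤ k := le_trans (le_max_right _ _) hkt
    have hat' : a m t = A m :=
      le_antisymm (haA m t) (ht0 ▸ hat m t0 t (le_max_left _ _))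
    have hu1 := hu ⟨k, rfl⟩
    dsimp only at hu1
    rw [hk, Nat.unpair_pair, ← hk] at hu1
    dsimp only at hu1
    rw [hat'] at hu1
    have hk1 : (0 : ℝ) < (k : ℝ) + 1 := by positivity
    rw [div_le_iff₀ hk1] at hu1
    obtain ⟨_, f2⟩ := G3c_floor (k + 1) (A m) (b m)
    have g1 : ((((k + 1) * A m / b m : ℕ)) : ℝ) - ((((k + 1) / (m + 1) + 1 : ℕ)) : ℝ) ≤
        (((k + 1) * A m / b m - ((k + 1) / (m + 1) + 1) : ℕ) : ℝ) := by
      have := Nat.le_sub_of_add_le' (le_refl ((k + 1) / (m + 1) + 1 +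
        ((k + 1) * A m / b m - ((k + 1) / (m + 1) + 1))))
      have h' : (k + 1) * A m / b m ≤ ((k + 1) / (m + 1) + 1) +
        ((k + 1) * A m / b m - ((k + 1) / (m + 1) + 1)) := by omega
      have h'' : ((((k + 1) * A m / b m : ℕ)) : ℝ) ≤ ((((k + 1) / (m + 1) + 1 : ℕ)) : ℝ) +
        (((k + 1) * A m / b m - ((k + 1) / (m + 1) + 1) : ℕ) : ℝ) := by exact_mod_cast h'
      linarith
    have g2 : ((((k + 1) / (m + 1) + 1 : ℕ)) : ℝ) ≤ ((k : ℝ) + 1) / (m + 1) + 1 := by
      have : (((k + 1) / (m + 1) : ℕ) : ℝ) ≤ ((k + 1 : ℕ) : ℝ) / ((m + 1 : ℕ) : ℝ) :=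
        Nat.cast_div_le
      push_cast at this ⊢
      linarith
    push_cast at f2
    have f5 := (abs_le.1 (hrm m)).1
    have hm1 : (0 : ℝ) < (m : ℝ) + 1 := by positivity
    have f6 : 1 / (4 * ((m : ℝ) + 1)) ≤ 1 / (m + 1) := by
      apply one_div_le_one_div_of_le hm1
      linarith
    have f7 : ((k : ℝ) + 1) * (s - 1 / (m + 1)) ≤ ((k : ℝ) + 1) * ((A m : ℝ) / b m) := by
      gcongr
      linarith
    -- now everything together
    have hmk : (m : ℝ) + 1 ≤ (k : ℝ) + 1 := by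
      have : (m : ℝ) ≤ k := by exact_mod_cast hkm
      linarith
    have g3 : s * ((k : ℝ) + 1) - 2 * (((k : ℝ) + 1) / (m + 1)) - 2 ≤ u * (k + 1) := by
      have e : ((k : ℝ) + 1) * (s - 1 / (m + 1)) = s * (k + 1) - (k + 1) / (m + 1) := by ring
      linarith
    have g4 : (2 : ℝ) ≤ 2 * (((k : ℝ) + 1) / (m + 1)) := by
      have : 1 ≤ ((k : ℝ) + 1) / (m + 1) := by
        rw [le_div_iff₀ hm1]
        linarith
      linarith
    have g5 : 4 * (((k : ℝ) + 1) / (m + 1)) ≤ ε * (k + 1) := by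
      have h4 : 4 / ε < (m : ℝ) + 1 := by linarith
      rw [div_lt_iff₀ hε] at h4
      have : 4 / ((m : ℝ) + 1) ≤ ε := by
        rw [div_le_iff₀ hm1]
        linarith
      calc 4 * (((k : ℝ) + 1) / (m + 1)) = 4 / ((m : ℝ) + 1) * (k + 1) := by ring
        _ ≤ ε * (k + 1) := by gcongr
    have g6 : s * ((k : ℝ) + 1) ≤ (u + ε) * (k + 1) := by nlinarith
    exact le_of_mul_le_mul_right g6 hk1

end Pool.Agent.W_e21d3a_h93
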