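import Pool.Agent.W_e21d3a_h93.Defs

set_option autoImplicit false

/-!
# [NC] B1a: valuations, lists of valuations (row 497, S0)
-/

namespace Pool.Agent.W_e21d3a_h93

theorem pow_vv_mul (N : ℕ) : 2 ^ vv N * syr N = 3 * N + 1 := by
  unfold syr vv
  exact Nat.mul_div_cancel' pow_padicValNat_dvd

theorem syr_odd (N : ℕ) : syr N % 2 = 1 := by
  have h : ¬ 2 ∣ syr N := by
    intro h
    obtain ⟨k, hk⟩ := h
    have h1 := pow_vv_mul N
    rw [hk] at h1
    have h2 : 2 ^ (vv N + 1) ∣ 3 * N + 1 := ⟨k, by rw [← h1]; ring⟩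
    have h3 : vv N + 1 ≤ padicValNat 2 (3 * N + 1) :=
      (padicValNat_dvd_iff_le (by omega)).mp h2
    unfold vv at h3
    omega
  omega

theorem vv_pos {N : ℕ} (h : N % 2 = 1) : 1 ≤ vv N := by
  by_contra hc
  have h0 : vv N = 0 := by omega
  have h1 := pow_vv_mul N
  rw [h0] at h1
  have h2 := syr_odd N
  omega

/-- uniqueness of the decomposition -/
theorem vv_syr_of_eq {N a M : ℕ} (hM : M % 2 = 1) (h : 3 * N + 1 = 2 ^ a * M) :
    vv N = a ∧ syr N = M := by
  have hv : vv N = a := by
    unfold vv
    rw [h, padicValNat.mul (by positivity) (by omega), padicValNat.prime_pow,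
      padicValNat.eq_zero_of_not_dvd (by omega)]
    omega
  refine ⟨hv, ?_⟩
  unfold syr
  rw [hv, h]
  exact Nat.mul_div_cancel_left M (by positivity)

theorem iter_odd {N : ℕ} (h : N % 2 = 1) (n : ℕ) : syr^[n] N % 2 = 1 := by
  cases n with
  | zero => simpa using h
  | succ n =>
    rw [Function.iterate_succ_apply']
    exact syr_odd _

theorem vals_length (n N : ℕ) : (vals n N).length = n := by
  induction n with
  | zero => rfl
  | succ n ih => simp [vals, ih]

theorem vals_pos {N : ℕ} (h : N % 2 = 1) (n : ℕ) : ∀ a ∈ vals n N, 1 ≤ a := by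
  induction n with
  | zero => simp [vals]
  | succ n ih =>
    intro a ha
    simp only [vals, List.mem_cons] at ha
    rcases ha with rfl | ha
    · exact vv_pos (iter_odd h n)
    · exact ih a ha

theorem ss_zero (N : ℕ) : ss 0 N = 0 := rfl

theorem ss_succ (n N : ℕ) : ss (n + 1) N = vv (syr^[n] N) + ss n N := by
  simp [ss, vals]

theorem ss_mono {i j : ℕ} (h : i ≤ j) (N : ℕ) : ss i N ≤ ss j N := by
  induction j, h using Nat.le_induction with
  | base => exact le_rfl
  | succ j _ ih => rw [ss_succ]; omega

/-- `i` valuations of `N`, then `j` valuations of `syr^i N` -/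
theorem vals_add (i j N : ℕ) : vals (i + j) N = vals j (syr^[i] N) ++ vals i N := by
  induction j with
  | zero => simp [vals]
  | succ j ih =>
    rw [← Nat.add_assoc]
    simp only [vals, ih, List.cons_append]
    rw [← Function.iterate_add_apply, Nat.add_comm j i]

theorem take_vals {j n : ℕ} (h : j ≤ n) (N : ℕ) : (vals n N).take j = vals j (syr^[n - j] N) := by
  have e : n = (n - j) + j := by omega
  conv_lhs => rw [e, vals_add]
  rw [List.take_append_of_le_length (by rw [vals_length])]
  rw [List.take_of_length_le (by rw [vals_length])]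

/-- `s_n(N) = s_{n-j}(N) + (sum of the first j entries of vals n N)` -/
theorem ss_eq_add_take {j n : ℕ} (h : j ≤ n) (N : ℕ) :
    ss n N = ss (n - j) N + ((vals n N).take j).sum := by
  rw [take_vals h]
  have e : n = (n - j) + j := by omega
  conv_lhs => rw [e]
  unfold ss
  rw [vals_add, List.sum_append, Nat.add_comm]

end Pool.Agent.W_e21d3a_h93
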