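import Pool.Agent.W_e21d3a_h93.Defs

set_option autoImplicit false

/-!
# [NC] B1b: the offset cc and the real number XX (row 497, S0, (0.1), (3.2))
-/

namespace Pool.Agent.W_e21d3a_h93

theorem cc_append (β γ : List ℕ) :
    cc (β ++ γ) = 2 ^ γ.sum * cc β + 3 ^ β.length * cc γ := by
  induction β with
  | nil => simp [cc]
  | cons a β ih =>
    simp only [List.cons_append, cc, List.sum_append, List.length_cons]
    rw [ih]
    ring

/-- adding the last entry -/
theorem cc_concat (β : List ℕ) (a : ℕ) : cc (β ++ [a]) = 2 ^ a * cc β + 3 ^ β.length := by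
  rw [cc_append]
  simp [cc]

/-- `cc` of a nonempty list with entries `≥ 1` is odd -/
theorem cc_odd {l : List ℕ} (h : l ≠ []) (hpos : ∀ a ∈ l, 1 ≤ a) : cc l % 2 = 1 := by
  induction l with
  | nil => exact absurd rfl h
  | cons a l ih =>
    cases l with
    | nil => simp [cc]
    | cons b l' =>
      have h1 : cc (b :: l') % 2 = 1 := ih (by simp) fun x hx => hpos x (List.mem_cons_of_mem _ hx)
      have hb : 1 ≤ b := hpos b (by simp)
      have h2 : (b :: l').sum = ((b :: l').sum - 1) + 1 := by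
        rw [List.sum_cons]; omega
      have h3 : cc (a :: b :: l') = 2 ^ (b :: l').sum + 3 * cc (b :: l') := rfl
      rw [h3, h2, pow_succ]
      omega

theorem cc_eq_XX (l : List ℕ) : (cc l : ℝ) = 2 ^ l.sum * XX l := by
  induction l with
  | nil => simp [cc, XX]
  | cons a l ih =>
    simp only [cc, XX, List.sum_cons]
    push_cast
    rw [ih, pow_add]
    field_simp

theorem XX_nonneg (l : List ℕ) : 0 ≤ XX l := by
  induction l with
  | nil => exact le_rfl
  | cons a l ih =>
    simp only [XX]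
    positivity

theorem XX_append (β γ : List ℕ) :
    XX (β ++ γ) = XX β + 3 ^ β.length / 2 ^ β.sum * XX γ := by
  induction β with
  | nil => simp [XX]
  | cons a β ih =>
    simp only [List.cons_append, XX, List.sum_cons, List.length_cons]
    rw [ih, pow_add, pow_succ]
    field_simp
    ring

/-- `X` of the first `k` entries is at most `X` -/
theorem XX_take_le (l : List ℕ) (k : ℕ) : XX (l.take k) ≤ XX l := by
  conv_rhs => rw [← List.take_append_drop k l]
  rw [XX_append]
  have := XX_nonneg (l.drop k)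
  have h2 : 0 ≤ (3 : ℝ) ^ (l.take k).length / 2 ^ (l.take k).sum * XX (l.drop k) := by positivity
  linarith

theorem XX_take_le_geom {T : ℕ} {l : List ℕ} (h : PreOK T l) (k : ℕ) (hk : k ≤ l.length) :
    XX (l.take k) ≤ 4 ^ T * (1 - (3 / 4) ^ k) := by
  induction k with
  | zero => simp [XX]
  | succ k ih =>
    have ih' := ih (by omega)
    have hk' : k < l.length := hk
    have e1 : l.take (k + 1) = l.take k ++ [l[k]] := (List.take_concat_get' l k hk').symm
    have h1 := (h (k + 1) hk).2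
    have e2 : (l.take (k + 1)).sum = (l.take k).sum + l[k] := by
      rw [e1, List.sum_append, List.sum_singleton]
    rw [e1, XX_append]
    have e3 : (3 : ℝ) ^ (l.take k).length / 2 ^ (l.take k).sum * XX [l[k]] =
        3 ^ k / 2 ^ (l.take (k + 1)).sum := by
      rw [e2, pow_add, List.length_take, min_eq_left hk'.le]
      simp only [XX, mul_zero, add_zero]
      field_simp
    rw [e3]
    have h2 : (2 : ℝ) ^ (2 * (k + 1)) ≤ 2 ^ ((l.take (k + 1)).sum + 2 * T) :=
      pow_le_pow_right₀ (by norm_num) h1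
    have h3 : (3 : ℝ) ^ k / 2 ^ (l.take (k + 1)).sum ≤ 4 ^ T * ((3 / 4) ^ k / 4) := by
      rw [div_le_iff₀ (by positivity)]
      have ea : (2 : ℝ) ^ (2 * (k + 1)) = 4 ^ (k + 1) := by rw [pow_mul]; norm_num
      have eb : (2 : ℝ) ^ ((l.take (k + 1)).sum + 2 * T) = 2 ^ (l.take (k + 1)).sum * 4 ^ T := by
        rw [pow_add, pow_mul]; norm_num
      rw [ea, eb] at h2
      have h4 : (3 / 4 : ℝ) ^ k = 3 ^ k / 4 ^ k := by rw [div_pow]
      rw [h4]
      have h5 : (4 : ℝ) ^ (k + 1) = 4 ^ k * 4 := pow_succ _ _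
      rw [h5] at h2
      have h6 : (4 : ℝ) ^ T * (3 ^ k / 4 ^ k / 4) * 2 ^ (l.take (k + 1)).sum =
          3 ^ k * ((2 ^ (l.take (k + 1)).sum * 4 ^ T) / (4 ^ k * 4)) := by
        field_simp
      rw [h6]
      have h7 : (1 : ℝ) ≤ (2 ^ (l.take (k + 1)).sum * 4 ^ T) / (4 ^ k * 4) := by
        rw [le_div_iff₀ (by positivity)]
        linarith
      have h8 : (0 : ℝ) < 3 ^ k := by positivity
      nlinarith
    have h9 : (4 : ℝ) ^ T * (1 - (3 / 4) ^ (k + 1)) = 4 ^ T * (1 - (3 / 4) ^ k) + 4 ^ T * ((3 / 4) ^ k / 4) := by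
      rw [pow_succ]; ring
    rw [h9]
    linarith

/-- if all the partial sums satisfy `s_j + 2T ≥ 2j` then `X ≤ 4^T` (paper: sum 3^{j-1} 2^{-2j+2T}) -/
theorem XX_le_of_preOK {T : ℕ} {l : List ℕ} (h : PreOK T l) : XX l ≤ 4 ^ T := by
  have h1 := XX_take_le_geom h l.length le_rfl
  rw [List.take_length] at h1
  have h2 : (0 : ℝ) ≤ 4 ^ T * (3 / 4) ^ l.length := by positivity
  linarith

end Pool.Agent.W_e21d3a_h93
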