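import Pool.Agent.W_e21d3a_h93.B1a
import Pool.Agent.W_e21d3a_h93.B1b

set_option autoImplicit false

/-!
# [NC] B1c: the bijection (row 497, (0.2))
-/

namespace Pool.Agent.W_e21d3a_h93

theorem traj_eq {N : ℕ} (hN : N % 2 = 1) (n : ℕ) :
    2 ^ (vals n N).sum * syr^[n] N = 3 ^ n * N + cc (vals n N) := by
  induction n with
  | zero => simp [vals, cc]
  | succ n ih =>
    have h1 := pow_vv_mul (syr^[n] N)
    rw [vals, List.sum_cons, cc, Function.iterate_succ_apply']
    calc 2 ^ (vv (syr^[n] N) + (vals n N).sum) * syr (syr^[n] N)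
        = 2 ^ (vals n N).sum * (2 ^ vv (syr^[n] N) * syr (syr^[n] N)) := by rw [pow_add]; ring
      _ = 2 ^ (vals n N).sum * (3 * syr^[n] N + 1) := by rw [h1]
      _ = 3 * (2 ^ (vals n N).sum * syr^[n] N) + 2 ^ (vals n N).sum := by ring
      _ = 3 * (3 ^ n * N + cc (vals n N)) + 2 ^ (vals n N).sum := by rw [ih]
      _ = _ := by rw [pow_succ]; ring

/-- (0.2) the bijection -/
theorem traj_iff {N M n : ℕ} {l : List ℕ} (hN : N % 2 = 1) (hM : M % 2 = 1) (hl : l.length = n)
    (hpos : ∀ a ∈ l, 1 ≤ a) :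
    (syr^[n] N = M ∧ vals n N = l) ↔ 2 ^ l.sum * M = 3 ^ n * N + cc l := by
  constructor
  · rintro ⟨h1, h2⟩
    rw [← h1, ← h2]
    exact traj_eq hN n
  · induction n generalizing l M with
    | zero =>
      intro h
      have : l = [] := List.length_eq_zero_iff.mp hl
      subst this
      simp only [List.sum_nil, pow_zero, one_mul, cc, add_zero] at h
      simp [vals, h]
    | succ n ih =>
      intro h
      match l, hl, hpos, h with
      | a :: l, hl, hpos, h =>
        have hl' : l.length = n := by simpa using hl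
        have ha : 1 ≤ a := hpos a (by simp)
        have hpos' : ∀ b ∈ l, 1 ≤ b := fun b hb => hpos b (by simp [hb])
        rw [List.sum_cons, cc, pow_add, pow_succ] at h
        have hM1 : 1 ≤ M := by omega
        have h2a : 2 ≤ 2 ^ a := by
          calc 2 = 2 ^ 1 := by norm_num
            _ ≤ 2 ^ a := Nat.pow_le_pow_right (by norm_num) ha
        have hM2 : 1 ≤ 2 ^ a * M := by nlinarith
        -- `3 ∣ 2 ^ a * M - 1`
        have h3 : 2 ^ l.sum * (2 ^ a * M - 1) = 3 * (3 ^ n * N + cc l) := by
          rw [Nat.mul_sub, mul_one]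
          have : 2 ^ l.sum * (2 ^ a * M) = 2 ^ a * 2 ^ l.sum * M := by ring
          rw [this, h]
          have : 3 ^ n * 3 * N + (2 ^ l.sum + 3 * cc l) =
            3 * (3 ^ n * N + cc l) + 2 ^ l.sum := by ring
          rw [this, Nat.add_sub_cancel]
        have hdvd : 3 ∣ 2 ^ a * M - 1 := by
          have h4 : 3 ∣ 2 ^ l.sum * (2 ^ a * M - 1) := ⟨_, h3⟩
          exact (Nat.Coprime.dvd_mul_left (Nat.Coprime.pow_right _ (by norm_num))).1 h4
        obtain ⟨M', hM'⟩ := hdvd
        have h5 : 2 ^ l.sum * M' = 3 ^ n * N + cc l := by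
          rw [hM'] at h3
          have : 2 ^ l.sum * (3 * M') = 3 * (2 ^ l.sum * M') := by ring
          rw [this] at h3
          exact Nat.eq_of_mul_eq_mul_left (by norm_num) h3
        have h6 : 3 * M' + 1 = 2 ^ a * M := by omega
        have hev : 2 ^ a * M % 2 = 0 := by
          obtain ⟨a', rfl⟩ := Nat.exists_eq_add_of_le' ha
          rw [pow_succ, Nat.mul_right_comm, Nat.mul_mod_left]
        have hM'odd : M' % 2 = 1 := by omega
        obtain ⟨h7, h8⟩ := ih hM'odd hl' hpos' h5
        obtain ⟨h9, h10⟩ := vv_syr_of_eq hM h6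
        rw [vals, Function.iterate_succ_apply', h7, h8, h9, h10]
        exact ⟨rfl, rfl⟩

/-- the part of the trajectory `j` steps before the end -/
theorem traj_take {N n j : ℕ} (hN : N % 2 = 1) (h : j ≤ n) :
    2 ^ ((vals n N).take j).sum * syr^[n] N =
      3 ^ j * syr^[n - j] N + cc ((vals n N).take j) := by
  rw [take_vals h]
  have h1 := traj_eq (iter_odd hN (n - j)) j
  rw [← Function.iterate_add_apply, show j + (n - j) = n by omega] at h1
  exact h1

end Pool.Agent.W_e21d3a_h93
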