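import Pool.Agent.W_e21d3a_h93.B1c

set_option autoImplicit false

/-!
# [NC] B2: sizes along a trajectory and Collatz steps (proofs row 497, (0.3), (0.4))
-/

namespace Pool.Agent.W_e21d3a_h93

/-- (0.3) if `syr^i N ≥ X₀ > 0` for `i < n` then
`0 ≤ log N_n - log N - n log 3 + s_n log 2 ≤ n/(3 X₀)`.
Proof: `log (3N_i+1) = log 3 + log N_i + log (1 + 1/(3N_i))`, induction on `n`. -/
theorem log_iter {N n : ℕ} {X0 : ℝ} (hN : N % 2 = 1) (hX : 0 < X0)
    (h : ∀ i < n, X0 ≤ (syr^[i] N : ℕ)) :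
    0 ≤ Real.log (syr^[n] N : ℕ) - Real.log N - n * Real.log 3 + ss n N * Real.log 2 ∧
    Real.log (syr^[n] N : ℕ) - Real.log N - n * Real.log 3 + ss n N * Real.log 2
      ≤ n / (3 * X0) := by
  induction n with
  | zero =>
    rw [ss_zero]
    simp
  | succ n ih =>
    obtain ⟨ih1, ih2⟩ := ih (fun i hi => h i (by omega))
    rw [ss_succ, Function.iterate_succ_apply']
    have hodd := iter_odd hN n
    have hXn := h n (by omega)
    set a := syr^[n] N with ha
    have ha1 : 1 ≤ a := by omega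
    have haR : (1 : ℝ) ≤ (a : ℝ) := by exact_mod_cast ha1
    have hb1 : 1 ≤ syr a := by
      have := syr_odd a
      omega
    have hbR : (1 : ℝ) ≤ (syr a : ℝ) := by exact_mod_cast hb1
    have h1 : (2 : ℝ) ^ vv a * (syr a : ℝ) = 3 * (a : ℝ) + 1 := by
      exact_mod_cast pow_vv_mul a
    have h2 : (vv a : ℝ) * Real.log 2 + Real.log (syr a : ℝ) = Real.log (3 * (a : ℝ) + 1) := by
      rw [← h1, Real.log_mul (by positivity) (by positivity), Real.log_pow]
    have h3 : Real.log (3 * (a : ℝ)) = Real.log 3 + Real.log (a : ℝ) :=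
      Real.log_mul (by norm_num) (by positivity)
    have h4 : Real.log (3 * (a : ℝ)) ≤ Real.log (3 * (a : ℝ) + 1) :=
      Real.log_le_log (by positivity) (by linarith)
    have h5 : Real.log (3 * (a : ℝ) + 1) - Real.log (3 * (a : ℝ)) ≤ 1 / (3 * X0) := by
      rw [← Real.log_div (by positivity) (by positivity)]
      refine (Real.log_le_sub_one_of_pos (by positivity)).trans ?_
      have h6 : (3 * (a : ℝ) + 1) / (3 * (a : ℝ)) - 1 = 1 / (3 * (a : ℝ)) := by
        field_simp
        ring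
      rw [h6]
      exact one_div_le_one_div_of_le (by positivity) (by linarith)
    have h7 : ((n + 1 : ℕ) : ℝ) / (3 * X0) = n / (3 * X0) + 1 / (3 * X0) := by
      push_cast
      ring
    rw [h7]
    push_cast
    constructor
    · linarith
    · linarith

private theorem b2_pow {i j N : ℕ} (h : i ≤ j) : col^[i] (2 ^ j * N) = 2 ^ (j - i) * N := by
  induction i with
  | zero => simp
  | succ i ih =>
    rw [Function.iterate_succ_apply', ih (by omega)]
    obtain ⟨k, hk⟩ : ∃ k, j - i = k + 1 := ⟨j - i - 1, by omega⟩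
    rw [hk, show j - (i + 1) = k by omega, pow_succ, col]
    have h1 : 2 ^ k * 2 * N = 2 * (2 ^ k * N) := by ring
    rw [h1, if_pos (Nat.mul_mod_right 2 _), Nat.mul_div_cancel_left _ (by norm_num)]

private theorem b2_odd {a : ℕ} (h : a % 2 = 1) : col a = 2 ^ vv a * syr a := by
  rw [pow_vv_mul, col, if_neg (by omega)]

private theorem b2_step {a i : ℕ} (h : a % 2 = 1) (hi : i ≤ vv a) :
    col^[i + 1] a = 2 ^ (vv a - i) * syr a := by
  rw [Function.iterate_succ_apply, b2_odd h, b2_pow hi]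

/-- `n` Syracuse steps are `n + s_n(N)` Collatz steps -/
theorem col_iter_eq {N : ℕ} (hN : N % 2 = 1) (n : ℕ) : col^[n + ss n N] N = syr^[n] N := by
  induction n with
  | zero => rw [ss_zero]; rfl
  | succ n ih =>
    rw [ss_succ, show n + 1 + (vv (syr^[n] N) + ss n N) = (vv (syr^[n] N) + 1) + (n + ss n N) by
      ring, Function.iterate_add_apply, ih, b2_step (iter_odd hN n) le_rfl, Nat.sub_self, pow_zero,
      one_mul, Function.iterate_succ_apply']

/-- (0.4) between two Syracuse iterates the Collatz iterates are at least the next Syracuse iterate -/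
theorem col_between {N : ℕ} (hN : N % 2 = 1) {n j : ℕ} (h1 : n + ss n N < j)
    (h2 : j ≤ (n + 1) + ss (n + 1) N) : syr^[n + 1] N ≤ col^[j] N := by
  rw [ss_succ] at h2
  obtain ⟨i, hi⟩ : ∃ i, j = (i + 1) + (n + ss n N) := ⟨j - 1 - (n + ss n N), by omega⟩
  rw [hi, Function.iterate_add_apply col, col_iter_eq hN, b2_step (iter_odd hN n) (by omega),
    Function.iterate_succ_apply']
  exact Nat.le_mul_of_pos_left _ (by positivity)

/-- every Collatz iterate before time `n + s_n(N)` is at least some `syr^i N`, `i ≤ n` -/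
theorem col_ge {N : ℕ} (hN : N % 2 = 1) {n j : ℕ} (h : j ≤ n + ss n N) :
    ∃ i ≤ n, syr^[i] N ≤ col^[j] N := by
  induction n with
  | zero =>
    rw [ss_zero] at h
    have hj : j = 0 := by omega
    subst hj
    exact ⟨0, le_rfl, le_rfl⟩
  | succ n ih =>
    by_cases hj : j ≤ n + ss n N
    · obtain ⟨i, hi, h'⟩ := ih hj
      exact ⟨i, by omega, h'⟩
    · exact ⟨n + 1, le_rfl, col_between hN (by omega) h⟩

/-- halving steps -/
theorem col_pow_two_mul (j N : ℕ) (hN : 0 < N) : col^[j] (2 ^ j * N) = N := by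
  rw [b2_pow le_rfl, Nat.sub_self, pow_zero, one_mul]

private theorem b2_col_pos {m : ℕ} (h : 0 < m) : 0 < col m := by
  unfold col
  split_ifs <;> omega

private theorem b2_inv {S : Set ℕ} (hS : ∀ n, 0 < n → (n ∈ S ↔ col n ∈ S)) {N : ℕ} (hN : 0 < N)
    (k : ℕ) : 0 < col^[k] N ∧ (N ∈ S ↔ col^[k] N ∈ S) := by
  induction k with
  | zero => exact ⟨hN, Iff.rfl⟩
  | succ k ih =>
    obtain ⟨h1, h2⟩ := ih
    rw [Function.iterate_succ_apply']
    exact ⟨b2_col_pos h1, h2.trans (hS _ h1)⟩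

/-- invariance of a set along Collatz steps gives invariance along Syracuse steps -/
theorem inv_syr {S : Set ℕ} (hS : ∀ n, 0 < n → (n ∈ S ↔ col n ∈ S)) {N : ℕ} (hN : N % 2 = 1)
    (n : ℕ) : N ∈ S ↔ syr^[n] N ∈ S := by
  rw [← col_iter_eq hN]
  exact (b2_inv hS (by omega) _).2

theorem inv_two_pow {S : Set ℕ} (hS : ∀ n, 0 < n → (n ∈ S ↔ col n ∈ S)) {N : ℕ} (hN : 0 < N)
    (j : ℕ) : 2 ^ j * N ∈ S ↔ N ∈ S := by
  have h := (b2_inv hS (N := 2 ^ j * N) (by positivity) j).2
  rwa [col_pow_two_mul j N hN] at h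

end Pool.Agent.W_e21d3a_h93
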