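import Pool.Agent.W_e21d3a_h93.P1

set_option autoImplicit false

/-!
# [NC] M1a: the functions phi (row 499)
-/

namespace Pool.Agent.W_e21d3a_h93

theorem phi_nonneg (m n t : ℕ) (Y : ℤ) : 0 ≤ phi m n t Y := by
  unfold phi
  positivity

theorem phi_periodic (m n t : ℕ) (Y z : ℤ) : phi m n t (Y + 3 ^ m * z) = phi m n t Y := by
  unfold phi
  congr 2
  congr 1
  ext l
  simp only [Finset.mem_filter, and_congr_right_iff]
  intro _
  have h : (2 : ℤ) ^ t * (Y + 3 ^ m * z) - (cc l : ℤ)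
      = (2 ^ t * Y - (cc l : ℤ)) + 3 ^ m * (2 ^ t * z) := by ring
  rw [h]
  exact (Int.dvd_add_left (Dvd.intro _ rfl))

theorem M1a_unique (m t : ℕ) (c : ℤ) :
    ((Finset.range (3 ^ m)).filter (fun Y : ℕ => (3 : ℤ) ^ m ∣ 2 ^ t * (Y : ℤ) - c)).card = 1 := by
  have hcop : IsCoprime ((2 : ℤ) ^ t) ((3 : ℤ) ^ m) := by
    apply IsCoprime.pow
    exact ⟨-1, 1, by norm_num⟩
  obtain ⟨k, j, hk⟩ := hcop
  have hpos : (0 : ℤ) < 3 ^ m := by positivity
  rw [Finset.card_eq_one]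
  refine ⟨((k * c) % 3 ^ m).toNat, ?_⟩
  have h0 : 0 ≤ (k * c) % 3 ^ m := Int.emod_nonneg _ (ne_of_gt hpos)
  have h1 : (k * c) % 3 ^ m < 3 ^ m := Int.emod_lt_of_pos _ hpos
  have hY0 : (3 : ℤ) ^ m ∣ 2 ^ t * ((k * c) % 3 ^ m) - c := by
    have e : (k * c) % 3 ^ m = k * c - 3 ^ m * ((k * c) / 3 ^ m) := by
      have := Int.emod_add_mul_ediv (k * c) (3 ^ m)
      linarith
    rw [e]
    have : (2 : ℤ) ^ t * (k * c - 3 ^ m * ((k * c) / 3 ^ m)) - c
        = 3 ^ m * (-(2 ^ t * ((k * c) / 3 ^ m)) - j * c) + (k * 2 ^ t + j * 3 ^ m - 1) * c := by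
      ring
    rw [this, hk]
    exact ⟨-(2 ^ t * ((k * c) / 3 ^ m)) - j * c, by ring⟩
  ext Y
  simp only [Finset.mem_filter, Finset.mem_range, Finset.mem_singleton]
  constructor
  · rintro ⟨hY, hd⟩
    have hd2 : (3 : ℤ) ^ m ∣ 2 ^ t * ((Y : ℤ) - (k * c) % 3 ^ m) := by
      have := dvd_sub hd hY0
      have e : (2 : ℤ) ^ t * (Y : ℤ) - c - (2 ^ t * ((k * c) % 3 ^ m) - c)
          = 2 ^ t * ((Y : ℤ) - (k * c) % 3 ^ m) := by ring
      rwa [e] at this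
    have hd3 : (3 : ℤ) ^ m ∣ ((Y : ℤ) - (k * c) % 3 ^ m) := by
      have hc : IsCoprime ((3 : ℤ) ^ m) ((2 : ℤ) ^ t) := ⟨j, k, by linarith⟩
      exact hc.dvd_of_dvd_mul_left hd2
    have hYl : (Y : ℤ) < 3 ^ m := by exact_mod_cast hY
    have hz : (Y : ℤ) - (k * c) % 3 ^ m = 0 := by
      apply Int.eq_zero_of_abs_lt_dvd hd3
      rw [abs_lt]
      constructor <;> [have : (0:ℤ) ≤ (Y : ℤ) := Int.natCast_nonneg Y; skip] <;> linarith
    omega
  · rintro rfl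
    constructor
    · zify
      rw [Int.toNat_of_nonneg h0]
      exact_mod_cast h1
    · rw [Int.toNat_of_nonneg h0]
      exact hY0

/-- every list has exactly one residue -/
theorem sum_phi (m n t : ℕ) : ∑ Y ∈ Finset.range (3 ^ m), phi m n t Y = pw n t := by
  classical
  unfold phi pw
  rw [← Finset.sum_div]
  congr 1
  have h : ∀ Y : ℕ, ((((comps n t).filter
      (fun l => (3 : ℤ) ^ m ∣ 2 ^ t * (Y : ℤ) - (cc l : ℤ))).card : ℕ) : ℝ)
      = ∑ l ∈ comps n t, if (3 : ℤ) ^ m ∣ 2 ^ t * (Y : ℤ) - (cc l : ℤ) then (1 : ℝ) else 0 := by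
    intro Y
    rw [Finset.sum_boole]
  have h2 : ∑ Y ∈ Finset.range (3 ^ m), ((((comps n t).filter
      (fun l => (3 : ℤ) ^ m ∣ 2 ^ t * ((Y : ℕ) : ℤ) - (cc l : ℤ))).card : ℕ) : ℝ)
      = ∑ l ∈ comps n t, (1 : ℝ) := by
    rw [Finset.sum_congr rfl (fun Y _ => h Y), Finset.sum_comm]
    apply Finset.sum_congr rfl
    intro l _
    rw [Finset.sum_boole, M1a_unique m t (cc l : ℤ)]
    norm_num
  rw [Finset.sum_const, nsmul_eq_mul, mul_one] at h2
  rw [← h2]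

/-- summing a periodic function over a longer range -/
theorem sum_range_periodic (f : ℤ → ℝ) {j n : ℕ} (h : j ≤ n)
    (hf : ∀ Y z : ℤ, f (Y + 3 ^ j * z) = f Y) :
    ∑ Y ∈ Finset.range (3 ^ n), f Y = 3 ^ (n - j) * ∑ Y ∈ Finset.range (3 ^ j), f Y := by
  have key : ∀ q : ℕ, ∑ Y ∈ Finset.range (3 ^ j * q), f Y
      = q * ∑ Y ∈ Finset.range (3 ^ j), f Y := by
    intro q
    induction q with
    | zero => simp
    | succ q ih =>
      rw [Nat.mul_succ, Finset.sum_range_add, ih]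
      have : ∑ x ∈ Finset.range (3 ^ j), f (((3 ^ j * q + x : ℕ)) : ℤ)
          = ∑ Y ∈ Finset.range (3 ^ j), f Y := by
        apply Finset.sum_congr rfl
        intro x _
        have e : (((3 ^ j * q + x : ℕ)) : ℤ) = (x : ℤ) + 3 ^ j * (q : ℤ) := by
          push_cast; ring
        rw [e, hf]
      rw [this]
      push_cast
      ring
  have hn : 3 ^ n = 3 ^ j * 3 ^ (n - j) := by
    rw [← pow_add]; congr 1; omega
  rw [hn, key]
  push_cast
  ring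

end Pool.Agent.W_e21d3a_h93
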