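import Pool.Agent.W_e21d3a_h93.Defs

set_option autoImplicit false

/-!
# [NC] Q1a: numerical facts about the parameters (row 497, S3)
-/

namespace Pool.Agent.W_e21d3a_h93

theorem lx_tendsto : Filter.Tendsto lx Filter.atTop Filter.atTop :=
  Real.tendsto_log_atTop.comp tendsto_natCast_atTop_atTop

private theorem Q1a_rpow : ∀ᶠ l : ℝ in Filter.atTop,
    l ^ ((3 : ℝ) / 5) ≤ (1 / 1000000000) * l := by
  have h := (tendsto_rpow_atTop (show (0 : ℝ) < 2 / 5 by norm_num)).eventually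
    (Filter.eventually_ge_atTop 1000000000)
  filter_upwards [h, Filter.eventually_gt_atTop 0] with l h1 h2
  have h3 : l = l ^ ((3 : ℝ) / 5) * l ^ ((2 : ℝ) / 5) := by
    rw [← Real.rpow_add h2]
    norm_num
  have h4 : l ^ ((3 : ℝ) / 5) * 1000000000 ≤ l ^ ((3 : ℝ) / 5) * l ^ ((2 : ℝ) / 5) :=
    mul_le_mul_of_nonneg_left h1 (Real.rpow_nonneg h2.le _)
  rw [← h3] at h4
  linarith

/-- basic size relations, all for large `x` (`l = log x`) -/
theorem params : ∃ x0 : ℕ, ∀ x ≥ x0,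
    (1000 : ℝ) ≤ lx x ∧
    (lx x) ^ ((3 : ℝ) / 5) ≤ TT x ∧ (TT x : ℝ) ≤ (lx x) ^ ((3 : ℝ) / 5) + 1 ∧
    (1000 * TT x : ℝ) ≤ lx x / 100000 ∧ 1 ≤ TT x ∧
    (mm x : ℝ) ≤ lx x / 40 ∧ lx x / 40 - 1 ≤ mm x ∧
    (n1 x : ℝ) ≤ lx x / 5 ∧ lx x / 5 - 1 ≤ n1 x ∧
    5 * mm x ≤ n1 x ∧ 100 * TT x ≤ mm x := by
  have h := lx_tendsto.eventually (Q1a_rpow.and (Filter.eventually_ge_atTop 10000000000))
  obtain ⟨x0, hx0⟩ := Filter.eventually_atTop.1 h
  refine ⟨x0, fun x hx => ?_⟩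
  obtain ⟨h1, h2⟩ := hx0 x hx
  set l := lx x with hl
  have hl0 : (0 : ℝ) < l := by linarith
  have a2 : l ^ ((3 : ℝ) / 5) ≤ TT x := Nat.le_ceil _
  have a3 : (TT x : ℝ) ≤ l ^ ((3 : ℝ) / 5) + 1 :=
    (Nat.ceil_lt_add_one (Real.rpow_nonneg hl0.le _)).le
  have a4 : (1000 * TT x : ℝ) ≤ l / 100000 := by linarith
  have a5 : 1 ≤ TT x := by
    have h3 : (0 : ℝ) < TT x := (Real.rpow_pos_of_pos hl0 _).trans_le a2
    have h4 : 0 < TT x := by exact_mod_cast h3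
    omega
  have a6 : (mm x : ℝ) ≤ l / 40 := Nat.floor_le (by positivity)
  have a7 : l / 40 - 1 ≤ mm x := (Nat.sub_one_lt_floor _).le
  have a8 : (n1 x : ℝ) ≤ l / 5 := Nat.floor_le (by positivity)
  have a9 : l / 5 - 1 ≤ n1 x := (Nat.sub_one_lt_floor _).le
  have a10 : 5 * mm x ≤ n1 x := by
    have h3 : (5 : ℝ) * mm x ≤ n1 x := by linarith
    exact_mod_cast h3
  have a11 : 100 * TT x ≤ mm x := by
    have h3 : (100 : ℝ) * TT x ≤ mm x := by linarith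
    exact_mod_cast h3
  exact ⟨by linarith, a2, a3, a4, a5, a6, a7, a8, a9, a10, a11⟩

private theorem Q1a_Lam_lower : (1 : ℝ) / 4 ≤ Lam := by
  unfold Lam
  have h := Real.one_sub_inv_le_log_of_pos (show (0 : ℝ) < 4 / 3 by norm_num)
  norm_num at h
  linarith

private theorem Q1a_Lam_upper : Lam ≤ 1 / 3 := by
  unfold Lam
  have h := Real.log_le_sub_one_of_pos (show (0 : ℝ) < 4 / 3 by norm_num)
  linarith

/-- `3^{n₁} ≤ x₋/2`, `4^T ≤ x^{1/4}`, `4^T (1+x) < x₋`, `x₋ ≤ x^{21/20}` -/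
theorem sizes : ∃ x0 : ℕ, ∀ x ≥ x0,
    (3 : ℝ) ^ n1 x ≤ xm x / 2 ∧ (4 : ℝ) ^ TT x ≤ (x : ℝ) ^ ((1 : ℝ) / 4) ∧
    (x : ℝ) ≤ xm x ∧ xm x ≤ xp x ∧ xp x ≤ (x : ℝ) ^ ((51 : ℝ) / 50) ∧
    (4 : ℝ) ^ TT x * (x + 4 ^ TT x + 1) < xm x := by
  obtain ⟨x0, hx0⟩ := params
  refine ⟨max x0 1, fun x hx => ?_⟩
  obtain ⟨a1, a2, a3, a4, a5, a6, a7, a8, a9, a10, a11⟩ := hx0 x ((le_max_left _ _).trans hx)
  have hx1 : 1 ≤ x := (le_max_right _ _).trans hx
  have hxr : (1 : ℝ) ≤ x := by exact_mod_cast hx1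
  have hxp : (0 : ℝ) < x := by linarith
  have hL1 := Q1a_Lam_lower
  have hL2 := Q1a_Lam_upper
  have hxe : (x : ℝ) = Real.exp (lx x) := (Real.exp_log hxp).symm
  have a5' : (1 : ℝ) ≤ TT x := by exact_mod_cast a5
  have a11' : (100 : ℝ) * TT x ≤ mm x := by exact_mod_cast a11
  have hl3 : Real.log 3 ≤ 6 / 5 := by
    have h2 : Real.log 3 = Real.log 2 + Real.log (3 / 2) := by
      rw [← Real.log_mul (by norm_num) (by norm_num)]
      norm_num
    have h3 := Real.log_two_lt_d9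
    have h4 : Real.log (3 / 2) ≤ Real.log 2 - 1 / 4 := by
      have h5 : Real.log (3 / 2) = Real.log 2 - Real.log (4 / 3) := by
        rw [← Real.log_div (by norm_num) (by norm_num)]
        norm_num
      have h6 : Lam = Real.log (4 / 3) := rfl
      rw [h5, ← h6]
      linarith
    linarith
  have hl4 : Real.log 4 ≤ 7 / 5 := by
    have e2 : Real.log ((2 : ℝ) ^ 2) = 2 * Real.log 2 := by
      rw [Real.log_pow]
      norm_num
    have e3 : (4 : ℝ) = 2 ^ 2 := by norm_num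
    have h3 := Real.log_two_lt_d9
    rw [e3, e2]
    linarith
  have h3n : (3 : ℝ) ^ n1 x = Real.exp (n1 x * Real.log 3) := by
    rw [mul_comm, Real.exp_mul, Real.exp_log (by norm_num), Real.rpow_natCast]
  have h4n : (4 : ℝ) ^ TT x = Real.exp (TT x * Real.log 4) := by
    rw [mul_comm, Real.exp_mul, Real.exp_log (by norm_num), Real.rpow_natCast]
  have hxm : xm x = Real.exp (lx x + (mm x * Lam - 4 * TT x)) := by
    unfold xm
    rw [Real.exp_add (lx x), ← hxe]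
  have hxpp : xp x = Real.exp (lx x + (mm x * Lam + 2 * TT x)) := by
    unfold xp
    rw [Real.exp_add (lx x), ← hxe]
  have hmm0 : (0 : ℝ) ≤ mm x := Nat.cast_nonneg _
  have hmL : (mm x : ℝ) * (1 / 4) ≤ mm x * Lam := mul_le_mul_of_nonneg_left hL1 hmm0
  have hmU : (mm x : ℝ) * Lam ≤ mm x * (1 / 3) := mul_le_mul_of_nonneg_left hL2 hmm0
  have hT4 : (TT x : ℝ) * Real.log 4 ≤ TT x * (7 / 5) :=
    mul_le_mul_of_nonneg_left hl4 (Nat.cast_nonneg _)
  have b2 : (4 : ℝ) ^ TT x ≤ (x : ℝ) ^ ((1 : ℝ) / 4) := by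
    rw [h4n, hxe, ← Real.exp_mul]
    exact Real.exp_le_exp.2 (by linarith)
  have b3 : (x : ℝ) ≤ xm x := by
    rw [hxm]
    conv_lhs => rw [hxe]
    exact Real.exp_le_exp.2 (by linarith)
  refine ⟨?_, b2, b3, ?_, ?_, ?_⟩
  · have h2 : (3 : ℝ) ^ n1 x * 2 ≤ xm x := by
      have h5 : (2 : ℝ) ≤ Real.exp 1 := by
        have := Real.add_one_le_exp (1 : ℝ)
        linarith
      have h6 : (n1 x : ℝ) * Real.log 3 ≤ n1 x * (6 / 5) :=
        mul_le_mul_of_nonneg_left hl3 (Nat.cast_nonneg _)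
      calc (3 : ℝ) ^ n1 x * 2 ≤ Real.exp (n1 x * Real.log 3) * Real.exp 1 := by
            rw [h3n]
            exact mul_le_mul_of_nonneg_left h5 (Real.exp_pos _).le
        _ = Real.exp (n1 x * Real.log 3 + 1) := (Real.exp_add _ _).symm
        _ ≤ xm x := by
            rw [hxm]
            exact Real.exp_le_exp.2 (by linarith)
    linarith
  · rw [hxm, hxpp]
    exact Real.exp_le_exp.2 (by linarith)
  · rw [hxpp]
    conv_rhs => rw [hxe, ← Real.exp_mul]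
    exact Real.exp_le_exp.2 (by linarith)
  · have h5 : (4 : ℝ) ^ TT x ≤ x := by
      refine b2.trans ?_
      conv_rhs => rw [← Real.rpow_one (x : ℝ)]
      exact Real.rpow_le_rpow_of_exponent_le hxr (by norm_num)
    have h6 : (3 : ℝ) ≤ Real.exp 2 := by
      have := Real.add_one_le_exp (2 : ℝ)
      linarith
    calc (4 : ℝ) ^ TT x * (x + 4 ^ TT x + 1) ≤ (4 : ℝ) ^ TT x * (3 * x) :=
          mul_le_mul_of_nonneg_left (by linarith) (by positivity)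
      _ ≤ Real.exp (TT x * Real.log 4) * (Real.exp 2 * Real.exp (lx x)) := by
          rw [h4n, ← hxe]
          exact mul_le_mul_of_nonneg_left (mul_le_mul_of_nonneg_right h6 hxp.le)
            (Real.exp_pos _).le
      _ = Real.exp (TT x * Real.log 4 + (2 + lx x)) := by rw [Real.exp_add, Real.exp_add]
      _ < xm x := by
          rw [hxm]
          exact Real.exp_lt_exp.2 (by linarith)

/-- the exponential which controls all the deviations is tiny: beats any power of `log x` -/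
theorem exp_small (A : ℕ) : ∃ x0 : ℕ, ∀ x ≥ x0, ∀ n : ℕ, 1 ≤ n → n ≤ n1 x →
    Real.exp (-(TT x : ℝ) ^ 2 / (24 * n)) ≤ 1 / (lx x) ^ A := by
  obtain ⟨x1, hx1⟩ := params
  have hlog : ∀ᶠ l : ℝ in Filter.atTop, (A : ℝ) * Real.log l ≤ 5 / 24 * l ^ ((1 : ℝ) / 5) := by
    have h := (isLittleO_log_rpow_atTop (show (0 : ℝ) < 1 / 5 by norm_num)).bound
      (show (0 : ℝ) < 5 / 24 / (A + 1) by positivity)
    filter_upwards [h, Filter.eventually_gt_atTop 1] with l h1 h2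
    have h0 : (0 : ℝ) < l := by linarith
    rw [Real.norm_of_nonneg (Real.log_nonneg h2.le),
      Real.norm_of_nonneg (Real.rpow_nonneg h0.le _)] at h1
    have hA : (0 : ℝ) ≤ A := Nat.cast_nonneg A
    have h3 : (A : ℝ) * Real.log l ≤ (A + 1) * Real.log l :=
      mul_le_mul_of_nonneg_right (by linarith) (Real.log_nonneg h2.le)
    have h4 : ((A : ℝ) + 1) * Real.log l ≤ (A + 1) * (5 / 24 / (A + 1) * l ^ ((1 : ℝ) / 5)) :=
      mul_le_mul_of_nonneg_left h1 (by linarith)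
    have h5 : ((A : ℝ) + 1) * (5 / 24 / (A + 1) * l ^ ((1 : ℝ) / 5)) =
        5 / 24 * l ^ ((1 : ℝ) / 5) := by
      field_simp
    linarith
  obtain ⟨x2, hx2⟩ := Filter.eventually_atTop.1 (lx_tendsto.eventually hlog)
  refine ⟨max x1 x2, fun x hx n hn1 hn => ?_⟩
  obtain ⟨a1, a2, a3, a4, a5, a6, a7, a8, a9, a10, a11⟩ := hx1 x ((le_max_left _ _).trans hx)
  have hl2 := hx2 x ((le_max_right _ _).trans hx)
  set l := lx x with hl
  have hl0 : (0 : ℝ) < l := by linarith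
  have hn0 : (0 : ℝ) < n := by exact_mod_cast hn1
  have hnl : (n : ℝ) ≤ l / 5 := (show (n : ℝ) ≤ n1 x by exact_mod_cast hn).trans a8
  have hT : l ^ ((6 : ℝ) / 5) ≤ (TT x : ℝ) ^ 2 := by
    have h1 : l ^ ((6 : ℝ) / 5) = (l ^ ((3 : ℝ) / 5)) ^ 2 := by
      rw [← Real.rpow_natCast, ← Real.rpow_mul hl0.le]
      norm_num
    rw [h1]
    exact pow_le_pow_left₀ (Real.rpow_nonneg hl0.le _) a2 2
  have h6 : l ^ ((6 : ℝ) / 5) = l * l ^ ((1 : ℝ) / 5) := by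
    rw [show (6 : ℝ) / 5 = 1 + 1 / 5 by norm_num, Real.rpow_add hl0, Real.rpow_one]
  have h7 : 5 / 24 * l ^ ((1 : ℝ) / 5) ≤ (TT x : ℝ) ^ 2 / (24 * n) := by
    rw [le_div_iff₀ (by positivity)]
    have h8 : (0 : ℝ) ≤ l ^ ((1 : ℝ) / 5) := Real.rpow_nonneg hl0.le _
    calc 5 / 24 * l ^ ((1 : ℝ) / 5) * (24 * n) = 5 * l ^ ((1 : ℝ) / 5) * n := by ring
      _ ≤ 5 * l ^ ((1 : ℝ) / 5) * (l / 5) := mul_le_mul_of_nonneg_left hnl (by positivity)
      _ = l * l ^ ((1 : ℝ) / 5) := by ring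
      _ ≤ (TT x : ℝ) ^ 2 := by rw [← h6]; exact hT
  have h9 : (1 : ℝ) / l ^ A = Real.exp (-(A * Real.log l)) := by
    rw [Real.exp_neg, mul_comm, Real.exp_mul, Real.exp_log hl0, Real.rpow_natCast, one_div]
  rw [h9]
  refine Real.exp_le_exp.2 ?_
  rw [neg_div]
  linarith

end Pool.Agent.W_e21d3a_h93
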