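import Pool.Agent.W_e21d3a_h93.CDefs
import Pool.Agent.W_e21d3a_h93.Q1a
import Pool.Agent.W_e21d3a_h93.M1a

set_option autoImplicit false

/-!
# [NC] C1: block bound (row 500, (6.0))
-/

namespace Pool.Agent.W_e21d3a_h93

/-- a full period, starting anywhere -/
theorem C1_period (P : ℕ) (ψ : ℤ → ℝ) (hψ : ∀ Y z : ℤ, ψ (Y + (P : ℤ) * z) = ψ Y) (a : ℕ) :
    ∑ M ∈ Finset.range P, ψ (((a + M : ℕ)) : ℤ) = ∑ Y ∈ Finset.range P, ψ (Y : ℤ) := by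
  induction a with
  | zero => simp
  | succ a ih =>
    rw [← ih]
    have h1 := Finset.sum_range_succ (fun M : ℕ => ψ (((a + M : ℕ)) : ℤ)) P
    have h2 := Finset.sum_range_succ' (fun M : ℕ => ψ (((a + M : ℕ)) : ℤ)) P
    have h3 : ψ (((a + P : ℕ)) : ℤ) = ψ (((a + 0 : ℕ)) : ℤ) := by
      have := hψ (a : ℤ) 1
      push_cast
      rw [mul_one] at this
      rw [this, add_zero]
    have h4 : ∑ M ∈ Finset.range P, ψ (((a + 1 + M : ℕ)) : ℤ)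
        = ∑ M ∈ Finset.range P, ψ (((a + (M + 1) : ℕ)) : ℤ) := by
      refine Finset.sum_congr rfl fun M _ => ?_
      congr 2
      omega
    rw [h4]
    linarith

/-- several periods -/
theorem C1_periods (P : ℕ) (ψ : ℤ → ℝ) (hψ : ∀ Y z : ℤ, ψ (Y + (P : ℤ) * z) = ψ Y) (a k : ℕ) :
    ∑ M ∈ Finset.range (P * k), ψ (((a + M : ℕ)) : ℤ)
      = k * ∑ Y ∈ Finset.range P, ψ (Y : ℤ) := by
  induction k with
  | zero => simp
  | succ k ih =>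
    rw [Nat.mul_succ, Finset.sum_range_add, ih]
    have h : ∑ x ∈ Finset.range P, ψ (((a + (P * k + x) : ℕ)) : ℤ)
        = ∑ Y ∈ Finset.range P, ψ (Y : ℤ) := by
      rw [← C1_period P ψ hψ (a + P * k)]
      refine Finset.sum_congr rfl fun M _ => ?_
      congr 2
      omega
    rw [h]
    push_cast
    ring

/-- a dyadic block -/
theorem C1_block (P : ℕ) (hP : 0 < P) (ψ : ℤ → ℝ) (h0 : ∀ Y, 0 ≤ ψ Y)
    (hψ : ∀ Y z : ℤ, ψ (Y + (P : ℤ) * z) = ψ Y) (z : ℕ) (hz : P ≤ z) :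
    ∑ M ∈ Finset.Ico z (2 * z), ψ (M : ℤ) / M
      ≤ 2 / P * ∑ Y ∈ Finset.range P, ψ (Y : ℤ) := by
  have hzp : 0 < z := lt_of_lt_of_le hP hz
  have hzR : (0 : ℝ) < z := by exact_mod_cast hzp
  have hPR : (0 : ℝ) < P := by exact_mod_cast hP
  have hS : 0 ≤ ∑ Y ∈ Finset.range P, ψ (Y : ℤ) := Finset.sum_nonneg fun Y _ => h0 _
  have h1 : ∑ M ∈ Finset.Ico z (2 * z), ψ (M : ℤ) / M
      ≤ ∑ M ∈ Finset.Ico z (2 * z), ψ (M : ℤ) / z := by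
    refine Finset.sum_le_sum fun M hM => ?_
    have : z ≤ M := (Finset.mem_Ico.mp hM).1
    exact div_le_div_of_nonneg_left (h0 _) hzR (by exact_mod_cast this)
  have h2 : ∑ M ∈ Finset.Ico z (2 * z), ψ (M : ℤ)
      ≤ ((z / P + 1 : ℕ) : ℝ) * ∑ Y ∈ Finset.range P, ψ (Y : ℤ) := by
    rw [← C1_periods P ψ hψ z (z / P + 1), Finset.sum_Ico_eq_sum_range]
    refine Finset.sum_le_sum_of_subset_of_nonneg ?_ fun _ _ _ => h0 _
    intro M hM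
    rw [Finset.mem_range] at hM ⊢
    have := Nat.lt_mul_div_succ z hP
    omega
  have h3 : ((z / P + 1 : ℕ) : ℝ) ≤ 2 * z / P := by
    push_cast
    have h4 : ((z / P : ℕ) : ℝ) ≤ (z : ℝ) / P := Nat.cast_div_le
    have h5 : (1 : ℝ) ≤ (z : ℝ) / P := by
      rw [le_div_iff₀ hPR, one_mul]
      exact_mod_cast hz
    have h6 : 2 * (z : ℝ) / P = z / P + z / P := by ring
    rw [h6]
    linarith
  rw [← Finset.sum_div] at h1
  refine le_trans h1 ?_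
  rw [div_le_iff₀ hzR]
  refine le_trans h2 (le_trans (mul_le_mul_of_nonneg_right h3 hS) (le_of_eq ?_))
  ring

/-- many dyadic blocks -/
theorem C1_blocks (P : ℕ) (hP : 0 < P) (ψ : ℤ → ℝ) (h0 : ∀ Y, 0 ≤ ψ Y)
    (hψ : ∀ Y z : ℤ, ψ (Y + (P : ℤ) * z) = ψ Y) (a : ℕ) (ha : P ≤ a) (J : ℕ) :
    ∑ M ∈ Finset.Ico a (a * 2 ^ J), ψ (M : ℤ) / M
      ≤ J * (2 / P * ∑ Y ∈ Finset.range P, ψ (Y : ℤ)) := by
  induction J with
  | zero => simp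
  | succ J ih =>
    have h1 : a ≤ a * 2 ^ J := Nat.le_mul_of_pos_right a (by positivity)
    have h2 : a * 2 ^ J ≤ a * 2 ^ (J + 1) :=
      Nat.mul_le_mul_left a (Nat.pow_le_pow_right (by norm_num) (by omega))
    rw [← Finset.sum_Ico_consecutive _ h1 h2]
    have h3 : a * 2 ^ (J + 1) = 2 * (a * 2 ^ J) := by rw [pow_succ]; ring
    have h4 := C1_block P hP ψ h0 hψ (a * 2 ^ J) (le_trans ha h1)
    rw [h3]
    push_cast
    linarith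

/-- (6.0). Dyadic blocks `(z,2z]`, `z ≥ 3^{n'}`: every class has at most `2z/3^{n'}` elements;
`x₊/x₋ = e^{6T}`, so at most `10T` blocks. -/
theorem block_bound : ∃ x0 : ℕ, ∀ x ≥ x0, ∀ n' ≤ n1 x, ∀ ψ : ℤ → ℝ, (∀ Y, 0 ≤ ψ Y) →
    (∀ Y z : ℤ, ψ (Y + 3 ^ n' * z) = ψ Y) →
    ∑ M ∈ Finset.Icc ⌈xm x⌉₊ ⌊xp x⌋₊, ψ (M : ℤ) / M
      ≤ 20 * TT x / 3 ^ n' * ∑ Y ∈ Finset.range (3 ^ n'), ψ Y := by
  obtain ⟨x1, hx1⟩ := params
  obtain ⟨x2, hx2⟩ := sizes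
  refine ⟨max x1 x2, fun x hx n' hn' ψ h0 hψ => ?_⟩
  obtain ⟨-, -, -, -, hT, -⟩ := hx1 x (le_trans (le_max_left _ _) hx)
  obtain ⟨h3, -, hxx, -⟩ := hx2 x (le_trans (le_max_right _ _) hx)
  have hxm : 0 < xm x := by
    have : (0 : ℝ) < 3 ^ n1 x := by positivity
    linarith
  have hceil : xm x ≤ (⌈xm x⌉₊ : ℝ) := Nat.le_ceil _
  have ha : 3 ^ n' ≤ ⌈xm x⌉₊ := by
    have h4 : (3 : ℝ) ^ n' ≤ 3 ^ n1 x := pow_le_pow_right₀ (by norm_num) hn'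
    have h5 : (3 : ℝ) ^ n' ≤ (⌈xm x⌉₊ : ℝ) := by linarith
    exact_mod_cast h5
  have hψ' : ∀ Y z : ℤ, ψ (Y + ((3 ^ n' : ℕ) : ℤ) * z) = ψ Y := by
    intro Y z
    push_cast
    exact hψ Y z
  have hb : ⌊xp x⌋₊ < ⌈xm x⌉₊ * 2 ^ (10 * TT x) := by
    rw [Nat.floor_lt (by unfold xp; positivity)]
    push_cast
    have e1 : xp x = xm x * Real.exp (6 * TT x) := by
      unfold xp xm
      rw [mul_assoc, ← Real.exp_add]
      congr 2
      ring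
    have e2 : Real.exp (6 * TT x) < 2 ^ (10 * TT x) := by
      have h6 : Real.exp (6 * TT x) = (Real.exp 1 ^ 6) ^ TT x := by
        rw [← pow_mul, ← Real.exp_nat_mul]
        congr 1
        push_cast
        ring
      rw [h6, pow_mul]
      refine pow_lt_pow_left₀ ?_ (by positivity) (by omega)
      have h7 : Real.exp 1 < 2.7182818286 := Real.exp_one_lt_d9
      calc Real.exp 1 ^ 6 < 2.7182818286 ^ 6 :=
            pow_lt_pow_left₀ h7 (by positivity) (by norm_num)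
        _ < 2 ^ 10 := by norm_num
    rw [e1]
    calc xm x * Real.exp (6 * TT x) < xm x * 2 ^ (10 * TT x) :=
          mul_lt_mul_of_pos_left e2 hxm
      _ ≤ (⌈xm x⌉₊ : ℝ) * 2 ^ (10 * TT x) :=
          mul_le_mul_of_nonneg_right hceil (by positivity)
  have h8 := C1_blocks (3 ^ n') (by positivity) ψ h0 hψ' ⌈xm x⌉₊ ha (10 * TT x)
  refine le_trans (Finset.sum_le_sum_of_subset_of_nonneg
    (t := Finset.Ico ⌈xm x⌉₊ (⌈xm x⌉₊ * 2 ^ (10 * TT x))) ?_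
    (fun M _ _ => div_nonneg (h0 _) (Nat.cast_nonneg _))) (le_trans h8 (le_of_eq ?_))
  · intro M hM
    rw [Finset.mem_Icc] at hM
    rw [Finset.mem_Ico]
    exact ⟨hM.1, lt_of_le_of_lt hM.2 hb⟩
  · push_cast
    ring

/-- the same for the sum over `MM` -/
theorem block_bound_MM : ∃ x0 : ℕ, ∀ x ≥ x0, ∀ n' ≤ n1 x, ∀ ψ : ℤ → ℝ, (∀ Y, 0 ≤ ψ Y) →
    (∀ Y z : ℤ, ψ (Y + 3 ^ n' * z) = ψ Y) → ∀ E : Set ℕ,
    ∑ M ∈ MM x E, ψ (M : ℤ) / M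
      ≤ 20 * TT x / 3 ^ n' * ∑ Y ∈ Finset.range (3 ^ n'), ψ Y := by
  obtain ⟨x0, hx0⟩ := block_bound
  refine ⟨x0, fun x hx n' hn' ψ h0 hψ E => ?_⟩
  refine le_trans (Finset.sum_le_sum_of_subset_of_nonneg ?_
    (fun M _ _ => div_nonneg (h0 _) (Nat.cast_nonneg _))) (hx0 x hx n' hn' ψ h0 hψ)
  classical
  unfold MM
  exact Finset.filter_subset _ _

end Pool.Agent.W_e21d3a_h93
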