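import Pool.Agent.W_e21d3a_h93.P2a

set_option autoImplicit false

/-!
# [NC] P2b: deviation of the partial sums (row 497, (1.3))
-/

namespace Pool.Agent.W_e21d3a_h93

theorem P2b_one {T n k : ℕ} (h1 : 1 ≤ T) (h2 : T ≤ n) (hk : k ≤ n) (τ : ℕ) :
    Pr k τ (fun l => 2 * k + T ≤ l.sum ∨ l.sum + T ≤ 2 * k)
      ≤ 2 * Real.exp (-(T : ℝ) ^ 2 / (24 * n)) := by
  refine le_trans (Pr_or_le k τ _ _) ?_
  have e1 := Pr_sum_eq k τ (fun t => 2 * k + T ≤ t)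
  have e2 := Pr_sum_eq k τ (fun t => t + T ≤ 2 * k)
  rw [e1, e2]
  have u1 := tail_up h1 h2 hk τ
  have u2 := tail_down h1 h2 hk τ
  linarith

/-- (1.3) -/
theorem Pr_dev {T n : ℕ} (h1 : 1 ≤ T) (h2 : T ≤ n) (τ : ℕ) :
    Pr n τ (fun l => ∃ k ≤ n, 2 * k + T ≤ (l.take k).sum ∨ (l.take k).sum + T ≤ 2 * k)
      ≤ 2 * (n + 1) * Real.exp (-(T : ℝ) ^ 2 / (24 * n)) := by
  have s1 : Pr n τ (fun l => ∃ k ≤ n, 2 * k + T ≤ (l.take k).sum ∨ (l.take k).sum + T ≤ 2 * k)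
      ≤ Pr n τ (fun l => ∃ k ∈ Finset.range (n + 1),
        (fun (k : ℕ) (l : List ℕ) =>
          2 * k + T ≤ (l.take k).sum ∨ (l.take k).sum + T ≤ 2 * k) k l) := by
    apply Pr_mono
    rintro l _ _ ⟨k, hk, h⟩
    exact ⟨k, Finset.mem_range.mpr (by omega), h⟩
  refine le_trans s1 (le_trans (Pr_exists_le (Finset.range (n + 1)) n τ _) ?_)
  have s2 : ∀ k ∈ Finset.range (n + 1),
      Pr n τ ((fun (k : ℕ) (l : List ℕ) =>
          2 * k + T ≤ (l.take k).sum ∨ (l.take k).sum + T ≤ 2 * k) k)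
        ≤ 2 * Real.exp (-(T : ℝ) ^ 2 / (24 * n)) := by
    intro k hk
    have hkn : k ≤ n := by
      have := Finset.mem_range.mp hk
      omega
    refine le_trans (Pr_take_le hkn τ (fun l => 2 * k + T ≤ l.sum ∨ l.sum + T ≤ 2 * k)) ?_
    exact P2b_one h1 h2 hkn τ
  refine le_trans (Finset.sum_le_sum s2) ?_
  rw [Finset.sum_const, Finset.card_range, nsmul_eq_mul]
  push_cast
  apply le_of_eq
  ring

/-- the deviation of the sum only -/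
theorem Pr_dev_sum {T n : ℕ} (h1 : 1 ≤ T) (h2 : T ≤ n) (τ : ℕ) :
    Pr n τ (fun l => 2 * n + T ≤ l.sum ∨ l.sum + T ≤ 2 * n)
      ≤ 2 * Real.exp (-(T : ℝ) ^ 2 / (24 * n)) :=
  P2b_one h1 h2 le_rfl τ

end Pool.Agent.W_e21d3a_h93
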