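import Pool.Agent.W_e21d3a_h93.T1a
import Pool.Agent.W_e21d3a_h93.P2b

set_option autoImplicit false

/-!
# [NC] T1b: Terras count (row 497, (2.1))
-/

namespace Pool.Agent.W_e21d3a_h93

theorem t1b_class_real {y q r : ℕ} {S : Finset ℕ} (hq : 2 ^ (q + 1) ≤ y)
    (hS : S ⊆ (Finset.Ioc y (2 * y)).filter (fun N => N % 2 ^ (q + 1) = r)) :
    (S.card : ℝ) ≤ y / 2 ^ q := by
  have h1 : S.card ≤ y / 2 ^ (q + 1) + 1 :=
    (Finset.card_le_card hS).trans (card_class_le y _ r (by positivity))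
  have h2 : ((y / 2 ^ (q + 1) : ℕ) : ℝ) ≤ (y : ℝ) / 2 ^ (q + 1) := by
    have := @Nat.cast_div_le ℝ _ _ _ y (2 ^ (q + 1))
    simpa using this
  have h3 : (1 : ℝ) ≤ (y : ℝ) / 2 ^ (q + 1) := by
    rw [le_div_iff₀ (by positivity), one_mul]
    exact_mod_cast hq
  have h4 : (S.card : ℝ) ≤ ((y / 2 ^ (q + 1) : ℕ) : ℝ) + 1 := by exact_mod_cast h1
  have h5 : (y : ℝ) / 2 ^ q = (y : ℝ) / 2 ^ (q + 1) + (y : ℝ) / 2 ^ (q + 1) := by
    rw [pow_succ]; field_simp; ring
  rw [h5]; linarith

theorem t1b_down {y n T k : ℕ} (h1 : 1 ≤ T) (h2 : T ≤ n) (hk : k ≤ n)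
    (hy : 2 ^ (2 * n + T + 2) ≤ y) :
    (((OO y).filter (fun N => ss k N + T < 2 * k)).card : ℝ)
      ≤ Real.exp (-(T : ℝ) ^ 2 / (24 * n)) * y := by
  classical
  have hsub : (OO y).filter (fun N => ss k N + T < 2 * k) ⊆
      ((Finset.range (2 * k + 1)).filter (fun t => t + T ≤ 2 * k)).biUnion fun s =>
        (comps k s).biUnion fun β => (OO y).filter (fun N => vals k N = β) := by
    intro N hN
    rw [Finset.mem_filter] at hN
    obtain ⟨hN1, hN2⟩ := hN
    have hodd : N % 2 = 1 := by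
      unfold OO at hN1; exact (Finset.mem_filter.mp hN1).2
    rw [Finset.mem_biUnion]
    refine ⟨ss k N, ?_, ?_⟩
    · rw [Finset.mem_filter, Finset.mem_range]; omega
    · rw [Finset.mem_biUnion]
      refine ⟨vals k N, ?_, ?_⟩
      · rw [mem_comps]; exact ⟨vals_length k N, rfl, vals_pos hodd k⟩
      · rw [Finset.mem_filter]; exact ⟨hN1, rfl⟩
  have hcard : ((OO y).filter (fun N => ss k N + T < 2 * k)).card ≤
      ∑ s ∈ (Finset.range (2 * k + 1)).filter (fun t => t + T ≤ 2 * k),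
        ∑ β ∈ comps k s, ((OO y).filter (fun N => vals k N = β)).card :=
    (Finset.card_le_card hsub).trans
      (Finset.card_biUnion_le.trans (Finset.sum_le_sum fun s _ => Finset.card_biUnion_le))
  have hcard' : (((OO y).filter (fun N => ss k N + T < 2 * k)).card : ℝ) ≤
      ∑ s ∈ (Finset.range (2 * k + 1)).filter (fun t => t + T ≤ 2 * k),
        ∑ β ∈ comps k s, (((OO y).filter (fun N => vals k N = β)).card : ℝ) := by
    exact_mod_cast hcard
  have hterm : ∀ s ∈ (Finset.range (2 * k + 1)).filter (fun t => t + T ≤ 2 * k),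
      ∑ β ∈ comps k s, (((OO y).filter (fun N => vals k N = β)).card : ℝ) ≤ pw k s * y := by
    intro s hs
    rw [Finset.mem_filter] at hs
    have h3 : ∀ β ∈ comps k s, (((OO y).filter (fun N => vals k N = β)).card : ℝ) ≤ y / 2 ^ s := by
      intro β hβ
      rw [mem_comps] at hβ
      obtain ⟨hb1, hb2, hb3⟩ := hβ
      obtain ⟨r, hr⟩ := vals_class hb3
      rw [hb1, hb2] at hr
      refine t1b_class_real (r := r) ?_ ?_
      · exact (Nat.pow_le_pow_right (by norm_num) (by omega)).trans hy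
      · intro N hN
        rw [Finset.mem_filter] at hN ⊢
        obtain ⟨hN1, hN2⟩ := hN
        unfold OO at hN1
        rw [Finset.mem_filter] at hN1
        exact ⟨hN1.1, hr N hN1.2 hN2⟩
    refine (Finset.sum_le_sum h3).trans (le_of_eq ?_)
    rw [Finset.sum_const, nsmul_eq_mul]
    unfold pw
    ring
  refine hcard'.trans ((Finset.sum_le_sum hterm).trans ?_)
  rw [← Finset.sum_mul]
  exact mul_le_mul_of_nonneg_right (tail_down h1 h2 hk (2 * k)) (Nat.cast_nonneg y)

theorem t1b_up {y n T k : ℕ} (h1 : 1 ≤ T) (h2 : T ≤ n) (hk : k + 1 ≤ n)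
    (hy : 2 ^ (2 * n + T + 2) ≤ y) :
    (((OO y).filter (fun N => ss k N ≤ 2 * k + T ∧ 2 * (k + 1) + T < ss (k + 1) N)).card : ℝ)
      ≤ Real.exp (-(T : ℝ) ^ 2 / (24 * n)) * y := by
  classical
  set U := 2 * (k + 1) + T with hU
  have hsub : (OO y).filter (fun N => ss k N ≤ 2 * k + T ∧ U < ss (k + 1) N) ⊆
      (Finset.range (U + 1)).biUnion fun s =>
        (comps k s).biUnion fun β => (OO y).filter
          (fun N => vals k N = β ∧ U + 1 - s ≤ vv (syr^[k] N) ∧ s < U) := by
    intro N hN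
    rw [Finset.mem_filter] at hN
    obtain ⟨hN1, hN2, hN3⟩ := hN
    have hodd : N % 2 = 1 := by
      unfold OO at hN1; exact (Finset.mem_filter.mp hN1).2
    rw [Finset.mem_biUnion]
    refine ⟨ss k N, ?_, ?_⟩
    · rw [Finset.mem_range]; omega
    · rw [Finset.mem_biUnion]
      refine ⟨vals k N, ?_, ?_⟩
      · rw [mem_comps]; exact ⟨vals_length k N, rfl, vals_pos hodd k⟩
      · rw [Finset.mem_filter]
        refine ⟨hN1, rfl, ?_, by omega⟩
        rw [ss_succ] at hN3
        omega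
  have hcard : ((OO y).filter (fun N => ss k N ≤ 2 * k + T ∧ U < ss (k + 1) N)).card ≤
      ∑ s ∈ Finset.range (U + 1), ∑ β ∈ comps k s, ((OO y).filter
          (fun N => vals k N = β ∧ U + 1 - s ≤ vv (syr^[k] N) ∧ s < U)).card :=
    (Finset.card_le_card hsub).trans
      (Finset.card_biUnion_le.trans (Finset.sum_le_sum fun s _ => Finset.card_biUnion_le))
  have hcard' : (((OO y).filter (fun N => ss k N ≤ 2 * k + T ∧ U < ss (k + 1) N)).card : ℝ) ≤
      ∑ s ∈ Finset.range (U + 1), ∑ β ∈ comps k s, (((OO y).filter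
          (fun N => vals k N = β ∧ U + 1 - s ≤ vv (syr^[k] N) ∧ s < U)).card : ℝ) := by
    exact_mod_cast hcard
  have hterm : ∀ s ∈ Finset.range (U + 1), ∑ β ∈ comps k s, (((OO y).filter
          (fun N => vals k N = β ∧ U + 1 - s ≤ vv (syr^[k] N) ∧ s < U)).card : ℝ) ≤
          pw k s / 2 ^ (U - s) * y := by
    intro s hs
    rw [Finset.mem_range] at hs
    have h3 : ∀ β ∈ comps k s, (((OO y).filter
          (fun N => vals k N = β ∧ U + 1 - s ≤ vv (syr^[k] N) ∧ s < U)).card : ℝ) ≤ y / 2 ^ U := by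
      intro β hβ
      rw [mem_comps] at hβ
      obtain ⟨hb1, hb2, hb3⟩ := hβ
      obtain ⟨r, hr⟩ := vals_class' hb3 (v := U + 1 - s) (by omega)
      rw [hb1, hb2] at hr
      refine t1b_class_real (r := r) ?_ ?_
      · exact (Nat.pow_le_pow_right (by norm_num) (by omega)).trans hy
      · intro N hN
        rw [Finset.mem_filter] at hN ⊢
        obtain ⟨hN1, hN2, hN3, hN4⟩ := hN
        unfold OO at hN1
        rw [Finset.mem_filter] at hN1
        refine ⟨hN1.1, ?_⟩
        have h4 := hr N hN1.2 hN2 hN3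
        rwa [show s + (U + 1 - s) = U + 1 by omega] at h4
    refine (Finset.sum_le_sum h3).trans (le_of_eq ?_)
    rw [Finset.sum_const, nsmul_eq_mul]
    unfold pw
    have h5 : (2 : ℝ) ^ U = 2 ^ s * 2 ^ (U - s) := by
      rw [← pow_add]; congr 1; omega
    rw [h5]
    field_simp
  refine hcard'.trans ((Finset.sum_le_sum hterm).trans ?_)
  rw [← Finset.sum_mul]
  refine mul_le_mul_of_nonneg_right ?_ (Nat.cast_nonneg y)
  have := tail_up_terras h1 h2 hk
  rwa [← hU] at this

/-- (2.1) -/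
theorem terras {y n T : ℕ} (h1 : 1 ≤ T) (h2 : T ≤ n) (hy : 2 ^ (2 * n + T + 2) ≤ y) :
    (((OO y).filter (fun N => ¬ (∀ k ≤ n, ss k N ≤ 2 * k + T ∧ 2 * k ≤ ss k N + T))).card : ℝ)
      ≤ 2 * n * Real.exp (-(T : ℝ) ^ 2 / (24 * n)) * y := by
  classical
  have hsub : (OO y).filter (fun N => ¬ (∀ k ≤ n, ss k N ≤ 2 * k + T ∧ 2 * k ≤ ss k N + T)) ⊆
      (Finset.range n).biUnion fun k =>
        ((OO y).filter (fun N => ss (k + 1) N + T < 2 * (k + 1))) ∪
        ((OO y).filter (fun N => ss k N ≤ 2 * k + T ∧ 2 * (k + 1) + T < ss (k + 1) N)) := by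
    intro N hN
    rw [Finset.mem_filter] at hN
    obtain ⟨hN1, hN2⟩ := hN
    have hex : ∃ k, k ≤ n ∧ ¬ (ss k N ≤ 2 * k + T ∧ 2 * k ≤ ss k N + T) := by
      by_contra hcon
      apply hN2
      intro k hk
      by_contra h
      exact hcon ⟨k, hk, h⟩
    have hspec := Nat.find_spec hex
    have hmin := fun m => @Nat.find_min _ _ hex m
    generalize Nat.find hex = k at hspec hmin
    rcases k with _ | k
    · rw [ss_zero] at hspec
      exfalso; omega
    · have hm := hmin k (by omega)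
      rw [Finset.mem_biUnion]
      refine ⟨k, by rw [Finset.mem_range]; omega, ?_⟩
      rw [Finset.mem_union, Finset.mem_filter, Finset.mem_filter]
      have h3 : ss k N ≤ 2 * k + T := by
        by_contra h
        exact hm ⟨by omega, fun h' => h h'.1⟩
      by_cases h4 : ss (k + 1) N + T < 2 * (k + 1)
      · exact Or.inl ⟨hN1, h4⟩
      · refine Or.inr ⟨hN1, h3, ?_⟩
        by_contra h5
        exact hspec.2 ⟨by omega, by omega⟩
  have hcard : (((OO y).filter
      (fun N => ¬ (∀ k ≤ n, ss k N ≤ 2 * k + T ∧ 2 * k ≤ ss k N + T))).card : ℝ) ≤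
      ∑ k ∈ Finset.range n,
        ((((OO y).filter (fun N => ss (k + 1) N + T < 2 * (k + 1))).card : ℝ) +
        (((OO y).filter (fun N => ss k N ≤ 2 * k + T ∧ 2 * (k + 1) + T < ss (k + 1) N)).card :
          ℝ)) := by
    have := (Finset.card_le_card hsub).trans
      (Finset.card_biUnion_le.trans (Finset.sum_le_sum fun s _ => Finset.card_union_le _ _))
    exact_mod_cast this
  refine hcard.trans ?_
  have hterm : ∀ k ∈ Finset.range n,
        ((((OO y).filter (fun N => ss (k + 1) N + T < 2 * (k + 1))).card : ℝ) +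
        (((OO y).filter (fun N => ss k N ≤ 2 * k + T ∧ 2 * (k + 1) + T < ss (k + 1) N)).card :
          ℝ)) ≤ 2 * (Real.exp (-(T : ℝ) ^ 2 / (24 * n)) * y) := by
    intro k hk
    rw [Finset.mem_range] at hk
    have e1 := t1b_down h1 h2 (k := k + 1) (by omega) hy
    have e2 := t1b_up h1 h2 (k := k) (by omega) hy
    linarith
  refine (Finset.sum_le_sum hterm).trans (le_of_eq ?_)
  rw [Finset.sum_const, Finset.card_range, nsmul_eq_mul]
  ring

end Pool.Agent.W_e21d3a_h93
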