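import Pool.Agent.W_e21d3a_h93.Q1a
import Pool.Agent.W_e21d3a_h93.T1b

set_option autoImplicit false

/-!
# [NC] Q1b: almost all numbers in a window are typical (row 497, (3.0))
-/

namespace Pool.Agent.W_e21d3a_h93

/-- (3.0) almost all numbers in a window are typical -/
theorem card_not_typ : ∃ x0 : ℕ, ∀ x ≥ x0, ∀ y, WW x y →
    (((OO y).filter (fun N => ¬ (∀ k ≤ n1 x, ss k N ≤ 2 * k + TT x ∧ 2 * k ≤ ss k N + TT x))).card : ℝ)
      ≤ y / (lx x) ^ 3 := by
  obtain ⟨x1, hx1⟩ := params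
  obtain ⟨x2, hx2⟩ := exp_small 4
  refine ⟨max x1 x2, fun x hx y hW => ?_⟩
  obtain ⟨a1, a2, a3, a4, a5, a6, a7, a8, a9, a10, a11⟩ := hx1 x ((le_max_left _ _).trans hx)
  have hl0 : (0 : ℝ) < lx x := by linarith
  have hTn : TT x ≤ n1 x := by omega
  have hn : 1 ≤ n1 x := by omega
  have he := hx2 x ((le_max_right _ _).trans hx) (n1 x) hn le_rfl
  have hy0 : 0 < y := by
    rcases Nat.eq_zero_or_pos y with h | h
    · exfalso
      have h1 := hW.1
      rw [h] at h1
      unfold lx at h1 hl0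
      simp only [Nat.cast_zero, Real.log_zero] at h1
      linarith
    · exact h
  have hyr : (0 : ℝ) < y := by exact_mod_cast hy0
  have hpow : 2 ^ (2 * n1 x + TT x + 2) ≤ y := by
    have h1 : ((2 : ℝ) ^ (2 * n1 x + TT x + 2)) ≤ y := by
      rw [← Real.exp_log hyr, ← Real.exp_log (show (0 : ℝ) < 2 ^ (2 * n1 x + TT x + 2) by positivity),
        Real.log_pow]
      refine Real.exp_le_exp.2 ?_
      have h2 : Real.log 2 ≤ 1 := by
        have := Real.log_two_lt_d9
        linarith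
      have h3 : 41 / 40 * lx x ≤ Real.log y := hW.1
      have h4 : ((2 * n1 x + TT x + 2 : ℕ) : ℝ) ≤ lx x := by
        push_cast
        linarith
      calc ((2 * n1 x + TT x + 2 : ℕ) : ℝ) * Real.log 2 ≤ lx x * 1 :=
            mul_le_mul h4 h2 (Real.log_nonneg (by norm_num)) hl0.le
        _ ≤ Real.log y := by linarith
    exact_mod_cast h1
  refine (terras a5 hTn hpow).trans ?_
  calc 2 * (n1 x : ℝ) * Real.exp (-(TT x : ℝ) ^ 2 / (24 * n1 x)) * y
      ≤ 2 * (lx x / 5) * (1 / lx x ^ 4) * y := by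
        refine mul_le_mul_of_nonneg_right ?_ hyr.le
        exact mul_le_mul (by linarith) he (Real.exp_pos _).le (by positivity)
    _ = 2 / 5 * (y / lx x ^ 3) := by
        field_simp
    _ ≤ y / lx x ^ 3 := by
        have : (0 : ℝ) ≤ y / lx x ^ 3 := by positivity
        linarith

end Pool.Agent.W_e21d3a_h93
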