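import Pool.Agent.W_e21d3a_h93.Q2a

set_option autoImplicit false

/-!
# [NC] Q2b: (3.1)
-/

namespace Pool.Agent.W_e21d3a_h93

private theorem Q2b_Lam_ge : (7 / 17 : ℝ) * Real.log 2 ≤ Lam := by
  have h1 : Real.log ((2 : ℝ) ^ 7) ≤ Real.log ((4 / 3 : ℝ) ^ 17) :=
    Real.log_le_log (by norm_num) (by norm_num)
  rw [Real.log_pow, Real.log_pow] at h1
  unfold Lam
  push_cast at h1
  linarith

private theorem Q2b_Lam_le : Lam ≤ (1 / 2 : ℝ) * Real.log 2 := by
  have h1 : Real.log ((4 / 3 : ℝ) ^ 2) ≤ Real.log ((2 : ℝ) ^ 1) :=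
    Real.log_le_log (by norm_num) (by norm_num)
  rw [Real.log_pow, Real.log_pow] at h1
  unfold Lam
  push_cast at h1
  linarith

private theorem Q2b_log3 : Real.log 3 = 2 * Real.log 2 - Lam := by
  unfold Lam
  rw [Real.log_div (by norm_num) (by norm_num), show (4 : ℝ) = 2 ^ 2 by norm_num, Real.log_pow]
  push_cast
  ring

/-- one step: lower bound for the logarithm -/
private theorem Q2b_step {M : ℕ} (hM : M % 2 = 1) {L : ℝ} (hL : L ≤ Real.log M) :
    L + Real.log 3 - vv M * Real.log 2 ≤ Real.log (syr M : ℕ) := by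
  have h1 := pow_vv_mul M
  have h2 : ((2 : ℝ) ^ vv M) * (syr M : ℕ) = 3 * M + 1 := by exact_mod_cast h1
  have hs : (0 : ℝ) < (syr M : ℕ) := by
    have := syr_odd M
    have : 0 < syr M := by omega
    exact_mod_cast this
  have hM0 : (0 : ℝ) < M := by
    have : 0 < M := by omega
    exact_mod_cast this
  have h3 : Real.log (((2 : ℝ) ^ vv M) * (syr M : ℕ)) = vv M * Real.log 2 +
      Real.log (syr M : ℕ) := by
    rw [Real.log_mul (by positivity) (by positivity), Real.log_pow]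
  have h4 : Real.log (3 * (M : ℝ)) ≤ Real.log (3 * (M : ℝ) + 1) :=
    Real.log_le_log (by positivity) (by linarith)
  rw [Real.log_mul (by norm_num) (by positivity)] at h4
  rw [← h2, h3] at h4
  linarith

/-- (3.1), the whole statement -/
theorem passage : ∃ x0 : ℕ, ∀ x ≥ x0, ∀ y N : ℕ, WW x y → N ∈ OO y → Typ x N →
    ∃ n, Passes x N n ∧ 2 * mm x < n ∧ n ≤ n1 x ∧
      lx x - 2 * TT x ≤ Real.log (syr^[n] N : ℕ) ∧
      xm x ≤ (syr^[n - mm x] N : ℕ) ∧ ((syr^[n - mm x] N : ℕ) : ℝ) ≤ xp x ∧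
      Passes x (syr^[n - mm x] N) (mm x) ∧
      PreOK (TT x) (vals (n - mm x) N) ∧
      |((n + ss n N : ℕ) : ℝ) - 3 / Lam * (Real.log N - lx x)| ≤ 33 * TT x := by
  obtain ⟨x1, hx1⟩ := params
  obtain ⟨x2, hx2⟩ := log_iter_typ
  refine ⟨max x1 x2, ?_⟩
  intro x hx y N hW hN hT
  obtain ⟨hl, -, -, hTl, hT1, hm1, hm2, hn1, hn2, hmn, -⟩ := hx1 x ((le_max_left _ _).trans hx)
  have hit := fun k (hN2 : N % 2 = 1) (hk : k ≤ n1 x) =>
    hx2 x ((le_max_right _ _).trans hx) N k hN2 hk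
  unfold OO at hN
  rw [Finset.mem_filter, Finset.mem_Ioc] at hN
  obtain ⟨⟨hyN, hNy⟩, hodd⟩ := hN
  obtain ⟨hW1, hW2⟩ := hW
  set l := lx x with hldef
  set T := TT x with hTdef
  set m := mm x with hmdef
  have hΛ1 := Q2b_Lam_ge
  have hΛ2 := Q2b_Lam_le
  have hlog3 := Q2b_log3
  have hg1 := Real.log_two_gt_d9
  have hg2 := Real.log_two_lt_d9
  have hΛ0 := Lam_pos
  have hΛ3 : (0.285 : ℝ) ≤ Lam := by linarith only [hΛ1, hg1, hg2]
  have hΛ4 : Lam ≤ (0.347 : ℝ) := by linarith only [hΛ2, hg1, hg2]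
  have hTr : (1 : ℝ) ≤ T := by exact_mod_cast hT1
  have hTl' : (T : ℝ) ≤ l / 100000000 := by linarith only [hTl]
  have hx0 : 0 < x := by
    rcases Nat.eq_zero_or_pos x with h | h
    · exfalso
      have : l = 0 := by rw [hldef, h]; simp [lx]
      linarith only [hTl, hg1, hg2, hTr, this]
    · exact h
  have hy0 : 0 < y := by
    rcases Nat.eq_zero_or_pos y with h | h
    · exfalso
      have : lx y = 0 := by rw [h]; simp [lx]
      linarith only [hyN, hNy, h]
    · exact h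
  have hx0r : (0 : ℝ) < x := by exact_mod_cast hx0
  have hy0r : (0 : ℝ) < y := by exact_mod_cast hy0
  have hN0r : (0 : ℝ) < N := by
    have : 0 < N := by omega
    exact_mod_cast this
  have hlogN1 : 41 / 40 * l ≤ Real.log N := by
    have : Real.log y ≤ Real.log N := Real.log_le_log hy0r (by exact_mod_cast hyN.le)
    have h2 : lx y = Real.log y := rfl
    linarith only [hW1, this, h2]
  have hlogN2 : Real.log N ≤ 21 / 20 * l + Real.log 2 := by
    have h1 : Real.log N ≤ Real.log (2 * y) :=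
      Real.log_le_log hN0r (by exact_mod_cast hNy)
    rw [Real.log_mul (by norm_num) (by positivity)] at h1
    have h2 : lx y = Real.log y := rfl
    linarith only [hW2, h1, h2]
  have hpos : ∀ i, (0 : ℝ) < (syr^[i] N : ℕ) := by
    intro i
    have := iter_odd hodd i
    have : 0 < syr^[i] N := by omega
    exact_mod_cast this
  have hle_of_log : ∀ i, Real.log (syr^[i] N : ℕ) ≤ l → syr^[i] N ≤ x := by
    intro i h
    have h1 : ((syr^[i] N : ℕ) : ℝ) ≤ x := (Real.log_le_log_iff (hpos i) hx0r).1 h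
    exact_mod_cast h1
  have hsr : ∀ k ≤ n1 x, (ss k N : ℝ) - 2 * k ≤ T ∧ -(T : ℝ) ≤ (ss k N : ℝ) - 2 * k := by
    intro k hk
    obtain ⟨h1, h2⟩ := hT k hk
    have h1' : (ss k N : ℝ) ≤ 2 * k + T := by exact_mod_cast h1
    have h2' : (2 : ℝ) * k ≤ ss k N + T := by exact_mod_cast h2
    constructor <;> linarith only [h1', h2']
  have hTlog : (T : ℝ) * Real.log 2 ≤ T * 0.7 :=
    mul_le_mul_of_nonneg_left (by linarith only [hg1, hg2]) (by linarith only [hg1, hg2, hTr])
  have hTlog0 : 0 ≤ (T : ℝ) * Real.log 2 := by positivity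
  -- existence of the passage
  have hex : ∃ i ≤ n1 x, syr^[i] N ≤ x := by
    by_contra hcon
    push Not at hcon
    have h1 := (hit (n1 x) hodd le_rfl (fun i hi => hcon i hi.le)).2
    have h2 := (hsr (n1 x) le_rfl).2
    have h3 : Real.log (syr^[n1 x] N : ℕ) ≤ l := by
      have h4 : (l / 5 - 1) * 0.285 ≤ n1 x * Lam := by
        apply mul_le_mul (by linarith only [hn2]) hΛ3 (by norm_num) (by positivity)
      have h5 : -((ss (n1 x) N : ℝ) - 2 * (n1 x)) * Real.log 2 ≤ T * Real.log 2 :=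
        mul_le_mul_of_nonneg_right (by linarith only [h2]) (by linarith only [hg1, hg2])
      linarith only [hTl, hg1, hg2, hTr, hlogN2, hTlog, h1, h4, h5]
    exact absurd (hle_of_log _ h3) (not_le.2 (hcon _ le_rfl))
  obtain ⟨i0, hi0, hi0x⟩ := hex
  have hex' : ∃ i, syr^[i] N ≤ x := ⟨i0, hi0x⟩
  set n := Nat.find hex' with hn
  have hnx : syr^[n] N ≤ x := Nat.find_spec hex'
  have hmin : ∀ i < n, x < syr^[i] N := fun i hi => not_le.1 (Nat.find_min hex' hi)
  have hnn : n ≤ n1 x := (Nat.find_min' hex' hi0x).trans hi0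
  have hlogM : Real.log (syr^[n] N : ℕ) ≤ l :=
    Real.log_le_log (hpos n) (by exact_mod_cast hnx)
  obtain ⟨hL1, hL2⟩ := hit n hodd hnn hmin
  obtain ⟨hs1, hs2⟩ := hsr n hnn
  have hs1' : ((ss n N : ℝ) - 2 * n) * Real.log 2 ≤ T * Real.log 2 :=
    mul_le_mul_of_nonneg_right hs1 (by linarith only [hg1, hg2])
  have hs2' : -(T : ℝ) * Real.log 2 ≤ ((ss n N : ℝ) - 2 * n) * Real.log 2 :=
    mul_le_mul_of_nonneg_right hs2 (by linarith only [hg1, hg2])
  have h2m : 2 * m < n := by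
    by_contra hcon
    push Not at hcon
    have h1 : (n : ℝ) ≤ 2 * m := by exact_mod_cast hcon
    have h2 : (n : ℝ) * Lam ≤ (l / 20) * 0.347 := by
      apply mul_le_mul (by linarith only [hm1, h1]) hΛ4 hΛ0.le (by linarith only [hTl, hg1, hg2, hTr])
    linarith only [hTl, hg1, hg2, hTr, hlogN1, hTlog, hlogM, hL1, hs1', h2]
  have hn0 : 1 ≤ n := by omega
  have hlogM2 : l - 2 * T ≤ Real.log (syr^[n] N : ℕ) := by
    obtain ⟨n', hn'⟩ := Nat.exists_eq_succ_of_ne_zero (by omega : n ≠ 0)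
    have h1 : l ≤ Real.log (syr^[n'] N : ℕ) :=
      Real.log_le_log hx0r (by exact_mod_cast (hmin n' (by omega)).le)
    have h2 := Q2b_step (iter_odd hodd n') h1
    have h3 : syr (syr^[n'] N) = syr^[n] N := by
      rw [hn', Nat.succ_eq_add_one, Function.iterate_succ_apply']
    rw [h3] at h2
    have h4 : vv (syr^[n'] N) ≤ 2 + 2 * T := by
      have h5 := ss_succ n' N
      have h6 := hT n hnn
      have h7 := hT n' (by omega)
      rw [hn', Nat.succ_eq_add_one] at h6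
      omega
    have h5 : (vv (syr^[n'] N) : ℝ) ≤ 2 + 2 * T := by exact_mod_cast h4
    have h6 : (vv (syr^[n'] N) : ℝ) * Real.log 2 ≤ (2 + 2 * T) * Real.log 2 :=
      mul_le_mul_of_nonneg_right h5 (by linarith only [hg1, hg2])
    linarith only [hΛ2, hlog3, hg1, hg2, hTr, hTlog, h2, h6]
  -- the point m steps before
  have hkn : n - m ≤ n := Nat.sub_le _ _
  obtain ⟨hK1, hK2⟩ := hit (n - m) hodd (hkn.trans hnn) (fun i hi => hmin i (by omega))
  obtain ⟨ht1, ht2⟩ := hsr (n - m) (hkn.trans hnn)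
  have hcast : ((n - m : ℕ) : ℝ) = n - m := by
    rw [Nat.cast_sub (by omega)]
  rw [hcast] at hK1 hK2 ht1 ht2
  have ht1' : ((ss (n - m) N : ℝ) - 2 * (n - m)) * Real.log 2 ≤ T * Real.log 2 :=
    mul_le_mul_of_nonneg_right ht1 (by linarith only [hg1, hg2])
  have ht2' : -(T : ℝ) * Real.log 2 ≤ ((ss (n - m) N : ℝ) - 2 * (n - m)) * Real.log 2 :=
    mul_le_mul_of_nonneg_right ht2 (by linarith only [hg1, hg2])
  have hM'1 : l + (m * Lam - 4 * T) ≤ Real.log (syr^[n - m] N : ℕ) := by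
    linarith only [hg1, hg2, hTr, hTlog, hL2, hs2', hlogM2, hK1, ht1']
  have hM'2 : Real.log (syr^[n - m] N : ℕ) ≤ l + (m * Lam + 2 * T) := by
    linarith only [hg1, hg2, hTr, hTlog, hlogM, hL1, hs1', hK2, ht2']
  have hxl : Real.exp l = x := by
    rw [hldef]
    exact Real.exp_log hx0r
  refine ⟨n, ⟨hmin, hnx⟩, h2m, hnn, hlogM2, ?_, ?_, ⟨?_, ?_⟩, ?_, ?_⟩
  · have h1 := Real.exp_le_exp.2 hM'1
    rw [Real.exp_add, hxl, Real.exp_log (hpos _)] at h1
    exact h1
  · have h1 := Real.exp_le_exp.2 hM'2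
    rw [Real.exp_add, hxl, Real.exp_log (hpos _)] at h1
    exact h1
  · intro i hi
    rw [← Function.iterate_add_apply]
    exact hmin _ (by omega)
  · rw [← Function.iterate_add_apply, show m + (n - m) = n by omega]
    exact hnx
  · intro j hj
    rw [vals_length] at hj
    have h1 := ss_eq_add_take hj N
    have h2 := hT (n - m) (hkn.trans hnn)
    have h3 := hT (n - m - j) (by omega)
    omega
  · have hd1 : |(n : ℝ) * Lam - (Real.log N - l)| ≤ 3 * T := by
      rw [abs_le]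
      constructor <;> linarith only [hg1, hg2, hTr, hTlog, hlogM, hL1, hs1', hL2, hs2', hlogM2]
    have hd2 : |((n + ss n N : ℕ) : ℝ) - 3 * n| ≤ T := by
      push_cast
      rw [abs_le]
      constructor <;> linarith only [hs2, hs1]
    have hd3 : ((n + ss n N : ℕ) : ℝ) - 3 / Lam * (Real.log N - l) =
        (((n + ss n N : ℕ) : ℝ) - 3 * n) + 3 / Lam * ((n : ℝ) * Lam - (Real.log N - l)) := by
      field_simp
      ring
    rw [hd3]
    refine (abs_add_le _ _).trans ?_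
    rw [abs_mul, abs_of_nonneg (by positivity : (0 : ℝ) ≤ 3 / Lam)]
    have hd4 : 3 / Lam ≤ 3 / 0.285 := div_le_div_of_nonneg_left (by norm_num) (by norm_num) hΛ3
    have hd5 : 3 / Lam * |(n : ℝ) * Lam - (Real.log N - l)| ≤ 3 / 0.285 * (3 * T) :=
      mul_le_mul hd4 hd1 (abs_nonneg _) (by norm_num)
    have hd6 : (3 / 0.285 : ℝ) * (3 * T) ≤ 32 * T := by
      have h7 : (3 / 0.285 : ℝ) * 3 ≤ 32 := by norm_num
      have h8 := mul_le_mul_of_nonneg_right h7 (by linarith only [hg1, hg2, hTr] : (0 : ℝ) ≤ T)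
      linarith only [hg1, hg2, hTr]
    linarith only [hg1, hg2, hTr, hd2, hd5]

end Pool.Agent.W_e21d3a_h93
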