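import Pool.Agent.W_e21d3a_h93.Q1a
import Pool.Agent.W_e21d3a_h93.B1c

set_option autoImplicit false

/-!
# [NC] Q3a: (3.2)
-/

namespace Pool.Agent.W_e21d3a_h93

private theorem Q3a_low {T : ℕ} {l : List ℕ} (hpre : PreOK T l) {j M K : ℕ} {xr a : ℝ}
    (hj : j ≤ l.length) (hx0 : 0 ≤ xr) (ha : (4 : ℝ) ^ T * (xr + 4 ^ T + 1) < a)
    (hM : a ≤ M)
    (h : 2 ^ (l.take j).sum * M = 3 ^ j * K + cc (l.take j)) : xr < K := by
  have hXX : XX (l.take j) ≤ 4 ^ T := (XX_take_le l j).trans (XX_le_of_preOK hpre)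
  have h1 : (2 : ℝ) ^ (l.take j).sum * M = 3 ^ j * K + 2 ^ (l.take j).sum * XX (l.take j) := by
    rw [← cc_eq_XX]
    exact_mod_cast h
  have h2 : (4 : ℝ) ^ j ≤ 2 ^ (l.take j).sum * 4 ^ T := by
    have h3 := (hpre j hj).2
    have h4 : (2 : ℝ) ^ (2 * j) ≤ 2 ^ ((l.take j).sum + 2 * T) :=
      pow_le_pow_right₀ (by norm_num) h3
    rw [pow_mul, pow_add, pow_mul] at h4
    norm_num at h4
    exact h4
  have hT1 : (1 : ℝ) ≤ 4 ^ T := one_le_pow₀ (by norm_num)
  have h5 : (4 : ℝ) ^ T * (xr + 1) ≤ M - XX (l.take j) := by nlinarith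
  have h6 : (3 : ℝ) ^ j ≤ 4 ^ j := pow_le_pow_left₀ (by norm_num) (by norm_num) j
  have h7 : (0 : ℝ) < 3 ^ j := by positivity
  have h8 : (3 : ℝ) ^ j * K = 2 ^ (l.take j).sum * (M - XX (l.take j)) := by linarith
  have h9 : (3 : ℝ) ^ j * (xr + 1) ≤ 3 ^ j * K := by
    rw [h8]
    calc (3 : ℝ) ^ j * (xr + 1) ≤ 4 ^ j * (xr + 1) :=
          mul_le_mul_of_nonneg_right h6 (by linarith)
      _ ≤ (2 ^ (l.take j).sum * 4 ^ T) * (xr + 1) :=
          mul_le_mul_of_nonneg_right h2 (by linarith)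
      _ = 2 ^ (l.take j).sum * (4 ^ T * (xr + 1)) := by ring
      _ ≤ 2 ^ (l.take j).sum * (M - XX (l.take j)) :=
          mul_le_mul_of_nonneg_left h5 (by positivity)
  have h10 : xr + 1 ≤ K := le_of_mul_le_mul_left h9 h7
  linarith

/-- (3.2). Proof: `X(take j l) ≤ 4^T`, so
`syr^{n'-j} N = 2^{s_j} 3^{-j} (M - X(take j l)) ≥ 4^{-T} (4/3)^j (x₋ - 4^T) > x`. -/
theorem converse_passage : ∃ x0 : ℕ, ∀ x ≥ x0, ∀ (n' M : ℕ) (l : List ℕ), n' ≤ n1 x → M % 2 = 1 →
    xm x ≤ M → Passes x M (mm x) → l.length = n' → (∀ a ∈ l, 1 ≤ a) → PreOK (TT x) l →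
    (3 : ℤ) ^ n' ∣ 2 ^ l.sum * (M : ℤ) - (cc l : ℤ) →
    ∃ N : ℕ, 2 ^ l.sum * M = 3 ^ n' * N + cc l ∧ N % 2 = 1 ∧ syr^[n'] N = M ∧ vals n' N = l ∧
      Passes x N (n' + mm x) ∧ syr^[n' + mm x] N = syr^[mm x] M := by
  obtain ⟨x0, hx0⟩ := sizes
  refine ⟨x0, fun x hx n' M l hn' hM hxM hpass hlen hpos hpre hdvd => ?_⟩
  obtain ⟨-, -, hs3, -, -, hs6⟩ := hx0 x hx
  have hT1 : (1 : ℝ) ≤ 4 ^ TT x := one_le_pow₀ (by norm_num)
  have hxr : (0 : ℝ) ≤ x := Nat.cast_nonneg x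
  have hXX : XX l ≤ 4 ^ TT x := XX_le_of_preOK hpre
  obtain ⟨z, hz⟩ := hdvd
  -- positivity
  have hlt : (cc l : ℝ) < 2 ^ l.sum * M := by
    rw [cc_eq_XX]
    have h1 : XX l < M := by nlinarith
    exact mul_lt_mul_of_pos_left h1 (by positivity)
  have hlt' : cc l < 2 ^ l.sum * M := by exact_mod_cast hlt
  have hzpos : 0 < z := by
    have h1 : (0 : ℤ) < 2 ^ l.sum * (M : ℤ) - (cc l : ℤ) := by
      have : (cc l : ℤ) < 2 ^ l.sum * (M : ℤ) := by exact_mod_cast hlt'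
      linarith
    rw [hz] at h1
    exact (pos_iff_pos_of_mul_pos h1).mp (by positivity)
  obtain ⟨N, rfl⟩ := Int.eq_ofNat_of_zero_le hzpos.le
  have hN : 2 ^ l.sum * M = 3 ^ n' * N + cc l := by
    have h1 : (2 : ℤ) ^ l.sum * (M : ℤ) = 3 ^ n' * (N : ℤ) + (cc l : ℤ) := by linarith
    exact_mod_cast h1
  have hNodd : N % 2 = 1 := by
    rcases Nat.eq_zero_or_pos n' with h0 | h0
    · subst h0
      have : l = [] := List.length_eq_zero_iff.mp hlen
      subst this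
      simp only [List.sum_nil, pow_zero, one_mul, cc, add_zero] at hN
      omega
    · have hne : l ≠ [] := by
        intro h
        rw [h] at hlen
        simp at hlen
        omega
      have hc := cc_odd hne hpos
      have hsum : 1 ≤ l.sum := by
        obtain ⟨a, l', rfl⟩ := List.exists_cons_of_ne_nil hne
        have := hpos a (by simp)
        simp only [List.sum_cons]
        omega
      obtain ⟨s, hs⟩ := Nat.exists_eq_add_of_le hsum
      rw [hs, pow_add, pow_one] at hN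
      have h3 : 3 ^ n' % 2 = 1 := by
        rw [Nat.pow_mod]
        norm_num
      have h4 : (3 ^ n' * N + cc l) % 2 = 0 := by
        rw [← hN, mul_assoc]
        exact Nat.mul_mod_right 2 _
      by_contra hne2
      have h5 : N % 2 = 0 := by omega
      have h6 : (3 ^ n' * N) % 2 = 0 := by
        rw [Nat.mul_mod, h5, mul_zero, Nat.zero_mod]
      omega
  obtain ⟨hsyr, hvals⟩ := (traj_iff hNodd hM hlen hpos).mpr hN
  refine ⟨N, hN, hNodd, hsyr, hvals, ⟨?_, ?_⟩, ?_⟩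
  · intro i hi
    by_cases hin : i < n'
    · have htr := traj_take (N := N) (n := n') (j := n' - i) hNodd (by omega)
      rw [hvals, hsyr] at htr
      have e : n' - (n' - i) = i := by omega
      rw [e] at htr
      have := Q3a_low hpre (j := n' - i) (M := M) (K := syr^[i] N) (xr := x) (a := xm x)
        (by omega) hxr hs6 hxM htr
      exact_mod_cast this
    · have e : i = (i - n') + n' := by omega
      rw [e, Function.iterate_add_apply, hsyr]
      exact hpass.1 _ (by omega)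
  · rw [add_comm, Function.iterate_add_apply, hsyr]
    exact hpass.2
  · rw [add_comm, Function.iterate_add_apply, hsyr]

end Pool.Agent.W_e21d3a_h93
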