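import Pool.Agent.W_e21d3a_h93.CDefs
import Pool.Agent.W_e21d3a_h93.Q1b
import Pool.Agent.W_e21d3a_h93.Q2b
import Pool.Agent.W_e21d3a_h93.Q3a

set_option autoImplicit false

/-!
# [NC] C2: triples (row 500, (6.1))
-/

namespace Pool.Agent.W_e21d3a_h93

private theorem c2_mem_MM {x : ℕ} {E : Set ℕ} {M : ℕ} : M ∈ MM x E ↔
    (⌈xm x⌉₊ ≤ M ∧ M ≤ ⌊xp x⌋₊) ∧ M % 2 = 1 ∧ Passes x M (mm x) ∧ syr^[mm x] M ∈ E := by
  unfold MM
  rw [@Finset.mem_filter _ _ (_) _ _, Finset.mem_Icc]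

private theorem c2_mem_Lists {x n' t M : ℕ} {l : List ℕ} : l ∈ Lists x n' t M ↔
    (l.length = n' ∧ l.sum = t ∧ ∀ a ∈ l, 1 ≤ a) ∧
      PreOK (TT x) l ∧ (3 : ℤ) ^ n' ∣ 2 ^ t * (M : ℤ) - (cc l : ℤ) := by
  unfold Lists
  rw [@Finset.mem_filter _ _ (_) _ _, mem_comps]

/-- for a triple: `N` is odd, its trajectory is known; consequence of `converse_passage` -/
theorem triple_spec : ∃ x0 : ℕ, ∀ x ≥ x0, ∀ (E : Set ℕ) (n' M t : ℕ) (l : List ℕ),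
    n' ∈ Finset.Ioc (mm x) (n1 x) → M ∈ MM x E → l ∈ Lists x n' t M →
    2 ^ t * M = 3 ^ n' * NN n' t M l + cc l ∧ NN n' t M l % 2 = 1 ∧
      syr^[n'] (NN n' t M l) = M ∧ vals n' (NN n' t M l) = l ∧
      Passes x (NN n' t M l) (n' + mm x) ∧ syr^[n' + mm x] (NN n' t M l) ∈ E := by
  obtain ⟨x0, h0⟩ := converse_passage
  refine ⟨x0, fun x hx E n' M t l hn hM hl => ?_⟩
  rw [c2_mem_MM] at hM
  rw [c2_mem_Lists] at hl
  obtain ⟨⟨hM1, _⟩, hM2, hM3, hM4⟩ := hM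
  obtain ⟨⟨hl1, hl2, hl3⟩, hl4, hl5⟩ := hl
  rw [Finset.mem_Ioc] at hn
  obtain ⟨N, hN1, hN2, hN3, hN4, hN5, hN6⟩ := h0 x hx n' M l hn.2 hM2 (Nat.ceil_le.1 hM1) hM3 hl1
    hl3 hl4 (by rw [hl2]; exact hl5)
  rw [hl2] at hN1
  have hNN : NN n' t M l = N := by
    rw [NN, hN1, Nat.add_sub_cancel, Nat.mul_div_cancel_left _ (by positivity)]
  rw [hNN]
  exact ⟨hN1, hN2, hN3, hN4, hN5, by rw [hN6]; exact hM4⟩

/-- different triples have different starting numbers -/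
theorem triple_inj : ∃ x0 : ℕ, ∀ x ≥ x0, ∀ (E : Set ℕ) (n' M t n'' M' t' : ℕ) (l l' : List ℕ),
    n' ∈ Finset.Ioc (mm x) (n1 x) → M ∈ MM x E → l ∈ Lists x n' t M →
    n'' ∈ Finset.Ioc (mm x) (n1 x) → M' ∈ MM x E → l' ∈ Lists x n'' t' M' →
    NN n' t M l = NN n'' t' M' l' → n' = n'' ∧ M = M' ∧ t = t' ∧ l = l' := by
  obtain ⟨x0, h0⟩ := triple_spec
  refine ⟨x0, fun x hx E n' M t n'' M' t' l l' hn hM hl hn' hM' hl' h => ?_⟩
  obtain ⟨_, _, a3, a4, a5, _⟩ := h0 x hx E n' M t l hn hM hl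
  obtain ⟨_, _, b3, b4, b5, _⟩ := h0 x hx E n'' M' t' l' hn' hM' hl'
  rw [h] at a3 a4 a5
  have h1 := a5.unique b5
  have h2 : n' = n'' := by omega
  subst h2
  have h3 : l = l' := a4.symm.trans b4
  refine ⟨rfl, a3.symm.trans b3, ?_, h3⟩
  rw [c2_mem_Lists] at hl hl'
  rw [← hl.1.2.1, ← hl'.1.2.1, h3]

/-- every typical `N` of the window which passes into `E` comes from a triple -/
theorem triple_surj : ∃ x0 : ℕ, ∀ x ≥ x0, ∀ y N : ℕ, WW x y → N ∈ OO y → Typ x N → ∀ E : Set ℕ,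
    N ∈ PP x E → ∃ n' ∈ Finset.Ioc (mm x) (n1 x), ∃ M ∈ MM x E,
      ∃ t ∈ Finset.range (tmax x y + 1), ∃ l ∈ Lists x n' t M, NN n' t M l = N := by
  obtain ⟨x0, h0⟩ := passage
  obtain ⟨x1, h1⟩ := sizes
  refine ⟨max x0 x1, fun x hx y N hW hN hT E hE => ?_⟩
  obtain ⟨n, hn1, hn2, hn3, _, hn4, hn5, hn6, hn7, _⟩ :=
    h0 x (le_trans (le_max_left _ _) hx) y N hW hN hT
  obtain ⟨_, _, _, _, _, s6⟩ := h1 x (le_trans (le_max_right _ _) hx)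
  obtain ⟨hodd, n2, hn2', hE2⟩ := hE
  have hu := hn2'.unique hn1
  subst hu
  have hM2 : syr^[mm x] (syr^[n2 - mm x] N) = syr^[n2] N := by
    rw [← Function.iterate_add_apply]
    congr 1
    omega
  have htr := traj_eq hodd (n2 - mm x)
  set l := vals (n2 - mm x) N with hl
  set M := syr^[n2 - mm x] N with hM
  have hlen : l.length = n2 - mm x := vals_length _ _
  have ht : l.sum ≤ Nat.log 2 (4 * y * 3 ^ n1 x) := by
    have hX := XX_le_of_preOK hn7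
    have hX0 := XX_nonneg l
    have h2 : (2 : ℝ) ^ l.sum * ((M : ℝ) - XX l) = 3 ^ (n2 - mm x) * N := by
      have h3 : (2 : ℝ) ^ l.sum * M = 3 ^ (n2 - mm x) * N + cc l := by exact_mod_cast htr
      rw [mul_sub, h3, cc_eq_XX]
      ring
    have h4 : (1 : ℝ) ≤ (M : ℝ) - XX l := by
      have h5 : (0 : ℝ) ≤ x := Nat.cast_nonneg x
      have h6 : (1 : ℝ) ≤ 4 ^ TT x := one_le_pow₀ (by norm_num)
      nlinarith
    have h7 : (2 : ℝ) ^ l.sum ≤ 3 ^ (n2 - mm x) * N := by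
      rw [← h2]
      exact le_mul_of_one_le_right (by positivity) h4
    have h8 : 2 ^ l.sum ≤ 3 ^ (n2 - mm x) * N := by exact_mod_cast h7
    have h9 : 2 ^ l.sum ≤ 4 * y * 3 ^ n1 x := by
      rw [OO, Finset.mem_filter, Finset.mem_Ioc] at hN
      calc 2 ^ l.sum ≤ 3 ^ (n2 - mm x) * N := h8
        _ ≤ 3 ^ n1 x * (2 * y) :=
          Nat.mul_le_mul (Nat.pow_le_pow_right (by norm_num) (by omega)) hN.1.2
        _ ≤ 4 * y * 3 ^ n1 x := by nlinarith [Nat.zero_le (y * 3 ^ n1 x)]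
    exact Nat.le_log_of_pow_le (by norm_num) h9
  refine ⟨n2 - mm x, ?_, M, ?_, l.sum, ?_, l, ?_, ?_⟩
  · rw [Finset.mem_Ioc]
    omega
  · rw [c2_mem_MM]
    exact ⟨⟨Nat.ceil_le.2 hn4, Nat.le_floor hn5⟩, iter_odd hodd _, hn6, by rw [hM2]; exact hE2⟩
  · rw [Finset.mem_range, tmax]
    omega
  · rw [c2_mem_Lists]
    refine ⟨⟨hlen, rfl, vals_pos hodd _⟩, hn7, ?_⟩
    have h3 : (2 : ℤ) ^ l.sum * M = 3 ^ (n2 - mm x) * N + cc l := by exact_mod_cast htr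
    rw [h3, add_sub_cancel_right]
    exact dvd_mul_right _ _
  · rw [NN, htr, Nat.add_sub_cancel, Nat.mul_div_cancel_left _ (by positivity)]

end Pool.Agent.W_e21d3a_h93
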