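import Pool.Agent.W_e21d3a_h93.C2

set_option autoImplicit false

/-!
# [NC] C3: the sum over triples (row 500, (6.1))
-/

namespace Pool.Agent.W_e21d3a_h93

/-- the index set of the triples -/
private noncomputable def C3_J (x y : ℕ) (E : Set ℕ) :
    Finset (Σ _ : ℕ, Σ _ : ℕ, Σ _ : ℕ, List ℕ) :=
  (Finset.Ioc (mm x) (n1 x)).sigma fun n' => (MM x E).sigma fun M =>
    (Finset.range (tmax x y + 1)).sigma fun t => Lists x n' t M

private def C3_f (p : Σ _ : ℕ, Σ _ : ℕ, Σ _ : ℕ, List ℕ) : ℕ :=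
  NN p.1 p.2.2.1 p.2.1 p.2.2.2

private theorem C3_sum (x y : ℕ) (E : Set ℕ) (f : ℕ → ℝ) :
    ∑ n' ∈ Finset.Ioc (mm x) (n1 x), ∑ M ∈ MM x E, ∑ t ∈ Finset.range (tmax x y + 1),
      ∑ l ∈ Lists x n' t M, f (NN n' t M l) = ∑ p ∈ C3_J x y E, f (C3_f p) := by
  unfold C3_J
  rw [Finset.sum_sigma]
  apply Finset.sum_congr rfl
  intro n' _
  rw [Finset.sum_sigma]
  apply Finset.sum_congr rfl
  intro M _
  rw [Finset.sum_sigma]
  rfl

private theorem C3_mem {x y : ℕ} {E : Set ℕ} {n' M t : ℕ} {l : List ℕ} :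
    (⟨n', M, t, l⟩ : Σ _ : ℕ, Σ _ : ℕ, Σ _ : ℕ, List ℕ) ∈ C3_J x y E ↔
      n' ∈ Finset.Ioc (mm x) (n1 x) ∧ M ∈ MM x E ∧ t ∈ Finset.range (tmax x y + 1) ∧
        l ∈ Lists x n' t M := by
  unfold C3_J
  simp only [Finset.mem_sigma]

private theorem C3_image : ∃ x0 : ℕ, ∀ x ≥ x0, ∀ (y : ℕ) (E : Set ℕ) (f : ℕ → ℝ),
    ∑ n' ∈ Finset.Ioc (mm x) (n1 x), ∑ M ∈ MM x E, ∑ t ∈ Finset.range (tmax x y + 1),
      ∑ l ∈ Lists x n' t M, f (NN n' t M l) = ∑ N ∈ (C3_J x y E).image C3_f, f N := by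
  obtain ⟨x0, hx0⟩ := triple_inj
  refine ⟨x0, fun x hx y E f => ?_⟩
  rw [C3_sum, Finset.sum_image]
  rintro ⟨n', M, t, l⟩ hp ⟨n'', M', t', l'⟩ hp' h
  rw [Finset.mem_coe, C3_mem] at hp hp'
  obtain ⟨h1, h2, -, h3⟩ := hp
  obtain ⟨h1', h2', -, h3'⟩ := hp'
  obtain ⟨e1, e2, e3, e4⟩ := hx0 x hx E n' M t n'' M' t' l l' h1 h2 h3 h1' h2' h3' h
  subst e1 e2 e3 e4
  rfl

/-- number of triples with `N` in a finite set -/
theorem triple_sum_le : ∃ x0 : ℕ, ∀ x ≥ x0, ∀ (y : ℕ) (E : Set ℕ) (f : ℕ → ℝ) (S : Finset ℕ),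
    (∀ N, 0 ≤ f N) → (∀ N, N ∉ S → f N = 0) →
    ∑ n' ∈ Finset.Ioc (mm x) (n1 x), ∑ M ∈ MM x E, ∑ t ∈ Finset.range (tmax x y + 1),
      ∑ l ∈ Lists x n' t M, f (NN n' t M l) ≤ ∑ N ∈ S, f N := by
  obtain ⟨x0, hx0⟩ := C3_image
  refine ⟨x0, fun x hx y E f S hf hS => ?_⟩
  rw [hx0 x hx y E f]
  have h1 : ∑ N ∈ (C3_J x y E).image C3_f, f N =
      ∑ N ∈ ((C3_J x y E).image C3_f).filter (fun N => N ∈ S), f N := by
    symm
    apply Finset.sum_filter_of_ne
    intro N _ hN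
    by_contra hcon
    exact hN (hS N hcon)
  rw [h1]
  apply Finset.sum_le_sum_of_subset_of_nonneg
  · intro N hN
    exact (Finset.mem_filter.1 hN).2
  · intro N _ _
    exact hf N

/-- (6.1) -/
theorem SA_SB : ∃ x0 : ℕ, ∀ x ≥ x0, ∀ y, WW x y → ∀ (b : Bool) (E : Set ℕ),
    SB b x y E ≤ SA b x y E ∧ SA b x y E ≤ SB b x y E + 1 / (lx x) ^ 3 := by
  classical
  obtain ⟨x1, hx1⟩ := triple_sum_le
  obtain ⟨x2, hx2⟩ := triple_spec
  obtain ⟨x3, hx3⟩ := C3_image
  obtain ⟨x4, hx4⟩ := triple_surj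
  obtain ⟨x5, hx5⟩ := card_not_typ
  obtain ⟨x6, hx6⟩ := params
  refine ⟨max (max (max x1 x2) (max x3 x4)) (max x5 x6), fun x hx y hW b E => ?_⟩
  have hxx : x1 ≤ x ∧ x2 ≤ x ∧ x3 ≤ x ∧ x4 ≤ x ∧ x5 ≤ x ∧ x6 ≤ x := by
    simp only [ge_iff_le, max_le_iff] at hx
    tauto
  obtain ⟨g1, g2, g3, g4, g5, g6⟩ := hxx
  have hl := (hx6 x g6).1
  have hy0 : 0 < y := by
    rcases Nat.eq_zero_or_pos y with h | h
    · exfalso
      have h1 : lx y = 0 := by rw [h]; simp [lx]
      have h2 := hW.1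
      linarith
    · exact h
  have hy0r : (0 : ℝ) < y := by exact_mod_cast hy0
  have hw0 : ∀ N, 0 ≤ wN b y N := by
    intro N
    unfold wN
    split_ifs <;> positivity
  have hw1 : ∀ N ∈ OO y, wN b y N ≤ 1 / y := by
    intro N hN
    unfold OO at hN
    rw [Finset.mem_filter, Finset.mem_Ioc] at hN
    unfold wN
    split_ifs
    · exact le_rfl
    · apply one_div_le_one_div_of_le hy0r
      exact_mod_cast hN.1.1.le
  constructor
  · set f : ℕ → ℝ := fun N => if N ∈ OO y ∧ N ∈ PP x E then wN b y N else 0 with hf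
    have h1 : SB b x y E = ∑ n' ∈ Finset.Ioc (mm x) (n1 x), ∑ M ∈ MM x E,
        ∑ t ∈ Finset.range (tmax x y + 1), ∑ l ∈ Lists x n' t M, f (NN n' t M l) := by
      unfold SB
      apply Finset.sum_congr rfl
      intro n' hn'
      apply Finset.sum_congr rfl
      intro M hM
      apply Finset.sum_congr rfl
      intro t _
      apply Finset.sum_congr rfl
      intro l hl
      obtain ⟨-, k1, -, -, k2, k3⟩ := hx2 x g2 E n' M t l hn' hM hl
      have hPP : NN n' t M l ∈ PP x E := ⟨k1, _, k2, k3⟩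
      rw [hf]
      by_cases hO : NN n' t M l ∈ OO y
      · simp only [if_pos hO, if_pos (And.intro hO hPP)]
      · rw [if_neg hO]
        simp only [if_neg (fun h : _ ∧ _ => hO h.1)]
    rw [h1]
    refine (hx1 x g1 y E f ((OO y).filter (fun N => N ∈ PP x E)) ?_ ?_).trans (le_of_eq ?_)
    · intro N
      rw [hf]
      simp only
      split_ifs
      · exact hw0 N
      · exact le_rfl
    · intro N hN
      rw [Finset.mem_filter] at hN
      rw [hf]
      simp only [if_neg hN]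
    · unfold SA
      have hcg : ∀ N ∈ (OO y).filter (fun N => N ∈ PP x E), f N = wN b y N := by
        intro N hN
        rw [Finset.mem_filter] at hN
        rw [hf]
        simp only [if_pos hN]
      rw [Finset.sum_congr rfl hcg]
  · set g : ℕ → ℝ := fun N => if N ∈ OO y then wN b y N else 0 with hg
    have hg0 : ∀ N, 0 ≤ g N := by
      intro N
      rw [hg]
      simp only
      split_ifs
      · exact hw0 N
      · exact le_rfl
    have h1 : SB b x y E = ∑ N ∈ (C3_J x y E).image C3_f, g N := by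
      rw [← hx3 x g3 y E g]
      rfl
    have h2 : SA b x y E = ∑ N ∈ ((OO y).filter (fun N => N ∈ PP x E)).filter (fun N => Typ x N),
          wN b y N +
        ∑ N ∈ ((OO y).filter (fun N => N ∈ PP x E)).filter (fun N => ¬ Typ x N), wN b y N := by
      rw [Finset.sum_filter_add_sum_filter_not]
      unfold SA
      congr!
    have h3 : ∑ N ∈ ((OO y).filter (fun N => N ∈ PP x E)).filter (fun N => Typ x N),
        wN b y N ≤ SB b x y E := by
      rw [h1]
      have h4 : ∑ N ∈ ((OO y).filter (fun N => N ∈ PP x E)).filter (fun N => Typ x N),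
          wN b y N = ∑ N ∈ ((OO y).filter (fun N => N ∈ PP x E)).filter (fun N => Typ x N),
          g N := by
        apply Finset.sum_congr rfl
        intro N hN
        rw [Finset.mem_filter, Finset.mem_filter] at hN
        rw [hg]
        simp only [if_pos hN.1.1]
      rw [h4]
      apply Finset.sum_le_sum_of_subset_of_nonneg
      · intro N hN
        rw [Finset.mem_filter, Finset.mem_filter] at hN
        obtain ⟨n', hn', M, hM, t, ht, l, hl, hN2⟩ := hx4 x g4 y N hW hN.1.1 hN.2 E hN.1.2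
        rw [Finset.mem_image]
        exact ⟨⟨n', M, t, l⟩, C3_mem.2 ⟨hn', hM, ht, hl⟩, hN2⟩
      · intro N _ _
        exact hg0 N
    have h5 : ∑ N ∈ ((OO y).filter (fun N => N ∈ PP x E)).filter (fun N => ¬ Typ x N),
        wN b y N ≤ 1 / (lx x) ^ 3 := by
      have h6 := hx5 x g5 y hW
      have h7 : (((OO y).filter (fun N => N ∈ PP x E)).filter (fun N => ¬ Typ x N)).card ≤
          ((OO y).filter (fun N =>
            ¬ (∀ k ≤ n1 x, ss k N ≤ 2 * k + TT x ∧ 2 * k ≤ ss k N + TT x))).card := by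
        apply Finset.card_le_card
        intro N hN
        rw [Finset.mem_filter, Finset.mem_filter] at hN
        rw [Finset.mem_filter]
        exact ⟨hN.1.1, hN.2⟩
      have h8 : ∑ N ∈ ((OO y).filter (fun N => N ∈ PP x E)).filter (fun N => ¬ Typ x N),
          wN b y N ≤ ((((OO y).filter (fun N => N ∈ PP x E)).filter
            (fun N => ¬ Typ x N)).card : ℝ) * (1 / y) := by
        rw [← nsmul_eq_mul]
        apply Finset.sum_le_card_nsmul
        intro N hN
        rw [Finset.mem_filter, Finset.mem_filter] at hN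
        exact hw1 N hN.1.1
      have h9 : ((((OO y).filter (fun N => N ∈ PP x E)).filter
            (fun N => ¬ Typ x N)).card : ℝ) ≤ y / (lx x) ^ 3 :=
        le_trans (by exact_mod_cast h7) h6
      refine h8.trans ((mul_le_mul_of_nonneg_right h9 (by positivity)).trans (le_of_eq ?_))
      field_simp
    rw [h2]
    linarith

end Pool.Agent.W_e21d3a_h93
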