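import Pool.Agent.W_e21d3a_h93.C3

set_option autoImplicit false

/-!
# [NC] C4: from N to N* (row 500, (6.2))
-/

namespace Pool.Agent.W_e21d3a_h93

theorem C4_ty_le {x y n' M : ℕ} (hn : n' ≤ n1 x) : ty y n' M ≤ tmax x y := by
  unfold ty tmax
  apply Nat.succ_le_succ
  apply Nat.log_mono_right
  calc y * 3 ^ n' / M ≤ y * 3 ^ n' := Nat.div_le_self _ _
    _ ≤ y * 3 ^ n1 x := Nat.mul_le_mul_left _ (Nat.pow_le_pow_right (by norm_num) hn)
    _ ≤ 4 * y * 3 ^ n1 x := by
        rw [Nat.mul_assoc]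
        exact Nat.le_mul_of_pos_left _ (by norm_num)

theorem C4_ty_iff {y n' M t : ℕ} (hM : 1 ≤ M) (h : M ≤ y * 3 ^ n') :
    t = ty y n' M ↔ (y * 3 ^ n' < 2 ^ t * M ∧ 2 ^ t * M ≤ 2 * y * 3 ^ n') := by
  have hA : y * 3 ^ n' / M ≠ 0 := by
    rw [Nat.div_ne_zero_iff]
    exact ⟨by omega, h⟩
  unfold ty
  constructor
  · intro ht
    have h1 := Nat.pow_log_le_self 2 hA
    have h2 := Nat.lt_pow_succ_log_self (b := 2) (by norm_num) (y * 3 ^ n' / M)
    rw [Nat.div_lt_iff_lt_mul (by omega)] at h2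
    rw [Nat.le_div_iff_mul_le (by omega)] at h1
    subst ht
    refine ⟨h2, ?_⟩
    rw [pow_succ]
    nlinarith
  · rintro ⟨h1, h2⟩
    have ht : t ≠ 0 := by
      intro h0
      subst h0
      rw [pow_zero, one_mul] at h1
      omega
    obtain ⟨s, rfl⟩ : ∃ s, t = s + 1 := ⟨t - 1, by omega⟩
    have h3 : Nat.log 2 (y * 3 ^ n' / M) = s := by
      rw [Nat.log_eq_iff (Or.inr ⟨by norm_num, hA⟩)]
      constructor
      · rw [Nat.le_div_iff_mul_le (by omega)]
        rw [pow_succ] at h2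
        nlinarith
      · rw [Nat.div_lt_iff_lt_mul (by omega)]
        exact h1
    omega

theorem C4_count {a : ℝ} {b : ℕ} (ha : 0 ≤ a) (hab : a ≤ b) :
    (((Finset.range (b + 1)).filter (fun N : ℕ => a < (N : ℝ))).card : ℝ) ≤ b - a + 1 := by
  have h1 : (Finset.range (b + 1)).filter (fun N : ℕ => a < (N : ℝ)) ⊆ Finset.Ioc ⌊a⌋₊ b := by
    intro N hN
    rw [Finset.mem_filter, Finset.mem_range] at hN
    rw [Finset.mem_Ioc]
    exact ⟨(Nat.floor_lt ha).2 hN.2, by omega⟩
  have h2 := Finset.card_le_card h1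
  rw [Nat.card_Ioc] at h2
  have h3 : ⌊a⌋₊ ≤ b := Nat.floor_le_of_le hab
  have h4 : ((b - ⌊a⌋₊ : ℕ) : ℝ) = b - (⌊a⌋₊ : ℝ) := by
    rw [Nat.cast_sub h3]
  have h5 : a < (⌊a⌋₊ : ℝ) + 1 := Nat.lt_floor_add_one a
  calc (((Finset.range (b + 1)).filter (fun N : ℕ => a < (N : ℝ))).card : ℝ)
      ≤ ((b - ⌊a⌋₊ : ℕ) : ℝ) := by exact_mod_cast h2
    _ = b - (⌊a⌋₊ : ℝ) := h4
    _ ≤ b - a + 1 := by linarith

/-- the error function -/
noncomputable def C4F (y : ℕ) (η : ℝ) (N : ℕ) : ℝ :=
  (if y < N ∧ N ≤ 2 * y then η / y else 0) +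
  (if 2 * (y : ℝ) * (1 - η) < N ∧ N ≤ 2 * y then 1 / (y : ℝ) else 0) +
  (if (y : ℝ) * (1 - η) < N ∧ N ≤ y then 1 / (y : ℝ) else 0)

theorem C4F_nonneg {y : ℕ} {η : ℝ} (hη : 0 ≤ η) (N : ℕ) : 0 ≤ C4F y η N := by
  unfold C4F
  have h1 : 0 ≤ (if y < N ∧ N ≤ 2 * y then η / (y : ℝ) else 0) := by
    split_ifs <;> first | positivity | exact le_rfl
  have h2 : 0 ≤ (if 2 * (y : ℝ) * (1 - η) < N ∧ N ≤ 2 * y then 1 / (y : ℝ) else 0) := by
    split_ifs <;> first | positivity | exact le_rfl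
  have h3 : 0 ≤ (if (y : ℝ) * (1 - η) < N ∧ N ≤ y then 1 / (y : ℝ) else 0) := by
    split_ifs <;> first | positivity | exact le_rfl
  linarith

theorem C4F_zero {y : ℕ} {η : ℝ} (N : ℕ) (hN : N ∉ Finset.range (2 * y + 1)) :
    C4F y η N = 0 := by
  rw [Finset.mem_range] at hN
  unfold C4F
  rw [if_neg (by omega), if_neg (by omega), if_neg (by omega)]
  ring

theorem C4F_sum {y : ℕ} {η : ℝ} (hy : 1 ≤ y) (hη : 0 ≤ η) (hη1 : η ≤ 1) :
    ∑ N ∈ Finset.range (2 * y + 1), C4F y η N ≤ 4 * η + 2 / y := by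
  have hy0 : (0 : ℝ) < y := by exact_mod_cast hy
  unfold C4F
  rw [Finset.sum_add_distrib, Finset.sum_add_distrib]
  have h1 : ∑ N ∈ Finset.range (2 * y + 1), (if y < N ∧ N ≤ 2 * y then η / (y : ℝ) else 0)
      ≤ η := by
    rw [← Finset.sum_filter, Finset.sum_const, nsmul_eq_mul]
    have h2 : (Finset.range (2 * y + 1)).filter (fun N => y < N ∧ N ≤ 2 * y) ⊆
        Finset.Ioc y (2 * y) := by
      intro N hN
      rw [Finset.mem_filter] at hN
      exact Finset.mem_Ioc.2 hN.2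
    have h3 := Finset.card_le_card h2
    rw [Nat.card_Ioc] at h3
    have h4 : (((Finset.range (2 * y + 1)).filter (fun N => y < N ∧ N ≤ 2 * y)).card : ℝ) ≤ y := by
      have : ((Finset.range (2 * y + 1)).filter (fun N => y < N ∧ N ≤ 2 * y)).card ≤ y := by
        omega
      exact_mod_cast this
    calc _ ≤ (y : ℝ) * (η / y) := mul_le_mul_of_nonneg_right h4 (by positivity)
      _ = η := by field_simp
  have h2 : ∑ N ∈ Finset.range (2 * y + 1),
      (if 2 * (y : ℝ) * (1 - η) < N ∧ N ≤ 2 * y then 1 / (y : ℝ) else 0) ≤ 2 * η + 1 / y := by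
    rw [← Finset.sum_filter, Finset.sum_const, nsmul_eq_mul]
    have h3 : (Finset.range (2 * y + 1)).filter
        (fun N : ℕ => 2 * (y : ℝ) * (1 - η) < N ∧ N ≤ 2 * y) ⊆
        (Finset.range (2 * y + 1)).filter (fun N : ℕ => 2 * (y : ℝ) * (1 - η) < (N : ℝ)) := by
      intro N hN
      rw [Finset.mem_filter] at hN ⊢
      exact ⟨hN.1, hN.2.1⟩
    have h4 := Finset.card_le_card h3
    have h5 := C4_count (a := 2 * (y : ℝ) * (1 - η)) (b := 2 * y)
      (by have : 0 ≤ 1 - η := by linarith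
          positivity) (by push_cast; nlinarith)
    have h6 : (((Finset.range (2 * y + 1)).filter
        (fun N : ℕ => 2 * (y : ℝ) * (1 - η) < N ∧ N ≤ 2 * y)).card : ℝ) ≤ 2 * y * η + 1 := by
      have h7 : (((Finset.range (2 * y + 1)).filter
        (fun N : ℕ => 2 * (y : ℝ) * (1 - η) < N ∧ N ≤ 2 * y)).card : ℝ) ≤
        (((Finset.range (2 * y + 1)).filter
          (fun N : ℕ => 2 * (y : ℝ) * (1 - η) < (N : ℝ))).card : ℝ) := by exact_mod_cast h4
      push_cast at h5
      linarith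
    calc _ ≤ (2 * y * η + 1) * (1 / (y : ℝ)) := mul_le_mul_of_nonneg_right h6 (by positivity)
      _ = 2 * η + 1 / y := by field_simp
  have h3 : ∑ N ∈ Finset.range (2 * y + 1),
      (if (y : ℝ) * (1 - η) < N ∧ N ≤ y then 1 / (y : ℝ) else 0) ≤ η + 1 / y := by
    rw [← Finset.sum_filter, Finset.sum_const, nsmul_eq_mul]
    have h3 : (Finset.range (2 * y + 1)).filter
        (fun N : ℕ => (y : ℝ) * (1 - η) < N ∧ N ≤ y) ⊆
        (Finset.range (y + 1)).filter (fun N : ℕ => (y : ℝ) * (1 - η) < (N : ℝ)) := by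
      intro N hN
      rw [Finset.mem_filter] at hN ⊢
      exact ⟨Finset.mem_range.2 (by omega), hN.2.1⟩
    have h4 := Finset.card_le_card h3
    have h5 := C4_count (a := (y : ℝ) * (1 - η)) (b := y)
      (by have : 0 ≤ 1 - η := by linarith
          positivity) (by nlinarith)
    have h6 : (((Finset.range (2 * y + 1)).filter
        (fun N : ℕ => (y : ℝ) * (1 - η) < N ∧ N ≤ y)).card : ℝ) ≤ y * η + 1 := by
      have h7 : (((Finset.range (2 * y + 1)).filter
        (fun N : ℕ => (y : ℝ) * (1 - η) < N ∧ N ≤ y)).card : ℝ) ≤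
        (((Finset.range (y + 1)).filter
          (fun N : ℕ => (y : ℝ) * (1 - η) < (N : ℝ))).card : ℝ) := by exact_mod_cast h4
      linarith
    calc _ ≤ (y * η + 1) * (1 / (y : ℝ)) := mul_le_mul_of_nonneg_right h6 (by positivity)
      _ = η + 1 / y := by field_simp
  have h4 : (2 : ℝ) / y = 1 / y + 1 / y := by ring
  rw [h4]
  linarith

/-- the pointwise comparison -/
theorem C4_point {x y n' M t : ℕ} {l : List ℕ} (b : Bool) {N : ℕ} (hy : 1 ≤ y)
    (hM1 : 1 ≤ M) (hxm : 0 < xm x) (hM : xm x ≤ M) (hMy : M ≤ y * 3 ^ n')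
    (hN : 2 ^ t * M = 3 ^ n' * N + cc l) (hodd : N % 2 = 1) (hsum : l.sum = t)
    (hpre : PreOK (TT x) l) (hη1 : (4 : ℝ) ^ TT x / xm x ≤ 1) :
    |(if N ∈ OO y then wN b y N else 0) -
      (if t = ty y n' M then gb b (ry y n' M) / M * 3 ^ n' / 2 ^ ty y n' M else 0)|
      ≤ C4F y ((4 : ℝ) ^ TT x / xm x) N := by
  set η : ℝ := (4 : ℝ) ^ TT x / xm x with hη
  have hη0 : 0 ≤ η := by positivity
  have hy0 : (0 : ℝ) < y := by exact_mod_cast hy
  have hM0 : (0 : ℝ) < M := by exact_mod_cast hM1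
  have h3 : (0 : ℝ) < 3 ^ n' := by positivity
  have h2 : (0 : ℝ) < 2 ^ t := by positivity
  -- the real number N*
  set S : ℝ := 2 ^ t * M / 3 ^ n' with hS
  have hS0 : 0 < S := by positivity
  have hNR : (2 : ℝ) ^ t * M = 3 ^ n' * N + cc l := by exact_mod_cast hN
  have hcc : (cc l : ℝ) ≤ 2 ^ t * 4 ^ TT x := by
    rw [cc_eq_XX, hsum]
    exact mul_le_mul_of_nonneg_left (XX_le_of_preOK hpre) h2.le
  have hcc0 : (0 : ℝ) ≤ cc l := by positivity
  have hSN : (N : ℝ) ≤ S := by
    rw [hS, le_div_iff₀ h3]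
    linarith
  have hNS : S - N ≤ η * S := by
    have e1 : S - N = cc l / 3 ^ n' := by
      rw [hS]
      field_simp
      linarith
    rw [e1]
    calc (cc l : ℝ) / 3 ^ n' ≤ (2 ^ t * 4 ^ TT x) / 3 ^ n' :=
          div_le_div_of_nonneg_right hcc h3.le
      _ = (4 ^ TT x / (M : ℝ)) * S := by
          rw [hS]
          field_simp
      _ ≤ η * S := by
          apply mul_le_mul_of_nonneg_right _ hS0.le
          rw [hη]
          exact div_le_div_of_nonneg_left (by positivity) hxm hM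
  have hNS' : S * (1 - η) ≤ N := by linarith
  -- membership
  have hOO : N ∈ OO y ↔ (y < N ∧ N ≤ 2 * y) := by
    unfold OO
    rw [Finset.mem_filter, Finset.mem_Ioc]
    exact ⟨fun h => h.1, fun h => ⟨h, hodd⟩⟩
  have hty : t = ty y n' M ↔ ((y : ℝ) < S ∧ S ≤ 2 * y) := by
    rw [C4_ty_iff hM1 hMy, hS, lt_div_iff₀ h3, div_le_iff₀ h3]
    constructor
    · rintro ⟨h4, h5⟩
      exact ⟨by exact_mod_cast h4, by exact_mod_cast h5⟩
    · rintro ⟨h4, h5⟩
      exact ⟨by exact_mod_cast h4, by exact_mod_cast h5⟩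
  have hval : t = ty y n' M →
      gb b (ry y n' M) / M * 3 ^ n' / 2 ^ ty y n' M = if b then 1 / (y : ℝ) else 1 / S := by
    intro h4
    unfold gb ry
    rw [← h4]
    cases b
    · simp only [Bool.false_eq_true, if_false]
      rw [hS]
      field_simp
    · simp only [if_true]
      field_simp
  have hF := C4F_nonneg (y := y) hη0 N
  have hNy : (y : ℝ) < N → (N : ℝ) ≠ 0 := fun h => by linarith
  by_cases c1 : y < N ∧ N ≤ 2 * y
  · have c1a : (y : ℝ) < N := by exact_mod_cast c1.1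
    have c1b : (N : ℝ) ≤ 2 * y := by exact_mod_cast c1.2
    rw [if_pos (hOO.2 c1)]
    by_cases c2 : t = ty y n' M
    · have c3 := hty.1 c2
      rw [if_pos c2, hval c2]
      have hF1 : η / y ≤ C4F y η N := by
        unfold C4F
        rw [if_pos c1]
        have e2 : 0 ≤ (if 2 * (y : ℝ) * (1 - η) < N ∧ N ≤ 2 * y then 1 / (y : ℝ) else 0) := by
          split_ifs <;> first | positivity | exact le_rfl
        have e3 : 0 ≤ (if (y : ℝ) * (1 - η) < N ∧ N ≤ y then 1 / (y : ℝ) else 0) := by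
          split_ifs <;> first | positivity | exact le_rfl
        linarith
      refine le_trans ?_ hF1
      unfold wN
      cases b
      · simp only [Bool.false_eq_true, if_false]
        have hN0 : (0 : ℝ) < N := by linarith
        have e1 : 1 / (N : ℝ) - 1 / S = (S - N) / (N * S) := by
          field_simp
        rw [e1, abs_of_nonneg (div_nonneg (by linarith) (by positivity)),
          div_le_div_iff₀ (by positivity) hy0]
        calc (S - N) * y ≤ (η * S) * y := mul_le_mul_of_nonneg_right hNS hy0.le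
          _ ≤ (η * S) * N := mul_le_mul_of_nonneg_left c1a.le (by positivity)
          _ = η * (N * S) := by ring
      · simp only [if_true]
        rw [sub_self, abs_zero]
        positivity
    · rw [if_neg c2, sub_zero]
      have c3 : ¬ ((y : ℝ) < S ∧ S ≤ 2 * y) := fun h => c2 (hty.2 h)
      have c4 : 2 * (y : ℝ) < S := by
        by_contra h
        exact c3 ⟨by linarith, not_lt.1 h⟩
      have c5 : 2 * (y : ℝ) * (1 - η) < N ∨ 1 - η = 0 := by
        rcases (sub_nonneg.2 hη1).lt_or_eq with h | h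
        · left
          calc 2 * (y : ℝ) * (1 - η) < S * (1 - η) := mul_lt_mul_of_pos_right c4 h
            _ ≤ N := hNS'
        · right
          exact h.symm
      have c6 : 2 * (y : ℝ) * (1 - η) < N := by
        rcases c5 with h | h
        · exact h
        · rw [h, mul_zero]
          linarith
      have hF1 : 1 / (y : ℝ) ≤ C4F y η N := by
        unfold C4F
        rw [if_pos c1, if_pos ⟨c6, c1.2⟩]
        have e2 : 0 ≤ η / (y : ℝ) := by positivity
        have e3 : 0 ≤ (if (y : ℝ) * (1 - η) < N ∧ N ≤ y then 1 / (y : ℝ) else 0) := by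
          split_ifs <;> first | positivity | exact le_rfl
        linarith
      refine le_trans ?_ hF1
      unfold wN
      cases b
      · simp only [Bool.false_eq_true, if_false]
        rw [abs_of_nonneg (by positivity)]
        exact one_div_le_one_div_of_le hy0 c1a.le
      · simp only [if_true]
        rw [abs_of_nonneg (by positivity)]
  · rw [if_neg (fun h => c1 (hOO.1 h)), zero_sub, abs_neg]
    by_cases c2 : t = ty y n' M
    · have c3 := hty.1 c2
      rw [if_pos c2, hval c2]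
      have c4 : N ≤ y := by
        by_contra h
        apply c1
        refine ⟨not_le.1 h, ?_⟩
        have : (N : ℝ) ≤ 2 * y := by linarith
        exact_mod_cast this
      have c6 : (y : ℝ) * (1 - η) < N ∨ 1 - η = 0 := by
        rcases (sub_nonneg.2 hη1).lt_or_eq with h | h
        · left
          calc (y : ℝ) * (1 - η) < S * (1 - η) := mul_lt_mul_of_pos_right c3.1 h
            _ ≤ N := hNS'
        · right
          exact h.symm
      have c7 : (y : ℝ) * (1 - η) < N := by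
        rcases c6 with h | h
        · exact h
        · rw [h, mul_zero]
          have : 0 < N := by omega
          exact_mod_cast this
      have hF1 : 1 / (y : ℝ) ≤ C4F y η N := by
        unfold C4F
        rw [if_pos (⟨c7, c4⟩ : (y : ℝ) * (1 - η) < N ∧ N ≤ y)]
        have e2 : 0 ≤ (if y < N ∧ N ≤ 2 * y then η / (y : ℝ) else 0) := by
          split_ifs <;> first | positivity | exact le_rfl
        have e3 : 0 ≤ (if 2 * (y : ℝ) * (1 - η) < N ∧ N ≤ 2 * y then 1 / (y : ℝ) else 0) := by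
          split_ifs <;> first | positivity | exact le_rfl
        linarith
      refine le_trans ?_ hF1
      cases b
      · simp only [Bool.false_eq_true, if_false]
        rw [abs_of_nonneg (by positivity)]
        exact one_div_le_one_div_of_le hy0 c3.1.le
      · simp only [if_true]
        rw [abs_of_nonneg (by positivity)]
    · rw [if_neg c2, abs_zero]
      exact hF

/-- (6.2): `0 ≤ N* - N ≤ η N*`, `η = 4^T/x₋`; boundary effects `≤ 7η + 4/y` -/
theorem SB_SC : ∃ x0 : ℕ, ∀ x ≥ x0, ∀ y, WW x y → ∀ (b : Bool) (E : Set ℕ),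
    |SB b x y E - SC b x y E| ≤ 1 / (lx x) ^ 3 := by
  classical
  obtain ⟨a1, h1⟩ := params
  obtain ⟨a2, h2⟩ := sizes
  obtain ⟨a3, h3⟩ := triple_spec
  obtain ⟨a4, h4⟩ := triple_sum_le
  refine ⟨a1 + a2 + a3 + a4 + 1, fun x hx y hw b E => ?_⟩
  obtain ⟨p1, -⟩ := h1 x (by omega)
  obtain ⟨-, s2, s3, s4, s5, -⟩ := h2 x (by omega)
  have t3 := h3 x (by omega)
  have t4 := h4 x (by omega)
  have hx1 : 1 ≤ x := by omega
  have hx0 : (0 : ℝ) < x := by exact_mod_cast hx1
  have hl0 : (0 : ℝ) < lx x := by linarith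
  have hexp : (x : ℝ) = Real.exp (lx x) := by
    unfold lx
    rw [Real.exp_log hx0]
  have hxm : 0 < xm x := lt_of_lt_of_le hx0 s3
  -- y is large
  have hy1 : 1 ≤ y := by
    rcases Nat.eq_zero_or_pos y with h | h
    · exfalso
      have h5 := hw.1
      rw [h] at h5
      unfold lx at h5 hl0
      simp only [Nat.cast_zero, Real.log_zero] at h5
      nlinarith
    · exact h
  have hy0 : (0 : ℝ) < y := by exact_mod_cast hy1
  have hyexp : (y : ℝ) = Real.exp (lx y) := by
    unfold lx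
    rw [Real.exp_log hy0]
  have hxy : (x : ℝ) ≤ y := by
    rw [hexp, hyexp, Real.exp_le_exp]
    have := hw.1
    linarith
  have hxpy : xp x ≤ y := by
    refine s5.trans ?_
    rw [hyexp, Real.rpow_def_of_pos hx0, Real.exp_le_exp]
    have h5 := hw.1
    unfold lx at h5 hl0 ⊢
    linarith
  set η : ℝ := (4 : ℝ) ^ TT x / xm x with hη
  have hη0 : 0 ≤ η := by positivity
  have hηe : η ≤ Real.exp (-(3 / 4 * lx x)) := by
    rw [hη, div_le_iff₀ hxm]
    calc (4 : ℝ) ^ TT x ≤ (x : ℝ) ^ ((1 : ℝ) / 4) := s2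
      _ = Real.exp (-(3 / 4 * lx x)) * x := by
          rw [Real.rpow_def_of_pos hx0]
          conv_rhs => rw [hexp]
          rw [← Real.exp_add]
          congr 1
          unfold lx
          ring
      _ ≤ Real.exp (-(3 / 4 * lx x)) * xm x :=
          mul_le_mul_of_nonneg_left s3 (Real.exp_pos _).le
  have hye : 1 / (y : ℝ) ≤ Real.exp (-(3 / 4 * lx x)) := by
    calc 1 / (y : ℝ) ≤ 1 / x := one_div_le_one_div_of_le hx0 hxy
      _ = Real.exp (-(lx x)) := by
          rw [Real.exp_neg, ← hexp, one_div]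
      _ ≤ Real.exp (-(3 / 4 * lx x)) := by
          rw [Real.exp_le_exp]
          linarith
  have hsmall : 6 * Real.exp (-(3 / 4 * lx x)) ≤ 1 / (lx x) ^ 3 := by
    have h5 := Real.pow_div_factorial_le_exp (3 / 4 * lx x) (by positivity) 4
    rw [Real.exp_neg, ← div_eq_mul_inv, div_le_div_iff₀ (Real.exp_pos _) (by positivity)]
    have h6 : ((Nat.factorial 4 : ℕ) : ℝ) = 24 := by norm_num [Nat.factorial]
    rw [h6] at h5
    have h7 : 6 * (lx x) ^ 3 ≤ (3 / 4 * lx x) ^ 4 / 24 := by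
      have h8 : (3 / 4 * lx x) ^ 4 / 24 = (81 / 6144) * lx x * (lx x) ^ 3 := by ring
      rw [h8]
      apply mul_le_mul_of_nonneg_right _ (by positivity)
      linarith
    linarith
  have hη1 : η ≤ 1 := by
    refine hηe.trans ?_
    rw [Real.exp_le_one_iff]
    linarith
  -- rewriting SC
  have hSC : SC b x y E = ∑ n' ∈ Finset.Ioc (mm x) (n1 x), ∑ M ∈ MM x E,
      ∑ t ∈ Finset.range (tmax x y + 1), ∑ l ∈ Lists x n' t M,
        if t = ty y n' M then gb b (ry y n' M) / M * 3 ^ n' / 2 ^ ty y n' M else 0 := by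
    unfold SC
    refine Finset.sum_congr rfl fun n' hn' => Finset.sum_congr rfl fun M hM => ?_
    rw [Finset.sum_eq_single (ty y n' M)]
    · simp only [if_true]
      rw [Finset.sum_const, nsmul_eq_mul]
      ring
    · intro t _ ht
      simp only [if_neg ht, Finset.sum_const_zero]
    · intro h
      exfalso
      apply h
      rw [Finset.mem_range]
      have := C4_ty_le (x := x) (y := y) (n' := n') (M := M) (Finset.mem_Ioc.1 hn').2
      omega
  have hdiff : SB b x y E - SC b x y E = ∑ n' ∈ Finset.Ioc (mm x) (n1 x), ∑ M ∈ MM x E,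
      ∑ t ∈ Finset.range (tmax x y + 1), ∑ l ∈ Lists x n' t M,
        ((if NN n' t M l ∈ OO y then wN b y (NN n' t M l) else 0) -
        (if t = ty y n' M then gb b (ry y n' M) / M * 3 ^ n' / 2 ^ ty y n' M else 0)) := by
    rw [hSC]
    unfold SB
    simp only [Finset.sum_sub_distrib]
  have hbound : |SB b x y E - SC b x y E| ≤ ∑ n' ∈ Finset.Ioc (mm x) (n1 x), ∑ M ∈ MM x E,
      ∑ t ∈ Finset.range (tmax x y + 1), ∑ l ∈ Lists x n' t M, C4F y η (NN n' t M l) := by
    rw [hdiff]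
    refine (Finset.abs_sum_le_sum_abs _ _).trans (Finset.sum_le_sum fun n' hn' => ?_)
    refine (Finset.abs_sum_le_sum_abs _ _).trans (Finset.sum_le_sum fun M hM => ?_)
    refine (Finset.abs_sum_le_sum_abs _ _).trans (Finset.sum_le_sum fun t _ => ?_)
    refine (Finset.abs_sum_le_sum_abs _ _).trans (Finset.sum_le_sum fun l hl => ?_)
    obtain ⟨e1, e2, -⟩ := t3 E n' M t l hn' hM hl
    have hM' := hM
    unfold MM at hM'
    rw [Finset.mem_filter, Finset.mem_Icc] at hM'
    have hMxm : xm x ≤ M := Nat.ceil_le.1 hM'.1.1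
    have hM0 : (0 : ℝ) < M := lt_of_lt_of_le hxm hMxm
    have hM1 : 1 ≤ M := by exact_mod_cast hM0
    have hxp0 : 0 ≤ xp x := hxm.le.trans s4
    have hMxp : (M : ℝ) ≤ xp x := (Nat.le_floor_iff hxp0).1 hM'.1.2
    have hMy : M ≤ y := by exact_mod_cast hMxp.trans hxpy
    have hMy' : M ≤ y * 3 ^ n' := hMy.trans (Nat.le_mul_of_pos_right _ (by positivity))
    have hl' := hl
    unfold Lists at hl'
    rw [Finset.mem_filter, mem_comps] at hl'
    exact C4_point b hy1 hM1 hxm hMxm hMy' e1 e2 hl'.1.2.1 hl'.2.1 hη1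
  have hfin := t4 y E (C4F y η) (Finset.range (2 * y + 1)) (C4F_nonneg hη0) C4F_zero
  have hsum := C4F_sum (y := y) hy1 hη0 hη1
  have h5 : (2 : ℝ) / y = 2 * (1 / y) := by ring
  rw [h5] at hsum
  calc |SB b x y E - SC b x y E| ≤ 4 * η + 2 * (1 / y) := hbound.trans (hfin.trans hsum)
    _ ≤ 6 * Real.exp (-(3 / 4 * lx x)) := by linarith
    _ ≤ 1 / (lx x) ^ 3 := hsmall

end Pool.Agent.W_e21d3a_h93
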