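import Pool.Agent.W_e21d3a_h93.C1
import Pool.Agent.W_e21d3a_h93.P2b

set_option autoImplicit false

/-!
# [NC] C5: dropping the condition on the partial sums (row 500, (6.3))
-/

namespace Pool.Agent.W_e21d3a_h93

/-- `1 < r ≤ 2` -/
theorem ry_mem {y n' M : ℕ} (hM : 1 ≤ M) (h : M ≤ y * 3 ^ n') :
    1 < ry y n' M ∧ ry y n' M ≤ 2 := by
  have hy : 0 < y := by
    rcases Nat.eq_zero_or_pos y with h0 | h0
    · subst h0; rw [Nat.zero_mul] at h; omega
    · exact h0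
  have hQ : y * 3 ^ n' / M ≠ 0 := by
    have := Nat.div_pos h hM
    omega
  have hlo : 2 ^ Nat.log 2 (y * 3 ^ n' / M) ≤ y * 3 ^ n' / M := Nat.pow_log_le_self 2 hQ
  have hhi : y * 3 ^ n' / M < 2 ^ (Nat.log 2 (y * 3 ^ n' / M) + 1) :=
    Nat.lt_pow_succ_log_self (by norm_num) _
  have hR : (0 : ℝ) < 3 ^ n' * y := by positivity
  unfold ry ty
  constructor
  · rw [lt_div_iff₀ hR, one_mul]
    have h1 : y * 3 ^ n' < 2 ^ (Nat.log 2 (y * 3 ^ n' / M) + 1) * M :=
      (Nat.div_lt_iff_lt_mul hM).mp hhi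
    have h2 : ((y * 3 ^ n' : ℕ) : ℝ) < ((2 ^ (Nat.log 2 (y * 3 ^ n' / M) + 1) * M : ℕ) : ℝ) := by
      exact_mod_cast h1
    push_cast at h2
    linarith
  · rw [div_le_iff₀ hR]
    have h1 : 2 ^ Nat.log 2 (y * 3 ^ n' / M) * M ≤ y * 3 ^ n' :=
      (Nat.le_div_iff_mul_le hM).mp hlo
    have h2 : ((2 ^ Nat.log 2 (y * 3 ^ n' / M) * M : ℕ) : ℝ) ≤ ((y * 3 ^ n' : ℕ) : ℝ) := by
      exact_mod_cast h1
    push_cast at h2
    rw [pow_succ]
    linarith

theorem ty_le {x y n' M : ℕ} (hM : 1 ≤ M) (hn : n' ≤ n1 x) : ty y n' M ≤ tmax x y := by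
  unfold ty tmax
  apply Nat.add_le_add_right
  apply Nat.log_mono_right
  have h1 : y * 3 ^ n' / M ≤ y * 3 ^ n' := Nat.div_le_self _ _
  have h2 : y * 3 ^ n' ≤ y * 3 ^ n1 x :=
    Nat.mul_le_mul_left y (Nat.pow_le_pow_right (by norm_num) hn)
  have h3 : 4 * y * 3 ^ n1 x = 4 * (y * 3 ^ n1 x) := by ring
  omega

open Classical in
/-- the weight of the lists which violate the condition on the partial sums -/
noncomputable def C5psi (x n' τ : ℕ) (Y : ℤ) : ℝ :=
  ∑ t ∈ Finset.range (τ + 1), (((comps n' t).filter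
    (fun l => ¬ PreOK (TT x) l ∧ (3 : ℤ) ^ n' ∣ 2 ^ t * Y - (cc l : ℤ))).card : ℝ) / 2 ^ t

theorem C5psi_nonneg (x n' τ : ℕ) (Y : ℤ) : 0 ≤ C5psi x n' τ Y := by
  unfold C5psi
  positivity

theorem C5psi_periodic (x n' τ : ℕ) (Y z : ℤ) :
    C5psi x n' τ (Y + 3 ^ n' * z) = C5psi x n' τ Y := by
  unfold C5psi
  refine Finset.sum_congr rfl fun t _ => ?_
  congr 2
  congr 1
  ext l
  simp only [Finset.mem_filter, and_congr_right_iff]
  intro _ _
  have h : (2 : ℤ) ^ t * (Y + 3 ^ n' * z) - (cc l : ℤ)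
      = (2 ^ t * Y - (cc l : ℤ)) + 3 ^ n' * (2 ^ t * z) := by ring
  rw [h]
  exact (Int.dvd_add_left (Dvd.intro _ rfl))

theorem C5psi_sum (x n' τ : ℕ) :
    ∑ Y ∈ Finset.range (3 ^ n'), C5psi x n' τ (Y : ℤ)
      = Pr n' τ (fun l => ¬ PreOK (TT x) l) := by
  classical
  unfold C5psi Pr
  rw [Finset.sum_comm]
  refine Finset.sum_congr rfl fun t _ => ?_
  rw [← Finset.sum_div]
  congr 1
  have h : ∀ Y : ℕ, ((((comps n' t).filter
      (fun l => ¬ PreOK (TT x) l ∧ (3 : ℤ) ^ n' ∣ 2 ^ t * (Y : ℤ) - (cc l : ℤ))).card : ℕ) : ℝ)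
      = ∑ l ∈ (comps n' t).filter (fun l => ¬ PreOK (TT x) l),
        if (3 : ℤ) ^ n' ∣ 2 ^ t * (Y : ℤ) - (cc l : ℤ) then (1 : ℝ) else 0 := by
    intro Y
    rw [Finset.sum_boole, Finset.filter_filter]
  rw [Finset.sum_congr rfl (fun Y _ => h Y), Finset.sum_comm]
  rw [Finset.sum_congr rfl (fun l _ => by rw [Finset.sum_boole, M1a_unique n' t (cc l : ℤ)])]
  rw [Finset.sum_const, nsmul_eq_mul]
  norm_num
  congr

/-- comparison of one pair of terms -/
theorem C5_term (b : Bool) {x y n' M : ℕ} (hM : 1 ≤ M) (hMy : M ≤ y * 3 ^ n') (hn : n' ≤ n1 x) :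
    |gb b (ry y n' M) / M * 3 ^ n' * (((Lists x n' (ty y n' M) M).card : ℝ) / 2 ^ ty y n' M) -
      gb b (ry y n' M) / M * 3 ^ n' * phi n' n' (ty y n' M) M|
      ≤ 2 * 3 ^ n' * (C5psi x n' (tmax x y) M / M) := by
  classical
  have hr := ry_mem hM hMy
  have hMR : (0 : ℝ) < M := by exact_mod_cast hM
  have hg0 : 0 ≤ gb b (ry y n' M) := by
    unfold gb; split_ifs <;> linarith
  have hg2 : gb b (ry y n' M) ≤ 2 := by
    unfold gb; split_ifs <;> linarith
  have hcard : ((comps n' (ty y n' M)).filter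
        (fun l => (3 : ℤ) ^ n' ∣ 2 ^ (ty y n' M) * (M : ℤ) - (cc l : ℤ))).card
      = (Lists x n' (ty y n' M) M).card + ((comps n' (ty y n' M)).filter
        (fun l => ¬ PreOK (TT x) l ∧
          (3 : ℤ) ^ n' ∣ 2 ^ (ty y n' M) * (M : ℤ) - (cc l : ℤ))).card := by
    unfold Lists
    rw [← Finset.card_union_of_disjoint]
    · congr 1
      ext l
      simp only [Finset.mem_filter, Finset.mem_union]
      tauto
    · rw [Finset.disjoint_left]
      intro l hl hl'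
      exact (Finset.mem_filter.mp hl').2.1 (Finset.mem_filter.mp hl).2.1
  have hphi : phi n' n' (ty y n' M) M = ((Lists x n' (ty y n' M) M).card : ℝ) / 2 ^ ty y n' M +
      (((comps n' (ty y n' M)).filter
        (fun l => ¬ PreOK (TT x) l ∧
          (3 : ℤ) ^ n' ∣ 2 ^ (ty y n' M) * (M : ℤ) - (cc l : ℤ))).card : ℝ) / 2 ^ ty y n' M := by
    unfold phi
    rw [← add_div]
    congr 1
    exact_mod_cast hcard
  have hle : (((comps n' (ty y n' M)).filter
        (fun l => ¬ PreOK (TT x) l ∧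
          (3 : ℤ) ^ n' ∣ 2 ^ (ty y n' M) * (M : ℤ) - (cc l : ℤ))).card : ℝ) / 2 ^ ty y n' M
      ≤ C5psi x n' (tmax x y) M := by
    unfold C5psi
    exact Finset.single_le_sum (f := fun t => (((comps n' t).filter
      (fun l => ¬ PreOK (TT x) l ∧ (3 : ℤ) ^ n' ∣ 2 ^ t * (M : ℤ) - (cc l : ℤ))).card : ℝ) / 2 ^ t)
      (fun t _ => by positivity)
      (Finset.mem_range.mpr (Nat.lt_succ_of_le (ty_le hM hn)))
  have h0 : (0 : ℝ) ≤ (((comps n' (ty y n' M)).filter
        (fun l => ¬ PreOK (TT x) l ∧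
          (3 : ℤ) ^ n' ∣ 2 ^ (ty y n' M) * (M : ℤ) - (cc l : ℤ))).card : ℝ) / 2 ^ ty y n' M := by
    positivity
  generalize (((comps n' (ty y n' M)).filter
        (fun l => ¬ PreOK (TT x) l ∧
          (3 : ℤ) ^ n' ∣ 2 ^ (ty y n' M) * (M : ℤ) - (cc l : ℤ))).card : ℝ) / 2 ^ ty y n' M
    = u at hphi hle h0
  rw [hphi]
  have e : gb b (ry y n' M) / M * 3 ^ n' * (((Lists x n' (ty y n' M) M).card : ℝ) / 2 ^ ty y n' M) -
      gb b (ry y n' M) / M * 3 ^ n' *
        (((Lists x n' (ty y n' M) M).card : ℝ) / 2 ^ ty y n' M + u)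
      = -(gb b (ry y n' M) / M * 3 ^ n' * u) := by ring
  rw [e, abs_neg, abs_of_nonneg (by positivity)]
  calc gb b (ry y n' M) / M * 3 ^ n' * u
      = gb b (ry y n' M) * (3 ^ n' * u / M) := by ring
    _ ≤ 2 * (3 ^ n' * u / M) := mul_le_mul_of_nonneg_right hg2 (by positivity)
    _ ≤ 2 * (3 ^ n' * C5psi x n' (tmax x y) M / M) := by
        apply mul_le_mul_of_nonneg_left _ (by norm_num)
        apply div_le_div_of_nonneg_right _ hMR.le
        exact mul_le_mul_of_nonneg_left hle (by positivity)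
    _ = 2 * 3 ^ n' * (C5psi x n' (tmax x y) M / M) := by ring

/-- elements of `MM` are odd and lie below `y` -/
theorem C5_MM : ∃ x0 : ℕ, ∀ x ≥ x0, ∀ y, WW x y → ∀ (E : Set ℕ), ∀ M ∈ MM x E, 1 ≤ M ∧ M ≤ y := by
  obtain ⟨x1, hx1⟩ := params
  obtain ⟨x2, hx2⟩ := sizes
  refine ⟨max 1 (max x1 x2), fun x hx y hW E M hM => ?_⟩
  have hxa : 1 ≤ x := le_trans (le_max_left _ _) hx
  have hxb : x1 ≤ x := le_trans (le_trans (le_max_left _ _) (le_max_right _ _)) hx
  have hxc : x2 ≤ x := le_trans (le_trans (le_max_right _ _) (le_max_right _ _)) hx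
  obtain ⟨hl, -⟩ := hx1 x hxb
  obtain ⟨-, -, -, -, hxp, -⟩ := hx2 x hxc
  classical
  unfold MM at hM
  rw [Finset.mem_filter, Finset.mem_Icc] at hM
  obtain ⟨⟨-, h2⟩, h3, -⟩ := hM
  have hM1 : 1 ≤ M := by omega
  refine ⟨hM1, ?_⟩
  have h4 : (M : ℝ) ≤ xp x := (Nat.le_floor_iff (by unfold xp; positivity)).mp h2
  have hMR : (0 : ℝ) < M := by exact_mod_cast hM1
  have hxR : (0 : ℝ) < x := by exact_mod_cast hxa
  have h5 : Real.log M ≤ 51 / 50 * lx x := by
    have := Real.log_le_log hMR (le_trans h4 hxp)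
    rwa [Real.log_rpow hxR] at this
  have hy0 : 0 < y := by
    rcases Nat.eq_zero_or_pos y with h0 | h0
    · exfalso
      have := hW.1
      subst h0
      unfold lx at this hl
      rw [Nat.cast_zero, Real.log_zero] at this
      linarith
    · exact h0
  have hyR : (0 : ℝ) < y := by exact_mod_cast hy0
  have h6 : Real.log M ≤ Real.log y := by
    have := hW.1
    unfold lx at this hl h5
    linarith
  have h7 := (Real.log_le_log_iff hMR hyR).mp h6
  exact_mod_cast h7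

/-- (6.3) first part; `Pr_dev` with `T` replaced by `2T+1` -/
theorem SC_SD : ∃ x0 : ℕ, ∀ x ≥ x0, ∀ y, WW x y → ∀ (b : Bool) (E : Set ℕ),
    |SC b x y E - SD b x y E| ≤ 1 / (lx x) ^ 2 := by
  obtain ⟨x1, hx1⟩ := params
  obtain ⟨x2, hx2⟩ := block_bound_MM
  obtain ⟨x3, hx3⟩ := exp_small 5
  obtain ⟨x4, hx4⟩ := C5_MM
  refine ⟨max (max x1 x2) (max x3 x4), fun x hx y hW b E => ?_⟩
  have hxa : x1 ≤ x := le_trans (le_trans (le_max_left _ _) (le_max_left _ _)) hx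
  have hxb : x2 ≤ x := le_trans (le_trans (le_max_right _ _) (le_max_left _ _)) hx
  have hxc : x3 ≤ x := le_trans (le_trans (le_max_left _ _) (le_max_right _ _)) hx
  have hxd : x4 ≤ x := le_trans (le_trans (le_max_right _ _) (le_max_right _ _)) hx
  obtain ⟨hl, -, -, hTl, hT1, -, -, hn1, -, -, hTm⟩ := hx1 x hxa
  have hMM := hx4 x hxd y hW E
  have hlpos : (0 : ℝ) < lx x := by linarith
  have hT0 : (0 : ℝ) ≤ TT x := Nat.cast_nonneg _
  -- the term for one `n'`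
  have hone : ∀ n' ∈ Finset.Ioc (mm x) (n1 x),
      |∑ M ∈ MM x E, gb b (ry y n' M) / M * 3 ^ n' *
          (((Lists x n' (ty y n' M) M).card : ℝ) / 2 ^ ty y n' M) -
        ∑ M ∈ MM x E, gb b (ry y n' M) / M * 3 ^ n' * phi n' n' (ty y n' M) M|
      ≤ 80 * TT x * ((n1 x + 1) * (1 / (lx x) ^ 5)) := by
    intro n' hn'
    obtain ⟨hn1', hn2'⟩ := Finset.mem_Ioc.mp hn'
    rw [← Finset.sum_sub_distrib]
    refine le_trans (Finset.abs_sum_le_sum_abs _ _) ?_
    have h1 : ∀ M ∈ MM x E, |gb b (ry y n' M) / M * 3 ^ n' *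
          (((Lists x n' (ty y n' M) M).card : ℝ) / 2 ^ ty y n' M) -
        gb b (ry y n' M) / M * 3 ^ n' * phi n' n' (ty y n' M) M|
        ≤ 2 * 3 ^ n' * (C5psi x n' (tmax x y) M / M) := by
      intro M hM
      obtain ⟨h1M, h2M⟩ := hMM M hM
      refine C5_term b h1M (le_trans h2M ?_) hn2'
      exact Nat.le_mul_of_pos_right y (by positivity)
    refine le_trans (Finset.sum_le_sum h1) ?_
    rw [← Finset.mul_sum]
    have h2 := hx2 x hxb n' hn2' (C5psi x n' (tmax x y)) (C5psi_nonneg x n' _)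
      (C5psi_periodic x n' _) E
    rw [C5psi_sum] at h2
    have h3 : Pr n' (tmax x y) (fun l => ¬ PreOK (TT x) l) ≤
        2 * ((n1 x + 1) * (1 / (lx x) ^ 5)) := by
      have h4 : Pr n' (tmax x y) (fun l => ¬ PreOK (TT x) l) ≤
          Pr n' (tmax x y) (fun l => ∃ k ≤ n', 2 * k + (2 * TT x + 1) ≤ (l.take k).sum ∨
            (l.take k).sum + (2 * TT x + 1) ≤ 2 * k) := by
        apply Pr_mono
        intro l hlen _ hP
        unfold PreOK at hP
        push Not at hP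
        obtain ⟨j, hj, hj'⟩ := hP
        refine ⟨j, by omega, ?_⟩
        by_cases hc : (l.take j).sum ≤ 2 * j + 2 * TT x
        · right
          have := hj' hc
          omega
        · left
          omega
      have h5 := Pr_dev (T := 2 * TT x + 1) (n := n') (by omega) (by omega) (tmax x y)
      have h6 : Real.exp (-((2 * TT x + 1 : ℕ) : ℝ) ^ 2 / (24 * n')) ≤ 1 / (lx x) ^ 5 := by
        refine le_trans ?_ (hx3 x hxc n' (by omega) hn2')
        apply Real.exp_le_exp.mpr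
        apply div_le_div_of_nonneg_right _ (by positivity)
        rw [neg_le_neg_iff]
        apply pow_le_pow_left₀ hT0
        push_cast
        linarith
      have h7 : (n' : ℝ) ≤ n1 x := by exact_mod_cast hn2'
      have h8 : (0 : ℝ) ≤ 1 / (lx x) ^ 5 := by positivity
      calc Pr n' (tmax x y) (fun l => ¬ PreOK (TT x) l)
          ≤ 2 * (n' + 1) * Real.exp (-((2 * TT x + 1 : ℕ) : ℝ) ^ 2 / (24 * n')) :=
            le_trans h4 h5
        _ ≤ 2 * (n1 x + 1) * (1 / (lx x) ^ 5) := by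
            apply mul_le_mul _ h6 (Real.exp_nonneg _) (by positivity)
            linarith
        _ = 2 * ((n1 x + 1) * (1 / (lx x) ^ 5)) := by ring
    calc 2 * 3 ^ n' * ∑ M ∈ MM x E, C5psi x n' (tmax x y) M / M
        ≤ 2 * 3 ^ n' * (20 * TT x / 3 ^ n' * (2 * ((n1 x + 1) * (1 / (lx x) ^ 5)))) := by
          apply mul_le_mul_of_nonneg_left _ (by positivity)
          exact le_trans h2 (mul_le_mul_of_nonneg_left h3 (by positivity))
      _ = 80 * TT x * ((n1 x + 1) * (1 / (lx x) ^ 5)) := by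
          field_simp
          ring
  unfold SC SD
  rw [← Finset.sum_sub_distrib]
  refine le_trans (Finset.abs_sum_le_sum_abs _ _) ?_
  refine le_trans (Finset.sum_le_sum hone) ?_
  rw [Finset.sum_const, nsmul_eq_mul, Nat.card_Ioc]
  have h9 : ((n1 x - mm x : ℕ) : ℝ) ≤ n1 x := by exact_mod_cast Nat.sub_le _ _
  have hn0 : (0 : ℝ) ≤ n1 x := Nat.cast_nonneg _
  have h10 : ((n1 x - mm x : ℕ) : ℝ) * (80 * TT x * ((n1 x + 1) * (1 / (lx x) ^ 5)))
      ≤ n1 x * (80 * TT x * ((n1 x + 1) * (1 / (lx x) ^ 5))) :=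
    mul_le_mul_of_nonneg_right h9 (by positivity)
  refine le_trans h10 ?_
  have h11 : (n1 x : ℝ) * (80 * TT x * (n1 x + 1)) ≤ lx x ^ 3 := by
    have a1 : (n1 x : ℝ) ≤ lx x := by linarith
    have a2 : 80 * (TT x : ℝ) ≤ lx x := by linarith
    have a3 : (n1 x : ℝ) + 1 ≤ lx x := by linarith
    calc (n1 x : ℝ) * (80 * TT x * (n1 x + 1)) ≤ lx x * (lx x * lx x) := by
          apply mul_le_mul a1 _ (by positivity) hlpos.le
          exact mul_le_mul a2 a3 (by positivity) hlpos.le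
      _ = lx x ^ 3 := by ring
  calc (n1 x : ℝ) * (80 * TT x * ((n1 x + 1) * (1 / (lx x) ^ 5)))
      = (n1 x : ℝ) * (80 * TT x * (n1 x + 1)) * (1 / (lx x) ^ 5) := by ring
    _ ≤ lx x ^ 3 * (1 / (lx x) ^ 5) := mul_le_mul_of_nonneg_right h11 (by positivity)
    _ = 1 / (lx x) ^ 2 := by
        field_simp

end Pool.Agent.W_e21d3a_h93
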