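import Pool.Agent.W_e21d3a_h93.M4a

set_option autoImplicit false

namespace Pool.Agent.W_e21d3a_h93

/-- THEOREM 5 -/
theorem mixing (A : ℕ) : ∃ C : ℝ, 0 < C ∧ ∀ m n τ : ℕ, 1 ≤ m → m ≤ n →
    ∑ t ∈ Finset.range (τ + 1), ∑ Y ∈ Finset.range (3 ^ n),
      |phi n n t Y - phi m n t Y / 3 ^ (n - m)| ≤ C / (m : ℝ) ^ A :=
  mixing_of_om om_le A

end Pool.Agent.W_e21d3a_h93
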