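import Pool.Agent.W_e21d3a_h93.C5
import Pool.Agent.W_e21d3a_h93.Mixing

set_option autoImplicit false

/-!
# [NC] C6: mixing inside the counting formula (row 500, (6.3))
-/

namespace Pool.Agent.W_e21d3a_h93

/-- the elements of `MM` are positive and at most `y` -/
theorem C6_MM_le : ∃ x0 : ℕ, ∀ x ≥ x0, ∀ y, WW x y → ∀ (E : Set ℕ), ∀ M ∈ MM x E,
    1 ≤ M ∧ M ≤ y := by
  classical
  obtain ⟨x2, hp⟩ := params
  obtain ⟨x3, hs⟩ := sizes
  refine ⟨max x2 x3, fun x hx y hW E M hM => ?_⟩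
  have hx2 : x ≥ x2 := le_trans (le_max_left _ _) hx
  have hx3 : x ≥ x3 := le_trans (le_max_right _ _) hx
  obtain ⟨hl, -⟩ := hp x hx2
  obtain ⟨-, -, h3, h4, h5, -⟩ := hs x hx3
  unfold MM at hM
  rw [Finset.mem_filter, Finset.mem_Icc] at hM
  obtain ⟨⟨-, hMp⟩, hodd, -⟩ := hM
  have hM1 : 1 ≤ M := by omega
  refine ⟨hM1, ?_⟩
  have hxp0 : 0 ≤ xp x := by
    have : (0 : ℝ) ≤ (x : ℝ) := Nat.cast_nonneg x
    linarith
  have hMr : (M : ℝ) ≤ xp x := le_trans (by exact_mod_cast hMp) (Nat.floor_le hxp0)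
  have hMr2 : (M : ℝ) ≤ (x : ℝ) ^ ((51 : ℝ) / 50) := hMr.trans h5
  have hx0 : (0 : ℝ) < (x : ℝ) := by
    rcases Nat.eq_zero_or_pos x with h | h
    · exfalso
      rw [h] at hl
      unfold lx at hl
      norm_num at hl
    · exact_mod_cast h
  have hM0 : (0 : ℝ) < (M : ℝ) := by exact_mod_cast hM1
  have hlog : Real.log M ≤ 51 / 50 * lx x := by
    have := Real.log_le_log hM0 hMr2
    rwa [Real.log_rpow hx0] at this
  have hly : 41 / 40 * lx x ≤ lx y := hW.1
  have hy0 : (0 : ℝ) < (y : ℝ) := by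
    rcases Nat.eq_zero_or_pos y with h | h
    · exfalso
      rw [h] at hly
      unfold lx at hly hl
      norm_num at hly
      linarith
    · exact_mod_cast h
  have h6 : Real.log M ≤ Real.log y := by
    have : lx y = Real.log y := rfl
    rw [← this]
    linarith
  have h7 : (M : ℝ) ≤ (y : ℝ) := (Real.log_le_log_iff hM0 hy0).mp h6
  exact_mod_cast h7

/-- `K T ≤ log x` for all large `x` -/
theorem C6_TT (K : ℝ) : ∃ x0 : ℕ, ∀ x ≥ x0, K * TT x ≤ lx x := by
  obtain ⟨x2, hp⟩ := params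
  have h1 : Filter.Tendsto (fun x : ℕ => (lx x) ^ ((2 : ℝ) / 5)) Filter.atTop Filter.atTop :=
    (tendsto_rpow_atTop (by norm_num)).comp lx_tendsto
  have h2 := h1.eventually_ge_atTop (2 * K)
  rw [Filter.eventually_atTop] at h2
  obtain ⟨x4, h4⟩ := h2
  refine ⟨max x2 x4, fun x hx => ?_⟩
  have hx2 : x ≥ x2 := le_trans (le_max_left _ _) hx
  have hx4 : x ≥ x4 := le_trans (le_max_right _ _) hx
  obtain ⟨hl, hT1, hT2, -⟩ := hp x hx2
  have h5 := h4 x hx4
  have hl0 : 0 < lx x := by linarith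
  have h6 : (1 : ℝ) ≤ (lx x) ^ ((3 : ℝ) / 5) := Real.one_le_rpow (by linarith) (by norm_num)
  have h7 : (TT x : ℝ) ≤ 2 * (lx x) ^ ((3 : ℝ) / 5) := by linarith
  have h8 : (lx x) ^ ((2 : ℝ) / 5) * (lx x) ^ ((3 : ℝ) / 5) = lx x := by
    rw [← Real.rpow_add hl0]
    norm_num
  rcases le_or_gt K 0 with hK | hK
  · have : K * TT x ≤ 0 := mul_nonpos_of_nonpos_of_nonneg hK (Nat.cast_nonneg _)
    linarith
  · calc K * TT x ≤ K * (2 * (lx x) ^ ((3 : ℝ) / 5)) := mul_le_mul_of_nonneg_left h7 hK.le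
      _ = (2 * K) * (lx x) ^ ((3 : ℝ) / 5) := by ring
      _ ≤ (lx x) ^ ((2 : ℝ) / 5) * (lx x) ^ ((3 : ℝ) / 5) :=
          mul_le_mul_of_nonneg_right h5 (by linarith)
      _ = lx x := h8

/-- (6.3) second part: `mixing` with `A = 4` and `block_bound_MM` -/
theorem SD_SE : ∃ x0 : ℕ, ∀ x ≥ x0, ∀ y, WW x y → ∀ (b : Bool) (E : Set ℕ),
    |SD b x y E - SE b x y E| ≤ 1 / (lx x) ^ 2 := by
  obtain ⟨x1, hb⟩ := block_bound_MM
  obtain ⟨x2, hp⟩ := params
  obtain ⟨x3, hMM⟩ := C6_MM_le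
  obtain ⟨C, hC0, hmix⟩ := mixing 4
  obtain ⟨x4, hK⟩ := C6_TT (50000000 * C)
  refine ⟨max (max x1 x2) (max x3 x4), fun x hx y hW b E => ?_⟩
  have hx1 : x ≥ x1 := le_trans (le_trans (le_max_left _ _) (le_max_left _ _)) hx
  have hx2 : x ≥ x2 := le_trans (le_trans (le_max_right _ _) (le_max_left _ _)) hx
  have hx3 : x ≥ x3 := le_trans (le_trans (le_max_left _ _) (le_max_right _ _)) hx
  have hx4 : x ≥ x4 := le_trans (le_trans (le_max_right _ _) (le_max_right _ _)) hx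
  obtain ⟨hl, -, -, -, hT1, hm1, hm2, hn1, -, hnm, -⟩ := hp x hx2
  have hKT := hK x hx4
  have hm0 : 1 ≤ mm x := by
    have h : (1 : ℝ) ≤ mm x := by linarith
    exact_mod_cast h
  have h3pos : ∀ k : ℕ, (0 : ℝ) < 3 ^ k := fun k => by positivity
  -- the local bound
  have hloc : ∀ n' ∈ Finset.Ioc (mm x) (n1 x),
      |∑ M ∈ MM x E, gb b (ry y n' M) / M * 3 ^ n' * phi n' n' (ty y n' M) M
        - ∑ M ∈ MM x E, gb b (ry y n' M) / M * 3 ^ mm x * phi (mm x) n' (ty y n' M) M|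
      ≤ 40 * TT x * (C / (mm x : ℝ) ^ 4) := by
    intro n' hn'
    rw [Finset.mem_Ioc] at hn'
    have hb' := hb x hx1 n' hn'.2
      (fun Y => ∑ t ∈ Finset.range (tmax x y + 1),
        |phi n' n' t Y - phi (mm x) n' t Y / 3 ^ (n' - mm x)|)
      (fun Y => Finset.sum_nonneg fun t _ => abs_nonneg _)
      (fun Y z => by
        refine Finset.sum_congr rfl fun t _ => ?_
        rw [phi_periodic n' n' t Y z]
        have h3 : (3 : ℤ) ^ n' * z = 3 ^ mm x * (3 ^ (n' - mm x) * z) := by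
          rw [← mul_assoc, ← pow_add]
          congr 2
          omega
        rw [h3, phi_periodic (mm x) n' t Y])
      E
    have hmx := hmix (mm x) n' (tmax x y) hm0 hn'.1.le
    rw [Finset.sum_comm] at hmx
    have hsum : ∑ M ∈ MM x E, (∑ t ∈ Finset.range (tmax x y + 1),
        |phi n' n' t (M : ℤ) - phi (mm x) n' t (M : ℤ) / 3 ^ (n' - mm x)|) / M
        ≤ 20 * TT x / 3 ^ n' * (C / (mm x : ℝ) ^ 4) :=
      hb'.trans (mul_le_mul_of_nonneg_left hmx (by positivity))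
    rw [← Finset.sum_sub_distrib]
    refine (Finset.abs_sum_le_sum_abs _ _).trans ?_
    have hterm : ∀ M ∈ MM x E,
        |gb b (ry y n' M) / M * 3 ^ n' * phi n' n' (ty y n' M) M
          - gb b (ry y n' M) / M * 3 ^ mm x * phi (mm x) n' (ty y n' M) M|
        ≤ 2 * 3 ^ n' * ((∑ t ∈ Finset.range (tmax x y + 1),
        |phi n' n' t (M : ℤ) - phi (mm x) n' t (M : ℤ) / 3 ^ (n' - mm x)|) / M) := by
      intro M hM
      obtain ⟨hM1, hMy⟩ := hMM x hx3 y hW E M hM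
      have hMy' : M ≤ y * 3 ^ n' := hMy.trans (Nat.le_mul_of_pos_right y (by positivity))
      obtain ⟨hr1, hr2⟩ := ry_mem (y := y) (n' := n') hM1 hMy'
      have hg0 : 0 ≤ gb b (ry y n' M) := by
        unfold gb
        split_ifs <;> linarith
      have hg2 : gb b (ry y n' M) ≤ 2 := by
        unfold gb
        split_ifs <;> linarith
      have hM0 : (0 : ℝ) < (M : ℝ) := by exact_mod_cast hM1
      have hty : ty y n' M ∈ Finset.range (tmax x y + 1) := by
        rw [Finset.mem_range]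
        have := ty_le (x := x) (y := y) (n' := n') hM1 hn'.2
        omega
      have hsingle := Finset.single_le_sum
        (f := fun t => |phi n' n' t (M : ℤ) - phi (mm x) n' t (M : ℤ) / 3 ^ (n' - mm x)|)
        (fun t _ => abs_nonneg _) hty
      have heq : gb b (ry y n' M) / M * 3 ^ n' * phi n' n' (ty y n' M) M
          - gb b (ry y n' M) / M * 3 ^ mm x * phi (mm x) n' (ty y n' M) M
          = gb b (ry y n' M) / M * 3 ^ n' * (phi n' n' (ty y n' M) M
            - phi (mm x) n' (ty y n' M) M / 3 ^ (n' - mm x)) := by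
        have h3 : (3 : ℝ) ^ n' = 3 ^ mm x * 3 ^ (n' - mm x) := by
          rw [← pow_add]
          congr 1
          omega
        have h4 := (h3pos (n' - mm x)).ne'
        rw [h3]
        field_simp
      rw [heq, abs_mul, abs_of_nonneg (by positivity : (0 : ℝ) ≤ gb b (ry y n' M) / M * 3 ^ n')]
      calc gb b (ry y n' M) / M * 3 ^ n' * |phi n' n' (ty y n' M) M
            - phi (mm x) n' (ty y n' M) M / 3 ^ (n' - mm x)|
          ≤ 2 / M * 3 ^ n' * ∑ t ∈ Finset.range (tmax x y + 1),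
            |phi n' n' t (M : ℤ) - phi (mm x) n' t (M : ℤ) / 3 ^ (n' - mm x)| := by
            gcongr
        _ = _ := by ring
    refine (Finset.sum_le_sum hterm).trans ?_
    rw [← Finset.mul_sum]
    calc 2 * 3 ^ n' * ∑ M ∈ MM x E, (∑ t ∈ Finset.range (tmax x y + 1),
          |phi n' n' t (M : ℤ) - phi (mm x) n' t (M : ℤ) / 3 ^ (n' - mm x)|) / M
        ≤ 2 * 3 ^ n' * (20 * TT x / 3 ^ n' * (C / (mm x : ℝ) ^ 4)) :=
          mul_le_mul_of_nonneg_left hsum (by positivity)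
      _ = 40 * TT x * (C / (mm x : ℝ) ^ 4) := by
          have h4 := (h3pos n').ne'
          field_simp
          ring
  unfold SD SE
  rw [← Finset.sum_sub_distrib]
  refine (Finset.abs_sum_le_sum_abs _ _).trans ?_
  refine (Finset.sum_le_sum hloc).trans ?_
  rw [Finset.sum_const, nsmul_eq_mul, Nat.card_Ioc]
  have hl0 : 0 < lx x := by linarith
  have hcard : ((n1 x - mm x : ℕ) : ℝ) ≤ lx x / 5 := by
    have : ((n1 x - mm x : ℕ) : ℝ) ≤ (n1 x : ℝ) := by exact_mod_cast Nat.sub_le _ _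
    linarith
  have hm3 : lx x / 50 ≤ (mm x : ℝ) := by linarith
  have hm4 : (lx x / 50) ^ 4 ≤ (mm x : ℝ) ^ 4 := by gcongr
  calc ((n1 x - mm x : ℕ) : ℝ) * (40 * TT x * (C / (mm x : ℝ) ^ 4))
      ≤ lx x / 5 * (40 * TT x * (C / (lx x / 50) ^ 4)) := by gcongr
    _ = (50000000 * C * TT x) / (lx x) ^ 3 := by
        field_simp
        ring
    _ ≤ lx x / (lx x) ^ 3 := by gcongr
    _ = 1 / (lx x) ^ 2 := by
        field_simp

end Pool.Agent.W_e21d3a_h93
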