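import Pool.Agent.W_e21d3a_h93.P1
import Pool.Agent.W_e21d3a_h93.B1b

set_option autoImplicit false

/-!
# [NC] M1b: decomposition of phi (row 499, 5.1)
-/

namespace Pool.Agent.W_e21d3a_h93

/-- the congruence mod `3^m` depends only on the first `j ≥ m` entries -/
theorem dvd_append_iff {m s t : ℕ} {β γ : List ℕ} (hβ : m ≤ β.length) (hs : β.sum = s)
    (ht : s + γ.sum = t) (Y : ℤ) :
    (3 : ℤ) ^ m ∣ 2 ^ t * Y - (cc (β ++ γ) : ℤ) ↔ (3 : ℤ) ^ m ∣ 2 ^ s * Y - (cc β : ℤ) := by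
  have h1 : (2 : ℤ) ^ t * Y - (cc (β ++ γ) : ℤ) =
      2 ^ γ.sum * (2 ^ s * Y - (cc β : ℤ)) - 3 ^ β.length * (cc γ : ℤ) := by
    rw [cc_append, ← ht]
    push_cast
    ring
  have h2 : (3 : ℤ) ^ m ∣ 3 ^ β.length * (cc γ : ℤ) :=
    Dvd.dvd.mul_right (pow_dvd_pow 3 hβ) _
  have hcop : IsCoprime ((3 : ℤ) ^ m) (2 ^ γ.sum) := by
    apply IsCoprime.pow
    exact ⟨1, -1, by norm_num⟩
  rw [h1, dvd_sub_left h2]
  constructor
  · intro h
    exact hcop.dvd_of_dvd_mul_left h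
  · intro h
    exact Dvd.dvd.mul_left h _

theorem phi_decomp {m j : ℕ} (h : m ≤ j) (k t : ℕ) (Y : ℤ) :
    phi m (j + k) t Y = ∑ s ∈ Finset.range (t + 1), phi m j s Y * pw k (t - s) := by
  classical
  unfold phi pw
  rw [Finset.card_filter]
  push_cast
  rw [sum_comps_append j k t
    (fun l => if (3 : ℤ) ^ m ∣ 2 ^ t * Y - (cc l : ℤ) then (1 : ℝ) else 0), Finset.sum_div]
  refine Finset.sum_congr rfl fun s hs => ?_
  have hst : s ≤ t := Nat.lt_succ_iff.mp (Finset.mem_range.mp hs)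
  have key : ∑ β ∈ comps j s, ∑ γ ∈ comps k (t - s),
      (if (3 : ℤ) ^ m ∣ 2 ^ t * Y - (cc (β ++ γ) : ℤ) then (1 : ℝ) else 0) =
      (((comps j s).filter (fun l => (3 : ℤ) ^ m ∣ 2 ^ s * Y - (cc l : ℤ))).card : ℝ) *
        ((comps k (t - s)).card : ℝ) := by
    rw [Finset.card_filter]
    push_cast
    rw [Finset.sum_mul]
    refine Finset.sum_congr rfl fun β hβ => ?_
    have hβ' := mem_comps.mp hβ
    have : ∀ γ ∈ comps k (t - s),
        (if (3 : ℤ) ^ m ∣ 2 ^ t * Y - (cc (β ++ γ) : ℤ) then (1 : ℝ) else 0) =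
        (if (3 : ℤ) ^ m ∣ 2 ^ s * Y - (cc β : ℤ) then (1 : ℝ) else 0) := by
      intro γ hγ
      have hγ' := mem_comps.mp hγ
      have hsum : s + γ.sum = t := by omega
      have hiff := dvd_append_iff (m := m) (s := s) (t := t) (β := β) (γ := γ)
        (by omega) hβ'.2.1 hsum Y
      simp only [hiff]
    rw [Finset.sum_congr rfl this, Finset.sum_const, nsmul_eq_mul, mul_comm]
  have hpow : (2 : ℝ) ^ t = 2 ^ s * 2 ^ (t - s) := by
    rw [← pow_add]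
    congr 1
    omega
  rw [key, hpow]
  field_simp

end Pool.Agent.W_e21d3a_h93
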