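import Pool.Agent.W_e21d3a_h93.C5
import Pool.Agent.W_e21d3a_h93.M1b

set_option autoImplicit false

/-!
# [NC] C7: the renewal function appears (row 500, (6.4))
-/

namespace Pool.Agent.W_e21d3a_h93

theorem C7_pos {y n' M : ℕ} (hM : 1 ≤ M) (hy : M ≤ y * 3 ^ n') : 1 ≤ y := by
  rcases Nat.eq_zero_or_pos y with h | h
  · subst h
    omega
  · exact h

theorem C7_floor {y n' M : ℕ} (hM : 1 ≤ M) (hy : M ≤ y * 3 ^ n') :
    ⌊Real.logb 2 (((y * 3 ^ n' : ℕ) : ℝ) / M)⌋ = (Nat.log 2 (y * 3 ^ n' / M) : ℤ) := by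
  have hM' : (0 : ℝ) < M := by exact_mod_cast hM
  have h1 : (1 : ℝ) ≤ ((y * 3 ^ n' : ℕ) : ℝ) / M := by
    rw [le_div_iff₀ hM', one_mul]
    exact_mod_cast hy
  have h2 := Real.floor_logb_natCast (b := 2) (r := ((y * 3 ^ n' : ℕ) : ℝ) / M) (by linarith)
  rw [Int.log_of_one_le_right 2 h1, Nat.floor_div_eq_div] at h2
  simpa using h2

theorem C7_expr {x y M k : ℕ} (s : ℕ) (hM : 1 ≤ M) (hy : M ≤ y * 3 ^ (mm x + k)) :
    (k : ℝ) * th + Zf x y M s =
      Real.logb 2 (((y * 3 ^ (mm x + k) : ℕ) : ℝ) / M) - s := by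
  have hy1 : 1 ≤ y := C7_pos hM hy
  have hM' : (M : ℝ) ≠ 0 := by positivity
  have hy' : (y : ℝ) ≠ 0 := by positivity
  unfold Zf th
  push_cast
  rw [Real.logb_div hy' hM', Real.logb_div (by positivity) hM',
    Real.logb_mul hy' (by positivity), Real.logb_pow]
  push_cast
  ring

/-- `t - s = t_k(Z)` -/
theorem tk_eq {x y M k : ℕ} (s : ℕ) (hM : 1 ≤ M) (hy : M ≤ y * 3 ^ (mm x + k)) :
    tk k (Zf x y M s) = (ty y (mm x + k) M : ℤ) - s := by
  unfold tk ty
  rw [C7_expr s hM hy]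
  have : Real.logb 2 (((y * 3 ^ (mm x + k) : ℕ) : ℝ) / M) - (s : ℝ) =
    Real.logb 2 (((y * 3 ^ (mm x + k) : ℕ) : ℝ) / M) - ((s : ℤ) : ℝ) := by push_cast; ring
  rw [this, Int.floor_sub_intCast, C7_floor hM hy]
  push_cast
  ring

theorem ry_eq {x y M k : ℕ} (s : ℕ) (hM : 1 ≤ M) (hy : M ≤ y * 3 ^ (mm x + k)) :
    ry y (mm x + k) M = (2 : ℝ) ^ vk k (Zf x y M s) := by
  have hy1 : 1 ≤ y := C7_pos hM hy
  have hM' : (0 : ℝ) < M := by exact_mod_cast hM
  have hy' : (0 : ℝ) < y := by exact_mod_cast hy1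
  have h1 : vk k (Zf x y M s) = (ty y (mm x + k) M : ℝ) -
      Real.logb 2 (((y * 3 ^ (mm x + k) : ℕ) : ℝ) / M) := by
    unfold vk
    rw [tk_eq s hM hy]
    have := C7_expr (x := x) (y := y) (M := M) (k := k) s hM hy
    push_cast at this ⊢
    linarith
  rw [h1, Real.rpow_sub (by norm_num), Real.rpow_logb (by norm_num) (by norm_num)
    (by push_cast; positivity), Real.rpow_natCast]
  unfold ry
  push_cast
  field_simp

/-- the numbers in `MM` are at most `y` -/
theorem C7_xp_le : ∃ x0 : ℕ, ∀ x ≥ x0, ∀ y, WW x y → xp x ≤ y := by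
  -- `2 * TT x ≤ 0.017 * lx x` eventually
  have hlog : Filter.Tendsto (fun x : ℕ => lx x) Filter.atTop Filter.atTop :=
    Real.tendsto_log_atTop.comp tendsto_natCast_atTop_atTop
  have h1 : ∀ᶠ L : ℝ in Filter.atTop, L ^ ((3 : ℝ) / 5) ≤ L / 1000 := by
    have h5 : Filter.Tendsto (fun L : ℝ => L ^ ((2 : ℝ) / 5)) Filter.atTop Filter.atTop :=
      tendsto_rpow_atTop (by norm_num)
    filter_upwards [h5.eventually (Filter.eventually_ge_atTop 1000),
      Filter.eventually_ge_atTop (1 : ℝ)] with L hL hL1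
    have h6 : L ^ ((3 : ℝ) / 5) * L ^ ((2 : ℝ) / 5) = L := by
      rw [← Real.rpow_add (by linarith)]
      norm_num
    have h7 : 0 ≤ L ^ ((3 : ℝ) / 5) := by positivity
    nlinarith
  have h3 : ∀ᶠ x : ℕ in Filter.atTop, lx x ^ ((3 : ℝ) / 5) ≤ lx x / 1000 := hlog.eventually h1
  have h4 : ∀ᶠ x : ℕ in Filter.atTop, (1000 : ℝ) ≤ lx x :=
    hlog.eventually (Filter.eventually_ge_atTop 1000)
  obtain ⟨x0, hx0⟩ := Filter.eventually_atTop.mp (h3.and (h4.and (Filter.eventually_ge_atTop 2)))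
  refine ⟨x0, fun x hx y hW => ?_⟩
  obtain ⟨ha, hb, hc⟩ := hx0 x hx
  have hT : (TT x : ℝ) ≤ lx x / 1000 + 1 := by
    have := Nat.ceil_lt_add_one (a := lx x ^ ((3 : ℝ) / 5)) (by positivity)
    unfold TT
    linarith
  have hm : (mm x : ℝ) ≤ lx x / 40 := Nat.floor_le (by linarith)
  have hLam : Lam ≤ 1 / 3 := by
    unfold Lam
    have := Real.log_le_sub_one_of_pos (x := 4 / 3) (by norm_num)
    linarith
  have hmL : (mm x : ℝ) * Lam ≤ lx x / 120 := by
    have h0 : (0 : ℝ) ≤ mm x := by positivity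
    have := Lam_pos
    nlinarith
  have hx0 : (0 : ℝ) < x := by
    have : 0 < x := by omega
    exact_mod_cast this
  have hy0 : (0 : ℝ) < y := by
    rcases Nat.eq_zero_or_pos y with h | h
    · exfalso
      subst h
      have := hW.1
      unfold lx at this hb
      simp only [Nat.cast_zero, Real.log_zero] at this
      linarith
    · exact_mod_cast h
  have hxe : (x : ℝ) = Real.exp (lx x) := (Real.exp_log hx0).symm
  have hye : (y : ℝ) = Real.exp (lx y) := (Real.exp_log hy0).symm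
  unfold xp
  rw [hye]
  nth_rewrite 1 [hxe]
  rw [← Real.exp_add]
  apply Real.exp_le_exp.mpr
  have := hW.1
  linarith

theorem C7_inner {x y M k : ℕ} (b : Bool) (hk : 1 ≤ k) (hn : mm x + k ≤ n1 x)
    (hM : 1 ≤ M) (hy : M ≤ y * 3 ^ (mm x + k)) :
    gb b (ry y (mm x + k) M) / M * 3 ^ mm x * phi (mm x) (mm x + k) (ty y (mm x + k) M) M =
    3 ^ mm x / (M : ℝ) * ∑ s ∈ Finset.range (tmax x y + 1), phi (mm x) (mm x) s M *
      ((if b then (2 : ℝ) ^ (vk k (Zf x y M s)) else 1) *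
        pw k (tk k (Zf x y M s)).toNat) := by
  set t := ty y (mm x + k) M with ht
  have htm : t ≤ tmax x y := ty_le hM hn
  rw [phi_decomp (le_refl (mm x)) k t (M : ℤ)]
  have h1 : ∀ s ∈ Finset.range (tmax x y + 1), phi (mm x) (mm x) s M *
      ((if b then (2 : ℝ) ^ (vk k (Zf x y M s)) else 1) *
        pw k (tk k (Zf x y M s)).toNat) =
      gb b (ry y (mm x + k) M) *
        (if s < t + 1 then phi (mm x) (mm x) s M * pw k (t - s) else 0) := by
    intro s hs
    rw [← ry_eq s hM hy, tk_eq s hM hy]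
    have h2 : (((t : ℤ) - s)).toNat = t - s := by omega
    rw [h2]
    unfold gb
    split_ifs with h3 h4 h4
    · ring
    · have : t - s = 0 := by omega
      rw [this]
      have h5 : pw k 0 = 0 := by
        unfold pw
        rw [comps_eq_empty (by omega)]
        simp
      rw [h5]
      ring
    · ring
    · have : t - s = 0 := by omega
      rw [this]
      have h5 : pw k 0 = 0 := by
        unfold pw
        rw [comps_eq_empty (by omega)]
        simp
      rw [h5]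
      ring
  rw [Finset.sum_congr rfl h1, ← Finset.mul_sum, ← Finset.sum_filter]
  have h6 : (Finset.range (tmax x y + 1)).filter (fun s => s < t + 1) = Finset.range (t + 1) := by
    ext s
    simp only [Finset.mem_filter, Finset.mem_range]
    omega
  rw [h6]
  ring

/-- (6.4): an identity; `phi_decomp` with `n' = mm x + k` -/
theorem SE_SF : ∃ x0 : ℕ, ∀ x ≥ x0, ∀ y, WW x y → ∀ (b : Bool) (E : Set ℕ),
    SE b x y E = SF b x y E := by
  classical
  obtain ⟨x0, hx0⟩ := C7_xp_le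
  refine ⟨x0, fun x hx y hW b E => ?_⟩
  have hxp := hx0 x hx y hW
  unfold SE SF
  rw [Finset.sum_comm]
  refine Finset.sum_congr rfl fun M hMM => ?_
  have hM2 := (Finset.mem_filter.mp hMM)
  have hM1 : 1 ≤ M := by
    have := hM2.2.1
    omega
  have hMy : M ≤ y := by
    have h1 := (Finset.mem_Icc.mp hM2.1).2
    have h2 : (⌊xp x⌋₊ : ℝ) ≤ xp x := Nat.floor_le (by unfold xp; positivity)
    have h3 : (M : ℝ) ≤ y := by
      have : (M : ℝ) ≤ ⌊xp x⌋₊ := by exact_mod_cast h1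
      linarith
    exact_mod_cast h3
  have hMy' : ∀ n' : ℕ, M ≤ y * 3 ^ n' := fun n' =>
    hMy.trans (Nat.le_mul_of_pos_right y (by positivity))
  have hmn : mm x ≤ n1 x := by
    unfold mm n1
    apply Nat.floor_le_floor
    have : 0 ≤ lx x := by
      unfold lx
      exact Real.log_natCast_nonneg x
    linarith
  have h2 : ∑ n' ∈ Finset.Ioc (mm x) (n1 x),
      gb b (ry y n' M) / M * 3 ^ mm x * phi (mm x) n' (ty y n' M) M =
      ∑ k ∈ Finset.Icc 1 (n1 x - mm x),
        gb b (ry y (mm x + k) M) / M * 3 ^ mm x *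
          phi (mm x) (mm x + k) (ty y (mm x + k) M) M := by
    symm
    apply Finset.sum_bij' (fun k _ => mm x + k) (fun n' _ => n' - mm x)
    · intro k hk
      rw [Finset.mem_Icc] at hk
      rw [Finset.mem_Ioc]
      omega
    · intro n' hn'
      rw [Finset.mem_Ioc] at hn'
      rw [Finset.mem_Icc]
      omega
    · intro k hk
      omega
    · intro n' hn'
      rw [Finset.mem_Ioc] at hn'
      omega
    · intro k hk
      rfl
  rw [h2]
  have h3 : ∀ k ∈ Finset.Icc 1 (n1 x - mm x),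
      gb b (ry y (mm x + k) M) / M * 3 ^ mm x *
          phi (mm x) (mm x + k) (ty y (mm x + k) M) M =
      3 ^ mm x / (M : ℝ) * ∑ s ∈ Finset.range (tmax x y + 1), phi (mm x) (mm x) s M *
      ((if b then (2 : ℝ) ^ (vk k (Zf x y M s)) else 1) *
        pw k (tk k (Zf x y M s)).toNat) := by
    intro k hk
    rw [Finset.mem_Icc] at hk
    exact C7_inner b hk.1 (by omega) hM1 (hMy' _)
  rw [Finset.sum_congr rfl h3, ← Finset.mul_sum, Finset.sum_comm]
  congr 1
  refine Finset.sum_congr rfl fun s _ => ?_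
  unfold Rf
  rw [Finset.mul_sum]

end Pool.Agent.W_e21d3a_h93
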