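import Pool.Agent.W_e21d3a_h93.R1b

set_option autoImplicit false

/-!
# [NC] R1c: slow variation (row 501, 7.2)
-/

namespace Pool.Agent.W_e21d3a_h93

theorem th_bounds : (158 : ℝ) / 100 < th ∧ th < 159 / 100 := by
  have h100 : Real.logb 2 ((3 : ℝ) ^ 100) = 100 * th := by
    rw [Real.logb_pow]; rfl
  constructor
  · have h1 : Real.logb 2 ((2 : ℝ) ^ 158) < Real.logb 2 ((3 : ℝ) ^ 100) :=
      Real.logb_lt_logb (by norm_num) (by norm_num) (by norm_num)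
    rw [h100, Real.logb_pow, Real.logb_self_eq_one (by norm_num)] at h1
    norm_num at h1
    linarith
  · have h1 : Real.logb 2 ((3 : ℝ) ^ 100) < Real.logb 2 ((2 : ℝ) ^ 159) :=
      Real.logb_lt_logb (by norm_num) (by norm_num) (by norm_num)
    rw [h100, Real.logb_pow, Real.logb_self_eq_one (by norm_num)] at h1
    norm_num at h1
    linarith

/-- the terms of the renewal sum -/
noncomputable def aa (Z : ℝ) (k : ℕ) : ℝ := pw k (tk k Z).toNat

theorem aa_nonneg (Z : ℝ) (k : ℕ) : 0 ≤ aa Z k := pw_nonneg _ _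

theorem Rf_false (K : ℕ) (Z : ℝ) : Rf false K Z = ∑ k ∈ Finset.Icc 1 K, aa Z k := by
  unfold Rf aa
  simp

/-- almost central indices lie in `[0.0235 l, 0.149 l]` -/
theorem central_range {l T Z : ℝ} {k : ℕ} (hl : 1000 ≤ l) (hT : 1000 * T ≤ l / 100000)
    (hZ1 : l / 100 ≤ Z) (hZ2 : Z ≤ 3 * l / 50) (hu : |(tk k Z : ℝ) - 2 * k| ≤ 31 * T) :
    235 * l / 10000 ≤ k ∧ (k : ℝ) ≤ 149 * l / 1000 := by
  obtain ⟨h1, h2⟩ := th_bounds
  obtain ⟨v1, v2⟩ := vk_mem k Z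
  unfold vk at v1 v2
  rw [abs_le] at hu
  obtain ⟨u1, u2⟩ := hu
  have hk0 : (0 : ℝ) ≤ k := Nat.cast_nonneg k
  constructor
  · have h3 : (2 - th) * k ≤ 42 / 100 * k := by nlinarith only [h1]
    have h4 : Z - 31 * T ≤ (2 - th) * k := by linarith only [v1, u2]
    linarith
  · have h3 : 41 / 100 * k ≤ (2 - th) * k := by nlinarith only [h2]
    have h4 : (2 - th) * k ≤ Z + 1 + 31 * T := by linarith
    linarith only [hl, hT, hZ2, h1, h2, v2, u1, h3]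

/-- hypotheses: the three ratios are close to `1` -/
def Near (x : ℕ) (e1 e2 : ℝ) : Prop := ∀ k t : ℕ, lx x / 50 ≤ k → (k : ℝ) ≤ lx x / 5 →
    |(t : ℝ) - 2 * k| ≤ 31 * TT x →
    |pw (k + 1) (t + 2) - pw k t| ≤ e1 * pw k t ∧
    |pw k (t + 1) - pw k t| ≤ e2 * pw k t ∧
    |pw (k + 1) (t + 1) - pw k t| ≤ e2 * pw k t

private theorem iter_near {x : ℕ} {e1 e2 : ℝ} (he1 : 0 ≤ e1) (hN : Near x e1 e2) {k t : ℕ}
    (hk : lx x / 50 ≤ k) (hu : |(t : ℝ) - 2 * k| ≤ 31 * TT x) (j : ℕ)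
    (hkj : ((k + j : ℕ) : ℝ) ≤ lx x / 5) (hj : 2 * j * e1 ≤ 1) :
    |pw (k + j) (t + 2 * j) - pw k t| ≤ 2 * j * e1 * pw k t := by
  induction j with
  | zero => simp
  | succ j ih =>
    have hp := pw_nonneg k t
    have h1 : ((k + j : ℕ) : ℝ) ≤ lx x / 5 := by push_cast at hkj ⊢; linarith
    have h2 : 2 * (j : ℝ) * e1 ≤ 1 := by push_cast at hj; nlinarith only [he1, hj]
    have h3 := ih h1 h2
    have h4 : lx x / 50 ≤ ((k + j : ℕ) : ℝ) := by push_cast; linarith [(Nat.cast_nonneg j : (0:ℝ) ≤ j)]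
    have h5 : |((t + 2 * j : ℕ) : ℝ) - 2 * ((k + j : ℕ) : ℝ)| ≤ 31 * TT x := by
      have : ((t + 2 * j : ℕ) : ℝ) - 2 * ((k + j : ℕ) : ℝ) = (t : ℝ) - 2 * k := by push_cast; ring
      rw [this]; exact hu
    have h6 := (hN (k + j) (t + 2 * j) h4 h1 h5).1
    have h7 : pw (k + j) (t + 2 * j) ≤ 2 * pw k t := by
      have := (abs_le.1 h3).2
      nlinarith only [this, hp, h2]
    have h8 : |pw (k + j + 1) (t + 2 * j + 2) - pw k t| ≤
        |pw (k + j + 1) (t + 2 * j + 2) - pw (k + j) (t + 2 * j)| +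
        |pw (k + j) (t + 2 * j) - pw k t| := abs_sub_le _ _ _
    have h9 : e1 * pw (k + j) (t + 2 * j) ≤ e1 * (2 * pw k t) := mul_le_mul_of_nonneg_left h7 he1
    have h10 : k + (j + 1) = k + j + 1 := by ring
    have h11 : t + 2 * (j + 1) = t + 2 * j + 2 := by ring
    rw [h10, h11]
    push_cast
    nlinarith only [h3, h6, h8, h9]

/-- comparison of the terms under a shift `Z' = Z + j (2 - θ) + r` -/
private theorem shift_near {x : ℕ} {e1 e2 : ℝ} (he1 : 0 ≤ e1) (he2 : 0 ≤ e2) (hN : Near x e1 e2)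
    (hl : 1000 ≤ lx x) (hT : 1000 * (TT x : ℝ) ≤ lx x / 100000)
    {Z Z' r : ℝ} {k j : ℕ} (hZ : Z' = Z + j * (2 - th) + r) (hr0 : 0 ≤ r) (hr1 : r ≤ 1)
    (hk : lx x / 50 ≤ k) (hkj : ((k + j : ℕ) : ℝ) ≤ lx x / 5) (hj : 2 * j * e1 ≤ 1)
    (hu : |(tk k Z : ℝ) - 2 * k| ≤ 31 * TT x) :
    |aa Z' (k + j) - aa Z k| ≤ (2 * j * e1 + 2 * e2) * aa Z k := by
  have hp := aa_nonneg Z k
  have htk : ∃ e : ℕ, e ≤ 1 ∧ tk (k + j) Z' = tk k Z + 2 * j + e := by
    have h1 : ((k + j : ℕ) : ℝ) * th + Z' = (k * th + Z + r) + ((2 * j : ℤ) : ℝ) := by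
      rw [hZ]; push_cast; ring
    have h2 : tk (k + j) Z' = ⌊(k : ℝ) * th + Z + r⌋ + 2 * j + 1 := by
      unfold tk
      rw [h1, Int.floor_add_intCast]
    have h3 : ⌊(k : ℝ) * th + Z⌋ ≤ ⌊(k : ℝ) * th + Z + r⌋ := Int.floor_mono (by linarith only [hr0])
    have h4 : ⌊(k : ℝ) * th + Z + r⌋ ≤ ⌊(k : ℝ) * th + Z⌋ + 1 := by
      rw [← Int.floor_add_one]
      exact Int.floor_mono (by linarith)
    refine ⟨(⌊(k : ℝ) * th + Z + r⌋ - ⌊(k : ℝ) * th + Z⌋).toNat, by omega, ?_⟩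
    rw [h2]
    unfold tk
    rw [Int.toNat_of_nonneg (by omega)]
    ring
  obtain ⟨e, he, hte⟩ := htk
  have hpos : 0 ≤ tk k Z := by
    have h1 := (abs_le.1 hu).1
    have h2 : (0 : ℝ) ≤ (tk k Z : ℝ) := by linarith only [hl, hT, hk, h1]
    exact_mod_cast h2
  set t := (tk k Z).toNat with ht
  have htc : (t : ℤ) = tk k Z := Int.toNat_of_nonneg hpos
  have htr : (t : ℝ) = (tk k Z : ℝ) := by exact_mod_cast htc
  have ht' : (tk (k + j) Z').toNat = t + 2 * j + e := by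
    rw [hte, ← htc]; omega
  have hu' : |(t : ℝ) - 2 * k| ≤ 31 * TT x := by rw [htr]; exact hu
  have h1 := iter_near he1 hN hk hu' j hkj hj
  have haZ : aa Z k = pw k t := rfl
  have haZ' : aa Z' (k + j) = pw (k + j) (t + 2 * j + e) := by
    unfold aa; rw [ht']
  rw [haZ, haZ']
  have hpk := pw_nonneg k t
  have h2 : pw (k + j) (t + 2 * j) ≤ 2 * pw k t := by
    have := (abs_le.1 h1).2
    nlinarith only [this, hj, hp, haZ]
  have h3 : |pw (k + j) (t + 2 * j + e) - pw (k + j) (t + 2 * j)| ≤ e2 * (2 * pw k t) := by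
    have h4 : lx x / 50 ≤ ((k + j : ℕ) : ℝ) := by push_cast; linarith only [hk, (Nat.cast_nonneg j : (0:ℝ) ≤ j)]
    have h5 : |((t + 2 * j : ℕ) : ℝ) - 2 * ((k + j : ℕ) : ℝ)| ≤ 31 * TT x := by
      have : ((t + 2 * j : ℕ) : ℝ) - 2 * ((k + j : ℕ) : ℝ) = (t : ℝ) - 2 * k := by push_cast; ring
      rw [this]; exact hu'
    have h6 := (hN (k + j) (t + 2 * j) h4 hkj h5).2.1
    interval_cases e
    · simp only [add_zero, sub_self, abs_zero]
      positivity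
    · exact h6.trans (mul_le_mul_of_nonneg_left h2 he2)
  calc |pw (k + j) (t + 2 * j + e) - pw k t|
      ≤ |pw (k + j) (t + 2 * j + e) - pw (k + j) (t + 2 * j)| + |pw (k + j) (t + 2 * j) - pw k t| :=
        abs_sub_le _ _ _
    _ ≤ e2 * (2 * pw k t) + 2 * j * e1 * pw k t := add_le_add h3 h1
    _ = _ := by ring

/-- one direction of the comparison -/
private theorem one_dir {x : ℕ} {e1 e2 ε : ℝ} (he1 : 0 ≤ e1) (he2 : 0 ≤ e2) (hN : Near x e1 e2)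
    (hl : 1000 ≤ lx x) (hT : 1000 * (TT x : ℝ) ≤ lx x / 100000) (hT1 : 1 ≤ TT x)
    (hK1 : (n1 x : ℝ) ≤ lx x / 5) (hK2 : 17 * lx x / 100 ≤ ((n1 x - mm x : ℕ) : ℝ))
    (hnc : ∀ Z : ℝ, ∀ k : ℕ, 1 ≤ k → k ≤ n1 x →
      30 * (TT x : ℝ) < |(tk k Z : ℝ) - 2 * k| → pw k (tk k Z).toNat ≤ 1 / (lx x) ^ 5)
    (hε : 80 * TT x * e1 + 2 * e2 ≤ ε) (hε1 : ε ≤ 1 / 2)
    {Z Z' : ℝ} (hZ1 : lx x / 100 ≤ Z) (hZ2 : Z ≤ 3 * lx x / 50) (hZ'1 : lx x / 100 ≤ Z')
    (hZ'2 : Z' ≤ 3 * lx x / 50) (hZZ : Z ≤ Z') (hd : Z' - Z ≤ 16 * TT x) :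
    Rf false (n1 x - mm x) Z' ≤ (1 + ε) * Rf false (n1 x - mm x) Z + 1 / (5 * (lx x) ^ 4) ∧
    Rf false (n1 x - mm x) Z ≤ (1 + 2 * ε) * Rf false (n1 x - mm x) Z' + 1 / (5 * (lx x) ^ 4) := by
  classical
  obtain ⟨b1, b2⟩ := th_bounds
  set l := lx x with hldef
  set K := n1 x - mm x with hK
  have hlpos : 0 < l := by linarith only [b1, b2, hl]
  have hT0 : (1 : ℝ) ≤ TT x := by exact_mod_cast hT1
  have h2t : 0 < 2 - th := by linarith only [b1, b2]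
  -- the shift
  obtain ⟨j, r, hr0, hr1, hZj⟩ : ∃ (j : ℕ) (r : ℝ), 0 ≤ r ∧ r ≤ 1 ∧ Z' = Z + j * (2 - th) + r := by
    refine ⟨⌊(Z' - Z) / (2 - th)⌋₊, Z' - Z - ⌊(Z' - Z) / (2 - th)⌋₊ * (2 - th), ?_, ?_, by ring⟩
    · have h1 := Nat.floor_le (show 0 ≤ (Z' - Z) / (2 - th) from div_nonneg (by linarith only [hZZ]) h2t.le)
      rw [le_div_iff₀ h2t] at h1
      linarith only [h1]
    · have h1 := Nat.lt_floor_add_one ((Z' - Z) / (2 - th))
      rw [div_lt_iff₀ h2t] at h1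
      nlinarith only [b1, b2, h1]
  have hj40 : (j : ℝ) ≤ 40 * TT x := by
    have hj0 : (0 : ℝ) ≤ j := Nat.cast_nonneg j
    have h1 : (j : ℝ) * (2 - th) ≤ 16 * TT x := by linarith only [hd, hr0, hZj]
    have h2 : 41 / 100 * (j : ℝ) ≤ j * (2 - th) := by nlinarith only [b2]
    linarith
  have hj0 : (0 : ℝ) ≤ j := Nat.cast_nonneg j
  have hje : 2 * j * e1 + 2 * e2 ≤ ε := by
    have : 2 * (j : ℝ) * e1 ≤ 80 * TT x * e1 := by nlinarith only [he1, hj40]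
    linarith
  have hj1 : 2 * j * e1 ≤ 1 := by nlinarith only [he2, hε1, b1, b2, hje]
  have hε0 : 0 ≤ ε := by
    refine le_trans ?_ hε
    positivity
  -- termwise comparison
  have hterm : ∀ k : ℕ, |(tk k Z : ℝ) - 2 * k| ≤ 31 * TT x →
      |aa Z' (k + j) - aa Z k| ≤ ε * aa Z k := by
    intro k hu
    obtain ⟨c1, c2⟩ := central_range hl hT hZ1 hZ2 hu
    have hkj : ((k + j : ℕ) : ℝ) ≤ l / 5 := by push_cast; linarith only [b1, b2, hT, hT0, hj40, c2]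
    have h1 := shift_near he1 he2 hN hl hT hZj hr0 hr1 (by linarith only [b1, b2, hT, hT0, c1]) hkj hj1 hu
    exact h1.trans (mul_le_mul_of_nonneg_right hje (aa_nonneg _ _))
  -- relation of the deviations
  have hdev : ∀ k : ℕ, ∃ e : ℝ, 0 ≤ e ∧ e ≤ 1 ∧
      (tk (k + j) Z' : ℝ) - 2 * ((k + j : ℕ) : ℝ) = (tk k Z : ℝ) - 2 * k + e := by
    intro k
    have h1 : ((k + j : ℕ) : ℝ) * th + Z' = (k * th + Z + r) + ((2 * j : ℤ) : ℝ) := by
      rw [hZj]; push_cast; ring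
    have h2 : tk (k + j) Z' = ⌊(k : ℝ) * th + Z + r⌋ + 2 * j + 1 := by
      unfold tk
      rw [h1, Int.floor_add_intCast]
    have h3 : ⌊(k : ℝ) * th + Z⌋ ≤ ⌊(k : ℝ) * th + Z + r⌋ := Int.floor_mono (by linarith only [hr0])
    have h4 : ⌊(k : ℝ) * th + Z + r⌋ ≤ ⌊(k : ℝ) * th + Z⌋ + 1 := by
      rw [← Int.floor_add_one]
      exact Int.floor_mono (by linarith)
    have h3' : (⌊(k : ℝ) * th + Z⌋ : ℝ) ≤ ⌊(k : ℝ) * th + Z + r⌋ := by exact_mod_cast h3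
    have h4' : (⌊(k : ℝ) * th + Z + r⌋ : ℝ) ≤ ⌊(k : ℝ) * th + Z⌋ + 1 := by exact_mod_cast h4
    refine ⟨(⌊(k : ℝ) * th + Z + r⌋ : ℝ) - ⌊(k : ℝ) * th + Z⌋, by linarith, by linarith, ?_⟩
    rw [h2]
    unfold tk
    push_cast
    ring
  have hKn : K ≤ n1 x := Nat.sub_le _ _
  have hKr : (K : ℝ) ≤ l / 5 := by
    have : (K : ℝ) ≤ n1 x := by exact_mod_cast hKn
    linarith only [hK1, this]
  -- total of the non central terms
  have hnon : ∀ W : ℝ, ∑ k ∈ (Finset.Icc 1 K).filter (fun k => ¬ |(tk k W : ℝ) - 2 * k| ≤ 30 * TT x),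
      aa W k ≤ 1 / (5 * l ^ 4) := by
    intro W
    calc ∑ k ∈ (Finset.Icc 1 K).filter (fun k => ¬ |(tk k W : ℝ) - 2 * k| ≤ 30 * TT x), aa W k
        ≤ ∑ _k ∈ (Finset.Icc 1 K).filter (fun k => ¬ |(tk k W : ℝ) - 2 * k| ≤ 30 * TT x),
          1 / l ^ 5 := by
          refine Finset.sum_le_sum fun k hk => ?_
          rw [Finset.mem_filter, Finset.mem_Icc, not_le] at hk
          exact hnc W k hk.1.1 (hk.1.2.trans hKn) hk.2
      _ ≤ ∑ _k ∈ Finset.Icc 1 K, 1 / l ^ 5 := by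
          refine Finset.sum_le_sum_of_subset_of_nonneg (Finset.filter_subset _ _) ?_
          intro _ _ _
          positivity
      _ = K * (1 / l ^ 5) := by rw [Finset.sum_const, Nat.card_Icc, nsmul_eq_mul]; simp
      _ ≤ (l / 5) * (1 / l ^ 5) := by gcongr
      _ = 1 / (5 * l ^ 4) := by field_simp
  have hsplit : ∀ W : ℝ, Rf false K W =
      ∑ k ∈ (Finset.Icc 1 K).filter (fun k => |(tk k W : ℝ) - 2 * k| ≤ 30 * TT x), aa W k +
      ∑ k ∈ (Finset.Icc 1 K).filter (fun k => ¬ |(tk k W : ℝ) - 2 * k| ≤ 30 * TT x), aa W k := by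
    intro W
    rw [Rf_false, Finset.sum_filter_add_sum_filter_not]
  constructor
  · -- (A)
    rw [hsplit Z']
    refine add_le_add ?_ (hnon Z')
    have h1 : ∀ k' ∈ (Finset.Icc 1 K).filter (fun k => |(tk k Z' : ℝ) - 2 * k| ≤ 30 * TT x),
        j + 1 ≤ k' ∧ aa Z' k' ≤ (1 + ε) * aa Z (k' - j) := by
      intro k' hk'
      rw [Finset.mem_filter, Finset.mem_Icc] at hk'
      obtain ⟨⟨g1, g2⟩, g3⟩ := hk'
      obtain ⟨c1, c2⟩ := central_range hl hT hZ'1 hZ'2 (g3.trans (by linarith only [b1, b2, hT0]))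
      have hjk : j + 1 ≤ k' := by
        have : (j : ℝ) + 1 ≤ k' := by linarith only [b1, b2, hT, hT0, hj40, c1]
        exact_mod_cast this
      refine ⟨hjk, ?_⟩
      obtain ⟨e, he0, he1', hdv⟩ := hdev (k' - j)
      rw [Nat.sub_add_cancel (by omega)] at hdv
      have h2 : |(tk (k' - j) Z : ℝ) - 2 * ((k' - j : ℕ) : ℝ)| ≤ 31 * TT x := by
        rw [abs_le] at g3 ⊢
        constructor <;> linarith only [hT0, g3, he1', hdv, b1, b2, he0, g3.1, g3.2]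
      have h3 := hterm (k' - j) h2
      rw [Nat.sub_add_cancel (by omega)] at h3
      have := (abs_le.1 h3).2
      linarith only [this]
    calc ∑ k ∈ (Finset.Icc 1 K).filter (fun k => |(tk k Z' : ℝ) - 2 * k| ≤ 30 * TT x), aa Z' k
        ≤ ∑ k ∈ (Finset.Icc 1 K).filter (fun k => |(tk k Z' : ℝ) - 2 * k| ≤ 30 * TT x),
            (1 + ε) * aa Z (k - j) := Finset.sum_le_sum fun k hk => (h1 k hk).2
      _ = ∑ k ∈ ((Finset.Icc 1 K).filter (fun k => |(tk k Z' : ℝ) - 2 * k| ≤ 30 * TT x)).image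
            (fun k => k - j), (1 + ε) * aa Z k := by
          rw [Finset.sum_image]
          intro a ha b hb hab
          have ha' := (h1 a ha).1
          have hb' := (h1 b hb).1
          simp only at hab
          omega
      _ ≤ ∑ k ∈ Finset.Icc 1 K, (1 + ε) * aa Z k := by
          refine Finset.sum_le_sum_of_subset_of_nonneg ?_ ?_
          · intro k hk
            obtain ⟨k', hk', rfl⟩ := Finset.mem_image.1 hk
            have h3 := (h1 k' hk').1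
            rw [Finset.mem_filter, Finset.mem_Icc] at hk'
            rw [Finset.mem_Icc]
            omega
          · intro k _ _
            have := aa_nonneg Z k
            positivity
      _ = (1 + ε) * Rf false K Z := by rw [Rf_false, Finset.mul_sum]
  · -- (B)
    rw [hsplit Z]
    refine add_le_add ?_ (hnon Z)
    have h1 : ∀ k ∈ (Finset.Icc 1 K).filter (fun k => |(tk k Z : ℝ) - 2 * k| ≤ 30 * TT x),
        k + j ≤ K ∧ aa Z k ≤ (1 + 2 * ε) * aa Z' (k + j) := by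
      intro k hk
      rw [Finset.mem_filter, Finset.mem_Icc] at hk
      obtain ⟨⟨g1, g2⟩, g3⟩ := hk
      have g4 : |(tk k Z : ℝ) - 2 * k| ≤ 31 * TT x := g3.trans (by linarith only [b1, b2, hT0])
      obtain ⟨c1, c2⟩ := central_range hl hT hZ1 hZ2 g4
      have hjk : k + j ≤ K := by
        have : (k : ℝ) + j ≤ K := by linarith only [b1, b2, hT, hK2, hT0, hj40, c2]
        exact_mod_cast this
      refine ⟨hjk, ?_⟩
      have h3 := hterm k g4
      have h4 := (abs_le.1 h3).1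
      have h5 := aa_nonneg Z k
      have h6 := aa_nonneg Z' (k + j)
      -- `a (1 - ε) ≤ b`, `(1 - ε)(1 + 2ε) ≥ 1`
      have h7 : aa Z k * (1 - ε) ≤ aa Z' (k + j) := by linarith only [h4]
      have h8 : aa Z k ≤ aa Z k * (1 - ε) * (1 + 2 * ε) := by
        have : 1 ≤ (1 - ε) * (1 + 2 * ε) := by nlinarith only [hε1, hε0]
        nlinarith only [b1, b2, h5, this]
      calc aa Z k ≤ aa Z k * (1 - ε) * (1 + 2 * ε) := h8
        _ ≤ aa Z' (k + j) * (1 + 2 * ε) := by gcongr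
        _ = _ := by ring
    calc ∑ k ∈ (Finset.Icc 1 K).filter (fun k => |(tk k Z : ℝ) - 2 * k| ≤ 30 * TT x), aa Z k
        ≤ ∑ k ∈ (Finset.Icc 1 K).filter (fun k => |(tk k Z : ℝ) - 2 * k| ≤ 30 * TT x),
            (1 + 2 * ε) * aa Z' (k + j) := Finset.sum_le_sum fun k hk => (h1 k hk).2
      _ = ∑ k ∈ ((Finset.Icc 1 K).filter (fun k => |(tk k Z : ℝ) - 2 * k| ≤ 30 * TT x)).image
            (fun k => k + j), (1 + 2 * ε) * aa Z' k := by
          rw [Finset.sum_image]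
          intro a _ b _ hab
          simp only at hab
          omega
      _ ≤ ∑ k ∈ Finset.Icc 1 K, (1 + 2 * ε) * aa Z' k := by
          refine Finset.sum_le_sum_of_subset_of_nonneg ?_ ?_
          · intro k hk
            obtain ⟨k', hk', rfl⟩ := Finset.mem_image.1 hk
            have h3 := (h1 k' hk').1
            rw [Finset.mem_filter, Finset.mem_Icc] at hk'
            rw [Finset.mem_Icc]
            omega
          · intro k _ _
            have := aa_nonneg Z' k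
            positivity
      _ = (1 + 2 * ε) * Rf false K Z' := by rw [Rf_false, Finset.mul_sum]

/-- (7.2) -/
theorem R1_slow : ∃ C : ℝ, 0 < C ∧ ∃ x0 : ℕ, ∀ x ≥ x0, ∀ Z Z' : ℝ,
    lx x / 100 ≤ Z → Z ≤ 3 * lx x / 50 → lx x / 100 ≤ Z' → Z' ≤ 3 * lx x / 50 →
    |Z - Z'| ≤ 16 * TT x →
    |Rf false (n1 x - mm x) Z' - Rf false (n1 x - mm x) Z|
      ≤ C * (lx x) ^ (-(1 : ℝ) / 5) * Rf false (n1 x - mm x) Z + 1 / (lx x) ^ 3 := by
  obtain ⟨C0, x1, hx1⟩ := ratios_near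
  obtain ⟨x2, hx2⟩ := params
  obtain ⟨x3, hx3⟩ := noncentral
  set C : ℝ := max C0 1 with hC
  have hC1 : 1 ≤ C := le_max_right _ _
  have hCC : C0 ≤ C := le_max_left _ _
  -- `162 C l^{-1/5} ≤ 1/2` for large `x`
  have hlim : Filter.Tendsto (fun x : ℕ => 162 * C * (lx x) ^ (-(1 : ℝ) / 5)) Filter.atTop
      (nhds 0) := by
    have h1 : Filter.Tendsto (fun y : ℝ => y ^ (-((1 : ℝ) / 5))) Filter.atTop (nhds 0) :=
      tendsto_rpow_neg_atTop (by norm_num)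
    have h2 := (h1.comp lx_tendsto).const_mul (162 * C)
    rw [mul_zero] at h2
    refine h2.congr fun x => ?_
    simp only [Function.comp]
    norm_num
  obtain ⟨x4, hx4⟩ := (hlim.eventually (ge_mem_nhds (show (0 : ℝ) < 1 / 2 by norm_num))).exists_forall_of_atTop
  refine ⟨4 * (162 * C), by positivity, max (max x1 x2) (max x3 x4), fun x hx Z Z' hZ1 hZ2 hZ'1 hZ'2 hd => ?_⟩
  have hxx1 : x ≥ x1 := le_trans (le_trans (le_max_left _ _) (le_max_left _ _)) hx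
  have hxx2 : x ≥ x2 := le_trans (le_trans (le_max_right _ _) (le_max_left _ _)) hx
  have hxx3 : x ≥ x3 := le_trans (le_trans (le_max_left _ _) (le_max_right _ _)) hx
  have hxx4 : x ≥ x4 := le_trans (le_trans (le_max_right _ _) (le_max_right _ _)) hx
  obtain ⟨hl, hT1, hT2, hT3, hT4, hm1, hm2, hn1, hn2, hmn, hTm⟩ := hx2 x hxx2
  have hnc := hx3 x hxx3
  have hsmall := hx4 x hxx4
  set l := lx x with hldef
  have hlpos : 0 < l := by linarith only [hl]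
  have hp1 : 0 ≤ l ^ (-(4 : ℝ) / 5) := by positivity
  have hp2 : 0 ≤ l ^ (-(2 : ℝ) / 5) := by positivity
  have hp3 : 0 ≤ l ^ (-(1 : ℝ) / 5) := by positivity
  have hN : Near x (C * l ^ (-(4 : ℝ) / 5)) (C * l ^ (-(2 : ℝ) / 5)) := by
    intro k t hk1 hk2 hu
    obtain ⟨r1, r2, r3⟩ := hx1 x hxx1 k t hk1 hk2 hu
    have hp := pw_nonneg k t
    refine ⟨r1.trans ?_, r2.trans ?_, r3.trans ?_⟩ <;> gcongr
  have hKnat : ((n1 x - mm x : ℕ) : ℝ) = (n1 x : ℝ) - mm x := by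
    rw [Nat.cast_sub (by omega)]
  have hK2 : 17 * l / 100 ≤ ((n1 x - mm x : ℕ) : ℝ) := by
    rw [hKnat]; linarith only [hl, hm1, hn2]
  set ε : ℝ := 162 * C * l ^ (-(1 : ℝ) / 5) with hε
  have hεbound : 80 * (TT x : ℝ) * (C * l ^ (-(4 : ℝ) / 5)) + 2 * (C * l ^ (-(2 : ℝ) / 5)) ≤ ε := by
    have hT5 : (TT x : ℝ) ≤ 2 * l ^ ((3 : ℝ) / 5) := by
      have h1 : 1 ≤ l ^ ((3 : ℝ) / 5) := Real.one_le_rpow (by linarith only [hl]) (by norm_num)
      linarith only [hT2, h1]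
    have e1 : l ^ ((3 : ℝ) / 5) * l ^ (-(4 : ℝ) / 5) = l ^ (-(1 : ℝ) / 5) := by
      rw [← Real.rpow_add hlpos]; norm_num
    have e2 : l ^ (-(2 : ℝ) / 5) ≤ l ^ (-(1 : ℝ) / 5) :=
      Real.rpow_le_rpow_of_exponent_le (by linarith only [hl]) (by norm_num)
    have e3 : (TT x : ℝ) * l ^ (-(4 : ℝ) / 5) ≤ 2 * l ^ (-(1 : ℝ) / 5) := by
      rw [← e1]
      calc (TT x : ℝ) * l ^ (-(4 : ℝ) / 5) ≤ (2 * l ^ ((3 : ℝ) / 5)) * l ^ (-(4 : ℝ) / 5) := by gcongr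
        _ = _ := by ring
    have e4 : 80 * (TT x : ℝ) * (C * l ^ (-(4 : ℝ) / 5)) = 80 * C * ((TT x : ℝ) * l ^ (-(4 : ℝ) / 5)) := by
      ring
    rw [e4, hε]
    have e5 : 80 * C * ((TT x : ℝ) * l ^ (-(4 : ℝ) / 5)) ≤ 80 * C * (2 * l ^ (-(1 : ℝ) / 5)) := by
      gcongr
    have e6 : 2 * (C * l ^ (-(2 : ℝ) / 5)) ≤ 2 * (C * l ^ (-(1 : ℝ) / 5)) := by gcongr
    linarith only [e5, e6]
  have hε0 : 0 ≤ ε := by positivity
  have hη : 2 * (1 / (5 * l ^ 4)) ≤ 1 / l ^ 3 := by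
    rw [show (2 : ℝ) * (1 / (5 * l ^ 4)) = (2 / (5 * l)) * (1 / l ^ 3) by field_simp]
    have : 2 / (5 * l) ≤ 1 := by rw [div_le_one (by positivity)]; linarith only [hl]
    have h3 : 0 ≤ 1 / l ^ 3 := by positivity
    nlinarith only [this, h3]
  have hη0 : 0 ≤ 1 / (5 * l ^ 4) := by positivity
  have hgen : ∀ {W W' : ℝ}, l / 100 ≤ W → W ≤ 3 * l / 50 → l / 100 ≤ W' → W' ≤ 3 * l / 50 →
      W ≤ W' → W' - W ≤ 16 * TT x →
      Rf false (n1 x - mm x) W' ≤ (1 + ε) * Rf false (n1 x - mm x) W + 1 / (5 * l ^ 4) ∧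
      Rf false (n1 x - mm x) W ≤ (1 + 2 * ε) * Rf false (n1 x - mm x) W' + 1 / (5 * l ^ 4) := by
    intro W W' g1 g2 g3 g4 g5 g6
    exact one_dir (by positivity) (by positivity) hN hl hT3 hT4 hn1 hK2 hnc hεbound hsmall g1 g2 g3 g4 g5 g6
  have hR := Rf_nonneg false (n1 x - mm x) Z
  have hR' := Rf_nonneg false (n1 x - mm x) Z'
  have hfin : 4 * (162 * C) * l ^ (-(1 : ℝ) / 5) = 4 * ε := by rw [hε]; ring
  rw [hfin]
  rcases le_total Z Z' with hZZ | hZZ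
  · obtain ⟨A, B⟩ := hgen hZ1 hZ2 hZ'1 hZ'2 hZZ (by have := (abs_le.1 hd).1; linarith only [this])
    rw [abs_le]
    constructor
    · nlinarith only [hη, hη0, B, hsmall, hε0, hR, A]
    · nlinarith only [hη, hη0, A, hε0, hR]
  · obtain ⟨A, B⟩ := hgen hZ'1 hZ'2 hZ1 hZ2 hZZ (by have := (abs_le.1 hd).2; linarith only [this])
    rw [abs_le]
    constructor
    · nlinarith only [hη, hη0, A, hε0, hR, B]
    · nlinarith only [hη, hη0, B, hε0, hR]

end Pool.Agent.W_e21d3a_h93
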