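import Pool.Agent.W_e21d3a_h93.R2a
import Pool.Agent.W_e21d3a_h93.R1c

set_option autoImplicit false

/-!
# [NC] R2b: natural weights (row 501, 7.4)
-/

namespace Pool.Agent.W_e21d3a_h93

/-- one step: the deviation drops by `0` or `1` -/
private theorem tk_succ (Z : ℝ) (k : ℕ) : tk (k + 1) Z = tk k Z + 1 ∨ tk (k + 1) Z = tk k Z + 2 := by
  obtain ⟨h1, h2⟩ := th_bounds
  have e1 : ((k + 1 : ℕ) : ℝ) * th + Z = (k * th + Z) + th := by push_cast; ring
  have h3 : ⌊(k : ℝ) * th + Z⌋ + 1 ≤ ⌊((k + 1 : ℕ) : ℝ) * th + Z⌋ := by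
    rw [e1, ← Int.floor_add_one]
    exact Int.floor_mono (by linarith)
  have h4 : ⌊((k + 1 : ℕ) : ℝ) * th + Z⌋ ≤ ⌊(k : ℝ) * th + Z⌋ + 2 := by
    have : ⌊(k : ℝ) * th + Z + ((2 : ℤ) : ℝ)⌋ = ⌊(k : ℝ) * th + Z⌋ + 2 := Int.floor_add_intCast _ _
    rw [← this, e1]
    refine Int.floor_mono ?_
    push_cast
    linarith
  unfold tk
  omega

/-- deviation -/
private noncomputable def uu (Z : ℝ) (k : ℕ) : ℝ := (tk k Z : ℝ) - 2 * k

private theorem uu_succ (Z : ℝ) (k : ℕ) : uu Z k - 1 ≤ uu Z (k + 1) ∧ uu Z (k + 1) ≤ uu Z k := by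
  unfold uu
  rcases tk_succ Z k with h | h <;> rw [h] <;> push_cast <;> constructor <;> linarith

private theorem uu_add (Z : ℝ) (k i : ℕ) : uu Z k - i ≤ uu Z (k + i) ∧ uu Z (k + i) ≤ uu Z k := by
  induction i with
  | zero => simp
  | succ i ih =>
    have h := uu_succ Z (k + i)
    rw [← add_assoc]
    push_cast
    constructor <;> linarith [h.1, h.2, ih.1, ih.2]

private theorem aa_step {x : ℕ} {e1 e2 : ℝ} (he12 : e1 ≤ e2) (hN : Near x e1 e2)
    (hl : 1000 ≤ lx x) (hT : 1000 * (TT x : ℝ) ≤ lx x / 100000) {Z : ℝ} {k : ℕ}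
    (hZ1 : lx x / 100 ≤ Z) (hZ2 : Z ≤ 3 * lx x / 50) (hu : |uu Z k| ≤ 31 * TT x) :
    |aa Z (k + 1) - aa Z k| ≤ e2 * aa Z k := by
  have hu' : |(tk k Z : ℝ) - 2 * k| ≤ 31 * TT x := hu
  obtain ⟨c1, c2⟩ := central_range hl hT hZ1 hZ2 hu'
  have hpos : 0 ≤ tk k Z := by
    have h1 := (abs_le.1 hu').1
    have h2 : (0 : ℝ) ≤ (tk k Z : ℝ) := by linarith
    exact_mod_cast h2
  have htc : ((tk k Z).toNat : ℤ) = tk k Z := Int.toNat_of_nonneg hpos
  have htr : ((tk k Z).toNat : ℝ) = (tk k Z : ℝ) := by exact_mod_cast htc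
  obtain ⟨r1, r2, r3⟩ := hN k (tk k Z).toNat (by linarith) (by linarith) (by rw [htr]; exact hu')
  have hp := pw_nonneg k (tk k Z).toNat
  unfold aa
  rcases tk_succ Z k with h | h
  · have : (tk (k + 1) Z).toNat = (tk k Z).toNat + 1 := by omega
    rw [this]; exact r3
  · have : (tk (k + 1) Z).toNat = (tk k Z).toNat + 2 := by omega
    rw [this]
    exact r1.trans (mul_le_mul_of_nonneg_right he12 hp)

private theorem aa_iter {x : ℕ} {e1 e2 : ℝ} (he2 : 0 ≤ e2) (he12 : e1 ≤ e2) (hN : Near x e1 e2)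
    (hl : 1000 ≤ lx x) (hT : 1000 * (TT x : ℝ) ≤ lx x / 100000) {Z : ℝ} {k : ℕ}
    (hZ1 : lx x / 100 ≤ Z) (hZ2 : Z ≤ 3 * lx x / 50) (i : ℕ)
    (hu : |uu Z k| + i ≤ 31 * TT x) (hi : 2 * i * e2 ≤ 1) :
    |aa Z (k + i) - aa Z k| ≤ 2 * i * e2 * aa Z k := by
  induction i with
  | zero => simp
  | succ i ih =>
    have hp := aa_nonneg Z k
    push_cast at hu hi
    have h2 : 2 * (i : ℝ) * e2 ≤ 1 := by nlinarith only [he2, hi]
    have h3 := ih (by linarith) h2
    have h4 : |uu Z (k + i)| ≤ 31 * TT x := by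
      have h5 := uu_add Z k i
      have h6 := le_abs_self (uu Z k)
      have h7 := neg_abs_le (uu Z k)
      rw [abs_le]
      constructor <;> linarith only [hu, h5, h7, h6, h5.1, h5.2]
    have h5 := aa_step he12 hN hl hT hZ1 hZ2 h4
    have h7 : aa Z (k + i) ≤ 2 * aa Z k := by
      have := (abs_le.1 h3).2
      nlinarith only [this, he2, hp, hi]
    have h8 : |aa Z (k + i + 1) - aa Z k| ≤
        |aa Z (k + i + 1) - aa Z (k + i)| + |aa Z (k + i) - aa Z k| := abs_sub_le _ _ _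
    have h9 : e2 * aa Z (k + i) ≤ e2 * (2 * aa Z k) := mul_le_mul_of_nonneg_left h7 he2
    rw [← add_assoc]
    push_cast
    nlinarith only [h3, h5, h8, h9]

private theorem sum_Icc_one' (n : ℕ) (f : ℕ → ℝ) :
    ∑ k ∈ Finset.Icc 1 n, f k = ∑ i ∈ Finset.range n, f (i + 1) := by
  induction n with
  | zero => simp
  | succ n ih => rw [Finset.sum_Icc_succ_top (by omega), ih, Finset.sum_range_succ]

/-- sums over shifted windows -/
private theorem shift_window (f : ℕ → ℝ) (K q : ℕ) (d : ℝ)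
    (h1 : ∀ k, 1 ≤ k → k ≤ q → |f k| ≤ d) (h2 : ∀ k, K < k → k ≤ K + q → |f k| ≤ d) (i : ℕ)
    (hi : i ≤ q) :
    |∑ k ∈ Finset.Icc 1 K, f (k + i) - ∑ k ∈ Finset.Icc 1 K, f k| ≤ 2 * i * d := by
  induction i with
  | zero => simp
  | succ i ih =>
    have h3 := ih (by omega)
    have h4 : ∑ k ∈ Finset.Icc 1 K, f (k + (i + 1)) - ∑ k ∈ Finset.Icc 1 K, f (k + i) =
        f (K + 1 + i) - f (1 + i) := by
      rw [← Finset.sum_sub_distrib, sum_Icc_one']
      have h5 := Finset.sum_range_sub (fun k => f (k + 1 + i)) K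
      simp only [zero_add] at h5
      rw [← h5]
      refine Finset.sum_congr rfl fun k _ => ?_
      rw [show k + 1 + (i + 1) = k + 1 + 1 + i by ring]
    have h5 : |f (K + 1 + i)| ≤ d := h2 _ (by omega) (by omega)
    have h6 : |f (1 + i)| ≤ d := h1 _ (by omega) (by omega)
    have h7 : |∑ k ∈ Finset.Icc 1 K, f (k + (i + 1)) - ∑ k ∈ Finset.Icc 1 K, f k| ≤
        |∑ k ∈ Finset.Icc 1 K, f (k + (i + 1)) - ∑ k ∈ Finset.Icc 1 K, f (k + i)| +
        |∑ k ∈ Finset.Icc 1 K, f (k + i) - ∑ k ∈ Finset.Icc 1 K, f k| := abs_sub_le _ _ _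
    rw [h4] at h7
    have h8 : |f (K + 1 + i) - f (1 + i)| ≤ |f (K + 1 + i)| + |f (1 + i)| := abs_sub _ _
    push_cast
    linarith

/-- (7.4) -/
theorem R2_R1 {ε : ℝ} (hε : 0 < ε) : ∃ x0 : ℕ, ∀ x ≥ x0, ∀ Z : ℝ,
    lx x / 100 ≤ Z → Z ≤ 3 * lx x / 50 →
    |Rf true (n1 x - mm x) Z - Rf false (n1 x - mm x) Z / Real.log 2|
      ≤ ε * Rf false (n1 x - mm x) Z + 1 / (lx x) ^ 3 := by
  obtain ⟨C0, x1, hx1⟩ := ratios_near
  obtain ⟨x2, hx2⟩ := params
  obtain ⟨x3, hx3⟩ := noncentral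
  set C : ℝ := max C0 1 with hC
  have hC1 : 1 ≤ C := le_max_right _ _
  have hCC : C0 ≤ C := le_max_left _ _
  -- the block length
  obtain ⟨Q, hQ⟩ := exists_nat_gt (16 / ε)
  obtain ⟨q, p, hQq, hq1, hpq, hthq⟩ := exists_block Q
  have hqr : (1 : ℝ) ≤ q := by exact_mod_cast hq1
  have hq16 : 8 / (q : ℝ) ≤ ε / 2 := by
    have h1 : 16 / ε < q := lt_of_lt_of_le hQ (by exact_mod_cast hQq)
    rw [div_lt_iff₀ hε] at h1
    rw [div_le_iff₀ (by linarith)]
    linarith
  -- smallness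
  have hlim : Filter.Tendsto (fun x : ℕ => 2 * q * (C * (lx x) ^ (-(2 : ℝ) / 5))) Filter.atTop
      (nhds 0) := by
    have h1 : Filter.Tendsto (fun y : ℝ => y ^ (-((2 : ℝ) / 5))) Filter.atTop (nhds 0) :=
      tendsto_rpow_neg_atTop (by norm_num)
    have h2 := (h1.comp lx_tendsto).const_mul (2 * q * C)
    rw [mul_zero] at h2
    refine h2.congr fun x => ?_
    simp only [Function.comp]
    rw [show -((2 : ℝ) / 5) = -2 / 5 by norm_num]
    ring
  obtain ⟨x4, hx4⟩ := (hlim.eventually (ge_mem_nhds (show (0 : ℝ) < min (ε / 2) 1 by positivity))).exists_forall_of_atTop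
  have hlim2 : Filter.Tendsto (fun x : ℕ => (lx x) ^ ((3 : ℝ) / 5)) Filter.atTop Filter.atTop :=
    (tendsto_rpow_atTop (by norm_num)).comp lx_tendsto
  obtain ⟨x5, hx5⟩ := (hlim2.eventually_ge_atTop (2 * (q : ℝ))).exists_forall_of_atTop
  refine ⟨max (max x1 x2) (max x3 (max x4 x5)), fun x hx Z hZ1 hZ2 => ?_⟩
  have hxx1 : x ≥ x1 := le_trans (le_trans (le_max_left _ _) (le_max_left _ _)) hx
  have hxx2 : x ≥ x2 := le_trans (le_trans (le_max_right _ _) (le_max_left _ _)) hx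
  have hxx3 : x ≥ x3 := le_trans (le_trans (le_max_left _ _) (le_max_right _ _)) hx
  have hxx4 : x ≥ x4 :=
    le_trans (le_trans (le_trans (le_max_left _ _) (le_max_right _ _)) (le_max_right _ _)) hx
  have hxx5 : x ≥ x5 :=
    le_trans (le_trans (le_trans (le_max_right _ _) (le_max_right _ _)) (le_max_right _ _)) hx
  obtain ⟨hl, hT1, hT2, hT3, hT4, hm1, hm2, hn1, hn2, hmn, hTm⟩ := hx2 x hxx2
  have hnc := hx3 x hxx3
  have hsmall := hx4 x hxx4
  have hTq : 2 * (q : ℝ) ≤ TT x := (hx5 x hxx5).trans hT1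
  have hTqn : 2 * q ≤ TT x := by exact_mod_cast hTq
  set l := lx x with hldef
  set K := n1 x - mm x with hK
  have hlpos : 0 < l := by linarith only [hqr, hTq, hT3]
  have hT0 : (1 : ℝ) ≤ TT x := by exact_mod_cast hT4
  set e2 : ℝ := C * l ^ (-(2 : ℝ) / 5) with he2
  set e1 : ℝ := C * l ^ (-(4 : ℝ) / 5) with he1
  have he20 : 0 ≤ e2 := by positivity
  have he12 : e1 ≤ e2 := by
    rw [he1, he2]
    have : l ^ (-(4 : ℝ) / 5) ≤ l ^ (-(2 : ℝ) / 5) :=
      Real.rpow_le_rpow_of_exponent_le (by linarith only [hqr, hTq, hT3]) (by norm_num)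
    gcongr
  have hs1 : 2 * q * e2 ≤ ε / 2 := hsmall.trans (min_le_left _ _)
  have hs2 : 2 * q * e2 ≤ 1 := hsmall.trans (min_le_right _ _)
  have hN : Near x e1 e2 := by
    intro k t hk1 hk2 hu
    obtain ⟨r1, r2, r3⟩ := hx1 x hxx1 k t hk1 hk2 hu
    have hp := pw_nonneg k t
    refine ⟨?_, ?_, ?_⟩
    · refine r1.trans ?_
      rw [he1]; gcongr
    · refine r2.trans ?_
      rw [he2]; gcongr
    · refine r3.trans ?_
      rw [he2]; gcongr
  have hKq : K + q ≤ n1 x := by omega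
  have hKr : (K : ℝ) ≤ l / 5 := by
    have : (K : ℝ) ≤ n1 x := by exact_mod_cast (by omega : K ≤ n1 x)
    linarith only [hn1, this]
  have hKlow : 17 * l / 100 ≤ (K : ℝ) := by
    have : (K : ℝ) = (n1 x : ℝ) - mm x := by rw [hK, Nat.cast_sub (by omega)]
    rw [this]; linarith only [hqr, hTq, hT3, hm1, hn2]
  set d : ℝ := 1 / l ^ 5 with hd
  have hd0 : 0 ≤ d := by positivity
  have hfar : ∀ k, 1 ≤ k → k ≤ n1 x → 30 * (TT x : ℝ) < |uu Z k| → aa Z k ≤ d :=
    fun k h1 h2 h3 => hnc Z k h1 h2 h3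
  -- the weights
  set g : ℕ → ℝ := fun k => hh (Z + k * th) - 1 / Real.log 2 with hg
  have hg1 : ∀ k, |g k| ≤ 1 := by
    intro k
    have h1 := hh_mem (Z + k * th)
    have h2 := Real.log_two_gt_d9
    have h3 := Real.log_two_lt_d9
    have h4 : 1 ≤ 1 / Real.log 2 := by rw [le_div_iff₀ (by linarith only [h2, h3])]; linarith only [h2, h3]
    have h5 : 1 / Real.log 2 ≤ 2 := by rw [div_le_iff₀ (by linarith only [h2, h3])]; linarith only [h2, h3]
    simp only [hg]
    rw [abs_le]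
    constructor <;> linarith only [h1, h5, h4, h1.1, h1.2]
  have hS : Rf true K Z - Rf false K Z / Real.log 2 = ∑ k ∈ Finset.Icc 1 K, g k * aa Z k := by
    rw [Rf_false]
    unfold Rf
    rw [Finset.sum_div, ← Finset.sum_sub_distrib]
    refine Finset.sum_congr rfl fun k _ => ?_
    simp only [if_true, hg]
    rw [two_rpow_vk]
    unfold aa
    ring
  have hR := Rf_nonneg false K Z
  -- boundary terms
  have hf1 : ∀ k, 1 ≤ k → k ≤ q → |g k * aa Z k| ≤ d := by
    intro k h1 h2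
    have h3 : 30 * (TT x : ℝ) < |uu Z k| := by
      by_contra hcon
      push Not at hcon
      have h4 := central_range (k := k) hl hT3 hZ1 hZ2 (hcon.trans (by linarith only [hqr, hTq]))
      have h5 : (k : ℝ) ≤ q := by exact_mod_cast h2
      linarith only [hqr, hTq, hT3, h4, h5, h4.1]
    have h6 := hfar k h1 (by omega) h3
    rw [abs_mul, abs_of_nonneg (aa_nonneg Z k)]
    have := aa_nonneg Z k
    have := hg1 k
    nlinarith only [hd0, this, h6, abs_nonneg (g k)]
  have hf2 : ∀ k, K < k → k ≤ K + q → |g k * aa Z k| ≤ d := by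
    intro k h1 h2
    have h3 : 30 * (TT x : ℝ) < |uu Z k| := by
      by_contra hcon
      push Not at hcon
      have h4 := central_range (k := k) hl hT3 hZ1 hZ2 (hcon.trans (by linarith only [hqr, hTq]))
      have h5 : (K : ℝ) ≤ k := by exact_mod_cast h1.le
      linarith only [hqr, hTq, hT3, hKlow, h4, h5, h4.2]
    have h6 := hfar k (by omega) (by omega) h3
    rw [abs_mul, abs_of_nonneg (aa_nonneg Z k)]
    have := aa_nonneg Z k
    have := hg1 k
    nlinarith only [hd0, this, h6, abs_nonneg (g k)]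
  -- replacing `a_{k+i}` by `a_k`
  have hrep : ∀ k ∈ Finset.Icc 1 K, ∀ i ∈ Finset.range q,
      |aa Z (k + i) - aa Z k| ≤ 2 * q * e2 * aa Z k + d := by
    intro k hk i hi
    rw [Finset.mem_Icc] at hk
    rw [Finset.mem_range] at hi
    have hiq : (i : ℝ) ≤ q := by exact_mod_cast hi.le
    have hak := aa_nonneg Z k
    by_cases hc : |uu Z k| ≤ 30 * TT x + q
    · have h1 := aa_iter he20 he12 hN hl hT3 (Z := Z) (k := k) hZ1 hZ2 i (by linarith only [hTq, hiq, hc])
        (by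
          have : 2 * (i : ℝ) * e2 ≤ 2 * q * e2 := by gcongr
          linarith only [hs2, this])
      refine h1.trans ?_
      have : 2 * (i : ℝ) * e2 * aa Z k ≤ 2 * q * e2 * aa Z k := by gcongr
      linarith only [hd0, this]
    · push Not at hc
      have h1 : 30 * (TT x : ℝ) < |uu Z k| := by linarith only [hqr, hc]
      have h2 : 30 * (TT x : ℝ) < |uu Z (k + i)| := by
        have h5 := uu_add Z k i
        rcases lt_abs.1 hc with h | h
        · exact lt_abs.2 (Or.inl (by linarith only [hiq, h5, h, h5.1]))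
        · exact lt_abs.2 (Or.inr (by linarith only [hqr, h5, h, h5.2]))
      have h3 := hfar k hk.1 (by omega) h1
      have h4 := hfar (k + i) (by omega) (by omega) h2
      have h5 := aa_nonneg Z (k + i)
      have h6 : 0 ≤ 2 * q * e2 * aa Z k := by positivity
      rw [abs_le]
      constructor <;> linarith only [h3, h5, h6, hak, h4]
  -- the averaged sum
  set S : ℝ := ∑ k ∈ Finset.Icc 1 K, g k * aa Z k with hSdef
  have hav : (q : ℝ) * S = ∑ i ∈ Finset.range q,
        (S - ∑ k ∈ Finset.Icc 1 K, g (k + i) * aa Z (k + i)) +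
      ∑ k ∈ Finset.Icc 1 K, ∑ i ∈ Finset.range q, g (k + i) * (aa Z (k + i) - aa Z k) +
      ∑ k ∈ Finset.Icc 1 K, (∑ i ∈ Finset.range q, g (k + i)) * aa Z k := by
    rw [Finset.sum_sub_distrib, Finset.sum_const, Finset.card_range, nsmul_eq_mul,
      Finset.sum_comm (s := Finset.range q), sub_add_eq_add_sub, sub_add_eq_add_sub]
    have h1 : ∑ k ∈ Finset.Icc 1 K, ∑ i ∈ Finset.range q, g (k + i) * aa Z (k + i) =
        ∑ k ∈ Finset.Icc 1 K, ∑ i ∈ Finset.range q, g (k + i) * (aa Z (k + i) - aa Z k) +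
        ∑ k ∈ Finset.Icc 1 K, (∑ i ∈ Finset.range q, g (k + i)) * aa Z k := by
      rw [← Finset.sum_add_distrib]
      refine Finset.sum_congr rfl fun k _ => ?_
      rw [Finset.sum_mul, ← Finset.sum_add_distrib]
      refine Finset.sum_congr rfl fun i _ => ?_
      ring
    rw [h1]
    ring
  have hb1 : |∑ i ∈ Finset.range q, (S - ∑ k ∈ Finset.Icc 1 K, g (k + i) * aa Z (k + i))| ≤
      q * (2 * q * d) := by
    refine (Finset.abs_sum_le_sum_abs _ _).trans ?_
    calc ∑ i ∈ Finset.range q, |S - ∑ k ∈ Finset.Icc 1 K, g (k + i) * aa Z (k + i)|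
        ≤ ∑ _i ∈ Finset.range q, 2 * q * d := by
          refine Finset.sum_le_sum fun i hi => ?_
          rw [Finset.mem_range] at hi
          have h1 := shift_window (fun k => g k * aa Z k) K q d hf1 hf2 i hi.le
          rw [abs_sub_comm] at h1
          refine h1.trans ?_
          have : (i : ℝ) ≤ q := by exact_mod_cast hi.le
          gcongr
      _ = q * (2 * q * d) := by rw [Finset.sum_const, Finset.card_range, nsmul_eq_mul]
  have hb2 : |∑ k ∈ Finset.Icc 1 K, ∑ i ∈ Finset.range q, g (k + i) * (aa Z (k + i) - aa Z k)| ≤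
      q * (2 * q * e2) * Rf false K Z + q * (K * d) := by
    refine (Finset.abs_sum_le_sum_abs _ _).trans ?_
    calc ∑ k ∈ Finset.Icc 1 K, |∑ i ∈ Finset.range q, g (k + i) * (aa Z (k + i) - aa Z k)|
        ≤ ∑ k ∈ Finset.Icc 1 K, ∑ _i ∈ Finset.range q, (2 * q * e2 * aa Z k + d) := by
          refine Finset.sum_le_sum fun k hk => ?_
          refine (Finset.abs_sum_le_sum_abs _ _).trans (Finset.sum_le_sum fun i hi => ?_)
          rw [abs_mul]
          have h1 := hg1 (k + i)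
          have h2 := hrep k hk i hi
          have h3 := abs_nonneg (aa Z (k + i) - aa Z k)
          nlinarith only [h2, h1, h3, abs_nonneg (g (k + i))]
      _ = q * (2 * q * e2) * Rf false K Z + q * (K * d) := by
          rw [Rf_false]
          simp_rw [Finset.sum_const, Finset.card_range, nsmul_eq_mul]
          rw [← Finset.mul_sum, Finset.sum_add_distrib, ← Finset.mul_sum, Finset.sum_const,
            Nat.card_Icc, nsmul_eq_mul]
          simp only [Nat.add_sub_cancel]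
          ring
  have hb3 : |∑ k ∈ Finset.Icc 1 K, (∑ i ∈ Finset.range q, g (k + i)) * aa Z k| ≤
      8 * Rf false K Z := by
    refine (Finset.abs_sum_le_sum_abs _ _).trans ?_
    rw [Rf_false, Finset.mul_sum]
    refine Finset.sum_le_sum fun k _ => ?_
    rw [abs_mul, abs_of_nonneg (aa_nonneg Z k)]
    refine mul_le_mul_of_nonneg_right ?_ (aa_nonneg Z k)
    have h1 := block_equi q p hq1 hpq hthq (Z + k * th)
    have h2 : ∑ i ∈ Finset.range q, g (k + i) =
        ∑ i ∈ Finset.range q, hh (Z + k * th + i * th) - q / Real.log 2 := by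
      simp only [hg]
      rw [Finset.sum_sub_distrib, Finset.sum_const, Finset.card_range, nsmul_eq_mul]
      congr 1
      · refine Finset.sum_congr rfl fun i _ => ?_
        congr 1
        push_cast
        ring
      · ring
    rw [h2]
    exact h1
  have hqpos : (0 : ℝ) < q := by linarith only [hqr]
  have htot : (q : ℝ) * |S| ≤ q * (2 * q * d) + (q * (2 * q * e2) * Rf false K Z + q * (K * d)) +
      8 * Rf false K Z := by
    rw [← abs_of_pos hqpos, ← abs_mul, abs_of_pos hqpos, hav]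
    refine (abs_add_le _ _).trans (add_le_add ((abs_add_le _ _).trans (add_le_add hb1 hb2)) hb3)
  have hfin : |S| ≤ (2 * q * e2 + 8 / q) * Rf false K Z + (2 * q + K) * d := by
    have h1 : (q : ℝ) * ((2 * q * e2 + 8 / q) * Rf false K Z + (2 * q + K) * d) =
        q * (2 * q * d) + (q * (2 * q * e2) * Rf false K Z + q * (K * d)) + 8 * Rf false K Z := by
      field_simp
      ring
    rw [← h1] at htot
    exact le_of_mul_le_mul_left htot hqpos
  rw [hS]
  refine hfin.trans (add_le_add ?_ ?_)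
  · refine mul_le_mul_of_nonneg_right ?_ hR
    linarith only [hq16, hs1]
  · have h1 : (2 * (q : ℝ) + K) ≤ l := by linarith only [hqr, hTq, hT3, hKr]
    calc (2 * (q : ℝ) + K) * d ≤ l * d := by gcongr
      _ = 1 / l ^ 4 := by rw [hd]; field_simp
      _ ≤ 1 / l ^ 3 := by
        apply one_div_le_one_div_of_le (by positivity)
        exact pow_le_pow_right₀ (by linarith only [hqr, hTq, hT3]) (by norm_num)

end Pool.Agent.W_e21d3a_h93
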