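import Pool.Agent.W_e21d3a_h93.C1
import Pool.Agent.W_e21d3a_h93.R1c
import Pool.Agent.W_e21d3a_h93.R2b
import Pool.Agent.W_e21d3a_h93.P2b

set_option autoImplicit false

/-!
# [NC] C8: main term (row 500, (6.4), (6.5))
-/

namespace Pool.Agent.W_e21d3a_h93

open Finset

theorem qq_nonneg (x : ℕ) (E : Set ℕ) : 0 ≤ qq x E := by
  unfold qq
  refine sum_nonneg fun M _ => mul_nonneg (by positivity) (sum_nonneg fun s _ => phi_nonneg _ _ _ _)

theorem C8_MM_mono (x : ℕ) {E E' : Set ℕ} (h : E ⊆ E') : MM x E ⊆ MM x E' := by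
  classical
  intro M hM
  unfold MM at hM ⊢
  rw [mem_filter] at hM ⊢
  exact ⟨hM.1, hM.2.1, hM.2.2.1, h hM.2.2.2⟩

theorem qq_mono (x : ℕ) {E E' : Set ℕ} (h : E ⊆ E') : qq x E ≤ qq x E' := by
  unfold qq
  exact sum_le_sum_of_subset_of_nonneg (C8_MM_mono x h) fun M _ _ =>
    mul_nonneg (by positivity) (sum_nonneg fun s _ => phi_nonneg _ _ _ _)

/-- the block bound for a set of sums `s` -/
theorem C8_block : ∃ x0 : ℕ, ∀ x ≥ x0, ∀ E : Set ℕ, ∀ S : Finset ℕ,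
    ∑ M ∈ MM x E, 3 ^ mm x / (M : ℝ) * ∑ s ∈ S, phi (mm x) (mm x) s M
      ≤ 20 * TT x * ∑ s ∈ S, pw (mm x) s := by
  obtain ⟨x1, h1⟩ := block_bound_MM
  obtain ⟨x2, h2⟩ := params
  refine ⟨max x1 x2, fun x hx E S => ?_⟩
  have hx1 : x ≥ x1 := le_trans (le_max_left _ _) hx
  have hx2 : x ≥ x2 := le_trans (le_max_right _ _) hx
  obtain ⟨-, -, -, -, -, -, -, -, -, hmn, -⟩ := h2 x hx2
  have hm : mm x ≤ n1 x := by omega
  have h3 := h1 x hx1 (mm x) hm (fun Y => 3 ^ mm x * ∑ s ∈ S, phi (mm x) (mm x) s Y)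
    (fun Y => mul_nonneg (by positivity) (sum_nonneg fun s _ => phi_nonneg _ _ _ _))
    (fun Y z => by
      congr 1
      refine sum_congr rfl fun s _ => phi_periodic _ _ _ _ _) E
  have e1 : ∑ M ∈ MM x E, 3 ^ mm x / (M : ℝ) * ∑ s ∈ S, phi (mm x) (mm x) s M =
      ∑ M ∈ MM x E, (3 ^ mm x * ∑ s ∈ S, phi (mm x) (mm x) s (M : ℤ)) / (M : ℝ) := by
    refine sum_congr rfl fun M _ => ?_
    ring
  rw [e1]
  refine h3.trans (le_of_eq ?_)
  rw [← mul_sum, sum_comm]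
  simp only [sum_phi]
  field_simp

theorem qq_le : ∃ x0 : ℕ, ∀ x ≥ x0, ∀ E : Set ℕ, qq x E ≤ 20 * TT x := by
  obtain ⟨x0, h⟩ := C8_block
  refine ⟨x0, fun x hx E => ?_⟩
  unfold qq
  refine (h x hx E _).trans ?_
  have h1 : ∑ s ∈ Icc (2 * mm x - 2 * TT x) (2 * mm x + 2 * TT x), pw (mm x) s ≤ 1 := by
    refine le_trans ?_ (sum_pw_le_one (mm x) (2 * mm x + 2 * TT x))
    refine sum_le_sum_of_subset_of_nonneg ?_ fun s _ _ => pw_nonneg _ _
    intro s hs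
    rw [mem_Icc] at hs
    rw [mem_range]
    omega
  have h2 : (0 : ℝ) ≤ 20 * TT x := by positivity
  calc 20 * (TT x : ℝ) * ∑ s ∈ Icc (2 * mm x - 2 * TT x) (2 * mm x + 2 * TT x), pw (mm x) s
      ≤ 20 * TT x * 1 := mul_le_mul_of_nonneg_left h1 h2
    _ = 20 * TT x := mul_one _

theorem C8_log2 : 0 < Real.log 2 := Real.log_pos (by norm_num)

theorem C8_th_log : th * Real.log 2 = Real.log 3 := by
  unfold th
  rw [Real.logb, div_mul_cancel₀ _ C8_log2.ne']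

theorem C8_th_lo : 19 / 12 ≤ th := by
  have h1 : (19 : ℝ) * Real.log 2 ≤ 12 * Real.log 3 := by
    have h : Real.log ((2 : ℝ) ^ 19) ≤ Real.log ((3 : ℝ) ^ 12) :=
      Real.log_le_log (by norm_num) (by norm_num)
    rw [Real.log_pow, Real.log_pow] at h
    exact_mod_cast h
  rw [← C8_th_log] at h1
  have h2 := C8_log2
  by_contra hc
  push Not at hc
  nlinarith

theorem C8_th_hi : th ≤ 65 / 41 := by
  have h1 : (41 : ℝ) * Real.log 3 ≤ 65 * Real.log 2 := by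
    have h : Real.log ((3 : ℝ) ^ 41) ≤ Real.log ((2 : ℝ) ^ 65) :=
      Real.log_le_log (by norm_num) (by norm_num)
    rw [Real.log_pow, Real.log_pow] at h
    exact_mod_cast h
  rw [← C8_th_log] at h1
  have h2 := C8_log2
  by_contra hc
  push Not at hc
  nlinarith

theorem C8_Lam : Lam = (2 - th) * Real.log 2 := by
  have h1 : (2 - th) * Real.log 2 = 2 * Real.log 2 - th * Real.log 2 := by ring
  rw [h1, C8_th_log]
  unfold Lam
  rw [Real.log_div (by norm_num) (by norm_num)]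
  have : (4 : ℝ) = 2 ^ 2 := by norm_num
  rw [this, Real.log_pow]
  norm_num

theorem C8_large (L : ℝ) : ∃ x0 : ℕ, ∀ x ≥ x0, L ≤ lx x :=
  Filter.eventually_atTop.1 (lx_tendsto.eventually_ge_atTop L)

theorem C8_pos {x : ℕ} (h : 1 ≤ lx x) : (0 : ℝ) < x := by
  rcases Nat.eq_zero_or_pos x with h0 | h0
  · exfalso
    rw [h0] at h
    unfold lx at h
    simp at h
    linarith
  · exact_mod_cast h0

/-- `0.015 l ≤ Z₀ ≤ 0.052 l` -/
theorem Z0_mem : ∃ x0 : ℕ, ∀ x ≥ x0, ∀ y, WW x y →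
    3 / 200 * lx x ≤ Z0 x y ∧ Z0 x y ≤ 13 / 250 * lx x := by
  obtain ⟨x1, h1⟩ := params
  obtain ⟨x2, h2⟩ := C8_large 2000
  refine ⟨max x1 x2, fun x hx y hy => ?_⟩
  obtain ⟨hl, -, -, -, -, hm1, hm2, -, -, -, -⟩ := h1 x (le_trans (le_max_left _ _) hx)
  have hl2 := h2 x (le_trans (le_max_right _ _) hx)
  obtain ⟨hy1, hy2⟩ := hy
  have hx0 : (0 : ℝ) < x := C8_pos (by linarith only [hl2])
  have hy0 : (0 : ℝ) < y := C8_pos (by linarith)
  have e1 : Real.logb 2 ((y : ℝ) / x) = (lx y - lx x) / Real.log 2 := by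
    rw [Real.logb, Real.log_div hy0.ne' hx0.ne']
    rfl
  have hlog1 := Real.log_two_gt_d9
  have hlog2 := Real.log_two_lt_d9
  have hlog0 := C8_log2
  have ht1 := C8_th_lo
  have ht2 := C8_th_hi
  have hmm : (0 : ℝ) ≤ mm x := by positivity
  unfold Z0
  rw [e1]
  constructor
  · have a1 : 36 / 1000 * lx x ≤ (lx y - lx x) / Real.log 2 := by
      rw [le_div_iff₀ hlog0]
      nlinarith only [hl2, hy1, hlog1, hlog2, hl]
    have a2 : 2 * (mm x : ℝ) * (2 - th) ≤ 2 * (lx x / 40) * (5 / 12) := by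
      have : (mm x : ℝ) * (2 - th) ≤ (lx x / 40) * (5 / 12) :=
        mul_le_mul hm1 (by linarith only [ht1]) (by linarith only [hlog1, hlog2, ht2]) (by linarith only [hl2, hlog1, hlog2])
      linarith only [this]
    linarith only [hl2, hlog1, hlog2, a1, a2]
  · have a1 : (lx y - lx x) / Real.log 2 ≤ 7214 / 100000 * lx x := by
      rw [div_le_iff₀ hlog0]
      nlinarith only [hl2, hy2, hlog1, hlog2, hl]
    have a2 : 2 * (lx x / 40 - 1) * (17 / 41) ≤ 2 * (mm x : ℝ) * (2 - th) := by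
      have : (lx x / 40 - 1) * (17 / 41) ≤ (mm x : ℝ) * (2 - th) :=
        mul_le_mul hm2 (by linarith only [ht2]) (by norm_num) hmm
      linarith only [this]
    linarith only [hl2, hlog1, hlog2, a1, a2]

/-- `|Z - Z₀| ≤ 8T` for `x₋ ≤ M ≤ x₊`, `|s - 2m| ≤ 2T` -/
theorem Zf_near : ∃ x0 : ℕ, ∀ x ≥ x0, ∀ y, WW x y → ∀ M s : ℕ, xm x ≤ M → (M : ℝ) ≤ xp x →
    2 * mm x - 2 * TT x ≤ s → s ≤ 2 * mm x + 2 * TT x → |Zf x y M s - Z0 x y| ≤ 8 * TT x := by
  obtain ⟨x1, h1⟩ := params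
  obtain ⟨x2, h2⟩ := C8_large 2000
  refine ⟨max x1 x2, fun x hx y hy M s hM1 hM2 hs1 hs2 => ?_⟩
  obtain ⟨hl, -, -, -, -, hm1, hm2, -, -, -, hTm⟩ := h1 x (le_trans (le_max_left _ _) hx)
  have hl2 := h2 x (le_trans (le_max_right _ _) hx)
  obtain ⟨hy1, hy2⟩ := hy
  have hx0 : (0 : ℝ) < x := C8_pos (by linarith)
  have hy0 : (0 : ℝ) < y := C8_pos (by linarith only [hl2, hy1])
  have hlog0 := C8_log2
  have hlog1 := Real.log_two_gt_d9
  have hxm : 0 < xm x := by unfold xm; positivity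
  have hM0 : (0 : ℝ) < M := lt_of_lt_of_le hxm hM1
  have b1 : lx x + mm x * Lam - 4 * TT x ≤ Real.log M := by
    have := Real.log_le_log hxm hM1
    unfold xm at this
    rw [Real.log_mul hx0.ne' (Real.exp_pos _).ne', Real.log_exp] at this
    have e : Real.log (x : ℝ) = lx x := rfl
    rw [e] at this
    linarith only [this]
  have b2 : Real.log M ≤ lx x + mm x * Lam + 2 * TT x := by
    have := Real.log_le_log hM0 hM2
    unfold xp at this
    rw [Real.log_mul hx0.ne' (Real.exp_pos _).ne', Real.log_exp] at this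
    have e : Real.log (x : ℝ) = lx x := rfl
    rw [e] at this
    linarith only [this]
  have e1 : Real.logb 2 ((y : ℝ) / x) = (lx y - lx x) / Real.log 2 := by
    rw [Real.logb, Real.log_div hy0.ne' hx0.ne']
    rfl
  have e2 : Real.logb 2 ((y : ℝ) / M) = (lx y - Real.log M) / Real.log 2 := by
    rw [Real.logb, Real.log_div hy0.ne' hM0.ne']
    rfl
  have hs1' : 2 * (mm x : ℝ) - 2 * TT x ≤ s := by
    have : 2 * mm x ≤ s + 2 * TT x := by omega
    have h' : (2 * (mm x : ℝ)) ≤ s + 2 * TT x := by exact_mod_cast this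
    linarith only [h']
  have hs2' : (s : ℝ) ≤ 2 * mm x + 2 * TT x := by exact_mod_cast hs2
  have e3 : Zf x y M s - Z0 x y = (2 * mm x - s) + (lx x + mm x * Lam - Real.log M) / Real.log 2 := by
    unfold Zf Z0
    rw [e1, e2, C8_Lam]
    field_simp
    ring
  have hT0 : (0 : ℝ) ≤ TT x := by positivity
  have c1 : (lx x + mm x * Lam - Real.log M) / Real.log 2 ≤ 6 * TT x := by
    rw [div_le_iff₀ hlog0]
    nlinarith only [b1, hlog0, hlog1]
  have c2 : -(3 * (TT x : ℝ)) ≤ (lx x + mm x * Lam - Real.log M) / Real.log 2 := by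
    rw [le_div_iff₀ hlog0]
    nlinarith only [b2, hlog0, hlog1]
  rw [e3, abs_le]
  constructor <;> linarith only [hs2', c2, hs1', c1]

/-- the near sums are in the range -/
theorem C8_tmax : ∃ x0 : ℕ, ∀ x ≥ x0, ∀ y, WW x y → 2 * mm x + 2 * TT x < tmax x y + 1 := by
  obtain ⟨x1, h1⟩ := params
  refine ⟨x1, fun x hx y hy => ?_⟩
  obtain ⟨hl, -, -, hTl, -, hm1, hm2, -, -, -, hTm⟩ := h1 x hx
  obtain ⟨hy1, hy2⟩ := hy
  have hy0 : (0 : ℝ) < y := C8_pos (by linarith only [hl, hy1])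
  have hy0' : 0 < y := by exact_mod_cast hy0
  have h2 : y < 2 ^ tmax x y := by
    unfold tmax
    have h3 : 4 * y * 3 ^ n1 x < 2 ^ (Nat.log 2 (4 * y * 3 ^ n1 x) + 1) :=
      Nat.lt_pow_succ_log_self (by norm_num) _
    refine lt_of_le_of_lt ?_ h3
    have h4 : 1 ≤ 3 ^ n1 x := Nat.one_le_pow _ _ (by norm_num)
    nlinarith only [hy0', h4]
  have h3 : lx y < tmax x y := by
    have h4 : Real.log y < Real.log ((2 : ℝ) ^ tmax x y) :=
      Real.log_lt_log hy0 (by exact_mod_cast h2)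
    rw [Real.log_pow] at h4
    have h5 := Real.log_two_lt_d9
    have h6 : (tmax x y : ℝ) * Real.log 2 ≤ tmax x y * 1 :=
      mul_le_mul_of_nonneg_left (by linarith only [h5]) (by positivity)
    have e : Real.log (y : ℝ) = lx y := rfl
    rw [e] at h4
    linarith only [h4, h6]
  have h4 : (2 * (mm x : ℝ) + 2 * TT x) < tmax x y + 1 := by linarith only [hl, hTl, hm1, hy1, h3]
  exact_mod_cast h4

theorem C8_far : ∃ x0 : ℕ, ∀ x ≥ x0, ∀ E : Set ℕ, ∀ τ : ℕ,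
    ∑ M ∈ MM x E, 3 ^ mm x / (M : ℝ) *
      ∑ s ∈ range (τ + 1) \ Icc (2 * mm x - 2 * TT x) (2 * mm x + 2 * TT x), phi (mm x) (mm x) s M
      ≤ 40 * TT x / (lx x) ^ 6 := by
  obtain ⟨x1, h1⟩ := C8_block
  obtain ⟨x2, h2⟩ := params
  obtain ⟨x3, h3⟩ := exp_small 6
  refine ⟨max x1 (max x2 x3), fun x hx E τ => ?_⟩
  have hx1 : x ≥ x1 := le_trans (le_max_left _ _) hx
  have hx2 : x ≥ x2 := le_trans ((le_max_left _ _).trans (le_max_right _ _)) hx
  have hx3 : x ≥ x3 := le_trans ((le_max_right _ _).trans (le_max_right _ _)) hx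
  obtain ⟨hl, -, -, -, hT1, -, -, -, -, hmn, hTm⟩ := h2 x hx2
  have hm1 : 1 ≤ mm x := by omega
  have hexp := h3 x hx3 (mm x) hm1 (by omega)
  refine (h1 x hx1 E _).trans ?_
  have hT2 : 1 ≤ 2 * TT x := by omega
  have hT3 : 2 * TT x ≤ mm x := by omega
  have hup := tail_up hT2 hT3 le_rfl τ
  have hdn := tail_down hT2 hT3 le_rfl τ
  have hE : Real.exp (-((2 * TT x : ℕ) : ℝ) ^ 2 / (24 * mm x)) ≤ 1 / (lx x) ^ 6 := by
    refine le_trans (Real.exp_le_exp.2 ?_) hexp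
    apply div_le_div_of_nonneg_right _ (by positivity)
    push_cast
    have : (0 : ℝ) ≤ (TT x : ℝ) ^ 2 := by positivity
    nlinarith
  have hsum : ∑ s ∈ range (τ + 1) \ Icc (2 * mm x - 2 * TT x) (2 * mm x + 2 * TT x), pw (mm x) s ≤
      2 * (1 / (lx x) ^ 6) := by
    have hsub : range (τ + 1) \ Icc (2 * mm x - 2 * TT x) (2 * mm x + 2 * TT x) ⊆
        (range (τ + 1)).filter (fun t => 2 * mm x + 2 * TT x ≤ t) ∪
          (range (τ + 1)).filter (fun t => t + 2 * TT x ≤ 2 * mm x) := by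
      intro s hs
      rw [mem_sdiff, mem_Icc, mem_range] at hs
      rw [mem_union, mem_filter, mem_filter, mem_range]
      omega
    have h4 : ∑ s ∈ range (τ + 1) \ Icc (2 * mm x - 2 * TT x) (2 * mm x + 2 * TT x), pw (mm x) s ≤
        ∑ s ∈ (range (τ + 1)).filter (fun t => 2 * mm x + 2 * TT x ≤ t) ∪
          (range (τ + 1)).filter (fun t => t + 2 * TT x ≤ 2 * mm x), pw (mm x) s :=
      sum_le_sum_of_subset_of_nonneg hsub fun s _ _ => pw_nonneg _ _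
    have h5 := sum_union_inter (s₁ := (range (τ + 1)).filter (fun t => 2 * mm x + 2 * TT x ≤ t))
      (s₂ := (range (τ + 1)).filter (fun t => t + 2 * TT x ≤ 2 * mm x)) (f := fun s => pw (mm x) s)
    have h6 : 0 ≤ ∑ s ∈ (range (τ + 1)).filter (fun t => 2 * mm x + 2 * TT x ≤ t) ∩
        (range (τ + 1)).filter (fun t => t + 2 * TT x ≤ 2 * mm x), pw (mm x) s :=
      sum_nonneg fun s _ => pw_nonneg _ _
    linarith only [hup, hdn, hE, h4, h5, h6]
  have hT0 : (0 : ℝ) ≤ 20 * TT x := by positivity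
  calc 20 * (TT x : ℝ) * ∑ s ∈ range (τ + 1) \ Icc (2 * mm x - 2 * TT x) (2 * mm x + 2 * TT x), pw (mm x) s
      ≤ 20 * TT x * (2 * (1 / (lx x) ^ 6)) := mul_le_mul_of_nonneg_left hsum hT0
    _ = 40 * TT x / (lx x) ^ 6 := by ring

/-- the main estimate -/
theorem C8_main (b : Bool) : ∃ x0 : ℕ, ∀ x ≥ x0, ∀ y, WW x y → ∀ E : Set ℕ, ∀ c0 D : ℝ,
    (∀ M ∈ MM x E, ∀ s ∈ Icc (2 * mm x - 2 * TT x) (2 * mm x + 2 * TT x),
      |Rf b (n1 x - mm x) (Zf x y M s) - c0| ≤ D) →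
    |SF b x y E - c0 * qq x E| ≤ D * qq x E + 1 / (lx x) ^ 3 := by
  obtain ⟨x1, h1⟩ := C8_far
  obtain ⟨x2, h2⟩ := params
  obtain ⟨x3, h3⟩ := C8_tmax
  refine ⟨max x1 (max x2 x3), fun x hx y hy E c0 D hD => ?_⟩
  have hx1 : x ≥ x1 := le_trans (le_max_left _ _) hx
  have hx2 : x ≥ x2 := le_trans ((le_max_left _ _).trans (le_max_right _ _)) hx
  have hx3 : x ≥ x3 := le_trans ((le_max_right _ _).trans (le_max_right _ _)) hx
  obtain ⟨hl, -, -, hTl, hT1, -, -, hn1, -, hmn, hTm⟩ := h2 x hx2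
  have hfar := h1 x hx1 E (tmax x y)
  have hran := h3 x hx3 y hy
  set S := Icc (2 * mm x - 2 * TT x) (2 * mm x + 2 * TT x) with hS
  have hsub : S ⊆ range (tmax x y + 1) := by
    intro s hs
    rw [hS, mem_Icc] at hs
    rw [mem_range]
    omega
  have hK : ((n1 x - mm x : ℕ) : ℝ) ≤ lx x / 5 := by
    have : ((n1 x - mm x : ℕ) : ℝ) ≤ n1 x := by exact_mod_cast Nat.sub_le _ _
    linarith only [hn1, this]
  have e1 : SF b x y E - c0 * qq x E = ∑ M ∈ MM x E, 3 ^ mm x / (M : ℝ) *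
      (∑ s ∈ S, phi (mm x) (mm x) s M * (Rf b (n1 x - mm x) (Zf x y M s) - c0) +
        ∑ s ∈ range (tmax x y + 1) \ S, phi (mm x) (mm x) s M * Rf b (n1 x - mm x) (Zf x y M s)) := by
    unfold SF qq
    rw [mul_sum, ← sum_sub_distrib]
    refine sum_congr rfl fun M _ => ?_
    rw [← sum_sdiff hsub]
    have : ∑ s ∈ S, phi (mm x) (mm x) s M * (Rf b (n1 x - mm x) (Zf x y M s) - c0) =
        ∑ s ∈ S, phi (mm x) (mm x) s M * Rf b (n1 x - mm x) (Zf x y M s) -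
          c0 * ∑ s ∈ S, phi (mm x) (mm x) s M := by
      rw [mul_sum, ← sum_sub_distrib]
      refine sum_congr rfl fun s _ => by ring
    rw [this]
    ring
  rw [e1]
  refine (abs_sum_le_sum_abs _ _).trans ?_
  have hRf0 : ∀ Z, 0 ≤ Rf b (n1 x - mm x) Z := fun Z => Rf_nonneg _ _ _
  calc ∑ M ∈ MM x E, |3 ^ mm x / (M : ℝ) *
      (∑ s ∈ S, phi (mm x) (mm x) s M * (Rf b (n1 x - mm x) (Zf x y M s) - c0) +
        ∑ s ∈ range (tmax x y + 1) \ S, phi (mm x) (mm x) s M * Rf b (n1 x - mm x) (Zf x y M s))|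
      ≤ ∑ M ∈ MM x E, (D * (3 ^ mm x / (M : ℝ) * ∑ s ∈ S, phi (mm x) (mm x) s M) +
          (2 * (lx x / 5)) * (3 ^ mm x / (M : ℝ) * ∑ s ∈ range (tmax x y + 1) \ S, phi (mm x) (mm x) s M)) := by
        refine sum_le_sum fun M hM => ?_
        have hc : (0 : ℝ) ≤ 3 ^ mm x / (M : ℝ) := by positivity
        rw [abs_mul, abs_of_nonneg hc]
        have h5 : |∑ s ∈ S, phi (mm x) (mm x) s M * (Rf b (n1 x - mm x) (Zf x y M s) - c0)| ≤
            D * ∑ s ∈ S, phi (mm x) (mm x) s M := by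
          refine (abs_sum_le_sum_abs _ _).trans ?_
          rw [mul_sum]
          refine sum_le_sum fun s hs => ?_
          rw [abs_mul, abs_of_nonneg (phi_nonneg _ _ _ _), mul_comm]
          exact mul_le_mul_of_nonneg_right (hD M hM s hs) (phi_nonneg _ _ _ _)
        have h6 : |∑ s ∈ range (tmax x y + 1) \ S, phi (mm x) (mm x) s M * Rf b (n1 x - mm x) (Zf x y M s)| ≤
            (2 * (lx x / 5)) * ∑ s ∈ range (tmax x y + 1) \ S, phi (mm x) (mm x) s M := by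
          refine (abs_sum_le_sum_abs _ _).trans ?_
          rw [mul_sum]
          refine sum_le_sum fun s hs => ?_
          rw [abs_mul, abs_of_nonneg (phi_nonneg _ _ _ _), abs_of_nonneg (hRf0 _), mul_comm]
          refine mul_le_mul_of_nonneg_right ?_ (phi_nonneg _ _ _ _)
          refine (Rf_le _ _ _).trans ?_
          linarith only [hK]
        have h7 := (abs_add_le (∑ s ∈ S, phi (mm x) (mm x) s M * (Rf b (n1 x - mm x) (Zf x y M s) - c0))
          (∑ s ∈ range (tmax x y + 1) \ S, phi (mm x) (mm x) s M * Rf b (n1 x - mm x) (Zf x y M s)))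
        have h8 := mul_le_mul_of_nonneg_left (h7.trans (add_le_add h5 h6)) hc
        refine h8.trans (le_of_eq ?_)
        ring
    _ = D * qq x E + (2 * (lx x / 5)) * ∑ M ∈ MM x E, 3 ^ mm x / (M : ℝ) *
          ∑ s ∈ range (tmax x y + 1) \ S, phi (mm x) (mm x) s M := by
        rw [sum_add_distrib, ← mul_sum, ← mul_sum]
        rfl
    _ ≤ D * qq x E + (2 * (lx x / 5)) * (40 * TT x / (lx x) ^ 6) := by
        have : (0 : ℝ) ≤ 2 * (lx x / 5) := by linarith only [hl]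
        have := mul_le_mul_of_nonneg_left hfar this
        linarith only [this]
    _ ≤ D * qq x E + 1 / (lx x) ^ 3 := by
        have hl0 : 0 < lx x := by linarith only [hl]
        have hTl' : (TT x : ℝ) ≤ lx x := by
          have : (0 : ℝ) ≤ TT x := by positivity
          linarith
        have : (2 * (lx x / 5)) * (40 * TT x / (lx x) ^ 6) ≤ 1 / (lx x) ^ 3 := by
          rw [show (2 * (lx x / 5)) * (40 * TT x / (lx x) ^ 6) = (16 * lx x * TT x) / (lx x) ^ 6 by ring,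
            div_le_div_iff₀ (by positivity) (by positivity)]
          have h9 : 16 * lx x * TT x ≤ lx x * lx x * lx x := by
            have h10 : 16 * lx x * TT x ≤ 16 * lx x * lx x :=
              mul_le_mul_of_nonneg_left hTl' (by positivity)
            nlinarith only [h10, hl]
          calc 16 * lx x * TT x * (lx x) ^ 3 ≤ lx x * lx x * lx x * (lx x) ^ 3 :=
                mul_le_mul_of_nonneg_right h9 (by positivity)
            _ = 1 * (lx x) ^ 6 := by ring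
        linarith only [this]

theorem C8_MM_mem {x M : ℕ} {E : Set ℕ} (h : M ∈ MM x E) : xm x ≤ M ∧ (M : ℝ) ≤ xp x := by
  classical
  unfold MM at h
  rw [mem_filter, mem_Icc] at h
  refine ⟨(Nat.le_ceil _).trans (Nat.cast_le.2 h.1.1), ?_⟩
  have hxp : 0 ≤ xp x := by unfold xp; positivity
  exact (Nat.cast_le.2 h.1.2).trans (Nat.floor_le hxp)

/-- everything known about the near terms -/
theorem C8_near : ∃ C : ℝ, 0 < C ∧ ∃ x0 : ℕ, ∀ x ≥ x0, ∀ y, WW x y → ∀ E : Set ℕ,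
    ∀ M ∈ MM x E, ∀ s ∈ Icc (2 * mm x - 2 * TT x) (2 * mm x + 2 * TT x),
      (lx x / 100 ≤ Zf x y M s ∧ Zf x y M s ≤ 3 * lx x / 50) ∧
      |Rf false (n1 x - mm x) (Zf x y M s) - Rf false (n1 x - mm x) (Z0 x y)| ≤
        C * (lx x) ^ (-(1 : ℝ) / 5) * Rf false (n1 x - mm x) (Z0 x y) + 1 / (lx x) ^ 3 := by
  obtain ⟨C, hC, x1, h1⟩ := R1_slow
  obtain ⟨x2, h2⟩ := params
  obtain ⟨x3, h3⟩ := Z0_mem
  obtain ⟨x4, h4⟩ := Zf_near
  refine ⟨C, hC, max (max x1 x2) (max x3 x4), fun x hx y hy E M hM s hs => ?_⟩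
  have hx1 : x ≥ x1 := le_trans ((le_max_left _ _).trans (le_max_left _ _)) hx
  have hx2 : x ≥ x2 := le_trans ((le_max_right _ _).trans (le_max_left _ _)) hx
  have hx3 : x ≥ x3 := le_trans ((le_max_left _ _).trans (le_max_right _ _)) hx
  have hx4 : x ≥ x4 := le_trans ((le_max_right _ _).trans (le_max_right _ _)) hx
  obtain ⟨hl, -, -, hTl, hT1, -, -, hn1, -, hmn, hTm⟩ := h2 x hx2
  obtain ⟨hz1, hz2⟩ := h3 x hx3 y hy
  obtain ⟨hM1, hM2⟩ := C8_MM_mem hM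
  rw [mem_Icc] at hs
  have hz := h4 x hx4 y hy M s hM1 hM2 hs.1 hs.2
  obtain ⟨hz3, hz4⟩ := abs_le.1 hz
  have hT0 : (0 : ℝ) ≤ TT x := by positivity
  have r1 : lx x / 100 ≤ Zf x y M s := by linarith only [hl, hTl, hz1, hz3]
  have r2 : Zf x y M s ≤ 3 * lx x / 50 := by linarith only [hl, hTl, hz2, hz4]
  refine ⟨⟨r1, r2⟩, h1 x hx1 (Z0 x y) (Zf x y M s) (by linarith only [hl, hz1]) (by linarith only [hl, hz2]) r1 r2 ?_⟩
  rw [abs_sub_comm]
  linarith only [hz]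

/-- logarithmic weights -/
theorem SF_false : ∃ C : ℝ, 0 < C ∧ ∃ x0 : ℕ, ∀ x ≥ x0, ∀ y, WW x y → ∀ E : Set ℕ,
    |SF false x y E - Rf false (n1 x - mm x) (Z0 x y) * qq x E|
      ≤ C * (lx x) ^ (-(1 : ℝ) / 5) * (Rf false (n1 x - mm x) (Z0 x y) * qq x E) + 1 / lx x := by
  obtain ⟨C, hC, x1, h1⟩ := C8_near
  obtain ⟨x2, h2⟩ := params
  obtain ⟨x3, h3⟩ := C8_main false
  obtain ⟨x4, h4⟩ := qq_le
  refine ⟨C, hC, max (max x1 x2) (max x3 x4), fun x hx y hy E => ?_⟩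
  have hx1 : x ≥ x1 := le_trans ((le_max_left _ _).trans (le_max_left _ _)) hx
  have hx2 : x ≥ x2 := le_trans ((le_max_right _ _).trans (le_max_left _ _)) hx
  have hx3 : x ≥ x3 := le_trans ((le_max_left _ _).trans (le_max_right _ _)) hx
  have hx4 : x ≥ x4 := le_trans ((le_max_right _ _).trans (le_max_right _ _)) hx
  obtain ⟨hl, -, -, hTl, hT1, -, -, hn1, -, hmn, hTm⟩ := h2 x hx2
  have hm := h3 x hx3 y hy E (Rf false (n1 x - mm x) (Z0 x y))
    (C * (lx x) ^ (-(1 : ℝ) / 5) * Rf false (n1 x - mm x) (Z0 x y) + 1 / (lx x) ^ 3)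
    (fun M hM s hs => (h1 x hx1 y hy E M hM s hs).2)
  have hq := h4 x hx4 E
  have hq0 := qq_nonneg x E
  refine hm.trans ?_
  have hl0 : 0 < lx x := by linarith only [hl]
  have hT0 : (0 : ℝ) ≤ TT x := by positivity
  have h5 : 1 / (lx x) ^ 3 * qq x E + 1 / (lx x) ^ 3 ≤ 1 / lx x := by
    have h6 : qq x E ≤ 20 * lx x := by linarith only [hl, hTl, hq]
    have h7 : 1 / (lx x) ^ 3 * qq x E + 1 / (lx x) ^ 3 = (qq x E + 1) / (lx x) ^ 3 := by ring
    rw [h7, div_le_div_iff₀ (by positivity) hl0]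
    have h8 : qq x E + 1 ≤ (lx x) ^ 2 := by nlinarith only [hl, hTl, hq]
    calc (qq x E + 1) * lx x ≤ (lx x) ^ 2 * lx x := mul_le_mul_of_nonneg_right h8 hl0.le
      _ = 1 * (lx x) ^ 3 := by ring
  have h9 : (C * (lx x) ^ (-(1 : ℝ) / 5) * Rf false (n1 x - mm x) (Z0 x y) + 1 / (lx x) ^ 3) * qq x E +
      1 / (lx x) ^ 3 = C * (lx x) ^ (-(1 : ℝ) / 5) * (Rf false (n1 x - mm x) (Z0 x y) * qq x E) +
        (1 / (lx x) ^ 3 * qq x E + 1 / (lx x) ^ 3) := by ring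
  rw [h9]
  linarith only [h5]

theorem C8_rpow (C : ℝ) {ε : ℝ} (hε : 0 < ε) : ∃ x0 : ℕ, ∀ x ≥ x0, C * (lx x) ^ (-(1 : ℝ) / 5) ≤ ε := by
  have h1 : Filter.Tendsto (fun x : ℕ => C * (lx x) ^ (-(1 : ℝ) / 5)) Filter.atTop (nhds (C * 0)) := by
    apply Filter.Tendsto.const_mul
    have h2 := (tendsto_rpow_neg_atTop (y := 1 / 5) (by norm_num)).comp lx_tendsto
    refine h2.congr fun x => ?_
    simp only [Function.comp_apply]
    congr 1
    ring
  rw [mul_zero] at h1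
  have h2 := h1.eventually (gt_mem_nhds hε)
  obtain ⟨x0, h⟩ := Filter.eventually_atTop.1 h2
  exact ⟨x0, fun x hx => (h x hx).le⟩

/-- natural weights -/
theorem SF_true {ε : ℝ} (hε : 0 < ε) : ∃ x0 : ℕ, ∀ x ≥ x0, ∀ y, WW x y → ∀ E : Set ℕ,
    |SF true x y E - Rf false (n1 x - mm x) (Z0 x y) * qq x E / Real.log 2|
      ≤ ε * (Rf false (n1 x - mm x) (Z0 x y) * qq x E) + 1 / lx x := by
  set ε' : ℝ := min (ε / 4) 1 with hε'
  have he0 : 0 < ε' := lt_min (by linarith) (by norm_num)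
  have he1 : ε' ≤ 1 := min_le_right _ _
  have he2 : ε' ≤ ε / 4 := min_le_left _ _
  obtain ⟨C, hC, x1, h1⟩ := C8_near
  obtain ⟨x2, h2⟩ := params
  obtain ⟨x3, h3⟩ := C8_main true
  obtain ⟨x4, h4⟩ := qq_le
  obtain ⟨x5, h5⟩ := R2_R1 he0
  obtain ⟨x6, h6⟩ := C8_rpow C (ε := min (ε / 4) 1) he0
  refine ⟨max (max (max x1 x2) (max x3 x4)) (max x5 x6), fun x hx y hy E => ?_⟩
  have hxa : x ≥ max (max x1 x2) (max x3 x4) := le_trans (le_max_left _ _) hx
  have hx1 : x ≥ x1 := le_trans ((le_max_left _ _).trans (le_max_left _ _)) hxa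
  have hx2 : x ≥ x2 := le_trans ((le_max_right _ _).trans (le_max_left _ _)) hxa
  have hx3 : x ≥ x3 := le_trans ((le_max_left _ _).trans (le_max_right _ _)) hxa
  have hx4 : x ≥ x4 := le_trans ((le_max_right _ _).trans (le_max_right _ _)) hxa
  have hx5 : x ≥ x5 := le_trans ((le_max_left _ _).trans (le_max_right _ _)) hx
  have hx6 : x ≥ x6 := le_trans ((le_max_right _ _).trans (le_max_right _ _)) hx
  obtain ⟨hl, -, -, hTl, hT1, -, -, hn1, -, hmn, hTm⟩ := h2 x hx2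
  have hCl : C * (lx x) ^ (-(1 : ℝ) / 5) ≤ ε' := h6 x hx6
  set R0 := Rf false (n1 x - mm x) (Z0 x y) with hR0
  have hR00 : 0 ≤ R0 := Rf_nonneg _ _ _
  have hl0 : 0 < lx x := by linarith only [hl]
  have hlog1 := Real.log_two_gt_d9
  have hlog0 := C8_log2
  have hnear : ∀ M ∈ MM x E, ∀ s ∈ Icc (2 * mm x - 2 * TT x) (2 * mm x + 2 * TT x),
      |Rf true (n1 x - mm x) (Zf x y M s) - R0 / Real.log 2| ≤ ε * R0 + 5 / (lx x) ^ 3 := by
    intro M hM s hs
    obtain ⟨⟨r1, r2⟩, r3⟩ := h1 x hx1 y hy E M hM s hs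
    have r4 := h5 x hx5 (Zf x y M s) r1 r2
    rw [← hR0] at r3
    set R1 := Rf false (n1 x - mm x) (Zf x y M s) with hR1
    set R2 := Rf true (n1 x - mm x) (Zf x y M s) with hR2
    have r5 : |R1 - R0| ≤ ε' * R0 + 1 / (lx x) ^ 3 := by
      refine r3.trans ?_
      have := mul_le_mul_of_nonneg_right hCl hR00
      linarith only [this]
    have hc0 : 0 ≤ 1 / (lx x) ^ 3 := by positivity
    have r6 : |R1 / Real.log 2 - R0 / Real.log 2| ≤ 2 * (ε' * R0 + 1 / (lx x) ^ 3) := by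
      rw [← sub_div, abs_div, abs_of_pos hlog0, div_le_iff₀ hlog0]
      have : 0 ≤ ε' * R0 + 1 / (lx x) ^ 3 := add_nonneg (mul_nonneg he0.le hR00) hc0
      nlinarith only [r5, this, hlog1]
    have r7 : R1 ≤ R0 + (ε' * R0 + 1 / (lx x) ^ 3) := by
      have := (abs_le.1 r5).2
      linarith only [this]
    have r8 : |R2 - R0 / Real.log 2| ≤ |R2 - R1 / Real.log 2| + |R1 / Real.log 2 - R0 / Real.log 2| :=
      abs_sub_le _ _ _
    have r9 : ε' * R1 ≤ ε' * R0 + ε' * R0 + 1 / (lx x) ^ 3 := by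
      have s1 := mul_le_mul_of_nonneg_left r7 he0.le
      have s2 : ε' * (ε' * R0) ≤ 1 * (ε' * R0) :=
        mul_le_mul_of_nonneg_right he1 (mul_nonneg he0.le hR00)
      have s3 : ε' * (1 / (lx x) ^ 3) ≤ 1 * (1 / (lx x) ^ 3) := mul_le_mul_of_nonneg_right he1 hc0
      nlinarith only [s1, s2, s3]
    have r10 : 4 * (ε' * R0) ≤ ε * R0 := by
      have := mul_le_mul_of_nonneg_right he2 hR00
      linarith only [this]
    have r11 : 5 / (lx x) ^ 3 = 5 * (1 / (lx x) ^ 3) := by ring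
    rw [r11]
    linarith only [r4, hc0, r6, r8, r9, r10]
  have hm := h3 x hx3 y hy E (R0 / Real.log 2) (ε * R0 + 5 / (lx x) ^ 3) hnear
  have hq := h4 x hx4 E
  have hq0 := qq_nonneg x E
  have e1 : R0 * qq x E / Real.log 2 = R0 / Real.log 2 * qq x E := by ring
  rw [e1]
  refine hm.trans ?_
  have hT0 : (0 : ℝ) ≤ TT x := by positivity
  have h7 : 5 / (lx x) ^ 3 * qq x E + 1 / (lx x) ^ 3 ≤ 1 / lx x := by
    have h8 : qq x E ≤ 20 * lx x := by linarith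
    have h9 : 5 / (lx x) ^ 3 * qq x E + 1 / (lx x) ^ 3 = (5 * qq x E + 1) / (lx x) ^ 3 := by ring
    rw [h9, div_le_div_iff₀ (by positivity) hl0]
    have h10 : 5 * qq x E + 1 ≤ (lx x) ^ 2 := by nlinarith only [hl, hTl, hq]
    calc (5 * qq x E + 1) * lx x ≤ (lx x) ^ 2 * lx x := mul_le_mul_of_nonneg_right h10 hl0.le
      _ = 1 * (lx x) ^ 3 := by ring
  have h11 : (ε * R0 + 5 / (lx x) ^ 3) * qq x E + 1 / (lx x) ^ 3 = ε * (R0 * qq x E) +
      (5 / (lx x) ^ 3 * qq x E + 1 / (lx x) ^ 3) := by ring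
  rw [h11]
  linarith only [h7]

end Pool.Agent.W_e21d3a_h93
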