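import Pool.Agent.W_e21d3a_h93.Q2b
import Pool.Agent.W_e21d3a_h93.Q1b

set_option autoImplicit false

/-!
# [NC] D1: facts on the window densities LL, nu (row 502, first lines)
-/

namespace Pool.Agent.W_e21d3a_h93

theorem LL_nonneg (y : ℕ) (G : Set ℕ) : 0 ≤ LL y G := by
  classical
  unfold LL
  have h2 : 0 < Real.log 2 := Real.log_pos (by norm_num)
  refine mul_nonneg (by positivity) (Finset.sum_nonneg fun N _ => by positivity)

theorem LL_mono (y : ℕ) {G G' : Set ℕ} (h : ∀ N ∈ OO y, N ∈ G → N ∈ G') : LL y G ≤ LL y G' := by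
  classical
  unfold LL
  have h2 : 0 < Real.log 2 := Real.log_pos (by norm_num)
  refine mul_le_mul_of_nonneg_left ?_ (by positivity)
  refine Finset.sum_le_sum_of_subset_of_nonneg ?_ (fun N _ _ => by positivity)
  intro N hN
  rw [Finset.mem_filter] at hN ⊢
  exact ⟨hN.1, h N hN.1 hN.2⟩

theorem LL_union_le (y : ℕ) (G G' : Set ℕ) : LL y (G ∪ G') ≤ LL y G + LL y G' := by
  classical
  unfold LL
  have h2 : 0 < Real.log 2 := Real.log_pos (by norm_num)
  rw [← mul_add]
  refine mul_le_mul_of_nonneg_left ?_ (by positivity)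
  simp only [Finset.sum_filter]
  rw [← Finset.sum_add_distrib]
  refine Finset.sum_le_sum fun N _ => ?_
  have hN : (0 : ℝ) ≤ 1 / (N : ℝ) := by positivity
  by_cases h1 : N ∈ G <;> by_cases h3 : N ∈ G' <;> simp [h1, h3]

theorem LL_compl (y : ℕ) (G : Set ℕ) : LL y G + LL y Gᶜ = LL y Set.univ := by
  classical
  unfold LL
  rw [← mul_add]
  congr 1
  simp only [Finset.sum_filter]
  rw [← Finset.sum_add_distrib]
  refine Finset.sum_congr rfl fun N _ => ?_
  by_cases h1 : N ∈ G <;> simp [h1]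

theorem nu_nonneg (y : ℕ) (G : Set ℕ) : 0 ≤ nu y G := by
  classical
  unfold nu
  positivity

theorem nu_mono (y : ℕ) {G G' : Set ℕ} (h : ∀ N ∈ OO y, N ∈ G → N ∈ G') : nu y G ≤ nu y G' := by
  classical
  unfold nu
  refine mul_le_mul_of_nonneg_left ?_ (by positivity)
  exact_mod_cast Finset.card_le_card (by
    intro N hN
    rw [Finset.mem_filter] at hN ⊢
    exact ⟨hN.1, h N hN.1 hN.2⟩)

theorem nu_eq_sum (y : ℕ) (G : Set ℕ) [DecidablePred (fun N => N ∈ G)] :
    nu y G = 2 / (y : ℝ) * ∑ N ∈ OO y, if N ∈ G then (1 : ℝ) else 0 := by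
  unfold nu
  rw [Finset.card_filter]
  push_cast
  congr 1

theorem nu_union_le (y : ℕ) (G G' : Set ℕ) : nu y (G ∪ G') ≤ nu y G + nu y G' := by
  classical
  rw [nu_eq_sum, nu_eq_sum, nu_eq_sum, ← mul_add, ← Finset.sum_add_distrib]
  refine mul_le_mul_of_nonneg_left (Finset.sum_le_sum fun N _ => ?_) (by positivity)
  by_cases h1 : N ∈ G <;> by_cases h3 : N ∈ G' <;> simp [h1, h3]

theorem nu_compl (y : ℕ) (G : Set ℕ) : nu y G + nu y Gᶜ = nu y Set.univ := by
  classical
  rw [nu_eq_sum, nu_eq_sum, nu_eq_sum, ← mul_add, ← Finset.sum_add_distrib]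
  congr 1
  refine Finset.sum_congr rfl fun N _ => ?_
  by_cases h1 : N ∈ G <;> simp [h1]

/-- the odd numbers of the window, indexed -/
theorem OO_eq_image (y : ℕ) :
    OO y = (Finset.Ico ((y + 1) / 2) y).image (fun j => 2 * j + 1) := by
  ext N
  simp only [OO, Finset.mem_filter, Finset.mem_Ioc, Finset.mem_image, Finset.mem_Ico]
  constructor
  · rintro ⟨⟨h1, h2⟩, h3⟩
    exact ⟨N / 2, ⟨by omega, by omega⟩, by omega⟩
  · rintro ⟨j, ⟨h1, h2⟩, rfl⟩
    omega

theorem sum_OO {M : Type*} [AddCommMonoid M] (y : ℕ) (F : ℕ → M) :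
    ∑ N ∈ OO y, F N = ∑ j ∈ Finset.Ico ((y + 1) / 2) y, F (2 * j + 1) := by
  rw [OO_eq_image, Finset.sum_image]
  intro a _ b _ h
  simpa using h

theorem sum_odd_le (a b : ℕ) (ha : 1 ≤ a) (hab : a ≤ b) :
    ∑ j ∈ Finset.Ico a b, 2 / ((2 * j + 1 : ℕ) : ℝ) ≤
      Real.log (2 * b - 1) - Real.log (2 * a - 1) := by
  induction b, hab using Nat.le_induction with
  | base => simp
  | succ b hb ih =>
    rw [Finset.sum_Ico_succ_top hb]
    have hb1 : (1 : ℝ) ≤ b := by exact_mod_cast ha.trans hb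
    have h := Real.one_sub_inv_le_log_of_pos (x := (2 * (b : ℝ) + 1) / (2 * b - 1))
      (div_pos (by linarith) (by linarith))
    rw [Real.log_div (by linarith) (by linarith)] at h
    have e : 1 - ((2 * (b : ℝ) + 1) / (2 * b - 1))⁻¹ = 2 / ((2 * b + 1 : ℕ) : ℝ) := by
      push_cast
      rw [inv_div]
      field_simp
      ring
    rw [e] at h
    have e2 : (2 * ((b + 1 : ℕ) : ℝ) - 1) = 2 * b + 1 := by push_cast; ring
    rw [e2]
    linarith

theorem le_sum_odd (a b : ℕ) (hab : a ≤ b) :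
    Real.log (2 * b + 1) - Real.log (2 * a + 1) ≤
      ∑ j ∈ Finset.Ico a b, 2 / ((2 * j + 1 : ℕ) : ℝ) := by
  induction b, hab using Nat.le_induction with
  | base => simp
  | succ b hb ih =>
    rw [Finset.sum_Ico_succ_top hb]
    have hb1 : (0 : ℝ) ≤ b := by positivity
    have h := Real.log_le_sub_one_of_pos (x := (2 * (b : ℝ) + 3) / (2 * b + 1))
      (div_pos (by linarith) (by linarith))
    rw [Real.log_div (by linarith) (by linarith)] at h
    have e : (2 * (b : ℝ) + 3) / (2 * b + 1) - 1 = 2 / ((2 * b + 1 : ℕ) : ℝ) := by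
      push_cast
      field_simp
      ring
    rw [e] at h
    have e2 : (2 * ((b + 1 : ℕ) : ℝ) + 1) = 2 * b + 3 := by push_cast; ring
    rw [e2]
    linarith

/-- total mass -/
theorem LL_univ : ∃ C : ℝ, ∀ y : ℕ, 1 ≤ y → |LL y Set.univ - 1| ≤ C / y := by
  classical
  have h2 : 0 < Real.log 2 := Real.log_pos (by norm_num)
  refine ⟨2 / Real.log 2, fun y hy => ?_⟩
  have hyR : (1 : ℝ) ≤ y := by exact_mod_cast hy
  have e : LL y Set.univ =
      (∑ j ∈ Finset.Ico ((y + 1) / 2) y, 2 / ((2 * j + 1 : ℕ) : ℝ)) / Real.log 2 := by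
    unfold LL
    simp only [Set.mem_univ, Finset.filter_true]
    rw [sum_OO, Finset.mul_sum, Finset.sum_div]
    refine Finset.sum_congr rfl fun j _ => ?_
    field_simp
  set S := ∑ j ∈ Finset.Ico ((y + 1) / 2) y, 2 / ((2 * j + 1 : ℕ) : ℝ) with hS
  have key : |S - Real.log 2| ≤ 2 / y := by
    rcases Nat.lt_or_ge y 2 with hy2 | hy2
    · have hy1 : y = 1 := by omega
      subst hy1
      have : S = 0 := by simp [hS]
      rw [this, zero_sub, abs_neg, abs_of_pos h2]
      have := Real.log_two_lt_d9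
      norm_num
      linarith
    · have hy2R : (2 : ℝ) ≤ y := by exact_mod_cast hy2
      have ha1 : 1 ≤ (y + 1) / 2 := by omega
      have hab : (y + 1) / 2 ≤ y := by omega
      have hlo : ((y : ℝ)) ≤ 2 * ((((y + 1) / 2 : ℕ)) : ℝ) := by
        have : y ≤ 2 * ((y + 1) / 2) := by omega
        exact_mod_cast this
      have hhi : 2 * ((((y + 1) / 2 : ℕ)) : ℝ) ≤ y + 1 := by
        have : 2 * ((y + 1) / 2) ≤ y + 1 := by omega
        exact_mod_cast this
      have u1 := sum_odd_le ((y + 1) / 2) y ha1 hab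
      have u2 := le_sum_odd ((y + 1) / 2) y hab
      rw [← hS] at u1 u2
      have v1 : Real.log ((y : ℝ) - 1) ≤ Real.log (2 * ((((y + 1) / 2 : ℕ)) : ℝ) - 1) :=
        Real.log_le_log (by linarith) (by linarith)
      have v2 : Real.log (2 * ((((y + 1) / 2 : ℕ)) : ℝ) + 1) ≤ Real.log ((y : ℝ) + 2) :=
        Real.log_le_log (by linarith) (by linarith)
      have w1 := Real.log_le_sub_one_of_pos (x := (2 * (y : ℝ) - 1) / (2 * (y - 1)))
        (div_pos (by linarith) (by linarith))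
      rw [Real.log_div (by linarith) (by linarith), Real.log_mul (by norm_num) (by linarith)] at w1
      have w2 := Real.one_sub_inv_le_log_of_pos (x := (2 * (y : ℝ) + 1) / (2 * (y + 2)))
        (div_pos (by linarith) (by linarith))
      rw [Real.log_div (by linarith) (by linarith), Real.log_mul (by norm_num) (by linarith)] at w2
      have z1 : (2 * (y : ℝ) - 1) / (2 * (y - 1)) - 1 ≤ 2 / y := by
        rw [div_sub_one (by linarith), div_le_div_iff₀ (by linarith) (by linarith)]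
        nlinarith
      have z2 : -(2 / (y : ℝ)) ≤ 1 - ((2 * (y : ℝ) + 1) / (2 * (y + 2)))⁻¹ := by
        rw [inv_div]
        have : (2 * ((y : ℝ) + 2)) / (2 * y + 1) - 1 ≤ 2 / y := by
          rw [div_sub_one (by linarith), div_le_div_iff₀ (by linarith) (by linarith)]
          nlinarith
        linarith
      rw [abs_le]
      constructor <;> linarith
  rw [e, div_sub_one h2.ne', abs_div, abs_of_pos h2]
  rw [div_div, mul_comm (Real.log 2) (y : ℝ), ← div_div]
  exact div_le_div_of_nonneg_right key h2.le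

theorem nu_univ (y : ℕ) (hy : 1 ≤ y) : |nu y Set.univ - 1| ≤ 2 / y := by
  classical
  have hyR : (1 : ℝ) ≤ y := by exact_mod_cast hy
  have hc : (OO y).card = y - (y + 1) / 2 := by
    rw [OO_eq_image, Finset.card_image_of_injective, Nat.card_Ico]
    intro a b h
    simpa using h
  have e : nu y Set.univ = 2 / (y : ℝ) * ((y - (y + 1) / 2 : ℕ) : ℝ) := by
    rw [nu_eq_sum, ← hc]
    simp
  have h1 : (y : ℝ) - 1 ≤ 2 * ((y - (y + 1) / 2 : ℕ) : ℝ) := by
    have : y ≤ 2 * (y - (y + 1) / 2) + 1 := by omega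
    have h' : (y : ℝ) ≤ 2 * ((y - (y + 1) / 2 : ℕ) : ℝ) + 1 := by exact_mod_cast this
    linarith
  have h2 : 2 * ((y - (y + 1) / 2 : ℕ) : ℝ) ≤ y := by
    have : 2 * (y - (y + 1) / 2) ≤ y := by omega
    exact_mod_cast this
  have e2 : nu y Set.univ - 1 = (2 * ((y - (y + 1) / 2 : ℕ) : ℝ) - y) / y := by
    rw [e]; field_simp
  rw [e2, abs_div, abs_of_pos (by linarith : (0 : ℝ) < y)]
  refine div_le_div_of_nonneg_right ?_ (by linarith)
  rw [abs_le]
  constructor <;> linarith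

/-- the window is beyond `1` -/
theorem one_le_of_WW : ∃ x0 : ℕ, ∀ x ≥ x0, ∀ y, WW x y → 1 ≤ y := by
  obtain ⟨x0, hx0⟩ := params
  refine ⟨x0, fun x hx y hW => ?_⟩
  have h := (hx0 x hx).1
  have h1 := hW.1
  by_contra hy
  have : y = 0 := by omega
  subst this
  unfold lx at h1 h
  simp only [Nat.cast_zero, Real.log_zero] at h1
  linarith

theorem LL_le_nu (y : ℕ) (hy : 1 ≤ y) (G : Set ℕ) : LL y G ≤ nu y G / Real.log 2 := by
  classical
  have hyR : (1 : ℝ) ≤ y := by exact_mod_cast hy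
  have h2 : 0 < Real.log 2 := Real.log_pos (by norm_num)
  have h : ∑ N ∈ (OO y).filter (fun N => N ∈ G), 1 / (N : ℝ) ≤
      ((OO y).filter (fun N => N ∈ G)).card • (1 / (y : ℝ)) := by
    refine Finset.sum_le_card_nsmul _ _ _ fun N hN => ?_
    rw [Finset.mem_filter] at hN
    have : y < N := by
      have := hN.1
      simp only [OO, Finset.mem_filter, Finset.mem_Ioc] at this
      exact this.1.1
    have h' : (y : ℝ) ≤ N := by exact_mod_cast this.le
    exact one_div_le_one_div_of_le (by linarith) h'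
  rw [nsmul_eq_mul] at h
  unfold LL nu
  refine le_trans (mul_le_mul_of_nonneg_left (le_trans (le_of_eq ?_) h) (by positivity))
    (le_of_eq ?_)
  · rfl
  · field_simp

theorem nu_not_typ : ∃ x0 : ℕ, ∀ x ≥ x0, ∀ y, WW x y → nu y {N | ¬ Typ x N} ≤ 2 / (lx x) ^ 3 := by
  classical
  obtain ⟨a, ha⟩ := card_not_typ
  obtain ⟨b, hb⟩ := one_le_of_WW
  refine ⟨max a b, fun x hx y hW => ?_⟩
  have hxa : x ≥ a := le_trans (le_max_left _ _) hx
  have hxb : x ≥ b := le_trans (le_max_right _ _) hx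
  have hy := hb x hxb y hW
  have hyR : (1 : ℝ) ≤ y := by exact_mod_cast hy
  have h1 := ha x hxa y hW
  have h4 : nu y {N | ¬ Typ x N} ≤ 2 / (y : ℝ) * (y / (lx x) ^ 3) := by
    unfold nu
    refine mul_le_mul_of_nonneg_left ?_ (by positivity)
    refine le_trans (le_of_eq ?_) h1
    congr 2
    ext N
    simp only [Finset.mem_filter, Set.mem_ofPred_eq]
    rfl
  refine h4.trans (le_of_eq ?_)
  field_simp

/-- non typical numbers -/
theorem LL_not_typ : ∃ x0 : ℕ, ∀ x ≥ x0, ∀ y, WW x y → LL y {N | ¬ Typ x N} ≤ 3 / (lx x) ^ 3 := by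
  obtain ⟨a, ha⟩ := nu_not_typ
  obtain ⟨b, hb⟩ := one_le_of_WW
  obtain ⟨c, hc⟩ := params
  refine ⟨max a (max b c), fun x hx y hW => ?_⟩
  have hxa : x ≥ a := le_trans (le_max_left _ _) hx
  have hxb : x ≥ b := le_trans (le_trans (le_max_left _ _) (le_max_right _ _)) hx
  have hxc : x ≥ c := le_trans (le_trans (le_max_right _ _) (le_max_right _ _)) hx
  have hy := hb x hxb y hW
  have hl : (1000 : ℝ) ≤ lx x := (hc x hxc).1
  have h1 := ha x hxa y hW
  have h2 : 0 < Real.log 2 := Real.log_pos (by norm_num)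
  have h2' := Real.log_two_gt_d9
  have hl3 : (0 : ℝ) < (lx x) ^ 3 := by positivity
  refine (LL_le_nu y hy _).trans ?_
  rw [div_le_iff₀ h2]
  refine h1.trans ?_
  rw [div_mul_eq_mul_div]
  refine div_le_div_of_nonneg_right ?_ hl3.le
  linarith

/-- typical numbers pass -/
theorem typ_mem_PP_univ : ∃ x0 : ℕ, ∀ x ≥ x0, ∀ y N : ℕ, WW x y → N ∈ OO y → Typ x N →
    N ∈ PP x Set.univ := by
  obtain ⟨a, ha⟩ := passage
  refine ⟨a, fun x hx y N hW hN hT => ?_⟩
  obtain ⟨n, hn, _⟩ := ha x hx y N hW hN hT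
  have hodd : N % 2 = 1 := by
    simp only [OO, Finset.mem_filter, Finset.mem_Ioc] at hN
    exact hN.2
  exact ⟨hodd, n, hn, Set.mem_univ _⟩

end Pool.Agent.W_e21d3a_h93
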