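import Pool.Agent.W_e21d3a_h93.C4
import Pool.Agent.W_e21d3a_h93.C6
import Pool.Agent.W_e21d3a_h93.C7
import Pool.Agent.W_e21d3a_h93.C8
import Pool.Agent.W_e21d3a_h93.D1

set_option autoImplicit false

/-!
# [NC] C9: THE TRANSFER THEOREM (row 500, Theorem 6)
-/

namespace Pool.Agent.W_e21d3a_h93

theorem C9_lx_large (K : ℝ) : ∃ x0 : ℕ, ∀ x ≥ x0, K ≤ lx x := by
  refine ⟨⌈Real.exp K⌉₊, fun x hx => ?_⟩
  unfold lx
  have h1 : Real.exp K ≤ (x : ℝ) := (Nat.le_ceil _).trans (by exact_mod_cast hx)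
  have h2 : 0 < (x : ℝ) := lt_of_lt_of_le (Real.exp_pos K) h1
  exact (Real.le_log_iff_exp_le h2).2 h1

theorem C9_pow_small {ε : ℝ} (hε : 0 < ε) :
    ∃ x0 : ℕ, ∀ x ≥ x0, (lx x) ^ (-(1 : ℝ) / 5) ≤ ε := by
  obtain ⟨x0, h0⟩ := C9_lx_large ((1 / ε) ^ (5 : ℝ))
  refine ⟨x0, fun x hx => ?_⟩
  have h1 := h0 x hx
  have h2 : 0 < (1 / ε) ^ (5 : ℝ) := Real.rpow_pos_of_pos (by positivity) _
  have h3 : (lx x) ^ (-(1 : ℝ) / 5) ≤ ((1 / ε) ^ (5 : ℝ)) ^ (-(1 : ℝ) / 5) :=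
    Real.rpow_le_rpow_of_nonpos h2 h1 (by norm_num)
  rw [← Real.rpow_mul (by positivity)] at h3
  have h4 : (5 : ℝ) * (-(1 : ℝ) / 5) = -1 := by norm_num
  rw [h4, Real.rpow_neg_one, one_div, inv_inv] at h3
  exact h3

theorem C9_inv_le {l : ℝ} (hl : 1 ≤ l) : 1 / l ≤ l ^ (-(1 : ℝ) / 5) := by
  have h1 : 1 / l = l ^ (-1 : ℝ) := by rw [Real.rpow_neg_one, one_div]
  rw [h1]
  exact Real.rpow_le_rpow_of_exponent_le hl (by norm_num)

theorem C9_sq_le {l : ℝ} (hl : 1 ≤ l) : 1 / l ^ 2 ≤ 1 / l := by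
  have h0 : 0 < l := by linarith
  apply one_div_le_one_div_of_le h0
  nlinarith only [hl]

theorem C9_cu_le {l : ℝ} (hl : 1 ≤ l) : 1 / l ^ 3 ≤ 1 / l := by
  have h0 : 0 < l := by linarith
  apply one_div_le_one_div_of_le h0
  have h1 : 1 ≤ l ^ 2 := one_le_pow₀ hl
  nlinarith only [h1, hl]

theorem pix_mem (x : ℕ) (E : Set ℕ) : 0 ≤ pix x E ∧ pix x E ≤ 1 := by
  unfold pix
  have h1 := qq_nonneg x E
  have h2 := qq_nonneg x Set.univ
  have h3 : qq x E ≤ qq x Set.univ := qq_mono x (Set.subset_univ E)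
  exact ⟨div_nonneg h1 h2, div_le_one_of_le₀ h3 h2⟩

/-- `SA false = (log 2)/2 * LL`, `SA true = nu/2` -/
theorem SA_false_eq (x y : ℕ) (E : Set ℕ) : SA false x y E = Real.log 2 / 2 * LL y (PP x E) := by
  have h2 : Real.log 2 ≠ 0 := (Real.log_pos (by norm_num)).ne'
  unfold SA LL wN
  simp only [Bool.false_eq_true, if_false]
  field_simp

theorem SA_true_eq (x y : ℕ) (E : Set ℕ) : SA true x y E = nu y (PP x E) / 2 := by
  unfold SA nu wN
  simp only [if_true]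
  rw [Finset.sum_const, nsmul_eq_mul]
  ring

/-- the chain from `SA` to `SF` -/
theorem C9_chain : ∃ x0 : ℕ, ∀ x ≥ x0, ∀ y, WW x y → ∀ (b : Bool) (E : Set ℕ),
    |SA b x y E - SF b x y E| ≤ 4 / lx x := by
  obtain ⟨a1, h1⟩ := SA_SB
  obtain ⟨a2, h2⟩ := SB_SC
  obtain ⟨a3, h3⟩ := SC_SD
  obtain ⟨a4, h4⟩ := SD_SE
  obtain ⟨a5, h5⟩ := SE_SF
  obtain ⟨a6, h6⟩ := C9_lx_large 1
  refine ⟨a1 + a2 + a3 + a4 + a5 + a6, fun x hx y hw b E => ?_⟩
  have g1 := h1 x (by omega) y hw b E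
  have g2 := abs_le.1 (h2 x (by omega) y hw b E)
  have g3 := abs_le.1 (h3 x (by omega) y hw b E)
  have g4 := abs_le.1 (h4 x (by omega) y hw b E)
  have g5 := h5 x (by omega) y hw b E
  have g6 := h6 x (by omega)
  have k2 := C9_sq_le g6
  have k3 := C9_cu_le g6
  have k4 : 4 / lx x = 4 * (1 / lx x) := by ring
  have k5 : 0 < 1 / lx x := by positivity
  rw [k4, abs_le]
  constructor <;> linarith [g1.1, g1.2, g2.1, g2.2, g3.1, g3.2, g4.1, g4.2]

/-- the total mass -/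
theorem C9_univ : ∃ D : ℝ, 0 < D ∧ ∃ x0 : ℕ, ∀ x ≥ x0, ∀ y, WW x y →
    |SA false x y Set.univ - Real.log 2 / 2| ≤ D / lx x := by
  obtain ⟨C, hC⟩ := LL_univ
  obtain ⟨a1, h1⟩ := LL_not_typ
  obtain ⟨a2, h2⟩ := typ_mem_PP_univ
  obtain ⟨a3, h3⟩ := C9_lx_large 1
  refine ⟨|C| + 3, by positivity, a1 + a2 + a3, fun x hx y hw => ?_⟩
  have g3 := h3 x (by omega)
  have hlog : 0 < Real.log 2 := Real.log_pos (by norm_num)
  have hlog1 : Real.log 2 ≤ 1 := by
    have := Real.log_two_lt_d9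
    linarith
  have hl0 : 0 < lx x := by linarith
  have hxy : lx x ≤ lx y := by
    have := hw.1
    linarith
  have hy0 : (1 : ℝ) ≤ y := by
    by_contra hcon
    have h4 : y = 0 := by
      rcases Nat.eq_zero_or_pos y with h | h
      · exact h
      · exact absurd (by exact_mod_cast h) hcon
    rw [h4] at hxy
    unfold lx at hxy hl0
    simp only [Nat.cast_zero, Real.log_zero] at hxy
    linarith
  have hy1 : 1 ≤ y := by exact_mod_cast hy0
  have hly : lx y ≤ y := by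
    unfold lx
    have := Real.log_le_sub_one_of_pos (show (0 : ℝ) < y by linarith)
    linarith
  have hCy : C / y ≤ |C| / lx x := by
    calc C / y ≤ |C| / y := by
          apply div_le_div_of_nonneg_right (le_abs_self C) (by linarith)
      _ ≤ |C| / lx x := by
          apply div_le_div_of_nonneg_left (abs_nonneg C) hl0 (by linarith)
  have g0 := abs_le.1 (hC y hy1)
  have g1 := h1 x (by omega) y hw
  have g2 : LL y Set.univ ≤ LL y (PP x Set.univ) + LL y {N | ¬ Typ x N} := by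
    refine le_trans (LL_mono y (G := Set.univ) (G' := PP x Set.univ ∪ {N | ¬ Typ x N}) ?_)
      (LL_union_le y _ _)
    intro N hN _
    by_cases ht : Typ x N
    · exact Or.inl (h2 x (by omega) y N hw hN ht)
    · exact Or.inr ht
  have g4 : LL y (PP x Set.univ) ≤ LL y Set.univ := LL_mono y (fun N _ _ => Set.mem_univ N)
  have k3 := C9_cu_le g3
  have k6 : 3 / (lx x) ^ 3 = 3 * (1 / (lx x) ^ 3) := by ring
  have k7 : (|C| + 3) / lx x = |C| / lx x + 3 * (1 / lx x) := by ring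
  have k8 : 0 < 1 / lx x := by positivity
  rw [SA_false_eq]
  have g5 : |LL y (PP x Set.univ) - 1| ≤ (|C| + 3) / lx x := by
    rw [abs_le, k7]
    constructor
    · linarith [g0.1]
    · linarith [g0.2]
  have g6 : Real.log 2 / 2 * LL y (PP x Set.univ) - Real.log 2 / 2 =
      Real.log 2 / 2 * (LL y (PP x Set.univ) - 1) := by ring
  rw [g6, abs_mul, abs_of_pos (by positivity)]
  have g7 : 0 ≤ |LL y (PP x Set.univ) - 1| := abs_nonneg _
  nlinarith only [hCy, g0, k6, k7, k8, hlog, g5, hlog1, g1, g2, g4, k3]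

/-- the main term of `E = univ` and the law `pix` -/
theorem C9_main : ∃ D : ℝ, 0 < D ∧ ∃ x0 : ℕ, ∀ x ≥ x0, ∀ y, WW x y →
    |Rf false (n1 x - mm x) (Z0 x y) * qq x Set.univ - Real.log 2 / 2|
      ≤ D * (lx x) ^ (-(1 : ℝ) / 5) ∧
    Rf false (n1 x - mm x) (Z0 x y) * qq x Set.univ ≤ 1 ∧
    ∀ E : Set ℕ, Rf false (n1 x - mm x) (Z0 x y) * qq x E =
      pix x E * (Rf false (n1 x - mm x) (Z0 x y) * qq x Set.univ) := by
  obtain ⟨a1, h1⟩ := C9_chain
  obtain ⟨D, hD, a2, h2⟩ := C9_univ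
  obtain ⟨C, hC, a3, h3⟩ := SF_false
  obtain ⟨a4, h4⟩ := C9_lx_large 1
  obtain ⟨a5, h5⟩ := C9_pow_small (show 0 < 1 / (4 * (C + (D + 5))) by positivity)
  refine ⟨C + (D + 5), by positivity, a1 + a2 + a3 + a4 + a5, fun x hx y hw => ?_⟩
  have g1 := abs_le.1 (h1 x (by omega) y hw false Set.univ)
  have g2 := abs_le.1 (h2 x (by omega) y hw)
  have g3 := abs_le.1 (h3 x (by omega) y hw Set.univ)
  have g4 := h4 x (by omega)
  have g5 := h5 x (by omega)
  have hinv := C9_inv_le g4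
  have hl0 : 0 < lx x := by linarith
  set u : ℝ := (lx x) ^ (-(1 : ℝ) / 5) with hu
  have hu0 : 0 < u := Real.rpow_pos_of_pos hl0 _
  set R : ℝ := Rf false (n1 x - mm x) (Z0 x y) with hR
  set Q : ℝ := R * qq x Set.univ with hQ
  have hR0 : 0 ≤ R := Rf_nonneg _ _ _
  have hq0 : 0 ≤ qq x Set.univ := qq_nonneg x _
  have hQ0 : 0 ≤ Q := mul_nonneg hR0 hq0
  have k4 : 4 / lx x = 4 * (1 / lx x) := by ring
  have kD : D / lx x = D * (1 / lx x) := by ring
  have hlogl : (0.69 : ℝ) < Real.log 2 := by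
    have := Real.log_two_gt_d9
    linarith
  have hlogu : Real.log 2 < 0.7 := by
    have := Real.log_two_lt_d9
    linarith
  have hDi : D * (1 / lx x) ≤ D * u := mul_le_mul_of_nonneg_left hinv hD.le
  have hs : (C + (D + 5)) * u ≤ 1 / 4 := by
    have h6 : (C + (D + 5)) * u ≤ (C + (D + 5)) * (1 / (4 * (C + (D + 5)))) :=
      mul_le_mul_of_nonneg_left g5 (by positivity)
    have h7 : (C + (D + 5)) * (1 / (4 * (C + (D + 5)))) = 1 / 4 := by
      field_simp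
    linarith
  have hCu : C * u ≤ 1 / 4 := by nlinarith only [g2, hu0, kD, hDi, hs]
  have hd1 : Real.log 2 / 2 - Q ≤ C * u * Q + (D + 5) * u := by
    linarith [g1.1, g2.1, g3.1, g1.2, g2.2, g3.2]
  have hd2 : Q - Real.log 2 / 2 ≤ C * u * Q + (D + 5) * u := by
    linarith [g1.1, g2.1, g3.1, g1.2, g2.2, g3.2]
  have hDu : (D + 5) * u ≤ 1 / 4 := by nlinarith only [hs, hC, hu0]
  have hQ1 : Q ≤ 1 := by nlinarith only [g1, g2, hinv, hu0, g3, k4, hlogu, kD, hDi, hDu, hQ0, hs]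
  have hCQ : C * u * Q ≤ C * u := by
    have : 0 ≤ C * u := by positivity
    nlinarith only [k4, hC, hu0, g1, kD, this, g2, hinv, g3, hDi, hs, hlogl, hlogu]
  refine ⟨?_, hQ1, ?_⟩
  · rw [abs_le]
    constructor <;> linarith
  · intro E
    have hQpos : 0 < Q := by nlinarith only [g1, g2, hinv, hu0, g3, k4, kD, hlogl, hDi, hs, hDu, hCQ]
    have hqpos : qq x Set.univ ≠ 0 := by
      intro h0
      rw [hQ, h0, mul_zero] at hQpos
      exact lt_irrefl _ hQpos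
    rw [hQ]
    unfold pix
    field_simp

/-- logarithmic weights, with a rate -/
theorem transfer_log : ∃ C : ℝ, 0 < C ∧ ∃ x0 : ℕ, ∀ x ≥ x0, ∀ y, WW x y → ∀ E : Set ℕ,
    |LL y (PP x E) - pix x E| ≤ C * (lx x) ^ (-(1 : ℝ) / 5) := by
  obtain ⟨a1, h1⟩ := C9_chain
  obtain ⟨D, hD, a2, h2⟩ := C9_main
  obtain ⟨C, hC, a3, h3⟩ := SF_false
  obtain ⟨a4, h4⟩ := C9_lx_large 1
  refine ⟨3 * (C + D + 5), by positivity, a1 + a2 + a3 + a4, fun x hx y hw E => ?_⟩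
  have g1 := abs_le.1 (h1 x (by omega) y hw false E)
  obtain ⟨g2, g2a, g2b⟩ := h2 x (by omega) y hw
  have g2 := abs_le.1 g2
  have g2b := g2b E
  have g3 := abs_le.1 (h3 x (by omega) y hw E)
  have g4 := h4 x (by omega)
  have hinv := C9_inv_le g4
  have hl0 : 0 < lx x := by linarith
  obtain ⟨p0, p1⟩ := pix_mem x E
  have hR0 : 0 ≤ Rf false (n1 x - mm x) (Z0 x y) := Rf_nonneg _ _ _
  have hq0 : 0 ≤ qq x Set.univ := qq_nonneg x _
  rw [g2b] at g3
  rw [SA_false_eq] at g1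
  set u : ℝ := (lx x) ^ (-(1 : ℝ) / 5) with hu
  have hu0 : 0 < u := Real.rpow_pos_of_pos hl0 _
  set Q : ℝ := Rf false (n1 x - mm x) (Z0 x y) * qq x Set.univ with hQ
  have hQ0 : 0 ≤ Q := mul_nonneg hR0 hq0
  set π : ℝ := pix x E with hpi
  set ℓ : ℝ := LL y (PP x E) with hell
  have k4 : 4 / lx x = 4 * (1 / lx x) := by ring
  have hlogl : (0.69 : ℝ) < Real.log 2 := by
    have := Real.log_two_gt_d9
    linarith
  have hpQ : π * Q ≤ 1 := by nlinarith only [p1, g2a, p0]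
  have hpQ0 : 0 ≤ π * Q := mul_nonneg p0 hQ0
  have hCu : 0 ≤ C * u := by positivity
  have hCpQ : C * u * (π * Q) ≤ C * u := by nlinarith only [hpQ, hCu]
  have hm1 : π * (Q - Real.log 2 / 2) ≤ D * u := by
    have : 0 ≤ D * u := by positivity
    nlinarith only [g2, p1, p0, g2.2]
  have hm2 : -(D * u) ≤ π * (Q - Real.log 2 / 2) := by
    have : 0 ≤ D * u := by positivity
    nlinarith only [g2, p0, p1, g2.1]
  have e1 : Real.log 2 / 2 * (ℓ - π) ≤ (C + D + 5) * u := by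
    nlinarith only [hinv, g3, g1, k4, hCpQ, hm1, g1.1, g1.2, g3.1, g3.2]
  have e2 : -((C + D + 5) * u) ≤ Real.log 2 / 2 * (ℓ - π) := by
    nlinarith only [hinv, g3, g1, k4, hCpQ, hm2, g1.1, g1.2, g3.1, g3.2]
  have e3 : |Real.log 2 / 2 * (ℓ - π)| ≤ (C + D + 5) * u := abs_le.2 ⟨e2, e1⟩
  rw [abs_mul, abs_of_pos (by positivity)] at e3
  have e4 : 0 ≤ |ℓ - π| := abs_nonneg _
  nlinarith only [hu0, e3, hD, hC, hlogl, e4]

/-- natural weights -/
theorem transfer_nat {ε : ℝ} (hε : 0 < ε) : ∃ x0 : ℕ, ∀ x ≥ x0, ∀ y, WW x y → ∀ E : Set ℕ,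
    |nu y (PP x E) - pix x E| ≤ ε := by
  obtain ⟨a1, h1⟩ := C9_chain
  obtain ⟨D, hD, a2, h2⟩ := C9_main
  obtain ⟨a3, h3⟩ := SF_true (show 0 < ε / 4 by positivity)
  obtain ⟨a4, h4⟩ := C9_lx_large 1
  obtain ⟨a5, h5⟩ := C9_pow_small (show 0 < ε / (20 * (D + 5)) by positivity)
  refine ⟨a1 + a2 + a3 + a4 + a5, fun x hx y hw E => ?_⟩
  have g1 := abs_le.1 (h1 x (by omega) y hw true E)
  obtain ⟨g2, g2a, g2b⟩ := h2 x (by omega) y hw
  have g2 := abs_le.1 g2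
  have g2b := g2b E
  have g3 := abs_le.1 (h3 x (by omega) y hw E)
  have g4 := h4 x (by omega)
  have g5 := h5 x (by omega)
  have hinv := C9_inv_le g4
  have hl0 : 0 < lx x := by linarith
  obtain ⟨p0, p1⟩ := pix_mem x E
  have hR0 : 0 ≤ Rf false (n1 x - mm x) (Z0 x y) := Rf_nonneg _ _ _
  have hq0 : 0 ≤ qq x Set.univ := qq_nonneg x _
  rw [g2b] at g3
  rw [SA_true_eq] at g1
  set u : ℝ := (lx x) ^ (-(1 : ℝ) / 5) with hu
  have hu0 : 0 < u := Real.rpow_pos_of_pos hl0 _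
  set Q : ℝ := Rf false (n1 x - mm x) (Z0 x y) * qq x Set.univ with hQ
  have hQ0 : 0 ≤ Q := mul_nonneg hR0 hq0
  set π : ℝ := pix x E with hpi
  set ℓ : ℝ := nu y (PP x E) with hell
  have k4 : 4 / lx x = 4 * (1 / lx x) := by ring
  have hlogl : (0.69 : ℝ) < Real.log 2 := by
    have := Real.log_two_gt_d9
    linarith
  have hlog0 : Real.log 2 ≠ 0 := by linarith
  have hpQ : π * Q ≤ 1 := by nlinarith only [p1, g2a, p0]
  have hpQ0 : 0 ≤ π * Q := mul_nonneg p0 hQ0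
  have hDu : (D + 5) * u ≤ ε / 20 := by
    have h6 : (D + 5) * u ≤ (D + 5) * (ε / (20 * (D + 5))) :=
      mul_le_mul_of_nonneg_left g5 (by positivity)
    have h7 : (D + 5) * (ε / (20 * (D + 5))) = ε / 20 := by
      field_simp
    linarith
  have hDu0 : 0 ≤ D * u := by positivity
  have key : |π * Q / Real.log 2 - π / 2| ≤ 2 * (D * u) := by
    have e0 : π * Q / Real.log 2 - π / 2 = π * (Q - Real.log 2 / 2) / Real.log 2 := by
      field_simp
    rw [e0, abs_div, abs_of_pos (show (0 : ℝ) < Real.log 2 by linarith),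
      div_le_iff₀ (by linarith), abs_mul, abs_of_nonneg p0]
    have e1 : |Q - Real.log 2 / 2| ≤ D * u := abs_le.2 g2
    have e2 : 0 ≤ |Q - Real.log 2 / 2| := abs_nonneg _
    nlinarith
  have key := abs_le.1 key
  rw [abs_le]
  constructor <;> nlinarith only [hinv, hu0, g2, g3, g1, k4, hDu, key, hε, hpQ, g1.1, g1.2, g3.1, g3.2, key.1, key.2]

end Pool.Agent.W_e21d3a_h93
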