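import Pool.Agent.W_e21d3a_h93.R1a

set_option autoImplicit false

/-!
# [NC] CDefs: the sums of the counting formula (proofs row 500, section S6)
-/

namespace Pool.Agent.W_e21d3a_h93

open Classical in
/-- the points `m` steps before the passage -/
noncomputable def MM (x : ℕ) (E : Set ℕ) : Finset ℕ :=
  (Finset.Icc ⌈xm x⌉₊ ⌊xp x⌋₊).filter
    (fun M => M % 2 = 1 ∧ Passes x M (mm x) ∧ syr^[mm x] M ∈ E)

/-- weights: natural (`true`) or logarithmic (`false`) -/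
noncomputable def wN (b : Bool) (y N : ℕ) : ℝ := if b then 1 / (y : ℝ) else 1 / (N : ℝ)

/-- the weight as a function of `r = N/y` -/
noncomputable def gb (b : Bool) (r : ℝ) : ℝ := if b then r else 1

open Classical in
/-- `S_g(E)` -/
noncomputable def SA (b : Bool) (x y : ℕ) (E : Set ℕ) : ℝ :=
  ∑ N ∈ (OO y).filter (fun N => N ∈ PP x E), wN b y N

/-- an upper bound for all the sums `t` which occur -/
noncomputable def tmax (x y : ℕ) : ℕ := Nat.log 2 (4 * y * 3 ^ n1 x) + 1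

open Classical in
/-- the lists of length `n'`, sum `t` allowed for `M` -/
noncomputable def Lists (x n' t M : ℕ) : Finset (List ℕ) :=
  (comps n' t).filter (fun l => PreOK (TT x) l ∧ (3 : ℤ) ^ n' ∣ 2 ^ t * (M : ℤ) - (cc l : ℤ))

/-- the starting number of a triple -/
def NN (n' t M : ℕ) (l : List ℕ) : ℕ := (2 ^ t * M - cc l) / 3 ^ n'

open Classical in
/-- `S'_g(E)`: triples with `N` in the window -/
noncomputable def SB (b : Bool) (x y : ℕ) (E : Set ℕ) : ℝ :=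
  ∑ n' ∈ Finset.Ioc (mm x) (n1 x), ∑ M ∈ MM x E, ∑ t ∈ Finset.range (tmax x y + 1),
    ∑ l ∈ Lists x n' t M, if NN n' t M l ∈ OO y then wN b y (NN n' t M l) else 0

/-- the unique `t` with `y < 2^t M / 3^{n'} ≤ 2y` -/
def ty (y n' M : ℕ) : ℕ := Nat.log 2 (y * 3 ^ n' / M) + 1

/-- `r = 2^t M / (3^{n'} y) ∈ (1,2]` -/
noncomputable def ry (y n' M : ℕ) : ℝ := 2 ^ ty y n' M * M / (3 ^ n' * y)

/-- `S''_g(E)`: triples with `N* = 2^t M/3^{n'}` in the window -/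
noncomputable def SC (b : Bool) (x y : ℕ) (E : Set ℕ) : ℝ :=
  ∑ n' ∈ Finset.Ioc (mm x) (n1 x), ∑ M ∈ MM x E,
    gb b (ry y n' M) / M * 3 ^ n' * (((Lists x n' (ty y n' M) M).card : ℝ) / 2 ^ ty y n' M)

/-- without the condition on the partial sums -/
noncomputable def SD (b : Bool) (x y : ℕ) (E : Set ℕ) : ℝ :=
  ∑ n' ∈ Finset.Ioc (mm x) (n1 x), ∑ M ∈ MM x E,
    gb b (ry y n' M) / M * 3 ^ n' * phi n' n' (ty y n' M) M

/-- after mixing -/
noncomputable def SE (b : Bool) (x y : ℕ) (E : Set ℕ) : ℝ :=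
  ∑ n' ∈ Finset.Ioc (mm x) (n1 x), ∑ M ∈ MM x E,
    gb b (ry y n' M) / M * 3 ^ mm x * phi (mm x) n' (ty y n' M) M

/-- `Z(M,s) = m θ + log₂(y/M) - s` -/
noncomputable def Zf (x y M s : ℕ) : ℝ := mm x * th + Real.logb 2 ((y : ℝ) / M) - s

/-- the main term -/
noncomputable def SF (b : Bool) (x y : ℕ) (E : Set ℕ) : ℝ :=
  ∑ M ∈ MM x E, 3 ^ mm x / (M : ℝ) * ∑ s ∈ Finset.range (tmax x y + 1),
    phi (mm x) (mm x) s M * Rf b (n1 x - mm x) (Zf x y M s)

/-- `Z₀ = log₂(y/x) - 2m(2-θ)` -/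
noncomputable def Z0 (x y : ℕ) : ℝ := Real.logb 2 ((y : ℝ) / x) - 2 * mm x * (2 - th)

/-- the measure `q(E)`, independent of `y` -/
noncomputable def qq (x : ℕ) (E : Set ℕ) : ℝ :=
  ∑ M ∈ MM x E, 3 ^ mm x / (M : ℝ) *
    ∑ s ∈ Finset.Icc (2 * mm x - 2 * TT x) (2 * mm x + 2 * TT x), phi (mm x) (mm x) s M

/-- the law `π_x` -/
noncomputable def pix (x : ℕ) (E : Set ℕ) : ℝ := qq x E / qq x Set.univ

end Pool.Agent.W_e21d3a_h93
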