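import Pool.Agent.W_e21d3a_h93.Defs

set_option autoImplicit false

/-!
# [NC] E1: choice of x for a window; iteration over scales (row 502)
-/

namespace Pool.Agent.W_e21d3a_h93

theorem log_floor_exp {a : ℝ} (ha : 1 ≤ a) : Real.log (⌊Real.exp a⌋₊ : ℝ) ≤ a ∧
    a - Real.log 2 ≤ Real.log (⌊Real.exp a⌋₊ : ℝ) ∧ 0 < (⌊Real.exp a⌋₊ : ℝ) := by
  have h1 : (2 : ℝ) ≤ Real.exp a := by
    have := Real.add_one_le_exp a
    linarith
  have h2 : ((⌊Real.exp a⌋₊ : ℕ) : ℝ) ≤ Real.exp a := Nat.floor_le (Real.exp_pos a).le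
  have h3 : Real.exp a < (⌊Real.exp a⌋₊ : ℝ) + 1 := Nat.lt_floor_add_one _
  have h4 : Real.exp a / 2 ≤ (⌊Real.exp a⌋₊ : ℝ) := by linarith
  have h5 : 0 < (⌊Real.exp a⌋₊ : ℝ) := by linarith
  refine ⟨?_, ?_, h5⟩
  · calc Real.log (⌊Real.exp a⌋₊ : ℝ) ≤ Real.log (Real.exp a) := Real.log_le_log h5 h2
      _ = a := Real.log_exp a
  · calc a - Real.log 2 = Real.log (Real.exp a / 2) := by
          rw [Real.log_div (Real.exp_pos a).ne' (by norm_num), Real.log_exp]
      _ ≤ _ := Real.log_le_log (by positivity) h4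

/-- `x = ⌊y₁^{40/41}⌋` -/
theorem choose_x (x0 : ℕ) : ∃ y0 : ℕ, ∀ y1 ≥ y0, ∃ x ≥ x0, lx x ≤ lx y1 ∧
    97 / 100 * lx y1 ≤ lx x ∧
    ∀ y, lx y1 ≤ lx y → lx y ≤ 51 / 50 * lx y1 → WW x y := by
  refine ⟨⌈Real.exp (200 + 2 * Real.log (x0 + 1))⌉₊, fun y1 hy1 => ?_⟩
  have hlog0 : 0 ≤ Real.log ((x0 : ℝ) + 1) := Real.log_nonneg (by
    have : (0 : ℝ) ≤ x0 := Nat.cast_nonneg _
    linarith)
  have hL : 200 + 2 * Real.log (x0 + 1) ≤ lx y1 := by
    unfold lx
    have h1 : Real.exp (200 + 2 * Real.log (x0 + 1)) ≤ (y1 : ℝ) :=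
      le_trans (Nat.le_ceil _) (by exact_mod_cast hy1)
    calc 200 + 2 * Real.log (x0 + 1) = Real.log (Real.exp (200 + 2 * Real.log (x0 + 1))) :=
          (Real.log_exp _).symm
      _ ≤ Real.log y1 := Real.log_le_log (Real.exp_pos _) h1
  set L := lx y1 with hLdef
  have hlog2 := Real.log_two_lt_d9
  obtain ⟨h1, h2, h3⟩ := log_floor_exp (a := 40 / 41 * L) (by linarith)
  refine ⟨⌊Real.exp (40 / 41 * L)⌋₊, ?_, ?_, ?_, ?_⟩
  · apply Nat.le_floor
    have h4 : Real.log ((x0 : ℝ) + 1) ≤ 40 / 41 * L := by linarith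
    have h5 : (x0 : ℝ) + 1 ≤ Real.exp (40 / 41 * L) := by
      rw [← Real.exp_log (show (0 : ℝ) < (x0 : ℝ) + 1 by positivity)]
      exact Real.exp_le_exp.2 h4
    linarith
  · change Real.log _ ≤ L
    linarith
  · change 97 / 100 * L ≤ Real.log _
    linarith
  · intro y hy1' hy2
    constructor
    · have : lx ⌊Real.exp (40 / 41 * L)⌋₊ ≤ 40 / 41 * L := h1
      linarith
    · have : 40 / 41 * L - Real.log 2 ≤ lx ⌊Real.exp (40 / 41 * L)⌋₊ := h2
      linarith

/-- real analysis: small oscillation over `log y' ≤ 1.02 log y` gives small oscillation for all `y' ≥ y`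
(geometric series; use `⌊y^{1.01^i}⌋`) -/
theorem cauchy_scales (F : ℕ → ℝ) {C : ℝ} (hC : 0 < C) (y0 : ℕ)
    (h : ∀ y ≥ y0, ∀ y' ≥ y, lx y' ≤ 51 / 50 * lx y → |F y' - F y| ≤ C * (lx y) ^ (-(1 : ℝ) / 5)) :
    ∃ C' : ℝ, ∃ y1 : ℕ, ∀ y ≥ y1, ∀ y' ≥ y, |F y' - F y| ≤ C' * (lx y) ^ (-(1 : ℝ) / 5) := by
  set ρ : ℝ := (101 / 100 : ℝ) ^ (-(1 : ℝ) / 5) with hρ
  have hρ1 : ρ < 1 := Real.rpow_lt_one_of_one_lt_of_neg (by norm_num) (by norm_num)
  have hρ0 : 0 < ρ := Real.rpow_pos_of_pos (by norm_num) _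
  set C' : ℝ := C / (1 - ρ) with hC'
  have hC'C : C = C' * (1 - ρ) := by
    rw [hC']
    field_simp
    rw [div_self (by linarith)]
  have hC'0 : 0 < C' := div_pos hC (by linarith)
  have hCC' : C ≤ C' := by
    rw [hC'C]
    nlinarith
  refine ⟨C', max y0 ⌈Real.exp 100⌉₊, ?_⟩
  have main : ∀ d : ℕ, ∀ y ≥ max y0 ⌈Real.exp 100⌉₊, ∀ y', y' = y + d →
      |F y' - F y| ≤ C' * (lx y) ^ (-(1 : ℝ) / 5) := by
    intro d
    induction d using Nat.strong_induction_on with
    | _ d ih =>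
      intro y hy y' hy'
      have hyy0 : y0 ≤ y := le_trans (le_max_left _ _) hy
      have hye : Real.exp 100 ≤ (y : ℝ) :=
        le_trans (Nat.le_ceil _) (by exact_mod_cast le_trans (le_max_right _ _) hy)
      have hypos : (0 : ℝ) < y := lt_of_lt_of_le (Real.exp_pos _) hye
      have hL : 100 ≤ lx y := by
        unfold lx
        calc (100 : ℝ) = Real.log (Real.exp 100) := (Real.log_exp _).symm
          _ ≤ Real.log y := Real.log_le_log (Real.exp_pos _) hye
      have hpw : 0 < (lx y) ^ (-(1 : ℝ) / 5) := Real.rpow_pos_of_pos (by linarith) _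
      by_cases hc : lx y' ≤ 51 / 50 * lx y
      · refine le_trans (h y hyy0 y' (by omega) hc) ?_
        exact mul_le_mul_of_nonneg_right hCC' hpw.le
      · push Not at hc
        have hlog2 := Real.log_two_lt_d9
        obtain ⟨h1, h2, h3⟩ := log_floor_exp (a := 51 / 50 * lx y) (by linarith)
        set z := ⌊Real.exp (51 / 50 * lx y)⌋₊ with hz
        have hz1 : lx z ≤ 51 / 50 * lx y := h1
        have hz2 : 101 / 100 * lx y ≤ lx z := by
          have : 51 / 50 * lx y - Real.log 2 ≤ lx z := h2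
          linarith
        have hyz : y < z := by
          by_contra hcon
          push Not at hcon
          have : lx z ≤ lx y := Real.log_le_log h3 (by exact_mod_cast hcon)
          linarith
        have hy'pos : (0 : ℝ) < y' := by
          have : (y : ℝ) ≤ y' := by exact_mod_cast (by omega : y ≤ y')
          linarith
        have hzy' : z < y' := by
          by_contra hcon
          push Not at hcon
          have : lx y' ≤ lx z := Real.log_le_log hy'pos (by exact_mod_cast hcon)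
          linarith
        have hzF := h y hyy0 z hyz.le hz1
        have hzF' := ih (y' - z) (by omega) z (le_trans hy hyz.le) y' (by omega)
        have hmono : (lx z) ^ (-(1 : ℝ) / 5) ≤ ρ * (lx y) ^ (-(1 : ℝ) / 5) := by
          rw [hρ, ← Real.mul_rpow (by norm_num) (by linarith)]
          exact Real.rpow_le_rpow_of_nonpos (by linarith) hz2 (by norm_num)
        have htri : |F y' - F y| ≤ |F y' - F z| + |F z - F y| := abs_sub_le _ _ _
        calc |F y' - F y| ≤ |F y' - F z| + |F z - F y| := htri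
          _ ≤ C' * (lx z) ^ (-(1 : ℝ) / 5) + C * (lx y) ^ (-(1 : ℝ) / 5) := add_le_add hzF' hzF
          _ ≤ C' * (ρ * (lx y) ^ (-(1 : ℝ) / 5)) + C * (lx y) ^ (-(1 : ℝ) / 5) := by
              have := mul_le_mul_of_nonneg_left hmono hC'0.le
              linarith
          _ = C' * (lx y) ^ (-(1 : ℝ) / 5) := by
              rw [hC'C]
              ring
  intro y hy y' hy'
  exact main (y' - y) y hy y' (by omega)

theorem exists_limit (F : ℕ → ℝ) {C : ℝ} (y0 : ℕ)
    (h : ∀ y ≥ y0, ∀ y' ≥ y, |F y' - F y| ≤ C * (lx y) ^ (-(1 : ℝ) / 5)) :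
    ∃ s : ℝ, Filter.Tendsto F Filter.atTop (nhds s) := by
  apply cauchySeq_tendsto_of_complete
  rw [Metric.cauchySeq_iff']
  intro ε hε
  have h1 : Filter.Tendsto (fun y : ℕ => C * (lx y) ^ (-(1 : ℝ) / 5)) Filter.atTop (nhds 0) := by
    have h2 : Filter.Tendsto (fun y : ℕ => lx y) Filter.atTop Filter.atTop :=
      Real.tendsto_log_atTop.comp tendsto_natCast_atTop_atTop
    have h3 := (tendsto_rpow_neg_atTop (show (0 : ℝ) < 1 / 5 by norm_num)).comp h2
    have h4 := h3.const_mul C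
    rw [mul_zero] at h4
    refine h4.congr fun y => ?_
    simp only [Function.comp]
    norm_num
  have h5 := h1.eventually (gt_mem_nhds hε)
  obtain ⟨N, hN1, hN2⟩ := (h5.and (Filter.eventually_ge_atTop y0)).exists
  refine ⟨N, fun n hn => ?_⟩
  rw [Real.dist_eq]
  exact lt_of_le_of_lt (h N hN2 n hn) hN1

end Pool.Agent.W_e21d3a_h93
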