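import Pool.Agent.W_e21d3a_h93.E1
import Pool.Agent.W_e21d3a_h93.C9
import Pool.Agent.W_e21d3a_h93.B2

set_option autoImplicit false

/-!
# [NC] E2: invariant sets: convergence in windows (row 502, 8.1)
-/

namespace Pool.Agent.W_e21d3a_h93

/-- for typical `N`: `N ∈ S ↔ N ∈ P_x(S)` -/
theorem typ_inv : ∃ x0 : ℕ, ∀ x ≥ x0, ∀ y N : ℕ, WW x y → N ∈ OO y → Typ x N → ∀ S : Set ℕ,
    (∀ n, 0 < n → (n ∈ S ↔ col n ∈ S)) → (N ∈ S ↔ N ∈ PP x S) := by
  obtain ⟨x0, hx0⟩ := typ_mem_PP_univ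
  refine ⟨x0, fun x hx y N hW hN hT S hS => ?_⟩
  obtain ⟨hodd, n, hn, _⟩ := hx0 x hx y N hW hN hT
  constructor
  · intro h
    exact ⟨hodd, n, hn, (inv_syr hS hodd n).1 h⟩
  · rintro ⟨_, k, _, hk⟩
    exact (inv_syr hS hodd k).2 hk

theorem E2_lx_nonneg (y : ℕ) : 0 ≤ lx y := Real.log_natCast_nonneg y

theorem E2_lx_mono {y y' : ℕ} (h : y ≤ y') : lx y ≤ lx y' := by
  rcases Nat.eq_zero_or_pos y with h0 | h0
  · subst h0
    have : lx 0 = 0 := by simp [lx]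
    rw [this]
    exact E2_lx_nonneg y'
  · unfold lx
    have h1 : (0 : ℝ) < (y : ℝ) := by exact_mod_cast h0
    have h2 : (y : ℝ) ≤ (y' : ℝ) := by exact_mod_cast h
    exact Real.log_le_log h1 h2

/-- logarithms get large -/
theorem E2_lx_large (L : ℝ) : ∃ x0 : ℕ, ∀ x ≥ x0, L ≤ lx x := by
  refine ⟨⌈Real.exp L⌉₊, fun x hx => ?_⟩
  have h1 : Real.exp L ≤ (x : ℝ) := le_trans (Nat.le_ceil _) (by exact_mod_cast hx)
  unfold lx
  rw [Real.le_log_iff_exp_le (lt_of_lt_of_le (Real.exp_pos L) h1)]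
  exact h1

/-- passing from `S` to `P_x(S)` -/
theorem E2_LL_PP : ∃ x0 : ℕ, ∀ x ≥ x0, ∀ y, WW x y → ∀ S : Set ℕ,
    (∀ n, 0 < n → (n ∈ S ↔ col n ∈ S)) → |LL y S - LL y (PP x S)| ≤ 3 / (lx x) ^ 3 ∧
      |nu y S - nu y (PP x S)| ≤ 2 / (lx x) ^ 3 := by
  obtain ⟨xa, hxa⟩ := typ_inv
  obtain ⟨xb, hxb⟩ := LL_not_typ
  obtain ⟨xc, hxc⟩ := nu_not_typ
  refine ⟨max xa (max xb xc), fun x hx y hW S hS => ?_⟩
  have ha := hxa x (le_trans (le_max_left _ _) hx)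
  have hb := hxb x (le_trans (le_trans (le_max_left _ _) (le_max_right _ _)) hx) y hW
  have hc := hxc x (le_trans (le_trans (le_max_right _ _) (le_max_right _ _)) hx) y hW
  have h1 : ∀ N ∈ OO y, N ∈ S → N ∈ PP x S ∪ {N | ¬ Typ x N} := by
    intro N hN hNS
    by_cases hT : Typ x N
    · exact Or.inl ((ha y N hW hN hT S hS).1 hNS)
    · exact Or.inr hT
  have h2 : ∀ N ∈ OO y, N ∈ PP x S → N ∈ S ∪ {N | ¬ Typ x N} := by
    intro N hN hNS
    by_cases hT : Typ x N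
    · exact Or.inl ((ha y N hW hN hT S hS).2 hNS)
    · exact Or.inr hT
  constructor
  · have h3 := (LL_mono y h1).trans (LL_union_le y _ _)
    have h4 := (LL_mono y h2).trans (LL_union_le y _ _)
    rw [abs_le]
    constructor <;> linarith
  · have h3 := (nu_mono y h1).trans (nu_union_le y _ _)
    have h4 := (nu_mono y h2).trans (nu_union_le y _ _)
    rw [abs_le]
    constructor <;> linarith

theorem E2_cube {l : ℝ} (hl : 1 ≤ l) : 1 / l ^ 3 ≤ l ^ (-(1 : ℝ) / 5) := by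
  have h0 : (0 : ℝ) < l := by linarith
  have h1 : (1 : ℝ) / l ^ 3 = l ^ (-(3 : ℝ)) := by
    rw [Real.rpow_neg h0.le, one_div]
    congr 1
    norm_cast
  rw [h1]
  exact Real.rpow_le_rpow_of_exponent_le hl (by norm_num)

/-- oscillation between windows of the same `x` (constants do not depend on `S`) -/
theorem LL_osc : ∃ C : ℝ, 0 < C ∧ ∃ y0 : ℕ, ∀ S : Set ℕ, (∀ n, 0 < n → (n ∈ S ↔ col n ∈ S)) →
    ∀ y ≥ y0, ∀ y' ≥ y, lx y' ≤ 51 / 50 * lx y → |LL y' S - LL y S| ≤ C * (lx y) ^ (-(1 : ℝ) / 5) := by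
  obtain ⟨C, hC, xa, hxa⟩ := transfer_log
  obtain ⟨xb, hxb⟩ := E2_LL_PP
  obtain ⟨xc, hxc⟩ := E2_lx_large 1
  obtain ⟨y0, hy0⟩ := choose_x (max xa (max xb xc))
  refine ⟨2 * (2 * C + 6), by positivity, y0, fun S hS y hy y' hy' hyy => ?_⟩
  obtain ⟨x, hx, hx1, hx2, hx3⟩ := hy0 y hy
  have hy_nonneg := E2_lx_nonneg y
  have hW : WW x y := hx3 y le_rfl (by linarith)
  have hW' : WW x y' := hx3 y' (E2_lx_mono hy') hyy
  have h1 := hxa x (le_trans (le_max_left _ _) hx) y hW S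
  have h2 := hxa x (le_trans (le_max_left _ _) hx) y' hW' S
  have hb := hxb x (le_trans (le_trans (le_max_left _ _) (le_max_right _ _)) hx)
  have h3 := (hb y hW S hS).1
  have h4 := (hb y' hW' S hS).1
  have hl := hxc x (le_trans (le_trans (le_max_right _ _) (le_max_right _ _)) hx)
  have h5 := E2_cube hl
  have hl0 : 0 < lx x := by linarith
  have hy1 : 0 < lx y := by linarith
  have h6 : (lx x) ^ (-(1 : ℝ) / 5) ≤ 2 * (lx y) ^ (-(1 : ℝ) / 5) := by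
    have h7 : (lx y / 32) ^ (-(1 : ℝ) / 5) = 2 * (lx y) ^ (-(1 : ℝ) / 5) := by
      rw [Real.div_rpow hy1.le (by norm_num), show (32 : ℝ) = 2 ^ (5 : ℝ) by norm_num,
        ← Real.rpow_mul (by norm_num)]
      norm_num
      ring
    rw [← h7]
    exact Real.rpow_le_rpow_of_nonpos (by positivity) (by linarith) (by norm_num)
  have h8 : 3 / lx x ^ 3 = 3 * (1 / lx x ^ 3) := by ring
  rw [h8] at h3 h4
  rw [abs_le] at h1 h2 h3 h4
  have h9 : |LL y' S - LL y S| ≤ (2 * C + 6) * (lx x) ^ (-(1 : ℝ) / 5) := by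
    rw [abs_le]
    constructor <;> nlinarith
  calc |LL y' S - LL y S| ≤ (2 * C + 6) * (lx x) ^ (-(1 : ℝ) / 5) := h9
    _ ≤ (2 * C + 6) * (2 * (lx y) ^ (-(1 : ℝ) / 5)) :=
        mul_le_mul_of_nonneg_left h6 (by positivity)
    _ = 2 * (2 * C + 6) * (lx y) ^ (-(1 : ℝ) / 5) := by ring

/-- natural and logarithmic density of a window agree asymptotically -/
theorem nu_LL {ε : ℝ} (hε : 0 < ε) : ∃ y0 : ℕ, ∀ S : Set ℕ, (∀ n, 0 < n → (n ∈ S ↔ col n ∈ S)) →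
    ∀ y ≥ y0, |nu y S - LL y S| ≤ ε := by
  obtain ⟨C, hC, xa, hxa⟩ := transfer_log
  obtain ⟨xb, hxb⟩ := E2_LL_PP
  obtain ⟨xc, hxc⟩ := E2_lx_large (max 1 ((2 * (C + 5) / ε) ^ (5 : ℝ)))
  obtain ⟨xd, hxd⟩ := transfer_nat (half_pos hε)
  obtain ⟨y0, hy0⟩ := choose_x (max (max xa xd) (max xb xc))
  refine ⟨y0, fun S hS y hy => ?_⟩
  obtain ⟨x, hx, hx1, hx2, hx3⟩ := hy0 y hy
  have hy_nonneg := E2_lx_nonneg y
  have hW : WW x y := hx3 y le_rfl (by linarith)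
  have h1 := hxa x (le_trans (le_trans (le_max_left _ _) (le_max_left _ _)) hx) y hW S
  have h2 := hxd x (le_trans (le_trans (le_max_right _ _) (le_max_left _ _)) hx) y hW S
  obtain ⟨h3, h4⟩ := hxb x (le_trans (le_trans (le_max_left _ _) (le_max_right _ _)) hx) y hW S hS
  have hl := hxc x (le_trans (le_trans (le_max_right _ _) (le_max_right _ _)) hx)
  have hl1 : 1 ≤ lx x := le_trans (le_max_left _ _) hl
  have hl2 : (2 * (C + 5) / ε) ^ (5 : ℝ) ≤ lx x := le_trans (le_max_right _ _) hl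
  have h5 := E2_cube hl1
  have hl0 : 0 < lx x := by linarith
  have h6 : (C + 5) * (lx x) ^ (-(1 : ℝ) / 5) ≤ ε / 2 := by
    have h7 : (lx x) ^ (-(1 : ℝ) / 5) ≤ ((2 * (C + 5) / ε) ^ (5 : ℝ)) ^ (-(1 : ℝ) / 5) :=
      Real.rpow_le_rpow_of_nonpos (by positivity) hl2 (by norm_num)
    have h8 : ((2 * (C + 5) / ε) ^ (5 : ℝ)) ^ (-(1 : ℝ) / 5) = ε / (2 * (C + 5)) := by
      rw [← Real.rpow_mul (by positivity), show (5 : ℝ) * (-1 / 5) = -1 by norm_num,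
        Real.rpow_neg_one, inv_div]
    rw [h8] at h7
    calc (C + 5) * (lx x) ^ (-(1 : ℝ) / 5) ≤ (C + 5) * (ε / (2 * (C + 5))) :=
          mul_le_mul_of_nonneg_left h7 (by positivity)
      _ = ε / 2 := by
          field_simp
  have h8 : 3 / lx x ^ 3 = 3 * (1 / lx x ^ 3) := by ring
  have h9 : 2 / lx x ^ 3 = 2 * (1 / lx x ^ 3) := by ring
  rw [h8] at h3
  rw [h9] at h4
  rw [abs_le] at h1 h2 h3 h4
  rw [abs_le]
  constructor <;> nlinarith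

theorem nu_tendsto (S : Set ℕ) (hS : ∀ n, 0 < n → (n ∈ S ↔ col n ∈ S)) :
    ∃ s : ℝ, Filter.Tendsto (fun y => nu y S) Filter.atTop (nhds s) := by
  obtain ⟨C, hC, y0, hy0⟩ := LL_osc
  obtain ⟨C', y1, hy1⟩ := cauchy_scales (fun y => LL y S) hC y0 (hy0 S hS)
  obtain ⟨s, hs⟩ := exists_limit (fun y => LL y S) y1 hy1
  refine ⟨s, ?_⟩
  have h1 : Filter.Tendsto (fun y => nu y S - LL y S) Filter.atTop (nhds 0) := by
    rw [Metric.tendsto_atTop]
    intro ε hε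
    obtain ⟨y2, hy2⟩ := nu_LL (half_pos hε)
    refine ⟨y2, fun y hy => ?_⟩
    rw [Real.dist_eq, sub_zero]
    have := hy2 S hS y hy
    linarith
  have h2 := h1.add hs
  rw [zero_add] at h2
  refine h2.congr fun y => ?_
  ring

end Pool.Agent.W_e21d3a_h93
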