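import Pool.Agent.W_e21d3a_h93.B2
import Pool.Agent.W_e21d3a_h93.D1

set_option autoImplicit false

/-!
# [NC] E3: from windows of odd numbers to all integers (row 502, 8.1 end)
-/

namespace Pool.Agent.W_e21d3a_h93

/-- a recursion over halving -/
theorem halving_tendsto (b : ℕ → ℝ) (K : ℝ) (hK : 0 ≤ K)
    (h : ∀ ε > 0, ∃ X0 : ℕ, ∀ X ≥ X0, |b X| ≤ |b (X / 2)| + ε * X + K) :
    Filter.Tendsto (fun X : ℕ => b X / X) Filter.atTop (nhds 0) := by
  rw [Metric.tendsto_atTop]
  intro ε hε
  obtain ⟨X0, hX0⟩ := h (ε / 8) (by positivity)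
  set X1 : ℕ := max X0 (⌈8 * K / ε⌉₊ + 1) with hX1
  set D : ℝ := ∑ i ∈ Finset.range X1, |b i| with hD
  have hD0 : 0 ≤ D := Finset.sum_nonneg fun i _ => abs_nonneg _
  have main : ∀ X : ℕ, |b X| ≤ ε / 2 * X + D := by
    intro X
    induction X using Nat.strong_induction_on with
    | _ X ih =>
      by_cases hX : X < X1
      · have h1 : |b X| ≤ D :=
          Finset.single_le_sum (f := fun i => |b i|) (fun i _ => abs_nonneg _)
            (Finset.mem_range.2 hX)
        have h2 : 0 ≤ ε / 2 * X := by positivity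
        linarith
      · push Not at hX
        have hX1' : X0 ≤ X := le_trans (le_max_left _ _) hX
        have hX2' : ⌈8 * K / ε⌉₊ + 1 ≤ X := le_trans (le_max_right _ _) hX
        have h1 := hX0 X hX1'
        have h2 := ih (X / 2) (Nat.div_lt_self (by omega) (by norm_num))
        have h3 : ((X / 2 : ℕ) : ℝ) ≤ X / 2 := by
          have := Nat.cast_div_le (α := ℝ) (m := X) (n := 2)
          simpa using this
        have h4 : 8 * K / ε ≤ X := by
          refine le_trans (Nat.le_ceil _) ?_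
          exact_mod_cast (by omega : ⌈8 * K / ε⌉₊ ≤ X)
        have h5 : 8 * K ≤ X * ε := (div_le_iff₀ hε).1 h4
        have h6 : ε / 2 * ((X / 2 : ℕ) : ℝ) ≤ ε / 2 * (X / 2) :=
          mul_le_mul_of_nonneg_left h3 (by positivity)
        nlinarith
  refine ⟨⌈2 * D / ε⌉₊ + 1, fun X hX => ?_⟩
  have hXpos : (0 : ℝ) < X := by exact_mod_cast (by omega : 0 < X)
  have h1 : 2 * D / ε < X := by
    refine lt_of_le_of_lt (Nat.le_ceil _) ?_
    exact_mod_cast (by omega : ⌈2 * D / ε⌉₊ < X)
  have h2 : 2 * D < X * ε := (div_lt_iff₀ hε).1 h1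
  rw [Real.dist_eq, sub_zero, abs_div, abs_of_pos hXpos, div_lt_iff₀ hXpos]
  have := main X
  nlinarith

open Classical in
theorem card_Icc_eq (S : Set ℕ) (Y : ℕ) :
    (((Finset.Icc 1 Y).filter (fun N => N % 2 = 1 ∧ N ∈ S)).card : ℝ) =
      ∑ N ∈ Finset.Ioc 0 Y, if N % 2 = 1 ∧ N ∈ S then (1 : ℝ) else 0 := by
  rw [Finset.card_filter]
  push_cast
  refine Finset.sum_congr ?_ fun _ _ => rfl
  ext x
  simp only [Finset.mem_Icc, Finset.mem_Ioc]
  omega

open Classical in
/-- odd numbers up to `Y` -/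
theorem odd_density (S : Set ℕ) (s : ℝ)
    (h : Filter.Tendsto (fun y => nu y S) Filter.atTop (nhds s)) :
    Filter.Tendsto (fun Y : ℕ => (((Finset.Icc 1 Y).filter (fun N => N % 2 = 1 ∧ N ∈ S)).card : ℝ) / Y)
      Filter.atTop (nhds (s / 2)) := by
  set f : ℕ → ℝ := fun N => if N % 2 = 1 ∧ N ∈ S then (1 : ℝ) else 0 with hf
  set a : ℕ → ℝ := fun Y => ∑ N ∈ Finset.Ioc 0 Y, f N with ha
  have hnu : ∀ y : ℕ, 0 < y → a (2 * y) - a y = y / 2 * nu y S := by
    intro y hy
    have hy' : (0 : ℝ) < y := by exact_mod_cast hy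
    have h1 : a (2 * y) = a y + ∑ N ∈ Finset.Ioc y (2 * y), f N :=
      (Finset.sum_Ioc_consecutive f (Nat.zero_le y) (by omega)).symm
    have h2 : (((OO y).filter (fun N => N ∈ S)).card : ℝ) =
        ∑ N ∈ Finset.Ioc y (2 * y), f N := by
      unfold OO
      rw [Finset.filter_filter, Finset.card_filter]
      push_cast
      rfl
    unfold nu
    rw [h1, h2]
    field_simp
    ring
  have hstep : ∀ Y : ℕ, |a Y - a (2 * (Y / 2))| ≤ 1 := by
    intro Y
    rcases Nat.mod_two_eq_zero_or_one Y with h0 | h0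
    · have : 2 * (Y / 2) = Y := by omega
      rw [this, sub_self, abs_zero]
      norm_num
    · have h1 : a Y = a (2 * (Y / 2)) + ∑ N ∈ Finset.Ioc (2 * (Y / 2)) Y, f N :=
        (Finset.sum_Ioc_consecutive f (Nat.zero_le _) (by omega)).symm
      have h2 : Finset.Ioc (2 * (Y / 2)) Y = {Y} := by
        ext x
        simp only [Finset.mem_Ioc, Finset.mem_singleton]
        omega
      rw [h1, h2, Finset.sum_singleton, add_sub_cancel_left, hf]
      simp only
      split_ifs <;> simp
  have hb := halving_tendsto (fun Y => a Y - s / 2 * Y) (1 + |s| / 2) (by positivity) (by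
    intro ε hε
    rw [Metric.tendsto_atTop] at h
    obtain ⟨y0, hy0⟩ := h ε hε
    refine ⟨2 * y0 + 2, fun Y hY => ?_⟩
    set y := Y / 2 with hy
    have hypos : 0 < y := by omega
    have h1 := hnu y hypos
    have h2 := hstep Y
    have h3 := hy0 y (by omega)
    rw [Real.dist_eq] at h3
    have h4 : |(Y : ℝ) - 2 * y| ≤ 1 := by
      have h41 : Y = 2 * y ∨ Y = 2 * y + 1 := by omega
      rcases h41 with h41 | h41 <;> rw [h41] <;> push_cast <;> norm_num
    have h5 : (y : ℝ) ≤ Y := by exact_mod_cast (by omega : y ≤ Y)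
    have h6 : a Y - s / 2 * Y = (a y - s / 2 * y) + (a Y - a (2 * y)) +
        y / 2 * (nu y S - s) - s / 2 * (Y - 2 * y) := by
      have : a (2 * y) = a y + y / 2 * nu y S := by linarith
      rw [this]
      ring
    have hypos' : (0 : ℝ) ≤ y := Nat.cast_nonneg _
    have h7 : |(y : ℝ) / 2 * (nu y S - s)| ≤ ε * Y := by
      rw [abs_mul, abs_of_nonneg (by positivity)]
      calc (y : ℝ) / 2 * |nu y S - s| ≤ Y * ε := by
            apply mul_le_mul _ h3.le (abs_nonneg _) (by positivity)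
            linarith
        _ = ε * Y := mul_comm _ _
    have h8 : |s / 2 * ((Y : ℝ) - 2 * y)| ≤ |s| / 2 := by
      rw [abs_mul, abs_div, abs_two]
      exact mul_le_of_le_one_right (by positivity) h4
    rw [h6]
    calc |(a y - s / 2 * y) + (a Y - a (2 * y)) + y / 2 * (nu y S - s) - s / 2 * (Y - 2 * y)|
        ≤ |(a y - s / 2 * y) + (a Y - a (2 * y)) + y / 2 * (nu y S - s)| +
          |s / 2 * (Y - 2 * y)| := abs_sub _ _
      _ ≤ |(a y - s / 2 * y) + (a Y - a (2 * y))| + |(y : ℝ) / 2 * (nu y S - s)| +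
          |s / 2 * (Y - 2 * y)| := by
            have := abs_add_le ((a y - s / 2 * y) + (a Y - a (2 * y))) ((y : ℝ) / 2 * (nu y S - s))
            linarith
      _ ≤ |a y - s / 2 * y| + |a Y - a (2 * y)| + |(y : ℝ) / 2 * (nu y S - s)| +
          |s / 2 * (Y - 2 * y)| := by
            have := abs_add_le (a y - s / 2 * y) (a Y - a (2 * y))
            linarith
      _ ≤ |a y - s / 2 * y| + ε * Y + (1 + |s| / 2) := by linarith)
  have hb' := hb.add_const (s / 2)
  rw [zero_add] at hb'
  refine hb'.congr' ?_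
  filter_upwards [Filter.eventually_gt_atTop 0] with Y hY
  have hYpos : (0 : ℝ) < Y := by exact_mod_cast hY
  rw [card_Icc_eq]
  have : (∑ N ∈ Finset.Ioc 0 Y, if N % 2 = 1 ∧ N ∈ S then (1 : ℝ) else 0) = a Y := rfl
  rw [this]
  field_simp
  ring

open Classical in
/-- all integers: `2^j N ∈ S ↔ N ∈ S`, `∑_j 2^{-j-1} = 1` -/
theorem full_density (S : Set ℕ) (hS : ∀ n, 0 < n → (n ∈ S ↔ col n ∈ S)) (s : ℝ)
    (h : Filter.Tendsto (fun Y : ℕ => (((Finset.Icc 1 Y).filter (fun N => N % 2 = 1 ∧ N ∈ S)).card : ℝ) / Y)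
      Filter.atTop (nhds (s / 2))) :
    Filter.Tendsto (fun X : ℕ => (((Finset.Icc 1 X).filter (fun n => n ∈ S)).card : ℝ) / X)
      Filter.atTop (nhds s) := by
  set a : ℕ → ℝ := fun Y => (((Finset.Icc 1 Y).filter (fun N => N % 2 = 1 ∧ N ∈ S)).card : ℝ)
    with ha
  set c : ℕ → ℝ := fun X => (((Finset.Icc 1 X).filter (fun n => n ∈ S)).card : ℝ) with hc
  have h2S : ∀ m, 0 < m → (2 * m ∈ S ↔ m ∈ S) := by
    intro m hm
    rw [hS (2 * m) (by omega)]
    have : col (2 * m) = m := by
      unfold col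
      rw [if_pos (by omega)]
      omega
    rw [this]
  have hrec : ∀ X : ℕ, c X = a X + c (X / 2) := by
    intro X
    have h1 : (Finset.Icc 1 X).filter (fun n => n ∈ S) =
        (Finset.Icc 1 X).filter (fun N => N % 2 = 1 ∧ N ∈ S) ∪
          ((Finset.Icc 1 (X / 2)).filter (fun n => n ∈ S)).image (fun m => 2 * m) := by
      ext n
      simp only [Finset.mem_union, Finset.mem_filter, Finset.mem_Icc, Finset.mem_image]
      constructor
      · rintro ⟨⟨h1, h2⟩, h3⟩
        rcases Nat.mod_two_eq_zero_or_one n with h4 | h4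
        · right
          refine ⟨n / 2, ⟨⟨by omega, by omega⟩, ?_⟩, by omega⟩
          have h5 : 2 * (n / 2) = n := by omega
          rw [← h2S (n / 2) (by omega), h5]
          exact h3
        · left
          exact ⟨⟨h1, h2⟩, h4, h3⟩
      · rintro (⟨⟨h1, h2⟩, _, h3⟩ | ⟨m, ⟨⟨h1, h2⟩, h3⟩, rfl⟩)
        · exact ⟨⟨h1, h2⟩, h3⟩
        · exact ⟨⟨by omega, by omega⟩, (h2S m h1).2 h3⟩
    have h2 : Disjoint ((Finset.Icc 1 X).filter (fun N => N % 2 = 1 ∧ N ∈ S))
        (((Finset.Icc 1 (X / 2)).filter (fun n => n ∈ S)).image (fun m => 2 * m)) := by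
      rw [Finset.disjoint_left]
      intro n h1 h2
      simp only [Finset.mem_filter, Finset.mem_image] at h1 h2
      obtain ⟨m, _, rfl⟩ := h2
      omega
    have h3 : Function.Injective (fun m : ℕ => 2 * m) := by
      intro x y hxy
      simp only at hxy
      omega
    simp only [hc, ha]
    rw [h1, Finset.card_union_of_disjoint h2, Finset.card_image_of_injective _ h3]
    push_cast
    rfl
  have hb := halving_tendsto (fun X => c X - s * X) (|s| / 2) (by positivity) (by
    intro ε hε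
    rw [Metric.tendsto_atTop] at h
    obtain ⟨y0, hy0⟩ := h ε hε
    refine ⟨y0 + 1, fun X hX => ?_⟩
    have hXpos : (0 : ℝ) < X := by exact_mod_cast (by omega : 0 < X)
    have h3 := hy0 X (by omega)
    rw [Real.dist_eq] at h3
    have h4 : |a X - s / 2 * X| ≤ ε * X := by
      have : a X - s / 2 * X = (a X / X - s / 2) * X := by
        field_simp
      rw [this, abs_mul, abs_of_pos hXpos]
      exact mul_le_mul_of_nonneg_right h3.le hXpos.le
    set y := X / 2 with hy
    have h5 : |((X : ℝ)) - 2 * y| ≤ 1 := by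
      have h41 : X = 2 * y ∨ X = 2 * y + 1 := by omega
      rcases h41 with h41 | h41 <;> rw [h41] <;> push_cast <;> norm_num
    have h6 : c X - s * X = (c y - s * y) + (a X - s / 2 * X) - s / 2 * (X - 2 * y) := by
      rw [hrec X]
      ring
    have h8 : |s / 2 * ((X : ℝ) - 2 * y)| ≤ |s| / 2 := by
      rw [abs_mul, abs_div, abs_two]
      exact mul_le_of_le_one_right (by positivity) h5
    rw [h6]
    calc |(c y - s * y) + (a X - s / 2 * X) - s / 2 * (X - 2 * y)|
        ≤ |(c y - s * y) + (a X - s / 2 * X)| + |s / 2 * (X - 2 * y)| := abs_sub _ _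
      _ ≤ |c y - s * y| + |a X - s / 2 * X| + |s / 2 * (X - 2 * y)| := by
            have := abs_add_le (c y - s * y) (a X - s / 2 * X)
            linarith
      _ ≤ |c y - s * y| + ε * X + |s| / 2 := by linarith)
  have hb' := hb.add_const s
  rw [zero_add] at hb'
  refine hb'.congr' ?_
  filter_upwards [Filter.eventually_gt_atTop 0] with X hX
  have hXpos : (0 : ℝ) < X := by exact_mod_cast hX
  field_simp
  ring

end Pool.Agent.W_e21d3a_h93
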