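import Pool.Agent.W_e21d3a_h93.Defs

set_option autoImplicit false

/-!
# [NC] P1: sums over compositions (proofs row 497, (1.1))
-/

namespace Pool.Agent.W_e21d3a_h93

theorem comps_eq_empty {n t : ℕ} (h : t < n) : comps n t = ∅ := by
  rw [Finset.eq_empty_iff_forall_notMem]
  intro l hl
  obtain ⟨h1, h2, h3⟩ := mem_comps.mp hl
  have := List.length_le_sum_of_one_le l h3
  omega

private theorem card_comps_succ_eq (n t : ℕ) :
    (comps (n + 1) t).card = ∑ a ∈ Finset.Icc 1 t, (comps n (t - a)).card := by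
  have h := sum_comps_succ (M := ℕ) n t (fun _ => 1)
  simp only [Finset.sum_const, smul_eq_mul, mul_one] at h
  exact h

private theorem card_comps_rec (n t : ℕ) :
    (comps (n + 1) (t + 1)).card = (comps n t).card + (comps (n + 1) t).card := by
  rw [card_comps_succ_eq n (t + 1), card_comps_succ_eq n t]
  have h1 : Finset.Icc 1 (t + 1) = insert 1 ((Finset.Icc 1 t).map (addRightEmbedding 1)) := by
    rw [Finset.map_add_right_Icc]
    ext x
    simp only [Finset.mem_Icc, Finset.mem_insert]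
    omega
  rw [h1, Finset.sum_insert, Finset.sum_map]
  · simp only [addRightEmbedding_apply, Nat.add_sub_add_right, Nat.add_sub_cancel]
  · simp only [Finset.mem_map, Finset.mem_Icc, addRightEmbedding_apply, not_exists, not_and]
    intro x hx
    omega

private theorem card_comps_aux (n t : ℕ) : (comps (n + 1) (t + 1)).card = t.choose n := by
  induction t generalizing n with
  | zero =>
    rw [card_comps_rec]
    have h0 : comps (n + 1) 0 = ∅ := comps_eq_empty (Nat.succ_pos n)
    rw [h0, Finset.card_empty, add_zero]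
    cases n with
    | zero => simp [comps_zero]
    | succ n => rw [comps_eq_empty (Nat.succ_pos n)]; simp
  | succ t ih =>
    rw [card_comps_rec, ih n]
    cases n with
    | zero => simp [comps_zero]
    | succ n => rw [ih n, Nat.choose_succ_succ]

theorem card_comps {n t : ℕ} (hn : 1 ≤ n) (ht : 1 ≤ t) :
    (comps n t).card = (t - 1).choose (n - 1) := by
  obtain ⟨n, rfl⟩ : ∃ k, n = k + 1 := ⟨n - 1, by omega⟩
  obtain ⟨t, rfl⟩ : ∃ k, t = k + 1 := ⟨t - 1, by omega⟩
  simpa using card_comps_aux n t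

theorem pw_nonneg (n t : ℕ) : 0 ≤ pw n t := by
  unfold pw
  positivity

private theorem swap_sum {M : Type*} [AddCommMonoid M] (t : ℕ) (G : ℕ → ℕ → M) :
    ∑ a ∈ Finset.Icc 1 t, ∑ s ∈ Finset.range (t - a + 1), G a s =
      ∑ s ∈ Finset.range (t + 1), ∑ a ∈ Finset.Icc 1 s, G a (s - a) := by
  rw [Finset.sum_sigma', Finset.sum_sigma']
  refine Finset.sum_bij' (fun (x : (_ : ℕ) × ℕ) _ => (⟨x.1 + x.2, x.1⟩ : (_ : ℕ) × ℕ))
    (fun (x : (_ : ℕ) × ℕ) _ => (⟨x.2, x.1 - x.2⟩ : (_ : ℕ) × ℕ)) ?_ ?_ ?_ ?_ ?_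
  · rintro ⟨a, s⟩ hx
    simp only [Finset.mem_sigma, Finset.mem_Icc, Finset.mem_range] at hx ⊢
    omega
  · rintro ⟨a, s⟩ hx
    simp only [Finset.mem_sigma, Finset.mem_Icc, Finset.mem_range] at hx ⊢
    omega
  · rintro ⟨a, s⟩ hx
    simp
  · rintro ⟨a, s⟩ hx
    simp only [Finset.mem_sigma, Finset.mem_Icc, Finset.mem_range] at hx
    have : s + (a - s) = a := by omega
    simp [this]
  · rintro ⟨a, s⟩ hx
    simp only [Finset.mem_sigma, Finset.mem_Icc, Finset.mem_range] at hx
    have e1 : a + s - a = s := by omega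
    simp only [e1]

/-- splitting a list of length `i + j` -/
theorem sum_comps_append {M : Type*} [AddCommMonoid M] (i j t : ℕ) (F : List ℕ → M) :
    ∑ l ∈ comps (i + j) t, F l =
      ∑ s ∈ Finset.range (t + 1), ∑ β ∈ comps i s, ∑ γ ∈ comps j (t - s), F (β ++ γ) := by
  induction i generalizing t F with
  | zero =>
    rw [Nat.zero_add]
    symm
    rw [Finset.sum_eq_single 0]
    · rw [sum_comps_zero]
      simp
    · intro s _ hs
      rw [sum_comps_zero]
      simp [hs]
    · intro h
      simp at h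
  | succ i ih =>
    have e : i + 1 + j = (i + j) + 1 := by omega
    rw [e, sum_comps_succ]
    have h1 : ∀ a ∈ Finset.Icc 1 t, ∑ l ∈ comps (i + j) (t - a), F (a :: l) =
        ∑ s ∈ Finset.range (t - a + 1), ∑ β ∈ comps i s, ∑ γ ∈ comps j (t - a - s),
          F (a :: (β ++ γ)) := fun a _ => ih (t - a) (fun l => F (a :: l))
    rw [Finset.sum_congr rfl h1]
    have h2 : ∀ s ∈ Finset.range (t + 1), ∑ β ∈ comps (i + 1) s, ∑ γ ∈ comps j (t - s),
        F (β ++ γ) = ∑ a ∈ Finset.Icc 1 s, ∑ β ∈ comps i (s - a), ∑ γ ∈ comps j (t - s),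
          F (a :: (β ++ γ)) := by
      intro s _
      rw [sum_comps_succ]
      rfl
    rw [Finset.sum_congr rfl h2, swap_sum t (fun a s => ∑ β ∈ comps i s,
      ∑ γ ∈ comps j (t - a - s), F (a :: (β ++ γ)))]
    refine Finset.sum_congr rfl fun s hs => Finset.sum_congr rfl fun a ha => ?_
    rw [Finset.mem_range] at hs
    rw [Finset.mem_Icc] at ha
    have e2 : t - a - (s - a) = t - s := by omega
    rw [e2]

/-- convolution inequality -/
private theorem conv_le (f g : ℕ → ℝ) (hf : ∀ a, 0 ≤ f a) (hg : ∀ a, 0 ≤ g a) (τ : ℕ) :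
    ∑ t ∈ Finset.range (τ + 1), ∑ s ∈ Finset.range (t + 1), f s * g (t - s) ≤
      (∑ s ∈ Finset.range (τ + 1), f s) * ∑ u ∈ Finset.range (τ + 1), g u := by
  rw [Finset.sum_mul_sum, Finset.sum_sigma', ← Finset.sum_product']
  have himg : ∀ x ∈ (Finset.range (τ + 1)).sigma (fun t => Finset.range (t + 1)),
      ∀ y ∈ (Finset.range (τ + 1)).sigma (fun t => Finset.range (t + 1)),
      (fun z : (_ : ℕ) × ℕ => ((z.2, z.1 - z.2) : ℕ × ℕ)) x =
        (fun z : (_ : ℕ) × ℕ => ((z.2, z.1 - z.2) : ℕ × ℕ)) y → x = y := by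
    rintro ⟨a, b⟩ hx ⟨c, d⟩ hy hxy
    simp only [Finset.mem_sigma, Finset.mem_range] at hx hy
    simp only [Prod.mk.injEq] at hxy
    obtain ⟨h1, h2⟩ := hxy
    subst h1
    have : a = c := by omega
    subst this
    rfl
  have hs := Finset.sum_image (f := fun z : ℕ × ℕ => f z.1 * g z.2) himg
  calc ∑ x ∈ (Finset.range (τ + 1)).sigma (fun t => Finset.range (t + 1)),
        f x.2 * g (x.1 - x.2)
      = ∑ z ∈ ((Finset.range (τ + 1)).sigma (fun t => Finset.range (t + 1))).image
          (fun z : (_ : ℕ) × ℕ => ((z.2, z.1 - z.2) : ℕ × ℕ)), f z.1 * g z.2 := hs.symm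
    _ ≤ ∑ z ∈ Finset.range (τ + 1) ×ˢ Finset.range (τ + 1), f z.1 * g z.2 := by
        apply Finset.sum_le_sum_of_subset_of_nonneg
        · intro z hz
          obtain ⟨x, hx, rfl⟩ := Finset.mem_image.mp hz
          simp only [Finset.mem_sigma, Finset.mem_range] at hx
          simp only [Finset.mem_product, Finset.mem_range]
          omega
        · intro z _ _
          exact mul_nonneg (hf _) (hg _)

/-- (1.1) product functions -/
theorem sum_prod_le (h : ℕ → ℝ) (h0 : ∀ a, 0 ≤ h a) (C : ℝ) (n τ : ℕ)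
    (hC : ∑ a ∈ Finset.Icc 1 τ, h a / 2 ^ a ≤ C) :
    ∑ t ∈ Finset.range (τ + 1), (∑ l ∈ comps n t, (l.map h).prod) / 2 ^ t ≤ C ^ n := by
  have hC0 : 0 ≤ C := le_trans (Finset.sum_nonneg fun a _ => div_nonneg (h0 a) (by positivity)) hC
  have hpr : ∀ l : List ℕ, 0 ≤ (l.map h).prod := by
    intro l
    induction l with
    | nil => simp
    | cons a l ih => simpa using mul_nonneg (h0 a) ih
  induction n with
  | zero =>
    rw [pow_zero, Finset.sum_eq_single 0]
    · rw [sum_comps_zero]
      simp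
    · intro t _ ht
      rw [sum_comps_zero]
      simp [ht]
    · intro h
      simp at h
  | succ n ih =>
    set f : ℕ → ℝ := fun a => if 1 ≤ a then h a / 2 ^ a else 0 with hf
    set g : ℕ → ℝ := fun t => (∑ l ∈ comps n t, (l.map h).prod) / 2 ^ t with hg
    have hf0 : ∀ a, 0 ≤ f a := by
      intro a
      simp only [hf]
      split_ifs
      · exact div_nonneg (h0 a) (by positivity)
      · exact le_rfl
    have hg0 : ∀ a, 0 ≤ g a := by
      intro a
      exact div_nonneg (Finset.sum_nonneg fun l _ => hpr l) (by positivity)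
    have e1 : ∀ t ∈ Finset.range (τ + 1), (∑ l ∈ comps (n + 1) t, (l.map h).prod) / 2 ^ t =
        ∑ s ∈ Finset.range (t + 1), f s * g (t - s) := by
      intro t _
      rw [sum_comps_succ, Finset.sum_div]
      have e2 : Finset.range (t + 1) = insert 0 (Finset.Icc 1 t) := by
        ext x
        simp only [Finset.mem_range, Finset.mem_insert, Finset.mem_Icc]
        omega
      rw [e2, Finset.sum_insert (by simp)]
      have e3 : f 0 = 0 := by simp [hf]
      rw [e3, zero_mul, zero_add]
      refine Finset.sum_congr rfl fun a ha => ?_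
      rw [Finset.mem_Icc] at ha
      have e4 : f a = h a / 2 ^ a := by simp [hf, ha.1]
      have e5 : (2 : ℝ) ^ t = 2 ^ a * 2 ^ (t - a) := by
        rw [← pow_add]
        congr 1
        omega
      simp only [List.map_cons, List.prod_cons]
      rw [← Finset.mul_sum, e4, hg, e5]
      field_simp
    rw [Finset.sum_congr rfl e1]
    have e6 : ∑ s ∈ Finset.range (τ + 1), f s ≤ C := by
      have e2 : Finset.range (τ + 1) = insert 0 (Finset.Icc 1 τ) := by
        ext x
        simp only [Finset.mem_range, Finset.mem_insert, Finset.mem_Icc]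
        omega
      rw [e2, Finset.sum_insert (by simp)]
      have e3 : f 0 = 0 := by simp [hf]
      rw [e3, zero_add]
      refine le_trans (le_of_eq ?_) hC
      refine Finset.sum_congr rfl fun a ha => ?_
      rw [Finset.mem_Icc] at ha
      simp [hf, ha.1]
    calc ∑ t ∈ Finset.range (τ + 1), ∑ s ∈ Finset.range (t + 1), f s * g (t - s)
        ≤ (∑ s ∈ Finset.range (τ + 1), f s) * ∑ u ∈ Finset.range (τ + 1), g u :=
          conv_le f g hf0 hg0 τ
      _ ≤ C * C ^ n := mul_le_mul e6 ih (Finset.sum_nonneg fun a _ => hg0 a) hC0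
      _ = C ^ (n + 1) := by rw [pow_succ, mul_comm]

/-- generating function -/
theorem sum_pw_mul_pow_le (n τ : ℕ) {z : ℝ} (h0 : 0 < z) (h2 : z < 2) :
    ∑ t ∈ Finset.range (τ + 1), pw n t * z ^ t ≤ (z / (2 - z)) ^ n := by
  have key := sum_prod_le (fun a => z ^ a) (fun a => by positivity) (z / (2 - z)) n τ ?_
  · refine le_trans (le_of_eq ?_) key
    refine Finset.sum_congr rfl fun t _ => ?_
    have e : ∀ l ∈ comps n t, (l.map (fun a => z ^ a)).prod = z ^ t := by
      intro l hl
      rw [← (mem_comps.mp hl).2.1]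
      clear hl
      induction l with
      | nil => simp
      | cons a l ih => simp [pow_add, ih]
    rw [Finset.sum_congr rfl e, Finset.sum_const, nsmul_eq_mul]
    unfold pw
    ring
  · have hr0 : 0 ≤ z / 2 := by positivity
    have hr1 : z / 2 < 1 := by linarith
    have e1 : ∑ a ∈ Finset.Icc 1 τ, z ^ a / 2 ^ a = ∑ a ∈ Finset.range τ, (z / 2) * (z / 2) ^ a := by
      rw [Finset.range_eq_Ico, Finset.sum_Ico_eq_sum_range]
      rw [show Finset.Icc 1 τ = Finset.Ico 1 (τ + 1) from rfl, Finset.sum_Ico_eq_sum_range]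
      simp only [Nat.add_sub_cancel, Nat.sub_zero]
      refine Finset.sum_congr rfl fun a _ => ?_
      rw [← div_pow, zero_add, pow_add, pow_one]
    rw [e1, ← Finset.mul_sum]
    have e2 : ∑ a ∈ Finset.range τ, (z / 2) ^ a ≤ (1 - z / 2)⁻¹ := by
      rw [← tsum_geometric_of_lt_one hr0 hr1]
      exact (summable_geometric_of_lt_one hr0 hr1).sum_le_tsum _ (fun i _ => by positivity)
    calc z / 2 * ∑ a ∈ Finset.range τ, (z / 2) ^ a ≤ z / 2 * (1 - z / 2)⁻¹ :=
          mul_le_mul_of_nonneg_left e2 hr0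
      _ = z / (2 - z) := by
          have : (2 : ℝ) - z ≠ 0 := by linarith
          have h3 : (1 : ℝ) - z / 2 ≠ 0 := by linarith
          field_simp

theorem sum_pw_le_one (n τ : ℕ) : ∑ t ∈ Finset.range (τ + 1), pw n t ≤ 1 := by
  have := sum_pw_mul_pow_le n τ (z := 1) one_pos (by norm_num)
  simpa [show (2 : ℝ) - 1 = 1 by norm_num] using this

theorem pw_le_one (n t : ℕ) : pw n t ≤ 1 := by
  refine le_trans ?_ (sum_pw_le_one n t)
  exact Finset.single_le_sum (f := fun s => pw n s) (fun s _ => pw_nonneg n s)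
    (Finset.mem_range.mpr (Nat.lt_succ_self t))

theorem Pr_nonneg (n τ : ℕ) (P : List ℕ → Prop) : 0 ≤ Pr n τ P := by
  unfold Pr
  exact Finset.sum_nonneg fun t _ => by positivity

theorem Pr_mono {n τ : ℕ} {P Q : List ℕ → Prop}
    (h : ∀ l, l.length = n → (∀ a ∈ l, 1 ≤ a) → P l → Q l) : Pr n τ P ≤ Pr n τ Q := by
  classical
  unfold Pr
  refine Finset.sum_le_sum fun t _ => ?_
  refine div_le_div_of_nonneg_right ?_ (by positivity)
  refine Nat.cast_le.mpr (Finset.card_le_card ?_)
  intro l hl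
  simp only [Finset.mem_filter] at hl ⊢
  obtain ⟨h1, h2, h3⟩ := mem_comps.mp hl.1
  exact ⟨hl.1, h l h1 h3 hl.2⟩

theorem Pr_or_le (n τ : ℕ) (P Q : List ℕ → Prop) :
    Pr n τ (fun l => P l ∨ Q l) ≤ Pr n τ P + Pr n τ Q := by
  classical
  unfold Pr
  rw [← Finset.sum_add_distrib]
  refine Finset.sum_le_sum fun t _ => ?_
  rw [← add_div]
  refine div_le_div_of_nonneg_right ?_ (by positivity)
  rw [← Nat.cast_add]
  refine Nat.cast_le.mpr (le_trans (Finset.card_le_card ?_) (Finset.card_union_le _ _))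
  intro l hl
  simp only [Finset.mem_filter] at hl
  simp only [Finset.mem_union, Finset.mem_filter]
  rcases hl.2 with h | h
  · exact Or.inl ⟨hl.1, h⟩
  · exact Or.inr ⟨hl.1, h⟩

/-- union bound over a finite index set -/
theorem Pr_exists_le {ι : Type*} (s : Finset ι) (n τ : ℕ) (P : ι → List ℕ → Prop) :
    Pr n τ (fun l => ∃ i ∈ s, P i l) ≤ ∑ i ∈ s, Pr n τ (P i) := by
  classical
  unfold Pr
  rw [Finset.sum_comm]
  refine Finset.sum_le_sum fun t _ => ?_
  rw [← Finset.sum_div]
  refine div_le_div_of_nonneg_right ?_ (by positivity)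
  rw [← Nat.cast_sum]
  refine Nat.cast_le.mpr (le_trans (Finset.card_le_card ?_) Finset.card_biUnion_le)
  intro l hl
  simp only [Finset.mem_filter] at hl
  obtain ⟨h1, i, hi, h2⟩ := hl
  simp only [Finset.mem_biUnion, Finset.mem_filter]
  exact ⟨i, hi, h1, h2⟩

theorem Pr_le_one (n τ : ℕ) (P : List ℕ → Prop) : Pr n τ P ≤ 1 := by
  classical
  refine le_trans ?_ (sum_pw_le_one n τ)
  unfold Pr pw
  refine Finset.sum_le_sum fun t _ => ?_
  refine div_le_div_of_nonneg_right ?_ (by positivity)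
  exact Nat.cast_le.mpr (Finset.card_le_card (Finset.filter_subset _ _))

/-- a condition on the first `k` entries only -/
theorem Pr_take_le {k n : ℕ} (h : k ≤ n) (τ : ℕ) (Q : List ℕ → Prop) :
    Pr n τ (fun l => Q (l.take k)) ≤ Pr k τ Q := by
  classical
  obtain ⟨j, rfl⟩ := Nat.exists_eq_add_of_le h
  unfold Pr
  set f : ℕ → ℝ := fun s => (((comps k s).filter Q).card : ℝ) / 2 ^ s with hf
  have e1 : ∀ t ∈ Finset.range (τ + 1),
      (((comps (k + j) t).filter (fun l => Q (l.take k))).card : ℝ) / 2 ^ t =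
        ∑ s ∈ Finset.range (t + 1), f s * pw j (t - s) := by
    intro t _
    rw [Finset.card_filter]
    push_cast
    rw [sum_comps_append k j t (fun l => if Q (l.take k) then (1 : ℝ) else 0), Finset.sum_div]
    refine Finset.sum_congr rfl fun s hs => ?_
    have hst : s ≤ t := Nat.lt_succ_iff.mp (Finset.mem_range.mp hs)
    have e2 : ∑ β ∈ comps k s, ∑ γ ∈ comps j (t - s),
        (if Q ((β ++ γ).take k) then (1 : ℝ) else 0) =
        (((comps k s).filter Q).card : ℝ) * ((comps j (t - s)).card : ℝ) := by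
      rw [Finset.card_filter]
      push_cast
      rw [Finset.sum_mul]
      refine Finset.sum_congr rfl fun β hβ => ?_
      have hlen : β.length = k := (mem_comps.mp hβ).1
      have : ∀ γ ∈ comps j (t - s), (if Q ((β ++ γ).take k) then (1 : ℝ) else 0) =
          (if Q β then (1 : ℝ) else 0) := by
        intro γ _
        rw [List.take_left' hlen]
      rw [Finset.sum_congr rfl this, Finset.sum_const, nsmul_eq_mul, mul_comm]
    have hpow : (2 : ℝ) ^ t = 2 ^ s * 2 ^ (t - s) := by
      rw [← pow_add]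
      congr 1
      omega
    rw [e2, hf, hpow]
    unfold pw
    field_simp
  rw [Finset.sum_congr rfl e1]
  have hf0 : ∀ a, 0 ≤ f a := fun a => by positivity
  calc ∑ t ∈ Finset.range (τ + 1), ∑ s ∈ Finset.range (t + 1), f s * pw j (t - s)
      ≤ (∑ s ∈ Finset.range (τ + 1), f s) * ∑ u ∈ Finset.range (τ + 1), pw j u :=
        conv_le f (pw j) hf0 (pw_nonneg j) τ
    _ ≤ (∑ s ∈ Finset.range (τ + 1), f s) * 1 :=
        mul_le_mul_of_nonneg_left (sum_pw_le_one j τ) (Finset.sum_nonneg fun a _ => hf0 a)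
    _ = ∑ s ∈ Finset.range (τ + 1), f s := mul_one _

/-- a condition on the sum only -/
theorem Pr_sum_eq (n τ : ℕ) (Q : ℕ → Prop) [DecidablePred Q] :
    Pr n τ (fun l => Q l.sum) = ∑ t ∈ (Finset.range (τ + 1)).filter Q, pw n t := by
  classical
  unfold Pr
  rw [Finset.sum_filter]
  refine Finset.sum_congr rfl fun t _ => ?_
  simp only [Finset.card_filter]
  by_cases h : Q t
  · rw [if_pos h]
    unfold pw
    congr 2
    rw [Finset.card_eq_sum_ones]
    refine Finset.sum_congr rfl fun l hl => if_pos ?_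
    rw [(mem_comps.mp hl).2.1]
    exact h
  · rw [if_neg h]
    rw [Finset.sum_eq_zero]
    · simp
    · intro l hl
      refine if_neg ?_
      rw [(mem_comps.mp hl).2.1]
      exact h

end Pool.Agent.W_e21d3a_h93
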