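import Pool.Agent.W_e21d3a_h93.F1a
import Pool.Agent.W_e21d3a_h93.B1b
import Pool.Agent.W_e21d3a_h93.P1

set_option autoImplicit false

/-!
# [NC] F0a: the additive character, the inverse of 2, Xu (row 498, 4.0)
-/

namespace Pool.Agent.W_e21d3a_h93

/-- `e(x) = exp(2πix)` -/
noncomputable def ee (x : ℝ) : ℂ := Complex.exp (2 * Real.pi * x * Complex.I)

/-- the inverse of 2 modulo `3^n` -/
def uu (n : ℕ) : ℕ := (3 ^ n + 1) / 2

/-- `Xu u α = ∑ 3^{j-1} u^{s_j}` -/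
def Xu (u : ℕ) : List ℕ → ℕ
  | [] => 0
  | a :: l => u ^ a * (1 + 3 * Xu u l)

/-- the lattice of frequencies -/
noncomputable def ww (e0 : ℕ) (ξ : ℤ) (m l : ℕ) : ℝ :=
  2 * (ξ : ℝ) * (uu (2 * m + 2 + e0) : ℝ) ^ l / 3 ^ (2 * m + 2 + e0)

theorem ee_add (x y : ℝ) : ee (x + y) = ee x * ee y := by
  unfold ee
  rw [← Complex.exp_add]
  congr 1
  push_cast
  ring

theorem ee_int (z : ℤ) : ee z = 1 := by
  unfold ee
  rw [← Complex.exp_int_mul_two_pi_mul_I z]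
  congr 1
  push_cast
  ring

theorem norm_ee (x : ℝ) : ‖ee x‖ = 1 := by
  unfold ee
  have h : (2 * Real.pi * x * Complex.I : ℂ) = ((2 * Real.pi * x : ℝ) : ℂ) * Complex.I := by
    push_cast
    ring
  rw [h]
  exact Complex.norm_exp_ofReal_mul_I _

/-- `e` depends only on the class modulo 1 -/
theorem ee_eq_of_sub_int {x y : ℝ} (h : ∃ z : ℤ, x - y = z) : ee x = ee y := by
  obtain ⟨z, hz⟩ := h
  have hx : x = y + z := by linarith
  rw [hx, ee_add, ee_int, mul_one]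

theorem norm_ee_add_ee (x y : ℝ) : ‖ee x + ee y‖ = 2 * |Real.cos (Real.pi * (x - y))| := by
  have h1 : ee x + ee y = ee ((x + y) / 2) * (2 * ((Real.cos (Real.pi * (x - y)) : ℝ) : ℂ)) := by
    rw [Complex.ofReal_cos, Complex.two_cos, mul_add]
    have e1 : Complex.exp (((Real.pi * (x - y) : ℝ) : ℂ) * Complex.I) = ee ((x - y) / 2) := by
      unfold ee
      congr 1
      push_cast
      ring
    have e2 : Complex.exp (-((Real.pi * (x - y) : ℝ) : ℂ) * Complex.I) = ee (-((x - y) / 2)) := by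
      unfold ee
      congr 1
      push_cast
      ring
    rw [e1, e2, ← ee_add, ← ee_add]
    congr 2
    · ring
    · ring
  rw [h1, norm_mul, norm_ee, one_mul, norm_mul, Complex.norm_real]
  simp

theorem two_mul_uu (n : ℕ) : 2 * uu n = 3 ^ n + 1 := by
  unfold uu
  have h : 3 ^ n % 2 = 1 := by
    rw [Nat.pow_mod]
    norm_num
  omega

theorem uu_mod (n k : ℕ) (h : k ≤ n) : (3 : ℤ) ^ k ∣ (uu n : ℤ) - uu k := by
  have hn : (2 : ℤ) * uu n = 3 ^ n + 1 := by exact_mod_cast two_mul_uu n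
  have hk : (2 : ℤ) * uu k = 3 ^ k + 1 := by exact_mod_cast two_mul_uu k
  have h2 : (3 : ℤ) ^ k ∣ 2 * ((uu n : ℤ) - uu k) := by
    have : 2 * ((uu n : ℤ) - uu k) = 3 ^ n - 3 ^ k := by linarith
    rw [this]
    exact dvd_sub (pow_dvd_pow 3 h) (dvd_refl _)
  have hc : IsCoprime ((3 : ℤ) ^ k) 2 := by
    apply IsCoprime.pow_left
    exact ⟨1, -1, by norm_num⟩
  exact hc.dvd_of_dvd_mul_left h2

/-- `Xu u l ≡ cc l * u^{|l|}` mod `3^n` -/
theorem Xu_mod (n : ℕ) (l : List ℕ) :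
    (3 : ℤ) ^ n ∣ (Xu (uu n) l : ℤ) - cc l * uu n ^ l.sum := by
  have hn : (2 : ℤ) * uu n = 3 ^ n + 1 := by exact_mod_cast two_mul_uu n
  induction l with
  | nil => simp [Xu, cc]
  | cons a l ih =>
      have h1 : (3 : ℤ) ^ n ∣ (2 * (uu n : ℤ)) ^ l.sum - 1 ^ l.sum := by
        refine dvd_trans ?_ (sub_dvd_pow_sub_pow (2 * (uu n : ℤ)) 1 l.sum)
        rw [hn]
        simp
      rw [one_pow] at h1
      have h2 : ((Xu (uu n) (a :: l) : ℕ) : ℤ) - (cc (a :: l) : ℕ) * uu n ^ (a :: l).sum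
          = 3 * (uu n : ℤ) ^ a * ((Xu (uu n) l : ℤ) - cc l * uu n ^ l.sum)
            - (uu n : ℤ) ^ a * ((2 * (uu n : ℤ)) ^ l.sum - 1) := by
        simp only [Xu, cc, List.sum_cons]
        push_cast
        ring
      rw [h2]
      exact dvd_sub (Dvd.dvd.mul_left ih _) (Dvd.dvd.mul_left h1 _)

end Pool.Agent.W_e21d3a_h93
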