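import Pool.Agent.W_e21d3a_h93.F0a

set_option autoImplicit false

/-!
# [NC] F0b: the lattice of frequencies is a system (row 498, 4.0)
-/

namespace Pool.Agent.W_e21d3a_h93

theorem sys_ww {e0 : ℕ} (he : e0 ≤ 1) {ξ : ℤ} (hξ : ¬ (3 : ℤ) ∣ ξ) : Sys (ww e0 ξ) := by
  refine ⟨fun m l => ?_, fun m l => ?_, fun m l => ?_⟩
  · refine ⟨2 * ξ * (uu (2 * m + 2 + e0) : ℤ) ^ l, ?_⟩
    have h1 : (2 : ℝ) * (uu (2 * m + 2 + e0) : ℝ) = 3 ^ (2 * m + 2 + e0) + 1 := by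
      exact_mod_cast two_mul_uu (2 * m + 2 + e0)
    have h3 : (3 : ℝ) ^ (2 * m + 2 + e0) ≠ 0 := by positivity
    unfold ww
    push_cast
    rw [pow_succ]
    field_simp
    linear_combination ((ξ : ℝ) * (uu (2 * m + 2 + e0) : ℝ) ^ l) * h1
  · have h1 : (3 : ℤ) ^ (2 * m + 2 + e0) ∣
        (uu (2 * (m + 1) + 2 + e0) : ℤ) ^ l - (uu (2 * m + 2 + e0) : ℤ) ^ l :=
      (uu_mod (2 * (m + 1) + 2 + e0) (2 * m + 2 + e0) (by omega)).trans (sub_dvd_pow_sub_pow _ _ _)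
    obtain ⟨z, hz⟩ := h1
    refine ⟨2 * ξ * z, ?_⟩
    have hz' : (uu (2 * (m + 1) + 2 + e0) : ℝ) ^ l - (uu (2 * m + 2 + e0) : ℝ) ^ l =
        3 ^ (2 * m + 2 + e0) * z := by exact_mod_cast hz
    have h3 : (3 : ℝ) ^ (2 * m + 2 + e0) ≠ 0 := by positivity
    have h4 : (3 : ℝ) ^ (2 * (m + 1) + 2 + e0) = 9 * 3 ^ (2 * m + 2 + e0) := by
      rw [show 2 * (m + 1) + 2 + e0 = (2 * m + 2 + e0) + 2 by ring, pow_add]
      ring
    unfold ww
    push_cast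
    rw [h4]
    field_simp
    linear_combination (ξ : ℝ) * hz'
  · set n := 2 * m + 2 + e0 with hn
    have hp : Prime (3 : ℤ) := Int.prime_three
    have h2u : (2 : ℤ) * (uu n : ℤ) = 3 ^ n + 1 := by exact_mod_cast two_mul_uu n
    have hdn : (3 : ℤ) ∣ 3 ^ n := dvd_pow_self _ (by omega)
    have hu : ¬ (3 : ℤ) ∣ (uu n : ℤ) := by
      intro h
      have h1 : (3 : ℤ) ∣ 3 ^ n + 1 := h2u ▸ Dvd.dvd.mul_left h 2
      have h2 : (3 : ℤ) ∣ 1 := (dvd_add_right hdn).1 h1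
      omega
    have ha : ¬ (3 : ℤ) ∣ 2 * ξ * (uu n : ℤ) ^ l := by
      intro h
      rcases hp.dvd_or_dvd h with h | h
      · rcases hp.dvd_or_dvd h with h | h
        · omega
        · exact hξ h
      · exact hu (hp.dvd_of_dvd_pow h)
    have hne : 2 * ξ * (uu n : ℤ) ^ l - 3 ^ n * round (ww e0 ξ m l) ≠ 0 := by
      intro h
      apply ha
      have h1 : 2 * ξ * (uu n : ℤ) ^ l = 3 ^ n * round (ww e0 ξ m l) := by linarith
      rw [h1]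
      exact hdn.mul_right _
    have h1 : (1 : ℝ) ≤ |2 * (ξ : ℝ) * (uu n : ℝ) ^ l - 3 ^ n * (round (ww e0 ξ m l) : ℝ)| := by
      have h2 := Int.one_le_abs hne
      exact_mod_cast h2
    have h3 : (0 : ℝ) < 3 ^ n := by positivity
    have h4 : nn (ww e0 ξ m l) =
        |2 * (ξ : ℝ) * (uu n : ℝ) ^ l - 3 ^ n * (round (ww e0 ξ m l) : ℝ)| / 3 ^ n := by
      unfold nn
      have h5 : ww e0 ξ m l - (round (ww e0 ξ m l) : ℝ) =
          (2 * (ξ : ℝ) * (uu n : ℝ) ^ l - 3 ^ n * (round (ww e0 ξ m l) : ℝ)) / 3 ^ n := by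
        have h6 : ww e0 ξ m l = 2 * (ξ : ℝ) * (uu n : ℝ) ^ l / 3 ^ n := rfl
        rw [sub_div, mul_div_cancel_left₀ _ h3.ne', ← h6]
      rw [h5, abs_div, abs_of_pos h3]
    rw [h4]
    calc (1 : ℝ) / 3 ^ (2 * m + 3) ≤ 1 / 3 ^ n := by
          refine one_div_le_one_div_of_le h3 (pow_le_pow_right₀ (by norm_num) (by omega))
      _ ≤ _ := by
          rw [div_le_div_iff_of_pos_right h3]
          exact h1

end Pool.Agent.W_e21d3a_h93
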