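import Pool.Agent.W_e21d3a_h93.F1a

set_option autoImplicit false

/-!
# [NC] F2a: simple facts on q, V, DD, U
-/

namespace Pool.Agent.W_e21d3a_h93

variable {B : ℕ} {w : ℕ → ℕ → ℝ}

theorem q_nonneg {b : ℕ} (h : 2 ≤ b) : 0 ≤ q b := by
  unfold q
  have : (2 : ℝ) ≤ b := by exact_mod_cast h
  apply div_nonneg
  · linarith
  · positivity

theorem q_three : q 3 = 1 / 4 := by
  unfold q
  norm_num

/-- `∑_{2 ≤ b ≤ B} q b = 1 - (B+1) 2^{-B}` for `B ≥ 1` -/
theorem sum_q (B : ℕ) (hB : 1 ≤ B) : ∑ b ∈ Finset.Icc 2 B, q b = 1 - (B + 1) / 2 ^ B := by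
  induction B, hB using Nat.le_induction with
  | base => simp
  | succ n hn ih =>
    rw [Finset.sum_Icc_succ_top (by omega), ih]
    unfold q
    push_cast
    rw [pow_succ]
    field_simp
    ring

theorem sum_q_le_one (B : ℕ) : ∑ b ∈ Finset.Icc 2 B, q b ≤ 1 := by
  rcases Nat.eq_zero_or_pos B with h | h
  · subst h; simp
  · rw [sum_q B h]
    have : (0 : ℝ) ≤ (B + 1) / 2 ^ B := by positivity
    linarith

theorem sum_q_mul_le (B : ℕ) : ∑ b ∈ Finset.Icc 2 B, q b * b ≤ 4 := by
  have h : ∀ n : ℕ, 1 ≤ n → ∑ b ∈ Finset.Icc 2 n, q b * b =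
      4 - ((n : ℝ) ^ 2 + 3 * n + 4) / 2 ^ n := by
    intro n hn
    induction n, hn using Nat.le_induction with
    | base => simp; norm_num
    | succ n hn ih =>
      rw [Finset.sum_Icc_succ_top (by omega), ih]
      unfold q
      push_cast
      rw [pow_succ]
      field_simp
      ring
  rcases Nat.eq_zero_or_pos B with h0 | h0
  · subst h0; simp
  · rw [h B h0]
    have : (0 : ℝ) ≤ ((B : ℝ) ^ 2 + 3 * B + 4) / 2 ^ B := by positivity
    linarith

theorem ka_pos : 0 < ka := by norm_num [ka]

theorem ka_lt_one : ka < 1 := by norm_num [ka]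

private theorem f_nonneg (m l b : ℕ) :
    0 ≤ (if b = 3 then |Real.cos (Real.pi * w m (l + b))| else 1 : ℝ) := by
  split_ifs
  · exact abs_nonneg _
  · exact zero_le_one

private theorem f_le_one (m l b : ℕ) :
    (if b = 3 then |Real.cos (Real.pi * w m (l + b))| else 1 : ℝ) ≤ 1 := by
  split_ifs
  · exact Real.abs_cos_le_one _
  · exact le_rfl

theorem V_nonneg (m l : ℕ) : 0 ≤ V B w m l := by
  induction m generalizing l with
  | zero => rw [V]; exact zero_le_one
  | succ m ih =>
    rw [V]
    refine Finset.sum_nonneg fun b hb => ?_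
    exact mul_nonneg (mul_nonneg (q_nonneg (Finset.mem_Icc.1 hb).1) (f_nonneg m l b)) (ih _)

private theorem V_succ_le {m l : ℕ} {C : ℝ} (hC : 0 ≤ C) (h : ∀ l, V B w m l ≤ C) :
    V B w (m + 1) l ≤ C := by
  rw [V]
  have h1 : ∀ b ∈ Finset.Icc 2 B,
      q b * (if b = 3 then |Real.cos (Real.pi * w m (l + b))| else 1) * V B w m (l + b) ≤
      q b * C := by
    intro b hb
    have hq := q_nonneg (Finset.mem_Icc.1 hb).1
    have hf0 := f_nonneg (w := w) m l b
    have hf1 := f_le_one (w := w) m l b
    have hV := h (l + b)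
    have hV0 := V_nonneg (B := B) (w := w) m (l + b)
    calc q b * (if b = 3 then |Real.cos (Real.pi * w m (l + b))| else 1) * V B w m (l + b)
        ≤ q b * 1 * V B w m (l + b) :=
          mul_le_mul_of_nonneg_right (mul_le_mul_of_nonneg_left hf1 hq) hV0
      _ = q b * V B w m (l + b) := by ring
      _ ≤ q b * C := mul_le_mul_of_nonneg_left hV hq
  refine (Finset.sum_le_sum h1).trans ?_
  rw [← Finset.sum_mul]
  have := mul_le_mul_of_nonneg_right (sum_q_le_one B) hC
  linarith

theorem V_le_one (m l : ℕ) : V B w m l ≤ 1 := by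
  induction m generalizing l with
  | zero => rw [V]
  | succ m ih => exact V_succ_le zero_le_one ih

private theorem V_bdd (m : ℕ) : BddAbove (Set.range fun l => V B w m l) :=
  ⟨1, by rintro _ ⟨l, rfl⟩; exact V_le_one m l⟩

theorem V_le_DD (m l : ℕ) : V B w m l ≤ DD B w m := by
  unfold DD
  exact le_ciSup (V_bdd m) l

/-- to bound `DD` it is enough to bound all the values -/
theorem DD_le {m : ℕ} {C : ℝ} (h : ∀ l, V B w m l ≤ C) : DD B w m ≤ C := by
  unfold DD
  exact ciSup_le h

theorem DD_nonneg (m : ℕ) : 0 ≤ DD B w m :=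
  (V_nonneg m 0).trans (V_le_DD m 0)

theorem DD_le_one (m : ℕ) : DD B w m ≤ 1 := DD_le (V_le_one m)

theorem DD_anti {m m' : ℕ} (h : m ≤ m') : DD B w m' ≤ DD B w m := by
  induction m', h using Nat.le_induction with
  | base => exact le_rfl
  | succ n hn ih =>
    refine le_trans (DD_le fun l => ?_) ih
    exact V_succ_le (DD_nonneg n) (fun l => V_le_DD n l)

/-- `|cos(π w)| ≤ 1-κ` for a gain -/
theorem factor_le (m l b : ℕ) :
    (if b = 3 then |Real.cos (Real.pi * w m (l + b))| else 1) ≤ gf w m l b := by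
  unfold gf
  by_cases hG : Gain w m l b
  · rw [if_pos hG]
    obtain ⟨h3, hb⟩ := hG
    subst h3
    rw [if_pos rfl]
    refine (abs_cos_le _).trans ?_
    have h1 : ep < nn (w m (l + 3)) := not_le.1 hb
    have h2 : ep ^ 2 ≤ nn (w m (l + 3)) ^ 2 :=
      pow_le_pow_left₀ (by norm_num [ep]) h1.le 2
    have h3 : ka = 4 * ep ^ 2 := by norm_num [ka, ep]
    rw [h3]
    linarith
  · rw [if_neg hG]
    exact f_le_one m l b

private theorem gf_nonneg (m l b : ℕ) : 0 ≤ gf w m l b := by
  unfold gf
  split_ifs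
  · have := ka_lt_one; linarith
  · exact zero_le_one

private theorem gf_le_one (m l b : ℕ) : gf w m l b ≤ 1 := by
  unfold gf
  split_ifs
  · have := ka_pos; linarith
  · exact le_rfl

theorem U_nonneg (R c m l : ℕ) : 0 ≤ U B w R c m l := by
  induction R generalizing c m l with
  | zero => rw [U]; split_ifs <;> norm_num
  | succ R ih =>
    cases m with
    | zero => rw [U]
    | succ m =>
      rw [U]
      refine Finset.sum_nonneg fun b hb => ?_
      exact mul_nonneg (mul_nonneg (q_nonneg (Finset.mem_Icc.1 hb).1) (gf_nonneg m l b)) (ih _ _ _)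

theorem U_le_one (R c m l : ℕ) : U B w R c m l ≤ 1 := by
  classical
  induction R generalizing c m l with
  | zero => rw [U]; split_ifs <;> norm_num
  | succ R ih =>
    cases m with
    | zero => rw [U]; exact zero_le_one
    | succ m =>
      rw [U]
      refine le_trans (Finset.sum_le_sum (g := fun b => q b) fun b hb => ?_) (sum_q_le_one B)
      have hq := q_nonneg (Finset.mem_Icc.1 hb).1
      have h1 := gf_nonneg (w := w) m l b
      have h2 := gf_le_one (w := w) m l b
      have h3 : q b * gf w m l b ≤ q b := by nlinarith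
      exact (mul_le_of_le_one_right (mul_nonneg hq h1) (ih _ _ _)).trans h3

theorem U_anti (R m l : ℕ) {c c' : ℕ} (h : c ≤ c') : U B w R c' m l ≤ U B w R c m l := by
  classical
  induction R generalizing c c' m l with
  | zero =>
    rw [U, U]
    by_cases h0 : c' = 0
    · have : c = 0 := by omega
      rw [if_pos h0, if_pos this]
    · rw [if_neg h0]; split_ifs <;> norm_num
  | succ R ih =>
    cases m with
    | zero => rw [U, U]
    | succ m =>
      rw [U, U]
      refine Finset.sum_le_sum fun b hb => ?_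
      refine mul_le_mul_of_nonneg_left ?_
        (mul_nonneg (q_nonneg (Finset.mem_Icc.1 hb).1) (gf_nonneg m l b))
      apply ih
      split_ifs
      · exact h
      · omega

end Pool.Agent.W_e21d3a_h93
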