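import Pool.Agent.W_e21d3a_h93.F0a
import Pool.Agent.W_e21d3a_h93.F2a

set_option autoImplicit false

/-!
# [NC] F0c: induction over the pairs (row 498, 4.0)
-/

namespace Pool.Agent.W_e21d3a_h93

private theorem F0c_regroup {M : Type*} [AddCommMonoid M] (t : ℕ) (G : ℕ → ℕ → M) :
    ∑ a ∈ Finset.Icc 1 t, ∑ a' ∈ Finset.Icc 1 (t - a), G a a' =
      ∑ b ∈ Finset.Icc 2 t, ∑ a ∈ Finset.Icc 1 (b - 1), G a (b - a) := by
  have h1 : ∀ a ∈ Finset.Icc 1 t, ∑ a' ∈ Finset.Icc 1 (t - a), G a a' =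
      ∑ b ∈ Finset.Icc (a + 1) t, G a (b - a) := by
    intro a ha
    rw [Finset.mem_Icc] at ha
    refine Finset.sum_bij' (fun a' _ => a + a') (fun b _ => b - a) ?_ ?_ ?_ ?_ ?_
    · intro x hx
      rw [Finset.mem_Icc] at hx ⊢
      omega
    · intro x hx
      rw [Finset.mem_Icc] at hx ⊢
      omega
    · intro x hx
      simp
    · intro x hx
      rw [Finset.mem_Icc] at hx
      omega
    · intro x hx
      simp
  rw [Finset.sum_congr rfl h1]
  apply Finset.sum_comm'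
  intro x y
  simp only [Finset.mem_Icc]
  omega

private theorem F0c_cos {x y : ℝ} (h : ∃ z : ℤ, x - y = z) :
    |Real.cos (Real.pi * x)| = |Real.cos (Real.pi * y)| := by
  have h1 := norm_ee_add_ee x 0
  have h2 := norm_ee_add_ee y 0
  rw [ee_eq_of_sub_int h] at h1
  rw [h1] at h2
  simp only [sub_zero] at h2
  linarith

private theorem F0c_freq {e0 h m : ℕ} (hm : m + 1 ≤ h) (ξ : ℤ) (l0 : ℕ) :
    ∃ z : ℤ, (9 : ℝ) ^ (h - (m + 1)) * (uu (2 * h + e0) : ℝ) ^ l0 * ξ / 3 ^ (2 * h + e0) *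
        ((uu (2 * h + e0) : ℝ) - (uu (2 * h + e0) : ℝ) ^ 2) - ww e0 ξ m (l0 + 3) = z := by
  set n := 2 * h + e0 with hn
  set k := 2 * m + 2 + e0 with hk
  have hkn : k ≤ n := by omega
  obtain ⟨c, hc⟩ := uu_mod n k hkn
  have h2 := two_mul_uu k
  have hpow : ∀ j : ℕ, (3 : ℤ) ^ k ∣ (uu n : ℤ) ^ j - (uu k : ℤ) ^ j := fun j =>
    (Dvd.intro c hc.symm).trans (sub_dvd_pow_sub_pow _ _ _)
  have h3 : (3 : ℤ) ^ k ∣ (uu n : ℤ) ^ l0 * ((uu n : ℤ) - (uu n : ℤ) ^ 2) -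
      2 * (uu k : ℤ) ^ (l0 + 3) := by
    have h2' : (2 : ℤ) * uu k = 3 ^ k + 1 := by exact_mod_cast h2
    have e1 : (uu n : ℤ) ^ l0 * ((uu n : ℤ) - (uu n : ℤ) ^ 2) - 2 * (uu k : ℤ) ^ (l0 + 3) =
        ((uu n : ℤ) ^ (l0 + 1) - (uu k : ℤ) ^ (l0 + 1)) -
        ((uu n : ℤ) ^ (l0 + 2) - (uu k : ℤ) ^ (l0 + 2)) -
        (uu k : ℤ) ^ (l0 + 1) * (1 + uu k) * (2 * uu k - 1) + 0 := by ring
    rw [e1, h2', add_sub_cancel_right, add_zero]
    exact dvd_sub (dvd_sub (hpow _) (hpow _)) (Dvd.intro_left _ rfl)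
  obtain ⟨d, hd⟩ := h3
  refine ⟨ξ * d, ?_⟩
  have hd' : (uu n : ℝ) ^ l0 * ((uu n : ℝ) - (uu n : ℝ) ^ 2) - 2 * (uu k : ℝ) ^ (l0 + 3) =
      3 ^ k * d := by exact_mod_cast hd
  have h9 : (9 : ℝ) ^ (h - (m + 1)) = 3 ^ (n - k) := by
    rw [show (9 : ℝ) = 3 ^ 2 by norm_num, ← pow_mul]
    congr 1
    omega
  have h3n : (3 : ℝ) ^ n = 3 ^ (n - k) * 3 ^ k := by
    rw [← pow_add]
    congr 1
    omega
  unfold ww
  rw [← hk, h9, h3n]
  push_cast
  have p1 : (3 : ℝ) ^ (n - k) ≠ 0 := by positivity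
  have p2 : (3 : ℝ) ^ k ≠ 0 := by positivity
  have e2 : (3 : ℝ) ^ (n - k) * (uu n : ℝ) ^ l0 * ξ / (3 ^ (n - k) * 3 ^ k) *
      ((uu n : ℝ) - (uu n : ℝ) ^ 2) - 2 * (ξ : ℝ) * (uu k : ℝ) ^ (l0 + 3) / 3 ^ k =
      ξ * ((uu n : ℝ) ^ l0 * ((uu n : ℝ) - (uu n : ℝ) ^ 2) - 2 * (uu k : ℝ) ^ (l0 + 3)) / 3 ^ k := by
    field_simp
  rw [e2, hd']
  field_simp

/-- the induction over the pairs: `m` pairs to come, level `l0`, `n = 2h + e0`, frequency
`9^{h-m} u^{l0} ξ / 3^n` -/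
theorem norm_sum_le_V {e0 h m l0 t B : ℕ} (he : e0 ≤ 1) (hm : m ≤ h) (ht : t ≤ B) (ξ : ℤ) :
    ‖∑ l ∈ comps (2 * m + e0) t,
      ee (-(9 ^ (h - m) * (uu (2 * h + e0) : ℝ) ^ l0 * ξ * Xu (uu (2 * h + e0)) l
        / 3 ^ (2 * h + e0))) / 2 ^ t‖ ≤ V B (ww e0 ξ) m l0 := by
  induction m generalizing l0 t with
  | zero =>
    have hle : ‖∑ l ∈ comps (2 * 0 + e0) t,
        ee (-(9 ^ (h - 0) * (uu (2 * h + e0) : ℝ) ^ l0 * ξ * Xu (uu (2 * h + e0)) l
        / 3 ^ (2 * h + e0))) / 2 ^ t‖ ≤ pw (2 * 0 + e0) t := by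
      refine (norm_sum_le _ _).trans (le_of_eq ?_)
      unfold pw
      have : ∀ l ∈ comps (2 * 0 + e0) t,
          ‖ee (-(9 ^ (h - 0) * (uu (2 * h + e0) : ℝ) ^ l0 * ξ * Xu (uu (2 * h + e0)) l
          / 3 ^ (2 * h + e0))) / 2 ^ t‖ = 1 / 2 ^ t := by
        intro l _
        rw [norm_div, norm_ee]
        simp
      rw [Finset.sum_congr rfl this, Finset.sum_const, nsmul_eq_mul]
      ring
    refine hle.trans ((pw_le_one _ _).trans ?_)
    simp [V]
  | succ m ih =>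
    have ih' := fun l0 (t : ℕ) (ht : t ≤ B) => ih (l0 := l0) (t := t) (by omega) ht
    set n := 2 * h + e0 with hn
    set u := uu n with hu
    set η : ℝ := 9 ^ (h - (m + 1)) * (u : ℝ) ^ l0 * ξ / 3 ^ n with hη
    -- the inner sums
    set S : ℕ → ℂ := fun b => ∑ l ∈ comps (2 * m + e0) (t - b),
      ee (-(9 ^ (h - m) * (u : ℝ) ^ (l0 + b) * ξ * Xu u l / 3 ^ n)) / 2 ^ (t - b) with hS
    have hkey : ∑ l ∈ comps (2 * (m + 1) + e0) t,
        ee (-(9 ^ (h - (m + 1)) * (u : ℝ) ^ l0 * ξ * Xu u l / 3 ^ n)) / 2 ^ t =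
        ∑ b ∈ Finset.Icc 2 t, (∑ a ∈ Finset.Icc 1 (b - 1), ee (-(η * (u : ℝ) ^ a))) *
          ee (-(3 * η * (u : ℝ) ^ b)) / 2 ^ b * S b := by
      rw [show 2 * (m + 1) + e0 = (2 * m + e0) + 1 + 1 by ring, sum_comps_succ]
      simp_rw [sum_comps_succ]
      rw [F0c_regroup]
      apply Finset.sum_congr rfl
      intro b hb
      rw [Finset.mem_Icc] at hb
      rw [Finset.sum_mul, Finset.sum_div, Finset.sum_mul]
      apply Finset.sum_congr rfl
      intro a ha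
      rw [Finset.mem_Icc] at ha
      rw [hS]
      simp only
      rw [Finset.mul_sum, show t - a - (b - a) = t - b by omega]
      apply Finset.sum_congr rfl
      intro l _
      have e1 : -(9 ^ (h - (m + 1)) * (u : ℝ) ^ l0 * ξ * (Xu u (a :: (b - a) :: l) : ℕ) / 3 ^ n) =
          -(η * (u : ℝ) ^ a) + -(3 * η * (u : ℝ) ^ b) +
          -(9 ^ (h - m) * (u : ℝ) ^ (l0 + b) * ξ * (Xu u l : ℕ) / 3 ^ n) := by
        have h9 : (9 : ℝ) ^ (h - m) = 9 ^ (h - (m + 1)) * 9 := by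
          rw [← pow_succ]
          congr 1
          omega
        have hub : (u : ℝ) ^ b = (u : ℝ) ^ a * (u : ℝ) ^ (b - a) := by
          rw [← pow_add]
          congr 1
          omega
        simp only [Xu]
        push_cast
        rw [h9, pow_add (u : ℝ) l0 b, hub, hη]
        ring
      rw [e1, ee_add, ee_add]
      have h2 : (2 : ℂ) ^ t = 2 ^ b * 2 ^ (t - b) := by
        rw [← pow_add]
        congr 1
        omega
      rw [h2]
      have p1 : (2 : ℂ) ^ b ≠ 0 := pow_ne_zero _ (by norm_num)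
      have p2 : (2 : ℂ) ^ (t - b) ≠ 0 := pow_ne_zero _ (by norm_num)
      field_simp
    rw [hkey]
    have hSle : ∀ b, ‖S b‖ ≤ V B (ww e0 ξ) m (l0 + b) := fun b => ih' (l0 + b) (t - b) (by omega)
    have hbound : ∀ b ∈ Finset.Icc 2 t,
        ‖(∑ a ∈ Finset.Icc 1 (b - 1), ee (-(η * (u : ℝ) ^ a))) *
          ee (-(3 * η * (u : ℝ) ^ b)) / 2 ^ b * S b‖ ≤
        q b * (if b = 3 then |Real.cos (Real.pi * ww e0 ξ m (l0 + b))| else 1) *
          V B (ww e0 ξ) m (l0 + b) := by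
      intro b hb
      rw [Finset.mem_Icc] at hb
      rw [norm_mul, norm_div, norm_mul, norm_ee, mul_one]
      apply mul_le_mul _ (hSle b) (norm_nonneg _)
      · apply mul_nonneg (q_nonneg hb.1)
        split_ifs
        · positivity
        · norm_num
      · have h2 : ‖(2 : ℂ) ^ b‖ = 2 ^ b := by simp
        rw [h2]
        by_cases hb3 : b = 3
        · subst hb3
          rw [if_pos rfl]
          have h3 : (∑ a ∈ Finset.Icc 1 (3 - 1), ee (-(η * (u : ℝ) ^ a))) =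
              ee (-(η * u)) + ee (-(η * (u : ℝ) ^ 2)) := by
            rw [show Finset.Icc 1 (3 - 1) = {1, 2} by decide, Finset.sum_pair (by norm_num)]
            simp
          rw [h3, norm_ee_add_ee, q_three]
          obtain ⟨z, hz⟩ := F0c_freq (e0 := e0) hm ξ l0
          have h4 : |Real.cos (Real.pi * (-(η * u) - -(η * (u : ℝ) ^ 2)))| =
              |Real.cos (Real.pi * ww e0 ξ m (l0 + 3))| := by
            rw [← F0c_cos ⟨z, hz⟩]
            rw [← Real.cos_neg]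
            congr 2
            rw [hη]
            ring
          rw [h4]
          apply le_of_eq
          ring
        · rw [if_neg hb3, mul_one]
          unfold q
          apply div_le_div_of_nonneg_right _ (by positivity)
          refine (norm_sum_le _ _).trans (le_of_eq ?_)
          simp only [norm_ee, Finset.sum_const, Nat.card_Icc, nsmul_eq_mul, mul_one]
          rw [show b - 1 + 1 - 1 = b - 1 by omega, Nat.cast_sub (by omega)]
          simp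
    calc ‖∑ b ∈ Finset.Icc 2 t, (∑ a ∈ Finset.Icc 1 (b - 1), ee (-(η * (u : ℝ) ^ a))) *
          ee (-(3 * η * (u : ℝ) ^ b)) / 2 ^ b * S b‖
        ≤ ∑ b ∈ Finset.Icc 2 t, ‖(∑ a ∈ Finset.Icc 1 (b - 1), ee (-(η * (u : ℝ) ^ a))) *
          ee (-(3 * η * (u : ℝ) ^ b)) / 2 ^ b * S b‖ := norm_sum_le _ _
      _ ≤ ∑ b ∈ Finset.Icc 2 t,
          q b * (if b = 3 then |Real.cos (Real.pi * ww e0 ξ m (l0 + b))| else 1) *
          V B (ww e0 ξ) m (l0 + b) := Finset.sum_le_sum hbound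
      _ ≤ ∑ b ∈ Finset.Icc 2 B,
          q b * (if b = 3 then |Real.cos (Real.pi * ww e0 ξ m (l0 + b))| else 1) *
          V B (ww e0 ξ) m (l0 + b) := by
          apply Finset.sum_le_sum_of_subset_of_nonneg
          · exact Finset.Icc_subset_Icc le_rfl ht
          · intro b hb _
            rw [Finset.mem_Icc] at hb
            apply mul_nonneg (mul_nonneg (q_nonneg hb.1) _) (V_nonneg _ _)
            split_ifs
            · positivity
            · norm_num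
      _ = V B (ww e0 ξ) (m + 1) l0 := by
          rw [V]

end Pool.Agent.W_e21d3a_h93
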