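import Pool.Agent.W_e21d3a_h93.F1c

set_option autoImplicit false

/-!
# [NC] F1d: steps (row 498, (G5), (G6) and the lines before)
-/

namespace Pool.Agent.W_e21d3a_h93

variable {w : ℕ → ℕ → ℝ}

/-- the norm `i` columns to the right, below the top, when it is small -/
theorem Sys.right_nn (hw : Sys w) {m l b i : ℕ} (h : Black w m l) (hi : i ≤ m)
    (hb : b ≤ KK w m l) (hs : 9 ^ i * (nn (w m l) / 2 ^ b) ≤ 1 / 2) :
    nn (w (m - i) (l + b)) = 9 ^ i * (nn (w m l) / 2 ^ b) := by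
  obtain ⟨s, z, h1, h2⟩ := exists_signed (w m (l + b))
  obtain ⟨z', hz'⟩ := hw.right m (l + b) i hi
  have e : w (m - i) (l + b) = 9 ^ i * s + ((9 ^ i * z + z' : ℤ) : ℝ) := by
    rw [hz', h1]; push_cast; ring
  have hn := (hw.black_le h hb).2
  have e2 : |9 ^ i * s| = 9 ^ i * (nn (w m l) / 2 ^ b) := by
    rw [abs_mul, h2, hn, abs_of_pos (by positivity : (0 : ℝ) < 9 ^ i)]
  rw [e, nn_add_int, nn_of_small (by rw [e2]; exact hs), e2]

theorem Sys.div_le (_hw : Sys w) {m l k : ℕ} (h : Black w m l) : nn (w m l) / 2 ^ k ≤ ep := by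
  have h0 := nn_nonneg (w m l)
  have h1 : nn (w m l) ≤ ep := h
  have h2 : nn (w m l) / 2 ^ k ≤ nn (w m l) := div_le_self h0 (one_le_pow₀ (by norm_num))
  linarith

/-- one step below the top -/
theorem Sys.step_nn (hw : Sys w) {m l b : ℕ} (h : Black w (m + 1) l) (h2 : 2 ≤ b)
    (hb : b ≤ KK w (m + 1) l) : nn (w m (l + b)) = 9 * nn (w (m + 1) l) / 2 ^ b := by
  have h1 := hw.div_le (k := b) h
  have he : ep = 1 / 4096 := rfl
  have := hw.right_nn (i := 1) h (by omega) hb (by rw [pow_one]; rw [he] at h1; linarith)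
  rw [Nat.add_sub_cancel, pow_one] at this
  rw [this]
  ring

/-- an internal step lowers `KK` by exactly `b` -/
theorem Sys.internal_KK (hw : Sys w) {m l b : ℕ} (h2 : 2 ≤ b) (h : Internal w m l b) :
    KK w m (l + b) = KK w (m + 1) l - b := by
  obtain ⟨hB, hb, hB'⟩ := h
  have he : ep = 1 / 4096 := rfl
  apply hw.KK_eq
  · intro i hi
    have h3 := hw.step_nn hB (b := b + i) (by omega) (by omega)
    have h4 := hw.step_nn hB h2 hb
    have h5 : nn (w m (l + b)) ≤ ep := hB'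
    have h0 := nn_nonneg (w (m + 1) l)
    unfold Black
    rw [add_assoc, h3]
    rw [h4] at h5
    refine le_trans ?_ h5
    exact div_le_div_of_nonneg_left (by positivity) (by positivity)
      (pow_le_pow_right₀ (by norm_num) (by omega))
  · have e : l + b + (KK w (m + 1) l - b) + 1 = l + KK w (m + 1) l + 1 := by omega
    rw [e]
    have h1 := hw.div_le (k := KK w (m + 1) l) hB
    have h6 := hw.above_lower (i := 1) (o := 1) hB (by omega) (le_refl _)
      (by rw [pow_one]; rw [he] at h1; linarith)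
    rw [Nat.add_sub_cancel, pow_one, pow_one] at h6
    unfold Black
    rw [he] at h1 ⊢
    intro h7
    linarith

/-- side exits only with `b ≤ 3` -/
theorem Sys.side_exit (hw : Sys w) {m l b : ℕ} (h : Black w (m + 1) l) (h2 : 2 ≤ b)
    (hb : b ≤ KK w (m + 1) l) (hw' : ¬ Black w m (l + b)) : b = 2 ∨ b = 3 := by
  by_contra hc
  apply hw'
  have h0 := nn_nonneg (w (m + 1) l)
  have h1 : nn (w (m + 1) l) ≤ ep := h
  have he : ep = 1 / 4096 := rfl
  unfold Black
  rw [hw.step_nn h h2 hb]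
  have h3 : (2 : ℝ) ^ 4 ≤ 2 ^ b := pow_le_pow_right₀ (by norm_num) (by omega)
  calc 9 * nn (w (m + 1) l) / 2 ^ b ≤ 9 * nn (w (m + 1) l) / 2 ^ 4 :=
        div_le_div_of_nonneg_left (by positivity) (by positivity) h3
    _ ≤ ep := by rw [he] at h1 ⊢; linarith

/-- (G5) -/
theorem Sys.after_top (hw : Sys w) {m l o : ℕ} (h : Black w (m + 2) l) (ho : 1 ≤ o) (ho8 : o ≤ 8) :
    ¬ Black w m (l + (KK w (m + 2) l + o) + 3) := by
  have he : ep = 1 / 4096 := rfl
  have h1 := hw.div_le (k := KK w (m + 2) l) h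
  rw [he] at h1
  have h0 : 0 ≤ nn (w (m + 2) l) / 2 ^ KK w (m + 2) l :=
    div_nonneg (nn_nonneg _) (by positivity)
  have h2 := hw.above_lower (i := 2) (o := o + 3) h (by omega) (by omega) (by linarith)
  rw [Nat.add_sub_cancel] at h2
  have e : l + (KK w (m + 2) l + o) + 3 = l + KK w (m + 2) l + (o + 3) := by omega
  unfold Black
  rw [e, he]
  intro h3
  have h4 : (2 : ℝ) ^ (o + 3) ≤ 2 ^ 11 := pow_le_pow_right₀ (by norm_num) (by omega)
  have h5 : (1 - 9 ^ 2 * (nn (w (m + 2) l) / 2 ^ KK w (m + 2) l)) / 2 ^ 11 ≤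
      (1 - 9 ^ 2 * (nn (w (m + 2) l) / 2 ^ KK w (m + 2) l)) / 2 ^ (o + 3) :=
    div_le_div_of_nonneg_left (by linarith) (by positivity) h4
  have h6 := le_trans (le_trans h5 h2) h3
  rw [div_le_iff₀ (by positivity)] at h6
  norm_num at h6
  linarith

/-- (G6) -/
theorem Sys.after_side (hw : Sys w) {m l : ℕ} (h : Black w (m + 2) l) (h2 : 2 ≤ KK w (m + 2) l)
    (hw' : ¬ Black w (m + 1) (l + 2)) : ¬ Black w m (l + 2 + 3) := by
  have he : ep = 1 / 4096 := rfl
  have h0 := nn_nonneg (w (m + 2) l)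
  have h1 : nn (w (m + 2) l) ≤ ep := h
  have h3 : ep < 9 * nn (w (m + 2) l) / 2 ^ 2 := by
    have h4 : ep < nn (w (m + 1) (l + 2)) := not_le.mp hw'
    rw [hw.step_nn (b := 2) h (le_refl _) h2] at h4
    exact h4
  rw [he] at h1 h3
  have e : l + 2 + 3 = l + 5 := by omega
  rw [e]
  unfold Black
  rw [he]
  intro h5
  by_cases hK : 5 ≤ KK w (m + 2) l
  · have h6 := hw.right_nn (i := 2) h (by omega) hK (by linarith)
    rw [Nat.add_sub_cancel] at h6
    rw [h6] at h5
    linarith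
  · have h7 := hw.div_le (k := KK w (m + 2) l) h
    rw [he] at h7
    have h8 := hw.above_lower (i := 2) (o := 5 - KK w (m + 2) l) h (by omega) (by omega)
      (by linarith)
    have e2 : l + KK w (m + 2) l + (5 - KK w (m + 2) l) = l + 5 := by omega
    rw [Nat.add_sub_cancel, e2] at h8
    have h9 : (2 : ℝ) ^ (5 - KK w (m + 2) l) ≤ 2 ^ 3 :=
      pow_le_pow_right₀ (by norm_num) (by omega)
    have h10 : (1 - 9 ^ 2 * (nn (w (m + 2) l) / 2 ^ KK w (m + 2) l)) / 2 ^ 3 ≤
      (1 - 9 ^ 2 * (nn (w (m + 2) l) / 2 ^ KK w (m + 2) l)) / 2 ^ (5 - KK w (m + 2) l) :=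
      div_le_div_of_nonneg_left (by linarith) (by positivity) h9
    have h11 := le_trans (le_trans h10 h8) h5
    linarith

end Pool.Agent.W_e21d3a_h93
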