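import Pool.Agent.W_e21d3a_h93.F2a
import Pool.Agent.W_e21d3a_h93.F1d

set_option autoImplicit false

/-!
# [NC] F2b: (C4): cuts are expensive (row 498, 4.2)
-/

namespace Pool.Agent.W_e21d3a_h93

variable {B : ℕ} {w : ℕ → ℕ → ℝ}

open Classical in
/-- success functions `S_i`, `i = 0, 1, 2`, after `R` steps (row 498, 4.2) -/
noncomputable def Sf (B : ℕ) (w : ℕ → ℕ → ℝ) : ℕ → ℕ → ℕ → ℕ → ℝ
  | 0, _, _, _ => 1
  | _ + 1, _, 0, _ => 1
  | R + 1, i, m + 1, l => (1 - ∑ b ∈ Finset.Icc 2 B, q b) + ∑ b ∈ Finset.Icc 2 B,
      q b * (if Gain w m l b then 1 else if 2 ≤ i then 0 else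
        if Internal w m l b then Sf B w R i m (l + b) else Sf B w R (i + 1) m (l + b))

private theorem q_nn {b : ℕ} (h : b ∈ Finset.Icc 2 B) : 0 ≤ q b := q_nonneg (Finset.mem_Icc.1 h).1

private theorem tl_nonneg : 0 ≤ 1 - ∑ b ∈ Finset.Icc 2 B, q b := sub_nonneg.2 (sum_q_le_one B)

theorem Sf_nonneg (R i m l : ℕ) : 0 ≤ Sf B w R i m l := by
  induction R generalizing i m l with
  | zero => rw [Sf]; exact zero_le_one
  | succ R ih =>
    cases m with
    | zero => rw [Sf]; exact zero_le_one
    | succ m =>
      rw [Sf]
      refine add_nonneg tl_nonneg (Finset.sum_nonneg fun b hb => mul_nonneg (q_nn hb) ?_)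
      split_ifs
      · exact zero_le_one
      · exact le_rfl
      · exact ih _ _ _
      · exact ih _ _ _

private theorem sum_q' (K : ℕ) : ∑ b ∈ Finset.Icc 2 K, q b = 1 - ((K : ℝ) + 1) / 2 ^ K := by
  rcases Nat.eq_zero_or_pos K with h | h
  · subst h; simp
  · exact sum_q K h

/-- lower bound for `Sf` by the term `b = 3` -/
private theorem Sf_ge_three {R i m l : ℕ} {c : ℝ} (hc1 : c ≤ 1)
    (h : Gain w m l 3 ∨ (i < 2 ∧ ¬ Internal w m l 3 ∧ c ≤ Sf B w R (i + 1) m (l + 3))) :
    c / 4 ≤ Sf B w (R + 1) i (m + 1) l := by
  classical
  rw [Sf]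
  have hnn : ∀ b ∈ Finset.Icc 2 B, 0 ≤ q b * (if Gain w m l b then (1 : ℝ) else if 2 ≤ i then 0 else
        if Internal w m l b then Sf B w R i m (l + b) else Sf B w R (i + 1) m (l + b)) := by
    intro b hb
    refine mul_nonneg (q_nn hb) ?_
    split_ifs
    · exact zero_le_one
    · exact le_rfl
    · exact Sf_nonneg _ _ _ _
    · exact Sf_nonneg _ _ _ _
  by_cases hB : 3 ≤ B
  · have h3 : 3 ∈ Finset.Icc 2 B := Finset.mem_Icc.2 ⟨by norm_num, hB⟩
    have h4 := Finset.single_le_sum hnn h3
    have h5 : c / 4 ≤ q 3 * (if Gain w m l 3 then (1 : ℝ) else if 2 ≤ i then 0 else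
        if Internal w m l 3 then Sf B w R i m (l + 3) else Sf B w R (i + 1) m (l + 3)) := by
      rw [q_three]
      rcases h with h | ⟨h1, h2, h3⟩
      · rw [if_pos h]; linarith
      · by_cases hG : Gain w m l 3
        · rw [if_pos hG]; linarith
        · rw [if_neg hG, if_neg (by omega), if_neg h2]; linarith
    have h6 := tl_nonneg (B := B)
    linarith
  · have h1 := Finset.sum_nonneg hnn
    have h2 : (3 : ℝ) / 4 ≤ 1 - ∑ b ∈ Finset.Icc 2 B, q b := by
      have h3 : ∑ b ∈ Finset.Icc 2 B, q b ≤ ∑ b ∈ Finset.Icc 2 2, q b := by
        refine Finset.sum_le_sum_of_subset_of_nonneg (Finset.Icc_subset_Icc le_rfl (by omega)) ?_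
        intro b hb _
        exact q_nn hb
      have h4 : ∑ b ∈ Finset.Icc 2 2, q b = 1 / 4 := by
        simp [q]; norm_num
      linarith
    linarith

/-- (C1) -/
private theorem Sf_quarter {R i m l : ℕ} (h : R = 0 ∨ m = 0 ∨ ¬ Black w (m - 1) (l + 3)) :
    1 / 4 ≤ Sf B w R i m l := by
  cases R with
  | zero => rw [Sf]; norm_num
  | succ R =>
    cases m with
    | zero => rw [Sf]; norm_num
    | succ m =>
      refine Sf_ge_three le_rfl (Or.inl ⟨rfl, ?_⟩)
      rcases h with h | h | h
      · omega
      · omega
      · simpa using h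

/-- (C2) -/
private theorem Sf_black (hw : Sys w) (R : ℕ) : ∀ i m l : ℕ, i ≤ 1 → Black w m l →
    247 / 1024 ≤ Sf B w R i m l := by
  classical
  induction R with
  | zero => intro i m l _ _; rw [Sf]; norm_num
  | succ R ih =>
    intro i m l hi hbl
    cases m with
    | zero => rw [Sf]; norm_num
    | succ m =>
      rw [Sf]
      set K := KK w (m + 1) l with hK
      have hval : ∀ b ∈ Finset.Icc 2 B,
          (if b ≤ K then (247 : ℝ) / 1024 else if b ≤ K + 8 then 1 / 4 else 0) ≤
          (if Gain w m l b then (1 : ℝ) else if 2 ≤ i then 0 else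
            if Internal w m l b then Sf B w R i m (l + b) else Sf B w R (i + 1) m (l + b)) := by
        intro b hb
        have hb2 : 2 ≤ b := (Finset.mem_Icc.1 hb).1
        by_cases hG : Gain w m l b
        · rw [if_pos hG]; split_ifs <;> norm_num
        rw [if_neg hG, if_neg (by omega : ¬ 2 ≤ i)]
        by_cases hbK : b ≤ K
        · rw [if_pos hbK]
          by_cases hI : Internal w m l b
          · rw [if_pos hI]
            exact ih i m (l + b) hi hI.2.2
          · rw [if_neg hI]
            have hwh : ¬ Black w m (l + b) := fun h => hI ⟨hbl, hbK, h⟩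
            have hb23 := hw.side_exit hbl hb2 hbK hwh
            rcases hb23 with h | h
            · subst h
              have : (1 : ℝ) / 4 ≤ Sf B w R (i + 1) m (l + 2) := by
                apply Sf_quarter
                rcases Nat.eq_zero_or_pos m with h0 | h0
                · exact Or.inr (Or.inl h0)
                · right; right
                  obtain ⟨m', rfl⟩ : ∃ m', m = m' + 1 := ⟨m - 1, by omega⟩
                  have := hw.after_side (m := m') (l := l) hbl hbK hwh
                  simpa using this
              linarith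
            · subst h
              exact absurd ⟨rfl, hwh⟩ hG
        · rw [if_neg hbK]
          have hI : ¬ Internal w m l b := fun h => hbK h.2.1
          rw [if_neg hI]
          by_cases hb8 : b ≤ K + 8
          · rw [if_pos hb8]
            apply Sf_quarter
            rcases Nat.eq_zero_or_pos m with h0 | h0
            · exact Or.inr (Or.inl h0)
            · right; right
              obtain ⟨m', rfl⟩ : ∃ m', m = m' + 1 := ⟨m - 1, by omega⟩
              have := hw.after_top (m := m') (l := l) (o := b - K) hbl (by omega) (by omega)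
              have e : KK w (m' + 2) l + (b - K) = b := by
                have : KK w (m' + 2) l = K := rfl
                omega
              rw [e] at this
              simpa using this
          · rw [if_neg hb8]
            exact Sf_nonneg _ _ _ _
      have hs := Finset.sum_le_sum fun b hb => mul_le_mul_of_nonneg_left (hval b hb) (q_nn hb)
      refine le_trans ?_ (add_le_add_right hs _)
      have htl := tl_nonneg (B := B)
      by_cases hBK : B ≤ K + 8
      · have h1 : ∑ b ∈ Finset.Icc 2 B, q b * (247 / 1024) ≤ ∑ b ∈ Finset.Icc 2 B,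
            q b * (if b ≤ K then (247 : ℝ) / 1024 else if b ≤ K + 8 then 1 / 4 else 0) := by
          refine Finset.sum_le_sum fun b hb => mul_le_mul_of_nonneg_left ?_ (q_nn hb)
          have := (Finset.mem_Icc.1 hb).2
          split_ifs
          · exact le_rfl
          · norm_num
          · omega
        rw [← Finset.sum_mul] at h1
        linarith
      · have h1 : ∑ b ∈ Finset.Icc 2 (K + 8),
            q b * (if b ≤ K then (247 : ℝ) / 1024 else if b ≤ K + 8 then 1 / 4 else 0) ≤
            ∑ b ∈ Finset.Icc 2 B,
            q b * (if b ≤ K then (247 : ℝ) / 1024 else if b ≤ K + 8 then 1 / 4 else 0) := by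
          refine Finset.sum_le_sum_of_subset_of_nonneg
            (Finset.Icc_subset_Icc le_rfl (by omega)) fun b hb _ => mul_nonneg (q_nn hb) ?_
          split_ifs <;> norm_num
        have h2 : ∑ b ∈ Finset.Icc 2 (K + 8),
            q b * (if b ≤ K then (247 : ℝ) / 1024 else if b ≤ K + 8 then 1 / 4 else 0) =
            (1 / 4) * ∑ b ∈ Finset.Icc 2 (K + 8), q b -
              (1 / 4 - 247 / 1024) * ∑ b ∈ Finset.Icc 2 K, q b := by
          have h3 : ∑ b ∈ Finset.Icc 2 K, q b =
              ∑ b ∈ Finset.Icc 2 (K + 8), if b ≤ K then q b else 0 := by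
            rw [← Finset.sum_filter]
            refine Finset.sum_congr ?_ fun _ _ => rfl
            ext b
            simp only [Finset.mem_Icc, Finset.mem_filter]
            omega
          rw [h3, Finset.mul_sum, Finset.mul_sum, ← Finset.sum_sub_distrib]
          refine Finset.sum_congr rfl fun b hb => ?_
          have := (Finset.mem_Icc.1 hb).2
          by_cases h : b ≤ K
          · rw [if_pos h, if_pos h]; ring
          · rw [if_neg h, if_neg h, if_pos this]; ring
        rw [sum_q', sum_q'] at h2
        have h4 : ((K : ℝ) + 8 + 1) / 2 ^ (K + 8) ≤ (9 / 256) * (((K : ℝ) + 1) / 2 ^ K) := by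
          rw [pow_add]
          have h5 : (0 : ℝ) < 2 ^ K := by positivity
          rw [div_le_iff₀ (by positivity)]
          have h6 : (9 / 256) * (((K : ℝ) + 1) / 2 ^ K) * (2 ^ K * 2 ^ 8) = 9 * ((K : ℝ) + 1) := by
            field_simp
            norm_num
          rw [h6]
          have : (0 : ℝ) ≤ K := Nat.cast_nonneg K
          linarith
        push_cast at h2
        linarith

/-- (C3) -/
private theorem Sf_zero (hw : Sys w) (R m l : ℕ) : c2 ≤ Sf B w R 0 m l := by
  have hc2 : c2 = 247 / 1024 / 4 := by norm_num [c2]
  cases R with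
  | zero => rw [Sf, c2]; norm_num
  | succ R =>
    cases m with
    | zero => rw [Sf, c2]; norm_num
    | succ m =>
      by_cases hbl : Black w (m + 1) l
      · have := Sf_black (B := B) hw (R + 1) 0 (m + 1) l (by norm_num) hbl
        rw [hc2]
        linarith
      · rw [hc2]
        apply Sf_ge_three (by norm_num)
        by_cases h3 : Black w m (l + 3)
        · right
          exact ⟨by norm_num, fun h => hbl h.1, Sf_black hw R 1 m (l + 3) le_rfl h3⟩
        · left
          exact ⟨rfl, h3⟩

private theorem gf_nn (m l b : ℕ) : 0 ≤ gf w m l b := by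
  unfold gf
  split_ifs
  · have := ka_lt_one; linarith
  · exact zero_le_one

private theorem kc_nonneg : 0 ≤ 1 - ka * c2 := by norm_num [ka, c2]

/-- (C4) at least `3r` cuts in `R` steps. Proof in row 498, 4.2 (define the success functions `S_i`
by recursion on `R`, all sums over `2 ≤ b ≤ B` plus the tail mass `1 - ∑ q`). -/
theorem U_le (hw : Sys w) (R r m l : ℕ) : U B w R (3 * r) m l ≤ (1 - ka * c2) ^ r := by
  classical
  have key : ∀ R : ℕ, (∀ r i m l : ℕ, i ≤ 2 → U B w R (3 * r + 3 - i) m l ≤
      (1 - ka * c2) ^ r * (1 - ka * Sf B w R i m l)) →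
      ∀ r m l : ℕ, U B w R (3 * r) m l ≤ (1 - ka * c2) ^ r := by
    intro R h r m l
    cases r with
    | zero => simpa using U_le_one (B := B) (w := w) R 0 m l
    | succ r =>
      have h1 := h r 0 m l (by norm_num)
      have h2 : 3 * (r + 1) = 3 * r + 3 - 0 := by omega
      rw [h2, pow_succ]
      refine h1.trans (mul_le_mul_of_nonneg_left ?_ (pow_nonneg kc_nonneg r))
      have h3 := Sf_zero (B := B) hw R m l
      have h4 := ka_pos
      have := mul_le_mul_of_nonneg_left h3 h4.le
      linarith
  have main : ∀ R r i m l : ℕ, i ≤ 2 → U B w R (3 * r + 3 - i) m l ≤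
      (1 - ka * c2) ^ r * (1 - ka * Sf B w R i m l) := by
    intro R
    induction R with
    | zero =>
      intro r i m l hi
      rw [U, Sf, if_neg (by omega)]
      have := ka_lt_one
      exact mul_nonneg (pow_nonneg kc_nonneg r) (by linarith)
    | succ R ih =>
      intro r i m l hi
      have hQ := key R ih
      cases m with
      | zero =>
        rw [U, Sf]
        have := ka_lt_one
        exact mul_nonneg (pow_nonneg kc_nonneg r) (by linarith)
      | succ m =>
        rw [U, Sf]
        set a : ℝ := (1 - ka * c2) ^ r with ha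
        have ha0 : 0 ≤ a := pow_nonneg kc_nonneg r
        have hterm : ∀ b ∈ Finset.Icc 2 B,
            q b * gf w m l b * U B w R (if Internal w m l b then (3 * r + 3 - i) else
              (3 * r + 3 - i) - 1) m (l + b) ≤
            a * (q b - ka * (q b * (if Gain w m l b then (1 : ℝ) else if 2 ≤ i then 0 else
              if Internal w m l b then Sf B w R i m (l + b) else Sf B w R (i + 1) m (l + b)))) := by
          intro b hb
          have hq := q_nn hb
          by_cases hG : Gain w m l b
          · have hI : ¬ Internal w m l b := by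
              intro hI
              obtain ⟨h3, hwh⟩ := hG
              subst h3
              exact hwh hI.2.2
            rw [if_neg hI, if_pos hG]
            have h1 : U B w R ((3 * r + 3 - i) - 1) m (l + b) ≤ a :=
              (U_anti R m (l + b) (by omega : 3 * r ≤ (3 * r + 3 - i) - 1)).trans (hQ r m (l + b))
            have h2 : gf w m l b = 1 - ka := by rw [gf, if_pos hG]
            rw [h2]
            have h3 : 0 ≤ q b * (1 - ka) := mul_nonneg hq (by have := ka_lt_one; linarith)
            have := mul_le_mul_of_nonneg_left h1 h3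
            linarith
          · have h2 : gf w m l b = 1 := by rw [gf, if_neg hG]
            rw [h2, if_neg hG]
            by_cases hi2 : 2 ≤ i
            · rw [if_pos hi2]
              have h1 : U B w R (if Internal w m l b then (3 * r + 3 - i) else
                  (3 * r + 3 - i) - 1) m (l + b) ≤ a := by
                refine (U_anti R m (l + b) (?_ : 3 * r ≤ _)).trans (hQ r m (l + b))
                split_ifs <;> omega
              have := mul_le_mul_of_nonneg_left h1 hq
              linarith
            · rw [if_neg hi2]
              by_cases hI : Internal w m l b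
              · rw [if_pos hI, if_pos hI]
                have h1 := ih r i m (l + b) hi
                have := mul_le_mul_of_nonneg_left h1 hq
                linarith
              · rw [if_neg hI, if_neg hI]
                have h1 := ih r (i + 1) m (l + b) (by omega)
                have e : 3 * r + 3 - i - 1 = 3 * r + 3 - (i + 1) := by omega
                rw [e]
                have := mul_le_mul_of_nonneg_left h1 hq
                linarith
        refine (Finset.sum_le_sum hterm).trans ?_
        rw [← Finset.mul_sum, Finset.sum_sub_distrib, ← Finset.mul_sum]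
        refine mul_le_mul_of_nonneg_left ?_ ha0
        have h1 := tl_nonneg (B := B)
        have h2 := ka_lt_one
        have h3 := mul_nonneg h1 (by linarith : 0 ≤ 1 - ka)
        linarith
  exact key R (main R) r m l

end Pool.Agent.W_e21d3a_h93
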