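import Pool.Agent.W_e21d3a_h93.F2a
import Pool.Agent.W_e21d3a_h93.F1d

set_option autoImplicit false

/-!
# [NC] F6c: the local step (row 498, 4.5)
-/

namespace Pool.Agent.W_e21d3a_h93

open Classical in
private theorem local_aux {B : ℕ} {w : ℕ → ℕ → ℝ} (hw : Sys w) (S0 : ℕ) (Bg : ℝ) (hBg : 0 ≤ Bg) :
    ∀ R c m l : ℕ, R ≤ m →
      (∀ m' l', m - R ≤ m' → m' ≤ m → Black w m' l' → S0 ≤ KK w m' l' → V B w m' l' ≤ Bg) →
      (c = 0 ∨ ((S0 + 1) * c ≤ R ∧ (Black w m l → (S0 + 1) * c + KK w m l ≤ R))) →
      V B w m l ≤ DD B w (m - R) * U B w R c m l + Bg := by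
  intro R
  induction R with
  | zero =>
    intro c m l _ _ hc
    have hc0 : c = 0 := by
      rcases hc with h | ⟨h, _⟩
      · exact h
      · rcases Nat.eq_zero_or_pos c with h0 | h0
        · exact h0
        · exfalso
          have := Nat.mul_le_mul_left (S0 + 1) h0
          omega
    subst hc0
    have h1 : U B w 0 0 m l = 1 := by rw [U]; simp
    rw [h1, Nat.sub_zero, mul_one]
    have := V_le_DD (B := B) (w := w) m l
    linarith
  | succ R ih =>
    intro c m l hR hbig hc
    obtain ⟨m, rfl⟩ : ∃ m', m = m' + 1 := ⟨m - 1, by omega⟩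
    have hsub : m + 1 - (R + 1) = m - R := by omega
    rw [hsub] at hbig ⊢
    have hD0 : 0 ≤ DD B w (m - R) := DD_nonneg (m - R)
    have key : ∀ b ∈ Finset.Icc 2 B, V B w m (l + b) ≤
        DD B w (m - R) * U B w R (if Internal w m l b then c else c - 1) m (l + b) + Bg := by
      intro b hb
      have hb2 : 2 ≤ b := (Finset.mem_Icc.1 hb).1
      by_cases hB : Black w m (l + b) ∧ S0 ≤ KK w m (l + b)
      · have h1 := hbig m (l + b) (by omega) (by omega) hB.1 hB.2
        have h2 := mul_nonneg hD0
          (U_nonneg (B := B) (w := w) R (if Internal w m l b then c else c - 1) m (l + b))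
        linarith
      · refine ih _ m (l + b) (by omega)
          (fun m' l' h1 h2 h3 h4 => hbig m' l' h1 (by omega) h3 h4) ?_
        by_cases hI : Internal w m l b
        · rw [if_pos hI]
          rcases hc with h | ⟨_, h2⟩
          · exact Or.inl h
          · right
            have h3 := h2 hI.1
            have h4 := hw.internal_KK hb2 hI
            have h5 := hI.2.1
            constructor
            · omega
            · intro _
              omega
        · rw [if_neg hI]
          rcases hc with h | ⟨h1, _⟩
          · left; omega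
          · rcases Nat.eq_zero_or_pos c with h0 | h0
            · left; omega
            · right
              obtain ⟨d, rfl⟩ : ∃ d, c = d + 1 := ⟨c - 1, by omega⟩
              have h6 : (S0 + 1) * (d + 1) = (S0 + 1) * d + (S0 + 1) := by ring
              rw [Nat.add_sub_cancel]
              constructor
              · omega
              · intro h7
                have h8 : ¬ S0 ≤ KK w m (l + b) := fun h => hB ⟨h7, h⟩
                omega
    rw [V, U]
    have hstep : ∀ b ∈ Finset.Icc 2 B,
        q b * (if b = 3 then |Real.cos (Real.pi * w m (l + b))| else 1) * V B w m (l + b) ≤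
        DD B w (m - R) * (q b * gf w m l b *
          U B w R (if Internal w m l b then c else c - 1) m (l + b)) + q b * Bg := by
      intro b hb
      have hb2 : 2 ≤ b := (Finset.mem_Icc.1 hb).1
      have hq := q_nonneg hb2
      have hf := factor_le (w := w) m l b
      have hf0 : 0 ≤ (if b = 3 then |Real.cos (Real.pi * w m (l + b))| else 1) := by
        split_ifs
        · exact abs_nonneg _
        · exact zero_le_one
      have hf1 : gf w m l b ≤ 1 := by
        unfold gf
        split_ifs
        · have := ka_pos; linarith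
        · exact le_rfl
      have hU := U_nonneg (B := B) (w := w) R (if Internal w m l b then c else c - 1) m (l + b)
      have hk := key b hb
      set f := (if b = 3 then |Real.cos (Real.pi * w m (l + b))| else 1) with hfdef
      set u := U B w R (if Internal w m l b then c else c - 1) m (l + b) with hu
      have e1 : q b * f * V B w m (l + b) ≤ q b * f * (DD B w (m - R) * u + Bg) :=
        mul_le_mul_of_nonneg_left hk (mul_nonneg hq hf0)
      have e2 : q b * f * (DD B w (m - R) * u) ≤ q b * gf w m l b * (DD B w (m - R) * u) :=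
        mul_le_mul_of_nonneg_right (mul_le_mul_of_nonneg_left hf hq) (mul_nonneg hD0 hU)
      have e3 : q b * f * Bg ≤ q b * Bg := by
        apply mul_le_mul_of_nonneg_right _ hBg
        have : f ≤ 1 := le_trans hf hf1
        nlinarith
      calc q b * f * V B w m (l + b) ≤ q b * f * (DD B w (m - R) * u + Bg) := e1
        _ = q b * f * (DD B w (m - R) * u) + q b * f * Bg := by ring
        _ ≤ q b * gf w m l b * (DD B w (m - R) * u) + q b * Bg := add_le_add e2 e3
        _ = _ := by ring
    refine (Finset.sum_le_sum hstep).trans ?_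
    rw [Finset.sum_add_distrib, ← Finset.mul_sum, ← Finset.sum_mul]
    have h9 : (∑ b ∈ Finset.Icc 2 B, q b) * Bg ≤ 1 * Bg :=
      mul_le_mul_of_nonneg_right (sum_q_le_one B) hBg
    linarith

/-- 4.5, the claim with the potential -/
theorem local_step {B : ℕ} {w : ℕ → ℕ → ℝ} (hw : Sys w) (S0 : ℕ) (Bg : ℝ) (hBg : 0 ≤ Bg)
    (R c m l : ℕ) (hR : R ≤ m)
    (hbig : ∀ m' l', m - R ≤ m' → m' ≤ m → Black w m' l' → S0 ≤ KK w m' l' → V B w m' l' ≤ Bg)
    (hc : (S0 + 1) * c + S0 ≤ R) :
    V B w m l ≤ DD B w (m - R) * U B w R c m l + Bg := by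
  by_cases hB : Black w m l ∧ S0 ≤ KK w m l
  · have h1 := hbig m l (by omega) le_rfl hB.1 hB.2
    have h2 := mul_nonneg (DD_nonneg (B := B) (w := w) (m - R))
      (U_nonneg (B := B) (w := w) R c m l)
    linarith
  · refine local_aux hw S0 Bg hBg R c m l hR hbig (Or.inr ⟨by omega, fun h => ?_⟩)
    have h8 : ¬ S0 ≤ KK w m l := fun h' => hB ⟨h, h'⟩
    omega

end Pool.Agent.W_e21d3a_h93
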