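import Pool.Agent.W_e21d3a_h93.F6b
import Pool.Agent.W_e21d3a_h93.F6c
import Pool.Agent.W_e21d3a_h93.F2b

set_option autoImplicit false

/-!
# [NC] F6d: recursion and polynomial decay (row 498, 4.5, 4.6)
-/

namespace Pool.Agent.W_e21d3a_h93

/-- CONSEQUENCE of 4.5 -/
theorem DD_rec {δ : ℝ} (hδ : 0 < δ) : ∃ m0 : ℕ, ∀ (B : ℕ) (w : ℕ → ℕ → ℝ), Sys w → ∀ m ≥ m0,
    DD B w m ≤ δ * DD B w (m / 9) := by
  have h1 : 0 ≤ 1 - ka * c2 := by norm_num [ka, c2]
  have h2 : 1 - ka * c2 < 1 := by norm_num [ka, c2]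
  obtain ⟨r0, hr0⟩ := exists_pow_lt_of_lt_one (half_pos hδ) h2
  obtain ⟨S0, hS0⟩ := big (half_pos hδ)
  set R := (S0 + 1) * (3 * r0) + S0 with hR
  refine ⟨9 * R + 9, ?_⟩
  intro B w hw m hm
  refine DD_le fun l => ?_
  have hRm : R ≤ m := by omega
  have hloc := local_step (B := B) hw S0 (δ / 2 * DD B w ((m - R) / 8))
    (mul_nonneg (half_pos hδ).le (DD_nonneg _)) R (3 * r0) m l hRm (by
      intro m' l' h3 _ h5 h6
      refine (hS0 B w hw m' l' h5 h6).trans ?_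
      refine mul_le_mul_of_nonneg_left (DD_anti ?_) (half_pos hδ).le
      omega) le_rfl
  refine hloc.trans ?_
  have e1 : DD B w (m - R) ≤ DD B w (m / 9) := DD_anti (by omega)
  have e2 : DD B w ((m - R) / 8) ≤ DD B w (m / 9) := DD_anti (by omega)
  have e3 : U B w R (3 * r0) m l ≤ δ / 2 := (U_le hw R r0 m l).trans hr0.le
  have e4 := DD_nonneg (B := B) (w := w) (m / 9)
  have e5 := U_nonneg (B := B) (w := w) R (3 * r0) m l
  have e6 := DD_nonneg (B := B) (w := w) (m - R)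
  calc DD B w (m - R) * U B w R (3 * r0) m l + δ / 2 * DD B w ((m - R) / 8)
      ≤ DD B w (m / 9) * (δ / 2) + δ / 2 * DD B w (m / 9) :=
        add_le_add (mul_le_mul e1 e3 e5 e4) (mul_le_mul_of_nonneg_left e2 (half_pos hδ).le)
    _ = δ * DD B w (m / 9) := by ring

/-- THEOREM 4' -/
theorem V_decay (A : ℕ) : ∃ C : ℝ, ∀ (B : ℕ) (w : ℕ → ℕ → ℝ), Sys w → ∀ m l,
    V B w m l ≤ C / ((m : ℝ) + 1) ^ A := by
  obtain ⟨m0, hm0⟩ := DD_rec (δ := 1 / 9 ^ A) (by positivity)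
  refine ⟨((m0 : ℝ) + 1) ^ A, ?_⟩
  intro B w hw m l
  refine (V_le_DD m l).trans ?_
  clear l
  induction m using Nat.strong_induction_on with
  | _ m ih =>
    have hC1 : (1 : ℝ) ≤ ((m0 : ℝ) + 1) ^ A := one_le_pow₀ (by
      have : (0 : ℝ) ≤ m0 := Nat.cast_nonneg m0
      linarith)
    rcases Nat.lt_or_ge m m0 with h | h
    · refine (DD_le_one m).trans ?_
      rw [le_div_iff₀ (by positivity), one_mul]
      have : (m : ℝ) ≤ m0 := by exact_mod_cast h.le
      gcongr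
    · rcases Nat.eq_zero_or_pos m with h0 | h0
      · subst h0
        refine (DD_le_one 0).trans ?_
        simp only [Nat.cast_zero, zero_add, one_pow, div_one]
        exact hC1
      · have h1 := ih (m / 9) (by omega)
        refine (hm0 B w hw m h).trans ?_
        have h2 : 1 / (9 : ℝ) ^ A * DD B w (m / 9) ≤
            1 / (9 : ℝ) ^ A * (((m0 : ℝ) + 1) ^ A / (((m / 9 : ℕ) : ℝ) + 1) ^ A) :=
          mul_le_mul_of_nonneg_left h1 (by positivity)
        refine h2.trans ?_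
        have h3 : 1 / (9 : ℝ) ^ A * (((m0 : ℝ) + 1) ^ A / (((m / 9 : ℕ) : ℝ) + 1) ^ A) =
            ((m0 : ℝ) + 1) ^ A / (9 * (((m / 9 : ℕ) : ℝ) + 1)) ^ A := by
          rw [mul_pow]
          field_simp
        rw [h3]
        apply div_le_div_of_nonneg_left (by positivity) (by positivity)
        apply pow_le_pow_left₀ (by positivity)
        have h4 : m + 1 ≤ 9 * (m / 9 + 1) := by omega
        exact_mod_cast h4

end Pool.Agent.W_e21d3a_h93
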