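import Pool.Agent.W_e21d3a_h93.F0b
import Pool.Agent.W_e21d3a_h93.F0c
import Pool.Agent.W_e21d3a_h93.F6d

set_option autoImplicit false

/-!
# [NC] F0d: THEOREM 4 (row 498, 4.0)
-/

namespace Pool.Agent.W_e21d3a_h93

/-- THEOREM 4 -/
theorem fourier_decay (A : ℕ) : ∃ C : ℝ, 0 < C ∧ ∀ (n t : ℕ) (ξ : ℤ), 1 ≤ n → ¬ (3 : ℤ) ∣ ξ →
    ‖∑ l ∈ comps n t, ee (-(ξ * ((cc l * uu n ^ t : ℕ) : ℝ) / 3 ^ n)) / 2 ^ t‖
      ≤ C / (n : ℝ) ^ A := by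
  obtain ⟨C0, hC0⟩ := V_decay A
  refine ⟨max C0 1 * 2 ^ A, by positivity, ?_⟩
  intro n t ξ hn hξ
  obtain ⟨h, e0, he, hnh⟩ : ∃ h e0 : ℕ, e0 ≤ 1 ∧ n = 2 * h + e0 := ⟨n / 2, n % 2, by omega, by omega⟩
  have h1 := norm_sum_le_V (e0 := e0) (h := h) (m := h) (l0 := 0) (t := t) (B := t) he le_rfl
    le_rfl ξ
  rw [← hnh] at h1
  have h2 : ∑ l ∈ comps n t, ee (-(ξ * ((cc l * uu n ^ t : ℕ) : ℝ) / 3 ^ n)) / 2 ^ t =
      ∑ l ∈ comps n t, ee (-(9 ^ (h - h) * (uu n : ℝ) ^ 0 * ξ * Xu (uu n) l / 3 ^ n)) / 2 ^ t := by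
    refine Finset.sum_congr rfl fun l hl => ?_
    congr 1
    apply ee_eq_of_sub_int
    obtain ⟨k, hk⟩ := Xu_mod n l
    rw [(mem_comps.mp hl).2.1] at hk
    refine ⟨ξ * k, ?_⟩
    have hk' : (Xu (uu n) l : ℝ) - cc l * (uu n : ℝ) ^ t = 3 ^ n * k := by
      exact_mod_cast hk
    have h3 : (3 : ℝ) ^ n ≠ 0 := by positivity
    push_cast
    rw [Nat.sub_self, pow_zero, pow_zero]
    field_simp
    linear_combination (ξ : ℝ) * hk'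
  rw [h2]
  refine h1.trans ((hC0 t (ww e0 ξ) (sys_ww he hξ) h 0).trans ?_)
  have h4 : (0 : ℝ) < n := by exact_mod_cast hn
  have h5 : (n : ℝ) ≤ 2 * ((h : ℝ) + 1) := by
    have : n ≤ 2 * (h + 1) := by omega
    exact_mod_cast this
  have h6 : (n : ℝ) ^ A ≤ 2 ^ A * ((h : ℝ) + 1) ^ A := by
    rw [← mul_pow]
    exact pow_le_pow_left₀ h4.le h5 A
  rw [div_le_div_iff₀ (by positivity) (by positivity)]
  have h7 : C0 * (n : ℝ) ^ A ≤ max C0 1 * (n : ℝ) ^ A :=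
    mul_le_mul_of_nonneg_right (le_max_left _ _) (by positivity)
  have h8 : max C0 1 * (n : ℝ) ^ A ≤ max C0 1 * (2 ^ A * ((h : ℝ) + 1) ^ A) :=
    mul_le_mul_of_nonneg_left h6 (by positivity)
  calc C0 * (n : ℝ) ^ A ≤ max C0 1 * (2 ^ A * ((h : ℝ) + 1) ^ A) := h7.trans h8
    _ = max C0 1 * 2 ^ A * ((h : ℝ) + 1) ^ A := by ring

end Pool.Agent.W_e21d3a_h93
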