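import Pool.Agent.W_e21d3a_h93.FDefs

set_option autoImplicit false

/-!
# [NC] F1a: distance to the nearest integer (row 498, 4.1)
-/

namespace Pool.Agent.W_e21d3a_h93

theorem nn_nonneg (x : ℝ) : 0 ≤ nn x := abs_nonneg _

theorem nn_le_half (x : ℝ) : nn x ≤ 1 / 2 := abs_sub_round x

theorem nn_add_int (x : ℝ) (z : ℤ) : nn (x + z) = nn x := by
  unfold nn
  rw [round_add_intCast]
  push_cast
  congr 1
  ring

theorem nn_of_small {x : ℝ} (h : |x| ≤ 1 / 2) : nn x = |x| := by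
  unfold nn
  apply le_antisymm
  · have h1 := round_le x 0
    rwa [Int.cast_zero, sub_zero] at h1
  · by_cases hz : round x = 0
    · rw [hz, Int.cast_zero, sub_zero]
    · have h1 : (1 : ℤ) ≤ |round x| := Int.one_le_abs hz
      have h2 : (1 : ℝ) ≤ |(round x : ℝ)| := by
        rw [← Int.cast_abs]
        exact_mod_cast h1
      have h3 : |(round x : ℝ)| ≤ |x - round x| + |x| := by
        have h4 := abs_sub_abs_le_abs_sub (round x : ℝ) x
        rw [abs_sub_comm] at h4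
        linarith
      linarith

/-- signed representative -/
theorem exists_signed (x : ℝ) : ∃ (s : ℝ) (z : ℤ), x = s + z ∧ |s| = nn x :=
  ⟨x - round x, round x, by ring, rfl⟩

/-- `|cos πx| ≤ 1 - 4‖x‖²` -/
theorem abs_cos_le (x : ℝ) : |Real.cos (Real.pi * x)| ≤ 1 - 4 * nn x ^ 2 := by
  obtain ⟨s, z, hx, hs⟩ := exists_signed x
  have hs2 : |s| ≤ 1 / 2 := by rw [hs]; exact nn_le_half x
  have h1 : |Real.cos (Real.pi * x)| = |Real.cos (Real.pi * |s|)| := by
    have e : Real.pi * x = Real.pi * s + z * Real.pi := by rw [hx]; ring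
    rw [e, Real.cos_add_int_mul_pi]
    rw [abs_mul]
    have e2 : |((-1 : ℝ) ^ z)| = 1 := by
      rcases Int.even_or_odd z with hz | hz
      · rw [hz.neg_one_zpow, abs_one]
      · rw [hz.neg_one_zpow, abs_neg, abs_one]
    rw [e2, one_mul]
    congr 1
    rcases abs_choice s with h | h
    · rw [h]
    · rw [h, mul_neg, Real.cos_neg]
  rw [h1, ← hs]
  set t := |s| with ht
  have ht0 : 0 ≤ t := abs_nonneg s
  have hpi := Real.pi_pos
  have h2 : 0 ≤ Real.cos (Real.pi * t) := by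
    apply Real.cos_nonneg_of_neg_pi_div_two_le_of_le
    · nlinarith
    · nlinarith
  rw [abs_of_nonneg h2]
  have h3 : Real.cos (Real.pi * t) = 1 - 2 * Real.sin (Real.pi * t / 2) ^ 2 := by
    have e : Real.pi * t = 2 * (Real.pi * t / 2) := by ring
    rw [e, Real.cos_two_mul]
    have := Real.sin_sq_add_cos_sq (Real.pi * t / 2)
    have e2 : 2 * (Real.pi * t / 2) / 2 = Real.pi * t / 2 := by ring
    rw [e2]
    linarith
  have h4 : Real.sqrt 2 * t ≤ Real.sin (Real.pi * t / 2) := by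
    have hc := strictConcaveOn_sin_Icc.concaveOn
    have m1 : (0 : ℝ) ∈ Set.Icc 0 Real.pi := ⟨le_refl _, hpi.le⟩
    have m2 : Real.pi / 4 ∈ Set.Icc 0 Real.pi := ⟨by positivity, by linarith⟩
    have h0a : (0 : ℝ) ≤ 1 - 2 * t := by linarith
    have h0b : (0 : ℝ) ≤ 2 * t := by linarith
    have h0c : (1 - 2 * t) + 2 * t = 1 := by ring
    have h5 := hc.2 m1 m2 h0a h0b h0c
    simp only [smul_eq_mul, Real.sin_zero, mul_zero, zero_add, Real.sin_pi_div_four] at h5
    have e1 : 2 * t * (Real.pi / 4) = Real.pi * t / 2 := by ring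
    rw [e1] at h5
    linarith
  have h6 : 0 ≤ Real.sqrt 2 * t := by positivity
  have h7 : (Real.sqrt 2 * t) ^ 2 ≤ Real.sin (Real.pi * t / 2) ^ 2 := pow_le_pow_left₀ h6 h4 2
  rw [mul_pow, Real.sq_sqrt (by norm_num)] at h7
  rw [h3]
  linarith

/-- distance of `c/2^o + δ` (`c` odd, `o ≥ 1`) to the integers -/
theorem nn_odd_div {c : ℤ} (hc : c % 2 = 1) {o : ℕ} (ho : 1 ≤ o) {s : ℝ} (hs : |s| ≤ 1) :
    (1 - |s|) / 2 ^ o ≤ nn ((s + c) / 2 ^ o) := by
  unfold nn
  set z := round ((s + (c : ℝ)) / 2 ^ o) with hz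
  have h2 : (0 : ℝ) < 2 ^ o := by positivity
  have h3 : (s + (c : ℝ)) / 2 ^ o - z = (s + ((c - 2 ^ o * z : ℤ) : ℝ)) / 2 ^ o := by
    push_cast
    field_simp
    ring
  rw [h3, abs_div, abs_of_pos h2]
  apply div_le_div_of_nonneg_right _ h2.le
  have h4 : c - 2 ^ o * z ≠ 0 := by
    intro h
    have h5 : (2 : ℤ) ∣ 2 ^ o * z := (dvd_pow_self 2 (by omega)).mul_right z
    omega
  have h6 : (1 : ℝ) ≤ |((c - 2 ^ o * z : ℤ) : ℝ)| := by
    rw [← Int.cast_abs]
    exact_mod_cast Int.one_le_abs h4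
  have h7 := abs_sub_abs_le_abs_sub ((c - 2 ^ o * z : ℤ) : ℝ) (-s)
  rw [abs_neg, sub_neg_eq_add, add_comm (((c - 2 ^ o * z : ℤ) : ℝ)) s] at h7
  linarith

end Pool.Agent.W_e21d3a_h93
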