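import Pool.Agent.W_e21d3a_h93.F1a

set_option autoImplicit false

/-!
# [NC] F1b: black runs (row 498, (G1), (G2))
-/

namespace Pool.Agent.W_e21d3a_h93

variable {w : ℕ → ℕ → ℝ}

/-- (G1) -/
theorem Sys.half (hw : Sys w) {m l : ℕ} (h : Black w m l) (h' : Black w m (l + 1)) :
    nn (w m (l + 1)) = nn (w m l) / 2 := by
  obtain ⟨z, hz⟩ := hw.r1 m l
  obtain ⟨s, z', hs, hs'⟩ := exists_signed (w m (l + 1))
  have h1 : w m l = 2 * s + ((2 * z' - z : ℤ) : ℝ) := by
    push_cast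
    linarith
  have h2 : |2 * s| ≤ 1 / 2 := by
    rw [abs_mul, abs_two, hs']
    unfold Black ep at h'
    linarith
  rw [h1, nn_add_int, nn_of_small h2, abs_mul, abs_two, hs']
  ring

/-- (G2) all levels up to `KK` are black, and the norms are halved -/
theorem Sys.black_le (hw : Sys w) {m l i : ℕ} (h : Black w m l) (hi : i ≤ KK w m l) :
    Black w m (l + i) ∧ nn (w m (l + i)) = nn (w m l) / 2 ^ i := by
  induction i with
  | zero => exact ⟨h, by simp⟩
  | succ i ih =>
    obtain ⟨h1, h2⟩ := ih (by omega)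
    have h3 : Black w m (l + i + 1) := by
      by_contra hc
      have h4 : i ∈ {k | ¬ Black w m (l + k + 1)} := hc
      have h5 : KK w m l ≤ i := Nat.sInf_le h4
      omega
    refine ⟨h3, ?_⟩
    have h6 := hw.half h1 h3
    have e : l + (i + 1) = l + i + 1 := by ring
    rw [e, h6, h2, pow_succ]
    ring

theorem Sys.exists_white (hw : Sys w) {m l : ℕ} (h : Black w m l) :
    ∃ k, ¬ Black w m (l + k + 1) := by
  by_contra hc
  push Not at hc
  have h1 : ∀ i, Black w m (l + i) ∧ nn (w m (l + i)) = nn (w m l) / 2 ^ i := by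
    intro i
    induction i with
    | zero => exact ⟨h, by simp⟩
    | succ i ih =>
      have h3 : Black w m (l + i + 1) := hc i
      refine ⟨h3, ?_⟩
      have h6 := hw.half ih.1 h3
      have e : l + (i + 1) = l + i + 1 := by ring
      rw [e, h6, ih.2, pow_succ]
      ring
  obtain ⟨i, hi⟩ := pow_unbounded_of_one_lt ((3 : ℝ) ^ (2 * m + 3)) (by norm_num : (1 : ℝ) < 2)
  have h2 := (h1 i).2
  have h3 := hw.r3 m (l + i)
  rw [h2] at h3
  have h4 := nn_le_half (w m l)
  have h5 : nn (w m l) / 2 ^ i < 1 / 3 ^ (2 * m + 3) := by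
    rw [div_lt_div_iff₀ (by positivity) (by positivity)]
    have h6 : nn (w m l) * 3 ^ (2 * m + 3) ≤ 1 / 2 * 3 ^ (2 * m + 3) :=
      mul_le_mul_of_nonneg_right h4 (by positivity)
    have h7 : (0 : ℝ) < 3 ^ (2 * m + 3) := by positivity
    linarith
  linarith

theorem Sys.white_top (hw : Sys w) {m l : ℕ} (h : Black w m l) :
    ¬ Black w m (l + KK w m l + 1) := by
  have h1 : ({k | ¬ Black w m (l + k + 1)} : Set ℕ).Nonempty := hw.exists_white h
  exact Nat.sInf_mem h1

/-- if `(m,l+i)` is black for all `i ≤ k` and `(m,l+k+1)` is white then `KK = k` -/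
theorem Sys.KK_eq (hw : Sys w) {m l k : ℕ} (h : ∀ i ≤ k, Black w m (l + i))
    (h' : ¬ Black w m (l + k + 1)) : KK w m l = k := by
  have h1 : k ∈ {k | ¬ Black w m (l + k + 1)} := h'
  have h2 : KK w m l ≤ k := Nat.sInf_le h1
  rcases Nat.lt_or_ge (KK w m l) k with h3 | h3
  · exfalso
    have h4 : KK w m l ∈ {k | ¬ Black w m (l + k + 1)} := Nat.sInf_mem ⟨k, h1⟩
    exact h4 (h (KK w m l + 1) h3)
  · omega

theorem Sys.KK_add (hw : Sys w) {m l i : ℕ} (h : Black w m l) (hi : i ≤ KK w m l) :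
    KK w m (l + i) = KK w m l - i := by
  apply hw.KK_eq
  · intro j hj
    have := (hw.black_le h (i := i + j) (by omega)).1
    rwa [← add_assoc] at this
  · have e : l + i + (KK w m l - i) + 1 = l + KK w m l + 1 := by omega
    rw [e]
    exact hw.white_top h

theorem Sys.two_pow_KK (hw : Sys w) {m l : ℕ} (h : Black w m l) :
    2 ^ KK w m l < 9 ^ m := by
  have h1 := (hw.black_le h le_rfl).2
  have h2 := hw.r3 m (l + KK w m l)
  rw [h1] at h2
  have h3 : nn (w m l) ≤ 1 / 4096 := h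
  rw [div_le_div_iff₀ (by positivity) (by positivity), one_mul] at h2
  have h4 : nn (w m l) * 3 ^ (2 * m + 3) ≤ 1 / 4096 * 3 ^ (2 * m + 3) :=
    mul_le_mul_of_nonneg_right h3 (by positivity)
  have h5 : (3 : ℝ) ^ (2 * m + 3) = 27 * 9 ^ m := by
    rw [pow_add, pow_mul]
    norm_num
    ring
  rw [h5] at h2 h4
  have h6 : (0 : ℝ) < 9 ^ m := by positivity
  have h7 : (2 : ℝ) ^ KK w m l < 9 ^ m := by linarith
  exact_mod_cast h7

/-- consequence of `2^317 > 9^100` -/
theorem Sys.KK_lt (hw : Sys w) {m l : ℕ} (h : Black w m l) : 100 * KK w m l < 317 * m + 1 := by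
  have h1 := hw.two_pow_KK h
  have h2 : (2 ^ KK w m l) ^ 100 < (9 ^ m) ^ 100 := Nat.pow_lt_pow_left h1 (by norm_num)
  have h3 : (9 ^ m) ^ 100 ≤ 2 ^ (317 * m) := by
    rw [← pow_mul, mul_comm m 100, pow_mul, pow_mul]
    have h0 : 9 ^ 50 * 9 ^ 50 ≤ 2 ^ 158 * 2 ^ 159 := by norm_num
    have h9 : 9 ^ 100 ≤ 2 ^ 317 := by
      rw [← pow_add, ← pow_add] at h0
      exact h0
    exact Nat.pow_le_pow_left h9 m
  rw [← pow_mul] at h2
  have h4 : 2 ^ (KK w m l * 100) < 2 ^ (317 * m) := lt_of_lt_of_le h2 h3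
  have h5 := (Nat.pow_lt_pow_iff_right (by norm_num : 1 < 2)).1 h4
  omega

end Pool.Agent.W_e21d3a_h93
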