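import Pool.Agent.W_e21d3a_h93.F1b

set_option autoImplicit false

/-!
# [NC] F1c: frequencies above the top (row 498, (G3), (G4))
-/

namespace Pool.Agent.W_e21d3a_h93

variable {w : ℕ → ℕ → ℝ}

/-- columns to the right -/
theorem Sys.right (hw : Sys w) (m L : ℕ) : ∀ i ≤ m, ∃ z : ℤ, w (m - i) L = 9 ^ i * w m L + z := by
  intro i
  induction i with
  | zero => intro _; exact ⟨0, by simp⟩
  | succ i ih =>
    intro hi
    obtain ⟨z, hz⟩ := ih (by omega)
    obtain ⟨z1, hz1⟩ := hw.r2 (m - (i + 1)) L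
    have e : m - (i + 1) + 1 = m - i := by omega
    rw [e] at hz1
    refine ⟨9 * z - z1, ?_⟩
    push_cast
    rw [pow_succ]
    linarith

/-- levels above the top in the column itself -/
theorem Sys.up (hw : Sys w) {m l : ℕ} (h : Black w m l) {s : ℝ} {z0 : ℤ}
    (hs : w m (l + KK w m l) = s + z0) (hs' : |s| = nn (w m (l + KK w m l))) :
    ∀ o : ℕ, ∃ c : ℤ, c % 2 = 1 ∧ w m (l + KK w m l + (o + 1)) = (s + c) / 2 ^ (o + 1) := by
  intro o
  induction o with
  | zero =>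
    obtain ⟨z1, hz1⟩ := hw.r1 m (l + KK w m l)
    have hB := (hw.black_le h (le_refl _)).1
    have hW := hw.white_top h
    refine ⟨z0 + z1, ?_, ?_⟩
    · by_contra hc
      have hev : (z0 + z1) % 2 = 0 := by omega
      obtain ⟨t, ht⟩ : ∃ t, z0 + z1 = 2 * t := ⟨(z0 + z1) / 2, by omega⟩
      apply hW
      have ht' : (z0 : ℝ) + z1 = 2 * t := by exact_mod_cast ht
      have e : w m (l + KK w m l + 1) = s / 2 + t := by linarith
      have hB' : |s| ≤ ep := by rw [hs']; exact hB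
      have he : ep ≤ 1 / 2 := by unfold ep; norm_num
      have h0 : (0 : ℝ) ≤ |s| := abs_nonneg s
      have h2 : |s / 2| = |s| / 2 := by rw [abs_div, abs_of_pos (by norm_num : (0 : ℝ) < 2)]
      unfold Black
      rw [e, nn_add_int, nn_of_small (by rw [h2]; linarith), h2]
      linarith
    · push_cast
      rw [pow_one]
      linarith
  | succ o ih =>
    obtain ⟨c, hc, hc'⟩ := ih
    obtain ⟨z1, hz1⟩ := hw.r1 m (l + KK w m l + (o + 1))
    refine ⟨c + 2 ^ (o + 1) * z1, ?_, ?_⟩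
    · rw [pow_succ]
      have : c + 2 ^ o * 2 * z1 = c + 2 * (2 ^ o * z1) := by ring
      rw [this]
      omega
    · have e : l + KK w m l + (o + 1 + 1) = l + KK w m l + (o + 1) + 1 := by omega
      rw [e]
      have hp : (0 : ℝ) < 2 ^ (o + 1) := by positivity
      have h1 : w m (l + KK w m l + (o + 1) + 1) = ((s + c) / 2 ^ (o + 1) + z1) / 2 := by
        rw [← hc']; linarith
      rw [h1]
      push_cast
      rw [pow_succ 2 (o + 1)]
      field_simp
      ring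

/-- (G3)+(G4): frequencies above the top, `i` columns to the right.
`s` is the signed value at the top of column `m`, `|s| = nn (w m (l+KK)) = nn (w m l)/2^KK ≤ ε/2^KK`. -/
theorem Sys.above (hw : Sys w) {m l : ℕ} (h : Black w m l) :
    ∃ s : ℝ, |s| = nn (w m l) / 2 ^ KK w m l ∧
      (∀ i ≤ m, ∃ z : ℤ, w (m - i) (l + KK w m l) = 9 ^ i * s + z) ∧
      ∀ i ≤ m, ∀ o ≥ 1, ∃ c z : ℤ, c % 2 = 1 ∧
        w (m - i) (l + KK w m l + o) = (9 ^ i * s + c) / 2 ^ o + z := by
  obtain ⟨s, z0, hs, hs'⟩ := exists_signed (w m (l + KK w m l))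
  refine ⟨s, ?_, ?_, ?_⟩
  · rw [hs', (hw.black_le h (le_refl _)).2]
  · intro i hi
    obtain ⟨z, hz⟩ := hw.right m (l + KK w m l) i hi
    refine ⟨9 ^ i * z0 + z, ?_⟩
    rw [hz, hs]
    push_cast
    ring
  · intro i hi o ho
    obtain ⟨o', rfl⟩ : ∃ o', o = o' + 1 := ⟨o - 1, by omega⟩
    obtain ⟨c, hc, hc'⟩ := hw.up h hs hs' o'
    obtain ⟨z, hz⟩ := hw.right m (l + KK w m l + (o' + 1)) i hi
    refine ⟨9 ^ i * c, z, ?_, ?_⟩
    · have h9 : (9 : ℤ) ^ i % 2 = 1 := by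
        rw [← Int.odd_iff]
        exact Odd.pow (by decide)
      rw [Int.mul_emod, h9, hc]
      norm_num
    · rw [hz, hc']
      push_cast
      ring

/-- lower bound above the top: `i` columns to the right, `o ≥ 1` levels above,
provided `9^i |s| ≤ 1` -/
theorem Sys.above_lower (hw : Sys w) {m l i o : ℕ} (h : Black w m l) (hi : i ≤ m) (ho : 1 ≤ o)
    (h9 : 9 ^ i * (nn (w m l) / 2 ^ KK w m l) ≤ 1) :
    (1 - 9 ^ i * (nn (w m l) / 2 ^ KK w m l)) / 2 ^ o ≤ nn (w (m - i) (l + KK w m l + o)) := by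
  obtain ⟨s, hs, -, h3⟩ := hw.above h
  obtain ⟨c, z, hc, hz⟩ := h3 i hi o ho
  rw [hz, nn_add_int]
  have e : |9 ^ i * s| = 9 ^ i * (nn (w m l) / 2 ^ KK w m l) := by
    rw [abs_mul, hs, abs_of_pos (by positivity : (0 : ℝ) < 9 ^ i)]
  rw [← e]
  exact nn_odd_div hc ho (by rw [e]; exact h9)

end Pool.Agent.W_e21d3a_h93
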