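import Pool.Agent.W_e21d3a_h93.F2a

set_option autoImplicit false

/-!
# [NC] F3a: first passage (row 498, (P1))
-/

namespace Pool.Agent.W_e21d3a_h93

variable {B : ℕ} {w : ℕ → ℕ → ℝ}

theorem rho_nonneg (k K o : ℕ) : 0 ≤ rho B k K o := by
  induction k using Nat.strong_induction_on generalizing K with
  | _ k ih =>
    match k, ih with
    | 0, _ => simp [rho]
    | 1, _ =>
      unfold rho
      split_ifs with h
      · exact q_nonneg h.2
      · exact le_rfl
    | k + 2, ih =>
      rw [rho]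
      refine Finset.sum_nonneg fun b hb => ?_
      rw [Finset.mem_Icc] at hb
      exact mul_nonneg (q_nonneg hb.1) (ih (k + 1) (by omega) _)

theorem Pii_nonneg (k K : ℕ) : 0 ≤ Pii B k K := by
  induction k generalizing K with
  | zero => simp [Pii]
  | succ k ih =>
    rw [Pii]
    refine Finset.sum_nonneg fun b hb => ?_
    rw [Finset.mem_Icc] at hb
    exact mul_nonneg (q_nonneg hb.1) (ih _)

private theorem sum_Icc_one (n : ℕ) (f : ℕ → ℝ) :
    ∑ k ∈ Finset.Icc 1 n, f k = ∑ i ∈ Finset.range n, f (i + 1) := by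
  induction n with
  | zero => simp
  | succ n ih => rw [Finset.sum_Icc_succ_top (by omega), ih, Finset.sum_range_succ]

private theorem sum_Icc_one_succ (n : ℕ) (f : ℕ → ℝ) :
    ∑ k ∈ Finset.Icc 1 (n + 1), f k = f 1 + ∑ k ∈ Finset.Icc 1 n, f (k + 1) := by
  rw [sum_Icc_one, sum_Icc_one, Finset.sum_range_succ', add_comm]

private theorem rho_one_sum (K : ℕ) (F : ℕ → ℝ) :
    ∑ o ∈ Finset.Icc 1 B, rho B 1 K o * F o =
      ∑ b ∈ (Finset.Icc 2 B).filter (fun b => K < b), q b * F (b - K) := by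
  have h1 : ∑ o ∈ Finset.Icc 1 B, rho B 1 K o * F o =
      ∑ o ∈ (Finset.Icc 1 B).filter (fun o => K + o ≤ B ∧ 2 ≤ K + o), q (K + o) * F o := by
    rw [Finset.sum_filter]
    refine Finset.sum_congr rfl fun o _ => ?_
    unfold rho
    split_ifs <;> simp
  rw [h1]
  refine Finset.sum_nbij' (fun o => K + o) (fun b => b - K) ?_ ?_ ?_ ?_ ?_
  · intro o ho
    rw [Finset.mem_filter, Finset.mem_Icc] at ho ⊢
    omega
  · intro b hb
    rw [Finset.mem_filter, Finset.mem_Icc] at hb ⊢
    omega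
  · intro o _
    simp
  · intro b hb
    rw [Finset.mem_filter, Finset.mem_Icc] at hb
    show K + (b - K) = b
    omega
  · intro o _
    simp

private theorem rho_succ {k : ℕ} (hk : 1 ≤ k) (K o : ℕ) :
    rho B (k + 1) K o = ∑ b ∈ Finset.Icc 2 (min B K), q b * rho B k (K - b) o := by
  obtain ⟨k, rfl⟩ := Nat.exists_eq_add_of_le' hk
  rw [rho]

private theorem rho_sum_succ (K k0 : ℕ) (F : ℕ → ℕ → ℝ) :
    ∑ k ∈ Finset.Icc 1 (k0 + 1), ∑ o ∈ Finset.Icc 1 B, rho B k K o * F k o =
      ∑ b ∈ (Finset.Icc 2 B).filter (fun b => K < b), q b * F 1 (b - K) +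
      ∑ b ∈ Finset.Icc 2 (min B K), q b *
        ∑ k ∈ Finset.Icc 1 k0, ∑ o ∈ Finset.Icc 1 B, rho B k (K - b) o * F (k + 1) o := by
  rw [sum_Icc_one_succ, rho_one_sum]
  congr 1
  have h2 : ∀ k ∈ Finset.Icc 1 k0, ∑ o ∈ Finset.Icc 1 B, rho B (k + 1) K o * F (k + 1) o =
      ∑ b ∈ Finset.Icc 2 (min B K), q b * ∑ o ∈ Finset.Icc 1 B, rho B k (K - b) o * F (k + 1) o := by
    intro k hk
    rw [Finset.mem_Icc] at hk
    simp_rw [rho_succ hk.1, Finset.sum_mul, Finset.mul_sum]
    rw [Finset.sum_comm]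
    refine Finset.sum_congr rfl fun b _ => Finset.sum_congr rfl fun o _ => ?_
    ring
  rw [Finset.sum_congr rfl h2, Finset.sum_comm]
  simp_rw [Finset.mul_sum]

private theorem sum_split (K : ℕ) (f : ℕ → ℝ) :
    ∑ b ∈ Finset.Icc 2 B, f b = ∑ b ∈ (Finset.Icc 2 B).filter (fun b => K < b), f b +
      ∑ b ∈ Finset.Icc 2 (min B K), f b := by
  rw [← Finset.sum_filter_add_sum_filter_not (Finset.Icc 2 B) (fun b => K < b)]
  congr 1
  refine Finset.sum_congr ?_ fun _ _ => rfl
  ext b
  simp only [Finset.mem_filter, Finset.mem_Icc]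
  omega

/-- (P1) -/
theorem V_first_passage (K k0 m l : ℕ) (h : k0 ≤ m) :
    V B w m l ≤ ∑ k ∈ Finset.Icc 1 k0, ∑ o ∈ Finset.Icc 1 B,
        rho B k K o * V B w (m - k) (l + K + o) + Pii B k0 K * DD B w (m - k0) := by
  induction k0 generalizing K m l with
  | zero =>
    simp only [Finset.Icc_eq_empty_of_lt (show 0 < 1 by norm_num), Finset.sum_empty, Pii, one_mul,
      zero_add, Nat.sub_zero]
    exact V_le_DD m l
  | succ k0 ih =>
    obtain ⟨m, rfl⟩ : ∃ m', m = m' + 1 := ⟨m - 1, by omega⟩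
    have hV : V B w (m + 1) l ≤ ∑ b ∈ Finset.Icc 2 B, q b * V B w m (l + b) := by
      rw [V]
      refine Finset.sum_le_sum fun b hb => ?_
      rw [Finset.mem_Icc] at hb
      have h1 : (if b = 3 then |Real.cos (Real.pi * w m (l + b))| else 1) ≤ (1 : ℝ) := by
        split_ifs
        · exact Real.abs_cos_le_one _
        · exact le_rfl
      have h2 := q_nonneg hb.1
      have h3 := V_nonneg (B := B) (w := w) m (l + b)
      calc q b * (if b = 3 then |Real.cos (Real.pi * w m (l + b))| else 1) * V B w m (l + b)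
          ≤ q b * 1 * V B w m (l + b) := by gcongr
        _ = q b * V B w m (l + b) := by ring
    refine hV.trans ?_
    rw [rho_sum_succ K k0 (fun k o => V B w (m + 1 - k) (l + K + o)), sum_split K, add_assoc]
    refine add_le_add (le_of_eq ?_) ?_
    · refine Finset.sum_congr rfl fun b hb => ?_
      rw [Finset.mem_filter, Finset.mem_Icc] at hb
      rw [show l + K + (b - K) = l + b by omega, show m + 1 - 1 = m by omega]
    · rw [Pii, Finset.sum_mul, ← Finset.sum_add_distrib]
      refine Finset.sum_le_sum fun b hb => ?_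
      rw [Finset.mem_Icc] at hb
      have h1 := ih (K - b) m (l + b) (by omega)
      have h2 := q_nonneg hb.1
      have h3 : ∀ o, l + b + (K - b) + o = l + K + o := by intro o; omega
      simp_rw [h3] at h1
      have h4 : ∀ k, m + 1 - (k + 1) = m - k := by intro k; omega
      simp_rw [h4]
      calc q b * V B w m (l + b) ≤ q b * (_ + _) := mul_le_mul_of_nonneg_left h1 h2
        _ = _ := by ring

theorem sum_rho_le_one (K k0 : ℕ) :
    ∑ k ∈ Finset.Icc 1 k0, ∑ o ∈ Finset.Icc 1 B, rho B k K o ≤ 1 := by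
  induction k0 generalizing K with
  | zero => simp
  | succ k0 ih =>
    have h := rho_sum_succ (B := B) K k0 (fun _ _ => 1)
    simp only [mul_one] at h
    rw [h]
    calc ∑ b ∈ (Finset.Icc 2 B).filter (fun b => K < b), q b +
          ∑ b ∈ Finset.Icc 2 (min B K), q b *
            ∑ k ∈ Finset.Icc 1 k0, ∑ o ∈ Finset.Icc 1 B, rho B k (K - b) o
        ≤ ∑ b ∈ (Finset.Icc 2 B).filter (fun b => K < b), q b +
          ∑ b ∈ Finset.Icc 2 (min B K), q b := by
          gcongr with b hb
          rw [Finset.mem_Icc] at hb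
          have h2 := q_nonneg hb.1
          have h3 := ih (K - b)
          nlinarith
      _ = ∑ b ∈ Finset.Icc 2 B, q b := (sum_split K q).symm
      _ ≤ 1 := sum_q_le_one B

end Pool.Agent.W_e21d3a_h93
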