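import Pool.Agent.W_e21d3a_h93.F3a

set_option autoImplicit false

/-!
# [NC] F3b: law of the first passage (row 498, (P2))
-/

namespace Pool.Agent.W_e21d3a_h93

variable {B : ℕ} {w : ℕ → ℕ → ℝ}

theorem f3b_hockey (i : ℕ) : ∀ K : ℕ,
    ∑ j ∈ Finset.range K, ((j.choose i : ℕ) : ℝ) = ((K.choose (i + 1) : ℕ) : ℝ)
  | 0 => by simp
  | K + 1 => by
      rw [Finset.sum_range_succ, f3b_hockey i K, Nat.choose_succ_succ]
      push_cast
      ring

theorem f3b_range (i : ℕ) : ∀ K : ℕ,
    ∑ j ∈ Finset.range K, ((K : ℝ) - 1 - j) * ((j.choose i : ℕ) : ℝ)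
      = ((K.choose (i + 2) : ℕ) : ℝ)
  | 0 => by simp
  | K + 1 => by
      rw [Finset.sum_range_succ]
      have h1 : ∑ j ∈ Finset.range K, (((K + 1 : ℕ) : ℝ) - 1 - j) * ((j.choose i : ℕ) : ℝ)
          = ∑ j ∈ Finset.range K, ((K : ℝ) - 1 - j) * ((j.choose i : ℕ) : ℝ)
            + ∑ j ∈ Finset.range K, ((j.choose i : ℕ) : ℝ) := by
        rw [← Finset.sum_add_distrib]
        refine Finset.sum_congr rfl fun j _ => ?_
        push_cast
        ring
      rw [h1, f3b_range i K, f3b_hockey i K]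
      have h2 : ((K + 1).choose (i + 2) : ℕ) = K.choose (i + 1) + K.choose (i + 2) :=
        Nat.choose_succ_succ K (i + 1)
      rw [h2]
      push_cast
      ring

theorem f3b_conv (i K : ℕ) :
    ∑ b ∈ Finset.Icc 2 K, ((b : ℝ) - 1) * (((K - b).choose i : ℕ) : ℝ)
      = ((K.choose (i + 2) : ℕ) : ℝ) := by
  rcases Nat.lt_or_ge K 1 with hK | hK
  · have : K = 0 := by omega
    subst this
    simp
  rw [← f3b_range i K]
  have h0 : Finset.range K = insert (K - 1) (Finset.range (K - 1)) := by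
    have : K = (K - 1) + 1 := by omega
    conv_lhs => rw [this, Finset.range_add_one]
  rw [h0, Finset.sum_insert (by simp)]
  have h1 : ((K : ℝ) - 1 - ((K - 1 : ℕ) : ℝ)) = 0 := by
    rw [Nat.cast_sub hK]
    push_cast
    ring
  rw [h1, zero_mul, zero_add]
  refine Finset.sum_nbij' (fun b => K - b) (fun j => K - j) ?_ ?_ ?_ ?_ ?_
  · intro b hb
    rw [Finset.mem_Icc] at hb
    rw [Finset.mem_range]
    omega
  · intro j hj
    rw [Finset.mem_range] at hj
    rw [Finset.mem_Icc]
    omega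
  · intro b hb
    rw [Finset.mem_Icc] at hb
    show K - (K - b) = b
    omega
  · intro j hj
    rw [Finset.mem_range] at hj
    show K - (K - j) = j
    omega
  · intro b hb
    rw [Finset.mem_Icc] at hb
    show ((b : ℝ) - 1) * (((K - b).choose i : ℕ) : ℝ)
      = ((K : ℝ) - 1 - ((K - b : ℕ) : ℝ)) * (((K - b).choose i : ℕ) : ℝ)
    rw [Nat.cast_sub hb.2]
    ring

/-- (P2); uses `∑_{b=2}^K (b-1) C(K-b,i) = C(K,i+2)` -/
theorem rho_le (k K o : ℕ) (hk : 1 ≤ k) (ho : 1 ≤ o) :
    rho B k K o ≤ (((o : ℝ) - 1) * (K.choose (2 * k - 2) : ℝ) + (K.choose (2 * k - 1) : ℝ))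
      / 2 ^ (K + o) := by
  obtain ⟨k, rfl⟩ : ∃ n, k = n + 1 := ⟨k - 1, by omega⟩
  have hoR : (1 : ℝ) ≤ (o : ℝ) := by exact_mod_cast ho
  clear hk
  induction k generalizing K with
  | zero =>
      show (if K + o ≤ B ∧ 2 ≤ K + o then q (K + o) else 0) ≤ _
      have hr : (((o : ℝ) - 1) * (K.choose (2 * (0 + 1) - 2) : ℝ)
          + (K.choose (2 * (0 + 1) - 1) : ℝ)) / 2 ^ (K + o) = q (K + o) := by
        unfold q
        simp only [Nat.zero_add, Nat.sub_self, Nat.choose_zero_right,
          Nat.cast_one, mul_one, Nat.cast_add]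
        norm_num
        ring
      rw [hr]
      split_ifs with h
      · exact le_refl _
      · unfold q
        apply div_nonneg _ (by positivity)
        push_cast
        have : (0 : ℝ) ≤ (K : ℝ) := Nat.cast_nonneg K
        linarith
  | succ k ih =>
      show ∑ b ∈ Finset.Icc 2 (min B K), q b * rho B (k + 1) (K - b) o ≤ _
      have hq : ∀ b ∈ Finset.Icc 2 K, 0 ≤ q b := by
        intro b hb
        rw [Finset.mem_Icc] at hb
        unfold q
        apply div_nonneg _ (by positivity)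
        have : (2 : ℝ) ≤ (b : ℝ) := by exact_mod_cast hb.1
        linarith
      have h1 : ∑ b ∈ Finset.Icc 2 (min B K), q b * rho B (k + 1) (K - b) o
          ≤ ∑ b ∈ Finset.Icc 2 K, q b * rho B (k + 1) (K - b) o := by
        refine Finset.sum_le_sum_of_subset_of_nonneg ?_ ?_
        · intro b hb
          rw [Finset.mem_Icc] at hb ⊢
          omega
        · intro b hb _
          exact mul_nonneg (hq b hb) (rho_nonneg _ _ _)
      refine h1.trans ?_
      have h2 : ∑ b ∈ Finset.Icc 2 K, q b * rho B (k + 1) (K - b) o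
          ≤ ∑ b ∈ Finset.Icc 2 K, (((o : ℝ) - 1) / 2 ^ (K + o)
              * (((b : ℝ) - 1) * (((K - b).choose (2 * k) : ℕ) : ℝ))
              + 1 / 2 ^ (K + o)
              * (((b : ℝ) - 1) * (((K - b).choose (2 * k + 1) : ℕ) : ℝ))) := by
        refine Finset.sum_le_sum fun b hb => ?_
        have hb' := hb
        rw [Finset.mem_Icc] at hb'
        have e1 : 2 * (k + 1) - 2 = 2 * k := by omega
        have e2 : 2 * (k + 1) - 1 = 2 * k + 1 := by omega
        have h3 := mul_le_mul_of_nonneg_left (ih (K - b)) (hq b hb)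
        rw [e1, e2] at h3
        refine h3.trans (le_of_eq ?_)
        have e3 : (2 : ℝ) ^ (K + o) = 2 ^ b * 2 ^ (K - b + o) := by
          rw [← pow_add]
          congr 1
          omega
        rw [e3]
        unfold q
        have hp1 : (2 : ℝ) ^ b ≠ 0 := by positivity
        have hp2 : (2 : ℝ) ^ (K - b + o) ≠ 0 := by positivity
        field_simp
      refine h2.trans (le_of_eq ?_)
      rw [Finset.sum_add_distrib, ← Finset.mul_sum, ← Finset.mul_sum, f3b_conv, f3b_conv]
      have e1 : 2 * (k + 1 + 1) - 2 = 2 * k + 2 := by omega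
      have e2 : 2 * (k + 1 + 1) - 1 = 2 * k + 1 + 2 := by omega
      rw [e1, e2]
      ring

end Pool.Agent.W_e21d3a_h93
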