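import Pool.Agent.W_e21d3a_h93.F3a

set_option autoImplicit false

/-!
# [NC] F3c: late passage (row 498, (P3))
-/

namespace Pool.Agent.W_e21d3a_h93

variable {B : ℕ} {w : ℕ → ℕ → ℝ}

theorem F3c_sum (n : ℕ) : ∑ b ∈ Finset.range n, ((b : ℝ)) * (5 / 11) ^ (b + 1)
    = 25 / 36 - (5 / 11) ^ (n + 1) * ((n : ℝ) * (6 / 11) + 5 / 11) / (36 / 121) := by
  induction n with
  | zero => norm_num
  | succ n ih =>
    rw [Finset.sum_range_succ, ih]
    push_cast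
    ring

theorem F3c_sum_le (n : ℕ) : ∑ b ∈ Finset.range n, ((b : ℝ)) * (5 / 11) ^ (b + 1) ≤ 25 / 36 := by
  rw [F3c_sum]
  have : 0 ≤ (5 / 11 : ℝ) ^ (n + 1) * ((n : ℝ) * (6 / 11) + 5 / 11) / (36 / 121) := by positivity
  linarith

theorem F3c_q_sum (N : ℕ) : ∑ b ∈ Finset.Icc 2 N, q b * (10 / 11) ^ b ≤ 25 / 36 := by
  refine le_trans ?_ (F3c_sum_le N)
  have h1 : ∑ b ∈ Finset.range N, ((b : ℝ)) * (5 / 11) ^ (b + 1)
      = ∑ b ∈ Finset.Icc 1 N, ((b : ℝ) - 1) * (5 / 11) ^ b := by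
    have h0 := Finset.sum_Ico_add' (fun b : ℕ => ((b : ℝ) - 1) * (5 / 11) ^ b) 0 N 1
    rw [Finset.range_eq_Ico, show Finset.Icc 1 N = Finset.Ico (0 + 1) (N + 1) from by
      ext b; simp only [Finset.mem_Icc, Finset.mem_Ico]; omega, ← h0]
    apply Finset.sum_congr rfl
    intro b _
    push_cast
    ring
  rw [h1]
  have h2 : ∀ b ∈ Finset.Icc 2 N, q b * (10 / 11 : ℝ) ^ b = ((b : ℝ) - 1) * (5 / 11) ^ b := by
    intro b _
    have : (5 / 11 : ℝ) ^ b = (10 / 11) ^ b / 2 ^ b := by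
      rw [← div_pow]; norm_num
    rw [this]
    unfold q
    ring
  rw [Finset.sum_congr rfl h2]
  apply Finset.sum_le_sum_of_subset_of_nonneg
  · intro b hb
    rw [Finset.mem_Icc] at hb ⊢
    omega
  · intro b hb _
    rw [Finset.mem_Icc] at hb
    have : (1 : ℝ) ≤ b := by exact_mod_cast hb.1
    have h3 : 0 ≤ (b : ℝ) - 1 := by linarith
    positivity

theorem F3c_q_nonneg {b : ℕ} (hb : 2 ≤ b) : 0 ≤ q b := by
  unfold q
  have : (2 : ℝ) ≤ b := by exact_mod_cast hb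
  have h3 : 0 ≤ (b : ℝ) - 1 := by linarith
  positivity

/-- (P3) with `z = 11/10`: `∑_b q(b) z^{-b} = (2z-1)^{-2} = (5/6)^2` -/
theorem Pii_le (k K : ℕ) : Pii B k K ≤ (11 / 10) ^ K * (5 / 6) ^ (2 * k) := by
  induction k generalizing K with
  | zero =>
    simp only [Pii, mul_zero, pow_zero, mul_one]
    exact one_le_pow₀ (by norm_num)
  | succ k ih =>
    simp only [Pii]
    have h1 : ∀ b ∈ Finset.Icc 2 (min B K), q b * Pii B k (K - b)
        ≤ (11 / 10) ^ K * (5 / 6) ^ (2 * k) * (q b * (10 / 11) ^ b) := by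
      intro b hb
      rw [Finset.mem_Icc] at hb
      have hbK : b ≤ K := le_trans hb.2 (min_le_right _ _)
      have h2 : (11 / 10 : ℝ) ^ (K - b) = (11 / 10) ^ K * (10 / 11) ^ b := by
        obtain ⟨d, rfl⟩ := Nat.exists_eq_add_of_le hbK
        rw [Nat.add_sub_cancel_left, pow_add]
        have h4 : (11 / 10 : ℝ) ^ b * (10 / 11) ^ b = 1 := by
          rw [← mul_pow]; norm_num
        calc (11 / 10 : ℝ) ^ d = (11 / 10 : ℝ) ^ d * 1 := by ring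
          _ = (11 / 10 : ℝ) ^ d * ((11 / 10 : ℝ) ^ b * (10 / 11) ^ b) := by rw [h4]
          _ = (11 / 10) ^ b * (11 / 10) ^ d * (10 / 11) ^ b := by ring
      have h3 := mul_le_mul_of_nonneg_left (ih (K - b)) (F3c_q_nonneg hb.1)
      rw [h2] at h3
      calc q b * Pii B k (K - b) ≤ _ := h3
        _ = _ := by ring
    refine le_trans (Finset.sum_le_sum h1) ?_
    rw [← Finset.mul_sum]
    have h5 := mul_le_mul_of_nonneg_left (F3c_q_sum (min B K))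
      (show (0 : ℝ) ≤ (11 / 10) ^ K * (5 / 6) ^ (2 * k) by positivity)
    refine le_trans h5 (le_of_eq ?_)
    rw [show 2 * (k + 1) = 2 * k + 2 by ring, pow_add]
    norm_num
    ring

theorem Pii_nonneg' (k K : ℕ) : 0 ≤ Pii B k K := by
  induction k generalizing K with
  | zero => simp [Pii]
  | succ k ih =>
    simp only [Pii]
    apply Finset.sum_nonneg
    intro b hb
    rw [Finset.mem_Icc] at hb
    exact mul_nonneg (F3c_q_nonneg hb.1) (ih _)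

/-- `((11/10)^50 (5/6)^27) < 0.86`; for `100 k ≥ 27 K` the probability tends to `0` with `K` -/
theorem Pii_small {δ : ℝ} (hδ : 0 < δ) : ∃ K0 : ℕ, ∀ (B k K : ℕ), K0 ≤ K → 27 * K ≤ 100 * k →
    Pii B k K ≤ δ := by
  have hc : (11 / 10 : ℝ) ^ 50 * (5 / 6) ^ 27 < 1 := by norm_num
  have hc0 : (0 : ℝ) ≤ (11 / 10 : ℝ) ^ 50 * (5 / 6) ^ 27 := by positivity
  obtain ⟨K0, hK0⟩ := exists_pow_lt_of_lt_one (show (0 : ℝ) < δ ^ 50 by positivity) hc
  refine ⟨K0, fun B k K hK hk => ?_⟩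
  by_contra hcon
  push Not at hcon
  have h1 : δ ^ 50 < (Pii B k K) ^ 50 := pow_lt_pow_left₀ hcon hδ.le (by norm_num)
  have h2 : (Pii B k K) ^ 50 ≤ ((11 / 10) ^ K * (5 / 6) ^ (2 * k)) ^ 50 :=
    pow_le_pow_left₀ (Pii_nonneg' k K) (Pii_le k K) 50
  have h3 : (((11 / 10 : ℝ)) ^ K * (5 / 6) ^ (2 * k)) ^ 50
      ≤ ((11 / 10 : ℝ) ^ 50 * (5 / 6) ^ 27) ^ K := by
    have e1 : (((11 / 10 : ℝ)) ^ K * (5 / 6) ^ (2 * k)) ^ 50
        = (11 / 10) ^ (50 * K) * (5 / 6) ^ (100 * k) := by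
      rw [mul_pow, ← pow_mul, ← pow_mul]
      congr 2 <;> ring
    have e2 : ((11 / 10 : ℝ) ^ 50 * (5 / 6) ^ 27) ^ K
        = (11 / 10) ^ (50 * K) * (5 / 6) ^ (27 * K) := by
      rw [mul_pow, ← pow_mul, ← pow_mul]
    rw [e1, e2]
    apply mul_le_mul_of_nonneg_left _ (by positivity)
    exact pow_le_pow_of_le_one (by norm_num) (by norm_num) hk
  have h4 : ((11 / 10 : ℝ) ^ 50 * (5 / 6) ^ 27) ^ K ≤ ((11 / 10 : ℝ) ^ 50 * (5 / 6) ^ 27) ^ K0 :=
    pow_le_pow_of_le_one hc0 hc.le hK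
  linarith

end Pool.Agent.W_e21d3a_h93
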