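import Pool.Agent.W_e21d3a_h93.F2a

set_option autoImplicit false

/-!
# [NC] F4a: paths
-/

namespace Pool.Agent.W_e21d3a_h93

variable {B : ℕ} {w : ℕ → ℕ → ℝ}

theorem mem_paths {n : ℕ} {β : List ℕ} :
    β ∈ paths B n ↔ β.length = n ∧ ∀ b ∈ β, 2 ≤ b ∧ b ≤ B := by
  induction n generalizing β with
  | zero =>
    simp only [paths, Finset.mem_singleton]
    constructor
    · rintro rfl; simp
    · rintro ⟨h, -⟩; exact List.length_eq_zero_iff.mp h
  | succ n ih =>
    simp only [paths, Finset.mem_biUnion, Finset.mem_Icc, Finset.mem_image]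
    constructor
    · rintro ⟨b, hb, γ, hγ, rfl⟩
      have h := ih.mp hγ
      refine ⟨by simp [h.1], ?_⟩
      intro x hx
      rcases List.mem_cons.mp hx with rfl | hx
      · exact hb
      · exact h.2 x hx
    · rintro ⟨hl, hb⟩
      cases β with
      | nil => simp at hl
      | cons b γ =>
        refine ⟨b, hb b (by simp), γ, ih.mpr ⟨by simpa using hl, ?_⟩, rfl⟩
        intro x hx
        exact hb x (by simp [hx])

theorem sum_paths_succ {M : Type*} [AddCommMonoid M] (n : ℕ) (F : List ℕ → M) :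
    ∑ β ∈ paths B (n + 1), F β = ∑ b ∈ Finset.Icc 2 B, ∑ β ∈ paths B n, F (b :: β) := by
  simp only [paths]
  rw [Finset.sum_biUnion]
  · refine Finset.sum_congr rfl fun b _ => ?_
    rw [Finset.sum_image]
    intro x _ y _ hxy
    exact (List.cons.inj hxy).2
  · intro b _ b' _ hbb
    rw [Function.onFun, Finset.disjoint_left]
    intro x hx hx'
    obtain ⟨y, _, rfl⟩ := Finset.mem_image.mp hx
    obtain ⟨z, _, hz⟩ := Finset.mem_image.mp hx'
    exact hbb (List.cons.inj hz).1.symm

theorem wt_cons (b : ℕ) (β : List ℕ) : wt (b :: β) = q b * wt β := by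
  simp [wt]

theorem wt_nonneg {n : ℕ} {β : List ℕ} (h : β ∈ paths B n) : 0 ≤ wt β := by
  have h2 := (mem_paths.mp h).2
  unfold wt
  apply List.prod_nonneg
  intro x hx
  obtain ⟨b, hb, rfl⟩ := List.mem_map.mp hx
  exact q_nonneg (h2 b hb).1

theorem sum_wt_le_one (n : ℕ) : ∑ β ∈ paths B n, wt β ≤ 1 := by
  induction n with
  | zero => simp [paths, wt]
  | succ n ih =>
    rw [sum_paths_succ]
    calc ∑ b ∈ Finset.Icc 2 B, ∑ β ∈ paths B n, wt (b :: β)
        = ∑ b ∈ Finset.Icc 2 B, q b * ∑ β ∈ paths B n, wt β := by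
          refine Finset.sum_congr rfl fun b _ => ?_
          rw [Finset.mul_sum]
          exact Finset.sum_congr rfl fun β _ => wt_cons b β
      _ ≤ ∑ b ∈ Finset.Icc 2 B, q b * 1 := by
          refine Finset.sum_le_sum fun b hb => ?_
          exact mul_le_mul_of_nonneg_left ih (q_nonneg (Finset.mem_Icc.mp hb).1)
      _ ≤ 1 := by simpa using sum_q_le_one B

/-- expectation of a partial sum is at most `4a` -/
theorem sum_wt_take (n a : ℕ) (h : a ≤ n) :
    ∑ β ∈ paths B n, wt β * ((β.take a).sum : ℝ) ≤ 4 * a := by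
  induction n generalizing a with
  | zero =>
    obtain rfl : a = 0 := by omega
    simp
  | succ n ih =>
    rcases a with _ | a
    · simp
    have ih' := ih a (by omega)
    rw [sum_paths_succ]
    have e : ∀ b ∈ Finset.Icc 2 B,
        ∑ β ∈ paths B n, wt (b :: β) * ((((b :: β).take (a + 1)).sum : ℕ) : ℝ)
          = (q b * b) * ∑ β ∈ paths B n, wt β
            + q b * ∑ β ∈ paths B n, wt β * (((β.take a).sum : ℕ) : ℝ) := by
      intro b _
      rw [Finset.mul_sum, Finset.mul_sum, ← Finset.sum_add_distrib]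
      refine Finset.sum_congr rfl fun β _ => ?_
      rw [wt_cons, List.take_succ_cons, List.sum_cons]
      push_cast
      ring
    rw [Finset.sum_congr rfl e, Finset.sum_add_distrib]
    have h1 : ∑ b ∈ Finset.Icc 2 B, (q b * b) * ∑ β ∈ paths B n, wt β ≤ 4 := by
      calc ∑ b ∈ Finset.Icc 2 B, (q b * b) * ∑ β ∈ paths B n, wt β
          ≤ ∑ b ∈ Finset.Icc 2 B, (q b * b) * 1 := by
            refine Finset.sum_le_sum fun b hb => ?_
            exact mul_le_mul_of_nonneg_left (sum_wt_le_one n)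
              (mul_nonneg (q_nonneg (Finset.mem_Icc.mp hb).1) (Nat.cast_nonneg b))
        _ ≤ 4 := by simpa using sum_q_mul_le B
    have h2 : ∑ b ∈ Finset.Icc 2 B,
        q b * ∑ β ∈ paths B n, wt β * (((β.take a).sum : ℕ) : ℝ) ≤ 4 * a := by
      calc ∑ b ∈ Finset.Icc 2 B, q b * ∑ β ∈ paths B n, wt β * (((β.take a).sum : ℕ) : ℝ)
          ≤ ∑ b ∈ Finset.Icc 2 B, q b * (4 * a) := by
            refine Finset.sum_le_sum fun b hb => ?_
            exact mul_le_mul_of_nonneg_left ih' (q_nonneg (Finset.mem_Icc.mp hb).1)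
        _ = (∑ b ∈ Finset.Icc 2 B, q b) * (4 * a) := by rw [Finset.sum_mul]
        _ ≤ 1 * (4 * a) := mul_le_mul_of_nonneg_right (sum_q_le_one B) (by positivity)
        _ = 4 * a := one_mul _
    have h3 : (4 : ℝ) * ((a + 1 : ℕ) : ℝ) = 4 + 4 * a := by push_cast; ring
    rw [h3]
    exact add_le_add h1 h2

end Pool.Agent.W_e21d3a_h93
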