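import Pool.Agent.W_e21d3a_h93.F4a
import Pool.Agent.W_e21d3a_h93.F2b

set_option autoImplicit false

/-!
# [NC] F4b: expansion over further steps and pigeonhole (row 498, 4.4 first paragraph)
-/

namespace Pool.Agent.W_e21d3a_h93

variable {B : ℕ} {w : ℕ → ℕ → ℝ}

open Classical in
/-- number of cuts along the path -/
noncomputable def F4b_cutN (w : ℕ → ℕ → ℝ) : ℕ → ℕ → List ℕ → ℕ
  | _, _, [] => 0
  | 0, _, _ :: _ => 0
  | m + 1, l, b :: β => (if Internal w m l b then 0 else 1) + F4b_cutN w m (l + b) β

theorem F4b_cutN_append (α β : List ℕ) : ∀ m l : ℕ, α.length ≤ m →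
    F4b_cutN w m l (α ++ β) =
      F4b_cutN w m l α + F4b_cutN w (m - α.length) (l + α.sum) β := by
  induction α with
  | nil => intro m l _; simp [F4b_cutN]
  | cons a α ih =>
    intro m l h
    obtain ⟨m, rfl⟩ : ∃ m', m = m' + 1 := ⟨m - 1, by simp at h; omega⟩
    have h' : α.length ≤ m := by simpa using h
    have e1 : m + 1 - (a :: α).length = m - α.length := by simp
    have e2 : l + (a :: α).sum = l + a + α.sum := by simp [add_assoc]
    rw [e1, e2, List.cons_append, F4b_cutN, F4b_cutN, ih m (l + a) h', ← add_assoc]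

theorem F4b_noCut (hw : Sys w) : ∀ (β : List ℕ) (m l : ℕ), β ≠ [] → (∀ b ∈ β, 2 ≤ b) →
    β.length ≤ m → F4b_cutN w m l β = 0 → Black w m l ∧ β.sum ≤ KK w m l := by
  intro β
  induction β with
  | nil => intro m l h; exact absurd rfl h
  | cons b β ih =>
    intro m l _ h2 hlen hc
    obtain ⟨m, rfl⟩ : ∃ m', m = m' + 1 := ⟨m - 1, by simp at hlen; omega⟩
    have hlen' : β.length ≤ m := by simpa using hlen
    rw [F4b_cutN] at hc
    have hI : Internal w m l b := by
      by_contra hI
      rw [if_neg hI] at hc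
      omega
    rw [if_pos hI, zero_add] at hc
    have hb2 : 2 ≤ b := h2 b (by simp)
    have hKK := hw.internal_KK hb2 hI
    refine ⟨hI.1, ?_⟩
    rcases eq_or_ne β [] with rfl | hne
    · simpa using hI.2.1
    · have := (ih m (l + b) hne (fun x hx => h2 x (by simp [hx])) hlen' hc).2
      rw [hKK] at this
      have h3 := hI.2.1
      rw [List.sum_cons]
      omega

theorem F4b_gf_nonneg (m l b : ℕ) : 0 ≤ gf w m l b := by
  unfold gf
  split_ifs
  · have := ka_lt_one; linarith
  · norm_num

theorem F4b_gf_le_one (m l b : ℕ) : gf w m l b ≤ 1 := by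
  unfold gf
  split_ifs
  · have := ka_pos; linarith
  · norm_num

open Classical in
theorem F4b_V_le : ∀ (R m l c : ℕ), R ≤ m →
    V B w m l ≤ DD B w (m - R) * (U B w R c m l +
      ∑ β ∈ paths B R, if F4b_cutN w m l β < c then wt β else 0) := by
  intro R
  induction R with
  | zero =>
    intro m l c _
    have e : (U B w 0 c m l + ∑ β ∈ paths B 0, if F4b_cutN w m l β < c then wt β else 0) = 1 := by
      rcases Nat.eq_zero_or_pos c with rfl | hc
      · simp [U, paths, F4b_cutN]
      · have : c ≠ 0 := by omega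
        simp [U, paths, F4b_cutN, wt, hc, this]
    rw [e, mul_one]
    exact V_le_DD m l
  | succ R ih =>
    intro m l c h
    obtain ⟨m, rfl⟩ : ∃ m', m = m' + 1 := ⟨m - 1, by omega⟩
    have h' : R ≤ m := by omega
    have e0 : m + 1 - (R + 1) = m - R := by omega
    rw [e0, V, U, sum_paths_succ, ← Finset.sum_add_distrib, Finset.mul_sum]
    refine Finset.sum_le_sum fun b hb => ?_
    have hb2 : 2 ≤ b := (Finset.mem_Icc.mp hb).1
    have hq := q_nonneg hb2
    have hg0 := F4b_gf_nonneg (w := w) m l b
    have hg1 := F4b_gf_le_one (w := w) m l b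
    have hf := factor_le (w := w) m l b
    set c' := if Internal w m l b then c else c - 1 with hc'
    have ihb := ih m (l + b) c' h'
    have hD := DD_nonneg (B := B) (w := w) (m - R)
    have hV := V_nonneg (B := B) (w := w) m (l + b)
    have hsum : (∑ β ∈ paths B R, if F4b_cutN w (m + 1) l (b :: β) < c then wt (b :: β) else 0)
        = q b * ∑ β ∈ paths B R, if F4b_cutN w m (l + b) β < c' then wt β else 0 := by
      rw [Finset.mul_sum]
      refine Finset.sum_congr rfl fun β _ => ?_
      have hiff : F4b_cutN w (m + 1) l (b :: β) < c ↔ F4b_cutN w m (l + b) β < c' := by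
        rw [F4b_cutN, hc']
        split_ifs
        · rw [zero_add]
        · omega
      have hwt : wt (b :: β) = q b * wt β := by simp [wt]
      rw [hwt]
      by_cases hx : F4b_cutN w m (l + b) β < c'
      · rw [if_pos hx, if_pos (hiff.mpr hx)]
      · rw [if_neg hx, if_neg (fun h => hx (hiff.mp h)), mul_zero]
    have hS0 : 0 ≤ ∑ β ∈ paths B R, if F4b_cutN w m (l + b) β < c' then wt β else 0 := by
      refine Finset.sum_nonneg fun β hβ => ?_
      split_ifs
      · exact wt_nonneg hβ
      · exact le_refl 0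
    set S := ∑ β ∈ paths B R, if F4b_cutN w m (l + b) β < c' then wt β else 0 with hS
    set W := U B w R c' m (l + b) with hW
    have hW0 : 0 ≤ W := U_nonneg R c' m (l + b)
    rw [hsum]
    calc q b * (if b = 3 then |Real.cos (Real.pi * w m (l + b))| else 1) * V B w m (l + b)
        ≤ q b * gf w m l b * V B w m (l + b) := by gcongr
      _ ≤ q b * gf w m l b * (DD B w (m - R) * (W + S)) := by gcongr
      _ = DD B w (m - R) * (q b * gf w m l b * W + q b * (gf w m l b * S)) := by ring
      _ ≤ DD B w (m - R) * (q b * gf w m l b * W + q b * (1 * S)) := by gcongr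
      _ = DD B w (m - R) * (q b * gf w m l b * W + q b * S) := by rw [one_mul]

theorem F4b_pigeon (hw : Sys w) (u : ℕ → ℕ) (hu : ∀ r, u r < u (r + 1))
    (n m l : ℕ) (hm : u n ≤ m) (β : List ℕ) (hβ : β ∈ paths B (u n))
    (hs : ∀ r < n, ¬ Stay w m l β (u r) (u (r + 1))) :
    ∀ r ≤ n, r ≤ F4b_cutN w m l (β.take (u r)) := by
  obtain ⟨hlen, hall⟩ := mem_paths.mp hβ
  have humono : StrictMono u := strictMono_nat_of_lt_succ hu
  intro r
  induction r with
  | zero => intro _; exact Nat.zero_le _
  | succ r ih =>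
    intro hr
    have ih' := ih (by omega)
    have hlt := hu r
    have hle : u (r + 1) ≤ u n := humono.monotone hr
    obtain ⟨d, hd⟩ : ∃ d, u (r + 1) = u r + d := ⟨u (r + 1) - u r, by omega⟩
    have hd1 : 1 ≤ d := by omega
    have htake : β.take (u (r + 1)) = β.take (u r) ++ (β.drop (u r)).take d := by
      rw [hd, List.take_add]
    have hlenT : (β.take (u r)).length = u r := by
      rw [List.length_take]; omega
    have hlenG : ((β.drop (u r)).take d).length = d := by
      rw [List.length_take, List.length_drop]; omega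
    have happ := F4b_cutN_append (w := w) (β.take (u r)) ((β.drop (u r)).take d) m l
      (by rw [hlenT]; omega)
    rw [hlenT] at happ
    rw [htake, happ]
    by_contra hcon
    have h0 : F4b_cutN w (m - u r) (l + (β.take (u r)).sum) ((β.drop (u r)).take d) = 0 := by
      omega
    have hne : (β.drop (u r)).take d ≠ [] := by
      intro h
      rw [h] at hlenG
      simp at hlenG
      omega
    have hno := F4b_noCut hw ((β.drop (u r)).take d) (m - u r) (l + (β.take (u r)).sum) hne
      (fun b hb => (hall b (List.mem_of_mem_drop (List.mem_of_mem_take hb))).1)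
      (by rw [hlenG]; omega) h0
    refine hs r (by omega) ⟨hno.1, ?_⟩
    rw [htake, List.sum_append, Nat.add_sub_cancel_left]
    exact hno.2

open Classical in
/-- for `0 = u 0 < u 1 < ... < u (3r') = K₁ ≤ m`:
`V(m,l) ≤ D(m-K₁) [ (1-κ c₂)^{r'} + ∑_{r<3r'} P(no cut in the steps u r + 1, ..., u (r+1)) ]`
and no cut implies `Stay`. Pigeonhole: fewer than `3r'` cuts leave one of the `3r'` intervals free. -/
theorem V_expand (hw : Sys w) (u : ℕ → ℕ) (hu0 : u 0 = 0) (hu : ∀ r, u r < u (r + 1)) (r' m l : ℕ)
    (hm : u (3 * r') ≤ m) :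
    V B w m l ≤ DD B w (m - u (3 * r')) * ((1 - ka * c2) ^ r' +
      ∑ r ∈ Finset.range (3 * r'), ∑ β ∈ paths B (u (3 * r')),
        if Stay w m l β (u r) (u (r + 1)) then wt β else 0) := by
  refine (F4b_V_le (u (3 * r')) m l (3 * r') hm).trans ?_
  refine mul_le_mul_of_nonneg_left ?_ (DD_nonneg _)
  refine add_le_add (U_le hw _ _ _ _) ?_
  rw [Finset.sum_comm]
  refine Finset.sum_le_sum fun β hβ => ?_
  have hw0 := wt_nonneg hβ
  have hnn : ∀ r ∈ Finset.range (3 * r'),
      0 ≤ (if Stay w m l β (u r) (u (r + 1)) then wt β else 0) := by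
    intro r _
    split_ifs
    · exact hw0
    · exact le_refl 0
  by_cases hc : F4b_cutN w m l β < 3 * r'
  · rw [if_pos hc]
    obtain ⟨r, hr, hst⟩ : ∃ r < 3 * r', Stay w m l β (u r) (u (r + 1)) := by
      by_contra hcon
      push Not at hcon
      have := F4b_pigeon hw u hu (3 * r') m l hm β hβ hcon (3 * r') le_rfl
      have hlen := (mem_paths.mp hβ).1
      rw [List.take_of_length_le (by omega)] at this
      omega
    calc wt β = (if Stay w m l β (u r) (u (r + 1)) then wt β else 0) := by rw [if_pos hst]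
      _ ≤ _ := Finset.single_le_sum (f := fun r =>
          if Stay w m l β (u r) (u (r + 1)) then wt β else 0) hnn (Finset.mem_range.mpr hr)
  · rw [if_neg hc]
    exact Finset.sum_nonneg hnn

end Pool.Agent.W_e21d3a_h93
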