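import Pool.Agent.W_e21d3a_h93.FDefs

set_option autoImplicit false

/-!
# [NC] F5a: UNI: greedy groups (row 498, 4.4)
-/

namespace Pool.Agent.W_e21d3a_h93

private theorem f5a_tv (a : ℕ → ℝ) (p k : ℕ) :
    |a (p + k) - a p| ≤ ∑ i ∈ Finset.Ico p (p + k), |a (i + 1) - a i| := by
  induction k with
  | zero => simp
  | succ k ih =>
    rw [← Nat.add_assoc, Finset.sum_Ico_succ_top (by omega)]
    have h : a (p + k + 1) - a p = (a (p + k) - a p) + (a (p + k + 1) - a (p + k)) := by ring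
    rw [h]
    exact (abs_add_le _ _).trans (by linarith)

private theorem f5a_tv2 (a : ℕ → ℝ) (g L i j : ℕ) (hi : g ≤ i) (hi' : i < g + L) (hj : g ≤ j)
    (hj' : j < g + L) : a i ≤ a j + ∑ t ∈ Finset.Ico g (g + L), |a (t + 1) - a t| := by
  have hsub : ∀ p q, g ≤ p → q ≤ g + L →
      ∑ t ∈ Finset.Ico p q, |a (t + 1) - a t| ≤ ∑ t ∈ Finset.Ico g (g + L), |a (t + 1) - a t| :=
    fun p q hp hq => Finset.sum_le_sum_of_subset_of_nonneg (Finset.Ico_subset_Ico hp hq)
      (fun _ _ _ => abs_nonneg _)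
  rcases le_total i j with h | h
  · have h1 := f5a_tv a i (j - i)
    rw [Nat.add_sub_cancel' h] at h1
    have h2 := hsub i j hi hj'.le
    have h3 := abs_le.1 h1
    linarith [h3.1]
  · have h1 := f5a_tv a j (i - j)
    rw [Nat.add_sub_cancel' h] at h1
    have h2 := hsub j i hj hi'.le
    have h3 := abs_le.1 h1
    linarith [h3.2]

private theorem f5a_group (a : ℕ → ℝ) (g L i : ℕ) (hL : 1 ≤ L) (hi : g ≤ i) (hi' : i < g + L) :
    a i ≤ (∑ t ∈ Finset.Ico g (g + L), a t) / L +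
      ∑ t ∈ Finset.Ico g (g + L), |a (t + 1) - a t| := by
  have hL0 : (0 : ℝ) < L := by exact_mod_cast hL
  have h1 : ∑ _j ∈ Finset.Ico g (g + L), a i ≤ ∑ j ∈ Finset.Ico g (g + L),
      (a j + ∑ t ∈ Finset.Ico g (g + L), |a (t + 1) - a t|) := by
    apply Finset.sum_le_sum
    intro j hj
    rw [Finset.mem_Ico] at hj
    exact f5a_tv2 a g L i j hi hi' hj.1 hj.2
  rw [Finset.sum_add_distrib, Finset.sum_const, Finset.sum_const, Nat.card_Ico,
    Nat.add_sub_cancel_left, nsmul_eq_mul, nsmul_eq_mul] at h1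
  have h2 : (∑ t ∈ Finset.Ico g (g + L), a t) / L +
      ∑ t ∈ Finset.Ico g (g + L), |a (t + 1) - a t| =
      (∑ t ∈ Finset.Ico g (g + L), a t + L * ∑ t ∈ Finset.Ico g (g + L), |a (t + 1) - a t|) / L := by
    field_simp
  rw [h2, le_div_iff₀ hL0]
  linarith

private theorem f5a_key (a : ℕ → ℝ) (ha : ∀ i, 0 ≤ a i) (L : ℕ) (hL : 1 ≤ L) (v : ℝ) (hv : 0 ≤ v)
    (M : ℕ) : ∀ (n : ℕ) (I : Finset ℕ) (g : ℕ), I.card = n → (∀ i ∈ I, g ≤ i ∧ i + L ≤ M) →
    (∀ i ∈ I, ∀ i' ∈ I, i ≤ i' → i' < i + L → ((i' - i : ℕ) : ℝ) ≤ v) →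
    ∑ i ∈ I, a i ≤ (v + 1) * ((∑ t ∈ Finset.Ico g M, a t) / L +
      ∑ t ∈ Finset.Ico g M, |a (t + 1) - a t|) := by
  have hL0 : (0 : ℝ) < L := by exact_mod_cast hL
  intro n
  induction n using Nat.strong_induction_on with
  | _ n ih =>
    intro I g hn hI hv2
    rcases I.eq_empty_or_nonempty with rfl | hne
    · rw [Finset.sum_empty]
      have h1 : 0 ≤ ∑ t ∈ Finset.Ico g M, a t := Finset.sum_nonneg (fun i _ => ha i)
      have h2 : 0 ≤ ∑ t ∈ Finset.Ico g M, |a (t + 1) - a t| :=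
        Finset.sum_nonneg (fun i _ => abs_nonneg _)
      positivity
    · obtain ⟨m, hm, hmin⟩ : ∃ m ∈ I, ∀ i ∈ I, m ≤ i := ⟨I.min' hne, I.min'_mem hne,
        fun i hi => I.min'_le i hi⟩
      have hgm := (hI m hm).1
      have hmM := (hI m hm).2
      set J := I.filter (fun i => i < m + L) with hJ
      set K := I.filter (fun i => ¬ i < m + L) with hK
      have hsplit : ∑ i ∈ I, a i = ∑ i ∈ J, a i + ∑ i ∈ K, a i :=
        (Finset.sum_filter_add_sum_filter_not I _ _).symm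
      have hmJ : m ∈ J := by
        rw [hJ, Finset.mem_filter]
        exact ⟨hm, by omega⟩
      have hcard : K.card < n := by
        have h1 : J.card + K.card = I.card := Finset.card_filter_add_card_filter_not _
        have h2 : 0 < J.card := Finset.card_pos.2 ⟨m, hmJ⟩
        omega
      have hKb := ih K.card hcard K (m + L) rfl (by
          intro i hi
          rw [hK, Finset.mem_filter] at hi
          exact ⟨by omega, (hI i hi.1).2⟩) (by
          intro i hi i' hi' h1 h2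
          rw [hK, Finset.mem_filter] at hi hi'
          exact hv2 i hi.1 i' hi'.1 h1 h2)
      -- the group
      set G := (∑ t ∈ Finset.Ico m (m + L), a t) / L +
        ∑ t ∈ Finset.Ico m (m + L), |a (t + 1) - a t| with hG
      have hG0 : 0 ≤ G := (ha m).trans (f5a_group a m L m hL le_rfl (by omega))
      have hJcard : (J.card : ℝ) ≤ v + 1 := by
        have h1 : J ⊆ Finset.Icc m (m + ⌊v⌋₊) := by
          intro i hi
          rw [hJ, Finset.mem_filter] at hi
          have h2 := hv2 m hm i hi.1 (hmin i hi.1) hi.2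
          have h3 : i - m ≤ ⌊v⌋₊ := Nat.le_floor h2
          have h4 := hmin i hi.1
          rw [Finset.mem_Icc]
          omega
        have h2 := Finset.card_le_card h1
        rw [Nat.card_Icc] at h2
        have h3 : J.card ≤ ⌊v⌋₊ + 1 := by omega
        have h4 : (⌊v⌋₊ : ℝ) ≤ v := Nat.floor_le hv
        have h5 : (J.card : ℝ) ≤ (⌊v⌋₊ : ℝ) + 1 := by exact_mod_cast h3
        linarith
      have hJb : ∑ i ∈ J, a i ≤ (v + 1) * G := by
        have h1 : ∑ i ∈ J, a i ≤ ∑ _i ∈ J, G := by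
          apply Finset.sum_le_sum
          intro i hi
          rw [hJ, Finset.mem_filter] at hi
          exact f5a_group a m L i hL (hmin i hi.1) hi.2
        rw [Finset.sum_const, nsmul_eq_mul] at h1
        exact h1.trans (mul_le_mul_of_nonneg_right hJcard hG0)
      have e1 : ∑ t ∈ Finset.Ico m M, a t =
          ∑ t ∈ Finset.Ico m (m + L), a t + ∑ t ∈ Finset.Ico (m + L) M, a t :=
        (Finset.sum_Ico_consecutive _ (by omega) hmM).symm
      have e2 : ∑ t ∈ Finset.Ico m M, |a (t + 1) - a t| =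
          ∑ t ∈ Finset.Ico m (m + L), |a (t + 1) - a t| +
          ∑ t ∈ Finset.Ico (m + L) M, |a (t + 1) - a t| :=
        (Finset.sum_Ico_consecutive _ (by omega) hmM).symm
      have e3 : ∑ t ∈ Finset.Ico m M, a t ≤ ∑ t ∈ Finset.Ico g M, a t :=
        Finset.sum_le_sum_of_subset_of_nonneg (Finset.Ico_subset_Ico hgm le_rfl)
          (fun i _ _ => ha i)
      have e4 : ∑ t ∈ Finset.Ico m M, |a (t + 1) - a t| ≤
          ∑ t ∈ Finset.Ico g M, |a (t + 1) - a t| :=
        Finset.sum_le_sum_of_subset_of_nonneg (Finset.Ico_subset_Ico hgm le_rfl)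
          (fun i _ _ => abs_nonneg _)
      rw [hsplit]
      have e5 : (∑ t ∈ Finset.Ico m (m + L), a t) / L + (∑ t ∈ Finset.Ico (m + L) M, a t) / L ≤
          (∑ t ∈ Finset.Ico g M, a t) / L := by
        rw [← add_div, ← e1]
        exact div_le_div_of_nonneg_right e3 hL0.le
      have e6 : G + ((∑ t ∈ Finset.Ico (m + L) M, a t) / L +
          ∑ t ∈ Finset.Ico (m + L) M, |a (t + 1) - a t|) ≤
          (∑ t ∈ Finset.Ico g M, a t) / L + ∑ t ∈ Finset.Ico g M, |a (t + 1) - a t| := by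
        rw [hG]
        linarith
      have e7 := mul_le_mul_of_nonneg_left e6 (by linarith : (0 : ℝ) ≤ v + 1)
      rw [mul_add] at e7
      linarith

/-- UNI: greedy groups -/
theorem uni (a : ℕ → ℝ) (ha : ∀ i, 0 ≤ a i) (N : ℕ) (hN : ∀ i, N < i → a i = 0) {S TV : ℝ}
    (hS : ∑ i ∈ Finset.range (N + 1), a i ≤ S)
    (hTV : ∑ i ∈ Finset.range (N + 1), |a (i + 1) - a i| ≤ TV)
    (I : Finset ℕ) (L : ℕ) (hL : 1 ≤ L) (v : ℝ) (hv : 0 ≤ v)
    (hI : ∀ i ∈ I, ∀ i' ∈ I, i ≤ i' → i' < i + L → ((i' - i : ℕ) : ℝ) ≤ v) :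
    ∑ i ∈ I, a i ≤ (v + 1) * (S / L + TV) := by
  have hL0 : (0 : ℝ) < L := by exact_mod_cast hL
  set M := N + 1 + I.sup id + L with hM
  have key := f5a_key a ha L hL v hv M I.card I 0 rfl (by
    intro i hi
    have h1 : i ≤ I.sup id := Finset.le_sup (f := id) hi
    exact ⟨by omega, by omega⟩) hI
  have e1 : ∑ t ∈ Finset.Ico 0 M, a t = ∑ i ∈ Finset.range (N + 1), a i := by
    rw [← Finset.range_eq_Ico]
    symm
    apply Finset.sum_subset
    · intro i hi
      rw [Finset.mem_range] at hi ⊢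
      omega
    · intro i _ hi
      rw [Finset.mem_range] at hi
      exact hN i (by omega)
  have e2 : ∑ t ∈ Finset.Ico 0 M, |a (t + 1) - a t| =
      ∑ i ∈ Finset.range (N + 1), |a (i + 1) - a i| := by
    rw [← Finset.range_eq_Ico]
    symm
    apply Finset.sum_subset
    · intro i hi
      rw [Finset.mem_range] at hi ⊢
      omega
    · intro i _ hi
      rw [Finset.mem_range] at hi
      rw [hN i (by omega), hN (i + 1) (by omega)]
      simp
  rw [e1, e2] at key
  refine key.trans (mul_le_mul_of_nonneg_left ?_ (by linarith))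
  exact add_le_add (div_le_div_of_nonneg_right hS hL0.le) hTV

end Pool.Agent.W_e21d3a_h93
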