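import Pool.Agent.W_e21d3a_h93.FDefs

set_option autoImplicit false

/-!
# [NC] F5b: binomial weights: total variation and maximum
-/

namespace Pool.Agent.W_e21d3a_h93

theorem choose_succ_ge_of_lt_half (K i : ℕ) (h : i < K / 2) : K.choose i ≤ K.choose (i + 1) :=
  Nat.choose_le_succ_of_lt_half_left h

theorem choose_succ_le_of_half_le (K i : ℕ) (h : K / 2 ≤ i) : K.choose (i + 1) ≤ K.choose i := by
  have h1 := Nat.choose_succ_right_eq K i
  have h2 : K - i ≤ i + 1 := by omega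
  have h3 : K.choose (i + 1) * (i + 1) ≤ K.choose i * (i + 1) := by
    rw [h1]
    exact Nat.mul_le_mul_left _ h2
  exact Nat.le_of_mul_le_mul_right h3 (Nat.succ_pos i)

/-- total variation and maximum of the binomial weights -/
theorem choose_TV (K : ℕ) :
    ∑ i ∈ Finset.range (K + 1), |(K.choose (i + 1) : ℝ) / 2 ^ K - (K.choose i : ℝ) / 2 ^ K|
      ≤ 2 * ((K.choose (K / 2) : ℝ) / 2 ^ K) := by
  set f : ℕ → ℝ := fun i => (K.choose i : ℝ) / 2 ^ K with hf
  have h0 : (0 : ℝ) < 2 ^ K := by positivity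
  have hsplit : ∑ i ∈ Finset.range (K + 1), |f (i + 1) - f i| =
      ∑ i ∈ Finset.range (K / 2), |f (i + 1) - f i| +
        ∑ i ∈ Finset.range (K + 1 - K / 2), |f (K / 2 + i + 1) - f (K / 2 + i)| := by
    have e : K + 1 = K / 2 + (K + 1 - K / 2) := by omega
    conv_lhs => rw [e, Finset.sum_range_add]
  have h1 : ∑ i ∈ Finset.range (K / 2), |f (i + 1) - f i| = f (K / 2) - f 0 := by
    rw [← Finset.sum_range_sub]
    refine Finset.sum_congr rfl fun i hi => ?_
    rw [Finset.mem_range] at hi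
    apply abs_of_nonneg
    rw [sub_nonneg]
    simp only [hf]
    apply div_le_div_of_nonneg_right _ h0.le
    exact_mod_cast choose_succ_ge_of_lt_half K i hi
  have h2 : ∀ n, ∑ i ∈ Finset.range n, |f (K / 2 + i + 1) - f (K / 2 + i)| = f (K / 2) - f (K / 2 + n) := by
    intro n
    have h3 : ∑ i ∈ Finset.range n, |f (K / 2 + i + 1) - f (K / 2 + i)| =
        ∑ i ∈ Finset.range n, (f (K / 2 + i) - f (K / 2 + (i + 1))) := by
      refine Finset.sum_congr rfl fun i _ => ?_
      rw [abs_sub_comm]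
      apply abs_of_nonneg
      rw [sub_nonneg]
      simp only [hf]
      apply div_le_div_of_nonneg_right _ h0.le
      exact_mod_cast choose_succ_le_of_half_le K (K / 2 + i) (by omega)
    rw [h3, Finset.sum_range_sub' (fun i => f (K / 2 + i)) n, add_zero]
  have h3 : ∑ i ∈ Finset.range (K + 1), |f (i + 1) - f i| ≤ 2 * f (K / 2) := by
    rw [hsplit, h1, h2]
    have h4 : 0 ≤ f 0 := by simp only [hf]; positivity
    have h5 : 0 ≤ f (K / 2 + (K + 1 - K / 2)) := by simp only [hf]; positivity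
    linarith
  exact h3

/-- `C(2n,n)/4^n`, squared. -/
theorem central_sq_le (n : ℕ) : ((Nat.centralBinom n : ℝ) / 4 ^ n) ^ 2 ≤ 1 / (2 * n + 1) := by
  induction n with
  | zero => simp
  | succ n ih =>
    have h1 := Nat.succ_mul_centralBinom_succ n
    have h2 : ((n : ℝ) + 1) * (Nat.centralBinom (n + 1) : ℝ) = 2 * (2 * n + 1) * Nat.centralBinom n := by
      exact_mod_cast h1
    have hn : (0 : ℝ) < (n : ℝ) + 1 := by positivity
    have h3 : (Nat.centralBinom (n + 1) : ℝ) / 4 ^ (n + 1) =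
        ((Nat.centralBinom n : ℝ) / 4 ^ n) * ((2 * n + 1) / (2 * (n + 1))) := by
      rw [div_mul_div_comm, div_eq_div_iff (by positivity) (by positivity), pow_succ]
      linear_combination (2 * 4 ^ n : ℝ) * h2
    rw [h3, mul_pow]
    have h4 : ((2 * (n : ℝ) + 1) / (2 * (n + 1))) ^ 2 * (1 / (2 * n + 1)) ≤ 1 / (2 * ((n + 1 : ℕ) : ℝ) + 1) := by
      push_cast
      rw [div_pow, div_mul_div_comm, div_le_div_iff₀ (by positivity) (by positivity)]
      nlinarith [sq_nonneg ((n : ℝ))]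
    calc ((Nat.centralBinom n : ℝ) / 4 ^ n) ^ 2 * ((2 * (n : ℝ) + 1) / (2 * (n + 1))) ^ 2
        ≤ 1 / (2 * n + 1) * ((2 * (n : ℝ) + 1) / (2 * (n + 1))) ^ 2 :=
          mul_le_mul_of_nonneg_right ih (by positivity)
      _ = ((2 * (n : ℝ) + 1) / (2 * (n + 1))) ^ 2 * (1 / (2 * n + 1)) := by ring
      _ ≤ _ := h4

theorem choose_half_sq_le (K : ℕ) : ((K.choose (K / 2) : ℝ) / 2 ^ K) ^ 2 ≤ 1 / (K + 1) := by
  rcases Nat.even_or_odd' K with ⟨n, hn | hn⟩
  · subst hn
    have h1 := central_sq_le n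
    have h2 : 2 * n / 2 = n := by omega
    rw [h2, pow_mul, show (2 : ℝ) ^ 2 = 4 by norm_num]
    rw [Nat.centralBinom_eq_two_mul_choose] at h1
    push_cast
    exact h1
  · subst hn
    have h1 := central_sq_le (n + 1)
    have h2 : (2 * n + 1) / 2 = n := by omega
    rw [h2]
    rw [Nat.centralBinom_eq_two_mul_choose] at h1
    have h3 : (2 * (n + 1)).choose (n + 1) = 2 * (2 * n + 1).choose n := by
      have h4 : (2 * (n + 1)).choose (n + 1) = (2 * n + 1).choose n + (2 * n + 1).choose (n + 1) := by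
        rw [show 2 * (n + 1) = (2 * n + 1) + 1 by ring, Nat.choose_succ_succ]
      have h5 : (2 * n + 1).choose (n + 1) = (2 * n + 1).choose n := by
        rw [← Nat.choose_symm (show n ≤ 2 * n + 1 by omega)]
        congr 1
        omega
      rw [h4, h5]
      ring
    rw [h3] at h1
    have h6 : ((2 * (2 * n + 1).choose n : ℕ) : ℝ) / 4 ^ (n + 1) = ((2 * n + 1).choose n : ℝ) / 2 ^ (2 * n + 1) := by
      push_cast
      rw [show (4 : ℝ) = 2 ^ 2 by norm_num, ← pow_mul, div_eq_div_iff (by positivity) (by positivity)]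
      ring
    rw [h6] at h1
    refine h1.trans ?_
    push_cast
    apply one_div_le_one_div_of_le (by positivity)
    linarith

theorem choose_max_small {δ : ℝ} (hδ : 0 < δ) : ∃ K0 : ℕ, ∀ K ≥ K0,
    (K.choose (K / 2) : ℝ) / 2 ^ K ≤ δ := by
  refine ⟨⌈1 / δ ^ 2⌉₊, fun K hK => ?_⟩
  have h1 := choose_half_sq_le K
  have h2 : 1 / δ ^ 2 ≤ (K : ℝ) + 1 := by
    have h3 := Nat.le_ceil (1 / δ ^ 2)
    have h4 : ((⌈1 / δ ^ 2⌉₊ : ℕ) : ℝ) ≤ K := by exact_mod_cast hK
    linarith
  have h3 : 1 / ((K : ℝ) + 1) ≤ δ ^ 2 := by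
    rw [div_le_iff₀ (by positivity)] at h2 ⊢
    linarith
  exact le_of_sq_le_sq (h1.trans h3) hδ.le

end Pool.Agent.W_e21d3a_h93
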