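import Pool.Agent.W_e21d3a_h93.F1d

set_option autoImplicit false

/-!
# [NC] F5c: COUNTING (row 498, 4.4)
-/

namespace Pool.Agent.W_e21d3a_h93

variable {B : ℕ} {w : ℕ → ℕ → ℝ}

/-- COUNTING. `(m,l)` black with `K = KK`, baseline `9^{k+u} ≤ 2^K` for the columns used.
`(m-k-u, l+K+h)` and `(m-k'-u, l+K+h)` black with `KK ≥ H ≥ 4(k'-k)`, `h ≥ 1` ⇒ `3(k'-k) < h`. -/
theorem counting (hw : Sys w) {m l u k k' h H : ℕ} (hb : Black w m l) (hkk : k ≤ k')
    (hm : k' + u ≤ m) (hh : 1 ≤ h) (hbase : 9 ^ (k' + u) ≤ 2 ^ KK w m l)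
    (h1 : Black w (m - k - u) (l + KK w m l + h)) (h1' : H ≤ KK w (m - k - u) (l + KK w m l + h))
    (h2 : Black w (m - k' - u) (l + KK w m l + h)) (h2' : H ≤ KK w (m - k' - u) (l + KK w m l + h))
    (hH : 4 * (k' - k) ≤ H) : 3 * (k' - k) < h := by
  have he : ep = 1 / 4096 := rfl
  obtain ⟨i, hi⟩ : ∃ i, i = k' - k := ⟨_, rfl⟩
  have emb : m - k' - u = (m - k - u) - i := by omega
  have ema : m - k - u = m - (k + u) := by omega
  rw [emb] at h2 h2'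
  rw [← hi] at hH ⊢
  obtain ⟨L, hL⟩ : ∃ L, L = l + KK w m l + h := ⟨_, rfl⟩
  rw [← hL] at h1 h1' h2 h2'
  have hea0 := nn_nonneg (w (m - k - u) L)
  have hea1 : nn (w (m - k - u) L) ≤ ep := h1
  have hebt : nn (w (m - k - u - i) L) ≤ ep := h2
  have h2H : (0 : ℝ) < 2 ^ H := by positivity
  have h9H : (9 : ℝ) ^ i ≤ 2 ^ H := by
    calc (9 : ℝ) ^ i ≤ 16 ^ i := pow_le_pow_left₀ (by norm_num) (by norm_num) i
      _ = 2 ^ (4 * i) := by rw [pow_mul]; norm_num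
      _ ≤ 2 ^ H := pow_le_pow_right₀ (by norm_num) hH
  have hs : 9 ^ i * (nn (w (m - k - u) L) / 2 ^ H) ≤ ep := by
    calc 9 ^ i * (nn (w (m - k - u) L) / 2 ^ H)
        ≤ 2 ^ H * (nn (w (m - k - u) L) / 2 ^ H) :=
          mul_le_mul_of_nonneg_right h9H (div_nonneg hea0 h2H.le)
      _ = nn (w (m - k - u) L) := by field_simp
      _ ≤ ep := hea1
  have hr := hw.right_nn (i := i) h1 (by omega) h1' (le_trans hs (by rw [he]; norm_num))
  have hb2 := (hw.black_le h2 h2').2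
  rw [hb2] at hr
  have hr2 : nn (w (m - k - u - i) L) = 9 ^ i * nn (w (m - k - u) L) := by
    field_simp at hr
    linarith
  -- lower bound
  have hn0 := nn_nonneg (w m l)
  have hn1 : nn (w m l) ≤ ep := hb
  have h2K : (0 : ℝ) < 2 ^ KK w m l := by positivity
  have h9K : (9 : ℝ) ^ (k + u) ≤ 2 ^ KK w m l := by
    have h3 : 9 ^ (k + u) ≤ 2 ^ KK w m l :=
      le_trans (Nat.pow_le_pow_right (by norm_num) (by omega)) hbase
    exact_mod_cast h3
  have hs2 : 9 ^ (k + u) * (nn (w m l) / 2 ^ KK w m l) ≤ ep := by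
    calc 9 ^ (k + u) * (nn (w m l) / 2 ^ KK w m l)
        ≤ 2 ^ KK w m l * (nn (w m l) / 2 ^ KK w m l) :=
          mul_le_mul_of_nonneg_right h9K (div_nonneg hn0 h2K.le)
      _ = nn (w m l) := by field_simp
      _ ≤ ep := hn1
  have hab := hw.above_lower (i := k + u) (o := h) hb (by omega) hh
    (le_trans hs2 (by rw [he]; norm_num))
  rw [← hL, ← ema] at hab
  have h2h : (0 : ℝ) < 2 ^ h := by positivity
  have h5 : (1 - ep) / 2 ^ h ≤ nn (w (m - k - u) L) :=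
    le_trans (div_le_div_of_nonneg_right (by linarith) h2h.le) hab
  rw [div_le_iff₀ h2h] at h5
  have h9i : (0 : ℝ) < 9 ^ i := by positivity
  have h6 : (9 : ℝ) ^ i < 2 ^ h := by
    rw [hr2] at hebt
    have h7 : 9 ^ i * (1 - ep) ≤ 9 ^ i * (nn (w (m - k - u) L) * 2 ^ h) :=
      mul_le_mul_of_nonneg_left h5 h9i.le
    have h8 : 9 ^ i * (nn (w (m - k - u) L) * 2 ^ h) ≤ ep * 2 ^ h := by
      rw [← mul_assoc]
      exact mul_le_mul_of_nonneg_right hebt h2h.le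
    rw [he] at h7 h8
    linarith
  have h8i : (8 : ℝ) ^ i < 2 ^ h :=
    lt_of_le_of_lt (pow_le_pow_left₀ (by norm_num) (by norm_num) i) h6
  have e8 : (8 : ℝ) ^ i = 2 ^ (3 * i) := by rw [pow_mul]; norm_num
  rw [e8] at h8i
  exact (pow_lt_pow_iff_right₀ (by norm_num : (1 : ℝ) < 2)).1 h8i

end Pool.Agent.W_e21d3a_h93
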