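import Pool.Agent.W_e21d3a_h93.F5a
import Pool.Agent.W_e21d3a_h93.F5b
import Pool.Agent.W_e21d3a_h93.F5c
import Pool.Agent.W_e21d3a_h93.F3b
import Pool.Agent.W_e21d3a_h93.F4a

set_option autoImplicit false

/-!
# [NC] F5d: fixed overshoot and fixed further steps (row 498, 4.4)
-/

namespace Pool.Agent.W_e21d3a_h93

variable {B : ℕ} {w : ℕ → ℕ → ℝ}

private theorem F5d_sum_ge {β : List ℕ} (hβ : ∀ b ∈ β, 2 ≤ b) : 2 * β.length ≤ β.sum := by
  induction β with
  | nil => simp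
  | cons b β ih =>
    have h1 := hβ b (by simp)
    have h2 := ih (fun x hx => hβ x (by simp [hx]))
    simp only [List.length_cons, List.sum_cons]
    omega

private theorem F5d_take {β : List ℕ} {a c : ℕ} (hβ : ∀ b ∈ β, 2 ≤ b) (ha : a ≤ c)
    (hc : c ≤ β.length) : 2 * (c - a) ≤ (β.take c).sum - (β.take a).sum := by
  have h1 : β.take c = β.take a ++ (β.drop a).take (c - a) := by
    rw [← List.take_add]
    congr 1
    omega
  rw [h1, List.sum_append, Nat.add_sub_cancel_left]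
  have h2 : ((β.drop a).take (c - a)).length = c - a := by
    rw [List.length_take, List.length_drop]
    omega
  have h3 := F5d_sum_ge (β := (β.drop a).take (c - a))
    (fun b hb => hβ b (List.mem_of_mem_drop (List.mem_of_mem_take hb)))
  omega

private theorem F5d_uni (K : ℕ) (I : Finset ℕ) (W : ℕ) (hW : 1 ≤ W) (v : ℝ) (hv : 0 ≤ v)
    (hI : ∀ i ∈ I, ∀ i' ∈ I, i ≤ i' → i' < i + 2 * W → ((i' - i : ℕ) : ℝ) ≤ v) :
    ∑ i ∈ I, (K.choose i : ℝ) / 2 ^ K ≤
      (v + 1) * (1 / (2 * W) + 2 * ((K.choose (K / 2) : ℝ) / 2 ^ K)) := by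
  have h := uni (fun i => (K.choose i : ℝ) / 2 ^ K) (fun i => by positivity) K
    (fun i hi => by simp only [Nat.choose_eq_zero_of_lt hi, Nat.cast_zero, zero_div])
    (S := 1) (TV := 2 * ((K.choose (K / 2) : ℝ) / 2 ^ K)) (by
      rw [← Finset.sum_div, ← Nat.cast_sum, Nat.sum_range_choose]
      push_cast
      rw [div_self (by positivity)]) (choose_TV K) I (2 * W) (by omega) v hv hI
  push_cast at h
  exact h

open Classical in
/-- for a fixed overshoot and fixed further steps -/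
theorem sum_rho_stay_le (hw : Sys w) {m l k0 K1 a c W o : ℕ} {β : List ℕ} (hb : Black w m l)
    (hβ : β ∈ paths B K1) (ha : a < c) (hc : c ≤ K1) (hW : 1 ≤ W) (hW' : 2 * W ≤ c - a)
    (ho : 1 ≤ o) (hbase : 9 ^ (k0 + K1) ≤ 2 ^ KK w m l) (hm : k0 + K1 ≤ m) :
    ∑ k ∈ Finset.Icc 1 k0, (if Stay w (m - k) (l + KK w m l + o) β a c
        then rho B k (KK w m l) o else 0)
      ≤ (o : ℝ) / 2 ^ o * (2 / 3 * ((o : ℝ) + (β.take a).sum) + 1) *
        (1 / (2 * W) + 2 * (((KK w m l).choose (KK w m l / 2) : ℝ) / 2 ^ KK w m l)) := by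
  obtain ⟨hlen, hent⟩ := mem_paths.1 hβ
  set K := KK w m l with hK
  set σ := (β.take a).sum with hσ
  set H := (β.take c).sum - σ with hH
  have hH4 : 4 * W ≤ H := by
    have h1 := F5d_take (β := β) (a := a) (c := c) (fun b hb => (hent b hb).1) ha.le (by omega)
    omega
  set T := 2 * ((K.choose (K / 2) : ℝ) / 2 ^ K) with hT
  set Q := (Finset.Icc 1 k0).filter (fun k => Stay w (m - k) (l + K + o) β a c) with hQ
  have hcount : ∀ k ∈ Q, ∀ k' ∈ Q, k ≤ k' → k' < k + W → 3 * (k' - k) ≤ o + σ := by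
    intro k hk k' hk' hkk hlt
    rw [hQ, Finset.mem_filter, Finset.mem_Icc] at hk hk'
    obtain ⟨⟨hk1, hk2⟩, hs1, hs2⟩ := hk
    obtain ⟨⟨hk1', hk2'⟩, hs1', hs2'⟩ := hk'
    rw [add_assoc (l + K) o] at hs1 hs2 hs1' hs2'
    have hbase' : 9 ^ (k' + a) ≤ 2 ^ KK w m l :=
      (Nat.pow_le_pow_right (by norm_num) (by omega)).trans hbase
    exact (counting hw (u := a) (h := o + σ) (H := H) hb hkk (by omega) (by omega) hbase'
      hs1 hs2 hs1' hs2' (by omega)).le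
  have hv : (0 : ℝ) ≤ 2 / 3 * ((o : ℝ) + σ) := by positivity
  have hnat : ∀ x : ℕ, 3 * x ≤ o + σ → ((2 * x : ℕ) : ℝ) ≤ 2 / 3 * ((o : ℝ) + σ) := by
    intro x hx
    have : (3 : ℝ) * x ≤ o + σ := by exact_mod_cast hx
    push_cast
    linarith
  have h1 : ∑ k ∈ Q, (K.choose (2 * k - 2) : ℝ) / 2 ^ K ≤
      (2 / 3 * ((o : ℝ) + σ) + 1) * (1 / (2 * W) + T) := by
    have hinj : Set.InjOn (fun k => 2 * k - 2) (Q : Set ℕ) := by
      intro x hx y hy hxy
      rw [Finset.mem_coe, hQ, Finset.mem_filter, Finset.mem_Icc] at hx hy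
      simp only at hxy
      omega
    have h := F5d_uni K (Q.image (fun k => 2 * k - 2)) W hW _ hv (by
      intro i hi i' hi' hii hlt
      obtain ⟨k, hk, rfl⟩ := Finset.mem_image.1 hi
      obtain ⟨k', hk', rfl⟩ := Finset.mem_image.1 hi'
      have hk1 := (Finset.mem_Icc.1 (Finset.mem_filter.1 hk).1).1
      have hk1' := (Finset.mem_Icc.1 (Finset.mem_filter.1 hk').1).1
      rw [show 2 * k' - 2 - (2 * k - 2) = 2 * (k' - k) by omega]
      exact hnat _ (hcount k hk k' hk' (by omega) (by omega)))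
    rwa [Finset.sum_image hinj] at h
  have h2 : ∑ k ∈ Q, (K.choose (2 * k - 1) : ℝ) / 2 ^ K ≤
      (2 / 3 * ((o : ℝ) + σ) + 1) * (1 / (2 * W) + T) := by
    have hinj : Set.InjOn (fun k => 2 * k - 1) (Q : Set ℕ) := by
      intro x hx y hy hxy
      rw [Finset.mem_coe, hQ, Finset.mem_filter, Finset.mem_Icc] at hx hy
      simp only at hxy
      omega
    have h := F5d_uni K (Q.image (fun k => 2 * k - 1)) W hW _ hv (by
      intro i hi i' hi' hii hlt
      obtain ⟨k, hk, rfl⟩ := Finset.mem_image.1 hi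
      obtain ⟨k', hk', rfl⟩ := Finset.mem_image.1 hi'
      have hk1 := (Finset.mem_Icc.1 (Finset.mem_filter.1 hk).1).1
      have hk1' := (Finset.mem_Icc.1 (Finset.mem_filter.1 hk').1).1
      rw [show 2 * k' - 1 - (2 * k - 1) = 2 * (k' - k) by omega]
      exact hnat _ (hcount k hk k' hk' (by omega) (by omega)))
    rwa [Finset.sum_image hinj] at h
  have ho' : (1 : ℝ) ≤ o := by exact_mod_cast ho
  have h3 : ∑ k ∈ Finset.Icc 1 k0, (if Stay w (m - k) (l + K + o) β a c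
        then rho B k K o else 0) ≤
      ∑ k ∈ Q, ((((o : ℝ) - 1) * ((K.choose (2 * k - 2) : ℝ) / 2 ^ K) +
        (K.choose (2 * k - 1) : ℝ) / 2 ^ K) / 2 ^ o) := by
    rw [← Finset.sum_filter]
    apply Finset.sum_le_sum
    intro k hk
    have hk1 := (Finset.mem_Icc.1 (Finset.mem_filter.1 hk).1).1
    refine (rho_le (B := B) k K o hk1 ho).trans (le_of_eq ?_)
    rw [pow_add]
    field_simp
  refine h3.trans ?_
  rw [← Finset.sum_div, Finset.sum_add_distrib, ← Finset.mul_sum]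
  have h4 : ((o : ℝ) - 1) * ∑ k ∈ Q, (K.choose (2 * k - 2) : ℝ) / 2 ^ K +
      ∑ k ∈ Q, (K.choose (2 * k - 1) : ℝ) / 2 ^ K ≤
      (o : ℝ) * ((2 / 3 * ((o : ℝ) + σ) + 1) * (1 / (2 * W) + T)) := by
    have := mul_le_mul_of_nonneg_left h1 (by linarith : (0 : ℝ) ≤ (o : ℝ) - 1)
    nlinarith
  calc (((o : ℝ) - 1) * ∑ k ∈ Q, (K.choose (2 * k - 2) : ℝ) / 2 ^ K +
      ∑ k ∈ Q, (K.choose (2 * k - 1) : ℝ) / 2 ^ K) / 2 ^ o
      ≤ ((o : ℝ) * ((2 / 3 * ((o : ℝ) + σ) + 1) * (1 / (2 * W) + T))) / 2 ^ o :=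
        div_le_div_of_nonneg_right h4 (by positivity)
    _ = (o : ℝ) / 2 ^ o * (2 / 3 * ((o : ℝ) + σ) + 1) * (1 / (2 * W) + T) := by ring

end Pool.Agent.W_e21d3a_h93
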