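import Pool.Agent.W_e21d3a_h93.F5d

set_option autoImplicit false

/-!
# [NC] F5e: Z_r (row 498, 4.4)
-/

namespace Pool.Agent.W_e21d3a_h93

variable {B : ℕ} {w : ℕ → ℕ → ℝ}

private theorem F5e_sum1 (B : ℕ) : ∑ o ∈ Finset.Icc 1 B, (o : ℝ) / 2 ^ o ≤ 2 := by
  have h : ∑ o ∈ Finset.Icc 1 B, (o : ℝ) / 2 ^ o = 2 - ((B : ℝ) + 2) / 2 ^ B := by
    induction B with
    | zero => simp
    | succ n ih =>
      rw [Finset.sum_Icc_succ_top (by omega), ih]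
      push_cast
      field_simp
      ring
  rw [h]
  have : (0 : ℝ) ≤ ((B : ℝ) + 2) / 2 ^ B := by positivity
  linarith

private theorem F5e_sum2 (B : ℕ) : ∑ o ∈ Finset.Icc 1 B, (o : ℝ) / 2 ^ o * o ≤ 6 := by
  have h : ∑ o ∈ Finset.Icc 1 B, (o : ℝ) / 2 ^ o * o =
      6 - ((B : ℝ) ^ 2 + 4 * B + 6) / 2 ^ B := by
    induction B with
    | zero => simp
    | succ n ih =>
      rw [Finset.sum_Icc_succ_top (by omega), ih]
      push_cast
      field_simp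
      ring
  rw [h]
  have : (0 : ℝ) ≤ ((B : ℝ) ^ 2 + 4 * B + 6) / 2 ^ B := by positivity
  linarith

open Classical in
/-- `Z_r` -/
theorem Zr_le (hw : Sys w) {m l k0 K1 a c W : ℕ} (hb : Black w m l) (ha : a < c) (hc : c ≤ K1)
    (hW : 1 ≤ W) (hW' : 2 * W ≤ c - a)
    (hbase : 9 ^ (k0 + K1) ≤ 2 ^ KK w m l) (hm : k0 + K1 ≤ m) :
    ∑ k ∈ Finset.Icc 1 k0, ∑ o ∈ Finset.Icc 1 B, rho B k (KK w m l) o *
        (∑ β ∈ paths B K1, if Stay w (m - k) (l + KK w m l + o) β a c then wt β else 0)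
      ≤ (6 + 6 * (a : ℝ)) *
        (1 / (2 * W) + 2 * (((KK w m l).choose (KK w m l / 2) : ℝ) / 2 ^ KK w m l)) := by
  set K := KK w m l with hK
  set M : ℝ := 1 / (2 * W) + 2 * ((K.choose (K / 2) : ℝ) / 2 ^ K) with hM
  have hM0 : 0 ≤ M := by rw [hM]; positivity
  have h1 : ∑ k ∈ Finset.Icc 1 k0, ∑ o ∈ Finset.Icc 1 B, rho B k K o *
        (∑ β ∈ paths B K1, if Stay w (m - k) (l + K + o) β a c then wt β else 0) =
      ∑ o ∈ Finset.Icc 1 B, ∑ β ∈ paths B K1, wt β *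
        ∑ k ∈ Finset.Icc 1 k0, (if Stay w (m - k) (l + K + o) β a c then rho B k K o else 0) := by
    rw [Finset.sum_comm]
    refine Finset.sum_congr rfl fun o _ => ?_
    simp_rw [Finset.mul_sum]
    rw [Finset.sum_comm]
    refine Finset.sum_congr rfl fun β _ => ?_
    refine Finset.sum_congr rfl fun k _ => ?_
    split_ifs
    · ring
    · simp
  rw [h1]
  have h2 : ∀ o ∈ Finset.Icc 1 B, ∑ β ∈ paths B K1, wt β *
        ∑ k ∈ Finset.Icc 1 k0, (if Stay w (m - k) (l + K + o) β a c then rho B k K o else 0) ≤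
      (o : ℝ) / 2 ^ o * (2 / 3 * (o : ℝ) + 1 + 8 / 3 * a) * M := by
    intro o ho
    rw [Finset.mem_Icc] at ho
    have h3 : ∀ β ∈ paths B K1, wt β *
        ∑ k ∈ Finset.Icc 1 k0, (if Stay w (m - k) (l + K + o) β a c then rho B k K o else 0) ≤
        (o : ℝ) / 2 ^ o * M * ((2 / 3 * (o : ℝ) + 1) * wt β +
          2 / 3 * (wt β * ((β.take a).sum : ℝ))) := by
      intro β hβ
      have h4 := sum_rho_stay_le (B := B) hw hb hβ ha hc hW hW' ho.1 hbase hm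
      have h5 := mul_le_mul_of_nonneg_left h4 (wt_nonneg hβ)
      refine h5.trans (le_of_eq ?_)
      rw [hM]
      ring
    refine (Finset.sum_le_sum h3).trans ?_
    rw [← Finset.mul_sum, Finset.sum_add_distrib, ← Finset.mul_sum, ← Finset.mul_sum]
    have h6 := sum_wt_le_one (B := B) K1
    have h7 := sum_wt_take (B := B) K1 a (by omega)
    have h8 : (2 / 3 * (o : ℝ) + 1) * ∑ β ∈ paths B K1, wt β +
        2 / 3 * ∑ β ∈ paths B K1, wt β * ((β.take a).sum : ℝ) ≤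
        2 / 3 * (o : ℝ) + 1 + 8 / 3 * a := by
      have h9 : (0 : ℝ) ≤ 2 / 3 * (o : ℝ) + 1 := by positivity
      nlinarith
    have h10 : (0 : ℝ) ≤ (o : ℝ) / 2 ^ o * M := by positivity
    calc (o : ℝ) / 2 ^ o * M * ((2 / 3 * (o : ℝ) + 1) * ∑ β ∈ paths B K1, wt β +
        2 / 3 * ∑ β ∈ paths B K1, wt β * ((β.take a).sum : ℝ))
        ≤ (o : ℝ) / 2 ^ o * M * (2 / 3 * (o : ℝ) + 1 + 8 / 3 * a) :=
          mul_le_mul_of_nonneg_left h8 h10
      _ = _ := by ring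
  refine (Finset.sum_le_sum h2).trans ?_
  rw [← Finset.sum_mul]
  refine mul_le_mul_of_nonneg_right ?_ hM0
  have h11 : ∑ o ∈ Finset.Icc 1 B, (o : ℝ) / 2 ^ o * (2 / 3 * (o : ℝ) + 1 + 8 / 3 * a) =
      2 / 3 * ∑ o ∈ Finset.Icc 1 B, (o : ℝ) / 2 ^ o * o +
        (1 + 8 / 3 * (a : ℝ)) * ∑ o ∈ Finset.Icc 1 B, (o : ℝ) / 2 ^ o := by
    rw [Finset.mul_sum, Finset.mul_sum, ← Finset.sum_add_distrib]
    refine Finset.sum_congr rfl fun o _ => ?_
    ring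
  rw [h11]
  have h12 := F5e_sum1 B
  have h13 := F5e_sum2 B
  have h14 : (0 : ℝ) ≤ 1 + 8 / 3 * (a : ℝ) := by positivity
  have h15 : (0 : ℝ) ≤ (a : ℝ) := by positivity
  nlinarith

end Pool.Agent.W_e21d3a_h93
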