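import Pool.Agent.W_e21d3a_h93.FDefs

set_option autoImplicit false

/-!
# [NC] F6a: choice of the times u_r
-/

namespace Pool.Agent.W_e21d3a_h93

/-- choice of the times `u_r`: `(6+6u_r) * P ≤ δ W_r`, `2 W_r ≤ u_{r+1} - u_r` -/
theorem exists_times {δ : ℝ} (hδ : 0 < δ) (P : ℕ) : ∃ (u W : ℕ → ℕ), u 0 = 0 ∧
    (∀ r, u r < u (r + 1)) ∧ (∀ r, 1 ≤ W r) ∧ (∀ r, 2 * W r ≤ u (r + 1) - u r) ∧
    ∀ r, (6 + 6 * (u r : ℝ)) * (P + 1) ≤ δ * W r := by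
  obtain ⟨f, hf1, hf2⟩ : ∃ f : ℕ → ℕ, (∀ x, 1 ≤ f x) ∧
      ∀ x : ℕ, (6 + 6 * (x : ℝ)) * ((P : ℝ) + 1) ≤ δ * (f x : ℝ) := by
    refine ⟨fun x => ⌈(6 + 6 * (x : ℝ)) * ((P : ℝ) + 1) / δ⌉₊ + 1, fun x => Nat.le_add_left 1 _,
      fun x => ?_⟩
    have h1 := Nat.le_ceil ((6 + 6 * (x : ℝ)) * ((P : ℝ) + 1) / δ)
    rw [div_le_iff₀ hδ] at h1
    push_cast
    nlinarith
  obtain ⟨u, hu0, hu⟩ : ∃ u : ℕ → ℕ, u 0 = 0 ∧ ∀ r, u (r + 1) = u r + 2 * f (u r) :=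
    ⟨fun r => Nat.rec 0 (fun _ x => x + 2 * f x) r, rfl, fun r => rfl⟩
  refine ⟨u, fun r => f (u r), hu0, fun r => ?_, fun r => hf1 _, fun r => ?_, fun r => hf2 _⟩
  · rw [hu]
    have := hf1 (u r)
    omega
  · show 2 * f (u r) ≤ _
    rw [hu]
    omega

end Pool.Agent.W_e21d3a_h93
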