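import Pool.Agent.W_e21d3a_h93.F6a
import Pool.Agent.W_e21d3a_h93.F5e
import Pool.Agent.W_e21d3a_h93.F4b
import Pool.Agent.W_e21d3a_h93.F3c

set_option autoImplicit false

/-!
# [NC] F6b: LEMMA BIG (row 498, end of 4.4)
-/

namespace Pool.Agent.W_e21d3a_h93

theorem F6b_base {n K : ℕ} (h : 10 * n ≤ 3 * K) : 9 ^ n ≤ 2 ^ K := by
  have h1 : (9 ^ n) ^ 3 ≤ (2 ^ K) ^ 3 := by
    calc (9 ^ n) ^ 3 = (9 ^ 3) ^ n := by rw [← pow_mul, ← pow_mul, mul_comm]
      _ ≤ (2 ^ 10) ^ n := Nat.pow_le_pow_left (by norm_num) n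
      _ = 2 ^ (10 * n) := by rw [← pow_mul]
      _ ≤ 2 ^ (3 * K) := Nat.pow_le_pow_right (by norm_num) h
      _ = (2 ^ K) ^ 3 := by rw [← pow_mul, mul_comm]
  exact (Nat.pow_le_pow_iff_left (by norm_num)).1 h1

theorem F6b_mono {u : ℕ → ℕ} (hu : ∀ r, u r < u (r + 1)) : Monotone u :=
  monotone_nat_of_le_succ fun r => (hu r).le

/-- LEMMA BIG -/
theorem big {δ : ℝ} (hδ : 0 < δ) : ∃ S0 : ℕ, ∀ (B : ℕ) (w : ℕ → ℕ → ℝ), Sys w → ∀ m l,
    Black w m l → S0 ≤ KK w m l → V B w m l ≤ δ * DD B w (m / 8) := by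
  classical
  obtain ⟨r', hr'⟩ : ∃ n : ℕ, (1 - ka * c2) ^ n < δ / 4 :=
    exists_pow_lt_of_lt_one (by positivity) (by norm_num [ka, c2])
  obtain ⟨u, W, hu0, hu, hW, hW2, hWδ⟩ := exists_times (show 0 < δ / 2 by positivity) (3 * r')
  have hum := F6b_mono hu
  set P : ℕ := 3 * r' with hP
  set K1 : ℕ := u P with hK1
  obtain ⟨Ka, hKa⟩ := choose_max_small
    (show 0 < δ / (8 * ((P : ℝ) + 1) * (6 + 6 * (K1 : ℝ))) by positivity)
  obtain ⟨Kb, hKb⟩ := Pii_small (show 0 < δ / 4 by positivity)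
  refine ⟨max (max Ka Kb) (1000 * (K1 + 2)), fun B w hw m l hb hS => ?_⟩
  have hSa : Ka ≤ KK w m l := le_trans (le_trans (le_max_left _ _) (le_max_left _ _)) hS
  have hSb : Kb ≤ KK w m l := le_trans (le_trans (le_max_right _ _) (le_max_left _ _)) hS
  have hSc : 1000 * (K1 + 2) ≤ KK w m l := le_trans (le_max_right _ _) hS
  have hKm := Sys.KK_lt hw hb
  have hM := hKa (KK w m l) hSa
  obtain ⟨k0, hk0, hk0'⟩ : ∃ k0 : ℕ, 27 * KK w m l ≤ 100 * k0 ∧ 100 * k0 ≤ 27 * KK w m l + 99 :=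
    ⟨(27 * KK w m l + 99) / 100, by omega, by omega⟩
  have hbase : 9 ^ (k0 + K1) ≤ 2 ^ KK w m l := F6b_base (by omega)
  have h78 : 8 * (k0 + K1) ≤ 7 * m := by omega
  have hkm : k0 + K1 ≤ m := by omega
  have hD0 : 0 ≤ DD B w (m / 8) := DD_nonneg _
  set D : ℝ := DD B w (m / 8) with hD
  set K : ℕ := KK w m l with hK
  set M : ℝ := (K.choose (K / 2) : ℝ) / 2 ^ K with hMdef
  have hM0 : 0 ≤ M := by positivity
  -- the terms
  have hV : ∀ k ∈ Finset.Icc 1 k0, ∀ o ∈ Finset.Icc 1 B,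
      rho B k K o * V B w (m - k) (l + K + o) ≤ D * (rho B k K o * (1 - ka * c2) ^ r' +
        ∑ r ∈ Finset.range P, rho B k K o *
          ∑ β ∈ paths B K1, if Stay w (m - k) (l + K + o) β (u r) (u (r + 1)) then wt β else 0) := by
    intro k hk o ho
    rw [Finset.mem_Icc] at hk ho
    have h1 := V_expand (B := B) hw u hu0 hu r' (m - k) (l + K + o) (show K1 ≤ m - k by omega)
    have h2 : DD B w (m - k - u (3 * r')) ≤ D := by
      refine DD_anti ?_
      change m / 8 ≤ m - k - K1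
      omega
    have h3 : 0 ≤ (1 - ka * c2) ^ r' +
      ∑ r ∈ Finset.range (3 * r'), ∑ β ∈ paths B (u (3 * r')),
        if Stay w (m - k) (l + K + o) β (u r) (u (r + 1)) then wt β else 0 := by
      refine add_nonneg (pow_nonneg (by norm_num [ka, c2]) _) ?_
      refine Finset.sum_nonneg fun r _ => Finset.sum_nonneg fun β hβ => ?_
      split_ifs
      · exact wt_nonneg hβ
      · exact le_rfl
    have h4 := h1.trans (mul_le_mul_of_nonneg_right h2 h3)
    have h5 := mul_le_mul_of_nonneg_left h4 (rho_nonneg (B := B) k K o)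
    refine h5.trans (le_of_eq ?_)
    rw [← Finset.mul_sum]
    ring
  have hZ : ∀ r ∈ Finset.range P, ∑ k ∈ Finset.Icc 1 k0, ∑ o ∈ Finset.Icc 1 B, rho B k K o *
        (∑ β ∈ paths B K1, if Stay w (m - k) (l + K + o) β (u r) (u (r + 1)) then wt β else 0)
      ≤ δ / (4 * ((P : ℝ) + 1)) + δ / (4 * ((P : ℝ) + 1)) := by
    intro r hr
    rw [Finset.mem_range] at hr
    have hrK : u (r + 1) ≤ K1 := hum (by omega)
    have h1 := Zr_le (B := B) (k0 := k0) (K1 := K1) (a := u r) (c := u (r + 1)) (W := W r) hw hb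
      (hu r) hrK (hW r) (hW2 r) hbase hkm
    refine h1.trans ?_
    have hWr : (0 : ℝ) < W r := by
      have := hW r
      exact_mod_cast (show 0 < W r by omega)
    have h2 : (6 + 6 * (u r : ℝ)) * (1 / (2 * (W r : ℝ))) ≤ δ / (4 * ((P : ℝ) + 1)) := by
      rw [mul_one_div, div_le_div_iff₀ (by positivity) (by positivity)]
      have h3 := hWδ r
      nlinarith only [h3]
    have h4 : (6 + 6 * (u r : ℝ)) * (2 * M) ≤ δ / (4 * ((P : ℝ) + 1)) := by
      have h5 : (6 + 6 * (u r : ℝ)) ≤ 6 + 6 * (K1 : ℝ) := by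
        have : (u r : ℝ) ≤ (K1 : ℝ) := by exact_mod_cast (hum (by omega : r ≤ P))
        linarith
      calc (6 + 6 * (u r : ℝ)) * (2 * M)
          ≤ (6 + 6 * (K1 : ℝ)) * (2 * (δ / (8 * ((P : ℝ) + 1) * (6 + 6 * (K1 : ℝ))))) := by
            refine mul_le_mul h5 ?_ (by positivity) (by positivity)
            linarith
        _ = δ / (4 * ((P : ℝ) + 1)) := by
            field_simp
            ring
    rw [mul_add]
    exact add_le_add h2 h4
  have hfp := V_first_passage (B := B) (w := w) K k0 m l (by omega)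
  have hPi := hKb B k0 K hSb hk0
  have hDk : DD B w (m - k0) ≤ D := DD_anti (by omega)
  have hsum : ∑ k ∈ Finset.Icc 1 k0, ∑ o ∈ Finset.Icc 1 B,
      rho B k K o * V B w (m - k) (l + K + o) ≤ D * ((1 - ka * c2) ^ r' +
        ∑ r ∈ Finset.range P, (δ / (4 * ((P : ℝ) + 1)) + δ / (4 * ((P : ℝ) + 1)))) := by
    calc ∑ k ∈ Finset.Icc 1 k0, ∑ o ∈ Finset.Icc 1 B,
          rho B k K o * V B w (m - k) (l + K + o)
        ≤ ∑ k ∈ Finset.Icc 1 k0, ∑ o ∈ Finset.Icc 1 B, D * (rho B k K o * (1 - ka * c2) ^ r' +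
          ∑ r ∈ Finset.range P, rho B k K o *
            ∑ β ∈ paths B K1,
              if Stay w (m - k) (l + K + o) β (u r) (u (r + 1)) then wt β else 0) :=
          Finset.sum_le_sum fun k hk => Finset.sum_le_sum fun o ho => hV k hk o ho
      _ = D * ((1 - ka * c2) ^ r' * (∑ k ∈ Finset.Icc 1 k0, ∑ o ∈ Finset.Icc 1 B, rho B k K o) +
          ∑ r ∈ Finset.range P, ∑ k ∈ Finset.Icc 1 k0, ∑ o ∈ Finset.Icc 1 B, rho B k K o *
            ∑ β ∈ paths B K1,
              if Stay w (m - k) (l + K + o) β (u r) (u (r + 1)) then wt β else 0) := by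
          simp only [← Finset.mul_sum, Finset.sum_add_distrib, ← Finset.sum_mul]
          congr 1
          congr 1
          · ring
          · symm
            rw [Finset.sum_comm]
            refine Finset.sum_congr rfl fun k _ => ?_
            rw [Finset.sum_comm]
            refine Finset.sum_congr rfl fun o _ => ?_
            rw [Finset.mul_sum]
      _ ≤ D * ((1 - ka * c2) ^ r' * 1 +
          ∑ r ∈ Finset.range P, (δ / (4 * ((P : ℝ) + 1)) + δ / (4 * ((P : ℝ) + 1)))) := by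
          refine mul_le_mul_of_nonneg_left ?_ hD0
          refine add_le_add ?_ (Finset.sum_le_sum hZ)
          exact mul_le_mul_of_nonneg_left (sum_rho_le_one K k0)
            (pow_nonneg (by norm_num [ka, c2]) _)
      _ = _ := by rw [mul_one]
  have hlast : ∑ r ∈ Finset.range P, (δ / (4 * ((P : ℝ) + 1)) + δ / (4 * ((P : ℝ) + 1))) ≤
      δ / 2 := by
    rw [Finset.sum_const, Finset.card_range, nsmul_eq_mul]
    have h1 : (P : ℝ) * (δ / (4 * ((P : ℝ) + 1)) + δ / (4 * ((P : ℝ) + 1))) =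
        δ / 2 * ((P : ℝ) / ((P : ℝ) + 1)) := by
      field_simp
      ring
    rw [h1]
    have h2 : (P : ℝ) / ((P : ℝ) + 1) ≤ 1 := by
      rw [div_le_one (by positivity)]
      linarith
    nlinarith only [hδ, h2]
  have hPD : Pii B k0 K * DD B w (m - k0) ≤ δ / 4 * D :=
    mul_le_mul hPi hDk (DD_nonneg _) (by positivity)
  calc V B w m l ≤ D * ((1 - ka * c2) ^ r' +
        ∑ r ∈ Finset.range P, (δ / (4 * ((P : ℝ) + 1)) + δ / (4 * ((P : ℝ) + 1)))) +
          δ / 4 * D := hfp.trans (add_le_add hsum hPD)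
    _ ≤ D * (δ / 4 + δ / 2) + δ / 4 * D := by
        have := mul_le_mul_of_nonneg_left (add_le_add hr'.le hlast) hD0
        linarith
    _ = δ * D := by ring

end Pool.Agent.W_e21d3a_h93
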