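import Mathlib

set_option autoImplicit false

/-!
# Definitions for the Fourier decay (proofs row 498, section S4)
-/

namespace Pool.Agent.W_e21d3a_h93

/-- law of the sum of two valuations (used for `b ≥ 2`) -/
noncomputable def q (b : ℕ) : ℝ := ((b : ℝ) - 1) / 2 ^ b

/-- distance to the nearest integer -/
noncomputable def nn (x : ℝ) : ℝ := |x - round x|

/-- a system: the lattice of frequencies -/
structure Sys (w : ℕ → ℕ → ℝ) : Prop where
  r1 : ∀ m l, ∃ z : ℤ, 2 * w m (l + 1) - w m l = z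
  r2 : ∀ m l, ∃ z : ℤ, 9 * w (m + 1) l - w m l = z
  r3 : ∀ m l, (1 : ℝ) / 3 ^ (2 * m + 3) ≤ nn (w m l)

/-- the threshold `ε = 2^{-12}` -/
noncomputable def ep : ℝ := 1 / 4096

/-- `κ = 4 ε²` -/
noncomputable def ka : ℝ := 1 / 4194304

/-- `c₂` -/
noncomputable def c2 : ℝ := 247 / 4096

def Black (w : ℕ → ℕ → ℝ) (m l : ℕ) : Prop := nn (w m l) ≤ ep

/-- number of further black levels above `(m,l)` -/
noncomputable def KK (w : ℕ → ℕ → ℝ) (m l : ℕ) : ℕ := sInf {k | ¬ Black w m (l + k + 1)}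

/-- the step from `(m+1,l)` with `b` (arrival `(m,l+b)`) is internal -/
def Internal (w : ℕ → ℕ → ℝ) (m l b : ℕ) : Prop :=
  Black w (m + 1) l ∧ b ≤ KK w (m + 1) l ∧ Black w m (l + b)

/-- the step from `(m+1,l)` with `b` is a gain -/
def Gain (w : ℕ → ℕ → ℝ) (m l b : ℕ) : Prop := b = 3 ∧ ¬ Black w m (l + 3)

open Classical in
/-- the value function -/
noncomputable def V (B : ℕ) (w : ℕ → ℕ → ℝ) : ℕ → ℕ → ℝ
  | 0, _ => 1
  | m + 1, l => ∑ b ∈ Finset.Icc 2 B,
      q b * (if b = 3 then |Real.cos (Real.pi * w m (l + b))| else 1) * V B w m (l + b)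

/-- `D(m) = sup_l V(m,l)` -/
noncomputable def DD (B : ℕ) (w : ℕ → ℕ → ℝ) (m : ℕ) : ℝ := ⨆ l, V B w m l

open Classical in
/-- the factor `w'` of a step -/
noncomputable def gf (w : ℕ → ℕ → ℝ) (m l b : ℕ) : ℝ := if Gain w m l b then 1 - ka else 1

open Classical in
/-- `U R c m l`: expectation over `R` steps from `(m,l)` of the product of the factors `gf`,
restricted to at least `c` cuts (`0` if `m < R`) -/
noncomputable def U (B : ℕ) (w : ℕ → ℕ → ℝ) : ℕ → ℕ → ℕ → ℕ → ℝ
  | 0, c, _, _ => if c = 0 then 1 else 0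
  | _ + 1, _, 0, _ => 0
  | R + 1, c, m + 1, l => ∑ b ∈ Finset.Icc 2 B,
      q b * gf w m l b * U B w R (if Internal w m l b then c else c - 1) m (l + b)

/-- first passage over level `K` at step `k` with overshoot `o` -/
noncomputable def rho (B : ℕ) : ℕ → ℕ → ℕ → ℝ
  | 0, _, _ => 0
  | 1, K, o => if K + o ≤ B ∧ 2 ≤ K + o then q (K + o) else 0
  | k + 2, K, o => ∑ b ∈ Finset.Icc 2 (min B K), q b * rho B (k + 1) (K - b) o

/-- no passage over level `K` in `k` steps -/
noncomputable def Pii (B : ℕ) : ℕ → ℕ → ℝ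
  | 0, _ => 1
  | k + 1, K => ∑ b ∈ Finset.Icc 2 (min B K), q b * Pii B k (K - b)

/-- lists of length `n` with entries in `[2,B]` -/
def paths (B : ℕ) : ℕ → Finset (List ℕ)
  | 0 => {[]}
  | n + 1 => (Finset.Icc 2 B).biUnion fun b => (paths B n).image (List.cons b)

/-- weight of a path -/
noncomputable def wt (β : List ℕ) : ℝ := (β.map q).prod

/-- along the path `β` started at `(m,l)` there is no cut in the steps number `a+1, ..., c`
(consequence used in the proof) -/
def Stay (w : ℕ → ℕ → ℝ) (m l : ℕ) (β : List ℕ) (a c : ℕ) : Prop :=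
  Black w (m - a) (l + (β.take a).sum) ∧
    (β.take c).sum - (β.take a).sum ≤ KK w (m - a) (l + (β.take a).sum)

end Pool.Agent.W_e21d3a_h93
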