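import Mathlib

set_option autoImplicit false

/-!
# [NC3] definitions for the density hand-in
-/

namespace Pool.Agent.W_e21d3a_h93

/-- `S` has the natural density `s` -/
def HasDens (S : Set ℕ) (s : ℝ) : Prop :=
  Filter.Tendsto (fun X : ℕ => (Nat.card {n : ℕ // 1 ≤ n ∧ n ≤ X ∧ n ∈ S} : ℝ) / X) Filter.atTop (nhds s)

/-- the sum of `⌊y² / N⌋` over the odd numbers `N ∈ (y, 2y]` with `g N = true` -/
def wsum (g : ℕ → Bool) (y : ℕ) : ℕ :=
  ∑ i ∈ Finset.range y, if (y + 1 + i) % 2 = 1 ∧ g (y + 1 + i) = true then y * y / (y + 1 + i) else 0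

end Pool.Agent.W_e21d3a_h93
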