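import Pool.Agent.W_e21d3a_h93.Thm3
import Pool.Agent.W_e21d3a_h93.GDefs

set_option autoImplicit false

/-!
# [NC3] G3a: the natural density of an invariant set with a rate of convergence (row 502, 8.1)

Proof. `cauchy_scales` applied to `fun y => LL y S` (`LL_osc`) gives `C'`, `y1` with
`|LL y' S - LL y S| ≤ C' (log y)^(-1/5)` for `y' ≥ y ≥ y1`; the limit `s` of `LL y S` is the natural density
(`nu_LL`, `odd_density`, `full_density`, as in the proof of `nu_tendsto`, `theorem3`). Finally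
`LL y S = (2 / log 2) ∑ 1/N` and `y² ∑ 1/N - y ≤ wsum ≤ y² ∑ 1/N`, `LL_univ`: the quotient of the two values of
`wsum` is `LL y S + O(1/y)`.
-/

namespace Pool.Agent.W_e21d3a_h93

theorem G3a_wsum (S : Set ℕ) (g : ℕ → Bool) (hg : ∀ n, 0 < n → (g n = true ↔ n ∈ S)) (y : ℕ) :
    (y : ℝ) ^ 2 * (Real.log 2 / 2 * LL y S) - y ≤ (wsum g y : ℝ) ∧
      (wsum g y : ℝ) ≤ (y : ℝ) ^ 2 * (Real.log 2 / 2 * LL y S) := by
  classical
  have h2 : 0 < Real.log 2 := Real.log_pos (by norm_num)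
  have hL : Real.log 2 / 2 * LL y S = ∑ N ∈ (OO y).filter (fun N => N ∈ S), 1 / (N : ℝ) := by
    unfold LL
    field_simp
  have e1 : wsum g y = ∑ N ∈ (OO y).filter (fun N => N ∈ S), y * y / N := by
    unfold wsum
    rw [← Finset.sum_filter]
    refine Finset.sum_nbij (fun i => y + 1 + i) ?_ ?_ ?_ ?_
    · intro i hi
      rw [Finset.mem_filter, Finset.mem_range] at hi
      unfold OO
      rw [Finset.mem_filter, Finset.mem_filter, Finset.mem_Ioc]
      exact ⟨⟨⟨by omega, by omega⟩, hi.2.1⟩, (hg _ (by omega)).1 hi.2.2⟩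
    · intro a _ b _ hab
      have hab' : y + 1 + a = y + 1 + b := hab
      omega
    · intro N hN
      rw [Finset.mem_coe] at hN
      unfold OO at hN
      rw [Finset.mem_filter, Finset.mem_filter, Finset.mem_Ioc] at hN
      obtain ⟨⟨⟨h3, h4⟩, h5⟩, h6⟩ := hN
      refine ⟨N - (y + 1), ?_, ?_⟩
      · rw [Finset.mem_coe, Finset.mem_filter, Finset.mem_range]
        have h7 : y + 1 + (N - (y + 1)) = N := by omega
        rw [h7]
        exact ⟨by omega, h5, (hg N (by omega)).2 h6⟩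
      · change y + 1 + (N - (y + 1)) = N
        omega
    · intro i _
      rfl
  have hpos : ∀ N ∈ (OO y).filter (fun N => N ∈ S), 0 < N := by
    intro N hN
    unfold OO at hN
    rw [Finset.mem_filter, Finset.mem_filter, Finset.mem_Ioc] at hN
    omega
  have hcard : (((OO y).filter (fun N => N ∈ S)).card : ℝ) ≤ y := by
    have h3 : ((OO y).filter (fun N => N ∈ S)).card ≤ y := by
      have h4 : ((OO y).filter (fun N => N ∈ S)).card ≤ (Finset.Ioc y (2 * y)).card :=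
        Finset.card_le_card ((Finset.filter_subset _ _).trans (Finset.filter_subset _ _))
      rw [Nat.card_Ioc] at h4
      omega
    exact_mod_cast h3
  rw [hL, e1, Finset.mul_sum]
  push_cast
  constructor
  · have h3 : ∑ N ∈ (OO y).filter (fun N => N ∈ S), ((y : ℝ) ^ 2 * (1 / (N : ℝ)) - 1) ≤
        ∑ N ∈ (OO y).filter (fun N => N ∈ S), (((y * y / N : ℕ)) : ℝ) := by
      refine Finset.sum_le_sum ?_
      intro N hN
      have hN0 : (0 : ℝ) < (N : ℝ) := by exact_mod_cast hpos N hN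
      have h4 : y * y < N * (y * y / N + 1) := Nat.lt_mul_div_succ _ (hpos N hN)
      have h5 : (y : ℝ) * y < N * ((((y * y / N : ℕ)) : ℝ) + 1) := by exact_mod_cast h4
      have h6 : (y : ℝ) ^ 2 * (1 / (N : ℝ)) = (y : ℝ) * y / N := by ring
      rw [h6]
      have h7 : (y : ℝ) * y / N < (((y * y / N : ℕ)) : ℝ) + 1 := by
        rw [div_lt_iff₀ hN0]
        linarith
      linarith
    rw [Finset.sum_sub_distrib] at h3
    simp only [Finset.sum_const, nsmul_eq_mul, mul_one] at h3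
    linarith
  · refine Finset.sum_le_sum ?_
    intro N hN
    have h6 : (y : ℝ) ^ 2 * (1 / (N : ℝ)) = ((y * y : ℕ) : ℝ) / N := by
      push_cast
      ring
    rw [h6]
    exact Nat.cast_div_le

theorem G3a_limit (S : Set ℕ) (hS : ∀ n, 0 < n → (n ∈ S ↔ col n ∈ S)) :
    ∃ s C : ℝ, ∃ y1 : ℕ, HasDens S s ∧ ∀ y ≥ y1,
      |LL y S - s| ≤ C * (lx y) ^ (-(1 : ℝ) / 5) := by
  classical
  obtain ⟨C, hC, y0, hy0⟩ := LL_osc
  obtain ⟨C', y1, hy1⟩ := cauchy_scales (fun y => LL y S) hC y0 (hy0 S hS)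
  obtain ⟨s, hs⟩ := exists_limit (fun y => LL y S) y1 hy1
  have h1 : Filter.Tendsto (fun y => nu y S - LL y S) Filter.atTop (nhds 0) := by
    rw [Metric.tendsto_atTop]
    intro ε hε
    obtain ⟨y2, hy2⟩ := nu_LL (half_pos hε)
    refine ⟨y2, fun y hy => ?_⟩
    rw [Real.dist_eq, sub_zero]
    have := hy2 S hS y hy
    linarith
  have h2 : Filter.Tendsto (fun y => nu y S) Filter.atTop (nhds s) := by
    have h3 := h1.add hs
    rw [zero_add] at h3
    refine h3.congr fun y => ?_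
    ring
  refine ⟨s, C', y1, ?_, ?_⟩
  · have h3 := full_density S hS s (odd_density S s h2)
    unfold HasDens
    refine h3.congr fun X => ?_
    congr 2
    symm
    refine Nat.subtype_card _ ?_
    intro n
    rw [Finset.mem_filter, Finset.mem_Icc]
    tauto
  · intro y hy
    have h3 : Filter.Tendsto (fun y' => |LL y' S - LL y S|) Filter.atTop
        (nhds |s - LL y S|) := (hs.sub_const _).abs
    have h4 : |s - LL y S| ≤ C' * (lx y) ^ (-(1 : ℝ) / 5) := by
      refine le_of_tendsto h3 ?_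
      filter_upwards [Filter.eventually_ge_atTop y] with y' hy'
      exact hy1 y hy y' hy'
    rw [abs_sub_comm]
    exact h4

theorem G3a_real {K L W W1 c y : ℝ} (hc : 0 < c) (hy : 1 ≤ y) (hL0 : 0 ≤ L) (hLK : L ≤ K)
    (hW1 : |W1 - c * y ^ 2| ≤ K * y) (hW : |W - c * y ^ 2 * L| ≤ y) (hbig : 2 * K ≤ c * y) :
    |W / W1 - L| ≤ (2 * (1 + K * K) / c) / y := by
  have hy0 : 0 < y := by linarith
  have hK0 : 0 ≤ K := by
    linarith
  have h1 : c * y ^ 2 / 2 ≤ W1 := by
    have h2 := (abs_le.1 hW1).1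
    nlinarith
  have h3 : 0 < c * y ^ 2 / 2 := by positivity
  have hW10 : 0 < W1 := by linarith
  have h4 : W / W1 - L = ((W - c * y ^ 2 * L) - L * (W1 - c * y ^ 2)) / W1 := by
    field_simp
    ring
  rw [h4, abs_div, abs_of_pos hW10, div_le_iff₀ hW10]
  have h5 : |(W - c * y ^ 2 * L) - L * (W1 - c * y ^ 2)| ≤ y + K * (K * y) := by
    refine (abs_sub _ _).trans ?_
    rw [abs_mul, abs_of_nonneg hL0]
    have h6 : L * |W1 - c * y ^ 2| ≤ K * (K * y) :=
      mul_le_mul hLK hW1 (abs_nonneg _) hK0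
    linarith
  refine h5.trans ?_
  have h7 : (2 * (1 + K * K) / c) / y * (c * y ^ 2 / 2) = y + K * (K * y) := by
    field_simp
  rw [← h7]
  exact mul_le_mul_of_nonneg_left h1 (by positivity)

theorem wsum_rate (S : Set ℕ) (hS : ∀ n, 0 < n → (n ∈ S ↔ col n ∈ S)) (g : ℕ → Bool)
    (hg : ∀ n, 0 < n → (g n = true ↔ n ∈ S)) :
    ∃ s C : ℝ, ∃ y1 : ℕ, HasDens S s ∧ 0 < C ∧ ∀ y ≥ y1,
      |(wsum g y : ℝ) / wsum (fun _ => true) y - s| ≤ C * (lx y) ^ (-(1 : ℝ) / 5) := by
  classical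
  obtain ⟨s, C', y1, hdens, hrate⟩ := G3a_limit S hS
  obtain ⟨C1, hC1⟩ := LL_univ
  have h2 : 0 < Real.log 2 := Real.log_pos (by norm_num)
  set c : ℝ := Real.log 2 / 2 with hc
  have hc0 : 0 < c := by positivity
  set K : ℝ := 1 + |C1| + c * |C1| with hK
  have hK0 : 1 ≤ K := by
    have h3 := abs_nonneg C1
    have h4 := mul_nonneg hc0.le h3
    rw [hK]
    linarith
  obtain ⟨y2, hy2⟩ := E2_lx_large 1
  refine ⟨s, |C'| + 2 * (1 + K * K) / c, max y1 (max y2 (max 1 ⌈2 * K / c⌉₊)), hdens,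
    by positivity, ?_⟩
  intro y hy
  have hyy1 : y1 ≤ y := le_trans (le_max_left _ _) hy
  have hyy2 : y2 ≤ y := le_trans (le_trans (le_max_left _ _) (le_max_right _ _)) hy
  have hyy3 : 1 ≤ y := le_trans (le_trans (le_max_left _ _) (le_trans (le_max_right _ _)
    (le_max_right _ _))) hy
  have hyy4 : ⌈2 * K / c⌉₊ ≤ y := le_trans (le_trans (le_max_right _ _) (le_trans
    (le_max_right _ _) (le_max_right _ _))) hy
  have hyR : (1 : ℝ) ≤ y := by exact_mod_cast hyy3
  have hy0 : (0 : ℝ) < y := by linarith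
  have hbig : 2 * K ≤ c * y := by
    have h3 : 2 * K / c ≤ (y : ℝ) := le_trans (Nat.le_ceil _) (by exact_mod_cast hyy4)
    rw [div_le_iff₀ hc0] at h3
    linarith
  have hl := hy2 y hyy2
  obtain ⟨h3, h4⟩ := G3a_wsum S g hg y
  obtain ⟨h5, h6⟩ := G3a_wsum Set.univ (fun _ => true) (fun n _ => by simp) y
  rw [← hc] at h3 h4 h5 h6
  have h7 := hC1 y hyy3
  have h8 : |LL y Set.univ - 1| ≤ |C1| / y :=
    h7.trans (div_le_div_of_nonneg_right (le_abs_self _) hy0.le)
  have h9 : LL y S ≤ K := by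
    have h10 := LL_mono y (G := S) (G' := Set.univ) (fun _ _ _ => Set.mem_univ _)
    have h11 := (abs_le.1 h8).2
    have h12 : |C1| / y ≤ |C1| := div_le_self (abs_nonneg _) hyR
    have h13 := mul_nonneg hc0.le (abs_nonneg C1)
    rw [hK]
    linarith
  have h10 : |(wsum (fun _ => true) y : ℝ) - c * (y : ℝ) ^ 2| ≤ K * y := by
    have h11 : |(y : ℝ) ^ 2 * (c * LL y Set.univ) - c * (y : ℝ) ^ 2| ≤ c * |C1| * y := by
      have h12 : (y : ℝ) ^ 2 * (c * LL y Set.univ) - c * (y : ℝ) ^ 2 =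
          c * (y : ℝ) ^ 2 * (LL y Set.univ - 1) := by ring
      rw [h12, abs_mul, abs_of_nonneg (by positivity)]
      calc c * (y : ℝ) ^ 2 * |LL y Set.univ - 1| ≤ c * (y : ℝ) ^ 2 * (|C1| / y) :=
            mul_le_mul_of_nonneg_left h8 (by positivity)
        _ = c * |C1| * y := by
            field_simp
    have h13 := abs_le.1 h11
    have h14 := mul_nonneg (abs_nonneg C1) hy0.le
    rw [abs_le, hK]
    constructor <;> nlinarith
  have h11 : |(wsum g y : ℝ) - c * (y : ℝ) ^ 2 * LL y S| ≤ y := by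
    have h12 : c * (y : ℝ) ^ 2 * LL y S = (y : ℝ) ^ 2 * (c * LL y S) := by ring
    rw [h12, abs_le]
    constructor <;> linarith
  have h12 := G3a_real hc0 hyR (LL_nonneg y S) h9 h10 h11 hbig
  have h13 := hrate y hyy1
  have hl0 : 0 < lx y := by linarith
  have h14 : 1 / (y : ℝ) ≤ (lx y) ^ (-(1 : ℝ) / 5) := by
    have h15 : lx y ≤ (y : ℝ) := by
      unfold lx
      have := Real.log_le_sub_one_of_pos hy0
      linarith
    have h16 : (lx y) ^ (-(1 : ℝ)) ≤ (lx y) ^ (-(1 : ℝ) / 5) :=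
      Real.rpow_le_rpow_of_exponent_le hl (by norm_num)
    have h17 : 1 / (y : ℝ) ≤ (lx y) ^ (-(1 : ℝ)) := by
      rw [Real.rpow_neg_one, ← one_div]
      exact one_div_le_one_div_of_le hl0 h15
    exact h17.trans h16
  have hp : 0 ≤ (lx y) ^ (-(1 : ℝ) / 5) := Real.rpow_nonneg hl0.le _
  have h15 : |LL y S - s| ≤ |C'| * (lx y) ^ (-(1 : ℝ) / 5) :=
    h13.trans (mul_le_mul_of_nonneg_right (le_abs_self _) hp)
  have h16 : (2 * (1 + K * K) / c) / y ≤ (2 * (1 + K * K) / c) * (lx y) ^ (-(1 : ℝ) / 5) := by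
    rw [div_eq_mul_one_div (2 * (1 + K * K) / c) (y : ℝ)]
    exact mul_le_mul_of_nonneg_left h14 (by positivity)
  calc |(wsum g y : ℝ) / wsum (fun _ => true) y - s|
      ≤ |(wsum g y : ℝ) / wsum (fun _ => true) y - LL y S| + |LL y S - s| := abs_sub_le _ _ _
    _ ≤ (2 * (1 + K * K) / c) * (lx y) ^ (-(1 : ℝ) / 5) + |C'| * (lx y) ^ (-(1 : ℝ) / 5) :=
        add_le_add (h12.trans h16) h15
    _ = (|C'| + 2 * (1 + K * K) / c) * (lx y) ^ (-(1 : ℝ) / 5) := by ring

end Pool.Agent.W_e21d3a_h93
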