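import Pool.Agent.W_e21d3a_h93.M1a
import Pool.Agent.W_e21d3a_h93.M1b

set_option autoImplicit false

/-!
# [NC] M1c: reduction to the top digit (row 499, 5.1)
-/

namespace Pool.Agent.W_e21d3a_h93

/-- oscillation of the top digit -/
noncomputable def om (n τ : ℕ) : ℝ :=
  ∑ t ∈ Finset.range (τ + 1), ∑ Y ∈ Finset.range (3 ^ n), |phi n n t Y - phi (n - 1) n t Y / 3|

private theorem m1c_om_nonneg (n τ : ℕ) : 0 ≤ om n τ :=
  Finset.sum_nonneg fun _ _ => Finset.sum_nonneg fun _ _ => abs_nonneg _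

private theorem m1c_conv (H K : ℕ → ℝ) (hH : ∀ s, 0 ≤ H s) (hK : ∀ s, 0 ≤ K s) (τ : ℕ) :
    ∑ t ∈ Finset.range (τ + 1), ∑ s ∈ Finset.range (t + 1), H s * K (t - s) ≤
      (∑ s ∈ Finset.range (τ + 1), H s) * ∑ u ∈ Finset.range (τ + 1), K u := by
  have h1 : ∑ t ∈ Finset.range (τ + 1), ∑ s ∈ Finset.range (t + 1), H s * K (t - s) =
      ∑ s ∈ Finset.range (τ + 1), ∑ t ∈ (Finset.range (τ + 1)).filter (fun t => s ≤ t),
        H s * K (t - s) := by
    apply Finset.sum_comm'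
    intro t a
    simp only [Finset.mem_range, Finset.mem_filter]
    omega
  rw [h1, Finset.sum_mul]
  refine Finset.sum_le_sum fun s _ => ?_
  rw [← Finset.mul_sum]
  apply mul_le_mul_of_nonneg_left _ (hH s)
  have h2 : ∑ t ∈ (Finset.range (τ + 1)).filter (fun t => s ≤ t), K (t - s) =
      ∑ t ∈ ((Finset.range (τ + 1)).filter (fun t => s ≤ t)).image (fun t => t - s), K t := by
    rw [Finset.sum_image]
    intro x hx y hy hxy
    simp only [Finset.coe_filter, Finset.mem_range, Set.mem_ofPred_eq] at hx hy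
    have := hxy
    simp only at this
    omega
  rw [h2]
  refine Finset.sum_le_sum_of_subset_of_nonneg ?_ fun t _ _ => hK t
  intro t ht
  simp only [Finset.mem_image, Finset.mem_filter, Finset.mem_range] at ht ⊢
  obtain ⟨x, ⟨h1, h2⟩, h3⟩ := ht
  omega

/-- the level `i+1` difference is at most `om (i+1)` -/
private theorem m1c_level (i k τ : ℕ) :
    ∑ t ∈ Finset.range (τ + 1), ∑ Y ∈ Finset.range (3 ^ (i + 1 + k)),
      |phi (i + 1) (i + 1 + k) t Y / 3 ^ k - phi i (i + 1 + k) t Y / 3 ^ (k + 1)| ≤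
      om (i + 1) τ := by
  set n := i + 1 + k with hn
  have h1 : ∀ t ∈ Finset.range (τ + 1), ∑ Y ∈ Finset.range (3 ^ n),
      |phi (i + 1) n t Y / 3 ^ k - phi i n t Y / 3 ^ (k + 1)| ≤
      ∑ s ∈ Finset.range (t + 1), (∑ Y ∈ Finset.range (3 ^ (i + 1)),
        |phi (i + 1) (i + 1) s Y - phi i (i + 1) s Y / 3|) * pw k (t - s) := by
    intro t _
    have hper : ∀ Y z : ℤ,
        (fun Y : ℤ => |phi (i + 1) n t Y / 3 ^ k - phi i n t Y / 3 ^ (k + 1)|)
          (Y + 3 ^ (i + 1) * z) =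
        (fun Y : ℤ => |phi (i + 1) n t Y / 3 ^ k - phi i n t Y / 3 ^ (k + 1)|) Y := by
      intro Y z
      have h2 : phi i n t (Y + 3 ^ (i + 1) * z) = phi i n t Y := by
        have := phi_periodic i n t Y (3 * z)
        rw [← this]
        congr 1
        rw [pow_succ]; ring
      simp only [phi_periodic (i + 1) n t Y z, h2]
    have h3 := sum_range_periodic
      (fun Y : ℤ => |phi (i + 1) n t Y / 3 ^ k - phi i n t Y / 3 ^ (k + 1)|)
      (show i + 1 ≤ n by omega) hper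
    rw [h3]
    have hk : n - (i + 1) = k := by omega
    rw [hk]
    have h4 : ∀ Y ∈ Finset.range (3 ^ (i + 1)),
        (3 : ℝ) ^ k * |phi (i + 1) n t Y / 3 ^ k - phi i n t Y / 3 ^ (k + 1)| ≤
        ∑ s ∈ Finset.range (t + 1), |phi (i + 1) (i + 1) s Y - phi i (i + 1) s Y / 3| *
          pw k (t - s) := by
      intro Y _
      have h5 : (3 : ℝ) ^ k * |phi (i + 1) n t Y / 3 ^ k - phi i n t Y / 3 ^ (k + 1)| =
          |phi (i + 1) n t Y - phi i n t Y / 3| := by
        rw [← abs_of_pos (show (0 : ℝ) < 3 ^ k by positivity), ← abs_mul,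
          abs_of_pos (show (0 : ℝ) < 3 ^ k by positivity)]
        congr 1
        rw [pow_succ]
        field_simp
      rw [h5, hn, phi_decomp (le_refl (i + 1)) k t Y, phi_decomp (Nat.le_succ i) k t Y,
        Finset.sum_div, ← Finset.sum_sub_distrib]
      refine le_trans (Finset.abs_sum_le_sum_abs _ _) (le_of_eq ?_)
      refine Finset.sum_congr rfl fun s _ => ?_
      have h6 : phi (i + 1) (i + 1) s Y * pw k (t - s) - phi i (i + 1) s Y * pw k (t - s) / 3 =
          (phi (i + 1) (i + 1) s Y - phi i (i + 1) s Y / 3) * pw k (t - s) := by ring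
      rw [h6, abs_mul, abs_of_nonneg (pw_nonneg k (t - s))]
    rw [Finset.mul_sum]
    refine le_trans (Finset.sum_le_sum h4) (le_of_eq ?_)
    rw [Finset.sum_comm]
    refine Finset.sum_congr rfl fun s _ => ?_
    rw [Finset.sum_mul]
  refine le_trans (Finset.sum_le_sum h1) ?_
  refine le_trans (m1c_conv (fun s => ∑ Y ∈ Finset.range (3 ^ (i + 1)),
        |phi (i + 1) (i + 1) s Y - phi i (i + 1) s Y / 3|) (fun u => pw k u)
        (fun s => Finset.sum_nonneg fun _ _ => abs_nonneg _) (fun u => pw_nonneg k u) τ) ?_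
  have h2 := sum_pw_le_one k τ
  have h3 : (∑ s ∈ Finset.range (τ + 1), ∑ Y ∈ Finset.range (3 ^ (i + 1)),
        |phi (i + 1) (i + 1) s Y - phi i (i + 1) s Y / 3|) = om (i + 1) τ := by
    unfold om
    simp
  rw [h3]
  exact mul_le_of_le_one_right (m1c_om_nonneg _ _) h2

/-- telescoping -/
private theorem m1c_tel (m k τ : ℕ) :
    ∑ t ∈ Finset.range (τ + 1), ∑ Y ∈ Finset.range (3 ^ (m + k)),
      |phi (m + k) (m + k) t Y - phi m (m + k) t Y / 3 ^ k| ≤
      ∑ j ∈ Finset.range k, om (m + j + 1) τ := by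
  have h1 : ∀ (t : ℕ) (Y : ℤ), phi (m + k) (m + k) t Y - phi m (m + k) t Y / 3 ^ k =
      ∑ j ∈ Finset.range k, (phi (m + j + 1) (m + k) t Y / 3 ^ (k - (j + 1)) -
        phi (m + j) (m + k) t Y / 3 ^ (k - j)) := by
    intro t Y
    have := Finset.sum_range_sub (fun j => phi (m + j) (m + k) t Y / 3 ^ (k - j)) k
    simp only [Nat.sub_self, pow_zero, div_one, add_zero, Nat.sub_zero] at this
    rw [← this]
    rfl
  have h2 : ∀ t ∈ Finset.range (τ + 1), ∑ Y ∈ Finset.range (3 ^ (m + k)),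
      |phi (m + k) (m + k) t Y - phi m (m + k) t Y / 3 ^ k| ≤
      ∑ j ∈ Finset.range k, ∑ Y ∈ Finset.range (3 ^ (m + k)),
        |phi (m + j + 1) (m + k) t Y / 3 ^ (k - (j + 1)) -
        phi (m + j) (m + k) t Y / 3 ^ (k - j)| := by
    intro t _
    rw [Finset.sum_comm]
    refine Finset.sum_le_sum fun Y _ => ?_
    rw [h1]
    exact Finset.abs_sum_le_sum_abs _ _
  refine le_trans (Finset.sum_le_sum h2) ?_
  rw [Finset.sum_comm]
  refine Finset.sum_le_sum fun j hj => ?_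
  rw [Finset.mem_range] at hj
  obtain ⟨c, rfl⟩ : ∃ c, k = j + 1 + c := ⟨k - (j + 1), by omega⟩
  have h3 := m1c_level (m + j) c τ
  have e1 : m + (j + 1 + c) = m + j + 1 + c := by ring
  have e2 : j + 1 + c - (j + 1) = c := by omega
  have e3 : j + 1 + c - j = c + 1 := by omega
  rw [e1, e2, e3]
  exact h3

private theorem m1c_sum_sq (m k : ℕ) (hm : 1 ≤ m) :
    ∑ j ∈ Finset.range k, 1 / ((m + j + 1 : ℕ) : ℝ) ^ 2 ≤ 1 / (m : ℝ) - 1 / ((m + k : ℕ) : ℝ) := by
  induction k with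
  | zero => simp
  | succ k ih =>
    rw [Finset.sum_range_succ]
    have hm' : (0 : ℝ) < m := by exact_mod_cast hm
    have h1 : 1 / ((m + k + 1 : ℕ) : ℝ) ^ 2 ≤
        1 / ((m + k : ℕ) : ℝ) - 1 / ((m + (k + 1) : ℕ) : ℝ) := by
      push_cast
      have h2 : (0 : ℝ) < m + k := by positivity
      rw [div_sub_div _ _ (by positivity) (by positivity), div_le_div_iff₀ (by positivity)
        (by positivity)]
      nlinarith
    linarith

/-- 5.1 -/
theorem mixing_of_om (h : ∀ A : ℕ, ∃ C : ℝ, ∀ n τ : ℕ, 1 ≤ n → om n τ ≤ C / (n : ℝ) ^ A) (A : ℕ) :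
    ∃ C : ℝ, 0 < C ∧ ∀ m n τ : ℕ, 1 ≤ m → m ≤ n →
      ∑ t ∈ Finset.range (τ + 1), ∑ Y ∈ Finset.range (3 ^ n),
        |phi n n t Y - phi m n t Y / 3 ^ (n - m)| ≤ C / (m : ℝ) ^ A := by
  obtain ⟨C, hC⟩ := h (A + 2)
  refine ⟨|C| + 1, by positivity, ?_⟩
  intro m n τ hm hmn
  obtain ⟨k, rfl⟩ : ∃ k, n = m + k := ⟨n - m, by omega⟩
  have e : m + k - m = k := by omega
  rw [e]
  refine le_trans (m1c_tel m k τ) ?_
  have hm' : (0 : ℝ) < m := by exact_mod_cast hm
  have hm1 : (1 : ℝ) ≤ m := by exact_mod_cast hm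
  have h1 : ∀ j ∈ Finset.range k, om (m + j + 1) τ ≤
      (|C| + 1) / (m : ℝ) ^ A * (1 / ((m + j + 1 : ℕ) : ℝ) ^ 2) := by
    intro j _
    refine le_trans (hC (m + j + 1) τ (by omega)) ?_
    have h2 : (m : ℝ) ≤ ((m + j + 1 : ℕ) : ℝ) := by push_cast; linarith [(Nat.cast_nonneg j : (0:ℝ) ≤ j)]
    have h3 : (0 : ℝ) < ((m + j + 1 : ℕ) : ℝ) := by linarith
    rw [pow_add, div_mul_div_comm, mul_one]
    apply div_le_div₀ (by positivity)
    · linarith [le_abs_self C]
    · positivity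
    · apply mul_le_mul_of_nonneg_right _ (by positivity)
      exact pow_le_pow_left₀ hm'.le h2 A
  refine le_trans (Finset.sum_le_sum h1) ?_
  rw [← Finset.mul_sum]
  have h4 := m1c_sum_sq m k hm
  have h5 : ∑ j ∈ Finset.range k, 1 / ((m + j + 1 : ℕ) : ℝ) ^ 2 ≤ 1 := by
    have h6 : (0 : ℝ) ≤ 1 / ((m + k : ℕ) : ℝ) := by positivity
    have h7 : 1 / (m : ℝ) ≤ 1 := by
      rw [div_le_one hm']; exact hm1
    linarith
  apply mul_le_of_le_one_right (by positivity) h5

end Pool.Agent.W_e21d3a_h93
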