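import Pool.Agent.W_e21d3a_h93.P1
import Pool.Agent.W_e21d3a_h93.B1b

set_option autoImplicit false

/-!
# [NC] M2a: good lists, injectivity (row 499, 5.2)
-/

namespace Pool.Agent.W_e21d3a_h93

/-- constants: `c₄ = A+4`, `c₃ = 2A+6` -/
def k4 (A : ℕ) : ℕ := A + 4

def k3 (A : ℕ) : ℕ := 2 * A + 6

/-- `L = ⌈log₂ n⌉` -/
def Lg (n : ℕ) : ℕ := Nat.clog 2 n

/-- the threshold `τ₁ = ⌊n log₂ 3⌋ - (c₃+c₄) L` -/
def tau1 (A n : ℕ) : ℕ := Nat.log 2 (3 ^ n) - (k3 A + k4 A) * Lg n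

/-- admissible beginnings: the stopping time is `i`, the sum is `s`, `X` is not too large -/
def Beg (A n i s : ℕ) (β : List ℕ) : Prop :=
  (β.take (i - 1)).sum < tau1 A n ∧ tau1 A n ≤ s ∧ s ≤ tau1 A n + k4 A * Lg n ∧
    XX β ≤ 2 ^ (k3 A * Lg n)

/-- good lists -/
def GoodL (A n : ℕ) (l : List ℕ) : Prop :=
  l.sum ≤ 10 * n ∧ ∃ i, 1 ≤ i ∧ 10 * i ≤ 9 * n ∧ Beg A n i (l.take i).sum (l.take i)

theorem M2a_take_mono (l : List ℕ) {i j : ℕ} (h : i ≤ j) : (l.take i).sum ≤ (l.take j).sum := by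
  have h1 : l.take i = (l.take j).take i := by rw [List.take_take, min_eq_left h]
  rw [h1]
  have h2 := List.sum_take_add_sum_drop (l.take j) i
  omega

theorem M2a_log (c : ℕ) : ∃ n0, ∀ n ≥ n0, 2 ≤ n ∧ c * Lg n + 1 ≤ Nat.log 2 (3 ^ n) := by
  refine ⟨2 ^ (c + 4), fun n hn => ?_⟩
  have hn0 : n ≠ 0 := by
    have := Nat.one_le_two_pow (n := c + 4)
    omega
  have hn2 : 2 ≤ n := by
    have : 2 ^ 1 ≤ 2 ^ (c + 4) := Nat.pow_le_pow_right (by norm_num) (by omega)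
    omega
  have hL : c + 4 ≤ Nat.log 2 n := (Nat.le_log_iff_pow_le (by norm_num) hn0).2 hn
  have hp : 2 ^ Nat.log 2 n ≤ n := Nat.pow_log_le_self 2 hn0
  have hsq : ∀ k : ℕ, 4 ≤ k → k ^ 2 ≤ 2 ^ k := by
    intro k hk
    induction k, hk using Nat.le_induction with
    | base => norm_num
    | succ k hk ih =>
      rw [pow_succ 2 k]
      nlinarith
  have h3 := hsq (Nat.log 2 n) (by omega)
  have hcl : Lg n ≤ Nat.log 2 n + 1 := by
    unfold Lg
    rw [Nat.clog_le_iff_le_pow (by norm_num)]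
    exact (Nat.lt_pow_succ_log_self (by norm_num) n).le
  have hQ : n ≤ Nat.log 2 (3 ^ n) := by
    rw [Nat.le_log_iff_pow_le (by norm_num) (by positivity)]
    exact Nat.pow_le_pow_left (by norm_num) n
  refine ⟨hn2, ?_⟩
  have h4 : c * Lg n ≤ c * (Nat.log 2 n + 1) := Nat.mul_le_mul_left c hcl
  nlinarith

/-- the stopping time is unique -/
theorem stop_unique {A n i i' : ℕ} {l : List ℕ} (h : (l.take (i - 1)).sum < tau1 A n)
    (h1 : tau1 A n ≤ (l.take i).sum) (h' : (l.take (i' - 1)).sum < tau1 A n)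
    (h1' : tau1 A n ≤ (l.take i').sum) (hi : 1 ≤ i) (hi' : 1 ≤ i') : i = i' := by
  rcases lt_trichotomy i i' with hlt | rfl | hlt
  · have := M2a_take_mono l (show i ≤ i' - 1 by omega)
    omega
  · rfl
  · have := M2a_take_mono l (show i' ≤ i - 1 by omega)
    omega

/-- `cc` is injective on lists of given length and sum -/
theorem cc_inj {i s : ℕ} {β β' : List ℕ} (h : β ∈ comps i s) (h' : β' ∈ comps i s)
    (hc : cc β = cc β') : β = β' := by
  induction i generalizing s β β' with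
  | zero =>
    rw [mem_comps] at h h'
    rw [List.length_eq_zero_iff.1 h.1, List.length_eq_zero_iff.1 h'.1]
  | succ i ih =>
    rw [mem_comps] at h h'
    obtain ⟨β₀, a, rfl⟩ : ∃ β₀ a, β = β₀ ++ [a] := by
      rcases List.eq_nil_or_concat' β with h0 | h0
      · rw [h0] at h
        simp at h
      · exact h0
    obtain ⟨β₀', a', rfl⟩ : ∃ β₀ a, β' = β₀ ++ [a] := by
      rcases List.eq_nil_or_concat' β' with h0 | h0
      · rw [h0] at h'
        simp at h'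
      · exact h0
    obtain ⟨l1, l2, l3⟩ := h
    obtain ⟨m1, m2, m3⟩ := h'
    rw [List.length_append, List.length_singleton] at l1 m1
    rw [List.sum_append, List.sum_singleton] at l2 m2
    rw [cc_concat, cc_concat] at hc
    have k1 : β₀.length = i := by omega
    have k2 : β₀'.length = i := by omega
    rw [k1, k2] at hc
    have hc' : 2 ^ a * cc β₀ = 2 ^ a' * cc β₀' := by omega
    rcases Nat.eq_zero_or_pos i with hi | hi
    · rw [hi] at k1 k2
      rw [List.length_eq_zero_iff] at k1 k2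
      subst k1 k2
      simp only [List.sum_nil, zero_add] at l2 m2
      rw [l2, m2]
    · have o1 : cc β₀ % 2 = 1 := cc_odd (by
        rintro rfl
        simp at k1
        omega) fun b hb => l3 b (List.mem_append_left _ hb)
      have o2 : cc β₀' % 2 = 1 := cc_odd (by
        rintro rfl
        simp at k2
        omega) fun b hb => m3 b (List.mem_append_left _ hb)
      have haa : a = a' := by
        have key : ∀ {a b x y : ℕ}, 2 ^ a * x = 2 ^ b * y → y % 2 = 1 → b ≤ a → a = b := by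
          intro a b x y hxy hy hba
          by_contra hne
          obtain ⟨k, rfl⟩ : ∃ k, a = b + (k + 1) := ⟨a - b - 1, by omega⟩
          rw [pow_add, mul_assoc] at hxy
          have h6 := Nat.eq_of_mul_eq_mul_left (by positivity) hxy
          have h7 : 2 ∣ y := h6 ▸ (dvd_mul_of_dvd_left (dvd_pow_self 2 (Nat.succ_ne_zero k)) x)
          omega
        rcases le_total a' a with h6 | h6
        · exact key hc' o2 h6
        · exact (key hc'.symm o1 h6).symm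
      subst haa
      have h7 : cc β₀ = cc β₀' := Nat.eq_of_mul_eq_mul_left (by positivity) hc'
      have h8 := ih (s := s - a) (β := β₀) (β' := β₀')
        (mem_comps.2 ⟨k1, by omega, fun b hb => l3 b (List.mem_append_left _ hb)⟩)
        (mem_comps.2 ⟨k2, by omega, fun b hb => m3 b (List.mem_append_left _ hb)⟩) h7
      rw [h8]

/-- admissible beginnings have `cc < 3^n`, for large `n` -/
theorem cc_lt_of_Beg (A : ℕ) : ∃ n0, ∀ n ≥ n0, ∀ i s β, 1 ≤ i → β ∈ comps i s → Beg A n i s β →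
    cc β < 3 ^ n := by
  obtain ⟨n0, h0⟩ := M2a_log (k3 A + k4 A)
  refine ⟨n0, fun n hn i s β _ hβ hB => ?_⟩
  obtain ⟨hn2, hQ⟩ := h0 n hn
  rw [mem_comps] at hβ
  obtain ⟨-, -, b3, b4⟩ := hB
  have h1 : (cc β : ℝ) ≤ 2 ^ Nat.log 2 (3 ^ n) := by
    rw [cc_eq_XX, hβ.2.1]
    calc (2 : ℝ) ^ s * XX β ≤ 2 ^ (tau1 A n + k4 A * Lg n) * 2 ^ (k3 A * Lg n) := by
          refine mul_le_mul (pow_le_pow_right₀ (by norm_num) b3) b4 (XX_nonneg _) (by positivity)
      _ = 2 ^ Nat.log 2 (3 ^ n) := by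
          rw [← pow_add]
          congr 1
          unfold tau1
          have : (k3 A + k4 A) * Lg n = k3 A * Lg n + k4 A * Lg n := Nat.add_mul _ _ _
          omega
  have h2 : cc β ≤ 2 ^ Nat.log 2 (3 ^ n) := by exact_mod_cast h1
  have h3 : 2 ^ Nat.log 2 (3 ^ n) ≤ 3 ^ n := Nat.pow_log_le_self 2 (by positivity)
  refine lt_of_le_of_lt h2 (lt_of_le_of_ne h3 ?_)
  intro h4
  have h5 : Odd (3 ^ n) := Odd.pow (by decide)
  rw [← h4] at h5
  have h6 : Even (2 ^ Nat.log 2 (3 ^ n)) := (Nat.even_pow.2 ⟨by decide, by omega⟩)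
  exact (Nat.not_even_iff_odd.2 h5) h6

/-- hence `cc` modulo `3^n` is injective on them -/
theorem cc_mod_inj (A : ℕ) : ∃ n0, ∀ n ≥ n0, ∀ i s β β', 1 ≤ i → β ∈ comps i s → β' ∈ comps i s →
    Beg A n i s β → Beg A n i s β' → (3 : ℤ) ^ n ∣ (cc β : ℤ) - cc β' → β = β' := by
  obtain ⟨n0, h0⟩ := cc_lt_of_Beg A
  refine ⟨n0, fun n hn i s β β' hi hβ hβ' hB hB' hd => cc_inj hβ hβ' ?_⟩
  have h1 := h0 n hn i s β hi hβ hB
  have h2 := h0 n hn i s β' hi hβ' hB'
  have h3 : (cc β : ℤ) - cc β' = 0 := by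
    refine Int.eq_zero_of_abs_lt_dvd hd ?_
    have h4 : (cc β : ℤ) < 3 ^ n := by exact_mod_cast h1
    have h5 : (cc β' : ℤ) < 3 ^ n := by exact_mod_cast h2
    rw [abs_lt]
    constructor <;> linarith [Int.natCast_nonneg (cc β), Int.natCast_nonneg (cc β')]
  omega

/-- `3^n 2^{-τ₁} ≤ 4 (2n)^{c₃+c₄}` for large `n` -/
theorem two_pow_tau1 (A : ℕ) : ∃ n0, ∀ n ≥ n0, 1 ≤ tau1 A n ∧
    (3 : ℝ) ^ n / 2 ^ tau1 A n ≤ 4 * (2 * n) ^ (k3 A + k4 A) := by
  obtain ⟨n0, h0⟩ := M2a_log (k3 A + k4 A)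
  refine ⟨n0, fun n hn => ?_⟩
  obtain ⟨hn2, hQ⟩ := h0 n hn
  refine ⟨by unfold tau1; omega, ?_⟩
  have h1 : (3 : ℝ) ^ n ≤ 2 ^ (Nat.log 2 (3 ^ n) + 1) := by
    exact_mod_cast (Nat.lt_pow_succ_log_self (by norm_num) (3 ^ n)).le
  have h2 : (2 : ℝ) ^ Lg n ≤ 2 * n := by
    have h3 : 2 ^ (Lg n - 1) < n := by
      unfold Lg
      have := Nat.pow_pred_clog_lt_self (b := 2) (by norm_num) (x := n) (by omega)
      simpa [Nat.pred_eq_sub_one] using this
    have h4 : 1 ≤ Lg n := by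
      unfold Lg
      exact Nat.clog_pos (by norm_num) hn2
    have h5 : 2 ^ Lg n = 2 * 2 ^ (Lg n - 1) := by
      obtain ⟨k, hk⟩ : ∃ k, Lg n = k + 1 := ⟨Lg n - 1, by omega⟩
      rw [hk, Nat.add_sub_cancel, pow_succ]
      ring
    have h6 : 2 ^ Lg n ≤ 2 * n := by omega
    exact_mod_cast h6
  rw [div_le_iff₀ (by positivity)]
  calc (3 : ℝ) ^ n ≤ 2 ^ (Nat.log 2 (3 ^ n) + 1) := h1
    _ = 2 * (2 ^ Lg n) ^ (k3 A + k4 A) * 2 ^ tau1 A n := by
        rw [← pow_mul, mul_assoc, ← pow_add, ← pow_succ']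
        congr 1
        unfold tau1
        have : Lg n * (k3 A + k4 A) = (k3 A + k4 A) * Lg n := Nat.mul_comm _ _
        omega
    _ ≤ 4 * (2 * n) ^ (k3 A + k4 A) * 2 ^ tau1 A n := by
        gcongr
        norm_num

end Pool.Agent.W_e21d3a_h93
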