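import Pool.Agent.W_e21d3a_h93.P1
import Pool.Agent.W_e21d3a_h93.B1b

set_option autoImplicit false

/-!
# [NC] P2c: the square root moment of X (row 497, (1.4))
-/

namespace Pool.Agent.W_e21d3a_h93

private theorem p2c_reindex (G : ℕ → ℕ → ℝ) (hG : ∀ a t, 0 ≤ G a t) (τ : ℕ) :
    ∑ t ∈ Finset.range (τ + 1), ∑ a ∈ Finset.Icc 1 t, G a (t - a) ≤
      ∑ a ∈ Finset.Icc 1 τ, ∑ t ∈ Finset.range (τ + 1), G a t := by
  have h1 : ∑ t ∈ Finset.range (τ + 1), ∑ a ∈ Finset.Icc 1 t, G a (t - a) =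
      ∑ a ∈ Finset.Icc 1 τ, ∑ t ∈ (Finset.range (τ + 1)).filter (fun t => a ≤ t),
        G a (t - a) := by
    apply Finset.sum_comm'
    intro t a
    simp only [Finset.mem_range, Finset.mem_Icc, Finset.mem_filter]
    omega
  rw [h1]
  refine Finset.sum_le_sum fun a _ => ?_
  have h2 : ∑ t ∈ (Finset.range (τ + 1)).filter (fun t => a ≤ t), G a (t - a) =
      ∑ t ∈ ((Finset.range (τ + 1)).filter (fun t => a ≤ t)).image (fun t => t - a), G a t := by
    rw [Finset.sum_image]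
    intro x hx y hy hxy
    simp only [Finset.coe_filter, Finset.mem_range, Set.mem_ofPred_eq] at hx hy
    have := hxy
    simp only at this
    omega
  rw [h2]
  refine Finset.sum_le_sum_of_subset_of_nonneg ?_ fun t _ _ => hG a t
  intro t ht
  simp only [Finset.mem_image, Finset.mem_filter, Finset.mem_range] at ht ⊢
  obtain ⟨x, ⟨h1, h2⟩, h3⟩ := ht
  omega

/-- the ratio `2^{-3/2}` -/
private theorem p2c_geom (τ : ℕ) :
    ∑ a ∈ Finset.Icc 1 τ, (1 / (2 * Real.sqrt 2)) ^ a ≤ 1 / (2 * Real.sqrt 2 - 1) := by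
  have hs : (1 : ℝ) < Real.sqrt 2 := by
    rw [show (1 : ℝ) = Real.sqrt 1 by simp]
    exact Real.sqrt_lt_sqrt (by norm_num) (by norm_num)
  set r : ℝ := 1 / (2 * Real.sqrt 2) with hr
  have hr0 : 0 < r := by positivity
  have hr1 : r < 1 := by
    rw [hr, div_lt_one (by positivity)]
    linarith
  have key : ∀ n : ℕ, ∑ a ∈ Finset.Icc 1 n, r ^ a = r * (1 - r ^ n) / (1 - r) := by
    intro n
    induction n with
    | zero => simp
    | succ n ih =>
      rw [Finset.sum_Icc_succ_top (by omega), ih]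
      have : (1 - r) ≠ 0 := by linarith
      field_simp
      ring
  rw [key τ]
  have h3 : 1 / (2 * Real.sqrt 2 - 1) = r / (1 - r) := by
    have h4 : (1 - r) ≠ 0 := by linarith
    have h5 : (2 * Real.sqrt 2 - 1) ≠ 0 := by linarith
    rw [hr] at h4 ⊢
    have h6 : Real.sqrt 2 ≠ 0 := by positivity
    field_simp
  rw [h3]
  have h4 : 0 < 1 - r := by linarith
  apply div_le_div_of_nonneg_right _ h4.le
  have : 0 ≤ r ^ τ := by positivity
  nlinarith

private theorem p2c_sqrt_cons (a : ℕ) (l : List ℕ) :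
    Real.sqrt (XX (a :: l)) ≤ (1 / Real.sqrt 2) ^ a * (1 + Real.sqrt 3 * Real.sqrt (XX l)) := by
  have h0 := XX_nonneg l
  have hX : XX (a :: l) = (1 + 3 * XX l) / 2 ^ a := rfl
  rw [hX]
  apply Real.sqrt_le_iff.mpr
  constructor
  · positivity
  · have h1 : ((1 / Real.sqrt 2) ^ a) ^ 2 = 1 / 2 ^ a := by
      rw [← pow_mul, mul_comm a 2, pow_mul, div_pow, Real.sq_sqrt (by norm_num)]
      simp
    rw [mul_pow, h1]
    have h2 : (1 + Real.sqrt 3 * Real.sqrt (XX l)) ^ 2 =
        1 + 3 * XX l + 2 * (Real.sqrt 3 * Real.sqrt (XX l)) := by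
      have h3 : Real.sqrt 3 ^ 2 = 3 := Real.sq_sqrt (by norm_num)
      have h4 : Real.sqrt (XX l) ^ 2 = XX l := Real.sq_sqrt h0
      calc (1 + Real.sqrt 3 * Real.sqrt (XX l)) ^ 2
          = 1 + Real.sqrt 3 ^ 2 * Real.sqrt (XX l) ^ 2
            + 2 * (Real.sqrt 3 * Real.sqrt (XX l)) := by ring
        _ = _ := by rw [h3, h4]
    rw [h2]
    have h5 : 0 ≤ Real.sqrt 3 * Real.sqrt (XX l) := by positivity
    rw [div_eq_mul_one_div, mul_comm]
    apply mul_le_mul_of_nonneg_left _ (by positivity)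
    linarith

private theorem p2c_moment (n τ : ℕ) :
    ∑ t ∈ Finset.range (τ + 1), (∑ l ∈ comps n t, Real.sqrt (XX l)) / 2 ^ t ≤ 11 := by
  induction n with
  | zero =>
    have h : ∀ t ∈ Finset.range (τ + 1), (∑ l ∈ comps 0 t, Real.sqrt (XX l)) / 2 ^ t = 0 := by
      intro t _
      rw [sum_comps_zero]
      have : XX [] = 0 := rfl
      rw [this]
      simp
    rw [Finset.sum_eq_zero h]
    norm_num
  | succ n ih =>
    set G : ℕ → ℕ → ℝ := fun a t =>
      (1 / (2 * Real.sqrt 2)) ^ a *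
        ((∑ l ∈ comps n t, (1 + Real.sqrt 3 * Real.sqrt (XX l))) / 2 ^ t) with hGdef
    have hG0 : ∀ a t, 0 ≤ G a t := by
      intro a t
      simp only [hGdef]
      apply mul_nonneg (by positivity)
      apply div_nonneg _ (by positivity)
      exact Finset.sum_nonneg fun l _ => by positivity
    have h1 : ∑ t ∈ Finset.range (τ + 1), (∑ l ∈ comps (n + 1) t, Real.sqrt (XX l)) / 2 ^ t ≤
        ∑ t ∈ Finset.range (τ + 1), ∑ a ∈ Finset.Icc 1 t, G a (t - a) := by
      refine Finset.sum_le_sum fun t _ => ?_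
      rw [sum_comps_succ, Finset.sum_div]
      refine Finset.sum_le_sum fun a ha => ?_
      simp only [Finset.mem_Icc] at ha
      have h2 : ∑ l ∈ comps n (t - a), Real.sqrt (XX (a :: l)) ≤
          (1 / Real.sqrt 2) ^ a * ∑ l ∈ comps n (t - a), (1 + Real.sqrt 3 * Real.sqrt (XX l)) := by
        rw [Finset.mul_sum]
        exact Finset.sum_le_sum fun l _ => p2c_sqrt_cons a l
      have h3 : (2 : ℝ) ^ t = 2 ^ a * 2 ^ (t - a) := by
        rw [← pow_add]; congr 1; omega
      have h4 : G a (t - a) = ((1 / Real.sqrt 2) ^ a *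
          ∑ l ∈ comps n (t - a), (1 + Real.sqrt 3 * Real.sqrt (XX l))) / 2 ^ t := by
        simp only [hGdef]
        rw [h3]
        have h6 : Real.sqrt 2 ≠ 0 := by positivity
        rw [div_pow, div_pow, mul_pow, one_pow]
        field_simp
      rw [h4]
      exact div_le_div_of_nonneg_right h2 (by positivity)
    have h2 := p2c_reindex G hG0 τ
    have h3 : ∀ a ∈ Finset.Icc 1 τ, ∑ t ∈ Finset.range (τ + 1), G a t ≤
        (1 / (2 * Real.sqrt 2)) ^ a * (1 + Real.sqrt 3 * 11) := by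
      intro a _
      simp only [hGdef]
      rw [← Finset.mul_sum]
      apply mul_le_mul_of_nonneg_left _ (by positivity)
      have h4 : ∀ t ∈ Finset.range (τ + 1),
          (∑ l ∈ comps n t, (1 + Real.sqrt 3 * Real.sqrt (XX l))) / 2 ^ t =
          pw n t + Real.sqrt 3 * ((∑ l ∈ comps n t, Real.sqrt (XX l)) / 2 ^ t) := by
        intro t _
        rw [Finset.sum_add_distrib, Finset.sum_const, nsmul_eq_mul, mul_one, ← Finset.mul_sum,
          add_div, mul_div_assoc]
        rfl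
      rw [Finset.sum_congr rfl h4, Finset.sum_add_distrib, ← Finset.mul_sum]
      have h5 := sum_pw_le_one n τ
      have h6 : 0 ≤ Real.sqrt 3 := Real.sqrt_nonneg 3
      nlinarith
    have h4 : ∑ a ∈ Finset.Icc 1 τ, ∑ t ∈ Finset.range (τ + 1), G a t ≤
        (∑ a ∈ Finset.Icc 1 τ, (1 / (2 * Real.sqrt 2)) ^ a) * (1 + Real.sqrt 3 * 11) := by
      rw [Finset.sum_mul]
      exact Finset.sum_le_sum h3
    have h5 := p2c_geom τ
    have hs3 : Real.sqrt 3 ≤ 1.73206 := by
      rw [Real.sqrt_le_iff]; norm_num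
    have hs2 : 1.41421 ≤ Real.sqrt 2 := by
      apply Real.le_sqrt_of_sq_le; norm_num
    have h6 : 1 / (2 * Real.sqrt 2 - 1) ≤ 0.54702 := by
      rw [div_le_iff₀ (by linarith)]
      nlinarith
    have h7 : 0 ≤ Real.sqrt 3 := Real.sqrt_nonneg 3
    have h8 : (∑ a ∈ Finset.Icc 1 τ, (1 / (2 * Real.sqrt 2)) ^ a) * (1 + Real.sqrt 3 * 11) ≤
        0.54702 * (1 + 1.73206 * 11) := by
      apply mul_le_mul
      · linarith
      · linarith
      · positivity
      · norm_num
    have h9 : (0.54702 : ℝ) * (1 + 1.73206 * 11) ≤ 11 := by norm_num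
    linarith

/-- (1.4) -/
theorem Pr_XX (n τ : ℕ) {Y : ℝ} (hY : 0 < Y) :
    Pr n τ (fun l => Y < XX l) ≤ 11 / Real.sqrt Y := by
  classical
  have hs : 0 < Real.sqrt Y := Real.sqrt_pos.mpr hY
  rw [le_div_iff₀ hs]
  refine le_trans ?_ (p2c_moment n τ)
  unfold Pr
  rw [Finset.sum_mul]
  refine Finset.sum_le_sum fun t _ => ?_
  rw [div_mul_eq_mul_div]
  apply div_le_div_of_nonneg_right _ (by positivity)
  have h1 : ∑ l ∈ (comps n t).filter (fun l => Y < XX l), Real.sqrt (XX l) ≤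
      ∑ l ∈ comps n t, Real.sqrt (XX l) :=
    Finset.sum_le_sum_of_subset_of_nonneg (Finset.filter_subset _ _)
      fun l _ _ => Real.sqrt_nonneg _
  refine le_trans ?_ h1
  have h2 : ∑ l ∈ (comps n t).filter (fun l => Y < XX l), Real.sqrt Y ≤
      ∑ l ∈ (comps n t).filter (fun l => Y < XX l), Real.sqrt (XX l) := by
    refine Finset.sum_le_sum fun l hl => ?_
    exact Real.sqrt_le_sqrt (Finset.mem_filter.mp hl).2.le
  rw [Finset.sum_const, nsmul_eq_mul] at h2
  convert h2 using 2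

end Pool.Agent.W_e21d3a_h93
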