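import Pool.Agent.W_e21d3a_h93.P1

set_option autoImplicit false

/-!
# [NC] P2d: small sums, large sums, large entries (row 497, (1.5))
-/

namespace Pool.Agent.W_e21d3a_h93

/-- exchange of the first entry and the sum -/
theorem P2d_swap (τ : ℕ) (G : ℕ → ℕ → ℝ) :
    ∑ t ∈ Finset.range (τ + 1), ∑ a ∈ Finset.Icc 1 t, G a (t - a) =
      ∑ a ∈ Finset.Icc 1 τ, ∑ t ∈ Finset.range (τ - a + 1), G a t := by
  rw [Finset.sum_sigma', Finset.sum_sigma']
  refine Finset.sum_bij' (fun x _ => ⟨x.2, x.1 - x.2⟩) (fun x _ => ⟨x.2 + x.1, x.1⟩) ?_ ?_ ?_ ?_ ?_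
  · rintro ⟨t, a⟩ h
    simp only [Finset.mem_sigma, Finset.mem_range, Finset.mem_Icc] at h ⊢
    omega
  · rintro ⟨a, t⟩ h
    simp only [Finset.mem_sigma, Finset.mem_range, Finset.mem_Icc] at h ⊢
    omega
  · rintro ⟨t, a⟩ h
    simp only [Finset.mem_sigma, Finset.mem_range, Finset.mem_Icc] at h ⊢
    congr 1
    omega
  · rintro ⟨a, t⟩ h
    simp only [Finset.mem_sigma, Finset.mem_range, Finset.mem_Icc] at h ⊢
    congr 1
    omega
  · rintro ⟨t, a⟩ h
    rfl

/-- (1.5) -/
theorem Pr_take_small {k n : ℕ} (h : k ≤ n) (τ U : ℕ) :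
    Pr n τ (fun l => (l.take k).sum < U) ≤ (10 / 9) ^ U * (9 / 11) ^ k := by
  refine (Pr_take_le h τ (fun l => l.sum < U)).trans ?_
  rw [Pr_sum_eq k τ (fun t => t < U)]
  have h1 := sum_pw_mul_pow_le k τ (z := 9 / 10) (by norm_num) (by norm_num)
  have h2 : (9 / 10 : ℝ) / (2 - 9 / 10) = 9 / 11 := by norm_num
  rw [h2] at h1
  calc ∑ t ∈ (Finset.range (τ + 1)).filter (fun t => t < U), pw k t
      ≤ ∑ t ∈ (Finset.range (τ + 1)).filter (fun t => t < U),
          (10 / 9) ^ U * (pw k t * (9 / 10) ^ t) := by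
        refine Finset.sum_le_sum fun t ht => ?_
        have htU : t < U := (Finset.mem_filter.mp ht).2
        have h3 : (1 : ℝ) ≤ (10 / 9) ^ U * (9 / 10) ^ t := by
          have h4 : (10 / 9 : ℝ) ^ t * (9 / 10) ^ t = 1 := by
            rw [← mul_pow]; norm_num
          calc (1 : ℝ) = (10 / 9 : ℝ) ^ t * (9 / 10) ^ t := h4.symm
            _ ≤ (10 / 9) ^ U * (9 / 10) ^ t := by
              gcongr
              norm_num
        calc pw k t = pw k t * 1 := (mul_one _).symm
          _ ≤ pw k t * ((10 / 9) ^ U * (9 / 10) ^ t) :=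
            mul_le_mul_of_nonneg_left h3 (pw_nonneg k t)
          _ = _ := by ring
    _ ≤ ∑ t ∈ Finset.range (τ + 1), (10 / 9) ^ U * (pw k t * (9 / 10) ^ t) := by
        refine Finset.sum_le_sum_of_subset_of_nonneg (Finset.filter_subset _ _) ?_
        intro t _ _
        have := pw_nonneg k t
        positivity
    _ = (10 / 9) ^ U * ∑ t ∈ Finset.range (τ + 1), pw k t * (9 / 10) ^ t := by
        rw [Finset.mul_sum]
    _ ≤ (10 / 9) ^ U * (9 / 11) ^ k := by
        gcongr

theorem Pr_sum_large (n τ : ℕ) :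
    Pr n τ (fun l => 10 * n < l.sum) ≤ (1 / 19) ^ n := by
  rw [Pr_sum_eq n τ (fun t => 10 * n < t)]
  have h1 := sum_pw_mul_pow_le n τ (z := 3 / 2) (by norm_num) (by norm_num)
  have h2 : (3 / 2 : ℝ) / (2 - 3 / 2) = 3 := by norm_num
  rw [h2] at h1
  calc ∑ t ∈ (Finset.range (τ + 1)).filter (fun t => 10 * n < t), pw n t
      ≤ ∑ t ∈ (Finset.range (τ + 1)).filter (fun t => 10 * n < t),
          (2 / 3) ^ (10 * n) * (pw n t * (3 / 2) ^ t) := by
        refine Finset.sum_le_sum fun t ht => ?_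
        have htU : 10 * n < t := (Finset.mem_filter.mp ht).2
        have h3 : (1 : ℝ) ≤ (2 / 3) ^ (10 * n) * (3 / 2) ^ t := by
          have h4 : (2 / 3 : ℝ) ^ (10 * n) * (3 / 2) ^ (10 * n) = 1 := by
            rw [← mul_pow]; norm_num
          calc (1 : ℝ) = (2 / 3 : ℝ) ^ (10 * n) * (3 / 2) ^ (10 * n) := h4.symm
            _ ≤ (2 / 3) ^ (10 * n) * (3 / 2) ^ t := by
              gcongr
              norm_num
        calc pw n t = pw n t * 1 := (mul_one _).symm
          _ ≤ pw n t * ((2 / 3) ^ (10 * n) * (3 / 2) ^ t) :=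
            mul_le_mul_of_nonneg_left h3 (pw_nonneg n t)
          _ = _ := by ring
    _ ≤ ∑ t ∈ Finset.range (τ + 1), (2 / 3) ^ (10 * n) * (pw n t * (3 / 2) ^ t) := by
        refine Finset.sum_le_sum_of_subset_of_nonneg (Finset.filter_subset _ _) ?_
        intro t _ _
        have := pw_nonneg n t
        positivity
    _ = (2 / 3) ^ (10 * n) * ∑ t ∈ Finset.range (τ + 1), pw n t * (3 / 2) ^ t := by
        rw [Finset.mul_sum]
    _ ≤ (2 / 3) ^ (10 * n) * 3 ^ n := by
        gcongr
    _ = ((2 / 3) ^ 10 * 3) ^ n := by rw [pow_mul, mul_pow]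
    _ ≤ (1 / 19) ^ n := by
        refine pow_le_pow_left₀ (by norm_num) (by norm_num) n

theorem P2d_geom (τ v : ℕ) :
    ∑ a ∈ (Finset.Icc 1 τ).filter (fun a => v < a), (1 / 2 : ℝ) ^ a ≤ 1 / 2 ^ v := by
  have key : ∀ m : ℕ, ∑ a ∈ (Finset.Icc 1 m).filter (fun a => v < a), (1 / 2 : ℝ) ^ a ≤
      1 / 2 ^ v - (if v < m then (1 / 2 : ℝ) ^ m else 0) := by
    intro m
    induction m with
    | zero => simp
    | succ m ih =>
      have h1 : Finset.Icc 1 (m + 1) = insert (m + 1) (Finset.Icc 1 m) := by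
        ext a
        simp only [Finset.mem_insert, Finset.mem_Icc]
        omega
      rw [h1, Finset.filter_insert]
      by_cases hv : v < m + 1
      · rw [if_pos hv, if_pos hv, Finset.sum_insert (by simp)]
        have h2 : (1 / 2 : ℝ) ^ (m + 1) = (1 / 2) ^ m / 2 := by rw [pow_succ]; ring
        by_cases hv2 : v < m
        · rw [if_pos hv2] at ih
          linarith
        · rw [if_neg hv2, sub_zero] at ih
          have h3 : v = m := by omega
          subst h3
          have h4 : ∑ a ∈ (Finset.Icc 1 v).filter (fun a => v < a), (1 / 2 : ℝ) ^ a = 0 := by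
            refine Finset.sum_eq_zero fun a ha => ?_
            simp only [Finset.mem_filter, Finset.mem_Icc] at ha
            omega
          rw [h4]
          have h5 : (1 / 2 : ℝ) ^ v = 1 / 2 ^ v := by rw [one_div_pow]
          linarith
      · rw [if_neg hv, if_neg hv]
        rw [if_neg (by omega)] at ih
        exact ih
  refine (key τ).trans ?_
  split_ifs <;> simp

/-- one large entry -/
theorem Pr_entry (n τ v : ℕ) : Pr n τ (fun l => ∃ a ∈ l, v < a) ≤ n / 2 ^ v := by
  classical
  induction n generalizing τ with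
  | zero =>
    unfold Pr
    rw [Nat.cast_zero, zero_div]
    refine Finset.sum_nonpos fun t _ => ?_
    have h0 : ∀ l ∈ comps 0 t, ¬ (∃ a ∈ l, v < a) := by
      intro l hl
      have h1 := (mem_comps.mp hl).1
      rw [List.length_eq_zero_iff] at h1
      subst h1
      simp
    have h00 : ∀ inst : DecidablePred (fun l : List ℕ => ∃ a ∈ l, v < a),
        (@Finset.filter _ (fun l : List ℕ => ∃ a ∈ l, v < a) inst (comps 0 t)).card = 0 := by
      intro inst
      rw [Finset.card_eq_zero, Finset.filter_eq_empty_iff]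
      exact h0
    rw [h00]
    simp
  | succ n ih =>
    have e1 : ∀ t, ((((comps (n + 1) t).filter (fun l => ∃ a ∈ l, v < a)).card : ℝ) / 2 ^ t) ≤
        ∑ a ∈ Finset.Icc 1 t, ((if v < a then (1 / 2 : ℝ) ^ a else 0) * pw n (t - a) +
          (1 / 2 : ℝ) ^ a * ((((comps n (t - a)).filter (fun l => ∃ a ∈ l, v < a)).card : ℝ) /
            2 ^ (t - a))) := by
      intro t
      rw [Finset.card_filter, Nat.cast_sum, sum_comps_succ, Finset.sum_div]
      refine Finset.sum_le_sum fun a ha => ?_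
      have hat : a ≤ t := (Finset.mem_Icc.mp ha).2
      have h2 : (2 : ℝ) ^ t = 2 ^ a * 2 ^ (t - a) := by
        rw [← pow_add]; congr 1; omega
      have h3 : (∑ l ∈ comps n (t - a), (((if ∃ b ∈ a :: l, v < b then 1 else 0 : ℕ)) : ℝ)) ≤
          (if v < a then ((comps n (t - a)).card : ℝ) else 0) +
            (((comps n (t - a)).filter (fun l => ∃ b ∈ l, v < b)).card : ℝ) := by
        rw [Finset.card_filter, Nat.cast_sum]
        by_cases hva : v < a
        · rw [if_pos hva]
          have h4 : (∑ l ∈ comps n (t - a), (((if ∃ b ∈ a :: l, v < b then 1 else 0 : ℕ)) : ℝ)) ≤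
              ((comps n (t - a)).card : ℝ) := by
            rw [Finset.card_eq_sum_ones, Nat.cast_sum]
            refine Finset.sum_le_sum fun l _ => ?_
            split_ifs <;> simp
          have h5 : (0 : ℝ) ≤
              ∑ l ∈ comps n (t - a), (((if ∃ b ∈ l, v < b then 1 else 0 : ℕ)) : ℝ) :=
            Finset.sum_nonneg fun l _ => Nat.cast_nonneg _
          linarith
        · rw [if_neg hva, zero_add]
          refine Finset.sum_le_sum fun l _ => ?_
          have h6 : (∃ b ∈ a :: l, v < b) ↔ ∃ b ∈ l, v < b := by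
            simp [hva]
          by_cases h7 : ∃ b ∈ l, v < b
          · rw [if_pos h7, if_pos (h6.mpr h7)]
          · rw [if_neg h7, if_neg (fun h => h7 (h6.mp h))]
      calc (∑ l ∈ comps n (t - a), (((if ∃ b ∈ a :: l, v < b then 1 else 0 : ℕ)) : ℝ)) / 2 ^ t
          ≤ ((if v < a then ((comps n (t - a)).card : ℝ) else 0) +
            (((comps n (t - a)).filter (fun l => ∃ b ∈ l, v < b)).card : ℝ)) / 2 ^ t := by
            gcongr
        _ = _ := by
            have h6 : (1 / 2 : ℝ) ^ a * 2 ^ a = 1 := by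
              rw [← mul_pow]; norm_num
            have h7 : (2 : ℝ) ^ a ≠ 0 := by positivity
            have h8 : (1 / 2 : ℝ) ^ a = (2 ^ a)⁻¹ := by rw [one_div, inv_pow]
            rw [h2, pw, h8]
            split_ifs
            · field_simp
            · field_simp
              ring
    have e2 : Pr (n + 1) τ (fun l => ∃ a ∈ l, v < a) ≤
        ∑ a ∈ Finset.Icc 1 τ, ∑ t ∈ Finset.range (τ - a + 1),
          ((if v < a then (1 / 2 : ℝ) ^ a else 0) * pw n t +
          (1 / 2 : ℝ) ^ a * ((((comps n t).filter (fun l => ∃ a ∈ l, v < a)).card : ℝ) /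
            2 ^ t)) := by
      rw [← P2d_swap τ (fun a t => ((if v < a then (1 / 2 : ℝ) ^ a else 0) * pw n t +
          (1 / 2 : ℝ) ^ a * ((((comps n t).filter (fun l => ∃ a ∈ l, v < a)).card : ℝ) /
            2 ^ t)))]
      unfold Pr
      refine Finset.sum_le_sum fun t _ => ?_
      refine le_trans (le_of_eq ?_) (e1 t)
      congr!
    refine e2.trans ?_
    have e3 : ∀ a ∈ Finset.Icc 1 τ, ∑ t ∈ Finset.range (τ - a + 1),
          ((if v < a then (1 / 2 : ℝ) ^ a else 0) * pw n t +
          (1 / 2 : ℝ) ^ a * ((((comps n t).filter (fun l => ∃ a ∈ l, v < a)).card : ℝ) /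
            2 ^ t)) ≤ (if v < a then (1 / 2 : ℝ) ^ a else 0) + (1 / 2 : ℝ) ^ a * (n / 2 ^ v) := by
      intro a _
      rw [Finset.sum_add_distrib, ← Finset.mul_sum, ← Finset.mul_sum]
      have h8 := sum_pw_le_one n (τ - a)
      have h9 := ih (τ - a)
      unfold Pr at h9
      refine add_le_add ?_ ?_
      · have h10 : (0 : ℝ) ≤ (if v < a then (1 / 2 : ℝ) ^ a else 0) := by
          split_ifs
          · positivity
          · exact le_rfl
        calc (if v < a then (1 / 2 : ℝ) ^ a else 0) * ∑ t ∈ Finset.range (τ - a + 1), pw n t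
            ≤ (if v < a then (1 / 2 : ℝ) ^ a else 0) * 1 := mul_le_mul_of_nonneg_left h8 h10
          _ = _ := mul_one _
      · refine mul_le_mul_of_nonneg_left ?_ (by positivity)
        refine le_trans (le_of_eq ?_) h9
        refine Finset.sum_congr rfl fun t _ => ?_
        congr!
    refine (Finset.sum_le_sum e3).trans ?_
    rw [Finset.sum_add_distrib, ← Finset.sum_mul, ← Finset.sum_filter]
    have h11 := P2d_geom τ v
    have h12 := P2d_geom τ 0
    have h13 : (Finset.Icc 1 τ).filter (fun a => 0 < a) = Finset.Icc 1 τ := by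
      rw [Finset.filter_eq_self]
      intro a ha
      exact (Finset.mem_Icc.mp ha).1
    rw [h13] at h12
    have h14 : (0 : ℝ) ≤ n / 2 ^ v := by positivity
    have h15 : (∑ a ∈ Finset.Icc 1 τ, (1 / 2 : ℝ) ^ a) * (n / 2 ^ v) ≤ 1 * (n / 2 ^ v) := by
      refine mul_le_mul_of_nonneg_right ?_ h14
      simpa using h12
    push_cast
    rw [add_div]
    linarith

end Pool.Agent.W_e21d3a_h93
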