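import Pool.Agent.W_e21d3a_h93.M2a
import Pool.Agent.W_e21d3a_h93.P2c
import Pool.Agent.W_e21d3a_h93.P2d

set_option autoImplicit false

/-!
# [NC] M2b: badness (row 499, 5.2)
-/

namespace Pool.Agent.W_e21d3a_h93

/-- geometric decay beats polynomials -/
theorem M2b_geom (k : ℕ) {r : ℝ} (h0 : 0 ≤ r) (h1 : r < 1) :
    ∃ C : ℝ, 0 < C ∧ ∀ n : ℕ, 1 ≤ n → r ^ n ≤ C / (n : ℝ) ^ k := by
  have ht := tendsto_pow_const_mul_const_pow_of_lt_one k h0 h1
  obtain ⟨C, hC⟩ := ht.bddAbove_range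
  refine ⟨max C 1, lt_max_of_lt_right one_pos, fun n hn => ?_⟩
  have hn' : (0 : ℝ) < (n : ℝ) ^ k := by positivity
  rw [le_div_iff₀ hn', mul_comm]
  exact (hC ⟨n, rfl⟩).trans (le_max_left _ _)

/-- the first index at which the partial sums reach the threshold -/
theorem M2b_good {A n : ℕ} {l : List ℕ} (ht : 1 ≤ tau1 A n) (ha : l.sum ≤ 10 * n)
    (hb : tau1 A n ≤ (l.take (9 * n / 10)).sum) (hc : ∀ a ∈ l, a ≤ k4 A * Lg n)
    (hd : XX l ≤ 2 ^ (k3 A * Lg n)) : GoodL A n l := by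
  classical
  refine ⟨ha, ?_⟩
  have hex : ∃ i, tau1 A n ≤ (l.take i).sum := ⟨_, hb⟩
  set i := Nat.find hex with hi
  have h1 : tau1 A n ≤ (l.take i).sum := Nat.find_spec hex
  have hle : i ≤ 9 * n / 10 := Nat.find_le hb
  have hi1 : 1 ≤ i := by
    by_contra h
    have h0 : i = 0 := by omega
    rw [h0] at h1
    simp at h1
    omega
  have h2 : (l.take (i - 1)).sum < tau1 A n := by
    have := Nat.find_min hex (m := i - 1) (by omega)
    omega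
  refine ⟨i, hi1, by omega, ?_, h1, ?_, ?_⟩
  · rw [List.take_take, min_eq_left (by omega)]
    exact h2
  · -- overshoot
    obtain ⟨j, hj⟩ : ∃ j, i = j + 1 := ⟨i - 1, by omega⟩
    have hjl : j < l.length := by
      by_contra h
      have e1 : l.take i = l := List.take_of_length_le (by omega)
      have e2 : l.take (i - 1) = l := List.take_of_length_le (by omega)
      rw [e1] at h1
      rw [e2] at h2
      omega
    have e3 : (l.take i).sum = (l.take (i - 1)).sum + l[j] := by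
      rw [hj, List.take_succ_eq_append_getElem hjl, List.sum_append]
      simp
    have e4 := hc l[j] (List.getElem_mem hjl)
    omega
  · exact (XX_take_le l i).trans hd

theorem M2b_two_log (n : ℕ) : 2 ^ Nat.log 2 (3 ^ n) ≤ 3 ^ n :=
  Nat.pow_log_le_self 2 (by positivity)

/-- `5 τ₁ ≤ 8 n` -/
theorem M2b_tau (A n : ℕ) : 5 * tau1 A n ≤ 8 * n := by
  have h1 : tau1 A n ≤ Nat.log 2 (3 ^ n) := Nat.sub_le _ _
  have h2 : 2 ^ (5 * Nat.log 2 (3 ^ n)) ≤ 2 ^ (8 * n) := by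
    calc 2 ^ (5 * Nat.log 2 (3 ^ n)) = (2 ^ Nat.log 2 (3 ^ n)) ^ 5 := by
          rw [← pow_mul, mul_comm]
      _ ≤ (3 ^ n) ^ 5 := Nat.pow_le_pow_left (M2b_two_log n) 5
      _ = (3 ^ 5) ^ n := by rw [← pow_mul, ← pow_mul, mul_comm]
      _ ≤ (2 ^ 8) ^ n := Nat.pow_le_pow_left (by norm_num) n
      _ = 2 ^ (8 * n) := by rw [← pow_mul]
  have h3 := (Nat.pow_le_pow_iff_right (by norm_num)).1 h2
  omega

/-- the small partial sum -/
theorem M2b_small (A : ℕ) : ∃ C : ℝ, 0 < C ∧ ∀ n : ℕ, 1 ≤ n →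
    ((10 : ℝ) / 9) ^ tau1 A n * (9 / 11) ^ (9 * n / 10) ≤ C / (n : ℝ) ^ A := by
  have hr0 : (0 : ℝ) ≤ (10 / 9) ^ 16 * (9 / 11) ^ 9 := by positivity
  have hr1 : ((10 : ℝ) / 9) ^ 16 * (9 / 11) ^ 9 < 1 := by norm_num
  obtain ⟨C, hC0, hC⟩ := M2b_geom (A * 10) hr0 hr1
  set D : ℝ := max 1 (C * (11 / 9) ^ 9) with hD
  have hD1 : 1 ≤ D := le_max_left _ _
  refine ⟨D, by linarith, fun n hn => ?_⟩
  have hX0 : (0 : ℝ) ≤ (10 / 9) ^ tau1 A n * (9 / 11) ^ (9 * n / 10) := by positivity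
  have hn' : (0 : ℝ) < (n : ℝ) ^ A := by positivity
  have hY0 : 0 ≤ D / (n : ℝ) ^ A := by positivity
  apply le_of_pow_le_pow_left₀ (n := 10) (by norm_num) hY0
  have h1 := M2b_tau A n
  have h2 : 9 * n ≤ 10 * (9 * n / 10) + 9 := by omega
  have e1 : ((10 : ℝ) / 9) ^ (10 * tau1 A n) ≤ (10 / 9) ^ (16 * n) :=
    pow_le_pow_right₀ (by norm_num) (by omega)
  have e2 : ((9 : ℝ) / 11) ^ (10 * (9 * n / 10) + 9) ≤ (9 / 11) ^ (9 * n) :=
    pow_le_pow_of_le_one (by norm_num) (by norm_num) h2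
  have e3 : ((9 : ℝ) / 11) ^ (10 * (9 * n / 10)) ≤ (9 / 11) ^ (9 * n) * (11 / 9) ^ 9 := by
    have : ((9 : ℝ) / 11) ^ (10 * (9 * n / 10)) =
        (9 / 11) ^ (10 * (9 * n / 10) + 9) * (11 / 9) ^ 9 := by
      rw [pow_add, mul_assoc, ← mul_pow]; norm_num
    rw [this]
    exact mul_le_mul_of_nonneg_right e2 (by positivity)
  calc (((10 : ℝ) / 9) ^ tau1 A n * (9 / 11) ^ (9 * n / 10)) ^ 10
      = (10 / 9) ^ (10 * tau1 A n) * (9 / 11) ^ (10 * (9 * n / 10)) := by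
        rw [mul_pow, ← pow_mul, ← pow_mul, mul_comm (tau1 A n), mul_comm (9 * n / 10) 10]
    _ ≤ (10 / 9) ^ (16 * n) * ((9 / 11) ^ (9 * n) * (11 / 9) ^ 9) :=
        mul_le_mul e1 e3 (by positivity) (by positivity)
    _ = ((10 / 9) ^ 16 * (9 / 11) ^ 9) ^ n * (11 / 9) ^ 9 := by
        rw [mul_pow, ← pow_mul, ← pow_mul]; ring
    _ ≤ C / (n : ℝ) ^ (A * 10) * (11 / 9) ^ 9 :=
        mul_le_mul_of_nonneg_right (hC n hn) (by positivity)
    _ = (C * (11 / 9) ^ 9) / ((n : ℝ) ^ A) ^ 10 := by rw [← pow_mul]; ring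
    _ ≤ D / ((n : ℝ) ^ A) ^ 10 := by
        apply div_le_div_of_nonneg_right (le_max_right _ _) (by positivity)
    _ ≤ D ^ 10 / ((n : ℝ) ^ A) ^ 10 := by
        apply div_le_div_of_nonneg_right _ (by positivity)
        exact le_self_pow₀ hD1 (by norm_num)
    _ = (D / (n : ℝ) ^ A) ^ 10 := by rw [div_pow]

theorem M2b_Lg {n : ℕ} : (n : ℝ) ≤ 2 ^ Lg n := by
  have : n ≤ 2 ^ Nat.clog 2 n := Nat.le_pow_clog (by norm_num) n
  exact_mod_cast this

/-- badness -/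
theorem Pr_bad (A : ℕ) : ∃ C : ℝ, ∀ n τ : ℕ, 1 ≤ n → Pr n τ (fun l => ¬ GoodL A n l)
    ≤ C / (n : ℝ) ^ A := by
  obtain ⟨n0, hn0⟩ := two_pow_tau1 A
  obtain ⟨C1, hC1, h1⟩ := M2b_geom A (r := 1 / 19) (by norm_num) (by norm_num)
  obtain ⟨C2, hC2, h2⟩ := M2b_small A
  refine ⟨C1 + C2 + 1 + 11 + (n0 : ℝ) ^ A, fun n τ hn => ?_⟩
  have hnr : (1 : ℝ) ≤ n := by exact_mod_cast hn
  have hn' : (0 : ℝ) < (n : ℝ) ^ A := by positivity
  by_cases hlarge : n0 ≤ n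
  · have ht := (hn0 n hlarge).1
    have hsub : Pr n τ (fun l => ¬ GoodL A n l) ≤
        Pr n τ (fun l => (10 * n < l.sum ∨ (l.take (9 * n / 10)).sum < tau1 A n) ∨
          ((∃ a ∈ l, k4 A * Lg n < a) ∨ (2 : ℝ) ^ (k3 A * Lg n) < XX l)) := by
      apply Pr_mono
      intro l _ _ hbad
      by_contra hno
      simp only [not_or, not_lt, not_exists, not_and] at hno
      obtain ⟨⟨q1, q2⟩, q3, q4⟩ := hno
      exact hbad (M2b_good ht q1 q2 q3 q4)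
    have b1 : Pr n τ (fun l => 10 * n < l.sum) ≤ C1 / (n : ℝ) ^ A :=
      (Pr_sum_large n τ).trans (h1 n hn)
    have b2 : Pr n τ (fun l => (l.take (9 * n / 10)).sum < tau1 A n) ≤ C2 / (n : ℝ) ^ A :=
      (Pr_take_small (by omega) τ (tau1 A n)).trans (h2 n hn)
    have b3 : Pr n τ (fun l => ∃ a ∈ l, k4 A * Lg n < a) ≤ 1 / (n : ℝ) ^ A := by
      refine (Pr_entry n τ _).trans ?_
      rw [div_le_div_iff₀ (by positivity) hn']
      have e1 : (n : ℝ) ^ (A + 4) ≤ 2 ^ (k4 A * Lg n) := by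
        rw [k4, mul_comm, pow_mul]
        exact pow_le_pow_left₀ (by positivity) M2b_Lg _
      calc (n : ℝ) * (n : ℝ) ^ A = (n : ℝ) ^ (A + 1) := by ring
        _ ≤ (n : ℝ) ^ (A + 4) := pow_le_pow_right₀ hnr (by omega)
        _ ≤ 1 * 2 ^ (k4 A * Lg n) := by rw [one_mul]; exact e1
    have b4 : Pr n τ (fun l => (2 : ℝ) ^ (k3 A * Lg n) < XX l) ≤ 11 / (n : ℝ) ^ A := by
      refine (Pr_XX n τ (by positivity)).trans ?_
      apply div_le_div_of_nonneg_left (by norm_num) hn'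
      have e1 : (2 : ℝ) ^ (k3 A * Lg n) = ((2 ^ Lg n) ^ (A + 3)) ^ 2 := by
        rw [k3, ← pow_mul, ← pow_mul]; congr 1; ring
      rw [e1, Real.sqrt_sq (by positivity)]
      calc (n : ℝ) ^ A ≤ (n : ℝ) ^ (A + 3) := pow_le_pow_right₀ hnr (by omega)
        _ ≤ _ := pow_le_pow_left₀ (by positivity) M2b_Lg _
    calc Pr n τ (fun l => ¬ GoodL A n l) ≤ _ := hsub
      _ ≤ (Pr n τ (fun l => 10 * n < l.sum) + Pr n τ (fun l => (l.take (9 * n / 10)).sum < tau1 A n))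
          + (Pr n τ (fun l => ∃ a ∈ l, k4 A * Lg n < a) +
            Pr n τ (fun l => (2 : ℝ) ^ (k3 A * Lg n) < XX l)) :=
          (Pr_or_le n τ _ _).trans (add_le_add (Pr_or_le n τ _ _) (Pr_or_le n τ _ _))
      _ ≤ (C1 / (n : ℝ) ^ A + C2 / (n : ℝ) ^ A) + (1 / (n : ℝ) ^ A + 11 / (n : ℝ) ^ A) := by
          linarith
      _ = (C1 + C2 + 1 + 11) / (n : ℝ) ^ A := by ring
      _ ≤ _ := by
          apply div_le_div_of_nonneg_right _ hn'.le
          have : (0 : ℝ) ≤ (n0 : ℝ) ^ A := by positivity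
          linarith
  · refine (Pr_le_one n τ _).trans ?_
    rw [le_div_iff₀ hn', one_mul]
    have : (n : ℝ) ^ A ≤ (n0 : ℝ) ^ A := by
      apply pow_le_pow_left₀ (by positivity)
      exact_mod_cast (by omega : n ≤ n0)
    linarith

end Pool.Agent.W_e21d3a_h93
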