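import Pool.Agent.W_e21d3a_h93.F0a

set_option autoImplicit false

/-!
# [NC] M3a: Fourier transform on Z/N (row 499, 5.3)
-/

namespace Pool.Agent.W_e21d3a_h93

theorem ee_zero : ee 0 = 1 := by
  have := ee_int 0
  simpa using this

theorem ee_nat_mul (n : ℕ) (x : ℝ) : ee ((n : ℝ) * x) = ee x ^ n := by
  induction n with
  | zero => simp [ee_zero]
  | succ n ih =>
    rw [pow_succ, ← ih, ← ee_add]
    congr 1
    push_cast
    ring

theorem ee_conj (x : ℝ) : (starRingEnd ℂ) (ee x) = ee (-x) := by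
  unfold ee
  rw [← Complex.exp_conj]
  congr 1
  simp only [map_mul, Complex.conj_I, Complex.conj_ofReal, map_ofNat]
  push_cast
  ring

theorem ee_ne_one {N : ℕ} (hN : 0 < N) {d : ℤ} (hd : ¬ (N : ℤ) ∣ d) : ee ((d : ℝ) / N) ≠ 1 := by
  intro h
  unfold ee at h
  rw [Complex.exp_eq_one_iff] at h
  obtain ⟨n, hn⟩ := h
  apply hd
  refine ⟨n, ?_⟩
  have hpi : (2 * (Real.pi : ℂ) * Complex.I) ≠ 0 := by
    simp [Complex.I_ne_zero, Real.pi_ne_zero]
  have hN0 : (N : ℂ) ≠ 0 := by exact_mod_cast hN.ne'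
  have h1 : ((d : ℂ) / N) = n := by
    apply mul_right_cancel₀ hpi
    push_cast at hn
    linear_combination hn
  rw [div_eq_iff hN0] at h1
  have h2 : (d : ℂ) = ((N * n : ℤ) : ℂ) := by
    push_cast
    rw [h1]
    ring
  exact_mod_cast h2

/-- orthogonality -/
theorem sum_ee {N : ℕ} (hN : 0 < N) (d : ℤ) :
    ∑ ξ ∈ Finset.range N, ee ((ξ : ℝ) * ((d : ℝ) / N)) = if (N : ℤ) ∣ d then (N : ℂ) else 0 := by
  have hN0 : (N : ℝ) ≠ 0 := by exact_mod_cast hN.ne'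
  simp only [ee_nat_mul]
  split_ifs with h
  · obtain ⟨t, ht⟩ := h
    have h1 : (d : ℝ) / N = ((t : ℤ) : ℝ) := by
      rw [ht]
      push_cast
      field_simp
    rw [h1, ee_int]
    simp
  · have h1 := ee_ne_one hN h
    have h2 := geom_sum_eq h1 N
    rw [h2, ← ee_nat_mul]
    have h3 : (N : ℝ) * ((d : ℝ) / N) = ((d : ℤ) : ℝ) := by
      field_simp
    rw [h3, ee_int, sub_self, zero_div]

/-- Parseval on `Z/N` for real functions given on `range N` -/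
theorem parseval (N : ℕ) (hN : 0 < N) (f : ℕ → ℂ) :
    ∑ ξ ∈ Finset.range N, ‖∑ Y ∈ Finset.range N, f Y * ee (-((ξ : ℝ) * Y / N))‖ ^ 2
      = N * ∑ Y ∈ Finset.range N, ‖f Y‖ ^ 2 := by
  have key : ∑ ξ ∈ Finset.range N, ((‖∑ Y ∈ Finset.range N, f Y * ee (-((ξ : ℝ) * Y / N))‖ ^ 2 : ℝ) : ℂ)
      = N * ∑ Y ∈ Finset.range N, ((‖f Y‖ ^ 2 : ℝ) : ℂ) := by
    have h1 : ∀ ξ ∈ Finset.range N,
        ((‖∑ Y ∈ Finset.range N, f Y * ee (-((ξ : ℝ) * Y / N))‖ ^ 2 : ℝ) : ℂ) =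
        ∑ Y ∈ Finset.range N, ∑ Z ∈ Finset.range N,
          f Y * (starRingEnd ℂ) (f Z) * ee ((ξ : ℝ) * ((((Z : ℤ) - Y : ℤ) : ℝ) / N)) := by
      intro ξ _
      have h2 : ((‖∑ Y ∈ Finset.range N, f Y * ee (-((ξ : ℝ) * Y / N))‖ ^ 2 : ℝ) : ℂ) =
          (∑ Y ∈ Finset.range N, f Y * ee (-((ξ : ℝ) * Y / N))) *
            (starRingEnd ℂ) (∑ Y ∈ Finset.range N, f Y * ee (-((ξ : ℝ) * Y / N))) := by
        rw [Complex.mul_conj, Complex.normSq_eq_norm_sq]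
      rw [h2, map_sum, Finset.sum_mul_sum]
      refine Finset.sum_congr rfl fun Y _ => Finset.sum_congr rfl fun Z _ => ?_
      rw [map_mul, ee_conj, neg_neg]
      have h3 : ee ((ξ : ℝ) * ((((Z : ℤ) - Y : ℤ) : ℝ) / N)) =
          ee (-((ξ : ℝ) * Y / N)) * ee ((ξ : ℝ) * Z / N) := by
        rw [← ee_add]
        congr 1
        push_cast
        ring
      rw [h3]
      ring
    rw [Finset.sum_congr rfl h1, Finset.sum_comm, Finset.mul_sum]
    refine Finset.sum_congr rfl fun Y hY => ?_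
    rw [Finset.sum_comm]
    have h4 : ∀ Z ∈ Finset.range N, ∑ ξ ∈ Finset.range N,
        f Y * (starRingEnd ℂ) (f Z) * ee ((ξ : ℝ) * ((((Z : ℤ) - Y : ℤ) : ℝ) / N)) =
        if Z = Y then (N : ℂ) * ((‖f Y‖ ^ 2 : ℝ) : ℂ) else 0 := by
      intro Z hZ
      rw [← Finset.mul_sum, sum_ee hN]
      rw [Finset.mem_range] at hY hZ
      have h5 : (N : ℤ) ∣ ((Z : ℤ) - Y) ↔ Z = Y := by
        constructor
        · intro h
          have h6 : ((Z : ℤ) - Y).natAbs < (N : ℤ).natAbs := by omega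
          have h7 := Int.eq_zero_of_dvd_of_natAbs_lt_natAbs h h6
          omega
        · intro h
          rw [h]
          simp
      by_cases h : Z = Y
      · rw [if_pos (h5.2 h), if_pos h, h, Complex.mul_conj, Complex.normSq_eq_norm_sq]
        ring
      · rw [if_neg (fun h' => h (h5.1 h')), if_neg h, mul_zero]
    rw [Finset.sum_congr rfl h4, Finset.sum_ite_eq', if_pos hY]
  exact_mod_cast key

/-- the residues of one class -/
theorem sum_coset {n : ℕ} (hn : 1 ≤ n) (h : ℕ → ℂ) (Y' : ℕ) :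
    ∑ Y ∈ (Finset.range (3 ^ n)).filter (fun Y => Y % 3 ^ (n - 1) = Y' % 3 ^ (n - 1)), h Y =
      ∑ j ∈ Finset.range 3, h (Y' % 3 ^ (n - 1) + j * 3 ^ (n - 1)) := by
  have hM : 0 < 3 ^ (n - 1) := by positivity
  have h3 : 3 ^ n = 3 * 3 ^ (n - 1) := by
    rw [← pow_succ']
    congr 1
    omega
  set M := 3 ^ (n - 1) with hMdef
  have hinj : Set.InjOn (fun j => Y' % M + j * M) (Finset.range 3 : Set ℕ) := by
    intro a _ b _ hab
    have hab' : a * M = b * M := Nat.add_left_cancel hab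
    exact Nat.eq_of_mul_eq_mul_right hM hab'
  rw [← Finset.sum_image (f := h) hinj]
  refine Finset.sum_congr ?_ fun _ _ => rfl
  ext Y
  simp only [Finset.mem_filter, Finset.mem_range, Finset.mem_image]
  constructor
  · rintro ⟨h4, h5⟩
    refine ⟨Y / M, ?_, ?_⟩
    · rw [Nat.div_lt_iff_lt_mul hM]
      omega
    · rw [← h5]
      have := Nat.mod_add_div Y M
      rw [mul_comm] at this
      exact this
  · rintro ⟨j, hj, rfl⟩
    have h6 := Nat.mod_lt Y' hM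
    refine ⟨?_, ?_⟩
    · rw [h3]
      have : j * M ≤ 2 * M := Nat.mul_le_mul_right _ (by omega)
      omega
    · rw [Nat.add_mul_mod_self_right, Nat.mod_mod]

/-- Fourier transform of `f - (average over the cosets of 3^{n-1})` -/
theorem fourier_top {n : ℕ} (hn : 1 ≤ n) (f : ℕ → ℂ) (g : ℕ → ℂ)
    (hg : ∀ Y < 3 ^ n, g Y = f Y - (∑ Y' ∈ (Finset.range (3 ^ n)).filter
      (fun Y' => Y' % 3 ^ (n - 1) = Y % 3 ^ (n - 1)), f Y') / 3) (ξ : ℕ) :
    ∑ Y ∈ Finset.range (3 ^ n), g Y * ee (-((ξ : ℝ) * Y / (3 : ℝ) ^ n)) =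
      if 3 ∣ ξ then 0 else ∑ Y ∈ Finset.range (3 ^ n), f Y * ee (-((ξ : ℝ) * Y / (3 : ℝ) ^ n)) := by
  have hM : 0 < 3 ^ (n - 1) := by positivity
  have h3 : (3 : ℝ) ^ n = 3 * 3 ^ (n - 1) := by
    rw [← pow_succ']
    congr 1
    omega
  set E : ℕ → ℂ := fun Y => ee (-((ξ : ℝ) * Y / (3 : ℝ) ^ n)) with hE
  have h1 : ∑ Y ∈ Finset.range (3 ^ n), g Y * E Y =
      ∑ Y ∈ Finset.range (3 ^ n), f Y * E Y -
        (∑ Y ∈ Finset.range (3 ^ n), ∑ Y' ∈ (Finset.range (3 ^ n)).filter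
          (fun Y' => Y' % 3 ^ (n - 1) = Y % 3 ^ (n - 1)), f Y' * E Y) / 3 := by
    rw [Finset.sum_div, ← Finset.sum_sub_distrib]
    refine Finset.sum_congr rfl fun Y hY => ?_
    rw [hg Y (Finset.mem_range.1 hY), ← Finset.sum_mul]
    ring
  have h2 : ∑ Y ∈ Finset.range (3 ^ n), ∑ Y' ∈ (Finset.range (3 ^ n)).filter
          (fun Y' => Y' % 3 ^ (n - 1) = Y % 3 ^ (n - 1)), f Y' * E Y =
      ∑ Y' ∈ Finset.range (3 ^ n), f Y' * ∑ Y ∈ (Finset.range (3 ^ n)).filter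
          (fun Y => Y % 3 ^ (n - 1) = Y' % 3 ^ (n - 1)), E Y := by
    simp only [Finset.sum_filter, Finset.mul_sum]
    rw [Finset.sum_comm]
    refine Finset.sum_congr rfl fun Y' _ => Finset.sum_congr rfl fun Y _ => ?_
    by_cases h : Y' % 3 ^ (n - 1) = Y % 3 ^ (n - 1)
    · rw [if_pos h, if_pos h.symm]
    · rw [if_neg h, if_neg (fun h' => h h'.symm), mul_zero]
  have h4 : ∀ Y' ∈ Finset.range (3 ^ n), ∑ Y ∈ (Finset.range (3 ^ n)).filter
          (fun Y => Y % 3 ^ (n - 1) = Y' % 3 ^ (n - 1)), E Y = if 3 ∣ ξ then 3 * E Y' else 0 := by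
    intro Y' hY'
    rw [sum_coset hn E Y']
    have h5 : ∀ j : ℕ, E (Y' % 3 ^ (n - 1) + j * 3 ^ (n - 1)) =
        E (Y' % 3 ^ (n - 1)) * ee ((j : ℝ) * (((-(ξ : ℤ) : ℤ) : ℝ) / (3 : ℕ))) := by
      intro j
      simp only [hE]
      rw [← ee_add]
      congr 1
      push_cast
      rw [h3]
      field_simp
      ring
    simp only [h5]
    rw [← Finset.mul_sum, sum_ee (by norm_num : 0 < 3)]
    have h6 : ((3 : ℕ) : ℤ) ∣ (-(ξ : ℤ)) ↔ 3 ∣ ξ := by
      rw [dvd_neg, Int.natCast_dvd_natCast]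
    simp only [h6]
    by_cases h : 3 ∣ ξ
    · rw [if_pos h, if_pos h]
      have h7 : E (Y' % 3 ^ (n - 1)) = E Y' := by
        simp only [hE]
        apply ee_eq_of_sub_int
        obtain ⟨t, ht⟩ := h
        have h8 := Nat.mod_add_div Y' (3 ^ (n - 1))
        obtain ⟨s, hs⟩ : ∃ s : ℕ, s = Y' / 3 ^ (n - 1) := ⟨_, rfl⟩
        rw [← hs] at h8
        refine ⟨(t : ℤ) * (s : ℤ), ?_⟩
        have h9 : ((Y' % 3 ^ (n - 1) : ℕ) : ℝ) + (3 : ℝ) ^ (n - 1) * (s : ℝ) = Y' := by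
          exact_mod_cast h8
        have h10 : (ξ : ℝ) = 3 * t := by exact_mod_cast ht
        push_cast
        rw [h3, h10]
        have hMr : (3 : ℝ) ^ (n - 1) ≠ 0 := by positivity
        rw [← h9]
        push_cast
        field_simp
        ring
      rw [h7]
      push_cast
      ring
    · rw [if_neg h, if_neg h, mul_zero]
  have h5 : ∑ Y' ∈ Finset.range (3 ^ n), f Y' * ∑ Y ∈ (Finset.range (3 ^ n)).filter
          (fun Y => Y % 3 ^ (n - 1) = Y' % 3 ^ (n - 1)), E Y =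
      ∑ Y' ∈ Finset.range (3 ^ n), f Y' * (if 3 ∣ ξ then 3 * E Y' else 0) :=
    Finset.sum_congr rfl fun Y' hY' => by rw [h4 Y' hY']
  rw [h1, h2, h5]
  by_cases h : 3 ∣ ξ
  · simp only [if_pos h]
    have h6 : ∑ x ∈ Finset.range (3 ^ n), f x * (3 * E x) = 3 * ∑ x ∈ Finset.range (3 ^ n), f x * E x := by
      rw [Finset.mul_sum]
      exact Finset.sum_congr rfl fun _ _ => by ring
    rw [h6]
    ring
  · simp only [if_neg h, mul_zero, Finset.sum_const_zero, zero_div, sub_zero]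
    rfl

end Pool.Agent.W_e21d3a_h93
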