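import Pool.Agent.W_e21d3a_h93.M3a
import Pool.Agent.W_e21d3a_h93.M1b

set_option autoImplicit false

/-!
# [NC] M3b: the L2 estimate (row 499, 5.3)
-/

namespace Pool.Agent.W_e21d3a_h93

open Classical in
/-- weight of the pairs `(β,γ)`, `β ∈ S`, `γ ∈ comps (n-i) (t-s)` with `2^t Y = cc(β++γ)` mod `3^k` -/
noncomputable def psi (S : Finset (List ℕ)) (j t s k : ℕ) (Y : ℤ) : ℝ :=
  ∑ β ∈ S, ∑ γ ∈ comps j (t - s),
    (if (3 : ℤ) ^ k ∣ 2 ^ t * Y - (cc (β ++ γ) : ℤ) then (1 : ℝ) else 0) / 2 ^ t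

private theorem two_uu_pow (n k t : ℕ) (h : k ≤ n) : (3 : ℤ) ^ k ∣ (2 * (uu n : ℤ)) ^ t - 1 := by
  have hn : (2 : ℤ) * uu n = 3 ^ n + 1 := by exact_mod_cast two_mul_uu n
  have h1 : (3 : ℤ) ^ n ∣ (2 * (uu n : ℤ)) ^ t - 1 ^ t := by
    refine dvd_trans ?_ (sub_dvd_pow_sub_pow (2 * (uu n : ℤ)) 1 t)
    rw [hn]
    simp
  rw [one_pow] at h1
  exact (pow_dvd_pow 3 h).trans h1

private theorem key0 {n k : ℕ} (h : k ≤ n) (t c : ℕ) (Y : ℤ) :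
    (3 : ℤ) ^ k ∣ 2 ^ t * Y - (c : ℤ) ↔ (3 : ℤ) ^ k ∣ Y - ((c * uu n ^ t : ℕ) : ℤ) := by
  have h1 := two_uu_pow n k t h
  have h2 : (2 : ℤ) ^ t * (Y - ((c * uu n ^ t : ℕ) : ℤ)) =
      (2 ^ t * Y - (c : ℤ)) - c * ((2 * (uu n : ℤ)) ^ t - 1) := by
    push_cast
    rw [mul_pow]
    ring
  have hcop : IsCoprime ((3 : ℤ) ^ k) (2 ^ t) := by
    apply IsCoprime.pow
    exact ⟨1, -1, by norm_num⟩
  constructor
  · intro h3
    apply hcop.dvd_of_dvd_mul_left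
    rw [h2]
    exact dvd_sub h3 (Dvd.dvd.mul_left h1 _)
  · intro h3
    have h4 : (2 ^ t * Y - (c : ℤ)) =
        (2 : ℤ) ^ t * (Y - ((c * uu n ^ t : ℕ) : ℤ)) + c * ((2 * (uu n : ℤ)) ^ t - 1) := by
      rw [h2]
      ring
    rw [h4]
    exact dvd_add (Dvd.dvd.mul_left h3 _) (Dvd.dvd.mul_left h1 _)

private theorem key1 (k Y a : ℕ) : (3 : ℤ) ^ k ∣ (Y : ℤ) - (a : ℤ) ↔ Y % 3 ^ k = a % 3 ^ k := by
  have h := Nat.modEq_iff_dvd (n := 3 ^ k) (a := a) (b := Y)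
  rw [Nat.ModEq] at h
  push_cast at h
  rw [← h]
  exact eq_comm

private theorem fourier_ind {ι : Type*} {n : ℕ} (P : Finset ι) (a : ι → ℕ) (w : ι → ℂ) (ξ : ℕ) :
    ∑ Y ∈ Finset.range (3 ^ n), (∑ p ∈ P, if Y = a p % 3 ^ n then w p else 0) *
      ee (-((ξ : ℝ) * Y / (3 : ℝ) ^ n)) =
    ∑ p ∈ P, w p * ee (-((ξ : ℝ) * a p / (3 : ℝ) ^ n)) := by
  simp only [Finset.sum_mul]
  rw [Finset.sum_comm]
  refine Finset.sum_congr rfl fun p _ => ?_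
  have h1 : ∀ Y ∈ Finset.range (3 ^ n), (if Y = a p % 3 ^ n then w p else 0) *
      ee (-((ξ : ℝ) * Y / (3 : ℝ) ^ n)) =
      if Y = a p % 3 ^ n then w p * ee (-((ξ : ℝ) * (a p % 3 ^ n : ℕ) / (3 : ℝ) ^ n)) else 0 := by
    intro Y _
    by_cases h : Y = a p % 3 ^ n
    · rw [if_pos h, if_pos h, ← h]
    · rw [if_neg h, if_neg h, zero_mul]
  rw [Finset.sum_congr rfl h1, Finset.sum_ite_eq',
    if_pos (Finset.mem_range.2 (Nat.mod_lt _ (by positivity)))]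
  congr 1
  apply ee_eq_of_sub_int
  have h8 := Nat.mod_add_div (a p) (3 ^ n)
  obtain ⟨s, hs⟩ : ∃ s : ℕ, s = a p / 3 ^ n := ⟨_, rfl⟩
  rw [← hs] at h8
  refine ⟨(ξ : ℤ) * (s : ℤ), ?_⟩
  have h9 : ((a p % 3 ^ n : ℕ) : ℝ) + (3 : ℝ) ^ n * (s : ℝ) = a p := by
    exact_mod_cast h8
  rw [← h9]
  have hM : (3 : ℝ) ^ n ≠ 0 := by positivity
  push_cast
  field_simp
  ring

/-- the two forms of `psi` -/
private theorem psi_eq (S : Finset (List ℕ)) {n k : ℕ} (hk : k ≤ n) (j t s : ℕ) (Y : ℕ) :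
    psi S j t s k Y = ∑ p ∈ S ×ˢ comps j (t - s),
      (if Y % 3 ^ k = (cc (p.1 ++ p.2) * uu n ^ t) % 3 ^ k then (1 : ℝ) / 2 ^ t else 0) := by
  unfold psi
  rw [Finset.sum_product]
  refine Finset.sum_congr rfl fun β _ => Finset.sum_congr rfl fun γ _ => ?_
  have h1 := key0 hk t (cc (β ++ γ)) (Y : ℤ)
  rw [key1] at h1
  by_cases h : Y % 3 ^ k = (cc (β ++ γ) * uu n ^ t) % 3 ^ k
  · rw [if_pos (h1.2 h), if_pos h]
  · rw [if_neg (fun h' => h (h1.1 h')), if_neg h, zero_div]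

private theorem psi_coset (S : Finset (List ℕ)) {n : ℕ} (j t s : ℕ) (Y : ℕ) :
    ((psi S j t s (n - 1) Y : ℝ) : ℂ) = ∑ Y' ∈ (Finset.range (3 ^ n)).filter
      (fun Y' => Y' % 3 ^ (n - 1) = Y % 3 ^ (n - 1)), ((psi S j t s n Y' : ℝ) : ℂ) := by
  rw [← Complex.ofReal_sum]
  congr 1
  rw [psi_eq S (Nat.sub_le n 1)]
  have h1 : ∀ Y' ∈ (Finset.range (3 ^ n)).filter
      (fun Y' => Y' % 3 ^ (n - 1) = Y % 3 ^ (n - 1)), psi S j t s n Y' =
      ∑ p ∈ S ×ˢ comps j (t - s),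
      (if Y' = (cc (p.1 ++ p.2) * uu n ^ t) % 3 ^ n then (1 : ℝ) / 2 ^ t else 0) := by
    intro Y' hY'
    rw [psi_eq S le_rfl]
    have := Finset.mem_range.1 (Finset.mem_filter.1 hY').1
    rw [Nat.mod_eq_of_lt this]
  rw [Finset.sum_congr rfl h1, Finset.sum_comm]
  refine Finset.sum_congr rfl fun p _ => ?_
  rw [Finset.sum_ite_eq']
  have h2 : (cc (p.1 ++ p.2) * uu n ^ t) % 3 ^ n ∈ (Finset.range (3 ^ n)).filter
      (fun Y' => Y' % 3 ^ (n - 1) = Y % 3 ^ (n - 1)) ↔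
      Y % 3 ^ (n - 1) = (cc (p.1 ++ p.2) * uu n ^ t) % 3 ^ (n - 1) := by
    rw [Finset.mem_filter, Finset.mem_range]
    have h3 : (cc (p.1 ++ p.2) * uu n ^ t) % 3 ^ n % 3 ^ (n - 1) =
        (cc (p.1 ++ p.2) * uu n ^ t) % 3 ^ (n - 1) :=
      Nat.mod_mod_of_dvd _ (pow_dvd_pow 3 (Nat.sub_le n 1))
    rw [h3]
    constructor
    · intro h
      exact h.2.symm
    · intro h
      exact ⟨Nat.mod_lt _ (by positivity), h.symm⟩
  by_cases h : Y % 3 ^ (n - 1) = (cc (p.1 ++ p.2) * uu n ^ t) % 3 ^ (n - 1)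
  · rw [if_pos h, if_pos (h2.2 h)]
  · rw [if_neg h, if_neg (fun h' => h (h2.1 h'))]

/-- the L² estimate -/
theorem top_digit_L2 {n t i s : ℕ} (hi : i < n) (hst : s ≤ t)
    (S : Finset (List ℕ)) (hS : S ⊆ comps i s)
    (hinj : ∀ β ∈ S, ∀ β' ∈ S, (3 : ℤ) ^ n ∣ (cc β : ℤ) - cc β' → β = β') (Fd : ℝ) (hFd : 0 ≤ Fd)
    (hF : ∀ ξ : ℤ, ¬ (3 : ℤ) ∣ ξ → ‖∑ γ ∈ comps (n - i) (t - s),
      ee (-(ξ * ((cc γ * uu (n - i) ^ (t - s) : ℕ) : ℝ) / 3 ^ (n - i))) / 2 ^ (t - s)‖ ≤ Fd) :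
    ∑ Y ∈ Finset.range (3 ^ n), |psi S (n - i) t s n Y - psi S (n - i) t s (n - 1) Y / 3|
      ≤ Fd * Real.sqrt ((3 : ℝ) ^ n / 2 ^ s * ((S.card : ℝ) / 2 ^ s)) := by
  have hn : 1 ≤ n := by omega
  have h3n : (0 : ℝ) < 3 ^ n := by positivity
  set f : ℕ → ℂ := fun Y => ((psi S (n - i) t s n Y : ℝ) : ℂ) with hf
  set g : ℕ → ℂ := fun Y =>
    ((psi S (n - i) t s n Y - psi S (n - i) t s (n - 1) Y / 3 : ℝ) : ℂ) with hg
  set G : ℕ → ℂ := fun ξ => ∑ β ∈ S, (1 / 2 ^ s : ℂ) *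
    ee (-((ξ : ℝ) * ((cc β * uu n ^ s : ℕ) : ℝ) / (3 : ℝ) ^ n)) with hG
  -- Fourier transform of g
  have hgf : ∀ Y < 3 ^ n, g Y = f Y - (∑ Y' ∈ (Finset.range (3 ^ n)).filter
      (fun Y' => Y' % 3 ^ (n - 1) = Y % 3 ^ (n - 1)), f Y') / 3 := by
    intro Y _
    simp only [hg, hf]
    rw [← psi_coset]
    push_cast
    rfl
  have hft := fourier_top hn f g hgf
  -- Fourier transform of f
  have hfhat : ∀ ξ : ℕ, ∑ Y ∈ Finset.range (3 ^ n), f Y * ee (-((ξ : ℝ) * Y / (3 : ℝ) ^ n)) =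
      G ξ * ∑ γ ∈ comps (n - i) (t - s),
        ee (-((((ξ : ℤ) * (uu n : ℤ) ^ s : ℤ) : ℝ) * ((cc γ * uu (n - i) ^ (t - s) : ℕ) : ℝ) / 3 ^ (n - i))) / 2 ^ (t - s) := by
    intro ξ
    have h1 : ∀ Y ∈ Finset.range (3 ^ n), f Y * ee (-((ξ : ℝ) * Y / (3 : ℝ) ^ n)) =
        (∑ p ∈ S ×ˢ comps (n - i) (t - s),
          if Y = (cc (p.1 ++ p.2) * uu n ^ t) % 3 ^ n then (1 / 2 ^ t : ℂ) else 0) *
        ee (-((ξ : ℝ) * Y / (3 : ℝ) ^ n)) := by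
      intro Y hY
      congr 1
      simp only [hf]
      rw [psi_eq S le_rfl, Nat.mod_eq_of_lt (Finset.mem_range.1 hY)]
      push_cast
      refine Finset.sum_congr rfl fun p _ => ?_
      split_ifs <;> simp
    rw [Finset.sum_congr rfl h1, fourier_ind (S ×ˢ comps (n - i) (t - s))
      (fun p => cc (p.1 ++ p.2) * uu n ^ t) (fun _ => (1 / 2 ^ t : ℂ)) ξ]
    rw [Finset.sum_product, hG]
    simp only
    rw [Finset.sum_mul_sum]
    refine Finset.sum_congr rfl fun β hβ => Finset.sum_congr rfl fun γ hγ => ?_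
    obtain ⟨hb1, hb2, _⟩ := mem_comps.1 (hS hβ)
    obtain ⟨hc1, hc2, _⟩ := mem_comps.1 hγ
    have hpow : (2 : ℂ) ^ t = 2 ^ s * 2 ^ (t - s) := by
      rw [← pow_add]
      congr 1
      omega
    have he : ee (-((ξ : ℝ) * ((cc (β ++ γ) * uu n ^ t : ℕ) : ℝ) / (3 : ℝ) ^ n)) =
        ee (-((ξ : ℝ) * ((cc β * uu n ^ s : ℕ) : ℝ) / (3 : ℝ) ^ n)) *
        ee (-((((ξ : ℤ) * (uu n : ℤ) ^ s : ℤ) : ℝ) *
          ((cc γ * uu (n - i) ^ (t - s) : ℕ) : ℝ) / 3 ^ (n - i))) := by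
      rw [← ee_add]
      apply ee_eq_of_sub_int
      obtain ⟨z1, hz1⟩ := two_uu_pow n n (t - s) le_rfl
      have hd : (3 : ℤ) ^ (n - i) ∣ (uu n : ℤ) ^ (t - s) - (uu (n - i) : ℤ) ^ (t - s) :=
        (uu_mod n (n - i) (Nat.sub_le n i)).trans (sub_dvd_pow_sub_pow _ _ _)
      obtain ⟨z2, hz2⟩ := hd
      refine ⟨-(ξ * cc β * uu n ^ s * z1 + ξ * uu n ^ s * cc γ * z2), ?_⟩
      have e1 : (2 * (uu n : ℝ)) ^ (t - s) - 1 = 3 ^ n * z1 := by exact_mod_cast hz1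
      have e2 : (uu n : ℝ) ^ (t - s) - (uu (n - i) : ℝ) ^ (t - s) = 3 ^ (n - i) * z2 := by
        exact_mod_cast hz2
      have e3 : (3 : ℝ) ^ n = 3 ^ i * 3 ^ (n - i) := by
        rw [← pow_add]
        congr 1
        omega
      have e4 : (uu n : ℝ) ^ t = uu n ^ s * uu n ^ (t - s) := by
        rw [← pow_add]
        congr 1
        omega
      have e5 : (cc (β ++ γ) : ℝ) = 2 ^ (t - s) * cc β + 3 ^ i * cc γ := by
        rw [cc_append, hb1, hc2]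
        push_cast
        ring
      have e6 : (2 : ℝ) ^ (t - s) * (uu n : ℝ) ^ (t - s) = 1 + 3 ^ n * z1 := by
        rw [← mul_pow]
        linarith
      have e7 : (uu (n - i) : ℝ) ^ (t - s) = (uu n : ℝ) ^ (t - s) - 3 ^ (n - i) * z2 := by
        linarith
      push_cast
      rw [e5, e4, e7]
      have hq : (3 : ℝ) ^ (n - i) ≠ 0 := by positivity
      have hp : (3 : ℝ) ^ i ≠ 0 := by positivity
      have e8 : (2 ^ (t - s) * (cc β : ℝ) + 3 ^ i * cc γ) * ((uu n : ℝ) ^ s * uu n ^ (t - s)) =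
          cc β * uu n ^ s * (1 + 3 ^ n * z1) + 3 ^ i * cc γ * (uu n ^ s * uu n ^ (t - s)) := by
        rw [← e6]
        ring
      rw [e8, e3]
      field_simp
      ring
    rw [he, hpow]
    field_simp
  -- bound for the Fourier transform of g
  have hgb : ∀ ξ : ℕ, ‖∑ Y ∈ Finset.range (3 ^ n), g Y * ee (-((ξ : ℝ) * Y / (3 : ℝ) ^ n))‖ ^ 2 ≤
      Fd ^ 2 * ‖G ξ‖ ^ 2 := by
    intro ξ
    rw [hft ξ]
    by_cases h : 3 ∣ ξ
    · rw [if_pos h, norm_zero]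
      have h0 : 0 ≤ Fd ^ 2 * ‖G ξ‖ ^ 2 := by positivity
      linarith
    · rw [if_neg h, hfhat ξ, norm_mul, mul_pow, mul_comm]
      have h3 : ¬ (3 : ℤ) ∣ (ξ : ℤ) * (uu n : ℤ) ^ s := by
        have hp : Prime (3 : ℤ) := Int.prime_three
        intro hd
        rcases hp.dvd_or_dvd hd with h4 | h4
        · exact h (by exact_mod_cast h4)
        · have h5 := hp.dvd_of_dvd_pow h4
          have h6 : (2 : ℤ) * uu n = 3 ^ n + 1 := by exact_mod_cast two_mul_uu n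
          have h7 : (3 : ℤ) ∣ 3 ^ n := dvd_pow_self 3 (by omega)
          omega
      have h4 := hF _ h3
      have h5 := norm_nonneg (∑ γ ∈ comps (n - i) (t - s),
        ee (-((((ξ : ℤ) * (uu n : ℤ) ^ s : ℤ) : ℝ) *
          ((cc γ * uu (n - i) ^ (t - s) : ℕ) : ℝ) / 3 ^ (n - i))) / 2 ^ (t - s))
      have h6 := pow_le_pow_left₀ h5 h4 2
      exact mul_le_mul_of_nonneg_right h6 (by positivity)
  -- the first factor
  have hGsum : ∑ ξ ∈ Finset.range (3 ^ n), ‖G ξ‖ ^ 2 = 3 ^ n / 2 ^ s * ((S.card : ℝ) / 2 ^ s) := by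
    set h : ℕ → ℂ := fun Y => ∑ β ∈ S, if Y = (cc β * uu n ^ s) % 3 ^ n then (1 / 2 ^ s : ℂ) else 0
      with hh
    have h1 := parseval (3 ^ n) (by positivity) h
    have h2 : ∀ ξ ∈ Finset.range (3 ^ n),
        ‖∑ Y ∈ Finset.range (3 ^ n), h Y * ee (-((ξ : ℝ) * Y / ((3 ^ n : ℕ) : ℝ)))‖ ^ 2 =
        ‖G ξ‖ ^ 2 := by
      intro ξ _
      have h3 := fourier_ind (n := n) S (fun β => cc β * uu n ^ s) (fun _ => (1 / 2 ^ s : ℂ)) ξ
      push_cast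
      simp only [hh, hG]
      push_cast at h3 ⊢
      rw [h3]
    rw [Finset.sum_congr rfl h2] at h1
    rw [h1]
    have h4 : ∑ Y ∈ Finset.range (3 ^ n), ‖h Y‖ ^ 2 = (S.card : ℝ) / 2 ^ s / 2 ^ s := by
      have hinj' : ∀ β ∈ S, ∀ β' ∈ S, (cc β * uu n ^ s) % 3 ^ n = (cc β' * uu n ^ s) % 3 ^ n →
          β = β' := by
        intro β hβ β' hβ' h5
        apply hinj β hβ β' hβ'
        rw [← key1] at h5
        have hcop : IsCoprime ((3 : ℤ) ^ n) ((uu n : ℤ) ^ s) := by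
          apply IsCoprime.pow_right
          refine ⟨-1, 2, ?_⟩
          have h6 : (2 : ℤ) * uu n = 3 ^ n + 1 := by exact_mod_cast two_mul_uu n
          linarith
        apply hcop.dvd_of_dvd_mul_right
        have h6 : ((cc β : ℤ) - cc β') * (uu n : ℤ) ^ s =
            ((cc β * uu n ^ s : ℕ) : ℤ) - ((cc β' * uu n ^ s : ℕ) : ℤ) := by
          push_cast
          ring
        rw [h6]
        exact h5
      have h5 : ∀ Y ∈ Finset.range (3 ^ n), ‖h Y‖ ^ 2 =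
          ∑ β ∈ S, if Y = (cc β * uu n ^ s) % 3 ^ n then (1 / 2 ^ s / 2 ^ s : ℝ) else 0 := by
        intro Y _
        simp only [hh]
        by_cases h6 : ∃ β ∈ S, Y = (cc β * uu n ^ s) % 3 ^ n
        · obtain ⟨β, hβ, h7⟩ := h6
          rw [Finset.sum_eq_single β, Finset.sum_eq_single β, if_pos h7, if_pos h7]
          · rw [norm_div, norm_one, norm_pow, Complex.norm_ofNat, div_pow, one_pow, sq,
              div_div]
          · intro β' hβ' hne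
            exact if_neg fun h8 => hne (hinj' β' hβ' β hβ (h8.symm.trans h7))
          · intro h8
            exact absurd hβ h8
          · intro β' hβ' hne
            exact if_neg fun h8 => hne (hinj' β' hβ' β hβ (h8.symm.trans h7))
          · intro h8
            exact absurd hβ h8
        · push Not at h6
          rw [Finset.sum_eq_zero fun β hβ => if_neg (h6 β hβ),
            Finset.sum_eq_zero fun β hβ => if_neg (h6 β hβ)]
          simp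
      rw [Finset.sum_congr rfl h5, Finset.sum_comm]
      have h6 : ∀ β ∈ S, ∑ Y ∈ Finset.range (3 ^ n),
          (if Y = (cc β * uu n ^ s) % 3 ^ n then (1 / 2 ^ s / 2 ^ s : ℝ) else 0) =
          1 / 2 ^ s / 2 ^ s := by
        intro β _
        rw [Finset.sum_ite_eq', if_pos (Finset.mem_range.2 (Nat.mod_lt _ (by positivity)))]
      rw [Finset.sum_congr rfl h6, Finset.sum_const, nsmul_eq_mul]
      ring
    rw [h4]
    push_cast
    ring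
  -- Parseval for g
  have hgp := parseval (3 ^ n) (by positivity) g
  push_cast at hgp
  have h5 : (3 : ℝ) ^ n * ∑ Y ∈ Finset.range (3 ^ n), ‖g Y‖ ^ 2 ≤
      Fd ^ 2 * (3 ^ n / 2 ^ s * ((S.card : ℝ) / 2 ^ s)) := by
    rw [← hgp, ← hGsum, Finset.mul_sum]
    exact Finset.sum_le_sum fun ξ _ => hgb ξ
  -- Cauchy-Schwarz
  have h6 : (∑ Y ∈ Finset.range (3 ^ n), ‖g Y‖) ^ 2 ≤
      (3 : ℝ) ^ n * ∑ Y ∈ Finset.range (3 ^ n), ‖g Y‖ ^ 2 := by
    have := sq_sum_le_card_mul_sum_sq (s := Finset.range (3 ^ n)) (f := fun Y => ‖g Y‖)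
    rw [Finset.card_range] at this
    exact_mod_cast this
  have h7 : ∀ Y ∈ Finset.range (3 ^ n),
      |psi S (n - i) t s n Y - psi S (n - i) t s (n - 1) Y / 3| = ‖g Y‖ := by
    intro Y _
    simp only [hg]
    rw [Complex.norm_real, Real.norm_eq_abs]
  rw [Finset.sum_congr rfl h7]
  have h8 : Fd * Real.sqrt ((3 : ℝ) ^ n / 2 ^ s * ((S.card : ℝ) / 2 ^ s)) =
      Real.sqrt (Fd ^ 2 * ((3 : ℝ) ^ n / 2 ^ s * ((S.card : ℝ) / 2 ^ s))) := by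
    rw [Real.sqrt_mul (sq_nonneg Fd), Real.sqrt_sq hFd]
  rw [h8]
  exact Real.le_sqrt_of_sq_le (h6.trans h5)

end Pool.Agent.W_e21d3a_h93
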