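import Pool.Agent.W_e21d3a_h93.M1c
import Pool.Agent.W_e21d3a_h93.M2b
import Pool.Agent.W_e21d3a_h93.M3b
import Pool.Agent.W_e21d3a_h93.F0d

set_option autoImplicit false

/-!
# [NC] M4a: the top digit: assembly (row 499, 5.3)
-/

namespace Pool.Agent.W_e21d3a_h93

open Classical in
/-- the contribution of one list -/
private noncomputable def m4a_D (n t : ℕ) (l : List ℕ) (Y : ℤ) : ℝ :=
  (if (3 : ℤ) ^ n ∣ 2 ^ t * Y - (cc l : ℤ) then (1 : ℝ) else 0) -
    (if (3 : ℤ) ^ (n - 1) ∣ 2 ^ t * Y - (cc l : ℤ) then (1 : ℝ) else 0) / 3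

open Classical in
private theorem m4a_phi (k n t : ℕ) (Y : ℤ) : phi k n t Y =
    ∑ l ∈ comps n t, (if (3 : ℤ) ^ k ∣ 2 ^ t * Y - (cc l : ℤ) then (1 : ℝ) else 0) / 2 ^ t := by
  unfold phi
  rw [Finset.card_filter]
  push_cast
  rw [Finset.sum_div]

private theorem m4a_diff (n t : ℕ) (Y : ℤ) : phi n n t Y - phi (n - 1) n t Y / 3 =
    ∑ l ∈ comps n t, m4a_D n t l Y / 2 ^ t := by
  rw [m4a_phi, m4a_phi, Finset.sum_div, ← Finset.sum_sub_distrib]
  refine Finset.sum_congr rfl fun l _ => ?_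
  unfold m4a_D
  ring

open Classical in
private theorem m4a_one (k t : ℕ) (l : List ℕ) : ∑ Y ∈ Finset.range (3 ^ k),
    (if (3 : ℤ) ^ k ∣ 2 ^ t * (Y : ℤ) - (cc l : ℤ) then (1 : ℝ) else 0) = 1 := by
  rw [Finset.sum_boole, M1a_unique k t (cc l : ℤ)]
  norm_num

open Classical in
private theorem m4a_three {n : ℕ} (hn : 1 ≤ n) (t : ℕ) (l : List ℕ) :
    ∑ Y ∈ Finset.range (3 ^ n),
    (if (3 : ℤ) ^ (n - 1) ∣ 2 ^ t * (Y : ℤ) - (cc l : ℤ) then (1 : ℝ) else 0) = 3 := by
  have h := sum_range_periodic (j := n - 1) (n := n)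
    (fun Y : ℤ => if (3 : ℤ) ^ (n - 1) ∣ 2 ^ t * Y - (cc l : ℤ) then (1 : ℝ) else 0) (by omega)
    (by
      intro Y z
      have e : (2 : ℤ) ^ t * (Y + 3 ^ (n - 1) * z) - (cc l : ℤ)
          = (2 ^ t * Y - (cc l : ℤ)) + 3 ^ (n - 1) * (2 ^ t * z) := by ring
      have h2 : (3 : ℤ) ^ (n - 1) ∣ 2 ^ t * (Y + 3 ^ (n - 1) * z) - (cc l : ℤ) ↔
          (3 : ℤ) ^ (n - 1) ∣ 2 ^ t * Y - (cc l : ℤ) := by
        rw [e]
        exact Int.dvd_add_left (Dvd.intro _ rfl)
      simp only [h2])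
  rw [h, m4a_one, show n - (n - 1) = 1 by omega]
  norm_num

private theorem m4a_abs {n : ℕ} (hn : 1 ≤ n) (t : ℕ) (l : List ℕ) :
    ∑ Y ∈ Finset.range (3 ^ n), |m4a_D n t l (Y : ℤ)| ≤ 2 := by
  classical
  have h1 : ∀ Y ∈ Finset.range (3 ^ n), |m4a_D n t l (Y : ℤ)| ≤
      (if (3 : ℤ) ^ n ∣ 2 ^ t * (Y : ℤ) - (cc l : ℤ) then (1 : ℝ) else 0) +
        (if (3 : ℤ) ^ (n - 1) ∣ 2 ^ t * (Y : ℤ) - (cc l : ℤ) then (1 : ℝ) else 0) / 3 := by
    intro Y _
    unfold m4a_D
    refine (abs_sub _ _).trans (le_of_eq ?_)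
    rw [abs_of_nonneg (by split_ifs <;> norm_num), abs_of_nonneg (by split_ifs <;> norm_num)]
  refine (Finset.sum_le_sum h1).trans (le_of_eq ?_)
  rw [Finset.sum_add_distrib, ← Finset.sum_div, m4a_one, m4a_three hn]
  norm_num

private theorem m4a_triv {n : ℕ} (hn : 1 ≤ n) (τ : ℕ) : om n τ ≤ 2 := by
  unfold om
  have h1 : ∀ t ∈ Finset.range (τ + 1), ∑ Y ∈ Finset.range (3 ^ n),
      |phi n n t Y - phi (n - 1) n t Y / 3| ≤ 2 * pw n t := by
    intro t _
    calc ∑ Y ∈ Finset.range (3 ^ n), |phi n n t Y - phi (n - 1) n t Y / 3|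
        ≤ ∑ Y ∈ Finset.range (3 ^ n), ∑ l ∈ comps n t, |m4a_D n t l (Y : ℤ)| / 2 ^ t := by
          refine Finset.sum_le_sum fun Y _ => ?_
          rw [m4a_diff]
          refine (Finset.abs_sum_le_sum_abs _ _).trans (le_of_eq ?_)
          refine Finset.sum_congr rfl fun l _ => ?_
          rw [abs_div, abs_of_pos (show (0 : ℝ) < 2 ^ t by positivity)]
      _ = ∑ l ∈ comps n t, (∑ Y ∈ Finset.range (3 ^ n), |m4a_D n t l (Y : ℤ)|) / 2 ^ t := by
          rw [Finset.sum_comm]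
          refine Finset.sum_congr rfl fun l _ => ?_
          rw [Finset.sum_div]
      _ ≤ ∑ l ∈ comps n t, 2 / (2 : ℝ) ^ t := by
          refine Finset.sum_le_sum fun l _ => ?_
          exact div_le_div_of_nonneg_right (m4a_abs hn t l) (by positivity)
      _ = 2 * pw n t := by
          rw [Finset.sum_const, nsmul_eq_mul]
          unfold pw
          ring
  refine (Finset.sum_le_sum h1).trans ?_
  rw [← Finset.mul_sum]
  have := sum_pw_le_one n τ
  linarith

open Classical in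
/-- the bad lists -/
private theorem m4a_badpart {n : ℕ} (hn : 1 ≤ n) (A τ : ℕ) :
    ∑ t ∈ Finset.range (τ + 1), ∑ Y ∈ Finset.range (3 ^ n),
      |∑ l ∈ (comps n t).filter (fun l => ¬ GoodL A n l), m4a_D n t l (Y : ℤ) / 2 ^ t| ≤
      2 * Pr n τ (fun l => ¬ GoodL A n l) := by
  unfold Pr
  rw [Finset.mul_sum]
  refine Finset.sum_le_sum fun t _ => ?_
  have h1 : ∑ Y ∈ Finset.range (3 ^ n),
      |∑ l ∈ (comps n t).filter (fun l => ¬ GoodL A n l), m4a_D n t l (Y : ℤ) / 2 ^ t| ≤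
      ∑ Y ∈ Finset.range (3 ^ n), ∑ l ∈ (comps n t).filter (fun l => ¬ GoodL A n l),
        |m4a_D n t l (Y : ℤ)| / 2 ^ t := by
    refine Finset.sum_le_sum fun Y _ => ?_
    refine (Finset.abs_sum_le_sum_abs _ _).trans (le_of_eq ?_)
    refine Finset.sum_congr rfl fun l _ => ?_
    rw [abs_div, abs_of_pos (show (0 : ℝ) < 2 ^ t by positivity)]
  have h2 : ∑ Y ∈ Finset.range (3 ^ n), ∑ l ∈ (comps n t).filter (fun l => ¬ GoodL A n l),
        |m4a_D n t l (Y : ℤ)| / 2 ^ t =
      ∑ l ∈ (comps n t).filter (fun l => ¬ GoodL A n l),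
        (∑ Y ∈ Finset.range (3 ^ n), |m4a_D n t l (Y : ℤ)|) / 2 ^ t := by
    rw [Finset.sum_comm]
    refine Finset.sum_congr rfl fun l _ => ?_
    rw [Finset.sum_div]
  have h3 : ∑ l ∈ (comps n t).filter (fun l => ¬ GoodL A n l),
        (∑ Y ∈ Finset.range (3 ^ n), |m4a_D n t l (Y : ℤ)|) / 2 ^ t ≤
      ∑ l ∈ (comps n t).filter (fun l => ¬ GoodL A n l), 2 / (2 : ℝ) ^ t := by
    refine Finset.sum_le_sum fun l _ => ?_
    exact div_le_div_of_nonneg_right (m4a_abs hn t l) (by positivity)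
  refine h1.trans (h2.le.trans (h3.trans (le_of_eq ?_)))
  rw [Finset.sum_const, nsmul_eq_mul]
  trans 2 * ((((comps n t).filter (fun l => ¬ GoodL A n l)).card : ℝ) / 2 ^ t)
  · ring
  · congr!

private theorem m4a_take (l : List ℕ) (i : ℕ) : (l.take i).take (i - 1) = l.take (i - 1) := by
  rw [List.take_take, min_eq_left (by omega)]

open Classical in
/-- good lists and beginnings -/
private theorem m4a_good_eq {A n t : ℕ} (ht : t ≤ 10 * n) (F : List ℕ → ℝ) :
    ∑ l ∈ (comps n t).filter (fun l => GoodL A n l), F l =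
      ∑ i ∈ Finset.Icc 1 (9 * n / 10), ∑ s ∈ Finset.range (t + 1),
        ∑ β ∈ (comps i s).filter (fun β => Beg A n i s β), ∑ γ ∈ comps (n - i) (t - s),
          F (β ++ γ) := by
  have h1 : ∑ l ∈ (comps n t).filter (fun l => GoodL A n l), F l =
      ∑ l ∈ comps n t, ∑ i ∈ Finset.Icc 1 (9 * n / 10),
        (if Beg A n i (l.take i).sum (l.take i) then F l else 0) := by
    rw [Finset.sum_filter]
    refine Finset.sum_congr rfl fun l hl => ?_
    have hl' := mem_comps.1 hl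
    by_cases hG : GoodL A n l
    · rw [if_pos hG]
      obtain ⟨-, i, hi1, hi2, hB⟩ := hG
      rw [Finset.sum_eq_single i]
      · rw [if_pos hB]
      · intro i' hi' hne
        rw [if_neg]
        intro hB'
        apply hne
        have a1 := hB.1
        have a1' := hB'.1
        rw [m4a_take] at a1 a1'
        exact stop_unique a1' hB'.2.1 a1 hB.2.1 (Finset.mem_Icc.1 hi').1 hi1
      · intro hni
        exfalso
        apply hni
        rw [Finset.mem_Icc]
        omega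
    · rw [if_neg hG]
      symm
      refine Finset.sum_eq_zero fun i hi => ?_
      rw [if_neg]
      intro hB
      rw [Finset.mem_Icc] at hi
      exact hG ⟨by omega, i, hi.1, by omega, hB⟩
  rw [h1, Finset.sum_comm]
  refine Finset.sum_congr rfl fun i hi => ?_
  rw [Finset.mem_Icc] at hi
  have hin : i + (n - i) = n := by omega
  have h2 := sum_comps_append i (n - i) t
    (fun l => if Beg A n i (l.take i).sum (l.take i) then F l else 0)
  rw [hin] at h2
  rw [h2]
  refine Finset.sum_congr rfl fun s _ => ?_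
  rw [Finset.sum_filter]
  refine Finset.sum_congr rfl fun β hβ => ?_
  have hβ' := mem_comps.1 hβ
  have h3 : ∀ γ : List ℕ, (β ++ γ).take i = β := by
    intro γ
    rw [← hβ'.1]
    exact List.take_left
  simp only [h3, hβ'.2.1]
  split_ifs with h
  · rfl
  · exact Finset.sum_const_zero

open Classical in
/-- one pair `(i, s)` -/
private theorem m4a_pair {A n t i s : ℕ} {Cf : ℝ} {A' K : ℕ} (hCf : 0 < Cf)
    (hF : ∀ (n t : ℕ) (ξ : ℤ), 1 ≤ n → ¬ (3 : ℤ) ∣ ξ →
      ‖∑ l ∈ comps n t, ee (-(ξ * ((cc l * uu n ^ t : ℕ) : ℝ) / 3 ^ n)) / 2 ^ t‖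
        ≤ Cf / (n : ℝ) ^ A')
    (hn : 1 ≤ n) (hi1 : 1 ≤ i) (hi : 10 * i ≤ 9 * n) (hst : s ≤ t)
    (hinj : ∀ i s β β', 1 ≤ i → β ∈ comps i s → β' ∈ comps i s →
      Beg A n i s β → Beg A n i s β' → (3 : ℤ) ^ n ∣ (cc β : ℤ) - cc β' → β = β')
    (htau : (3 : ℝ) ^ n / 2 ^ tau1 A n ≤ 4 * (2 * n) ^ K) :
    ∑ Y ∈ Finset.range (3 ^ n),
      |psi ((comps i s).filter (fun β => Beg A n i s β)) (n - i) t s n Y -
        psi ((comps i s).filter (fun β => Beg A n i s β)) (n - i) t s (n - 1) Y / 3| ≤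
      if s ∈ Finset.Icc (tau1 A n) (tau1 A n + k4 A * Lg n) then
        Cf * 10 ^ A' / (n : ℝ) ^ A' * (4 * (2 * n) ^ K) else 0 := by
  have hn' : (1 : ℝ) ≤ n := by exact_mod_cast hn
  set S := (comps i s).filter (fun β => Beg A n i s β) with hS
  by_cases hs : s ∈ Finset.Icc (tau1 A n) (tau1 A n + k4 A * Lg n)
  · rw [if_pos hs]
    rw [Finset.mem_Icc] at hs
    have hFd : 0 ≤ Cf * 10 ^ A' / (n : ℝ) ^ A' := by positivity
    have h1 := top_digit_L2 (n := n) (t := t) (i := i) (s := s) (by omega) hst S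
      (Finset.filter_subset _ _)
      (fun β hβ β' hβ' hd => by
        rw [hS, Finset.mem_filter] at hβ hβ'
        exact hinj i s β β' hi1 hβ.1 hβ'.1 hβ.2 hβ'.2 hd)
      (Cf * 10 ^ A' / (n : ℝ) ^ A') hFd
      (fun ξ hξ => by
        refine (hF (n - i) (t - s) ξ (by omega) hξ).trans ?_
        have h2 : (n : ℝ) / 10 ≤ ((n - i : ℕ) : ℝ) := by
          rw [Nat.cast_sub (by omega)]
          have h3 : (10 : ℝ) * i ≤ 9 * n := by exact_mod_cast hi
          linarith
        have h4 : 0 < (n : ℝ) / 10 := by positivity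
        calc Cf / ((n - i : ℕ) : ℝ) ^ A' ≤ Cf / ((n : ℝ) / 10) ^ A' := by
              apply div_le_div_of_nonneg_left hCf.le (by positivity)
              exact pow_le_pow_left₀ h4.le h2 A'
          _ = Cf * 10 ^ A' / (n : ℝ) ^ A' := by
              rw [div_pow]
              field_simp)
    refine h1.trans (mul_le_mul_of_nonneg_left ?_ hFd)
    have h5 : (S.card : ℝ) / 2 ^ s ≤ 1 := by
      refine le_trans ?_ (pw_le_one i s)
      unfold pw
      apply div_le_div_of_nonneg_right _ (by positivity)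
      exact_mod_cast Finset.card_le_card (Finset.filter_subset _ _)
    have h6 : (3 : ℝ) ^ n / 2 ^ s ≤ 4 * (2 * n) ^ K := by
      refine le_trans ?_ htau
      apply div_le_div_of_nonneg_left (by positivity) (by positivity)
      exact pow_le_pow_right₀ (by norm_num) hs.1
    have h7 : (3 : ℝ) ^ n / 2 ^ s * ((S.card : ℝ) / 2 ^ s) ≤ 4 * (2 * n) ^ K := by
      calc (3 : ℝ) ^ n / 2 ^ s * ((S.card : ℝ) / 2 ^ s) ≤ (3 : ℝ) ^ n / 2 ^ s * 1 :=
            mul_le_mul_of_nonneg_left h5 (by positivity)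
        _ ≤ 4 * (2 * n) ^ K := by rw [mul_one]; exact h6
    have h8 : (1 : ℝ) ≤ (2 * n) ^ K := one_le_pow₀ (by linarith)
    rw [Real.sqrt_le_iff]
    refine ⟨by positivity, h7.trans ?_⟩
    nlinarith
  · rw [if_neg hs]
    have hSe : S = ∅ := by
      rw [hS, Finset.filter_eq_empty_iff]
      intro β _ hB
      exact hs (Finset.mem_Icc.2 ⟨hB.2.1, hB.2.2.1⟩)
    have h0 : ∀ k Y, psi S (n - i) t s k Y = 0 := by
      intro k Y
      unfold psi
      rw [hSe, Finset.sum_empty]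
    simp only [h0]
    simp

open Classical in
/-- the good lists of sum `t` -/
private theorem m4a_goodpart {A n t : ℕ} {M : ℝ} (hM : 0 ≤ M) (ht : t ≤ 10 * n)
    (hpair : ∀ i s, 1 ≤ i → 10 * i ≤ 9 * n → s ≤ t → ∑ Y ∈ Finset.range (3 ^ n),
      |psi ((comps i s).filter (fun β => Beg A n i s β)) (n - i) t s n Y -
        psi ((comps i s).filter (fun β => Beg A n i s β)) (n - i) t s (n - 1) Y / 3| ≤
      if s ∈ Finset.Icc (tau1 A n) (tau1 A n + k4 A * Lg n) then M else 0) :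
    ∑ Y ∈ Finset.range (3 ^ n),
      |∑ l ∈ (comps n t).filter (fun l => GoodL A n l), m4a_D n t l (Y : ℤ) / 2 ^ t| ≤
      n * ((k4 A * Lg n + 1 : ℕ) * M) := by
  have h1 : ∀ Y : ℕ, ∑ l ∈ (comps n t).filter (fun l => GoodL A n l),
      m4a_D n t l (Y : ℤ) / 2 ^ t = ∑ i ∈ Finset.Icc 1 (9 * n / 10), ∑ s ∈ Finset.range (t + 1),
      (psi ((comps i s).filter (fun β => Beg A n i s β)) (n - i) t s n Y -
        psi ((comps i s).filter (fun β => Beg A n i s β)) (n - i) t s (n - 1) Y / 3) := by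
    intro Y
    rw [m4a_good_eq ht]
    refine Finset.sum_congr rfl fun i _ => Finset.sum_congr rfl fun s _ => ?_
    unfold psi
    rw [Finset.sum_div, ← Finset.sum_sub_distrib]
    refine Finset.sum_congr rfl fun β _ => ?_
    rw [Finset.sum_div, ← Finset.sum_sub_distrib]
    refine Finset.sum_congr rfl fun γ _ => ?_
    unfold m4a_D
    ring
  calc ∑ Y ∈ Finset.range (3 ^ n),
        |∑ l ∈ (comps n t).filter (fun l => GoodL A n l), m4a_D n t l (Y : ℤ) / 2 ^ t|
      ≤ ∑ Y ∈ Finset.range (3 ^ n), ∑ i ∈ Finset.Icc 1 (9 * n / 10),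
          ∑ s ∈ Finset.range (t + 1),
          |psi ((comps i s).filter (fun β => Beg A n i s β)) (n - i) t s n Y -
            psi ((comps i s).filter (fun β => Beg A n i s β)) (n - i) t s (n - 1) Y / 3| := by
        refine Finset.sum_le_sum fun Y _ => ?_
        rw [h1]
        refine (Finset.abs_sum_le_sum_abs _ _).trans ?_
        exact Finset.sum_le_sum fun i _ => Finset.abs_sum_le_sum_abs _ _
    _ = ∑ i ∈ Finset.Icc 1 (9 * n / 10), ∑ s ∈ Finset.range (t + 1),
          ∑ Y ∈ Finset.range (3 ^ n),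
          |psi ((comps i s).filter (fun β => Beg A n i s β)) (n - i) t s n Y -
            psi ((comps i s).filter (fun β => Beg A n i s β)) (n - i) t s (n - 1) Y / 3| := by
        rw [Finset.sum_comm]
        refine Finset.sum_congr rfl fun i _ => ?_
        rw [Finset.sum_comm]
    _ ≤ ∑ i ∈ Finset.Icc 1 (9 * n / 10), ((k4 A * Lg n + 1 : ℕ) * M) := by
        refine Finset.sum_le_sum fun i hi => ?_
        rw [Finset.mem_Icc] at hi
        calc _ ≤ ∑ s ∈ Finset.range (t + 1),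
              (if s ∈ Finset.Icc (tau1 A n) (tau1 A n + k4 A * Lg n) then M else 0) := by
              refine Finset.sum_le_sum fun s hs => ?_
              rw [Finset.mem_range] at hs
              exact hpair i s hi.1 (by omega) (by omega)
          _ ≤ ∑ s ∈ Finset.Icc (tau1 A n) (tau1 A n + k4 A * Lg n), M := by
              rw [← Finset.sum_filter]
              refine Finset.sum_le_sum_of_subset_of_nonneg ?_ fun _ _ _ => hM
              intro s hs
              exact (Finset.mem_filter.1 hs).2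
          _ = (k4 A * Lg n + 1 : ℕ) * M := by
              rw [Finset.sum_const, Nat.card_Icc, nsmul_eq_mul]
              congr 2
              omega
    _ ≤ n * ((k4 A * Lg n + 1 : ℕ) * M) := by
        rw [Finset.sum_const, Nat.card_Icc, nsmul_eq_mul]
        apply mul_le_mul_of_nonneg_right _ (by positivity)
        have : 9 * n / 10 + 1 - 1 ≤ n := by omega
        exact_mod_cast this

/-- top digit: split `comps n t` (`t ≤ 10n`) into bad lists and the products
`{β ∈ comps i s : Beg A n i s β} × comps (n-i) (t-s)`, use `Pr_bad` and `top_digit_L2` -/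
theorem om_le (A : ℕ) : ∃ C : ℝ, ∀ n τ : ℕ, 1 ≤ n → om n τ ≤ C / (n : ℝ) ^ A := by
  classical
  obtain ⟨Cb, hCb⟩ := Pr_bad A
  obtain ⟨n1, hn1⟩ := cc_mod_inj A
  obtain ⟨n2, hn2⟩ := two_pow_tau1 A
  set K := k3 A + k4 A with hK
  set A' := A + 3 + K with hA'
  obtain ⟨Cf, hCf, hF⟩ := fourier_decay A'
  set n0 := max n1 n2 with hn0
  refine ⟨2 * (n0 : ℝ) ^ A + 2 * |Cb| +
    11 * (k4 A + 1) * (Cf * 10 ^ A' * (4 * 2 ^ K)), fun n τ hn => ?_⟩
  have hnr : (1 : ℝ) ≤ n := by exact_mod_cast hn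
  have hn' : (0 : ℝ) < (n : ℝ) ^ A := by positivity
  by_cases hlarge : n0 ≤ n
  · have e1 : n1 ≤ n := (le_max_left _ _).trans hlarge
    have e2 : n2 ≤ n := (le_max_right _ _).trans hlarge
    set M : ℝ := Cf * 10 ^ A' / (n : ℝ) ^ A' * (4 * (2 * n) ^ K) with hM
    have hM0 : 0 ≤ M := by positivity
    have h1 : om n τ ≤ ∑ t ∈ Finset.range (τ + 1), ∑ Y ∈ Finset.range (3 ^ n),
        |∑ l ∈ (comps n t).filter (fun l => ¬ GoodL A n l), m4a_D n t l (Y : ℤ) / 2 ^ t| +
        ∑ t ∈ Finset.range (τ + 1), ∑ Y ∈ Finset.range (3 ^ n),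
        |∑ l ∈ (comps n t).filter (fun l => GoodL A n l), m4a_D n t l (Y : ℤ) / 2 ^ t| := by
      unfold om
      rw [← Finset.sum_add_distrib]
      refine Finset.sum_le_sum fun t _ => ?_
      rw [← Finset.sum_add_distrib]
      refine Finset.sum_le_sum fun Y _ => ?_
      rw [m4a_diff, ← Finset.sum_filter_add_sum_filter_not (comps n t) (fun l => GoodL A n l)]
      rw [add_comm]
      exact abs_add_le _ _
    have h2 := m4a_badpart hn A τ
    have h3 := hCb n τ hn
    have h4 : ∑ t ∈ Finset.range (τ + 1), ∑ Y ∈ Finset.range (3 ^ n),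
        |∑ l ∈ (comps n t).filter (fun l => GoodL A n l), m4a_D n t l (Y : ℤ) / 2 ^ t| ≤
        (10 * n + 1 : ℕ) * (n * ((k4 A * Lg n + 1 : ℕ) * M)) := by
      calc _ ≤ ∑ t ∈ Finset.range (τ + 1),
            (if t ≤ 10 * n then (n : ℝ) * ((k4 A * Lg n + 1 : ℕ) * M) else 0) := by
            refine Finset.sum_le_sum fun t _ => ?_
            by_cases ht : t ≤ 10 * n
            · rw [if_pos ht]
              refine m4a_goodpart hM0 ht fun i s hi1 hi hst => ?_
              exact m4a_pair hCf hF hn hi1 hi hst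
                (fun i s β β' a b c d e f => hn1 n e1 i s β β' a b c d e f) (hn2 n e2).2
            · rw [if_neg ht]
              have he : (comps n t).filter (fun l => GoodL A n l) = ∅ := by
                rw [Finset.filter_eq_empty_iff]
                intro l hl hG
                have := (mem_comps.1 hl).2.1
                have := hG.1
                omega
              rw [he]
              simp
        _ ≤ ∑ t ∈ Finset.range (10 * n + 1), (n : ℝ) * ((k4 A * Lg n + 1 : ℕ) * M) := by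
            rw [← Finset.sum_filter]
            refine Finset.sum_le_sum_of_subset_of_nonneg ?_ fun _ _ _ => by positivity
            intro t ht
            rw [Finset.mem_filter] at ht
            rw [Finset.mem_range]
            omega
        _ = (10 * n + 1 : ℕ) * (n * ((k4 A * Lg n + 1 : ℕ) * M)) := by
            rw [Finset.sum_const, Finset.card_range, nsmul_eq_mul]
    have h5 : ((10 * n + 1 : ℕ) : ℝ) * (n * ((k4 A * Lg n + 1 : ℕ) * M)) ≤
        11 * (k4 A + 1) * (Cf * 10 ^ A' * (4 * 2 ^ K)) / (n : ℝ) ^ A := by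
      have hL : Lg n ≤ n := by
        unfold Lg
        exact Nat.clog_le_of_le_pow Nat.lt_two_pow_self.le
      have b1 : ((10 * n + 1 : ℕ) : ℝ) ≤ 11 * n := by
        have : 10 * n + 1 ≤ 11 * n := by omega
        exact_mod_cast this
      have b2 : ((k4 A * Lg n + 1 : ℕ) : ℝ) ≤ (k4 A + 1) * n := by
        have : k4 A * Lg n + 1 ≤ (k4 A + 1) * n := by nlinarith
        exact_mod_cast this
      calc ((10 * n + 1 : ℕ) : ℝ) * (n * ((k4 A * Lg n + 1 : ℕ) * M))
          ≤ (11 * n) * (n * (((k4 A + 1) * n) * M)) := by gcongr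
        _ = 11 * (k4 A + 1) * (Cf * 10 ^ A' * (4 * 2 ^ K)) / (n : ℝ) ^ A := by
            have hp : (n : ℝ) ^ A' = n ^ A * n ^ 3 * n ^ K := by rw [hA', pow_add, pow_add]
            have hn0' : (n : ℝ) ≠ 0 := by positivity
            rw [hM, hp, mul_pow]
            field_simp
    have h6 : 2 * Pr n τ (fun l => ¬ GoodL A n l) ≤ 2 * |Cb| / (n : ℝ) ^ A := by
      have h7 : Cb / (n : ℝ) ^ A ≤ |Cb| / (n : ℝ) ^ A :=
        div_le_div_of_nonneg_right (le_abs_self _) hn'.le
      rw [mul_div_assoc]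
      linarith
    have h8 : (0 : ℝ) ≤ 2 * (n0 : ℝ) ^ A / (n : ℝ) ^ A := by positivity
    rw [add_div, add_div]
    linarith
  · have h1 := m4a_triv hn τ
    have h2 : (n : ℝ) ^ A ≤ (n0 : ℝ) ^ A := by
      apply pow_le_pow_left₀ (by positivity)
      exact_mod_cast (not_le.1 hlarge).le
    rw [le_div_iff₀ hn']
    have h3 : 0 ≤ 2 * |Cb| + 11 * (k4 A + 1) * (Cf * 10 ^ A' * (4 * 2 ^ K)) := by positivity
    calc om n τ * (n : ℝ) ^ A ≤ 2 * (n0 : ℝ) ^ A := by
          apply mul_le_mul h1 h2 hn'.le (by norm_num)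
      _ ≤ _ := by linarith

end Pool.Agent.W_e21d3a_h93
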