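import Pool.Agent.W_e21d3a_h93.P1

set_option autoImplicit false

/-!
# [NC] P2a: Chernoff bounds (row 497, (1.2))
-/

namespace Pool.Agent.W_e21d3a_h93

private theorem P2a_exp_le {d : ℝ} (h0 : 0 ≤ d) : Real.exp (d - d ^ 2 / 2) ≤ 1 + d := by
  have h1 := Real.le_log_one_add_of_nonneg h0
  have h2 : d - d ^ 2 / 2 ≤ 2 * d / (d + 2) := by
    rw [le_div_iff₀ (by linarith)]
    nlinarith [pow_nonneg h0 3]
  have h3 : d - d ^ 2 / 2 ≤ Real.log (1 + d) := h2.trans h1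
  calc Real.exp (d - d ^ 2 / 2) ≤ Real.exp (Real.log (1 + d)) := Real.exp_le_exp.mpr h3
    _ = 1 + d := Real.exp_log (by linarith)

private theorem P2a_inv_le {d : ℝ} (h0 : 0 ≤ d) (h1 : d ≤ 1 / 2) :
    (1 - d ^ 2)⁻¹ ≤ Real.exp (4 / 3 * d ^ 2) := by
  have hu : d ^ 2 ≤ 1 / 4 := by nlinarith
  have hu0 : 0 ≤ d ^ 2 := sq_nonneg d
  have h2 : (1 - d ^ 2)⁻¹ ≤ 1 + 4 / 3 * d ^ 2 := by
    rw [inv_le_iff_one_le_mul₀ (by linarith)]
    nlinarith
  have h3 : 4 / 3 * d ^ 2 + 1 ≤ Real.exp (4 / 3 * d ^ 2) := Real.add_one_le_exp _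
  linarith

private theorem P2a_delta {T n : ℕ} (h1 : 1 ≤ T) (h2 : T ≤ n) :
    0 < (T : ℝ) / (2 * n) ∧ (T : ℝ) / (2 * n) ≤ 1 / 2 := by
  have hT : (1 : ℝ) ≤ T := by exact_mod_cast h1
  have hn : (T : ℝ) ≤ n := by exact_mod_cast h2
  have hn0 : (0 : ℝ) < 2 * n := by linarith
  refine ⟨div_pos (by linarith) hn0, ?_⟩
  rw [div_le_iff₀ hn0]
  linarith

/-- the real inequality behind the upper tail: for `0 < δ ≤ 1/2`, `δ = T/(2n)`,
`(1+δ)^{-T} (1-δ²)^{-n} ≤ exp(-T²/(24n))` -/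
theorem real_ineq_up {T n : ℕ} (h1 : 1 ≤ T) (h2 : T ≤ n) :
    (1 + (T : ℝ) / (2 * n))⁻¹ ^ T * (1 - ((T : ℝ) / (2 * n)) ^ 2)⁻¹ ^ n
      ≤ Real.exp (-(T : ℝ) ^ 2 / (24 * n)) := by
  obtain ⟨hd0, hd1⟩ := P2a_delta h1 h2
  have hT : (1 : ℝ) ≤ T := by exact_mod_cast h1
  have hn : (T : ℝ) ≤ n := by exact_mod_cast h2
  have hn0 : (0 : ℝ) < n := by linarith
  set d : ℝ := (T : ℝ) / (2 * n) with hd
  have e1 : (1 + d)⁻¹ ≤ Real.exp (-(d - d ^ 2 / 2)) := by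
    rw [Real.exp_neg]
    exact inv_anti₀ (Real.exp_pos _) (P2a_exp_le hd0.le)
  have e2 := P2a_inv_le hd0.le hd1
  have p1 : 0 ≤ (1 + d)⁻¹ := inv_nonneg.mpr (by linarith)
  have hq : 0 < 1 - d ^ 2 := by nlinarith
  have p2 : 0 ≤ (1 - d ^ 2)⁻¹ := inv_nonneg.mpr hq.le
  calc (1 + d)⁻¹ ^ T * (1 - d ^ 2)⁻¹ ^ n
      ≤ Real.exp (-(d - d ^ 2 / 2)) ^ T * Real.exp (4 / 3 * d ^ 2) ^ n :=
        mul_le_mul (pow_le_pow_left₀ p1 e1 T) (pow_le_pow_left₀ p2 e2 n)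
          (pow_nonneg p2 n) (by positivity)
    _ = Real.exp (T * (-(d - d ^ 2 / 2)) + n * (4 / 3 * d ^ 2)) := by
        rw [← Real.exp_nat_mul, ← Real.exp_nat_mul, ← Real.exp_add]
    _ ≤ Real.exp (-(T : ℝ) ^ 2 / (24 * n)) := by
        apply Real.exp_le_exp.mpr
        have e3 : (T : ℝ) * (-(d - d ^ 2 / 2)) + n * (4 / 3 * d ^ 2)
            = -(T : ℝ) ^ 2 / (2 * n) + (T : ℝ) ^ 3 / (8 * n ^ 2) + (T : ℝ) ^ 2 / (3 * n) := by
          rw [hd]; field_simp; ring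
        rw [e3]
        have e4 : (T : ℝ) ^ 3 / (8 * n ^ 2) ≤ (T : ℝ) ^ 2 / (8 * n) := by
          rw [div_le_div_iff₀ (by positivity) (by positivity)]
          have : (T : ℝ) ^ 2 * n * (8 * n) * T ≤ (T : ℝ) ^ 2 * n * (8 * n) * n :=
            mul_le_mul_of_nonneg_left hn (by positivity)
          nlinarith
        have e5 : -(T : ℝ) ^ 2 / (24 * n) = -(T : ℝ) ^ 2 / (2 * n) + (T : ℝ) ^ 2 / (8 * n)
            + (T : ℝ) ^ 2 / (3 * n) := by
          field_simp; ring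
        rw [e5]
        linarith

theorem real_ineq_down {T n : ℕ} (h1 : 1 ≤ T) (h2 : T ≤ n) :
    (1 - (T : ℝ) / (2 * n)) ^ T * (1 - ((T : ℝ) / (2 * n)) ^ 2)⁻¹ ^ n
      ≤ Real.exp (-(T : ℝ) ^ 2 / (24 * n)) := by
  obtain ⟨hd0, hd1⟩ := P2a_delta h1 h2
  have hT : (1 : ℝ) ≤ T := by exact_mod_cast h1
  have hn : (T : ℝ) ≤ n := by exact_mod_cast h2
  have hn0 : (0 : ℝ) < n := by linarith
  set d : ℝ := (T : ℝ) / (2 * n) with hd
  have e1 : 1 - d ≤ Real.exp (-d) := by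
    have := Real.add_one_le_exp (-d)
    linarith
  have e2 := P2a_inv_le hd0.le hd1
  have p1 : 0 ≤ 1 - d := by linarith
  have hq : 0 < 1 - d ^ 2 := by nlinarith
  have p2 : 0 ≤ (1 - d ^ 2)⁻¹ := inv_nonneg.mpr hq.le
  calc (1 - d) ^ T * (1 - d ^ 2)⁻¹ ^ n
      ≤ Real.exp (-d) ^ T * Real.exp (4 / 3 * d ^ 2) ^ n :=
        mul_le_mul (pow_le_pow_left₀ p1 e1 T) (pow_le_pow_left₀ p2 e2 n)
          (pow_nonneg p2 n) (by positivity)
    _ = Real.exp (T * (-d) + n * (4 / 3 * d ^ 2)) := by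
        rw [← Real.exp_nat_mul, ← Real.exp_nat_mul, ← Real.exp_add]
    _ ≤ Real.exp (-(T : ℝ) ^ 2 / (24 * n)) := by
        apply Real.exp_le_exp.mpr
        have e3 : (T : ℝ) * (-d) + n * (4 / 3 * d ^ 2)
            = -(T : ℝ) ^ 2 / (24 * n) - (T : ℝ) ^ 2 / (8 * n) := by
          rw [hd]; field_simp; ring
        rw [e3]
        have : 0 ≤ (T : ℝ) ^ 2 / (8 * n) := by positivity
        linarith

private theorem P2a_pow_le {d : ℝ} (h0 : 0 ≤ d) (h1 : d ≤ 1 / 2) {k n : ℕ} (hk : k ≤ n) :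
    (1 - d ^ 2)⁻¹ ^ k ≤ (1 - d ^ 2)⁻¹ ^ n := by
  have hq : 0 < 1 - d ^ 2 := by nlinarith
  apply pow_le_pow_right₀ _ hk
  rw [one_le_inv₀ hq]
  nlinarith [sq_nonneg d]

/-- (1.2) upper tail -/
theorem tail_up {T n k : ℕ} (h1 : 1 ≤ T) (h2 : T ≤ n) (hk : k ≤ n) (τ : ℕ) :
    ∑ t ∈ (Finset.range (τ + 1)).filter (fun t => 2 * k + T ≤ t), pw k t
      ≤ Real.exp (-(T : ℝ) ^ 2 / (24 * n)) := by
  obtain ⟨hd0, hd1⟩ := P2a_delta h1 h2
  have key := real_ineq_up h1 h2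
  set d : ℝ := (T : ℝ) / (2 * n) with hd
  have hz0 : 0 < 1 + d := by linarith
  have hz2 : 1 + d < 2 := by linarith
  have hq : 0 < 1 - d ^ 2 := by nlinarith
  calc ∑ t ∈ (Finset.range (τ + 1)).filter (fun t => 2 * k + T ≤ t), pw k t
      ≤ ∑ t ∈ (Finset.range (τ + 1)).filter (fun t => 2 * k + T ≤ t),
          (1 + d)⁻¹ ^ (2 * k + T) * (pw k t * (1 + d) ^ t) := by
        refine Finset.sum_le_sum fun t ht => ?_
        have ht' := (Finset.mem_filter.mp ht).2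
        have e1 : (1 + d)⁻¹ ^ (2 * k + T) * (1 + d) ^ t = (1 + d) ^ (t - (2 * k + T)) := by
          rw [inv_pow, pow_sub₀ _ hz0.ne' ht', mul_comm]
        have e2 : 1 ≤ (1 + d) ^ (t - (2 * k + T)) := one_le_pow₀ (by linarith)
        have e3 : (1 + d)⁻¹ ^ (2 * k + T) * (pw k t * (1 + d) ^ t)
            = pw k t * ((1 + d)⁻¹ ^ (2 * k + T) * (1 + d) ^ t) := by ring
        rw [e3, e1]
        exact le_mul_of_one_le_right (pw_nonneg k t) e2
    _ ≤ ∑ t ∈ Finset.range (τ + 1), (1 + d)⁻¹ ^ (2 * k + T) * (pw k t * (1 + d) ^ t) := by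
        apply Finset.sum_le_sum_of_subset_of_nonneg (Finset.filter_subset _ _)
        intro t _ _
        exact mul_nonneg (pow_nonneg (inv_nonneg.mpr hz0.le) _)
          (mul_nonneg (pw_nonneg k t) (pow_nonneg hz0.le _))
    _ = (1 + d)⁻¹ ^ (2 * k + T) * ∑ t ∈ Finset.range (τ + 1), pw k t * (1 + d) ^ t := by
        rw [Finset.mul_sum]
    _ ≤ (1 + d)⁻¹ ^ (2 * k + T) * ((1 + d) / (2 - (1 + d))) ^ k :=
        mul_le_mul_of_nonneg_left (sum_pw_mul_pow_le k τ hz0 hz2)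
          (pow_nonneg (inv_nonneg.mpr hz0.le) _)
    _ = (1 + d)⁻¹ ^ T * (1 - d ^ 2)⁻¹ ^ k := by
        have hm : 0 < 1 - d := by linarith
        have e : (1 + d)⁻¹ ^ 2 * ((1 + d) / (2 - (1 + d))) = (1 - d ^ 2)⁻¹ := by
          have e0 : 2 - (1 + d) = 1 - d := by ring
          have e0' : (1 - d ^ 2) = (1 + d) * (1 - d) := by ring
          rw [e0, e0']
          field_simp
        rw [pow_add, pow_mul, ← e, mul_pow]
        ring
    _ ≤ (1 + d)⁻¹ ^ T * (1 - d ^ 2)⁻¹ ^ n :=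
        mul_le_mul_of_nonneg_left (P2a_pow_le hd0.le hd1 hk)
          (pow_nonneg (inv_nonneg.mpr hz0.le) _)
    _ ≤ _ := key

/-- (1.2) lower tail -/
theorem tail_down {T n k : ℕ} (h1 : 1 ≤ T) (h2 : T ≤ n) (hk : k ≤ n) (τ : ℕ) :
    ∑ t ∈ (Finset.range (τ + 1)).filter (fun t => t + T ≤ 2 * k), pw k t
      ≤ Real.exp (-(T : ℝ) ^ 2 / (24 * n)) := by
  obtain ⟨hd0, hd1⟩ := P2a_delta h1 h2
  have key := real_ineq_down h1 h2
  set d : ℝ := (T : ℝ) / (2 * n) with hd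
  have hz0 : 0 < 1 - d := by linarith
  have hz2 : 1 - d < 2 := by linarith
  have hq : 0 < 1 - d ^ 2 := by nlinarith
  by_cases hTk : T ≤ 2 * k
  · calc ∑ t ∈ (Finset.range (τ + 1)).filter (fun t => t + T ≤ 2 * k), pw k t
        ≤ ∑ t ∈ (Finset.range (τ + 1)).filter (fun t => t + T ≤ 2 * k),
            (1 - d)⁻¹ ^ (2 * k - T) * (pw k t * (1 - d) ^ t) := by
          refine Finset.sum_le_sum fun t ht => ?_
          have ht' := (Finset.mem_filter.mp ht).2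
          have e1 : (1 - d)⁻¹ ^ (2 * k - T) * (1 - d) ^ t = (1 - d)⁻¹ ^ (2 * k - T - t) := by
            have e0 : (1 - d)⁻¹ ^ (2 * k - T)
                = (1 - d)⁻¹ ^ (2 * k - T - t) * (1 - d)⁻¹ ^ t := by
              rw [← pow_add]; congr 1; omega
            rw [e0, mul_assoc, ← mul_pow, inv_mul_cancel₀ hz0.ne', one_pow, mul_one]
          have e2 : 1 ≤ (1 - d)⁻¹ ^ (2 * k - T - t) :=
            one_le_pow₀ (by rw [one_le_inv₀ hz0]; linarith)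
          have e3 : (1 - d)⁻¹ ^ (2 * k - T) * (pw k t * (1 - d) ^ t)
              = pw k t * ((1 - d)⁻¹ ^ (2 * k - T) * (1 - d) ^ t) := by ring
          rw [e3, e1]
          exact le_mul_of_one_le_right (pw_nonneg k t) e2
      _ ≤ ∑ t ∈ Finset.range (τ + 1), (1 - d)⁻¹ ^ (2 * k - T) * (pw k t * (1 - d) ^ t) := by
          apply Finset.sum_le_sum_of_subset_of_nonneg (Finset.filter_subset _ _)
          intro t _ _
          exact mul_nonneg (pow_nonneg (inv_nonneg.mpr hz0.le) _)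
            (mul_nonneg (pw_nonneg k t) (pow_nonneg hz0.le _))
      _ = (1 - d)⁻¹ ^ (2 * k - T) * ∑ t ∈ Finset.range (τ + 1), pw k t * (1 - d) ^ t := by
          rw [Finset.mul_sum]
      _ ≤ (1 - d)⁻¹ ^ (2 * k - T) * ((1 - d) / (2 - (1 - d))) ^ k :=
          mul_le_mul_of_nonneg_left (sum_pw_mul_pow_le k τ hz0 hz2)
            (pow_nonneg (inv_nonneg.mpr hz0.le) _)
      _ = (1 - d) ^ T * (1 - d ^ 2)⁻¹ ^ k := by
          have hm : 0 < 1 + d := by linarith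
          have e : (1 - d)⁻¹ ^ 2 * ((1 - d) / (2 - (1 - d))) = (1 - d ^ 2)⁻¹ := by
            have e0 : 2 - (1 - d) = 1 + d := by ring
            have e0' : (1 - d ^ 2) = (1 + d) * (1 - d) := by ring
            rw [e0, e0']
            field_simp
          have e4 : (1 - d)⁻¹ ^ (2 * k - T) = (1 - d) ^ T * (1 - d)⁻¹ ^ (2 * k) := by
            have e0 : (1 - d)⁻¹ ^ (2 * k) = (1 - d)⁻¹ ^ T * (1 - d)⁻¹ ^ (2 * k - T) := by
              rw [← pow_add]; congr 1; omega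
            rw [e0, ← mul_assoc, ← mul_pow, mul_inv_cancel₀ hz0.ne', one_pow, one_mul]
          rw [e4, pow_mul, ← e, mul_pow]
          ring
      _ ≤ (1 - d) ^ T * (1 - d ^ 2)⁻¹ ^ n :=
          mul_le_mul_of_nonneg_left (P2a_pow_le hd0.le hd1 hk) (pow_nonneg hz0.le _)
      _ ≤ _ := key
  · have he : (Finset.range (τ + 1)).filter (fun t => t + T ≤ 2 * k) = ∅ := by
      apply Finset.filter_eq_empty_iff.mpr
      intro t _
      omega
    rw [he, Finset.sum_empty]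
    exact (Real.exp_pos _).le

/-- the form used for Terras' count: `U = 2k + T`, one more valuation exceeding the rest.
Proof: `2^{-(U-s)} ≤ z^{-(U-s)}` for `s ≤ U`, `z = 1 + T/(2n)`, then `sum_pw_mul_pow_le`. -/
theorem tail_up_terras {T n k : ℕ} (h1 : 1 ≤ T) (h2 : T ≤ n) (hk : k + 1 ≤ n) :
    ∑ s ∈ Finset.range (2 * (k + 1) + T + 1), pw k s / 2 ^ (2 * (k + 1) + T - s)
      ≤ Real.exp (-(T : ℝ) ^ 2 / (24 * n)) := by
  obtain ⟨hd0, hd1⟩ := P2a_delta h1 h2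
  have key := real_ineq_up h1 h2
  set d : ℝ := (T : ℝ) / (2 * n) with hd
  have hz0 : 0 < 1 + d := by linarith
  have hz2 : 1 + d < 2 := by linarith
  have hq : 0 < 1 - d ^ 2 := by nlinarith
  calc ∑ s ∈ Finset.range (2 * (k + 1) + T + 1), pw k s / 2 ^ (2 * (k + 1) + T - s)
      ≤ ∑ s ∈ Finset.range (2 * (k + 1) + T + 1),
          (1 + d)⁻¹ ^ (2 * (k + 1) + T) * (pw k s * (1 + d) ^ s) := by
        refine Finset.sum_le_sum fun s hs => ?_
        have hs' : s ≤ 2 * (k + 1) + T := by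
          have := Finset.mem_range.mp hs
          omega
        have e1 : (1 + d)⁻¹ ^ (2 * (k + 1) + T) * (1 + d) ^ s
            = (1 + d)⁻¹ ^ (2 * (k + 1) + T - s) := by
          have e0 : (1 + d)⁻¹ ^ (2 * (k + 1) + T)
              = (1 + d)⁻¹ ^ (2 * (k + 1) + T - s) * (1 + d)⁻¹ ^ s := by
            rw [← pow_add]; congr 1; omega
          rw [e0, mul_assoc, ← mul_pow, inv_mul_cancel₀ hz0.ne', one_pow, mul_one]
        have e2 : (2⁻¹ : ℝ) ^ (2 * (k + 1) + T - s) ≤ (1 + d)⁻¹ ^ (2 * (k + 1) + T - s) :=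
          pow_le_pow_left₀ (by norm_num) (inv_anti₀ hz0 hz2.le) _
        have e3 : (1 + d)⁻¹ ^ (2 * (k + 1) + T) * (pw k s * (1 + d) ^ s)
            = pw k s * ((1 + d)⁻¹ ^ (2 * (k + 1) + T) * (1 + d) ^ s) := by ring
        rw [e3, e1, div_eq_mul_inv, ← inv_pow]
        exact mul_le_mul_of_nonneg_left e2 (pw_nonneg k s)
    _ = (1 + d)⁻¹ ^ (2 * (k + 1) + T) *
          ∑ s ∈ Finset.range (2 * (k + 1) + T + 1), pw k s * (1 + d) ^ s := by
        rw [Finset.mul_sum]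
    _ ≤ (1 + d)⁻¹ ^ (2 * (k + 1) + T) * ((1 + d) / (2 - (1 + d))) ^ k :=
        mul_le_mul_of_nonneg_left (sum_pw_mul_pow_le k _ hz0 hz2)
          (pow_nonneg (inv_nonneg.mpr hz0.le) _)
    _ = (1 + d)⁻¹ ^ 2 * ((1 + d)⁻¹ ^ T * (1 - d ^ 2)⁻¹ ^ k) := by
        have hm : 0 < 1 - d := by linarith
        have e : (1 + d)⁻¹ ^ 2 * ((1 + d) / (2 - (1 + d))) = (1 - d ^ 2)⁻¹ := by
          have e0 : 2 - (1 + d) = 1 - d := by ring
          have e0' : (1 - d ^ 2) = (1 + d) * (1 - d) := by ring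
          rw [e0, e0']
          field_simp
        have e5 : 2 * (k + 1) + T = 2 * k + (2 + T) := by ring
        rw [e5, pow_add, pow_add, pow_mul, ← e, mul_pow]
        ring
    _ ≤ 1 * ((1 + d)⁻¹ ^ T * (1 - d ^ 2)⁻¹ ^ n) := by
        have hi0 : 0 ≤ (1 + d)⁻¹ := inv_nonneg.mpr hz0.le
        have hi1 : (1 + d)⁻¹ ≤ 1 := inv_le_one_of_one_le₀ (by linarith)
        apply mul_le_mul (pow_le_one₀ hi0 hi1) _ _ zero_le_one
        · exact mul_le_mul_of_nonneg_left (P2a_pow_le hd0.le hd1 (by omega))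
            (pow_nonneg hi0 _)
        · exact mul_nonneg (pow_nonneg hi0 _) (pow_nonneg (inv_nonneg.mpr hq.le) _)
    _ ≤ _ := by rw [one_mul]; exact key

/-- a single value far from the mean -/
theorem pw_far {T n k t : ℕ} (h1 : 1 ≤ T) (h2 : T ≤ n) (hk : k ≤ n)
    (ht : 2 * k + T ≤ t ∨ t + T ≤ 2 * k) : pw k t ≤ Real.exp (-(T : ℝ) ^ 2 / (24 * n)) := by
  rcases ht with ht | ht
  · refine le_trans ?_ (tail_up h1 h2 hk t)
    exact Finset.single_le_sum (f := fun s => pw k s) (fun s _ => pw_nonneg k s)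
      (Finset.mem_filter.mpr ⟨Finset.mem_range.mpr (by omega), ht⟩)
  · refine le_trans ?_ (tail_down h1 h2 hk t)
    exact Finset.single_le_sum (f := fun s => pw k s) (fun s _ => pw_nonneg k s)
      (Finset.mem_filter.mpr ⟨Finset.mem_range.mpr (by omega), ht⟩)

end Pool.Agent.W_e21d3a_h93
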