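import Pool.Agent.W_e21d3a_h93.Q1a
import Pool.Agent.W_e21d3a_h93.B2

set_option autoImplicit false

/-!
# [NC] Q2a: sizes of typical trajectories (row 497, (3.1))
-/

namespace Pool.Agent.W_e21d3a_h93

/-- the first passage time is unique -/
theorem Passes.unique {x N n n' : ℕ} (h : Passes x N n) (h' : Passes x N n') : n = n' := by
  rcases lt_trichotomy n n' with h1 | h1 | h1
  · have h2 := h'.1 n h1
    have h3 := h.2
    omega
  · exact h1
  · have h2 := h.1 n' h1
    have h3 := h'.2
    omega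

/-- as long as the trajectory stays above `x`: `log N_k = log N - k Λ - (s_k - 2k) log 2 + [0, 1/100]` -/
theorem log_iter_typ : ∃ x0 : ℕ, ∀ x ≥ x0, ∀ N k : ℕ, N % 2 = 1 → k ≤ n1 x →
    (∀ i < k, x < syr^[i] N) →
    Real.log N - k * Lam - ((ss k N : ℝ) - 2 * k) * Real.log 2 ≤ Real.log (syr^[k] N : ℕ) ∧
    Real.log (syr^[k] N : ℕ) ≤
      Real.log N - k * Lam - ((ss k N : ℝ) - 2 * k) * Real.log 2 + 1 / 100 := by
  refine ⟨400, ?_⟩
  intro x hx N k hN hk hi
  have hx' : (400 : ℝ) ≤ (x : ℝ) := by exact_mod_cast hx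
  have hx0 : (0 : ℝ) < (x : ℝ) := by linarith
  have h := log_iter (N := N) (n := k) (X0 := (x : ℝ)) hN hx0
    (fun i hik => by exact_mod_cast (hi i hik).le)
  have hL : Lam = 2 * Real.log 2 - Real.log 3 := by
    unfold Lam
    rw [Real.log_div (by norm_num) (by norm_num), show (4 : ℝ) = 2 ^ 2 by norm_num, Real.log_pow]
    push_cast
    ring
  have hk1 : (k : ℝ) ≤ lx x / 5 := by
    have h1 : (k : ℝ) ≤ (n1 x : ℝ) := by exact_mod_cast hk
    have h2 : (n1 x : ℝ) ≤ lx x / 5 := by
      unfold n1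
      apply Nat.floor_le
      unfold lx
      apply div_nonneg (Real.log_nonneg (by linarith)) (by norm_num)
    linarith
  have hlog : lx x ≤ 2 * Real.sqrt x := by
    unfold lx
    have h1 : Real.log x = 2 * Real.log (Real.sqrt x) := by
      rw [Real.log_sqrt hx0.le]; ring
    rw [h1]
    have h2 := Real.log_le_sub_one_of_pos (Real.sqrt_pos.mpr hx0)
    linarith
  have hs20 : (20 : ℝ) ≤ Real.sqrt x := by
    apply Real.le_sqrt_of_sq_le
    linarith
  have hsx : Real.sqrt x * Real.sqrt x = x := Real.mul_self_sqrt hx0.le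
  have hdiv : (k : ℝ) / (3 * x) ≤ 1 / 100 := by
    rw [div_le_div_iff₀ (by positivity) (by norm_num)]
    nlinarith
  rw [hL]
  constructor
  · have := h.1
    nlinarith
  · have := h.2
    nlinarith

end Pool.Agent.W_e21d3a_h93
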