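import Pool.Agent.W_e21d3a_h93.P1

set_option autoImplicit false

/-!
# [NC] R1a: renewal function, exact ratios (row 501, 7.1)
-/

namespace Pool.Agent.W_e21d3a_h93

/-- `t_k(Z) = ⌊kθ + Z⌋ + 1` -/
noncomputable def tk (k : ℕ) (Z : ℝ) : ℤ := ⌊(k : ℝ) * th + Z⌋ + 1

/-- `v_k(Z) = t_k(Z) - kθ - Z ∈ (0,1]` -/
noncomputable def vk (k : ℕ) (Z : ℝ) : ℝ := (tk k Z : ℝ) - k * th - Z

/-- `R₁` (`b = false`) and `R₂` (`b = true`) -/
noncomputable def Rf (b : Bool) (K : ℕ) (Z : ℝ) : ℝ :=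
  ∑ k ∈ Finset.Icc 1 K, (if b then (2 : ℝ) ^ (vk k Z) else 1) * pw k (tk k Z).toNat

theorem vk_mem (k : ℕ) (Z : ℝ) : 0 < vk k Z ∧ vk k Z ≤ 1 := by
  have h1 := Int.lt_floor_add_one ((k : ℝ) * th + Z)
  have h2 := Int.floor_le ((k : ℝ) * th + Z)
  unfold vk tk
  push_cast
  constructor <;> linarith

theorem Rf_nonneg (b : Bool) (K : ℕ) (Z : ℝ) : 0 ≤ Rf b K Z := by
  unfold Rf
  refine Finset.sum_nonneg fun k _ => mul_nonneg ?_ (pw_nonneg _ _)
  split_ifs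
  · positivity
  · exact zero_le_one

theorem Rf_le (b : Bool) (K : ℕ) (Z : ℝ) : Rf b K Z ≤ 2 * K := by
  unfold Rf
  have h : ∀ k ∈ Finset.Icc 1 K,
      (if b then (2 : ℝ) ^ (vk k Z) else 1) * pw k (tk k Z).toNat ≤ 2 := by
    intro k _
    have h1 : (if b then (2 : ℝ) ^ (vk k Z) else 1) ≤ 2 := by
      split_ifs
      · have := Real.rpow_le_rpow_of_exponent_le (x := 2) (by norm_num) (vk_mem k Z).2
        rwa [Real.rpow_one] at this
      · norm_num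
    have h2 := pw_le_one k (tk k Z).toNat
    have h3 := pw_nonneg k (tk k Z).toNat
    nlinarith
  calc _ ≤ ∑ k ∈ Finset.Icc 1 K, (2 : ℝ) := Finset.sum_le_sum h
    _ = 2 * K := by
      rw [Finset.sum_const, Nat.card_Icc, nsmul_eq_mul]
      push_cast [Nat.add_sub_cancel]
      ring

private theorem r1a_chA (n k : ℕ) : ((n + 1).choose (k + 1) : ℝ) * (k + 1) = (n + 1) * (n.choose k : ℝ) := by
  have := Nat.add_one_mul_choose_eq n k
  have h : (((n + 1).choose (k + 1) * (k + 1) : ℕ) : ℝ) = (((n + 1) * n.choose k : ℕ) : ℝ) := by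
    rw [← this]
  push_cast at h
  linarith

private theorem r1a_chB (k j : ℕ) : ((k + j + 1).choose k : ℝ) * (j + 1) =
    ((k + j).choose k : ℝ) * (k + j + 1) := by
  have := Nat.choose_mul_succ_eq (k + j) k
  have e : k + j + 1 - k = j + 1 := by omega
  rw [e] at this
  have h : (((k + j + 1).choose k * (j + 1) : ℕ) : ℝ) =
      (((k + j).choose k * (k + j + 1) : ℕ) : ℝ) := by rw [this]
  push_cast at h
  linarith

private theorem r1a_pw_eq (k j : ℕ) : pw (k + 1) (k + 1 + j) = ((k + j).choose k : ℝ) / 2 ^ (k + 1 + j) := by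
  unfold pw
  rw [card_comps (by omega) (by omega)]
  have e : k + 1 + j - 1 = k + j := by omega
  rw [e, Nat.add_sub_cancel]

/-- `pw (k+1) (t+2) / pw k t = t(t+1)/(4k(t+1-k))` -/
theorem pw_ratio2 {k t : ℕ} (hk : 1 ≤ k) (ht : k ≤ t) :
    pw (k + 1) (t + 2) * (4 * k * ((t : ℝ) + 1 - k)) = pw k t * (t * (t + 1)) := by
  obtain ⟨j, rfl⟩ := Nat.exists_eq_add_of_le ht
  obtain ⟨k, rfl⟩ := Nat.exists_eq_add_of_le' hk
  have e1 : k + 1 + j + 2 = (k + 1) + 1 + (j + 1) := by ring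
  rw [e1, r1a_pw_eq, r1a_pw_eq]
  have a := r1a_chA (k + j + 1) k
  have b := r1a_chB k j
  have e2 : k + 1 + (j + 1) = k + j + 1 + 1 := by ring
  have e3 : (2 : ℝ) ^ (k + 1 + 1 + (j + 1)) = 4 * 2 ^ (k + 1 + j) := by
    rw [show k + 1 + 1 + (j + 1) = (k + 1 + j) + 2 by ring, pow_add]; norm_num; ring
  rw [e2, e3]
  have hp : (0 : ℝ) < 2 ^ (k + 1 + j) := by positivity
  rw [div_mul_eq_mul_div, div_mul_eq_mul_div, div_eq_div_iff (by positivity) (by positivity)]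
  push_cast at a b ⊢
  have key : ((k + j + 1 + 1).choose (k + 1) : ℝ) * (4 * (k + 1) * ((k : ℝ) + 1 + j + 1 - (k + 1)))
      = 4 * (((k + j).choose k : ℝ) * ((k + 1 + j) * (k + 1 + j + 1))) := by
    have : ((k + j + 1 + 1).choose (k + 1) : ℝ) * (4 * (k + 1) * ((k : ℝ) + 1 + j + 1 - (k + 1)))
      = 4 * ((j : ℝ) + 1) * (((k + j + 1 + 1).choose (k + 1) : ℝ) * (k + 1)) := by ring
    rw [this, a]
    have : 4 * ((j : ℝ) + 1) * ((k + j + 1 + 1) * ((k + j + 1).choose k : ℝ)) =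
      4 * (k + j + 1 + 1) * (((k + j + 1).choose k : ℝ) * (j + 1)) := by ring
    rw [this, b]
    ring
  rw [key]
  ring

/-- `pw k (t+1) / pw k t = t/(2(t-k+1))` -/
theorem pw_ratio1 {k t : ℕ} (hk : 1 ≤ k) (ht : k ≤ t) :
    pw k (t + 1) * (2 * ((t : ℝ) - k + 1)) = pw k t * t := by
  obtain ⟨j, rfl⟩ := Nat.exists_eq_add_of_le ht
  obtain ⟨k, rfl⟩ := Nat.exists_eq_add_of_le' hk
  have e1 : k + 1 + j + 1 = (k + 1) + (j + 1) := by ring
  rw [e1, r1a_pw_eq, r1a_pw_eq]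
  have b := r1a_chB k j
  have e2 : k + (j + 1) = k + j + 1 := by ring
  have e3 : (2 : ℝ) ^ (k + 1 + (j + 1)) = 2 * 2 ^ (k + 1 + j) := by
    rw [show k + 1 + (j + 1) = (k + 1 + j) + 1 by ring, pow_succ]; ring
  rw [e2, e3]
  have hp : (0 : ℝ) < 2 ^ (k + 1 + j) := by positivity
  rw [div_mul_eq_mul_div, div_mul_eq_mul_div, div_eq_div_iff (by positivity) (by positivity)]
  push_cast at b ⊢
  have : ((k + j + 1).choose k : ℝ) * (2 * ((k : ℝ) + 1 + j - (k + 1) + 1)) =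
      2 * (((k + j + 1).choose k : ℝ) * (j + 1)) := by ring
  rw [this, b]
  ring

/-- `pw (k+1) (t+1) / pw k t = t/(2k)` -/
theorem pw_ratio11 {k t : ℕ} (hk : 1 ≤ k) (ht : k ≤ t) :
    pw (k + 1) (t + 1) * (2 * k) = pw k t * t := by
  obtain ⟨j, rfl⟩ := Nat.exists_eq_add_of_le ht
  obtain ⟨k, rfl⟩ := Nat.exists_eq_add_of_le' hk
  have e1 : k + 1 + j + 1 = (k + 1) + 1 + j := by ring
  rw [e1, r1a_pw_eq, r1a_pw_eq]
  have a := r1a_chA (k + j) k
  have e2 : k + 1 + j = k + j + 1 := by ring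
  have e3 : (2 : ℝ) ^ (k + 1 + 1 + j) = 2 * 2 ^ (k + j + 1) := by
    rw [show k + 1 + 1 + j = (k + j + 1) + 1 by ring, pow_succ]; ring
  rw [e3, e2]
  have hp : (0 : ℝ) < 2 ^ (k + j + 1) := by positivity
  rw [div_mul_eq_mul_div, div_mul_eq_mul_div, div_eq_div_iff (by positivity) (by positivity)]
  push_cast at a ⊢
  have : ((k + j + 1).choose (k + 1) : ℝ) * (2 * ((k : ℝ) + 1)) =
      2 * (((k + j + 1).choose (k + 1) : ℝ) * (k + 1)) := by ring
  rw [this, a]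
  ring

end Pool.Agent.W_e21d3a_h93
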