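import Pool.Agent.W_e21d3a_h93.R1a
import Pool.Agent.W_e21d3a_h93.P2a
import Pool.Agent.W_e21d3a_h93.Q1a

set_option autoImplicit false

/-!
# [NC] R1b: ratios close to 1, non central terms (row 501, 7.1)
-/

namespace Pool.Agent.W_e21d3a_h93

/-- algebra behind the three ratios: with `u = t - 2k`, `|u| ≤ D ≤ k/2`, `1 ≤ D`, `4 ≤ k` -/
private theorem ratio_alg {k t : ℕ} {D : ℝ} (hk : 4 ≤ k) (hD1 : 1 ≤ D) (hD : D ≤ k / 2)
    (hu : |(t : ℝ) - 2 * k| ≤ D) :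
    |pw (k + 1) (t + 2) - pw k t| ≤ (D ^ 2 / k ^ 2 + 1 / k) * 2 * pw k t ∧
    |pw k (t + 1) - pw k t| ≤ (3 * D / k) * pw k t ∧
    |pw (k + 1) (t + 1) - pw k t| ≤ (3 * D / k) * pw k t := by
  have hk0 : (4 : ℝ) ≤ k := by exact_mod_cast hk
  have hkpos : (0 : ℝ) < k := by linarith
  have hp := pw_nonneg k t
  rw [abs_le] at hu
  have hkt : k ≤ t := by
    have : (k : ℝ) ≤ t := by linarith [hu.1]
    exact_mod_cast this
  have hk1 : 1 ≤ k := by omega
  set u : ℝ := (t : ℝ) - 2 * k with hudef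
  have ht : (t : ℝ) = 2 * k + u := by rw [hudef]; ring
  have hu1 : -D ≤ u := hu.1
  have hu2 : u ≤ D := hu.2
  have hden : (k : ℝ) / 2 ≤ (t : ℝ) - k := by rw [ht]; linarith
  refine ⟨?_, ?_, ?_⟩
  · have h := pw_ratio2 hk1 hkt
    have hd : 0 < 4 * (k : ℝ) * ((t : ℝ) + 1 - k) := by
      have : 0 < (t : ℝ) + 1 - k := by linarith
      positivity
    have h1 : (pw (k + 1) (t + 2) - pw k t) * (4 * k * ((t : ℝ) + 1 - k)) =
        pw k t * (u ^ 2 + u - 2 * k) := by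
      have : pw k t * (4 * k * ((t : ℝ) + 1 - k)) = pw k t * (4 * k * (k + u + 1)) := by
        rw [ht]; ring
      rw [sub_mul, h, this, ht]; ring
    have h2 : |pw (k + 1) (t + 2) - pw k t| * (4 * k * ((t : ℝ) + 1 - k)) ≤
        pw k t * (2 * D ^ 2 + 2 * k) := by
      rw [← abs_of_pos hd, ← abs_mul, h1, abs_mul, abs_of_nonneg hp]
      refine mul_le_mul_of_nonneg_left ?_ hp
      rw [abs_le]
      constructor <;> nlinarith
    have h3 : (2 : ℝ) * k ^ 2 ≤ 4 * k * ((t : ℝ) + 1 - k) := by nlinarith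
    have h4 : |pw (k + 1) (t + 2) - pw k t| * (2 * (k : ℝ) ^ 2) ≤
        pw k t * (2 * D ^ 2 + 2 * k) :=
      (mul_le_mul_of_nonneg_left h3 (abs_nonneg _)).trans h2
    have h5 : |pw (k + 1) (t + 2) - pw k t| ≤ pw k t * (2 * D ^ 2 + 2 * k) / (2 * (k : ℝ) ^ 2) := by
      rw [le_div_iff₀ (by positivity)]; exact h4
    refine h5.trans ?_
    have h6 : pw k t * (2 * D ^ 2 + 2 * k) / (2 * (k : ℝ) ^ 2) =
        (D ^ 2 / k ^ 2 + 1 / k) * pw k t := by
      field_simp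
    rw [h6]
    have h7 : 0 ≤ (D ^ 2 / (k : ℝ) ^ 2 + 1 / k) * pw k t := by positivity
    linarith
  · have h := pw_ratio1 hk1 hkt
    have hd : 0 < 2 * ((t : ℝ) - k + 1) := by linarith
    have h1 : (pw k (t + 1) - pw k t) * (2 * ((t : ℝ) - k + 1)) = pw k t * (-(u + 2)) := by
      have : pw k t * (2 * ((t : ℝ) - k + 1)) = pw k t * (2 * (k + u + 1)) := by
        rw [ht]; ring
      rw [sub_mul, h, this, ht]; ring
    have h2 : |pw k (t + 1) - pw k t| * (2 * ((t : ℝ) - k + 1)) ≤ pw k t * (3 * D) := by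
      rw [← abs_of_pos hd, ← abs_mul, h1, abs_mul, abs_of_nonneg hp]
      refine mul_le_mul_of_nonneg_left ?_ hp
      rw [abs_le]
      constructor <;> linarith
    have h3 : (k : ℝ) ≤ 2 * ((t : ℝ) - k + 1) := by linarith
    have h4 : |pw k (t + 1) - pw k t| * k ≤ pw k t * (3 * D) :=
      (mul_le_mul_of_nonneg_left h3 (abs_nonneg _)).trans h2
    have h5 : |pw k (t + 1) - pw k t| ≤ pw k t * (3 * D) / k := by
      rw [le_div_iff₀ hkpos]; exact h4
    refine h5.trans (le_of_eq ?_)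
    ring
  · have h := pw_ratio11 hk1 hkt
    have hd : 0 < 2 * (k : ℝ) := by linarith
    have h1 : (pw (k + 1) (t + 1) - pw k t) * (2 * (k : ℝ)) = pw k t * u := by
      rw [sub_mul, h, ht]; ring
    have h2 : |pw (k + 1) (t + 1) - pw k t| * (2 * (k : ℝ)) ≤ pw k t * (3 * D) := by
      rw [← abs_of_pos hd, ← abs_mul, h1, abs_mul, abs_of_nonneg hp]
      refine mul_le_mul_of_nonneg_left ?_ hp
      rw [abs_le]
      constructor <;> linarith
    have h4 : |pw (k + 1) (t + 1) - pw k t| * k ≤ pw k t * (3 * D) := by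
      refine le_trans ?_ h2
      exact mul_le_mul_of_nonneg_left (by linarith) (abs_nonneg _)
    have h5 : |pw (k + 1) (t + 1) - pw k t| ≤ pw k t * (3 * D) / k := by
      rw [le_div_iff₀ hkpos]; exact h4
    refine h5.trans (le_of_eq ?_)
    ring

/-- for `x` large and `k` in `[l/50, l/5]`, `|t - 2k| ≤ 31T`: the ratios are close to 1 -/
theorem ratios_near : ∃ C : ℝ, ∃ x0 : ℕ, ∀ x ≥ x0, ∀ k t : ℕ, lx x / 50 ≤ k → (k : ℝ) ≤ lx x / 5 →
    |(t : ℝ) - 2 * k| ≤ 31 * TT x →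
    |pw (k + 1) (t + 2) - pw k t| ≤ C * (lx x) ^ (-(4 : ℝ) / 5) * pw k t ∧
    |pw k (t + 1) - pw k t| ≤ C * (lx x) ^ (-(2 : ℝ) / 5) * pw k t ∧
    |pw (k + 1) (t + 1) - pw k t| ≤ C * (lx x) ^ (-(2 : ℝ) / 5) * pw k t := by
  obtain ⟨x0, hx0⟩ := params
  refine ⟨20000000, x0, fun x hx k t hk1 hk2 hu => ?_⟩
  obtain ⟨hl, hT1, hT2, hT3, hT4, -⟩ := hx0 x hx
  set l := lx x with hldef
  set T : ℝ := (TT x : ℝ) with hTdef
  have hT4' : (1 : ℝ) ≤ T := by rw [hTdef]; exact_mod_cast hT4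
  have hlpos : 0 < l := by linarith
  have hkpos : (0 : ℝ) < k := by linarith [hk1, (by positivity : (0 : ℝ) < l / 50)]
  have hk4 : 4 ≤ k := by
    have : (4 : ℝ) ≤ k := by linarith
    exact_mod_cast this
  have hT5 : T ≤ 2 * l ^ ((3 : ℝ) / 5) := by
    have h1 : 1 ≤ l ^ ((3 : ℝ) / 5) := Real.one_le_rpow (by linarith) (by norm_num)
    linarith
  have hDk : 31 * T ≤ k / 2 := by linarith
  obtain ⟨r1, r2, r3⟩ := ratio_alg (D := 31 * T) hk4 (by linarith) hDk hu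
  have hp := pw_nonneg k t
  have e1 : l ^ ((3 : ℝ) / 5) / l = l ^ (-(2 : ℝ) / 5) := by
    rw [← Real.rpow_sub_one hlpos.ne']; norm_num
  have e2 : (l ^ ((3 : ℝ) / 5)) ^ 2 / l ^ 2 = l ^ (-(4 : ℝ) / 5) := by
    rw [← div_pow, e1, ← Real.rpow_natCast, ← Real.rpow_mul hlpos.le]; norm_num
  have e3 : 1 / l ≤ l ^ (-(4 : ℝ) / 5) := by
    rw [one_div, ← Real.rpow_neg_one]
    exact Real.rpow_le_rpow_of_exponent_le (by linarith) (by norm_num)
  -- bounds of the coefficients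
  have hTk : T / k ≤ 50 * (T / l) := by
    rw [div_le_iff₀ hkpos]
    have h1 : T = 50 * (T / l) * (l / 50) := by field_simp
    calc T = 50 * (T / l) * (l / 50) := h1
      _ ≤ 50 * (T / l) * k := by gcongr
  have hTl : T / l ≤ 2 * l ^ (-(2 : ℝ) / 5) := by
    rw [← e1]
    calc T / l ≤ (2 * l ^ ((3 : ℝ) / 5)) / l := by gcongr
      _ = _ := by ring
  have hTl0 : 0 ≤ T / l := by positivity
  have hTk0 : 0 ≤ T / (k : ℝ) := by positivity
  have h1k : 1 / (k : ℝ) ≤ 50 * (1 / l) := by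
    rw [div_le_iff₀ hkpos]
    have h1 : (1 : ℝ) = 50 * (1 / l) * (l / 50) := by field_simp
    calc (1 : ℝ) = 50 * (1 / l) * (l / 50) := h1
      _ ≤ 50 * (1 / l) * k := by gcongr
  have c2 : 3 * (31 * T) / k ≤ 20000000 * l ^ (-(2 : ℝ) / 5) := by
    have h1 : 3 * (31 * T) / (k : ℝ) = 93 * (T / k) := by ring
    rw [h1]
    have h2 : 0 ≤ l ^ (-(2 : ℝ) / 5) := by positivity
    nlinarith
  have c1 : ((31 * T) ^ 2 / (k : ℝ) ^ 2 + 1 / k) * 2 ≤ 20000000 * l ^ (-(4 : ℝ) / 5) := by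
    have h1 : (31 * T) ^ 2 / (k : ℝ) ^ 2 = 961 * (T / k) ^ 2 := by ring
    have h2 : (T / k) ^ 2 ≤ (100 * l ^ (-(2 : ℝ) / 5)) ^ 2 := by
      have : T / k ≤ 100 * l ^ (-(2 : ℝ) / 5) := by linarith
      gcongr
    have h3 : (100 * l ^ (-(2 : ℝ) / 5)) ^ 2 = 10000 * l ^ (-(4 : ℝ) / 5) := by
      rw [mul_pow, ← Real.rpow_natCast (l ^ (-(2 : ℝ) / 5)), ← Real.rpow_mul hlpos.le]
      norm_num
    rw [h1]
    have h4 : 0 ≤ l ^ (-(4 : ℝ) / 5) := by positivity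
    linarith
  refine ⟨r1.trans ?_, r2.trans ?_, r3.trans ?_⟩
  · exact mul_le_mul_of_nonneg_right c1 hp
  · exact mul_le_mul_of_nonneg_right c2 hp
  · exact mul_le_mul_of_nonneg_right c2 hp

/-- non central terms are negligible -/
theorem noncentral : ∃ x0 : ℕ, ∀ x ≥ x0, ∀ Z : ℝ, ∀ k : ℕ, 1 ≤ k → k ≤ n1 x →
    30 * (TT x : ℝ) < |(tk k Z : ℝ) - 2 * k| → pw k (tk k Z).toNat ≤ 1 / (lx x) ^ 5 := by
  obtain ⟨x1, hx1⟩ := params
  obtain ⟨x2, hx2⟩ := exp_small 5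
  refine ⟨max x1 x2, fun x hx Z k hk1 hk2 hfar => ?_⟩
  obtain ⟨hl, hT1, hT2, hT3, hT4, hm1, hm2, hn1, hn2, hmn, hTm⟩ := hx1 x (le_trans (le_max_left _ _) hx)
  have hexp := hx2 x (le_trans (le_max_right _ _) hx) (n1 x) (by omega) le_rfl
  have hlpos : 0 < lx x := by linarith
  rcases lt_or_ge (tk k Z) 0 with hneg | hpos
  · have h1 : (tk k Z).toNat = 0 := by omega
    have h2 : pw k 0 = 0 := by
      unfold pw
      rw [comps_eq_empty (by omega)]
      simp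
    rw [h1, h2]
    positivity
  · have hcast : (((tk k Z).toNat : ℕ) : ℝ) = (tk k Z : ℝ) := by
      have : (((tk k Z).toNat : ℕ) : ℤ) = tk k Z := Int.toNat_of_nonneg hpos
      exact_mod_cast this
    rw [← hcast] at hfar
    set t := (tk k Z).toNat with ht
    have hcase : 2 * k + 30 * TT x ≤ t ∨ t + 30 * TT x ≤ 2 * k := by
      rcases lt_abs.1 hfar with h | h
      · left
        have : (2 * k + 30 * TT x : ℝ) ≤ t := by linarith
        exact_mod_cast this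
      · right
        have : (t + 30 * TT x : ℝ) ≤ 2 * k := by linarith
        exact_mod_cast this
    have h3 := pw_far (T := 30 * TT x) (n := n1 x) (k := k) (t := t) (by omega) (by omega) hk2 hcase
    refine h3.trans (le_trans ?_ hexp)
    apply Real.exp_le_exp.2
    push_cast
    have hn : (0 : ℝ) < n1 x := by
      have : 0 < n1 x := by omega
      exact_mod_cast this
    rw [div_le_div_iff_of_pos_right (by positivity)]
    have hT0 : (0 : ℝ) ≤ (TT x : ℝ) := by positivity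
    nlinarith

end Pool.Agent.W_e21d3a_h93
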