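import Pool.Agent.W_e21d3a_h93.R1a

set_option autoImplicit false

/-!
# [NC] R2a: equidistribution (row 501, 7.3)
-/

namespace Pool.Agent.W_e21d3a_h93

theorem irrational_th : Irrational th := by
  rintro ⟨x, hx⟩
  have hpos : 0 < th := Real.logb_pos (by norm_num) (by norm_num)
  have hx0 : 0 < x := by
    have : (0 : ℝ) < (x : ℝ) := by rw [hx]; exact hpos
    exact_mod_cast this
  have hden : (x.den : ℝ) ≠ 0 := by exact_mod_cast x.den_nz
  have hnum : (0 : ℤ) < x.num := Rat.num_pos.2 hx0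
  have h1 : (x : ℝ) * x.den = x.num := by
    have := Rat.mul_den_eq_num x
    exact_mod_cast this
  have h2 : (3 : ℝ) ^ x.den = (2 : ℝ) ^ x.num.toNat := by
    have h3 : (2 : ℝ) ^ th = 3 := Real.rpow_logb (by norm_num) (by norm_num) (by norm_num)
    calc (3 : ℝ) ^ x.den = ((2 : ℝ) ^ th) ^ x.den := by rw [h3]
      _ = (2 : ℝ) ^ (th * x.den) := by rw [← Real.rpow_natCast, ← Real.rpow_mul (by norm_num)]
      _ = (2 : ℝ) ^ ((x.num.toNat : ℕ) : ℝ) := by
        rw [← hx, h1]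
        congr 1
        have : ((x.num.toNat : ℤ)) = x.num := Int.toNat_of_nonneg hnum.le
        exact_mod_cast this.symm
      _ = (2 : ℝ) ^ x.num.toNat := Real.rpow_natCast _ _
  have h4 : (3 : ℕ) ^ x.den = 2 ^ x.num.toNat := by exact_mod_cast h2
  have h5 : (3 ^ x.den) % 2 = 1 := by
    rw [Nat.pow_mod]; norm_num
  rw [h4] at h5
  have h6 : x.num.toNat ≠ 0 := by omega
  obtain ⟨n, hn⟩ := Nat.exists_eq_succ_of_ne_zero h6
  rw [hn, pow_succ] at h5
  omega

/-- `hh(w) = 2^{⌊w⌋+1-w}` -/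
noncomputable def hh (w : ℝ) : ℝ := (2 : ℝ) ^ ((⌊w⌋ : ℝ) + 1 - w)

private theorem hh_add_int (w : ℝ) (n : ℤ) : hh (w + n) = hh w := by
  unfold hh
  rw [Int.floor_add_intCast]
  congr 1
  push_cast
  ring

theorem hh_mem (w : ℝ) : 1 ≤ hh w ∧ hh w ≤ 2 := by
  unfold hh
  constructor
  · exact Real.one_le_rpow (by norm_num) (by linarith [Int.lt_floor_add_one w])
  · calc (2 : ℝ) ^ ((⌊w⌋ : ℝ) + 1 - w) ≤ (2 : ℝ) ^ (1 : ℝ) :=
        Real.rpow_le_rpow_of_exponent_le (by norm_num) (by linarith [Int.floor_le w])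
      _ = 2 := Real.rpow_one 2

/-- `2^{1-x}` is Lipschitz with constant `2` on `[0, ∞)` -/
private theorem two_rpow_lip {a b : ℝ} (h0 : 0 ≤ a) (h : a ≤ b) :
    (2 : ℝ) ^ (1 - a) - (2 : ℝ) ^ (1 - b) ≤ 2 * (b - a) := by
  have h1 : (2 : ℝ) ^ (1 - b) = (2 : ℝ) ^ (1 - a) * (2 : ℝ) ^ (-(b - a)) := by
    rw [← Real.rpow_add (by norm_num)]; congr 1; ring
  have h2 : 1 - (b - a) ≤ (2 : ℝ) ^ (-(b - a)) := by
    rw [Real.rpow_def_of_pos (by norm_num)]
    have h3 : Real.log 2 ≤ 1 := by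
      have := Real.log_two_lt_d9
      linarith
    have h4 : 0 < Real.log 2 := Real.log_pos (by norm_num)
    have h5 := Real.add_one_le_exp (Real.log 2 * -(b - a))
    nlinarith
  have h3 : (2 : ℝ) ^ (1 - a) ≤ 2 := by
    calc (2 : ℝ) ^ (1 - a) ≤ (2 : ℝ) ^ (1 : ℝ) :=
        Real.rpow_le_rpow_of_exponent_le (by norm_num) (by linarith)
      _ = 2 := Real.rpow_one 2
  have h4 : 0 < (2 : ℝ) ^ (1 - a) := Real.rpow_pos_of_pos (by norm_num) _
  rw [h1]
  nlinarith

/-- comparison of two close points: Lipschitz plus a jump -/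
private theorem hh_close {a b d : ℝ} (h1 : a ≤ b) (h2 : b ≤ a + d) :
    |hh b - hh a| ≤ 2 * d + ((⌊a + d⌋ : ℝ) - ⌊a⌋) := by
  have hd : 0 ≤ d := by linarith
  have hf : ⌊b⌋ ≤ ⌊a + d⌋ := Int.floor_mono h2
  have hf0 : ⌊a⌋ ≤ ⌊b⌋ := Int.floor_mono h1
  rcases hf0.eq_or_lt with hab | hab
  · have h3 : hh a = (2 : ℝ) ^ (1 - (a - ⌊a⌋)) := by unfold hh; congr 1; ring
    have h4 : hh b = (2 : ℝ) ^ (1 - (b - ⌊a⌋)) := by unfold hh; rw [hab]; congr 1; ring
    have h5 := two_rpow_lip (a := a - ⌊a⌋) (b := b - ⌊a⌋) (by linarith [Int.floor_le a]) (by linarith)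
    have h6 : hh b ≤ hh a := by
      rw [h3, h4]
      exact Real.rpow_le_rpow_of_exponent_le (by norm_num) (by linarith)
    have h7 : (⌊a⌋ : ℝ) ≤ ⌊a + d⌋ := by exact_mod_cast (hab ▸ hf)
    rw [abs_of_nonpos (by linarith)]
    rw [h3, h4]
    linarith
  · have h3 : (1 : ℝ) ≤ (⌊a + d⌋ : ℝ) - ⌊a⌋ := by
      have : ⌊a⌋ + 1 ≤ ⌊a + d⌋ := by omega
      have : ((⌊a⌋ : ℝ) + 1) ≤ ⌊a + d⌋ := by exact_mod_cast this
      linarith
    have h4 := hh_mem a
    have h5 := hh_mem b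
    have : |hh b - hh a| ≤ 1 := by rw [abs_le]; constructor <;> linarith
    linarith

/-- rearrangement of a periodic function along `i p / q` -/
private theorem perm_sum (F : ℝ → ℝ) (hF : ∀ w : ℝ, ∀ n : ℤ, F (w + n) = F w) (q : ℕ) (p : ℤ)
    (hq : 1 ≤ q) (hpq : IsCoprime p (q : ℤ)) (w0 : ℝ) :
    ∑ i ∈ Finset.range q, F (w0 + i * (p / q)) = ∑ j ∈ Finset.range q, F (w0 + j / q) := by
  have hq0 : (0 : ℤ) < q := by exact_mod_cast hq
  have hqr : (q : ℝ) ≠ 0 := by positivity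
  have hmaps : ∀ i ∈ Finset.range q, ((i : ℤ) * p % q).toNat ∈ Finset.range q := by
    intro i _
    rw [Finset.mem_range]
    have h1 := Int.emod_lt_of_pos ((i : ℤ) * p) hq0
    have h2 := Int.emod_nonneg ((i : ℤ) * p) hq0.ne'
    omega
  have hinj : Set.InjOn (fun i : ℕ => ((i : ℤ) * p % q).toNat) (Finset.range q : Set ℕ) := by
    intro i hi j hj hij
    rw [Finset.mem_coe, Finset.mem_range] at hi hj
    have h1 := Int.emod_nonneg ((i : ℤ) * p) hq0.ne'
    have h2 := Int.emod_nonneg ((j : ℤ) * p) hq0.ne'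
    have h3 : (i : ℤ) * p % q = (j : ℤ) * p % q := by
      simp only at hij
      omega
    have h4 : (q : ℤ) ∣ ((i : ℤ) - j) * p := by
      have := Int.emod_emod_of_dvd
      have h5 : ((i : ℤ) * p - j * p) % q = 0 := by
        rw [Int.sub_emod, h3]; simp
      have h6 := Int.dvd_of_emod_eq_zero h5
      rwa [← sub_mul] at h6
    have h5 : (q : ℤ) ∣ (i : ℤ) - j := hpq.symm.dvd_of_dvd_mul_right h4
    obtain ⟨c, hc⟩ := h5
    have h6 : c = 0 := by
      by_contra hne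
      rcases lt_or_gt_of_ne hne with h | h
      · have : (q : ℤ) * c ≤ -q := by nlinarith
        omega
      · have : (q : ℤ) ≤ q * c := by nlinarith
        omega
    rw [h6] at hc
    omega
  refine Finset.sum_nbij (fun i : ℕ => ((i : ℤ) * p % q).toNat) hmaps hinj ?_ ?_
  · intro j hj
    have := Finset.surjOn_of_injOn_of_card_le (s := Finset.range q) (t := Finset.range q)
      (fun i : ℕ => ((i : ℤ) * p % q).toNat) (fun i hi => hmaps i hi) hinj le_rfl
    exact this hj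
  · intro i _
    have h2 := Int.emod_nonneg ((i : ℤ) * p) hq0.ne'
    have h3 : ((((i : ℤ) * p % q).toNat : ℕ) : ℝ) = (((i : ℤ) * p % q : ℤ) : ℝ) := by
      have : ((((i : ℤ) * p % q).toNat : ℕ) : ℤ) = (i : ℤ) * p % q := Int.toNat_of_nonneg h2
      exact_mod_cast this
    rw [h3]
    have h4 : (i : ℝ) * (p / q) = (((i : ℤ) * p % q : ℤ) : ℝ) / q + (((i : ℤ) * p / q : ℤ) : ℝ) := by
      have h5 := Int.emod_add_mul_ediv ((i : ℤ) * p) q
      have h6 : ((i : ℝ) * p) = (((i : ℤ) * p % q : ℤ) : ℝ) + q * (((i : ℤ) * p / q : ℤ) : ℝ) := by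
        exact_mod_cast h5.symm
      field_simp
      linarith
    rw [h4, ← add_assoc, hF]

/-- the sum over `w0 + j/q` is `1/q`-periodic in `w0` -/
private theorem shift_sum (F : ℝ → ℝ) (hF : ∀ w : ℝ, ∀ n : ℤ, F (w + n) = F w) (q : ℕ)
    (hq : 1 ≤ q) (w0 : ℝ) :
    ∑ j ∈ Finset.range q, F (w0 + 1 / q + j / q) = ∑ j ∈ Finset.range q, F (w0 + j / q) := by
  have hqr : (q : ℝ) ≠ 0 := by positivity
  have h1 : ∀ j : ℕ, F (w0 + 1 / q + j / q) = F (w0 + ((j + 1 : ℕ) : ℝ) / q) := by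
    intro j; congr 1; push_cast; ring
  simp_rw [h1]
  have h2 := Finset.sum_range_succ (fun j : ℕ => F (w0 + (j : ℝ) / q)) q
  have h3 := Finset.sum_range_succ' (fun j : ℕ => F (w0 + (j : ℝ) / q)) q
  have h4 : F (w0 + (q : ℝ) / q) = F (w0 + ((0 : ℕ) : ℝ) / q) := by
    rw [div_self hqr]
    have := hF w0 1
    simpa using this
  linarith

private theorem shift_sum_int (F : ℝ → ℝ) (hF : ∀ w : ℝ, ∀ n : ℤ, F (w + n) = F w) (q : ℕ)
    (hq : 1 ≤ q) (w0 : ℝ) (n : ℕ) :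
    ∑ j ∈ Finset.range q, F (w0 + n / q + j / q) = ∑ j ∈ Finset.range q, F (w0 + j / q) := by
  induction n with
  | zero => simp
  | succ n ih =>
    rw [← ih, ← shift_sum F hF q hq (w0 + n / q)]
    refine Finset.sum_congr rfl fun j _ => ?_
    congr 1
    push_cast
    ring

/-- exact value of the sum over a regular grid -/
private theorem grid_sum (q : ℕ) (hq : 1 ≤ q) (w0 : ℝ) :
    |∑ j ∈ Finset.range q, hh (w0 + j / q) - q / Real.log 2| ≤ 1 := by
  have hqr : (0 : ℝ) < q := by positivity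
  -- move `w0` to `f0 ∈ [0, 1/q)`
  obtain ⟨f0, hf0, hf1, hsum⟩ : ∃ f0 : ℝ, 0 ≤ f0 ∧ f0 < 1 / q ∧
      ∑ j ∈ Finset.range q, hh (w0 + j / q) = ∑ j ∈ Finset.range q, hh (f0 + j / q) := by
    -- first an integer shift to make everything nonnegative
    obtain ⟨w1, hw1, hw1s⟩ : ∃ w1 : ℝ, 0 ≤ w1 ∧
        ∑ j ∈ Finset.range q, hh (w0 + j / q) = ∑ j ∈ Finset.range q, hh (w1 + j / q) := by
      refine ⟨Int.fract w0, Int.fract_nonneg _, Finset.sum_congr rfl fun j _ => ?_⟩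
      have h1 : w0 + (j : ℝ) / q = Int.fract w0 + j / q + ⌊w0⌋ := by
        have := Int.fract_add_floor w0
        linarith
      rw [h1, hh_add_int]
    refine ⟨w1 - ⌊w1 * q⌋₊ / q, ?_, ?_, ?_⟩
    · rw [sub_nonneg, div_le_iff₀ hqr]
      exact Nat.floor_le (by positivity)
    · rw [sub_lt_iff_lt_add, ← add_div, lt_div_iff₀ hqr]
      have := Nat.lt_floor_add_one (w1 * q)
      linarith
    · rw [hw1s, ← shift_sum_int hh hh_add_int q hq (w1 - ⌊w1 * q⌋₊ / q) ⌊w1 * q⌋₊]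
      refine Finset.sum_congr rfl fun j _ => ?_
      congr 1
      ring
  rw [hsum]
  set x : ℝ := Real.log 2 / q with hx
  have hlog : 0 < Real.log 2 := Real.log_pos (by norm_num)
  have hx0 : 0 < x := by positivity
  -- the terms
  have hterm : ∀ j ∈ Finset.range q, hh (f0 + j / q) = (2 : ℝ) ^ (1 - f0) * (Real.exp (-x)) ^ j := by
    intro j hj
    rw [Finset.mem_range] at hj
    have hfl : ⌊f0 + (j : ℝ) / q⌋ = 0 := by
      rw [Int.floor_eq_zero_iff]
      constructor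
      · positivity
      · have h1 : (j : ℝ) + 1 ≤ q := by exact_mod_cast hj
        have h2 : (j : ℝ) / q + 1 / q ≤ 1 := by
          rw [← add_div, div_le_one hqr]; exact h1
        linarith
    unfold hh
    rw [hfl, ← Real.exp_nat_mul, Real.rpow_def_of_pos (by norm_num),
      Real.rpow_def_of_pos (by norm_num), ← Real.exp_add]
    congr 1
    rw [hx]
    push_cast
    field_simp
    ring
  rw [Finset.sum_congr rfl hterm, ← Finset.mul_sum]
  have he1 : Real.exp (-x) < 1 := by rw [Real.exp_lt_one_iff]; linarith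
  have hgeom : ∑ j ∈ Finset.range q, (Real.exp (-x)) ^ j = (1 / 2) / (1 - Real.exp (-x)) := by
    rw [geom_sum_eq he1.ne, ← Real.exp_nat_mul]
    have h1 : Real.exp ((q : ℝ) * -x) = 1 / 2 := by
      rw [hx]
      have : (q : ℝ) * -(Real.log 2 / q) = - Real.log 2 := by field_simp
      rw [this, Real.exp_neg, Real.exp_log (by norm_num)]
      norm_num
    rw [h1, ← neg_sub (1 : ℝ) (Real.exp (-x))]
    rw [show ((1 : ℝ) / 2 - 1) = -(1 / 2) by norm_num, neg_div_neg_eq]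
  rw [hgeom]
  have hA : (2 : ℝ) ^ (1 - f0) * ((1 / 2) / (1 - Real.exp (-x))) =
      (2 : ℝ) ^ (-f0) / (1 - Real.exp (-x)) := by
    rw [show (1 : ℝ) - f0 = 1 + -f0 by ring, Real.rpow_add (by norm_num), Real.rpow_one]
    ring
  rw [hA]
  have hq' : (q : ℝ) / Real.log 2 = 1 / x := by rw [hx]; field_simp
  rw [hq']
  have h1me : 0 < 1 - Real.exp (-x) := by linarith
  have hupper1 : (2 : ℝ) ^ (-f0) ≤ 1 :=
    Real.rpow_le_one_of_one_le_of_nonpos (by norm_num) (by linarith)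
  have hlower1 : Real.exp (-x) ≤ (2 : ℝ) ^ (-f0) := by
    rw [Real.rpow_def_of_pos (by norm_num)]
    apply Real.exp_le_exp.2
    rw [hx]
    have : Real.log 2 * f0 ≤ Real.log 2 * (1 / q) := by gcongr
    have h3 : Real.log 2 * (1 / (q : ℝ)) = Real.log 2 / q := by ring
    linarith
  -- `1/x ≤ 1/(1-e^{-x}) ≤ 1/x + 1`
  have hb1 : 1 - Real.exp (-x) ≤ x := by
    have := Real.add_one_le_exp (-x)
    linarith
  have hb2 : x ≤ (1 - Real.exp (-x)) * (1 + x) := by
    have h3 : (1 + x) * Real.exp (-x) ≤ 1 := by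
      have := Real.add_one_le_exp x
      rw [Real.exp_neg]
      rw [← div_eq_mul_inv, div_le_one (Real.exp_pos x)]
      linarith
    nlinarith
  rw [abs_le]
  constructor
  · have h3 : 1 / x - 1 ≤ Real.exp (-x) / (1 - Real.exp (-x)) := by
      have h4 : Real.exp (-x) / (1 - Real.exp (-x)) = 1 / (1 - Real.exp (-x)) - 1 := by
        field_simp
        ring
      rw [h4]
      have h5 : 1 / x ≤ 1 / (1 - Real.exp (-x)) := one_div_le_one_div_of_le h1me hb1
      linarith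
    have h4 : Real.exp (-x) / (1 - Real.exp (-x)) ≤ (2 : ℝ) ^ (-f0) / (1 - Real.exp (-x)) := by
      gcongr
    linarith
  · have h3 : (2 : ℝ) ^ (-f0) / (1 - Real.exp (-x)) ≤ 1 / (1 - Real.exp (-x)) := by gcongr
    have h4 : 1 / (1 - Real.exp (-x)) ≤ 1 / x + 1 := by
      rw [div_le_iff₀ h1me]
      have h5 : (1 / x + 1) * (1 - Real.exp (-x)) = ((1 - Real.exp (-x)) * (1 + x)) / x := by
        field_simp
      rw [h5, le_div_iff₀ hx0]
      linarith
    linarith

/-- (7.3) one full block of length `q` -/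
theorem block_equi (q : ℕ) (p : ℤ) (hq : 1 ≤ q) (hpq : IsCoprime p (q : ℤ))
    (h : |th - p / q| < 1 / (q : ℝ) ^ 2) (w0 : ℝ) :
    |∑ i ∈ Finset.range q, hh (w0 + i * th) - q / Real.log 2| ≤ 8 := by
  have hqr : (0 : ℝ) < q := by positivity
  have hpos : (0 : ℝ) ≤ 1 / q := by positivity
  -- closeness
  have hclose : ∀ i ∈ Finset.range q, |(w0 + (i : ℝ) * th) - (w0 + i * (p / q))| ≤ 1 / q := by
    intro i hi
    rw [Finset.mem_range] at hi
    have h1 : (w0 + (i : ℝ) * th) - (w0 + i * (p / q)) = i * (th - p / q) := by ring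
    rw [h1, abs_mul, abs_of_nonneg (by positivity : (0 : ℝ) ≤ i)]
    have h2 : (i : ℝ) ≤ q := by exact_mod_cast hi.le
    calc (i : ℝ) * |th - p / q| ≤ q * (1 / (q : ℝ) ^ 2) := by
          gcongr
      _ = 1 / q := by field_simp
  -- the two jump functions
  set J1 : ℝ → ℝ := fun w => (⌊w + 1 / q⌋ : ℝ) - ⌊w⌋ with hJ1
  set J2 : ℝ → ℝ := fun w => (⌊w⌋ : ℝ) - ⌊w - 1 / q⌋ with hJ2
  have hJ1p : ∀ w : ℝ, ∀ n : ℤ, J1 (w + n) = J1 w := by
    intro w n
    simp only [hJ1]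
    rw [add_right_comm, Int.floor_add_intCast, Int.floor_add_intCast]
    push_cast
    ring
  have hJ2p : ∀ w : ℝ, ∀ n : ℤ, J2 (w + n) = J2 w := by
    intro w n
    simp only [hJ2]
    rw [add_sub_right_comm, Int.floor_add_intCast, Int.floor_add_intCast]
    push_cast
    ring
  have hJ1n : ∀ w, 0 ≤ J1 w := by
    intro w
    simp only [hJ1]
    have : ⌊w⌋ ≤ ⌊w + 1 / (q : ℝ)⌋ := Int.floor_mono (by linarith)
    have : (⌊w⌋ : ℝ) ≤ ⌊w + 1 / (q : ℝ)⌋ := by exact_mod_cast this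
    linarith
  have hJ2n : ∀ w, 0 ≤ J2 w := by
    intro w
    simp only [hJ2]
    have : ⌊w - 1 / (q : ℝ)⌋ ≤ ⌊w⌋ := Int.floor_mono (by linarith)
    have : (⌊w - 1 / (q : ℝ)⌋ : ℝ) ≤ ⌊w⌋ := by exact_mod_cast this
    linarith
  -- pointwise comparison
  have hpt : ∀ i ∈ Finset.range q, |hh (w0 + i * th) - hh (w0 + i * (p / q))| ≤
      2 * (1 / q) + (J1 (w0 + i * (p / q)) + J2 (w0 + i * (p / q))) := by
    intro i hi
    have h1 := hclose i hi
    set a := w0 + (i : ℝ) * (p / q) with ha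
    set b := w0 + (i : ℝ) * th with hb
    rw [abs_le] at h1
    rcases le_total a b with hab | hab
    · have h2 := hh_close hab (show b ≤ a + 1 / q by linarith)
      have h3 := hJ2n a
      simp only [hJ1] at *
      linarith
    · have h2 := hh_close (a := a - 1 / q) (b := b) (d := 1 / q) (by linarith) (by linarith)
      have h2' := hh_close (a := b) (b := a) (d := 1 / q) hab (by linarith)
      rw [abs_sub_comm] at h2'
      -- `⌊b + 1/q⌋` may exceed `⌊a⌋`: use the direct estimate instead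
      have h4 : |hh b - hh a| ≤ 2 * (1 / q) + ((⌊a⌋ : ℝ) - ⌊a - 1 / q⌋) := by
        have h5 := hh_close (a := b) (b := a) (d := a - b) hab (by linarith)
        rw [abs_sub_comm] at h5
        have h6 : b + (a - b) = a := by ring
        rw [h6] at h5
        have h7 : (⌊a - 1 / (q : ℝ)⌋ : ℝ) ≤ ⌊b⌋ := by
          have : ⌊a - 1 / (q : ℝ)⌋ ≤ ⌊b⌋ := Int.floor_mono (by linarith)
          exact_mod_cast this
        linarith
      have h3 := hJ1n a
      simp only [hJ2] at *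
      linarith
  -- sums of the jumps
  have hJ1s : ∑ i ∈ Finset.range q, J1 (w0 + i * (p / q)) = 1 := by
    rw [perm_sum J1 hJ1p q p hq hpq w0]
    have h1 : ∀ j : ℕ, J1 (w0 + j / q) =
        (⌊w0 + ((j + 1 : ℕ) : ℝ) / q⌋ : ℝ) - ⌊w0 + (j : ℝ) / q⌋ := by
      intro j
      simp only [hJ1]
      have : w0 + (j : ℝ) / q + 1 / q = w0 + ((j + 1 : ℕ) : ℝ) / q := by push_cast; ring
      rw [this]
    simp_rw [h1]
    rw [Finset.sum_range_sub (fun j : ℕ => (⌊w0 + (j : ℝ) / q⌋ : ℝ)) q]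
    rw [div_self hqr.ne', Nat.cast_zero, zero_div, add_zero, Int.floor_add_one]
    push_cast
    ring
  have hJ2s : ∑ i ∈ Finset.range q, J2 (w0 + i * (p / q)) = 1 := by
    rw [perm_sum J2 hJ2p q p hq hpq w0]
    have h1 : ∀ j : ℕ, J2 (w0 + j / q) =
        (⌊w0 - 1 / q + ((j + 1 : ℕ) : ℝ) / q⌋ : ℝ) - ⌊w0 - 1 / q + (j : ℝ) / q⌋ := by
      intro j
      simp only [hJ2]
      have e1 : w0 - 1 / q + ((j + 1 : ℕ) : ℝ) / q = w0 + (j : ℝ) / q := by push_cast; ring
      have e2 : w0 - 1 / q + (j : ℝ) / q = w0 + (j : ℝ) / q - 1 / q := by ring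
      rw [e1, e2]
    simp_rw [h1]
    rw [Finset.sum_range_sub (fun j : ℕ => (⌊w0 - 1 / q + (j : ℝ) / q⌋ : ℝ)) q]
    rw [div_self hqr.ne', Nat.cast_zero, zero_div, add_zero, Int.floor_add_one]
    push_cast
    ring
  have hsum1 : |∑ i ∈ Finset.range q, hh (w0 + i * th) -
      ∑ i ∈ Finset.range q, hh (w0 + i * (p / q))| ≤ 4 := by
    rw [← Finset.sum_sub_distrib]
    refine (Finset.abs_sum_le_sum_abs _ _).trans ((Finset.sum_le_sum hpt).trans ?_)
    rw [Finset.sum_add_distrib, Finset.sum_add_distrib, hJ1s, hJ2s, Finset.sum_const,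
      Finset.card_range, nsmul_eq_mul]
    have : (q : ℝ) * (2 * (1 / q)) = 2 := by field_simp
    linarith
  have h2 := grid_sum q hq w0
  rw [← perm_sum hh hh_add_int q p hq hpq w0] at h2
  rw [abs_le] at hsum1 h2 ⊢
  constructor <;> linarith [hsum1.1, hsum1.2, h2.1, h2.2]

private theorem dist_lower (Q : ℕ) : ∃ δ : ℝ, 0 < δ ∧ ∀ d : ℕ, 1 ≤ d → d < Q → ∀ z : ℤ,
    δ ≤ |(d : ℝ) * th - z| := by
  induction Q with
  | zero => exact ⟨1, one_pos, fun d _ h => absurd h (by omega)⟩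
  | succ Q ih =>
    obtain ⟨δ, hδ, h⟩ := ih
    by_cases hQ : Q = 0
    · subst hQ
      exact ⟨1, one_pos, fun d h1 h2 => absurd h2 (by omega)⟩
    · have hirr : Irrational ((Q : ℝ) * th) := by
        have := irrational_th.natCast_mul hQ
        exact this
      have hpos : 0 < |(Q : ℝ) * th - round ((Q : ℝ) * th)| := by
        rw [abs_pos, sub_ne_zero]
        exact hirr.ne_int _
      refine ⟨min δ |(Q : ℝ) * th - round ((Q : ℝ) * th)|, lt_min hδ hpos, ?_⟩
      intro d h1 h2 z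
      rcases Nat.lt_succ_iff_lt_or_eq.1 h2 with h3 | h3
      · exact (min_le_left _ _).trans (h d h1 h3 z)
      · subst h3
        exact (min_le_right _ _).trans (round_le _ z)

/-- there are arbitrarily long good blocks -/
theorem exists_block (Q : ℕ) : ∃ (q : ℕ) (p : ℤ), Q ≤ q ∧ 1 ≤ q ∧ IsCoprime p (q : ℤ) ∧
    |th - p / q| < 1 / (q : ℝ) ^ 2 := by
  obtain ⟨δ, hδ, hlow⟩ := dist_lower Q
  obtain ⟨n, hn⟩ := exists_nat_gt (1 / δ)
  have hn0 : 0 < n := by
    have h1 : (0 : ℝ) < n := lt_trans (by positivity) hn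
    exact_mod_cast h1
  obtain ⟨x, hx1, hx2⟩ := Real.exists_rat_abs_sub_le_and_den_le th hn0
  have hden : (0 : ℝ) < x.den := by exact_mod_cast x.den_pos
  have hxe : (x : ℝ) = (x.num : ℝ) / (x.den : ℝ) := by
    exact_mod_cast (Rat.num_div_den x).symm
  have hmul : |(x.den : ℝ) * th - x.num| ≤ 1 / (n + 1) := by
    have h1 : (x.den : ℝ) * th - x.num = x.den * (th - x) := by
      rw [hxe]; field_simp
    rw [h1, abs_mul, abs_of_pos hden]
    calc (x.den : ℝ) * |th - x| ≤ x.den * (1 / ((n + 1) * x.den)) := by gcongr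
      _ = 1 / (n + 1) := by field_simp
  have hlt : (1 : ℝ) / (n + 1) < δ := by
    rw [div_lt_iff₀ (by positivity)]
    have : 1 < δ * n := by
      rw [div_lt_iff₀ hδ] at hn
      linarith
    nlinarith
  refine ⟨x.den, x.num, ?_, x.den_pos, ?_, ?_⟩
  · by_contra hcon
    push Not at hcon
    have := hlow x.den x.den_pos hcon x.num
    linarith
  · have h1 : IsCoprime x.num (x.den : ℤ) := by
      rw [Int.isCoprime_iff_nat_coprime]
      simpa using x.reduced
    exact h1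
  · rw [← hxe]
    refine lt_of_le_of_lt hx1 ?_
    have h1 : (x.den : ℝ) ≤ n := by exact_mod_cast hx2
    apply one_div_lt_one_div_of_lt (by positivity)
    nlinarith

theorem two_rpow_vk (k : ℕ) (Z : ℝ) : (2 : ℝ) ^ (vk k Z) = hh (Z + k * th) := by
  unfold hh vk tk
  rw [add_comm Z]
  congr 1
  push_cast
  ring

end Pool.Agent.W_e21d3a_h93
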