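import Pool.Agent.W_e21d3a_h93.B1c

set_option autoImplicit false

/-!
# [NC] T1a: residue classes (row 497, S2)
-/

namespace Pool.Agent.W_e21d3a_h93

/-- number of elements of one residue class in `(y, 2y]` -/
theorem card_class_le (y q r : ℕ) (hq : 0 < q) :
    ((Finset.Ioc y (2 * y)).filter (fun N => N % q = r)).card ≤ y / q + 1 := by
  have h : ((Finset.Ioc y (2 * y)).filter (fun N => N % q = r)).card ≤
      (Finset.range (y / q + 1)).card := by
    refine Finset.card_le_card_of_injOn (fun N => (N - (y + 1)) / q) ?_ ?_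
    · intro N hN
      have hN' := Finset.mem_filter.mp (Finset.mem_coe.mp hN)
      have h1 := Finset.mem_Ioc.mp hN'.1
      refine Finset.mem_coe.mpr (Finset.mem_range.mpr ?_)
      have h2 : (N - (y + 1)) / q ≤ y / q := Nat.div_le_div_right (by omega)
      show (N - (y + 1)) / q < y / q + 1
      omega
    · intro N hN N' hN' heq
      have hN1 := Finset.mem_filter.mp (Finset.mem_coe.mp hN)
      have hN2 := Finset.mem_filter.mp (Finset.mem_coe.mp hN')
      have h1 := Finset.mem_Ioc.mp hN1.1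
      have h2 := Finset.mem_Ioc.mp hN2.1
      have heq' : (N - (y + 1)) / q = (N' - (y + 1)) / q := heq
      have h3 : (N - (y + 1)) + (y + 1) ≡ (N' - (y + 1)) + (y + 1) [MOD q] := by
        rw [show N - (y + 1) + (y + 1) = N by omega, show N' - (y + 1) + (y + 1) = N' by omega]
        unfold Nat.ModEq
        rw [hN1.2, hN2.2]
      have h4 : (N - (y + 1)) % q = (N' - (y + 1)) % q := Nat.ModEq.add_right_cancel' _ h3
      have h5 : N - (y + 1) = N' - (y + 1) := by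
        rw [← Nat.div_add_mod (N - (y + 1)) q, ← Nat.div_add_mod (N' - (y + 1)) q, heq', h4]
      omega
  rwa [Finset.card_range] at h

theorem t1a_aux {N N' M M' s v k c : ℕ} (h : 2 ^ s * M = 3 ^ k * N + c)
    (h' : 2 ^ s * M' = 3 ^ k * N' + c) (hd : (2 : ℤ) ^ v ∣ 3 * ((M : ℤ) - M')) :
    N % 2 ^ (s + v) = N' % 2 ^ (s + v) := by
  have hz : (2 : ℤ) ^ s * M = 3 ^ k * N + c := by exact_mod_cast h
  have hz' : (2 : ℤ) ^ s * M' = 3 ^ k * N' + c := by exact_mod_cast h'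
  have h1 : (3 : ℤ) ^ (k + 1) * ((N : ℤ) - N') = 2 ^ s * (3 * ((M : ℤ) - M')) := by
    rw [pow_succ]
    linear_combination (-3) * hz + 3 * hz'
  have h2 : (2 : ℤ) ^ (s + v) ∣ 3 ^ (k + 1) * ((N : ℤ) - N') := by
    rw [h1, pow_add]
    exact mul_dvd_mul_left _ hd
  have hcop : IsCoprime ((2 : ℤ) ^ (s + v)) ((3 : ℤ) ^ (k + 1)) := by
    apply IsCoprime.pow
    exact Int.isCoprime_iff_gcd_eq_one.mpr (by norm_num)
  have h3 : (2 : ℤ) ^ (s + v) ∣ (N : ℤ) - N' := hcop.dvd_of_dvd_mul_left h2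
  have h4 : N' ≡ N [MOD 2 ^ (s + v)] := by
    rw [Nat.modEq_iff_dvd]
    exact_mod_cast h3
  exact h4.symm

/-- moreover with `2^{v} | 3 syr^{k} N + 1`, `v ≥ 1`: one class mod `2^{|β|+v}` -/
theorem vals_class' {β : List ℕ} (hpos : ∀ a ∈ β, 1 ≤ a) {v : ℕ} (hv : 1 ≤ v) :
    ∃ r, ∀ N, N % 2 = 1 → vals β.length N = β → v ≤ vv (syr^[β.length] N) →
      N % 2 ^ (β.sum + v) = r := by
  by_cases hex : ∃ N, N % 2 = 1 ∧ vals β.length N = β ∧ v ≤ vv (syr^[β.length] N)
  · obtain ⟨N', h1', h2', h3'⟩ := hex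
    refine ⟨N' % 2 ^ (β.sum + v), fun N h1 h2 h3 => ?_⟩
    have e := traj_eq h1 β.length
    have e' := traj_eq h1' β.length
    rw [h2] at e
    rw [h2'] at e'
    refine t1a_aux e e' ?_
    have d : (2 : ℤ) ^ v ∣ 3 * ((syr^[β.length] N : ℕ) : ℤ) + 1 := by
      have : 2 ^ v ∣ 3 * (syr^[β.length] N) + 1 := by
        rw [← pow_vv_mul]
        exact dvd_mul_of_dvd_left (pow_dvd_pow 2 h3) _
      exact_mod_cast this
    have d' : (2 : ℤ) ^ v ∣ 3 * ((syr^[β.length] N' : ℕ) : ℤ) + 1 := by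
      have : 2 ^ v ∣ 3 * (syr^[β.length] N') + 1 := by
        rw [← pow_vv_mul]
        exact dvd_mul_of_dvd_left (pow_dvd_pow 2 h3') _
      exact_mod_cast this
    have := dvd_sub d d'
    rwa [show 3 * ((syr^[β.length] N : ℕ) : ℤ) + 1 - (3 * ((syr^[β.length] N' : ℕ) : ℤ) + 1) =
      3 * (((syr^[β.length] N : ℕ) : ℤ) - ((syr^[β.length] N' : ℕ) : ℤ)) by ring] at this
  · exact ⟨0, fun N h1 h2 h3 => absurd ⟨N, h1, h2, h3⟩ hex⟩

/-- the odd numbers with given valuations `β` lie in one residue class mod `2^{|β|+1}` -/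
theorem vals_class {β : List ℕ} (hpos : ∀ a ∈ β, 1 ≤ a) :
    ∃ r, ∀ N, N % 2 = 1 → vals β.length N = β → N % 2 ^ (β.sum + 1) = r := by
  obtain ⟨r, hr⟩ := vals_class' hpos (v := 1) le_rfl
  exact ⟨r, fun N h1 h2 => hr N h1 h2 (vv_pos (iter_odd h1 _))⟩

end Pool.Agent.W_e21d3a_h93
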