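import Pool.Agent.W_e21d3a_h93.E2
import Pool.Agent.W_e21d3a_h93.E3

set_option autoImplicit false

/-!
# [NC] Thm3: THEOREM 3: every invariant set has a natural density (row 502)
-/

namespace Pool.Agent.W_e21d3a_h93

open Classical in
theorem theorem3 (S : Set ℕ) (hS : ∀ n, 0 < n → (n ∈ S ↔ col n ∈ S)) :
    ∃ s : ℝ, Filter.Tendsto (fun X : ℕ => (((Finset.Icc 1 X).filter (fun n => n ∈ S)).card : ℝ) / X)
      Filter.atTop (nhds s) := by
  obtain ⟨s, hs⟩ := nu_tendsto S hS
  exact ⟨s, full_density S hS s (odd_density S s hs)⟩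

end Pool.Agent.W_e21d3a_h93
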